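import Pool.Agent.Lib.MP_edb142_al.Mod

open CategoryTheory MonoidalCategory Limits

namespace Pool.Agent.Lib.MP_edb142_al

universe v u

variable {C : Type u} [Category.{v} C] [Preadditive C] [Linear ℂ C] [MonoidalCategory C]
  [MonoidalPreadditive C] [MonoidalLinear ℂ C] [HasFiniteBiproducts C] [BraidedCategory C]
  [RigidCategory C] {I : Type} [Fintype I] [DecidableEq I]

/-- A connected, commutative, separable algebra with trivial twist. -/
structure Etale (M : Modular C I) (L : C) where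
  m : L ⊗ L ⟶ L
  u : 𝟙_ C ⟶ L
  Δ : L ⟶ L ⊗ L
  assoc : m ▷ L ≫ m = (α_ L L L).hom ≫ L ◁ m ≫ m
  one_mul : u ▷ L ≫ m = (λ_ L).hom
  comm : (β_ L L).hom ≫ m = m
  frob_l : Δ ▷ L ≫ (α_ L L L).hom ≫ L ◁ m = m ≫ Δ
  frob_r : L ◁ Δ ≫ (α_ L L L).inv ≫ m ▷ L = m ≫ Δ
  sep : Δ ≫ m = 𝟙 L
  conn : Module.finrank ℂ (𝟙_ C ⟶ L) = 1
  twist : (M.θ.hom.app L : L ⟶ L) = 𝟙 L

/-- No nontrivial sum of dimensions of simple objects vanishes. -/
def Modular.Pos (M : Modular C I) : Prop :=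
  ∀ n : I → ℕ, ∑ i, (n i : ℂ) * M.dim i = 0 → ∀ i, n i = 0

/-- `C` is braided equivalent to the centre of a fusion category. -/
def IsCentre (C : Type u) [Category.{v} C] [Preadditive C] [Linear ℂ C] [MonoidalCategory C]
    [BraidedCategory C] : Prop :=
  ∃ (A : Type (max u v)) (_ : Category.{v} A) (_ : Preadditive A) (_ : Linear ℂ A)
    (_ : MonoidalCategory A) (_ : MonoidalPreadditive A) (_ : MonoidalLinear ℂ A)
    (_ : HasFiniteBiproducts A) (_ : RigidCategory A) (J : Type) (_ : Fintype J),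
    Nonempty (Fusion A J) ∧ Nonempty (CentreEquiv C A)

end Pool.Agent.Lib.MP_edb142_al
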