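import Pool.Agent.Lib.MP_edb142_al.H.Dat1
import Pool.Agent.Lib.MP_edb142_al.Gram

open CategoryTheory MonoidalCategory Limits

namespace Pool.Agent.Lib.MP_edb142_al

universe v u

/-- an endomorphism of `X ⊗ X` acting on the first two factors -/
def op {C : Type u} [Category.{v} C] [MonoidalCategory C] {X : C} (g : X ⊗ X ⟶ X ⊗ X) (Y : C) :
    X ⊗ X ⊗ Y ⟶ X ⊗ X ⊗ Y :=
  (α_ X X Y).inv ≫ g ▷ Y ≫ (α_ X X Y).hom

variable {C : Type u} [Category.{v} C] [Preadditive C] [Linear ℂ C] [MonoidalCategory C]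
  [MonoidalPreadditive C] [MonoidalLinear ℂ C] [HasFiniteBiproducts C] [BraidedCategory C]
  [RigidCategory C] {I : Type} [Fintype I] [DecidableEq I]

/-- the structure maps of an algebra on the sum of the unit and `X` -/
structure TriAlg (X : C) (a : ℂ) where
  P : Du X X
  m : X ⊗ X ⟶ X
  cε : (β_ X X).hom ≫ P.ε = P.ε
  cm : (β_ X X).hom ≫ m = m
  inv : m ▷ X ≫ P.ε = (α_ X X X).hom ≫ X ◁ m ≫ P.ε
  ass : (α_ X X X).hom ≫ X ◁ m ≫ m + a • ((α_ X X X).hom ≫ X ◁ P.ε ≫ (ρ_ X).hom) =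
    m ▷ X ≫ m + a • (P.ε ▷ X ≫ (λ_ X).hom)

/-- the rotation operator on the endomorphisms of a multiplicity free square -/
structure Rot (M : Modular C I) (x : I) (r : I → ℂ) where
  F : (I → ℂ) →ₗ[ℂ] (I → ℂ)
  sa : ∀ f g, ∑ i, M.dim i * (F f i * g i) = ∑ i, M.dim i * (f i * F g i)
  ff : ∀ f, F (F f) = f
  hex : ∀ f, r * F (r * F (r * f)) = F f
  t2 : LinearMap.trace ℂ _ F = 0
  t3 : LinearMap.trace ℂ _ (LinearMap.mulLeft ℂ r⁻¹ ∘ₗ F) = 3
  e1 : F (Pi.single M.o (M.dim x)) = 1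
  sq : F (F (Pi.single x 1) * F (Pi.single x 1)) = F (Pi.single x 1) * F (Pi.single x 1)
  alg : ∀ a : ℂ, F (Pi.single x 1 + a • Pi.single M.o (M.dim x)) =
    Pi.single x 1 + a • Pi.single M.o (M.dim x) → Nonempty (TriAlg (M.X x) a)

end Pool.Agent.Lib.MP_edb142_al
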