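import Pool.Agent.Lib.MP_edb142_al.H.B0

open CategoryTheory MonoidalCategory Limits BraidedCategory

set_option linter.unusedSectionVars false

namespace Pool.Agent.Lib.MP_edb142_al

universe v u

variable {C : Type u} [Category.{v} C] [MonoidalCategory C] {X : C}

theorem wl2 {A B B' D : C} {a : A ⟶ B} {b : B ⟶ D} {c : A ⟶ B'} {d : B' ⟶ D}
    (h : a ≫ b = c ≫ d) : X ◁ a ≫ X ◁ b = X ◁ c ≫ X ◁ d := by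
  simpa only [MonoidalCategory.whiskerLeft_comp] using congrArg (fun t => X ◁ t) h

theorem wl1 {A B D : C} {a : A ⟶ B} {b : B ⟶ D} {c : A ⟶ D}
    (h : a ≫ b = c) : X ◁ a ≫ X ◁ b = X ◁ c := by
  rw [← h, MonoidalCategory.whiskerLeft_comp]

theorem wl0 {A B : C} {a : A ⟶ B} {b : B ⟶ A} (h : a ≫ b = 𝟙 A) : X ◁ a ≫ X ◁ b = 𝟙 _ := by
  rw [wl1 h, MonoidalCategory.whiskerLeft_id]

def mul (m : X ⊗ X ⟶ X) (Y : C) : X ⊗ X ⊗ Y ⟶ X ⊗ Y := (α_ X X Y).inv ≫ m ▷ Y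

def com (c : X ⟶ X ⊗ X) (Y : C) : X ⊗ Y ⟶ X ⊗ X ⊗ Y := c ▷ Y ≫ (α_ X X Y).hom

theorem op_nat (g : X ⊗ X ⟶ X ⊗ X) {Y Z : C} (f : Y ⟶ Z) :
    X ◁ X ◁ f ≫ op g Z = op g Y ≫ X ◁ X ◁ f := by
  unfold op
  calc _ = 𝟙 _ ⊗≫ ((X ⊗ X) ◁ f ≫ g ▷ Z) ⊗≫ 𝟙 _ := by monoidal
    _ = _ := by rw [whisker_exchange]; monoidal

theorem mul_nat (m : X ⊗ X ⟶ X) {Y Z : C} (f : Y ⟶ Z) :
    X ◁ X ◁ f ≫ mul m Z = mul m Y ≫ X ◁ f := by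
  unfold mul
  calc _ = 𝟙 _ ⊗≫ ((X ⊗ X) ◁ f ≫ m ▷ Z) ⊗≫ 𝟙 _ := by monoidal
    _ = _ := by rw [whisker_exchange]; monoidal

theorem com_nat (c : X ⟶ X ⊗ X) {Y Z : C} (f : Y ⟶ Z) :
    X ◁ f ≫ com c Z = com c Y ≫ X ◁ X ◁ f := by
  unfold com
  rw [whisker_exchange_assoc]; monoidal

theorem op_comp (g h : X ⊗ X ⟶ X ⊗ X) (Y : C) : op (g ≫ h) Y = op g Y ≫ op h Y := by
  unfold op; monoidal

theorem op_id (Y : C) : op (𝟙 (X ⊗ X)) Y = 𝟙 _ := by unfold op; monoidal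

theorem op_mul_com (m : X ⊗ X ⟶ X) (c : X ⟶ X ⊗ X) (Y : C) :
    op (m ≫ c) Y = mul m Y ≫ com c Y := by unfold op mul com; monoidal

theorem op_unit (g : X ⊗ X ⟶ X ⊗ X) : X ◁ (ρ_ X).inv ≫ op g (𝟙_ C) ≫ X ◁ (ρ_ X).hom = g := by
  unfold op; monoidal

theorem op_unit' (h : X ⊗ X ⊗ 𝟙_ C ⟶ X ⊗ X ⊗ 𝟙_ C) :
    op (X ◁ (ρ_ X).inv ≫ h ≫ X ◁ (ρ_ X).hom) (𝟙_ C) = h := by
  unfold op; monoidal

namespace Du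
variable (P : Du X X)

def cup (Y : C) : Y ⟶ X ⊗ X ⊗ Y := (λ_ Y).inv ≫ P.η ▷ Y ≫ (α_ X X Y).hom

def cap (Y : C) : X ⊗ X ⊗ Y ⟶ Y := (α_ X X Y).inv ≫ P.ε ▷ Y ≫ (λ_ Y).hom

theorem cup_nat {Y Z : C} (f : Y ⟶ Z) : f ≫ P.cup Z = P.cup Y ≫ X ◁ X ◁ f := by
  unfold cup
  calc _ = 𝟙 _ ⊗≫ (𝟙_ C ◁ f ≫ P.η ▷ Z) ⊗≫ 𝟙 _ := by monoidal
    _ = _ := by rw [whisker_exchange]; monoidal

theorem cap_nat {Y Z : C} (f : Y ⟶ Z) : X ◁ X ◁ f ≫ P.cap Z = P.cap Y ≫ f := by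
  unfold cap
  calc _ = 𝟙 _ ⊗≫ ((X ⊗ X) ◁ f ≫ P.ε ▷ Z) ⊗≫ 𝟙 _ := by monoidal
    _ = _ := by rw [whisker_exchange]; monoidal

theorem zz1 (Y : C) : P.cup (X ⊗ Y) ≫ X ◁ P.cap Y = 𝟙 _ := by
  unfold cup cap
  calc _ = 𝟙 _ ⊗≫ (P.η ▷ X ⊗≫ X ◁ P.ε) ▷ Y ⊗≫ 𝟙 _ := by monoidal
    _ = _ := by rw [P.z2]; monoidal

theorem zz2 (Y : C) : X ◁ P.cup Y ≫ P.cap (X ⊗ Y) = 𝟙 _ := by
  unfold cup cap
  calc _ = 𝟙 _ ⊗≫ (X ◁ P.η ⊗≫ P.ε ▷ X) ▷ Y ⊗≫ 𝟙 _ := by monoidal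
    _ = _ := by rw [P.z1]; monoidal

theorem op_cap_cup (Y : C) : op (P.ε ≫ P.η) Y = P.cap Y ≫ P.cup Y := by
  unfold op cap cup; monoidal

def rot (g : X ⊗ X ⟶ X ⊗ X) : X ⊗ X ⟶ X ⊗ X :=
  P.cup (X ⊗ X) ≫ X ◁ op g X ≫ X ◁ X ◁ P.ε ≫ X ◁ (ρ_ X).hom

theorem op_rot (g : X ⊗ X ⟶ X ⊗ X) (Y : C) :
    op (P.rot g) Y = P.cup (X ⊗ X ⊗ Y) ≫ X ◁ op g (X ⊗ Y) ≫ X ◁ X ◁ P.cap Y := by
  unfold rot op cup cap; monoidal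

def oo (Y : C) : Y ⟶ X ⊗ X ⊗ X ⊗ X ⊗ Y := P.cup Y ≫ X ◁ P.cup (X ⊗ Y)
def ee (Y : C) : Y ⟶ X ⊗ X ⊗ X ⊗ X ⊗ Y := P.cup Y ≫ X ◁ X ◁ P.cup Y
def oo' (Y : C) : X ⊗ X ⊗ X ⊗ X ⊗ Y ⟶ Y := X ◁ P.cap (X ⊗ Y) ≫ P.cap Y
def ee' (Y : C) : X ⊗ X ⊗ X ⊗ X ⊗ Y ⟶ Y := X ◁ X ◁ P.cap Y ≫ P.cap Y

theorem oo_nat {Y Z : C} (f : Y ⟶ Z) : f ≫ P.oo Z = P.oo Y ≫ X ◁ X ◁ X ◁ X ◁ f := by
  unfold oo
  rw [reassoc_of% P.cup_nat f, wl2 (P.cup_nat (X ◁ f)), Category.assoc]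

theorem oo'_nat {Y Z : C} (f : Y ⟶ Z) : X ◁ X ◁ X ◁ X ◁ f ≫ P.oo' Z = P.oo' Y ≫ f := by
  unfold oo'
  rw [reassoc_of% wl2 (P.cap_nat (X ◁ f)), P.cap_nat, Category.assoc]

theorem zz3 (Y : C) : P.oo (X ⊗ X ⊗ Y) ≫ X ◁ X ◁ P.oo' Y = 𝟙 _ := by
  unfold oo oo'
  simp only [MonoidalCategory.whiskerLeft_comp, Category.assoc]
  rw [← reassoc_of% wl2 (P.cup_nat (P.cap (X ⊗ Y))), reassoc_of% P.zz1, wl0 (P.zz1 Y)]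

theorem zz4 (Y : C) : X ◁ X ◁ P.oo Y ≫ P.oo' (X ⊗ X ⊗ Y) = 𝟙 _ := by
  unfold oo oo'
  simp only [MonoidalCategory.whiskerLeft_comp, Category.assoc]
  rw [reassoc_of% wl2 (P.cap_nat (P.cup (X ⊗ Y))), reassoc_of% wl0 (P.zz2 Y), P.zz2]

theorem V1 (g : X ⊗ X ⟶ X ⊗ X) (Y : C) :
    P.oo Y ≫ op (P.rot g) (X ⊗ X ⊗ Y) = P.ee Y ≫ X ◁ op g (X ⊗ Y) := by
  rw [op_rot, reassoc_of% P.cup_nat (P.oo Y), oo, ee]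
  simp only [MonoidalCategory.whiskerLeft_comp, Category.assoc]
  rw [reassoc_of% wl2 (op_nat g (P.cup (X ⊗ Y))), wl0 (wl0 (P.zz2 (X ⊗ Y))), Category.comp_id]

theorem V2 (g : X ⊗ X ⟶ X ⊗ X) (Y : C) :
    X ◁ X ◁ op (P.rot g) Y ≫ P.oo' Y = X ◁ op g (X ⊗ Y) ≫ P.ee' Y := by
  rw [op_rot, oo', ee']
  simp only [MonoidalCategory.whiskerLeft_comp, Category.assoc]
  rw [reassoc_of% wl2 (P.cap_nat (X ◁ P.cap Y)), reassoc_of% wl2 (P.cap_nat (op g (X ⊗ Y))),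
    reassoc_of% wl0 (P.zz2 (X ⊗ X ⊗ Y))]

theorem op_inj {g h : X ⊗ X ⟶ X ⊗ X} (H : op g (𝟙_ C) = op h (𝟙_ C)) : g = h := by
  rw [← op_unit g, H, op_unit]

theorem rot_cc : P.rot (P.ε ≫ P.η) = 𝟙 _ := by
  apply op_inj
  rw [op_rot, op_cap_cup, op_id, MonoidalCategory.whiskerLeft_comp, Category.assoc,
    reassoc_of% P.zz1, wl0 (P.zz1 _)]

section Tri
variable {P} {m : X ⊗ X ⟶ X} {c : X ⟶ X ⊗ X}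
  (hc : c = P.cup X ≫ X ◁ m) (hi : m ▷ X ≫ P.ε = (α_ X X X).hom ≫ X ◁ m ≫ P.ε)

include hc in
theorem com_l (Y : C) : com c Y = P.cup (X ⊗ Y) ≫ X ◁ mul m Y := by
  rw [hc]; unfold com cup mul; monoidal

include hi in
theorem mul_cap (Y : C) : X ◁ mul m Y ≫ P.cap Y = mul m (X ⊗ Y) ≫ P.cap Y := by
  unfold mul cap
  calc _ = 𝟙 _ ⊗≫ ((α_ X X X).hom ≫ X ◁ m ≫ P.ε) ▷ Y ⊗≫ 𝟙 _ := by monoidal
    _ = _ := by rw [← hi]; monoidal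

include hc hi

theorem com_r (Y : C) : com c Y = X ◁ P.cup Y ≫ mul m (X ⊗ Y) := by
  rw [← Category.comp_id (mul m (X ⊗ Y)), ← P.zz1 (X ⊗ Y), reassoc_of% P.cup_nat (mul m (X ⊗ Y)),
    reassoc_of% P.cup_nat (X ◁ P.cup Y), wl2 (mul_cap hi _), reassoc_of% wl2 (mul_nat m (P.cup Y)),
    wl0 (P.zz2 Y), Category.comp_id, com_l hc]

theorem com_cap (Y : C) : com c (X ⊗ Y) ≫ X ◁ P.cap Y = mul m Y := by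
  rw [com_r hc hi, Category.assoc, ← mul_nat, reassoc_of% wl0 (P.zz1 Y)]

theorem frob (Y : C) : X ◁ com c Y ≫ mul m (X ⊗ Y) = com c (X ⊗ Y) ≫ X ◁ mul m Y := by
  rw [com_l hc, com_r hc hi, MonoidalCategory.whiskerLeft_comp, Category.assoc, mul_nat,
    Category.assoc]

theorem cup_com (Y : C) : P.cup Y ≫ X ◁ com c Y = P.cup Y ≫ com c (X ⊗ Y) := by
  rw [com_l hc (X ⊗ Y), reassoc_of% P.cup_nat (P.cup Y), com_r hc hi,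
    MonoidalCategory.whiskerLeft_comp]

theorem op_rung (Y : C) : op (P.rot (m ≫ c)) Y = com c (X ⊗ Y) ≫ X ◁ mul m Y := by
  rw [op_rot, op_mul_com, MonoidalCategory.whiskerLeft_comp, Category.assoc,
    wl1 (com_cap hc hi Y), com_l hc, Category.assoc]

theorem square (Y : C) :
    P.ee Y ≫ X ◁ op (P.rot (m ≫ c)) (X ⊗ Y) ≫ X ◁ op (P.rot (m ≫ c)) (X ⊗ Y) =
      P.oo Y ≫ op (P.rot (m ≫ c)) (X ⊗ X ⊗ Y) ≫ X ◁ X ◁ op (P.rot (m ≫ c)) Y := by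
  simp only [op_rung hc hi, ee, oo, MonoidalCategory.whiskerLeft_comp, Category.assoc]
  rw [reassoc_of% wl2 (com_nat c (P.cup Y)), reassoc_of% wl1 (wl1 (com_r hc hi Y).symm),
    reassoc_of% cup_com hc hi Y, reassoc_of% wl2 (com_nat c (com c Y)), wl2 (wl2 (frob hc hi Y)),
    reassoc_of% com_nat c (P.cup (X ⊗ Y)), reassoc_of% wl1 (com_r hc hi (X ⊗ Y)).symm]

theorem rung_cap (Y : C) :
    op (P.rot (m ≫ c)) (X ⊗ Y) ≫ X ◁ P.cap Y = X ◁ mul m Y ≫ mul m Y := by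
  rw [op_rung hc hi, Category.assoc, ← wl2 (mul_cap hi Y), ← reassoc_of% com_nat c (mul m Y),
    com_cap hc hi]

end Tri

end Du

section Br
variable [BraidedCategory C]

theorem br2 (Y : C) : op (β_ X X).hom (X ⊗ Y) ≫ X ◁ op (β_ X X).hom Y =
    𝟙 _ ⊗≫ (β_ X (X ⊗ X)).hom ▷ Y ⊗≫ 𝟙 _ := by
  unfold op
  rw [braiding_tensor_right_hom]; monoidal

theorem s_op (g : X ⊗ X ⟶ X ⊗ X) (Y : C) :
    X ◁ op g Y ≫ op (β_ X X).hom (X ⊗ Y) ≫ X ◁ op (β_ X X).hom Y =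
      op (β_ X X).hom (X ⊗ Y) ≫ X ◁ op (β_ X X).hom Y ≫ op g (X ⊗ Y) := by
  rw [reassoc_of% br2 Y, br2]
  unfold op
  calc _ = 𝟙 _ ⊗≫ (X ◁ g ≫ (β_ X (X ⊗ X)).hom) ▷ Y ⊗≫ 𝟙 _ := by monoidal
    _ = _ := by rw [braiding_naturality_right]; monoidal

theorem s_cup (P : Du X X) (Y : C) :
    X ◁ P.cup Y ≫ op (β_ X X).hom (X ⊗ Y) ≫ X ◁ op (β_ X X).hom Y = P.cup (X ⊗ Y) := by
  rw [br2]
  unfold Du.cup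
  calc _ = 𝟙 _ ⊗≫ (X ◁ P.η ≫ (β_ X (X ⊗ X)).hom) ▷ Y ⊗≫ 𝟙 _ := by monoidal
    _ = _ := by rw [braiding_naturality_right, braiding_tensorUnit_right]; monoidal

theorem s_cap (P : Du X X) (Y : C) :
    op (β_ X X).hom (X ⊗ Y) ≫ X ◁ op (β_ X X).hom Y ≫ P.cap (X ⊗ Y) = X ◁ P.cap Y := by
  rw [reassoc_of% br2 Y]
  unfold Du.cap
  calc _ = 𝟙 _ ⊗≫ ((β_ X (X ⊗ X)).hom ≫ P.ε ▷ X) ▷ Y ⊗≫ 𝟙 _ := by monoidal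
    _ = _ := by rw [← braiding_naturality_right, braiding_tensorUnit_right]; monoidal

/-- the rotation braid on four strands -/
noncomputable def dl (X Y : C) : X ⊗ X ⊗ X ⊗ X ⊗ Y ⟶ X ⊗ X ⊗ X ⊗ X ⊗ Y :=
  op (β_ X X).hom (X ⊗ X ⊗ Y) ≫ X ◁ op (β_ X X).hom (X ⊗ Y) ≫ X ◁ X ◁ op (β_ X X).hom Y

theorem dl_23 (g : X ⊗ X ⟶ X ⊗ X) (Y : C) :
    X ◁ op g (X ⊗ Y) ≫ dl X Y = dl X Y ≫ op g (X ⊗ X ⊗ Y) := by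
  unfold dl
  rw [reassoc_of% s_op g (X ⊗ Y), ← op_nat]
  simp only [Category.assoc]

theorem dl_34 (g : X ⊗ X ⟶ X ⊗ X) (Y : C) :
    X ◁ X ◁ op g Y ≫ dl X Y = dl X Y ≫ X ◁ op g (X ⊗ Y) := by
  unfold dl
  have := congrArg (fun t => X ◁ t) (s_op g Y)
  simp only [MonoidalCategory.whiskerLeft_comp] at this
  rw [reassoc_of% op_nat (β_ X X).hom (op g Y), this]
  simp only [Category.assoc]

theorem ee_dl (P : Du X X) (h : P.η ≫ (β_ X X).hom = P.η) (Y : C) : P.ee Y ≫ dl X Y = P.oo Y := by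
  have a : ∀ Z, P.cup Z ≫ op (β_ X X).hom Z = P.cup Z := fun Z => by
    unfold Du.cup op
    conv_rhs => rw [← h]
    monoidal
  have := congrArg (fun t => X ◁ t) (s_cup P Y)
  simp only [MonoidalCategory.whiskerLeft_comp] at this
  unfold Du.ee dl Du.oo
  rw [Category.assoc, reassoc_of% op_nat (β_ X X).hom (P.cup Y), reassoc_of% a, this]

theorem dl_oo' (P : Du X X) (h : (β_ X X).hom ≫ P.ε = P.ε) (Y : C) :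
    dl X Y ≫ P.oo' Y = P.ee' Y := by
  have a : ∀ Z, op (β_ X X).hom Z ≫ P.cap Z = P.cap Z := fun Z => by
    unfold Du.cap op
    conv_rhs => rw [← h]
    monoidal
  have := congrArg (fun t => X ◁ t) (s_cap P Y)
  simp only [MonoidalCategory.whiskerLeft_comp] at this
  unfold Du.ee' dl Du.oo'
  simp only [Category.assoc]
  rw [reassoc_of% this, ← reassoc_of% op_nat (β_ X X).hom (P.cap Y), a]

theorem dl_bb : dl X (𝟙_ C) ≫ X ◁ X ◁ op (β_ X X).hom (𝟙_ C) ≫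
    X ◁ op (β_ X X).hom (X ⊗ 𝟙_ C) ≫ op (β_ X X).hom (X ⊗ X ⊗ 𝟙_ C) =
      Tw.bb X (X ⊗ X ⊗ X ⊗ 𝟙_ C) := by
  unfold dl op Tw.bb
  simp only [braiding_tensor_right_hom, braiding_tensor_left_hom, braiding_tensorUnit_right,
    braiding_tensorUnit_left]
  monoidal

end Br

end Pool.Agent.Lib.MP_edb142_al
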