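import Pool.Agent.Lib.MP_edb142_al.H.B0

open CategoryTheory MonoidalCategory Limits BraidedCategory

set_option linter.unusedSectionVars false

namespace Pool.Agent.Lib.MP_edb142_al

universe v u

section Br
variable {C : Type u} [Category.{v} C] [MonoidalCategory C] [BraidedCategory C]

theorem Tw.co_triv (θ : Tw C) {V d : C} (P : Du V d) (h : (θ.t V).hom = 𝟙 V) :
    θ.co P = P.η ≫ (β_ V d).hom := by
  have hd : (θ.t d).hom = 𝟙 d := by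
    apply P.ε_right_inj
    rw [θ.dual P, h]; simp
  have hi : (θ.t V).inv = 𝟙 V := by
    rw [← cancel_epi (θ.t V).hom, Iso.hom_inv_id, h, Category.comp_id]
  have h1 := θ.nat P.η
  rw [θ.unit, θ.tens, h, hd, Category.id_comp] at h1
  unfold Tw.co
  rw [hi, id_whiskerRight, Category.id_comp, Iso.comp_inv_eq, Category.assoc]
  simpa using h1.symm

theorem Tw.pt_braid (θ : Tw C) {V d : C} (P : Du V d) (h : (θ.t V).hom = 𝟙 V) :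
    θ.pt P (β_ V V).hom = 𝟙 V := by
  unfold Tw.pt ptr
  rw [θ.co_triv P h]
  calc _ = 𝟙 _ ⊗≫ P.η ▷ V ⊗≫ ((β_ V (d ⊗ V)).hom ≫ P.ε ▷ V) ⊗≫ 𝟙 _ := by
        rw [braiding_tensor_right_hom]; monoidal
    _ = 𝟙 _ ⊗≫ (P.η ▷ V ⊗≫ V ◁ P.ε) ⊗≫ 𝟙 _ := by
        rw [← braiding_naturality_right, braiding_tensorUnit_right]; monoidal
    _ = _ := by rw [P.z2]; monoidal

/-- an endomorphism of `X ⊗ Z` transported across `U` -/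
def yy {X Z : C} (U : C) (c : X ⊗ Z ⟶ X ⊗ Z) : (X ⊗ U) ⊗ Z ⟶ (X ⊗ U) ⊗ Z :=
  (β_ X U).hom ▷ Z ≫ (α_ U X Z).hom ≫ U ◁ c ≫ (α_ U X Z).inv ≫ (β_ X U).inv ▷ Z

theorem yy_comp {X Z : C} (U : C) (c c' : X ⊗ Z ⟶ X ⊗ Z) :
    yy U c ≫ yy U c' = yy U (c ≫ c') := by
  unfold yy
  simp [← comp_whiskerRight_assoc]

theorem yy_id {X Z : C} (U : C) : yy U (𝟙 (X ⊗ Z)) = 𝟙 _ := by
  unfold yy
  simp [← comp_whiskerRight]

theorem bb_yy (X U Z : C) : Tw.bb (X ⊗ U) Z =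
    (α_ X U Z).hom ≫ X ◁ Tw.bb U Z ≫ (α_ X U Z).inv ≫ yy U (Tw.bb X Z) := by
  have h1 : X ◁ (β_ Z U).hom ⊗≫ (β_ X U).hom ▷ Z ⊗≫ U ◁ (β_ X Z).hom =
      𝟙 _ ⊗≫ (β_ X Z).hom ▷ U ⊗≫ Z ◁ (β_ X U).hom ⊗≫ (β_ Z U).hom ▷ X ⊗≫ 𝟙 _ := by
    calc _ = (X ◁ (β_ Z U).hom ≫ (β_ X (U ⊗ Z)).hom) ⊗≫ 𝟙 _ := by
          rw [braiding_tensor_right_hom]; monoidal
      _ = _ := by rw [braiding_naturality_right, braiding_tensor_right_hom]; monoidal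
  have h2 : Z ◁ (β_ X U).hom ⊗≫ (β_ Z U).hom ▷ X ⊗≫ U ◁ (β_ Z X).hom =
      𝟙 _ ⊗≫ (β_ Z X).hom ▷ U ⊗≫ X ◁ (β_ Z U).hom ⊗≫ (β_ X U).hom ▷ Z ⊗≫ 𝟙 _ := by
    calc _ = (Z ◁ (β_ X U).hom ≫ (β_ Z (U ⊗ X)).hom) ⊗≫ 𝟙 _ := by
          rw [braiding_tensor_right_hom]; monoidal
      _ = _ := by rw [braiding_naturality_right, braiding_tensor_right_hom]; monoidal
  unfold yy Tw.bb
  symm
  calc _ = 𝟙 _ ⊗≫ X ◁ (β_ U Z).hom ⊗≫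
        (X ◁ (β_ Z U).hom ⊗≫ (β_ X U).hom ▷ Z ⊗≫ U ◁ (β_ X Z).hom) ⊗≫ U ◁ (β_ Z X).hom ⊗≫
          (β_ X U).inv ▷ Z := by monoidal
    _ = 𝟙 _ ⊗≫ X ◁ (β_ U Z).hom ⊗≫ (β_ X Z).hom ▷ U ⊗≫
        (Z ◁ (β_ X U).hom ⊗≫ (β_ Z U).hom ▷ X ⊗≫ U ◁ (β_ Z X).hom) ⊗≫
          (β_ X U).inv ▷ Z := by rw [h1]; monoidal
    _ = 𝟙 _ ⊗≫ X ◁ (β_ U Z).hom ⊗≫ (β_ X Z).hom ▷ U ⊗≫ (β_ Z X).hom ▷ U ⊗≫
        X ◁ (β_ Z U).hom ⊗≫ ((β_ X U).hom ≫ (β_ X U).inv) ▷ Z := by rw [h2]; monoidal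
    _ = _ := by
      rw [Iso.hom_inv_id, braiding_tensor_left_hom, braiding_tensor_right_hom]; monoidal

theorem yy_op {X Z : C} (U : C) (c : X ⊗ Z ⟶ X ⊗ Z) :
    yy (X ⊗ U) c ≫ op (β_ X X).hom U ▷ Z =
      op (β_ X X).hom U ▷ Z ≫ (α_ X (X ⊗ U) Z).hom ≫ X ◁ yy U c ≫ (α_ X (X ⊗ U) Z).inv := by
  unfold yy op
  rw [braiding_tensor_right_hom, braiding_tensor_right_inv]
  calc _ = 𝟙 _ ⊗≫ (β_ X X).hom ▷ U ▷ Z ⊗≫ X ◁ (β_ X U).hom ▷ Z ⊗≫ X ◁ U ◁ c ⊗≫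
        X ◁ (β_ X U).inv ▷ Z ⊗≫ ((β_ X X).inv ≫ (β_ X X).hom) ▷ U ▷ Z ⊗≫ 𝟙 _ := by monoidal
    _ = _ := by rw [Iso.inv_hom_id]; monoidal

theorem yy_unit {X Z : C} (c : X ⊗ Z ⟶ X ⊗ Z) :
    yy (𝟙_ C) c = (ρ_ X).hom ▷ Z ≫ c ≫ (ρ_ X).inv ▷ Z := by
  unfold yy
  rw [braiding_tensorUnit_right, braiding_inv_tensorUnit_right]; monoidal

theorem bb_unit (Z : C) : Tw.bb (𝟙_ C) Z = 𝟙 _ := by
  unfold Tw.bb
  rw [braiding_tensorUnit_left, braiding_tensorUnit_right]; simp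

end Br

variable {C : Type u} [Category.{v} C] [Preadditive C] [Linear ℂ C] [MonoidalCategory C]
  [MonoidalPreadditive C] [MonoidalLinear ℂ C] [HasFiniteBiproducts C] [BraidedCategory C]
  [RigidCategory C] {I : Type} [Fintype I] [DecidableEq I]

namespace Modular
variable (M : Modular C I)

theorem trL_pt {V d W : C} (P : Du V d) (g : V ⊗ W ⟶ V ⊗ W) :
    M.trL (V ⊗ W) g = M.trL W (M.tw.pt P g) := by
  apply M.s1.inj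
  rw [← M.tr_eq (P.tensor (du W)), Tw.tr_tensor, tr_eq]

theorem sL_trace (j : I) (V : C) (f : V ⟶ V) :
    M.sL j V f = ∑ k, LinearMap.trace ℂ _ (Linear.rightComp ℂ (M.X k) f) * M.s j (M.X k) := by
  let φ := M.ss.fr V
  conv_lhs => rw [← Category.id_comp f, ← φ.tot]
  rw [Preadditive.sum_comp, map_sum]
  refine Finset.sum_congr rfl fun k _ => ?_
  rw [Preadditive.sum_comp, map_sum, trace_to M.ss φ, Finset.sum_mul]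
  refine Finset.sum_congr rfl fun a _ => ?_
  rw [Category.assoc, sL_cyc]
  conv_lhs => rw [(M.ss.sim k).spec ((φ.e k a ≫ f) ≫ φ.f k a), map_smul]
  rfl

theorem sum_trace (j : I) (V : C) (f : V ⟶ V) :
    ∑ k, LinearMap.trace ℂ _ (Linear.rightComp ℂ (M.X k) f) * M.S k j =
      M.trL (V ⊗ M.X j) (Tw.bb V (M.X j) ≫ f ▷ M.X j) := by
  simp only [S_s, ← mul_assoc]
  rw [← Finset.sum_mul, ← sL_trace, ← Tw.bb_nat, M.trL_pt (du V)]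
  conv_rhs => rw [(M.ss.sim j).spec (M.tw.pt _ _), map_smul]
  rfl

/-- the closure of a braid on `X ⊗ U` wound once around `Z`, with the first strand acted on by `c` -/
noncomputable def EE {X Z : C} (c : X ⊗ Z ⟶ X ⊗ Z) (U : C) (D : X ⊗ U ⟶ X ⊗ U) : ℂ :=
  M.trL ((X ⊗ U) ⊗ Z) (Tw.bb (X ⊗ U) Z ≫ yy U c ≫ D ▷ Z)

theorem EE_id {X : C} (Z U : C) (D : X ⊗ U ⟶ X ⊗ U) :
    M.trL ((X ⊗ U) ⊗ Z) (Tw.bb (X ⊗ U) Z ≫ D ▷ Z) = M.EE (𝟙 (X ⊗ Z)) U D := by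
  unfold EE
  rw [yy_id, Category.id_comp]

theorem EE_step {X Z : C} (h : (M.tw.t X).hom = 𝟙 X) (c : X ⊗ Z ⟶ X ⊗ Z) (U : C)
    (D : X ⊗ U ⟶ X ⊗ U) :
    M.EE c (X ⊗ U) (op (β_ X X).hom U ≫ X ◁ D) = M.EE (Tw.bb X Z ≫ c) U D := by
  unfold EE
  have e : Tw.bb (X ⊗ X ⊗ U) Z ≫ yy (X ⊗ U) c ≫ (op (β_ X X).hom U ≫ X ◁ D) ▷ Z =
      (α_ X (X ⊗ U) Z).hom ≫ (X ◁ Tw.bb (X ⊗ U) Z ≫
        ((α_ X (X ⊗ U) Z).inv ≫ op (β_ X X).hom U ▷ Z ≫ (α_ X (X ⊗ U) Z).hom) ≫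
          X ◁ (yy U (Tw.bb X Z ≫ c) ≫ D ▷ Z)) ≫ (α_ X (X ⊗ U) Z).inv := by
    rw [bb_yy X (X ⊗ U) Z, comp_whiskerRight]
    simp only [Category.assoc]
    rw [reassoc_of% (yy_comp (X ⊗ U) (Tw.bb X Z) c), reassoc_of% (yy_op U (Tw.bb X Z ≫ c))]
    monoidal
  rw [e, trL_cyc, Category.assoc, Iso.inv_hom_id, Category.comp_id, M.trL_pt (du X)]
  have hb := M.tw.pt_braid (du X) h
  unfold Tw.pt at hb ⊢
  rw [ptr_left, ptr_right, ptr_whisk]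
  unfold op
  rw [ptr_whisk, hb]
  simp

theorem EE_unit {X Z : C} (c : X ⊗ Z ⟶ X ⊗ Z) :
    M.EE c (𝟙_ C) (𝟙 _) = M.trL (X ⊗ Z) (Tw.bb X Z ≫ c) := by
  unfold EE
  rw [bb_yy, bb_unit]
  simp only [MonoidalCategory.whiskerLeft_id, Category.id_comp, Iso.hom_inv_id_assoc,
    id_whiskerRight, Category.comp_id]
  rw [yy_comp, yy_unit, trL_cyc, Category.assoc, ← comp_whiskerRight, Iso.inv_hom_id,
    id_whiskerRight, Category.comp_id]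

/-- iterated composition -/
def cpow {V : C} (f : V ⟶ V) : ℕ → (V ⟶ V)
  | 0 => 𝟙 V
  | n + 1 => f ≫ cpow f n

theorem tr_cpow (x : I) (hT : M.T x = 1) (j : I) (n : ℕ) :
    M.trL _ (cpow (Tw.bb (M.X x) (M.X j)) n) = M.G x n j := by
  have hs : ∀ {V : C} (a : ℂ) (f : V ⟶ V) (n : ℕ), cpow (a • f) n = a ^ n • cpow f n := by
    intro V a f n
    induction n with
    | zero => simp [cpow]
    | succ n ih => simp [cpow, ih, smul_smul, pow_succ]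
  have h1 : ∀ {V : C} (n : ℕ), cpow (𝟙 V) n = 𝟙 V := by
    intro V n
    induction n with
    | zero => rfl
    | succ n ih => simp [cpow, ih]
  have hn : ∀ (n : ℕ) {V U : C} (f : V ⟶ U),
      f ≫ cpow (M.tw.t U).hom n = cpow (M.tw.t V).hom n ≫ f := by
    intro n V U f
    induction n with
    | zero => simp [cpow]
    | succ n ih => simp only [cpow]; rw [reassoc_of% (M.tw.nat f), ih, Category.assoc]
  have h := M.ss.tr_fun M.trL M.trL_cyc (fun V => cpow (M.tw.t V).hom n) (hn n) (M.X x ⊗ M.X j)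
  have hb : Tw.bb (M.X x) (M.X j) = (M.T j)⁻¹ • (M.tw.t (M.X x ⊗ M.X j)).hom := by
    rw [M.tw.tens, tw_X, tw_X, hT, MonoidalCategory.tensorHom_def]
    simp [Tw.bb, smul_smul, M.T_ne j]
  rw [hb, hs, map_smul, h]
  simp only [tw_X, hs, h1, map_smul, smul_eq_mul]
  rfl

theorem markov2 (x : I) (hT : M.T x = 1) (j : I) :
    ∑ k, LinearMap.trace ℂ _ (Linear.rightComp ℂ (M.X k) (β_ (M.X x) (M.X x)).hom) * M.S k j =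
      M.G x 2 j := by
  have h : (M.tw.t (M.X x)).hom = 𝟙 _ := by rw [tw_X, hT, one_smul]
  have e : (β_ (M.X x) (M.X x)).hom = (M.X x ◁ (ρ_ (M.X x)).inv ≫
      op (β_ (M.X x) (M.X x)).hom (𝟙_ C) ≫ M.X x ◁ 𝟙 _) ≫ M.X x ◁ (ρ_ (M.X x)).hom := by
    unfold op; monoidal
  rw [sum_trace, e, comp_whiskerRight, ← Category.assoc, trL_cyc, ← Category.assoc, Tw.bb_nat,
    Category.assoc, ← comp_whiskerRight, ← Category.assoc, ← MonoidalCategory.whiskerLeft_comp,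
    Iso.hom_inv_id, MonoidalCategory.whiskerLeft_id, Category.id_comp, EE_id,
    ← MonoidalCategory.whiskerLeft_id (M.X x) (M.X x ⊗ 𝟙_ C), M.EE_step h, EE_unit,
    ← M.tr_cpow x hT]
  rfl

theorem markov3 (x : I) (hT : M.T x = 1) (j : I) :
    ∑ k, LinearMap.trace ℂ _ (Linear.rightComp ℂ (M.X k)
      (op (β_ (M.X x) (M.X x)).hom (M.X x ⊗ 𝟙_ C) ≫ M.X x ◁ op (β_ (M.X x) (M.X x)).hom (𝟙_ C))) *
        M.S k j = M.G x 3 j := by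
  have h : (M.tw.t (M.X x)).hom = 𝟙 _ := by rw [tw_X, hT, one_smul]
  have e : op (β_ (M.X x) (M.X x)).hom (𝟙_ C) =
      op (β_ (M.X x) (M.X x)).hom (𝟙_ C) ≫ M.X x ◁ 𝟙 _ := by simp
  rw [sum_trace, EE_id, M.EE_step h, e, M.EE_step h, EE_unit, ← M.tr_cpow x hT]
  rfl

theorem markov4 (x : I) (hT : M.T x = 1) (j : I) :
    ∑ k, LinearMap.trace ℂ _ (Linear.rightComp ℂ (M.X k)
      (op (β_ (M.X x) (M.X x)).hom (M.X x ⊗ M.X x ⊗ 𝟙_ C) ≫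
        M.X x ◁ op (β_ (M.X x) (M.X x)).hom (M.X x ⊗ 𝟙_ C) ≫
          M.X x ◁ M.X x ◁ op (β_ (M.X x) (M.X x)).hom (𝟙_ C))) * M.S k j = M.G x 4 j := by
  have h : (M.tw.t (M.X x)).hom = 𝟙 _ := by rw [tw_X, hT, one_smul]
  have e : op (β_ (M.X x) (M.X x)).hom (𝟙_ C) =
      op (β_ (M.X x) (M.X x)).hom (𝟙_ C) ≫ M.X x ◁ 𝟙 _ := by simp
  rw [sum_trace, EE_id, ← MonoidalCategory.whiskerLeft_comp, M.EE_step h, M.EE_step h, e,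
    M.EE_step h, EE_unit, ← M.tr_cpow x hT]
  rfl

end Modular

end Pool.Agent.Lib.MP_edb142_al
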