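import Pool.Agent.Lib.MP_edb142_al.H.B3b
import Pool.Agent.Lib.MP_edb142_al.H.B2

open CategoryTheory MonoidalCategory Limits BraidedCategory

namespace Pool.Agent.Lib.MP_edb142_al

universe v u

variable {C : Type u} [Category.{v} C] [Preadditive C] [Linear ℂ C] [MonoidalCategory C]
  [MonoidalPreadditive C] [MonoidalLinear ℂ C] [HasFiniteBiproducts C] [BraidedCategory C]
  [RigidCategory C] {I : Type} [Fintype I] [DecidableEq I]

theorem Modular.rot (M : Modular C I) (x : I) (hxo : x ≠ M.o) (hT : M.T x = 1)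
    (hN : ∀ k, M.N x x k = 1) (hsd : ∀ k l, k ≠ l → M.N k l M.o = 0) (r : I → ℂ)
    (h2 : ∀ t : I → ℂ, (∀ j, ∑ k, t k * M.S k j = M.G x 2 j) → t = r)
    (r0 : r M.o = 1) (rx : r x = 1)
    (h3 : ∀ t : I → ℂ, (∀ j, ∑ k, t k * M.S k j = M.G x 3 j) → t x = 3)
    (h4 : ∀ t : I → ℂ, (∀ j, ∑ k, t k * M.S k j = M.G x 4 j) → t M.o = 0) :
    Nonempty (Rot M x r) := by
  obtain ⟨Q⟩ := M.exists_sq hN
  obtain ⟨P⟩ := M.selfdu x (hN _) hsd
  obtain ⟨a, ha⟩ := Q.Φ_bij.2 (β_ (M.X x) (M.X x)).hom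
  have hr : a = r := h2 a fun j => by
    rw [← M.markov2 x hT j, ← ha]
    simp only [Sq.Φ_trace]
  let K : Ctx M x r := ⟨Q, P, hxo, hT, hsd, hr ▸ ha, r0, rx⟩
  exact ⟨⟨K.F, K.sa, K.ff, K.hex, K.tr2.trans (h4 _ (M.markov4 x hT)),
    K.tr3.trans (h3 _ (M.markov3 x hT)), K.e1, K.sq, K.alg⟩⟩

end Pool.Agent.Lib.MP_edb142_al
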