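import Pool.Agent.Lib.MP_edb142_al.Dual

open CategoryTheory MonoidalCategory Limits Idempotents

set_option linter.unusedSectionVars false

namespace Pool.Agent.Lib.MP_edb142_al

universe v u

section Retract
variable {A : Type u} [Category.{v} A] [MonoidalCategory A]

/-- duality data between compatible retracts -/
def Du.retract {V d P Q : A} (D : Du V d) (i : P ⟶ V) (r : V ⟶ P) (j : Q ⟶ d) (s : d ⟶ Q)
    (hi : i ≫ r = 𝟙 P) (hj : j ≫ s = 𝟙 Q) (h : D.η ≫ V ◁ (s ≫ j) = D.η ≫ (r ≫ i) ▷ d) :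
    Du P Q where
  η := D.η ≫ r ▷ d ≫ P ◁ s
  ε := j ▷ P ≫ d ◁ i ≫ D.ε
  z1 := by
    calc _ = Q ◁ D.η ⊗≫ (Q ◁ r ≫ j ▷ P) ▷ d ⊗≫ ((d ⊗ P) ◁ s ≫ (d ◁ i ≫ D.ε) ▷ Q) ⊗≫ 𝟙 _ := by
          have e : (Q ⊗ P) ◁ s ≫ (j ▷ P) ▷ Q = (j ▷ P) ▷ d ≫ (d ⊗ P) ◁ s := whisker_exchange _ _
          calc _ = Q ◁ D.η ⊗≫ (Q ◁ r) ▷ d ⊗≫ ((Q ⊗ P) ◁ s ≫ (j ▷ P) ▷ Q) ⊗≫
                (d ◁ i ≫ D.ε) ▷ Q ⊗≫ 𝟙 _ := by monoidal
            _ = _ := by rw [e]; monoidal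
      _ = (Q ◁ D.η ≫ j ▷ (V ⊗ d)) ⊗≫ d ◁ ((r ≫ i) ▷ d) ⊗≫ D.ε ▷ d ⊗≫ s ⊗≫ 𝟙 _ := by
          rw [whisker_exchange, whisker_exchange]; monoidal
      _ = 𝟙 _ ⊗≫ j ⊗≫ d ◁ (D.η ≫ (r ≫ i) ▷ d) ⊗≫ D.ε ▷ d ⊗≫ s ⊗≫ 𝟙 _ := by
          rw [whisker_exchange]; monoidal
      _ = 𝟙 _ ⊗≫ j ⊗≫ d ◁ D.η ⊗≫ ((d ⊗ V) ◁ (s ≫ j) ≫ D.ε ▷ d) ⊗≫ s ⊗≫ 𝟙 _ := by
          rw [← h]; monoidal
      _ = 𝟙 _ ⊗≫ j ⊗≫ (d ◁ D.η ⊗≫ D.ε ▷ d) ⊗≫ (s ≫ (j ≫ s)) ⊗≫ 𝟙 _ := by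
          rw [whisker_exchange]; monoidal
      _ = 𝟙 _ ⊗≫ (j ≫ s ≫ (j ≫ s)) ⊗≫ 𝟙 _ := by rw [D.z1]; monoidal
      _ = _ := by rw [hj, Category.comp_id, hj]; monoidal
  z2 := by
    calc _ = D.η ▷ P ⊗≫ (r ▷ (d ⊗ P) ≫ P ◁ ((s ≫ j) ▷ P ≫ d ◁ i ≫ D.ε)) ⊗≫ 𝟙 _ := by monoidal
      _ = 𝟙 _ ⊗≫ ((D.η ≫ V ◁ (s ≫ j)) ▷ P ≫ (V ⊗ d) ◁ i) ⊗≫ V ◁ D.ε ⊗≫ r ⊗≫ 𝟙 _ := by
          rw [← whisker_exchange]; monoidal
      _ = 𝟙 _ ⊗≫ i ⊗≫ D.η ▷ V ⊗≫ ((r ≫ i) ▷ (d ⊗ V) ≫ V ◁ D.ε) ⊗≫ r ⊗≫ 𝟙 _ := by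
          rw [h, ← whisker_exchange]; monoidal
      _ = 𝟙 _ ⊗≫ i ⊗≫ (D.η ▷ V ⊗≫ V ◁ D.ε) ⊗≫ (r ≫ (i ≫ r)) ⊗≫ 𝟙 _ := by
          rw [← whisker_exchange]; monoidal
      _ = 𝟙 _ ⊗≫ (i ≫ r ≫ (i ≫ r)) ⊗≫ 𝟙 _ := by rw [D.z2]; monoidal
      _ = _ := by rw [hi, Category.comp_id, hi]; monoidal

theorem Du.mate_comp {V d U e W c : A} (P : Du V d) (Q : Du U e) (R : Du W c) (f : V ⟶ U)
    (g : U ⟶ W) : P.mate R (f ≫ g) = Q.mate R g ≫ P.mate Q f := by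
  apply R.η_left_inj
  rw [Du.mate_η, MonoidalCategory.whiskerLeft_comp, Du.mate_η_assoc, ← whisker_exchange,
    Du.mate_η_assoc, comp_whiskerRight]

theorem Du.mate_id {V d : A} (P : Du V d) : P.mate P (𝟙 V) = 𝟙 d := by
  apply P.η_left_inj
  rw [Du.mate_η]; simp

/-- two duals of the same object are isomorphic -/
noncomputable def Du.uniq {V d e : A} (P : Du V d) (Q : Du V e) : d ≅ e where
  hom := Q.mate P (𝟙 V)
  inv := P.mate Q (𝟙 V)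
  hom_inv_id := by rw [← Du.mate_comp, Category.comp_id, Du.mate_id]
  inv_hom_id := by rw [← Du.mate_comp, Category.comp_id, Du.mate_id]

end Retract

namespace Kar
variable {D : Type u} [Category.{v} D]

section Lin
variable [Preadditive D] [Linear ℂ D]

instance (P Q : Karoubi D) : SMul ℂ (P ⟶ Q) where
  smul c f := ⟨c • f.f, by simp⟩

@[simp] theorem smul_f {P Q : Karoubi D} (c : ℂ) (f : P ⟶ Q) : (c • f).f = c • f.f := rfl
@[simp] theorem add_f {P Q : Karoubi D} (f g : P ⟶ Q) : (f + g).f = f.f + g.f := rfl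
@[simp] theorem zero_f {P Q : Karoubi D} : (0 : P ⟶ Q).f = 0 := rfl

instance (P Q : Karoubi D) : Module ℂ (P ⟶ Q) :=
  Function.Injective.module ℂ (Karoubi.inclusionHom P Q) (fun _ _ h => Karoubi.hom_ext _ _ h)
    (fun _ _ => rfl)

instance : Linear ℂ (Karoubi D) where
  homModule _ _ := inferInstance
  smul_comp _ _ _ c f g := by ext; simp
  comp_smul _ _ _ f c g := by ext; simp

instance : (toKaroubi D).Linear ℂ where
  map_smul _ _ := rfl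

/-- the underlying morphism as a linear map -/
def incl (P Q : Karoubi D) : (P ⟶ Q) →ₗ[ℂ] (P.X ⟶ Q.X) where
  toFun f := f.f
  map_add' _ _ := rfl
  map_smul' _ _ := rfl

theorem incl_inj (P Q : Karoubi D) : Function.Injective (incl P Q) :=
  fun _ _ h => Karoubi.hom_ext _ _ h

end Lin

variable [MonoidalCategory D]

instance : MonoidalCategoryStruct (Karoubi D) where
  tensorObj P Q := ⟨P.X ⊗ Q.X, P.p ⊗ₘ Q.p, by simp⟩
  whiskerLeft P _ _ g := ⟨P.p ⊗ₘ g.f, by simp⟩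
  whiskerRight f Q := ⟨f.f ⊗ₘ Q.p, by simp⟩
  tensorHom f g := ⟨f.f ⊗ₘ g.f, by simp⟩
  tensorUnit := ⟨𝟙_ D, 𝟙 _, by simp⟩
  associator P Q R :=
    { hom := ⟨((P.p ⊗ₘ Q.p) ⊗ₘ R.p) ≫ (α_ P.X Q.X R.X).hom, by
        simp only [Category.assoc, ← associator_naturality, tensorHom_comp_tensorHom_assoc,
          tensorHom_comp_tensorHom, Karoubi.idem]⟩
      inv := ⟨(P.p ⊗ₘ (Q.p ⊗ₘ R.p)) ≫ (α_ P.X Q.X R.X).inv, by
        simp only [Category.assoc, ← associator_inv_naturality, tensorHom_comp_tensorHom_assoc,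
          tensorHom_comp_tensorHom, Karoubi.idem]⟩
      hom_inv_id := by
        ext
        simp only [Karoubi.comp_f, Karoubi.id_f, Category.assoc, ← associator_naturality_assoc,
          Iso.hom_inv_id, Category.comp_id, tensorHom_comp_tensorHom, Karoubi.idem]
      inv_hom_id := by
        ext
        simp only [Karoubi.comp_f, Karoubi.id_f, Category.assoc, ← associator_inv_naturality_assoc,
          Iso.inv_hom_id, Category.comp_id, tensorHom_comp_tensorHom, Karoubi.idem] }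
  leftUnitor P :=
    { hom := ⟨(λ_ P.X).hom ≫ P.p, by simp⟩
      inv := ⟨P.p ≫ (λ_ P.X).inv, by simp⟩
      hom_inv_id := by ext; simp
      inv_hom_id := by ext; simp }
  rightUnitor P :=
    { hom := ⟨(ρ_ P.X).hom ≫ P.p, by simp⟩
      inv := ⟨P.p ≫ (ρ_ P.X).inv, by simp⟩
      hom_inv_id := by ext; simp
      inv_hom_id := by ext; simp }

@[simp] theorem tensor_X (P Q : Karoubi D) : (P ⊗ Q).X = P.X ⊗ Q.X := rfl
@[simp] theorem tensor_p (P Q : Karoubi D) : (P ⊗ Q).p = P.p ⊗ₘ Q.p := rfl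
@[simp] theorem unit_X : (𝟙_ (Karoubi D)).X = 𝟙_ D := rfl
@[simp] theorem unit_p : (𝟙_ (Karoubi D)).p = 𝟙 (𝟙_ D) := rfl
@[simp] theorem wl_f (P : Karoubi D) {Q R : Karoubi D} (g : Q ⟶ R) : (P ◁ g).f = P.p ⊗ₘ g.f := rfl
@[simp] theorem wr_f {P Q : Karoubi D} (g : P ⟶ Q) (R : Karoubi D) : (g ▷ R).f = g.f ⊗ₘ R.p := rfl
@[simp] theorem th_f {P Q P' Q' : Karoubi D} (f : P ⟶ Q) (g : P' ⟶ Q') :
    (f ⊗ₘ g).f = f.f ⊗ₘ g.f := rfl
@[simp] theorem assoc_hom_f (P Q R : Karoubi D) :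
    (α_ P Q R).hom.f = ((P.p ⊗ₘ Q.p) ⊗ₘ R.p) ≫ (α_ P.X Q.X R.X).hom := rfl
@[simp] theorem assoc_inv_f (P Q R : Karoubi D) :
    (α_ P Q R).inv.f = (P.p ⊗ₘ (Q.p ⊗ₘ R.p)) ≫ (α_ P.X Q.X R.X).inv := rfl
@[simp] theorem lu_hom_f (P : Karoubi D) : (λ_ P).hom.f = (λ_ P.X).hom ≫ P.p := rfl
@[simp] theorem lu_inv_f (P : Karoubi D) : (λ_ P).inv.f = P.p ≫ (λ_ P.X).inv := rfl
@[simp] theorem ru_hom_f (P : Karoubi D) : (ρ_ P).hom.f = (ρ_ P.X).hom ≫ P.p := rfl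
@[simp] theorem ru_inv_f (P : Karoubi D) : (ρ_ P).inv.f = P.p ≫ (ρ_ P.X).inv := rfl

instance : MonoidalCategory (Karoubi D) where
  tensorHom_def f g := by ext; simp
  id_tensorHom_id P Q := rfl
  tensorHom_comp_tensorHom _ _ _ _ := by ext; simp
  whiskerLeft_id P Q := rfl
  id_whiskerRight P Q := rfl
  associator_naturality f g h := by
    ext
    simp only [Karoubi.comp_f, th_f, assoc_hom_f, Category.assoc, ← associator_naturality,
      tensorHom_comp_tensorHom_assoc, tensorHom_comp_tensorHom, Karoubi.p_comp, Karoubi.comp_p]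
  leftUnitor_naturality f := by ext; simp
  rightUnitor_naturality f := by ext; simp
  pentagon W X Y Z := by
    ext
    have e1 : ((((W.p ⊗ₘ X.p) ⊗ₘ Y.p) ≫ (α_ W.X X.X Y.X).hom) ⊗ₘ Z.p) =
        (α_ W.X X.X Y.X).hom ▷ Z.X ≫ ((W.p ⊗ₘ X.p ⊗ₘ Y.p) ⊗ₘ Z.p) := by
      rw [associator_naturality, ← tensorHom_id, tensorHom_comp_tensorHom, Category.id_comp]
    have e2 : (W.p ⊗ₘ (((X.p ⊗ₘ Y.p) ⊗ₘ Z.p) ≫ (α_ X.X Y.X Z.X).hom)) =
        W.X ◁ (α_ X.X Y.X Z.X).hom ≫ (W.p ⊗ₘ (X.p ⊗ₘ (Y.p ⊗ₘ Z.p))) := by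
      rw [associator_naturality, ← id_tensorHom, tensorHom_comp_tensorHom, Category.id_comp]
    have e3 : (W.p ⊗ₘ ((X.p ⊗ₘ Y.p) ⊗ₘ Z.p)) ≫ W.X ◁ (α_ X.X Y.X Z.X).hom =
        W.X ◁ (α_ X.X Y.X Z.X).hom ≫ (W.p ⊗ₘ (X.p ⊗ₘ (Y.p ⊗ₘ Z.p))) := by
      rw [← e2, ← id_tensorHom, tensorHom_comp_tensorHom, Category.comp_id]
    simp only [Karoubi.comp_f, wr_f, wl_f, assoc_hom_f, tensor_p, tensor_X, Category.assoc]
    rw [e1, e2]
    simp only [Category.assoc, associator_naturality_assoc, associator_naturality,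
      Karoubi.idem, reassoc_of% e3, tensorHom_comp_tensorHom,
      MonoidalCategory.pentagon_assoc]
  triangle X Y := by
    ext
    have e1 : (X.p ⊗ₘ ((λ_ Y.X).hom ≫ Y.p)) = X.X ◁ (λ_ Y.X).hom ≫ (X.p ⊗ₘ Y.p) := by
      rw [← id_tensorHom, tensorHom_comp_tensorHom, Category.id_comp]
    simp only [Karoubi.comp_f, wr_f, wl_f, assoc_hom_f, lu_hom_f, ru_hom_f, unit_p, unit_X,
      Category.assoc, e1, MonoidalCategory.triangle_assoc]
    rw [← tensorHom_id (ρ_ X.X).hom, tensorHom_comp_tensorHom, tensorHom_comp_tensorHom]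
    simp

section Lin
variable [Preadditive D] [Linear ℂ D] [MonoidalPreadditive D] [MonoidalLinear ℂ D]

instance : MonoidalPreadditive (Karoubi D) where
  whiskerLeft_zero := by intros; ext; simp
  zero_whiskerRight := by intros; ext; simp
  whiskerLeft_add := by intros; ext; simp [MonoidalPreadditive.tensor_add]
  add_whiskerRight := by intros; ext; simp [MonoidalPreadditive.add_tensor]

instance : MonoidalLinear ℂ (Karoubi D) where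
  whiskerLeft_smul := by intros; ext; simp [MonoidalCategory.tensorHom_def]
  smul_whiskerRight := by intros; ext; simp [MonoidalCategory.tensorHom_def]

end Lin

/-- the monoidal structure of the inclusion into the Karoubi envelope -/
def core : (toKaroubi D).CoreMonoidal where
  εIso := Iso.refl _
  μIso X Y :=
    { hom := ⟨𝟙 (X ⊗ Y), by simp⟩
      inv := ⟨𝟙 (X ⊗ Y), by simp⟩
      hom_inv_id := by ext; simp
      inv_hom_id := by ext; simp }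
  μIso_hom_natural_left f X := by ext; simp
  μIso_hom_natural_right X f := by ext; simp
  associativity X Y Z := by ext; simp
  left_unitality X := by ext; simp
  right_unitality X := by ext; simp

instance : (toKaroubi D).Monoidal := core.toMonoidal

open Functor.LaxMonoidal Functor.OplaxMonoidal

@[simp] theorem μ_f (X Y : D) : (μ (toKaroubi D) X Y).f = 𝟙 (X ⊗ Y) := rfl
@[simp] theorem δ_f (X Y : D) : (δ (toKaroubi D) X Y).f = 𝟙 (X ⊗ Y) := rfl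
@[simp] theorem ε_f : (Functor.LaxMonoidal.ε (toKaroubi D)).f = 𝟙 (𝟙_ D) := rfl
@[simp] theorem η_f : (Functor.OplaxMonoidal.η (toKaroubi D)).f = 𝟙 (𝟙_ D) := rfl

/-- duality data in the Karoubi envelope -/
def du {P Q : Karoubi D} (B : Du P.X Q.X) (h : B.η ≫ P.X ◁ Q.p = B.η ≫ P.p ▷ Q.X) : Du P Q :=
  (B.map (toKaroubi D)).retract P.decompId_i P.decompId_p Q.decompId_i Q.decompId_p
    P.decompId.symm Q.decompId.symm (by
      ext
      simp [Du.map_η, h, -MonoidalCategory.whiskerLeft_comp, -comp_whiskerRight])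

/-- the right dual in the Karoubi envelope -/
noncomputable def rd (P : Karoubi D) {d : D} (B : Du P.X d) : Karoubi D :=
  ⟨d, B.mate B P.p, by rw [← Du.mate_comp, P.idem]⟩

/-- the left dual in the Karoubi envelope -/
noncomputable def ld (Q : Karoubi D) {V : D} (B : Du V Q.X) : Karoubi D :=
  ⟨V, B.capR (B.η ≫ V ◁ Q.p), by
    apply B.η_right_inj
    rw [comp_whiskerRight, B.η_capR_assoc, Category.assoc, whisker_exchange, B.η_capR_assoc,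
      B.η_capR, Category.assoc, ← MonoidalCategory.whiskerLeft_comp, Q.idem]⟩

noncomputable def duR (P : Karoubi D) {d : D} (B : Du P.X d) : Du P (rd P B) :=
  du (Q := rd P B) B (B.mate_η B P.p)

noncomputable def duL (Q : Karoubi D) {V : D} (B : Du V Q.X) : Du (ld Q B) Q :=
  du (P := ld Q B) B (B.η_capR _).symm

noncomputable instance [RigidCategory D] : RigidCategory (Karoubi D) where
  rightDual P := @HasRightDual.mk _ _ _ P _ (duR P (Du.ofEP P.X (P.Xᘁ))).toEP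
  leftDual Q := @HasLeftDual.mk _ _ _ Q _ (duL Q (Du.ofEP (ᘁQ.X : D) Q.X)).toEP

end Kar

end Pool.Agent.Lib.MP_edb142_al
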