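import Pool.Agent.Lib.MP_edb142_al.H.Alg
import Pool.Agent.Lib.MP_edb142_al.H.K1b

open CategoryTheory MonoidalCategory Limits BraidedCategory Module

set_option linter.unusedSectionVars false

namespace Pool.Agent.Lib.MP_edb142_al

universe v u

theorem lin_reg1 {V W : Type*} [AddCommGroup V] [Module ℂ V] [AddCommGroup W] [Module ℂ W]
    (f : V →ₗ[ℂ] W) : ∃ g : W →ₗ[ℂ] V, ∀ x, f (g (f x)) = f x := by
  obtain ⟨s, hs⟩ := f.rangeRestrict.exists_rightInverse_of_surjective f.range_rangeRestrict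
  obtain ⟨g, hg⟩ := s.exists_extend
  refine ⟨g, fun x => ?_⟩
  have h1 := LinearMap.congr_fun hg (f.rangeRestrict x)
  have h2 := congrArg Subtype.val (LinearMap.congr_fun hs (f.rangeRestrict x))
  simp only [LinearMap.comp_apply, Submodule.subtype_apply, LinearMap.id_apply] at h1 h2
  change g (f x) = _ at h1
  rw [h1]; exact h2

section SS
variable {C : Type u} [Category.{v} C] [Preadditive C] [Linear ℂ C] {I : Type} [Fintype I]
  {X : I → C}

theorem Sim.finrank_eq {Y : C} (h : Sim Y) : finrank ℂ (Y ⟶ Y) = 1 :=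
  (finrank_eq_one_iff_of_nonzero' (𝟙 Y) h.ne).2 fun f => ⟨sc f, (h.spec f).symm⟩

/-- every family of linear maps on the multiplicity spaces comes from a morphism -/
theorem SS.exists_hom (h : SS X) {Y Z : C} (G : ∀ i, (X i ⟶ Y) →ₗ[ℂ] (X i ⟶ Z)) :
    ∃ g : Y ⟶ Z, ∀ i (w : X i ⟶ Y), w ≫ g = G i w := by
  classical
  let φ := h.fr Y
  refine ⟨∑ j, ∑ a, φ.f j a ≫ G j (φ.e j a), fun i w => ?_⟩
  rw [Preadditive.comp_sum, Finset.sum_eq_single i]
  · conv_rhs => rw [← φ.exp_to h w, map_sum]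
    rw [Preadditive.comp_sum]
    refine Finset.sum_congr rfl fun a _ => ?_
    rw [← Category.assoc, map_smul]
    conv_lhs => rw [(h.sim i).spec (w ≫ φ.f i a)]
    simp
  · intro j _ hj
    rw [Preadditive.comp_sum]
    refine Finset.sum_eq_zero fun a _ => ?_
    rw [← Category.assoc, h.zero i j (Ne.symm hj) (w ≫ φ.f j a)]; simp
  · simp

theorem SS.reg1 (h : SS X) {Y Z : C} (f : Y ⟶ Z) : ∃ g : Z ⟶ Y, f ≫ g ≫ f = f := by
  choose G hG using fun i => lin_reg1 (Linear.rightComp ℂ (X i) f)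
  obtain ⟨g, hg⟩ := h.exists_hom G
  refine ⟨g, h.hom_ext fun i w => ?_⟩
  rw [← Category.assoc, ← Category.assoc, hg]
  exact hG i w

/-- additivity of the dimension of a morphism space over a retract decomposition -/
theorem finrank_sum {T : Type*} [Fintype T] (W : C) {P : C} [Module.Finite ℂ (W ⟶ P)]
    (Q : T → C) (e : ∀ a, Q a ⟶ P) (f : ∀ a, P ⟶ Q a) (hef : ∀ a, e a ≫ f a = 𝟙 _)
    (tot : ∑ a, f a ≫ e a = 𝟙 P) : finrank ℂ (W ⟶ P) = ∑ a, finrank ℂ (W ⟶ Q a) := by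
  have fin : ∀ a, Module.Finite ℂ (W ⟶ Q a) := fun a =>
    Module.Finite.of_surjective (Linear.rightComp ℂ W (f a)) fun g =>
      ⟨g ≫ e a, by simp [hef]⟩
  have h1 : (LinearMap.id : (W ⟶ P) →ₗ[ℂ] (W ⟶ P)) =
      ∑ a, Linear.rightComp ℂ W (e a) ∘ₗ Linear.rightComp ℂ W (f a) := by
    ext g
    simp [LinearMap.sum_apply, ← Preadditive.comp_sum, tot]
  have h2 : ∀ a, Linear.rightComp ℂ W (f a) ∘ₗ Linear.rightComp ℂ W (e a) = LinearMap.id := by
    intro a; ext g; simp [hef]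
  have h3 := congrArg (LinearMap.trace ℂ (W ⟶ P)) h1
  rw [LinearMap.trace_id, map_sum] at h3
  simp only [LinearMap.trace_comp_comm' (Linear.rightComp ℂ W (f _)), h2, LinearMap.trace_id] at h3
  exact_mod_cast h3

/-- additivity in the source -/
theorem finrank_sum' {T : Type*} [Fintype T] (W : C) {P : C} [Module.Finite ℂ (P ⟶ W)]
    (Q : T → C) (e : ∀ a, Q a ⟶ P) (f : ∀ a, P ⟶ Q a) (hef : ∀ a, e a ≫ f a = 𝟙 _)
    (tot : ∑ a, f a ≫ e a = 𝟙 P) : finrank ℂ (P ⟶ W) = ∑ a, finrank ℂ (Q a ⟶ W) := by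
  have fin : ∀ a, Module.Finite ℂ (Q a ⟶ W) := fun a =>
    Module.Finite.of_surjective (Linear.leftComp ℂ W (e a)) fun g =>
      ⟨f a ≫ g, by simp [reassoc_of% (hef a)]⟩
  have h1 : (LinearMap.id : (P ⟶ W) →ₗ[ℂ] (P ⟶ W)) =
      ∑ a, Linear.leftComp ℂ W (f a) ∘ₗ Linear.leftComp ℂ W (e a) := by
    ext g
    simp [LinearMap.sum_apply, ← Category.assoc, ← Preadditive.sum_comp, tot]
  have h2 : ∀ a, Linear.leftComp ℂ W (e a) ∘ₗ Linear.leftComp ℂ W (f a) = LinearMap.id := by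
    intro a; ext g; simp [reassoc_of% (hef a)]
  have h3 := congrArg (LinearMap.trace ℂ (P ⟶ W)) h1
  rw [LinearMap.trace_id, map_sum] at h3
  simp only [LinearMap.trace_comp_comm' (Linear.leftComp ℂ W (e _)), h2, LinearMap.trace_id] at h3
  exact_mod_cast h3

theorem SS.finrank_X [DecidableEq I] (h : SS X) (i j : I) :
    finrank ℂ (X i ⟶ X j) = if i = j then 1 else 0 := by
  split_ifs with hij
  · subst hij; exact (h.sim i).finrank_eq
  · have : Subsingleton (X i ⟶ X j) := ⟨fun a b => by rw [h.zero i j hij a, h.zero i j hij b]⟩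
    exact Module.finrank_zero_of_subsingleton

theorem SS.exists_obj [HasFiniteBiproducts C] (h : SS X) (n : I → ℕ) :
    ∃ Z : C, ∀ i, finrank ℂ (X i ⟶ Z) = n i := by
  classical
  refine ⟨⨁ fun t : (Σ i, Fin (n i)) => X t.1, fun i => ?_⟩
  have := h.finite (X i) (⨁ fun t : (Σ i, Fin (n i)) => X t.1)
  rw [finrank_sum (X i) (fun t : (Σ i, Fin (n i)) => X t.1)
    (biproduct.ι fun t : (Σ i, Fin (n i)) => X t.1) (biproduct.π fun t : (Σ i, Fin (n i)) => X t.1)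
    (fun t => biproduct.ι_π_self _ t) biproduct.total, Fintype.sum_sigma]
  simp [h.finrank_X]

theorem SS.split [HasFiniteBiproducts C] (h : SS X) {Y : C} (p : Y ⟶ Y) (hp : p ≫ p = p) :
    ∃ (Z : C) (i : Z ⟶ Y) (r : Y ⟶ Z), i ≫ r = 𝟙 Z ∧ r ≫ i = p := by
  obtain ⟨Z, hZ⟩ := h.exists_obj fun i =>
    finrank ℂ (LinearMap.range (Linear.rightComp ℂ (X i) p))
  have f1 := fun i => h.finite (X i) Y
  have f2 := fun i => h.finite (X i) Z
  have φ := fun i => LinearEquiv.ofFinrankEq _ _ (hZ i)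
  obtain ⟨i, hi⟩ := h.exists_hom fun j =>
    (LinearMap.range (Linear.rightComp ℂ (X j) p)).subtype ∘ₗ (φ j).toLinearMap
  obtain ⟨r, hr⟩ := h.exists_hom fun j =>
    (φ j).symm.toLinearMap ∘ₗ (Linear.rightComp ℂ (X j) p).rangeRestrict
  refine ⟨Z, i, r, h.hom_ext fun j w => ?_, h.hom_ext fun j w => ?_⟩
  · rw [← Category.assoc, hr, hi, Category.comp_id]
    simp only [LinearMap.comp_apply, LinearEquiv.coe_coe, Submodule.subtype_apply]
    rw [LinearEquiv.symm_apply_eq]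
    obtain ⟨y, hy⟩ := (φ j w).2
    apply Subtype.ext
    change ((φ j w : _) : X j ⟶ Y) ≫ p = _
    rw [← hy]; simp [hp]
  · rw [← Category.assoc, hi, hr]
    simp

/-- objects with the same multiplicities are isomorphic -/
theorem SS.iso_of_finrank (h : SS X) {Y Z : C}
    (H : ∀ i, finrank ℂ (X i ⟶ Y) = finrank ℂ (X i ⟶ Z)) : Nonempty (Y ≅ Z) := by
  have f1 := fun i => h.finite (X i) Y
  have f2 := fun i => h.finite (X i) Z
  have φ := fun i => LinearEquiv.ofFinrankEq _ _ (H i)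
  obtain ⟨i, hi⟩ := h.exists_hom fun j => (φ j).toLinearMap
  obtain ⟨r, hr⟩ := h.exists_hom fun j => (φ j).symm.toLinearMap
  refine ⟨⟨i, r, h.hom_ext fun j w => ?_, h.hom_ext fun j w => ?_⟩⟩
  · rw [← Category.assoc, hr, hi]; simp
  · rw [← Category.assoc, hi, hr]; simp

/-- additivity along a frame -/
theorem Frame.sigma_tot {Y : C} (φ : Frame X Y) :
    ∑ t : (Σ i, φ.T i), φ.f t.1 t.2 ≫ φ.e t.1 t.2 = 𝟙 Y := by
  rw [Fintype.sum_sigma]; exact φ.tot

theorem SS.finrank_hom (h : SS X) (Y Z : C) :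
    finrank ℂ (Y ⟶ Z) = ∑ i, finrank ℂ (X i ⟶ Y) * finrank ℂ (X i ⟶ Z) := by
  let φ := h.fr Y
  have := h.finite Y Z
  rw [finrank_sum' Z (fun t : (Σ i, φ.T i) => X t.1) (fun t => φ.e t.1 t.2) (fun t => φ.f t.1 t.2)
    (fun t => φ.ef _ _) φ.sigma_tot, Fintype.sum_sigma]
  refine Finset.sum_congr rfl fun i _ => ?_
  change ∑ _y : φ.T i, finrank ℂ (X i ⟶ Z) = _
  rw [φ.finrank_to h, Finset.sum_const, Finset.card_univ, smul_eq_mul]

theorem SS.finrank_comm (h : SS X) (Y Z : C) : finrank ℂ (Y ⟶ Z) = finrank ℂ (Z ⟶ Y) := by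
  rw [h.finrank_hom, h.finrank_hom]
  exact Finset.sum_congr rfl fun i _ => mul_comm _ _

end SS

variable {C : Type u} [Category.{v} C] [Preadditive C] [Linear ℂ C] [MonoidalCategory C]
  [MonoidalPreadditive C] [MonoidalLinear ℂ C] [HasFiniteBiproducts C] [BraidedCategory C]
  [RigidCategory C] {I : Type} [Fintype I] [DecidableEq I] {M : Modular C I} {L : C}

theorem Modular.pt_whiskerRight (M : Modular C I) {V d : C} (P : Du V d) (f : V ⟶ V) (U : C) :
    M.tw.pt P (f ▷ U) = M.trL V f • 𝟙 U := by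
  have h := ptr_whisk (M.tw.co P) P.ε (f ▷ 𝟙_ C) U
  have h2 : M.tw.pt P (f ▷ U) = (λ_ U).inv ≫ M.tw.pt P (f ▷ 𝟙_ C) ▷ U ≫ (λ_ U).hom := by
    unfold Tw.pt
    rw [← h, ← ptr_right, ← ptr_left]
    congr 1
    monoidal
  rw [h2, Tw.pt_unit, M.tr_eq]
  simp

theorem Modular.trL_tensor (M : Modular C I) {V U : C} (f : V ⟶ V) (g : U ⟶ U) :
    M.trL (V ⊗ U) (f ⊗ₘ g) = M.trL V f * M.trL U g := by
  apply M.s1.inj
  rw [← M.tr_eq ((du V).tensor (du U)), Tw.tr_tensor, MonoidalCategory.tensorHom_def]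
  unfold Tw.pt
  rw [ptr_right]
  change M.tw.tr (du U) (M.tw.pt (du V) (f ▷ U) ≫ g) = _
  rw [M.pt_whiskerRight, M.tr_eq]
  simp

theorem Modular.trL_mate (M : Modular C I) {V d : C} (P : Du V d) (f : V ⟶ V) :
    M.trL d (P.mate P f) = M.trL V f := by
  apply M.s1.inj
  rw [← M.tr_eq P.swap, ← M.tr_eq P, Tw.tr_plus, Tw.tr_plus, Du.swap_η, Du.swap_ε]
  simp only [Category.assoc]
  rw [braiding_naturality_left_assoc, Iso.inv_hom_id_assoc, MonoidalCategory.whiskerLeft_comp,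
    Category.assoc, Du.mate_η_assoc, braiding_naturality_right_assoc, M.tw.dual P,
    comp_whiskerRight, Category.assoc, braiding_naturality_left_assoc (M.tw.t V).hom]

theorem Modular.trL_id (M : Modular C I) (V : C) :
    M.trL V (𝟙 V) = ∑ k, M.dim k * (finrank ℂ (M.X k ⟶ V) : ℂ) := by
  rw [M.ss.tr_fun M.trL M.trL_cyc (fun V => 𝟙 V) (by simp) V]
  exact Finset.sum_congr rfl fun k _ => mul_comm _ _

theorem Modular.trL_unit (M : Modular C I) (f : 𝟙_ C ⟶ 𝟙_ C) : M.trL (𝟙_ C) f = sc f := by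
  apply M.s1.inj
  rw [← M.tr_eq Du.unit, Tw.tr_unit, ← M.s1.spec]

end Pool.Agent.Lib.MP_edb142_al
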