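import Pool.Agent.Lib.MP_edb142_al.H.B1
import Pool.Agent.Lib.MP_edb142_al.H.K1d

open CategoryTheory MonoidalCategory Limits BraidedCategory

set_option linter.unusedSectionVars false

namespace Pool.Agent.Lib.MP_edb142_al

universe v u

variable {C : Type u} [Category.{v} C] [Preadditive C] [Linear ℂ C] [MonoidalCategory C]
  [MonoidalPreadditive C] [MonoidalLinear ℂ C] [HasFiniteBiproducts C] [BraidedCategory C]
  [RigidCategory C] {I : Type} [Fintype I] [DecidableEq I]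

/-- a multiplicity free decomposition in which every simple object occurs -/
structure Sq (M : Modular C I) (V : C) where
  e : ∀ k, M.X k ⟶ V
  f : ∀ k, V ⟶ M.X k
  ef : ∀ k, e k ≫ f k = 𝟙 _
  tot : ∑ k, f k ≫ e k = 𝟙 V

theorem Modular.exists_sq (M : Modular C I) {V : C}
    (h : ∀ k, Module.finrank ℂ (M.X k ⟶ V) = 1) : Nonempty (Sq M V) := by
  let φ := M.ss.fr V
  have hu : ∀ k, ∃ a : φ.T k, ∀ b, b = a := fun k =>
    Fintype.card_eq_one_iff.1 (by rw [← φ.finrank_to M.ss, h])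
  choose a ha using hu
  refine ⟨⟨fun k => φ.e k (a k), fun k => φ.f k (a k), fun k => φ.ef k _, ?_⟩⟩
  rw [← φ.tot]
  refine Finset.sum_congr rfl fun k _ => ?_
  rw [Finset.sum_eq_single (a k) (fun b _ hb => absurd (ha k b) hb) (by simp)]

theorem Modular.unit_zero (M : Modular C I) {Y : C} (h : Module.finrank ℂ (M.X M.o ⟶ Y) = 0)
    (t : 𝟙_ C ⟶ Y) : t = 0 := by
  obtain ⟨u⟩ := M.unit_iso
  have := M.ss.finite (M.X M.o) Y
  rw [← cancel_epi u.inv, comp_zero]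
  exact (Module.finrank_zero_iff.1 h).elim _ _

theorem Modular.unit_zero' (M : Modular C I) {Y : C} (h : Module.finrank ℂ (M.X M.o ⟶ Y) = 0)
    (t : Y ⟶ 𝟙_ C) : t = 0 := by
  obtain ⟨u⟩ := M.unit_iso
  have := M.ss.finite Y (M.X M.o)
  rw [M.ss.finrank_symm] at h
  rw [← cancel_mono u.hom, zero_comp]
  exact (Module.finrank_zero_iff.1 h).elim _ _

theorem Modular.selfdu (M : Modular C I) (x : I) (h1 : M.N x x M.o = 1)
    (hsd : ∀ k l, k ≠ l → M.N k l M.o = 0) : Nonempty (Du (M.X x) (M.X x)) := by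
  obtain ⟨φ⟩ : Nonempty ((M.X x)ᘁ ≅ M.X x) := M.ss.iso_of_finrank fun k => by
    have : Module.finrank ℂ (M.X k ⟶ (M.X x)ᘁ) = M.N x k M.o := by
      unfold Modular.N
      rw [← ((du (M.X x)).eqvL _ _).finrank_eq, M.ss.finrank_symm]
      exact (Linear.homCongr ℂ (whiskerLeftIso _ M.unit_iso.some.symm ≪≫ ρ_ _)
        (Iso.refl _)).finrank_eq.symm
    rw [this, M.ss.finrank_X]
    split_ifs with h
    · rw [h, h1]
    · exact hsd _ _ (Ne.symm h)
  exact ⟨(du (M.X x)).retract (𝟙 _) (𝟙 _) φ.inv φ.hom (by simp) (by simp) (by simp)⟩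

theorem Modular.vec_bb (M : Modular C I) {X U : C} (hX : (M.tw.t X).hom = 𝟙 X) (P : Du X X)
    (t : 𝟙_ C ⟶ X ⊗ U) : t ≫ Tw.bb X U = t := by
  have h1 := M.tw.nat t
  rw [M.tw.unit, Category.id_comp, M.tw.tens, hX, id_tensorHom,
    ← braiding_naturality_left, ← braiding_naturality_right_assoc, ← Category.assoc] at h1
  have h2 : t ≫ X ◁ (M.tw.t U).hom = t := by
    rw [← P.η_capL t, Category.assoc, ← MonoidalCategory.whiskerLeft_comp, M.tw.nat, hX,
      Category.id_comp]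
  rw [h2] at h1
  exact h1

namespace Sq
variable {M : Modular C I} {V : C} (Q : Sq M V)

theorem to_eq {k : I} (u : M.X k ⟶ V) : u = sc (u ≫ Q.f k) • Q.e k := by
  conv_lhs => rw [← Category.comp_id u, ← Q.tot, Preadditive.comp_sum]
  rw [Finset.sum_eq_single k (fun l _ hl => by
    rw [← Category.assoc, M.ss.zero k l (Ne.symm hl) (u ≫ Q.f l), zero_comp]) (by simp),
    ← Category.assoc]
  conv_lhs => rw [(M.ss.sim k).spec (u ≫ Q.f k)]
  simp

theorem e_ne (k : I) : Q.e k ≠ 0 := fun h => (M.ss.sim k).ne (by rw [← Q.ef k, h, zero_comp])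

noncomputable def Φ : (I → ℂ) →ₗ[ℂ] (V ⟶ V) where
  toFun a := ∑ k, a k • (Q.f k ≫ Q.e k)
  map_add' a b := by simp [add_smul, Finset.sum_add_distrib]
  map_smul' c a := by simp [Finset.smul_sum, smul_smul]

theorem Φ_def (a : I → ℂ) : Q.Φ a = ∑ k, a k • (Q.f k ≫ Q.e k) := rfl

theorem Φ_to (a : I → ℂ) {k : I} (u : M.X k ⟶ V) : u ≫ Q.Φ a = a k • u := by
  rw [Φ_def, Preadditive.comp_sum, Finset.sum_eq_single k (fun l _ hl => by
    rw [Linear.comp_smul, ← Category.assoc, M.ss.zero k l (Ne.symm hl) (u ≫ Q.f l), zero_comp,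
      smul_zero]) (by simp), Linear.comp_smul, Q.to_eq u]
  simp [reassoc_of% Q.ef k]

theorem Φ_from (a : I → ℂ) {k : I} (w : V ⟶ M.X k) : Q.Φ a ≫ w = a k • w := by
  refine M.ss.hom_ext fun l u => ?_
  rw [← Category.assoc, Φ_to, Linear.smul_comp, Linear.comp_smul]
  by_cases h : l = k
  · subst h; rfl
  · rw [M.ss.zero l k h (u ≫ w)]; simp

theorem Φ_unit (a : I → ℂ) (t : 𝟙_ C ⟶ V) : t ≫ Q.Φ a = a M.o • t := by
  obtain ⟨u⟩ := M.unit_iso
  rw [← cancel_epi u.inv, ← Category.assoc, Φ_to, Linear.comp_smul]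

theorem Φ_unit' (a : I → ℂ) (t : V ⟶ 𝟙_ C) : Q.Φ a ≫ t = a M.o • t := by
  obtain ⟨u⟩ := M.unit_iso
  rw [← cancel_mono u.hom, Category.assoc, Φ_from, Linear.smul_comp]

theorem Φ_mul (a b : I → ℂ) : Q.Φ (a * b) = Q.Φ b ≫ Q.Φ a :=
  M.ss.hom_ext fun k u => by
    rw [← Category.assoc, Φ_to, Φ_to, Φ_to, smul_smul]; rfl

theorem Φ_one : Q.Φ 1 = 𝟙 V := M.ss.hom_ext fun k u => by rw [Φ_to]; simp

theorem Φ_single (k : I) : Q.Φ (Pi.single k 1) = Q.f k ≫ Q.e k := by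
  rw [Φ_def, Finset.sum_eq_single k (fun l _ hl => by simp [hl]) (by simp)]; simp

theorem Φ_bij : Function.Bijective Q.Φ := by
  constructor
  · intro a b h
    funext k
    have := congrArg (fun g => Q.e k ≫ g) h
    simp only [Φ_to] at this
    exact smul_left_injective ℂ (Q.e_ne k) this
  · intro g
    refine ⟨fun k => sc (Q.e k ≫ g ≫ Q.f k), M.ss.hom_ext fun k u => ?_⟩
    rw [Φ_to, Q.to_eq u, Linear.smul_comp, smul_comm]
    congr 1
    rw [Q.to_eq (Q.e k ≫ g), Category.assoc]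

theorem Φ_trace (a : I → ℂ) (k : I) :
    LinearMap.trace ℂ _ (Linear.rightComp ℂ (M.X k) (Q.Φ a)) = a k := by
  have h : Linear.rightComp ℂ (M.X k) (Q.Φ a) =
      ((M.ss.sim k).scL ∘ₗ Linear.rightComp ℂ _ (Q.f k)).smulRight (a k • Q.e k) := by
    ext u
    rw [Linear.rightComp_apply, Φ_to]
    conv_lhs => rw [Q.to_eq u]
    rw [smul_comm]; rfl
  have := M.ss.finite (M.X k) V
  rw [h, LinearMap.trace_smulRight, map_smul]
  change a k • sc (Q.e k ≫ Q.f k) = _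
  rw [Q.ef, (M.ss.sim k).sc_id]; simp

theorem Φ_trL (a : I → ℂ) : M.trL V (Q.Φ a) = ∑ k, M.dim k * a k := by
  rw [Φ_def, map_sum]
  refine Finset.sum_congr rfl fun k _ => ?_
  rw [map_smul, M.trL_cyc, Q.ef, smul_eq_mul, mul_comm]; rfl

include Q in
theorem star (hsd : ∀ k l, k ≠ l → M.N k l M.o = 0) (g : V ⟶ V) (t : 𝟙_ C ⟶ V ⊗ V) :
    t ≫ g ▷ V = t ≫ V ◁ g := by
  obtain ⟨a, rfl⟩ := Q.Φ_bij.2 g
  have z : ∀ k l, k ≠ l → t ≫ ((Q.f k ≫ Q.e k) ⊗ₘ (Q.f l ≫ Q.e l)) = 0 := fun k l h => by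
    rw [← tensorHom_comp_tensorHom, ← Category.assoc, M.unit_zero (hsd k l h) (t ≫ _), zero_comp]
  have h1 : ∀ k, t ≫ (Q.f k ≫ Q.e k) ▷ V = t ≫ ((Q.f k ≫ Q.e k) ⊗ₘ (Q.f k ≫ Q.e k)) := fun k => by
    rw [← tensorHom_id, ← Q.tot, tensor_sum, Preadditive.comp_sum,
      Finset.sum_eq_single k (fun l _ hl => z k l (Ne.symm hl)) (by simp)]
  have h2 : ∀ k, t ≫ V ◁ (Q.f k ≫ Q.e k) = t ≫ ((Q.f k ≫ Q.e k) ⊗ₘ (Q.f k ≫ Q.e k)) := fun k => by
    rw [← id_tensorHom, ← Q.tot, sum_tensor, Preadditive.comp_sum,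
      Finset.sum_eq_single k (fun l _ hl => z l k hl) (by simp)]
  rw [Φ_def, sum_whiskerRight, whiskerLeft_sum, Preadditive.comp_sum, Preadditive.comp_sum]
  refine Finset.sum_congr rfl fun k _ => ?_
  rw [MonoidalLinear.smul_whiskerRight, MonoidalLinear.whiskerLeft_smul, Linear.comp_smul,
    Linear.comp_smul, h1, h2]

theorem star3 (hsd : ∀ k l, k ≠ l → M.N k l M.o = 0) (a : I → ℂ) (x : I)
    (t : V ⊗ M.X x ⟶ 𝟙_ C) : Q.Φ a ▷ M.X x ≫ t = a x • t := by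
  refine Eq.trans ?_ (congrArg (fun s => a x • s) (?_ : (Q.f x ≫ Q.e x) ▷ M.X x ≫ t = t))
  · rw [Φ_def, sum_whiskerRight, Preadditive.sum_comp, Finset.sum_eq_single x (fun l _ hl => by
      rw [MonoidalLinear.smul_whiskerRight, Linear.smul_comp, comp_whiskerRight, Category.assoc,
        M.unit_zero' (hsd l x hl) (_ ≫ t), comp_zero, smul_zero]) (by simp),
      MonoidalLinear.smul_whiskerRight, Linear.smul_comp]
  · conv_rhs => rw [← Category.id_comp t, ← id_whiskerRight, ← Q.tot, sum_whiskerRight,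
      Preadditive.sum_comp]
    rw [Finset.sum_eq_single x (fun l _ hl => by
      rw [comp_whiskerRight, Category.assoc, M.unit_zero' (hsd l x hl) (_ ≫ t), comp_zero])
      (by simp)]

theorem star3' (hsd : ∀ k l, k ≠ l → M.N k l M.o = 0) (a : I → ℂ) (x : I)
    (t : M.X x ⊗ V ⟶ 𝟙_ C) : M.X x ◁ Q.Φ a ≫ t = a x • t := by
  rw [← cancel_epi (β_ V (M.X x)).hom, ← braiding_naturality_left_assoc, Q.star3 hsd,
    Linear.comp_smul]

end Sq

end Pool.Agent.Lib.MP_edb142_al
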