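import Pool.Agent.Lib.MP_edb142_al.H.B3a

open CategoryTheory MonoidalCategory Limits BraidedCategory

set_option linter.unusedSectionVars false

namespace Pool.Agent.Lib.MP_edb142_al

universe v u

variable {C : Type u} [Category.{v} C] [Preadditive C] [Linear ℂ C] [MonoidalCategory C]
  [MonoidalPreadditive C] [MonoidalLinear ℂ C] [HasFiniteBiproducts C] [BraidedCategory C]
  [RigidCategory C] {I : Type} [Fintype I] [DecidableEq I]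

theorem op_add {X : C} (g h : X ⊗ X ⟶ X ⊗ X) (Y : C) : op (g + h) Y = op g Y + op h Y := by
  unfold op; simp

theorem op_smul {X : C} (c : ℂ) (g : X ⊗ X ⟶ X ⊗ X) (Y : C) : op (c • g) Y = c • op g Y := by
  unfold op; simp

noncomputable def Du.rotL {X : C} (P : Du X X) : (X ⊗ X ⟶ X ⊗ X) →ₗ[ℂ] (X ⊗ X ⟶ X ⊗ X) where
  toFun := P.rot
  map_add' g h := by unfold Du.rot; simp [op_add]
  map_smul' c g := by unfold Du.rot; simp [op_smul]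

/-- the data used to build the rotation operator -/
structure Ctx (M : Modular C I) (x : I) (r : I → ℂ) where
  Q : Sq M (M.X x ⊗ M.X x)
  P : Du (M.X x) (M.X x)
  hxo : x ≠ M.o
  hT : M.T x = 1
  hsd : ∀ k l, k ≠ l → M.N k l M.o = 0
  hr : Q.Φ r = (β_ (M.X x) (M.X x)).hom
  r0 : r M.o = 1
  rx : r x = 1

namespace Ctx
variable {M : Modular C I} {x : I} {r : I → ℂ} (K : Ctx M x r)

theorem hη : K.P.η ≫ (β_ (M.X x) (M.X x)).hom = K.P.η := by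
  rw [← K.hr, Sq.Φ_unit, K.r0, one_smul]

theorem hε : (β_ (M.X x) (M.X x)).hom ≫ K.P.ε = K.P.ε := by
  rw [← K.hr, Sq.Φ_unit', K.r0, one_smul]

include K in
theorem tw1 : (M.tw.t (M.X x)).hom = 𝟙 _ := by rw [M.tw_X, K.hT, one_smul]

theorem co_eq : M.tw.co K.P = K.P.η := by
  unfold Tw.co
  rw [M.tw_X_inv, K.hT, inv_one, one_smul, id_whiskerRight, Category.id_comp, Iso.comp_inv_eq, hη]

theorem loop : K.P.η ≫ K.P.ε = M.dim x • 𝟙 _ := by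
  have := M.tr_eq K.P (𝟙 _)
  unfold Tw.tr trc at this
  rwa [co_eq, MonoidalCategory.whiskerLeft_id, Category.id_comp] at this

include K in
theorem star (g : M.X x ⊗ M.X x ⟶ M.X x ⊗ M.X x)
    (t : 𝟙_ C ⟶ M.X x ⊗ M.X x ⊗ M.X x ⊗ M.X x ⊗ 𝟙_ C) :
    t ≫ op g (M.X x ⊗ M.X x ⊗ 𝟙_ C) = t ≫ M.X x ◁ M.X x ◁ op g (𝟙_ C) := by
  have := K.Q.star K.hsd g (t ⊗≫ 𝟙 _)
  unfold op
  calc _ = ((t ⊗≫ 𝟙 ((M.X x ⊗ M.X x) ⊗ M.X x ⊗ M.X x)) ≫ g ▷ (M.X x ⊗ M.X x)) ⊗≫ 𝟙 _ := by monoidal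
    _ = _ := by rw [this]; monoidal

include K in
theorem dl_dl (t : 𝟙_ C ⟶ M.X x ⊗ M.X x ⊗ M.X x ⊗ M.X x ⊗ 𝟙_ C) :
    t ≫ dl (M.X x) (𝟙_ C) ≫ dl (M.X x) (𝟙_ C) = t := by
  conv_rhs => rw [← M.vec_bb K.tw1 K.P t, ← dl_bb]
  have a := K.star (β_ _ _).hom (t ≫ dl (M.X x) (𝟙_ C))
  have b := K.star (β_ _ _).hom (t ≫ dl (M.X x) (𝟙_ C) ≫ M.X x ◁ M.X x ◁ op (β_ _ _).hom (𝟙_ C) ≫
    M.X x ◁ op (β_ (M.X x) (M.X x)).hom (M.X x ⊗ 𝟙_ C))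
  simp only [Category.assoc] at a b
  rw [b, ← reassoc_of% a]
  rfl

noncomputable def F : (I → ℂ) →ₗ[ℂ] (I → ℂ) :=
  (LinearEquiv.ofBijective K.Q.Φ K.Q.Φ_bij).symm.toLinearMap ∘ₗ K.P.rotL ∘ₗ K.Q.Φ

theorem Φ_F (a : I → ℂ) : K.Q.Φ (K.F a) = K.P.rot (K.Q.Φ a) :=
  (LinearEquiv.ofBijective K.Q.Φ K.Q.Φ_bij).apply_symm_apply _

noncomputable def Ψ0 : (I → ℂ) →ₗ[ℂ] (𝟙_ C ⟶ M.X x ⊗ M.X x ⊗ M.X x ⊗ M.X x ⊗ 𝟙_ C) where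
  toFun a := K.P.oo (𝟙_ C) ≫ op (K.Q.Φ a) (M.X x ⊗ M.X x ⊗ 𝟙_ C)
  map_add' a b := by simp [op_add]
  map_smul' c a := by simp [op_smul]

theorem Ψ0_def (a : I → ℂ) :
    K.Ψ0 a = K.P.oo (𝟙_ C) ≫ op (K.Q.Φ a) (M.X x ⊗ M.X x ⊗ 𝟙_ C) := rfl

theorem Ψ0_bij : Function.Bijective K.Ψ0 := by
  constructor
  · intro a b h
    apply K.Q.Φ_bij.1
    apply Du.op_inj
    have key : ∀ a, M.X x ◁ M.X x ◁ K.Ψ0 a ≫ K.P.oo' _ = op (K.Q.Φ a) (𝟙_ C) := fun a => by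
      rw [Ψ0_def, K.star]
      simp only [MonoidalCategory.whiskerLeft_comp, Category.assoc]
      rw [K.P.oo'_nat, reassoc_of% K.P.zz4]
    rw [← key, ← key, h]
  · intro t
    obtain ⟨a, ha⟩ := K.Q.Φ_bij.2 (M.X x ◁ (ρ_ _).inv ≫ (M.X x ◁ M.X x ◁ t ≫ K.P.oo' _) ≫
      M.X x ◁ (ρ_ _).hom)
    refine ⟨a, ?_⟩
    rw [Ψ0_def, K.star, ha, op_unit']
    simp only [MonoidalCategory.whiskerLeft_comp]
    rw [← reassoc_of% K.P.oo_nat t, K.P.zz3, Category.comp_id]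

noncomputable def Ψ : (I → ℂ) ≃ₗ[ℂ] (𝟙_ C ⟶ M.X x ⊗ M.X x ⊗ M.X x ⊗ M.X x ⊗ 𝟙_ C) :=
  LinearEquiv.ofBijective K.Ψ0 K.Ψ0_bij

theorem Ψ_def (a : I → ℂ) :
    K.Ψ a = K.P.oo (𝟙_ C) ≫ op (K.Q.Φ a) (M.X x ⊗ M.X x ⊗ 𝟙_ C) := rfl

theorem oo_dl : K.P.oo (𝟙_ C) ≫ dl (M.X x) (𝟙_ C) = K.P.ee (𝟙_ C) := by
  rw [← ee_dl K.P K.hη, Category.assoc, K.dl_dl]

theorem Ψ_F (a : I → ℂ) : K.Ψ (K.F a) = K.Ψ a ≫ dl (M.X x) (𝟙_ C) := by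
  rw [Ψ_def, Φ_F, K.P.V1, Ψ_def, K.star, Category.assoc, dl_34, reassoc_of% K.oo_dl]

theorem Ψ_mul (a b : I → ℂ) : K.Ψ (a * b) = K.Ψ b ≫ op (K.Q.Φ a) _ := by
  rw [Ψ_def, Sq.Φ_mul, op_comp, Ψ_def, Category.assoc]

theorem ff (a : I → ℂ) : K.F (K.F a) = a :=
  K.Ψ.injective (by rw [Ψ_F, Ψ_F, Category.assoc, K.dl_dl])

include K in
theorem dl_eq (t : 𝟙_ C ⟶ M.X x ⊗ M.X x ⊗ M.X x ⊗ M.X x ⊗ 𝟙_ C) :
    t ≫ dl (M.X x) (𝟙_ C) = t ≫ op (β_ _ _).hom _ ≫ M.X x ◁ op (β_ _ _).hom _ ≫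
      op (β_ _ _).hom _ := by
  have a := K.star (β_ _ _).hom (t ≫ op (β_ _ _).hom _ ≫ M.X x ◁ op (β_ _ _).hom _)
  simp only [Category.assoc] at a
  rw [a]; rfl

theorem hex (a : I → ℂ) : r * K.F (r * K.F (r * a)) = K.F a := by
  apply K.Ψ.injective
  rw [Ψ_mul, Ψ_F, Ψ_mul, Ψ_F, Ψ_mul, Ψ_F, K.hr]
  have b := K.dl_dl (K.Ψ a ≫ op (β_ _ _).hom _ ≫ M.X x ◁ op (β_ _ _).hom _)
  simp only [Category.assoc] at b ⊢
  rw [← reassoc_of% dl_23 (β_ (M.X x) (M.X x)).hom (𝟙_ C), reassoc_of% b, K.dl_eq]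

theorem trL_vec (g : M.X x ⊗ M.X x ⟶ M.X x ⊗ M.X x) :
    M.trL _ g • 𝟙 (𝟙_ C) = K.P.oo _ ≫ M.X x ◁ M.X x ◁ op g (𝟙_ C) ≫ K.P.oo' _ := by
  rw [← M.tr_eq (K.P.tensor K.P)]
  unfold Tw.tr trc
  rw [M.tw.co_tensor, co_eq, Du.tensor_ε]
  unfold Du.oo Du.oo' Du.cup Du.cap op
  monoidal

theorem sa (a b : I → ℂ) : ∑ i, M.dim i * (K.F a i * b i) = ∑ i, M.dim i * (a i * K.F b i) := by
  have h1 := K.Q.Φ_trL (b * K.F a)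
  have h2 := K.Q.Φ_trL (K.F b * a)
  simp only [Pi.mul_apply, mul_comm (b _), mul_comm (K.F b _)] at h1 h2
  rw [← h1, ← h2]
  apply M.s1.inj
  rw [trL_vec, trL_vec, Sq.Φ_mul, Sq.Φ_mul, Φ_F, Φ_F, op_comp, op_comp]
  simp only [MonoidalCategory.whiskerLeft_comp, Category.assoc]
  have s := K.star (K.Q.Φ b) (K.P.ee _ ≫ M.X x ◁ op (K.Q.Φ a) _)
  simp only [Category.assoc] at s
  rw [← reassoc_of% K.star (K.P.rot (K.Q.Φ a)) (K.P.oo _), reassoc_of% K.P.V1, ← reassoc_of% s,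
    ← reassoc_of% K.oo_dl, ← reassoc_of% dl_34, ← reassoc_of% dl_23, dl_oo' K.P K.hε, K.P.V2]

theorem Φ_cc : K.Q.Φ (Pi.single M.o (M.dim x)) = K.P.ε ≫ K.P.η := by
  obtain ⟨a, ha⟩ := K.Q.Φ_bij.2 (K.P.ε ≫ K.P.η)
  rw [← ha]
  congr 1
  funext k
  by_cases hk : k = M.o
  · subst hk
    have h := K.Q.Φ_unit a K.P.η
    rw [ha, reassoc_of% K.loop, Linear.smul_comp, Category.id_comp] at h
    have hn : K.P.η ≠ 0 := fun h0 => M.dim_ne x (M.s1.inj (by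
      rw [← K.loop, h0, zero_comp, zero_smul]))
    rw [Pi.single_eq_same]
    exact smul_left_injective ℂ hn h
  · obtain ⟨u⟩ := M.unit_iso
    have h := K.Q.Φ_to a (K.Q.e k)
    have z : K.Q.e k ≫ K.P.ε = 0 := by
      rw [← cancel_mono u.hom, zero_comp]; exact M.ss.zero _ _ hk _
    rw [ha, reassoc_of% z, zero_comp] at h
    rw [Pi.single_eq_of_ne hk]
    exact ((smul_eq_zero.1 h.symm).resolve_right (K.Q.e_ne k)).symm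

theorem e1 : K.F (Pi.single M.o (M.dim x)) = 1 :=
  K.Q.Φ_bij.1 (by rw [Φ_F, Φ_cc, Du.rot_cc, Sq.Φ_one])

theorem tr2 : LinearMap.trace ℂ _ K.F =
    LinearMap.trace ℂ _ (Linear.rightComp ℂ (M.X M.o) (dl (M.X x) (𝟙_ C))) := by
  obtain ⟨u⟩ := M.unit_iso
  rw [← LinearMap.trace_conj' K.F (K.Ψ.trans (Linear.homCongr ℂ u (Iso.refl _)))]
  congr 1
  ext t
  simp [LinearEquiv.conj_apply, Ψ_F, Linear.homCongr]

theorem tr3 : LinearMap.trace ℂ _ (LinearMap.mulLeft ℂ r⁻¹ ∘ₗ K.F) =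
    LinearMap.trace ℂ _ (Linear.rightComp ℂ (M.X x)
      (op (β_ (M.X x) (M.X x)).hom (M.X x ⊗ 𝟙_ C) ≫
        M.X x ◁ op (β_ (M.X x) (M.X x)).hom (𝟙_ C))) := by
  obtain ⟨r', hr'⟩ := K.Q.Φ_bij.2 (β_ (M.X x) (M.X x)).inv
  have h1 : r' * r = 1 := K.Q.Φ_bij.1 (by rw [Sq.Φ_mul, hr', K.hr, Sq.Φ_one, Iso.hom_inv_id])
  have h2 : r⁻¹ = r' := funext fun k => (eq_inv_of_mul_eq_one_left (congrFun h1 k)).symm
  let E : (M.X x ⟶ M.X x ⊗ M.X x ⊗ M.X x ⊗ 𝟙_ C) ≃ₗ[ℂ]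
      (𝟙_ C ⟶ M.X x ⊗ M.X x ⊗ M.X x ⊗ M.X x ⊗ 𝟙_ C) :=
    (Linear.homCongr ℂ (ρ_ (M.X x)).symm (Iso.refl _)).trans (K.P.eqvL _ _)
  have hE : ∀ h g, E (h ≫ g) = E h ≫ M.X x ◁ g := fun h g => by
    simp [E, Linear.homCongr, Du.eqvL, Du.toL]
  have h3 : ∀ a, K.Ψ (r⁻¹ * K.F a) = K.Ψ a ≫ M.X x ◁ (M.X x ◁ op (β_ _ _).hom (𝟙_ C) ≫
      op (β_ (M.X x) (M.X x)).hom (M.X x ⊗ 𝟙_ C)) := fun a => by
    rw [Ψ_mul, Ψ_F, K.dl_eq, h2, hr', MonoidalCategory.whiskerLeft_comp,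
      ← reassoc_of% K.star (β_ _ _).hom (K.Ψ a)]
    simp only [Category.assoc]
    rw [← op_comp, Iso.hom_inv_id, op_id, Category.comp_id]
  have h4 : Linear.rightComp ℂ (M.X x) (op (β_ (M.X x) (M.X x)).hom (M.X x ⊗ 𝟙_ C) ≫
      M.X x ◁ op (β_ (M.X x) (M.X x)).hom (𝟙_ C)) =
      Linear.rightComp ℂ (M.X x) (M.X x ◁ op (β_ (M.X x) (M.X x)).hom (𝟙_ C)) ∘ₗ
        Linear.rightComp ℂ (M.X x) (op (β_ (M.X x) (M.X x)).hom (M.X x ⊗ 𝟙_ C)) := by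
    ext t; simp
  have := M.ss.finite (M.X x) (M.X x ⊗ M.X x ⊗ M.X x ⊗ 𝟙_ C)
  rw [← LinearMap.trace_conj' _ (K.Ψ.trans E.symm), h4, LinearMap.trace_comp_comm']
  congr 1
  ext t
  simp only [LinearEquiv.conj_apply, LinearMap.comp_apply, LinearEquiv.coe_coe,
    LinearEquiv.trans_apply, LinearMap.mulLeft_apply, h3, LinearEquiv.trans_symm,
    LinearEquiv.apply_symm_apply, LinearEquiv.symm_symm, ← hE, LinearEquiv.symm_apply_apply,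
    Linear.rightComp_apply, Category.assoc]

theorem tri : ∃ (m : M.X x ⊗ M.X x ⟶ M.X x) (c : M.X x ⟶ M.X x ⊗ M.X x),
    c = K.P.cup (M.X x) ≫ M.X x ◁ m ∧ K.Q.Φ (Pi.single x 1) = m ≫ c := by
  have h0 : K.P.cup (M.X x) ≫ M.X x ◁ K.Q.f x = K.P.toL (K.Q.f x) := by
    unfold Du.cup Du.toL; simp
  have h1 := K.Q.to_eq (K.P.cup (M.X x) ≫ M.X x ◁ K.Q.f x)
  set b := sc ((K.P.cup (M.X x) ≫ M.X x ◁ K.Q.f x) ≫ K.Q.f x)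
  have hb : b ≠ 0 := fun h => by
    rw [h, zero_smul, h0] at h1
    have := K.P.unL_toL (K.Q.f x)
    rw [h1] at this
    apply (M.ss.sim x).ne
    rw [← K.Q.ef x, ← this]
    simp [Du.unL]
  obtain ⟨k, hk⟩ := IsAlgClosed.exists_pow_nat_eq b⁻¹ (n := 2) (by norm_num)
  refine ⟨k • K.Q.f x, _, rfl, ?_⟩
  rw [Sq.Φ_single, MonoidalLinear.whiskerLeft_smul, Linear.comp_smul, h1, Linear.smul_comp,
    Linear.comp_smul, Linear.comp_smul, smul_smul, smul_smul, ← pow_two, hk, inv_mul_cancel₀ hb,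
    one_smul]

theorem inv (m : M.X x ⊗ M.X x ⟶ M.X x) :
    m ▷ M.X x ≫ K.P.ε = (α_ _ _ _).hom ≫ M.X x ◁ m ≫ K.P.ε := by
  have a := K.Q.star3 K.hsd r x (m ▷ M.X x ≫ K.P.ε)
  have b := K.Q.star3' K.hsd r x ((α_ _ _ _).inv ≫ m ▷ M.X x ≫ K.P.ε)
  rw [K.hr, K.rx, one_smul] at a b
  conv_rhs => rw [← K.hε, braiding_naturality_right_assoc, braiding_tensor_right_hom]
  simp only [Category.assoc, Iso.hom_inv_id_assoc]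
  rw [b, Iso.hom_inv_id_assoc, a]

theorem sq : K.F (K.F (Pi.single x 1) * K.F (Pi.single x 1)) =
    K.F (Pi.single x 1) * K.F (Pi.single x 1) := by
  obtain ⟨m, c, hc, hm⟩ := K.tri
  apply K.Ψ.injective
  rw [Ψ_def, Φ_F, K.P.V1, Ψ_def, Sq.Φ_mul, Φ_F, hm, op_comp, op_comp,
    MonoidalCategory.whiskerLeft_comp, Du.square hc (K.inv m), ← Category.assoc, ← K.star,
    Category.assoc]

theorem alg (a : ℂ) (h : K.F (Pi.single x 1 + a • Pi.single M.o (M.dim x)) =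
    Pi.single x 1 + a • Pi.single M.o (M.dim x)) : Nonempty (TriAlg (M.X x) a) := by
  obtain ⟨m, c, hc, hm⟩ := K.tri
  have h1 := congrArg (fun g => op (K.Q.Φ g) (M.X x ⊗ 𝟙_ C) ≫ M.X x ◁ K.P.cap (𝟙_ C)) h
  simp only [map_add, map_smul, Φ_F, hm, Φ_cc, Du.rot_cc, op_add, op_smul, op_id,
    Preadditive.add_comp, Linear.smul_comp, Category.id_comp, Du.rung_cap hc (K.inv m),
    op_mul_com, Du.op_cap_cup, Category.assoc, Du.com_cap hc (K.inv m), K.P.zz1,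
    Category.comp_id] at h1
  refine ⟨⟨K.P, m, K.hε, by rw [← K.hr, Sq.Φ_from, K.rx, one_smul], K.inv m, ?_⟩⟩
  have h2 := congrArg (fun g => (α_ _ _ _).hom ≫ M.X x ◁ M.X x ◁ (ρ_ (M.X x)).inv ≫ g ≫
    (ρ_ (M.X x)).hom) h1
  simp only [Preadditive.add_comp, Preadditive.comp_add, Linear.smul_comp, Linear.comp_smul] at h2
  refine Eq.trans ?_ (h2.trans ?_)
  · congr 1
    · unfold mul; monoidal
    · congr 1; unfold Du.cap; monoidal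
  · congr 1
    · unfold mul; monoidal
    · congr 1; unfold Du.cap; monoidal

end Ctx

end Pool.Agent.Lib.MP_edb142_al
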