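import Pool.Agent.Lib.MP_edb142_al.H.K3b

open CategoryTheory MonoidalCategory Limits BraidedCategory Module
open Functor.LaxMonoidal Functor.OplaxMonoidal

set_option linter.unusedSectionVars false

namespace Pool.Agent.Lib.MP_edb142_al

universe v u v' u'

namespace K3

variable {C : Type u} [Category.{v} C] [Preadditive C] [Linear ℂ C] [MonoidalCategory C]
  [MonoidalPreadditive C] [MonoidalLinear ℂ C] [HasFiniteBiproducts C] [BraidedCategory C]
  [RigidCategory C] {I : Type} [Fintype I] [DecidableEq I]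
  {D : Type u'} [Category.{v'} D] [Preadditive D] [Linear ℂ D] [MonoidalCategory D]
  [MonoidalPreadditive D] [MonoidalLinear ℂ D]
  {F : C ⥤ D} [F.Monoidal] [F.Additive] [F.Linear ℂ] (M : Modular C I)

theorem rank_tens (T Y V : C) : finrank ℂ (T ⟶ Y ⊗ V) =
    ∑ l, finrank ℂ (M.X l ⟶ V) * finrank ℂ (T ⟶ Y ⊗ M.X l) := by
  have := M.ss.finite
  let t : ∀ V : C, (V ⟶ V) →ₗ[ℂ] ℂ := fun V =>
    { toFun := fun f => LinearMap.trace ℂ _ (Linear.rightComp ℂ T (Y ◁ f))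
      map_add' := fun f g => by rw [← map_add]; congr 1; ext; simp
      map_smul' := fun c f => by rw [RingHom.id_apply, ← map_smul]; congr 1; ext; simp }
  have t1 : ∀ V, t V (𝟙 V) = finrank ℂ (T ⟶ Y ⊗ V) := fun V => by
    rw [← LinearMap.trace_id]
    exact congrArg (LinearMap.trace ℂ _) (by ext; simp)
  have h := M.ss.tr_fun t (fun {V U} f g => by
    refine Eq.trans ?_ ((LinearMap.trace_comp_comm' (Linear.rightComp ℂ T (Y ◁ f))
      (Linear.rightComp ℂ T (Y ◁ g))).trans ?_)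
    · exact congrArg (LinearMap.trace ℂ _) (by ext; simp)
    · exact congrArg (LinearMap.trace ℂ _) (by ext; simp)) (fun V => 𝟙 V) (by simp) V
  simp only [t1] at h
  exact_mod_cast h

theorem rank_X (k i : I) : finrank ℂ (M.X k ⟶ M.X i) = if k = i then 1 else 0 := by
  have := M.ss.finite
  split_ifs with h
  · rw [h, M.end_one]
  · exact finrank_zero_iff_forall_zero.2 (M.hom_zero k i h)

theorem rk_iso (k : I) {P Q : D} (φ : P ≅ Q) : rk M F k P = rk M F k Q := rank_iso _ φ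

theorem rank_unit (P : D) : finrank ℂ (𝟙_ D ⟶ P) = rk M F M.o P :=
  rank_iso' P (Functor.Monoidal.εIso F ≪≫ F.mapIso M.unit_iso.some)

namespace Ifc
variable {A : C} (h : Ifc F A)
include h

theorem rk_unit (k : I) : rk M F k (𝟙_ D) = finrank ℂ (M.X k ⟶ A) := by
  rw [rk_iso M k (Functor.Monoidal.εIso F), h.rk_obj, rank_iso _ (λ_ A)]

theorem idem {W : D} (h2 : finrank ℂ (W ⟶ W) = 2) (M : Modular C I) :
    ∃ (S S' : D) (_ : Dec W S S'), 𝟙 S ≠ 0 ∧ 𝟙 S' ≠ 0 := by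
  have := h.fin M
  have : Nontrivial (W ⟶ W) := nontrivial_of_finrank_pos (R := ℂ) (by omega)
  obtain ⟨f, hf⟩ : ∃ f : W ⟶ W, ∀ c : ℂ, c • 𝟙 W ≠ f := by
    by_contra hh
    push Not at hh
    have := finrank_le_one (𝟙 W) hh
    omega
  obtain ⟨c, hc⟩ := Module.End.exists_eigenvalue (Linear.rightComp ℂ W f)
  obtain ⟨g, hg⟩ := hc.exists_hasEigenvector
  have h0 : g ≫ (f - c • 𝟙 W) = 0 := by
    have := hg.apply_eq_smul
    simp only [Linear.rightComp_apply] at this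
    simp [this]
  obtain ⟨r, hr⟩ := h.reg (f - c • 𝟙 W)
  obtain ⟨S, i, e, h1, h2⟩ := h.split ((f - c • 𝟙 W) ≫ r) (by
    rw [Category.assoc, reassoc_of% hr])
  obtain ⟨S', d, hd⟩ := h.dec i e h1
  refine ⟨S, S', d, fun h3 => hf c ?_, fun h3 => hg.2 ?_⟩
  · rw [eq_comm, ← sub_eq_zero, ← hr, ← Category.assoc, ← h2, ← Category.id_comp i, h3]
    simp
  · rw [← Category.comp_id g, ← d.tot, hd, h2, ← Category.id_comp d.a', h3,
      Preadditive.comp_add, reassoc_of% h0]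
    simp

theorem tens_ne (h1 : Sim (𝟙_ D)) {P Q : D} (hP : 𝟙 P ≠ 0) (hQ : 𝟙 Q ≠ 0) : 𝟙 (P ⊗ Q) ≠ 0 := by
  intro h0
  obtain ⟨Y, i, p, hp⟩ := h.gen Q
  let R := (du Y).map F
  have hne : R.η ≫ p ▷ _ ≠ 0 := fun e => hQ (by
    rw [← hp, R.η_right_inj (h := p) (h' := 0) (by simpa using e), comp_zero])
  obtain ⟨g, hg⟩ := h1.mono hne (h.reg _)
  apply hP
  calc 𝟙 P = 𝟙 _ ⊗≫ P ◁ ((R.η ≫ p ▷ _) ≫ g) ⊗≫ 𝟙 _ := by rw [hg]; monoidal
    _ = 𝟙 _ ⊗≫ P ◁ (R.η ≫ p ▷ _) ⊗≫ 𝟙 (P ⊗ Q) ▷ F.obj (Yᘁ) ⊗≫ P ◁ g ⊗≫ 𝟙 _ := by monoidal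
    _ = 0 := by rw [h0]; simp [monoidalComp]

theorem rep_one {a : I} {P : D} (hP : ∀ k, rk M F k P = if k = a then 1 else 0)
    {e : F.obj (M.X a) ⟶ P} (he : e ≠ 0) : Rep F e := by
  refine rep_of M fun k => ?_
  by_cases hk : k = a
  · subst hk
    refine ⟨fun g g' H => ?_, fun y => ?_⟩
    · simp only at H
      rw [(M.ss.sim k).spec g, (M.ss.sim k).spec g'] at H ⊢
      rw [smul_left_injective ℂ he (by simpa using H : sc g • e = sc g' • e)]
    · obtain ⟨c, hc⟩ := (finrank_eq_one_iff_of_nonzero' e he).1 ((hP k).trans (if_pos rfl)) y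
      exact ⟨c • 𝟙 _, by simpa using hc⟩
  · have h0 := h.zero_of_rank ((hP k).trans (if_neg hk)) M
    exact ⟨fun g g' _ => (M.hom_zero k a hk g).trans (M.hom_zero k a hk g').symm,
      fun y => ⟨0, (h0 _).trans (h0 _).symm⟩⟩

theorem rk_tens {a : I} {P : D} (hP : ∀ k, rk M F k P = if k = a then 1 else 0) (i k : I) :
    rk M F k (F.obj (M.X i) ⊗ P) = M.N i a k := by
  obtain ⟨e, he⟩ := h.ex_of_rank (P := F.obj (M.X a)) (Q := P)
    (((hP a).trans (if_pos rfl)).trans_ne one_ne_zero) M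
  exact (((h.rep_one M hP he).proj (M.X i)).rank _).symm

/-- the invertible module of order three -/
theorem find (x a mu : I)
    (hA : ∀ k, finrank ℂ (M.X k ⟶ A) = if k = M.o ∨ k = x then 1 else 0) (hxo : x ≠ M.o)
    (hao : a ≠ M.o) (hax : a ≠ x) (hma : mu ≠ a) (hmm : M.N mu x mu = 0) (hm1 : M.N mu x a = 1)
    (h1 : ∀ k, M.N a x k = (if k = mu then 1 else 0) + M.N mu x k + (if k = a then 1 else 0))
    (h2 : ∀ k, M.N a a k = M.N mu a k + (if k = M.o ∨ k = x ∨ k = a then 1 else 0)) :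
    ∃ P : D, (∀ k, rk M F k P = if k = a then 1 else 0) ∧
      (∀ k, rk M F k (P ⊗ P) = if k = a then 1 else 0) ∧ Sim P ∧ Sim (P ⊗ P) ∧
      finrank ℂ (P ⟶ P ⊗ P) = 0 ∧ finrank ℂ (P ⊗ P ⟶ P) = 0 ∧ Nonempty ((P ⊗ P) ⊗ P ≅ 𝟙_ D) := by
  have hfin := h.fin M
  have r0 : ∀ k i, rk M F k (F.obj (M.X i)) = (if k = i then 1 else 0) + M.N i x k := by
    intro k i
    rw [h.rk_obj, rank_tens M, Finset.sum_eq_add M.o x hxo.symm, hA, hA, if_pos (Or.inl rfl),
      if_pos (Or.inr rfl), one_mul, one_mul,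
      rank_iso _ (whiskerLeftIso _ M.unit_iso.some.symm ≪≫ ρ_ _), rank_X]
    · rfl
    · intro c _ hc
      rw [hA, if_neg (by tauto), zero_mul]
    · simp
    · simp
  have ru : ∀ k, rk M F k (𝟙_ D) = if k = M.o ∨ k = x then 1 else 0 := fun k =>
    (h.rk_unit M k).trans (hA k)
  have s1 : Sim (𝟙_ D) := Sim.of_finrank (by rw [rank_unit (F := F) M, ru, if_pos (Or.inl rfl)])
  have sm : Sim (F.obj (M.X mu)) :=
    Sim.of_finrank ((r0 mu mu).trans (by rw [if_pos rfl, hmm]))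
  obtain ⟨f, hf⟩ := h.ex_of_rank (P := F.obj (M.X a)) (Q := F.obj (M.X mu))
    ((r0 a mu).trans_ne (by omega)) M
  obtain ⟨g, hg⟩ := sm.epi hf (h.reg f)
  obtain ⟨W, d, -⟩ := h.dec g f hg
  have rW : ∀ k, rk M F k W = if k = a then 2 else 0 := fun k => by
    have := h.rk_dec M d k
    rw [r0, r0, h1] at this
    split_ifs at this ⊢ <;> omega
  obtain ⟨P, Q, d', nP, nQ⟩ := h.idem (W := W) (by
    have e1 : rk M F a W = rk M F mu W + _ := d.rank_from W
    rw [rW, rW, if_pos rfl, if_neg hma] at e1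
    omega) M
  have r12 : ∀ k, rk M F k P + rk M F k Q = if k = a then 2 else 0 := fun k =>
    (h.rk_dec M d' k).symm.trans (rW k)
  have ra : ∀ T : D, 𝟙 T ≠ 0 → (∀ k, k ≠ a → rk M F k T = 0) → rk M F a T ≠ 0 :=
    fun T n e e' => n (h.zero_of_rk M fun k => by
      by_cases hk : k = a
      · rw [hk, e']
      · exact e k hk)
  have a1 := ra P nP fun k hk => by have := r12 k; rw [if_neg hk] at this; omega
  have a2 := ra Q nQ fun k hk => by have := r12 k; rw [if_neg hk] at this; omega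
  have rPQ : ∀ k, (rk M F k P = if k = a then 1 else 0) ∧ rk M F k Q = if k = a then 1 else 0 :=
    fun k => by
      have := r12 k
      split_ifs at this ⊢ with hk
      · subst hk; omega
      · omega
  have rP := fun k => (rPQ k).1
  have rQ := fun k => (rPQ k).2
  have one : ∀ T : D, (∀ k, rk M F k T = if k = a then 1 else 0) →
      finrank ℂ (P ⟶ T) + finrank ℂ (Q ⟶ T) = 1 := fun T e => by
    have e1 : rk M F a T = rk M F mu T + _ := d.rank_from T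
    rw [e, e, if_pos rfl, if_neg hma, d'.rank_from T] at e1
    omega
  have p1 := one P rP
  have p2 := one Q rQ
  have p3 := rank_pos nP
  have p4 := rank_pos nQ
  have sP : Sim P := Sim.of_finrank (by omega)
  have sQ : Sim Q := Sim.of_finrank (by omega)
  have cls : ∀ T : D, (∀ k, rk M F k T = if k = a then 1 else 0) →
      Nonempty (P ≅ T) ∨ Nonempty (Q ≅ T) := fun T e => by
    have := one T e
    by_cases h0 : finrank ℂ (P ⟶ T) = 0
    · exact Or.inr (h.iso_of M sQ (by omega) fun k => (e k).trans (rQ k).symm)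
    · exact Or.inl (h.iso_of M sP h0 fun k => (e k).trans (rP k).symm)
  have cnt : ∀ T : D, (∀ k, rk M F k T = if k = a then 1 else 0) → ∀ k,
      rk M F k (P ⊗ T) + rk M F k (Q ⊗ T) = if k = M.o ∨ k = x ∨ k = a then 1 else 0 :=
    fun T e k => by
      have e1 := h.rk_dec M (d.tensor T) k
      rw [h.rk_dec M (d'.tensor T) k, h.rk_tens M e, h.rk_tens M e, h2] at e1
      omega
  have pair : ∀ U U' : D, 𝟙 U' ≠ 0 → rk M F M.o U ≠ 0 →
      (∀ k, rk M F k U + rk M F k U' = if k = M.o ∨ k = x ∨ k = a then 1 else 0) →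
      Nonempty (𝟙_ D ≅ U) ∧ ∀ k, rk M F k U' = if k = a then 1 else 0 := fun U U' n e0 e => by
    obtain ⟨S, ⟨d1⟩⟩ := h.dec_of s1 ((rank_unit M U).trans_ne e0) M
    have e1 : ∀ k, rk M F k S + rk M F k U' = if k = a then 1 else 0 := fun k => by
      have b1 := e k
      rw [h.rk_dec M d1 k, ru] at b1
      by_cases hk : k = a
      · rw [if_neg (by rw [hk]; tauto), if_pos (by tauto)] at b1
        rw [if_pos hk]
        omega
      · rw [if_neg hk]
        split_ifs at b1 <;> first | omega | tauto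
    have e2 := ra U' n fun k hk => by have := e1 k; rw [if_neg hk] at this; omega
    have e3 : ∀ k, rk M F k S = 0 := fun k => by
      have := e1 k
      split_ifs at this with hk
      · subst hk; omega
      · omega
    exact ⟨⟨d1.iso (h.zero_of_rk M e3)⟩, fun k => by rw [← e1 k, e3, zero_add]⟩
  have alt : ∀ T : D, 𝟙 T ≠ 0 → (∀ k, rk M F k T = if k = a then 1 else 0) →
      (Nonempty (𝟙_ D ≅ P ⊗ T) ∧ ∀ k, rk M F k (Q ⊗ T) = if k = a then 1 else 0) ∨
      (Nonempty (𝟙_ D ≅ Q ⊗ T) ∧ ∀ k, rk M F k (P ⊗ T) = if k = a then 1 else 0) :=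
    fun T n e => by
      by_cases h0 : rk M F M.o (P ⊗ T) = 0
      · refine Or.inr (pair _ _ (h.tens_ne s1 nP n) ?_ fun k => by rw [add_comm, cnt T e])
        have := cnt T e M.o
        rw [if_pos (Or.inl rfl)] at this
        omega
      · exact Or.inl (pair _ _ (h.tens_ne s1 nQ n) h0 (cnt T e))
  have no : ∀ T : D, (∀ k, rk M F k T = if k = a then 1 else 0) → (T ≅ 𝟙_ D) → False :=
    fun T e φ => by
      have := rk_iso (F := F) M M.o φ
      rw [e, ru, if_neg hao.symm, if_pos (Or.inl rfl)] at this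
      omega
  rcases alt P nP rP with ⟨⟨φ⟩, e⟩ | ⟨⟨φ⟩, e⟩
  · exfalso
    rcases cls _ e with ⟨⟨ψ⟩⟩ | ⟨⟨ψ⟩⟩
    · exact no Q rQ ((ρ_ Q).symm ≪≫ whiskerLeftIso Q φ ≪≫ (α_ _ _ _).symm ≪≫
        whiskerRightIso ψ.symm P ≪≫ φ.symm)
    · rcases alt Q nQ rQ with ⟨⟨χ⟩, -⟩ | ⟨⟨χ⟩, -⟩
      · have := rank_iso Q ((λ_ Q).symm ≪≫ whiskerRightIso φ Q ≪≫ α_ _ _ _ ≪≫
          whiskerLeftIso P χ.symm ≪≫ ρ_ P)
        omega
      · exact no P rP ((λ_ P).symm ≪≫ whiskerRightIso χ P ≪≫ α_ _ _ _ ≪≫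
          whiskerLeftIso Q ψ.symm ≪≫ χ.symm)
  · rcases cls _ e with ⟨⟨ψ⟩⟩ | ⟨⟨ψ⟩⟩
    · exact (no P rP ((λ_ P).symm ≪≫ whiskerRightIso φ P ≪≫ α_ _ _ _ ≪≫
        whiskerLeftIso Q ψ.symm ≪≫ φ.symm)).elim
    · refine ⟨P, rP, e, sP, sQ.of_iso ψ.symm, ?_, ?_, ⟨whiskerRightIso ψ.symm P ≪≫ φ.symm⟩⟩
      · rw [← rank_iso P ψ]; omega
      · rw [← rank_iso' P ψ]; omega

end Ifc

end K3

end Pool.Agent.Lib.MP_edb142_al
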