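import Pool.Agent.Lib.MP_edb142_al.H.K3d

open CategoryTheory MonoidalCategory Limits BraidedCategory Module
open Functor.LaxMonoidal Functor.OplaxMonoidal

set_option linter.unusedSectionVars false

namespace Pool.Agent.Lib.MP_edb142_al

universe v u v' u'

namespace K3

section Alg
variable {D : Type u'} [Category.{v'} D] [Preadditive D] [Linear ℂ D] [MonoidalCategory D]
  [MonoidalPreadditive D] [MonoidalLinear ℂ D]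

/-- `B` is the direct sum of three objects -/
structure Tri (B X Y Z : D) where
  i0 : X ⟶ B
  i1 : Y ⟶ B
  i2 : Z ⟶ B
  p0 : B ⟶ X
  p1 : B ⟶ Y
  p2 : B ⟶ Z
  e00 : i0 ≫ p0 = 𝟙 _
  e01 : i0 ≫ p1 = 0
  e02 : i0 ≫ p2 = 0
  e10 : i1 ≫ p0 = 0
  e11 : i1 ≫ p1 = 𝟙 _
  e12 : i1 ≫ p2 = 0
  e20 : i2 ≫ p0 = 0
  e21 : i2 ≫ p1 = 0
  e22 : i2 ≫ p2 = 𝟙 _
  tot : p0 ≫ i0 + p1 ≫ i1 + p2 ≫ i2 = 𝟙 B

/-- two decompositions give a triple one -/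
def Dec.tri {B W X Y Z : D} (d : Dec B X W) (d' : Dec W Y Z) : Tri B X Y Z where
  i0 := d.a
  i1 := d'.a ≫ d.a'
  i2 := d'.a' ≫ d.a'
  p0 := d.b
  p1 := d.b' ≫ d'.b
  p2 := d.b' ≫ d'.b'
  e00 := d.ab
  e01 := by simp [d.z_assoc]
  e02 := by simp [d.z_assoc]
  e10 := by simp [d.z']
  e11 := by simp [d.ab'_assoc, d'.ab]
  e12 := by simp [d.ab'_assoc, d'.z]
  e20 := by simp [d.z']
  e21 := by simp [d.ab'_assoc, d'.z']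
  e22 := by simp [d.ab'_assoc, d'.ab']
  tot := by
    rw [← d.tot, ← Category.id_comp d.a', ← d'.tot]
    simp [add_assoc, d'.ab_assoc, d'.ab'_assoc, d'.z_assoc, d'.z'_assoc]

theorem dec_ex [HasFiniteBiproducts D] (X Y : D) : ∃ B, Nonempty (Dec B X Y) :=
  have := hasBinaryBiproducts_of_finite_biproducts D
  ⟨X ⊞ Y, ⟨⟨biprod.inl, biprod.fst, biprod.inr, biprod.snd, by simp, by simp, by simp⟩⟩⟩

namespace Tri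
variable {B X Y Z : D} (t : Tri B X Y Z)

theorem extR {U T : D} {f g : B ⊗ U ⟶ T} (h0 : t.i0 ▷ U ≫ f = t.i0 ▷ U ≫ g)
    (h1 : t.i1 ▷ U ≫ f = t.i1 ▷ U ≫ g) (h2 : t.i2 ▷ U ≫ f = t.i2 ▷ U ≫ g) : f = g := by
  rw [← Category.id_comp f, ← Category.id_comp g, ← id_whiskerRight, ← t.tot]
  simp [h0, h1, h2]

theorem extL {U T : D} {f g : U ⊗ B ⟶ T} (h0 : U ◁ t.i0 ≫ f = U ◁ t.i0 ≫ g)
    (h1 : U ◁ t.i1 ≫ f = U ◁ t.i1 ≫ g) (h2 : U ◁ t.i2 ≫ f = U ◁ t.i2 ≫ g) : f = g := by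
  rw [← Category.id_comp f, ← Category.id_comp g, ← MonoidalCategory.whiskerLeft_id, ← t.tot]
  simp [h0, h1, h2]

theorem descR {U T : D} (f0 : X ⊗ U ⟶ T) (f1 : Y ⊗ U ⟶ T) (f2 : Z ⊗ U ⟶ T) :
    ∃ f : B ⊗ U ⟶ T, t.i0 ▷ U ≫ f = f0 ∧ t.i1 ▷ U ≫ f = f1 ∧ t.i2 ▷ U ≫ f = f2 :=
  ⟨t.p0 ▷ U ≫ f0 + t.p1 ▷ U ≫ f1 + t.p2 ▷ U ≫ f2,
    by simp [← comp_whiskerRight_assoc, t.e00, t.e01, t.e02],
    by simp [← comp_whiskerRight_assoc, t.e10, t.e11, t.e12],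
    by simp [← comp_whiskerRight_assoc, t.e20, t.e21, t.e22]⟩

theorem descL {U T : D} (f0 : U ⊗ X ⟶ T) (f1 : U ⊗ Y ⟶ T) (f2 : U ⊗ Z ⟶ T) :
    ∃ f : U ⊗ B ⟶ T, U ◁ t.i0 ≫ f = f0 ∧ U ◁ t.i1 ≫ f = f1 ∧ U ◁ t.i2 ≫ f = f2 :=
  ⟨U ◁ t.p0 ≫ f0 + U ◁ t.p1 ≫ f1 + U ◁ t.p2 ≫ f2,
    by simp [← MonoidalCategory.whiskerLeft_comp_assoc, t.e00, t.e01, t.e02],
    by simp [← MonoidalCategory.whiskerLeft_comp_assoc, t.e10, t.e11, t.e12],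
    by simp [← MonoidalCategory.whiskerLeft_comp_assoc, t.e20, t.e21, t.e22]⟩

end Tri

/-- the graded algebra on the powers of an invertible object of order three -/
theorem alg3 {B P : D} (t : Tri B (𝟙_ D) P (P ⊗ P)) {φ : (P ⊗ P) ⊗ P ⟶ 𝟙_ D}
    (hφ : Mv φ P (𝟙 _ ⊗≫ 𝟙 _) 1) : ∃ m : B ⊗ B ⟶ B,
      m ▷ B ≫ m = (α_ B B B).hom ≫ B ◁ m ≫ m ∧ t.i0 ▷ B ≫ m = (λ_ B).hom ∧
      B ◁ t.i0 ≫ m = (ρ_ B).hom ∧ (t.i1 ⊗ₘ t.i1) ≫ m = t.i2 ∧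
      (t.i1 ⊗ₘ t.i2) ≫ m = (α_ P P P).inv ≫ φ ≫ t.i0 ∧ (t.i2 ⊗ₘ t.i1) ≫ m = φ ≫ t.i0 := by
  have hφ2 := hφ.tensor hφ
  unfold Mv at hφ hφ2
  rw [mul_one] at hφ2
  rw [one_smul] at hφ hφ2
  obtain ⟨σ, s0, s1, s2⟩ := t.descR ((λ_ P).hom ≫ t.i1) t.i2 (φ ≫ t.i0)
  obtain ⟨m, m0, m1, m2⟩ := t.descL (ρ_ B).hom σ ((α_ B P P).inv ≫ σ ▷ P ≫ σ)
  have s3 : B ◁ φ ≫ (ρ_ B).hom = 𝟙 _ ⊗≫ σ ▷ P ▷ P ≫ σ ▷ P ≫ σ := by
    refine t.extR ?_ ?_ ?_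
    · calc _ = 𝟙 _ ⊗≫ φ ≫ t.i0 := by rw [← whisker_exchange_assoc]; monoidal
        _ = 𝟙 _ ⊗≫ (t.i1 ▷ P ≫ σ) ▷ P ≫ σ := by rw [s1, s2]
        _ = 𝟙 _ ⊗≫ (t.i0 ▷ P ≫ σ) ▷ P ▷ P ≫ σ ▷ P ≫ σ := by rw [s0]; monoidal
        _ = _ := by monoidal
    · calc _ = (P ◁ φ ≫ (ρ_ P).hom) ≫ t.i1 := by rw [← whisker_exchange_assoc]; monoidal
        _ = 𝟙 _ ⊗≫ φ ▷ P ≫ t.i0 ▷ P ≫ σ := by rw [hφ, s0]; monoidal
        _ = 𝟙 _ ⊗≫ (t.i2 ▷ P ≫ σ) ▷ P ≫ σ := by rw [s2]; monoidal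
        _ = 𝟙 _ ⊗≫ (t.i1 ▷ P ≫ σ) ▷ P ▷ P ≫ σ ▷ P ≫ σ := by rw [s1]; monoidal
        _ = _ := by monoidal
    · calc _ = ((P ⊗ P) ◁ φ ≫ (ρ_ _).hom) ≫ t.i2 := by rw [← whisker_exchange_assoc]; monoidal
        _ = 𝟙 _ ⊗≫ φ ▷ P ▷ P ⊗≫ t.i1 ▷ P ≫ σ := by rw [hφ2, s1]; monoidal
        _ = 𝟙 _ ⊗≫ φ ▷ P ▷ P ≫ (t.i0 ▷ P ≫ σ) ▷ P ≫ σ := by rw [s0]; monoidal
        _ = 𝟙 _ ⊗≫ (t.i2 ▷ P ≫ σ) ▷ P ▷ P ≫ σ ▷ P ≫ σ := by rw [s2]; monoidal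
        _ = _ := by monoidal
  have ms : m ▷ P ≫ σ = (α_ B B P).hom ≫ B ◁ σ ≫ m := by
    rw [← cancel_epi ((α_ B B P).inv)]
    have ext : ∀ f g : B ⊗ B ⊗ P ⟶ B, B ◁ t.i0 ▷ P ≫ f = B ◁ t.i0 ▷ P ≫ g →
        B ◁ t.i1 ▷ P ≫ f = B ◁ t.i1 ▷ P ≫ g → B ◁ t.i2 ▷ P ≫ f = B ◁ t.i2 ▷ P ≫ g → f = g := by
      intro f g h0 h1 h2
      rw [← Category.id_comp f, ← Category.id_comp g, ← MonoidalCategory.whiskerLeft_id,
        ← id_whiskerRight, ← t.tot]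
      simp [h0, h1, h2]
    refine ext _ _ ?_ ?_ ?_
    · calc _ = 𝟙 _ ⊗≫ (B ◁ t.i0 ≫ m) ▷ P ≫ σ := by monoidal
        _ = 𝟙 _ ⊗≫ B ◁ t.i1 ≫ m := by rw [m0, m1]; monoidal
        _ = B ◁ (t.i0 ▷ P ≫ σ) ≫ m := by rw [s0]; monoidal
        _ = _ := by monoidal
    · calc _ = 𝟙 _ ⊗≫ (B ◁ t.i1 ≫ m) ▷ P ≫ σ := by monoidal
        _ = B ◁ t.i2 ≫ m := by rw [m1, m2]; monoidal
        _ = B ◁ (t.i1 ▷ P ≫ σ) ≫ m := by rw [s1]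
        _ = _ := by monoidal
    · calc _ = 𝟙 _ ⊗≫ (B ◁ t.i2 ≫ m) ▷ P ≫ σ := by monoidal
        _ = B ◁ φ ≫ B ◁ t.i0 ≫ m := by rw [m0, m2, s3]; monoidal
        _ = B ◁ (t.i2 ▷ P ≫ σ) ≫ m := by rw [s2]; monoidal
        _ = _ := by monoidal
  refine ⟨m, t.extL ?_ ?_ ?_, t.extL ?_ ?_ ?_, m0, ?_, ?_, ?_⟩
  · calc _ = m ▷ 𝟙_ D ≫ B ◁ t.i0 ≫ m := by rw [whisker_exchange_assoc]
      _ = 𝟙 _ ⊗≫ B ◁ (B ◁ t.i0 ≫ m) ≫ m := by rw [m0]; monoidal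
      _ = _ := by monoidal
  · calc _ = m ▷ P ≫ B ◁ t.i1 ≫ m := by rw [whisker_exchange_assoc]
      _ = 𝟙 _ ⊗≫ B ◁ (B ◁ t.i1 ≫ m) ≫ m := by rw [m1, ms]; monoidal
      _ = _ := by monoidal
  · calc _ = m ▷ (P ⊗ P) ≫ B ◁ t.i2 ≫ m := by rw [whisker_exchange_assoc]
      _ = 𝟙 _ ⊗≫ (m ▷ P ≫ σ) ▷ P ≫ σ := by rw [m2]; monoidal
      _ = 𝟙 _ ⊗≫ B ◁ σ ▷ P ⊗≫ m ▷ P ≫ σ := by
        conv_lhs => rw [ms]
        monoidal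
      _ = 𝟙 _ ⊗≫ B ◁ (B ◁ t.i2 ≫ m) ≫ m := by rw [ms, m2]; monoidal
      _ = _ := by monoidal
  · rw [whisker_exchange_assoc, m0]; monoidal
  · rw [whisker_exchange_assoc, m1, s0]; monoidal
  · calc _ = t.i0 ▷ (P ⊗ P) ≫ B ◁ t.i2 ≫ m := by rw [whisker_exchange_assoc]
      _ = 𝟙 _ ⊗≫ (t.i0 ▷ P ≫ σ) ▷ P ≫ σ := by rw [m2]; monoidal
      _ = 𝟙 _ ⊗≫ t.i1 ▷ P ≫ σ := by rw [s0]; monoidal
      _ = _ := by rw [s1]; monoidal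
  · rw [MonoidalCategory.tensorHom_def, Category.assoc, m1, s1]
  · calc _ = t.i1 ▷ (P ⊗ P) ≫ B ◁ t.i2 ≫ m := by
          rw [MonoidalCategory.tensorHom_def, Category.assoc]
      _ = (α_ P P P).inv ≫ (t.i1 ▷ P ≫ σ) ▷ P ≫ σ := by rw [m2]; monoidal
      _ = _ := by rw [s1, s2]
  · rw [MonoidalCategory.tensorHom_def, Category.assoc, m1, s2]

end Alg

variable {C : Type u} [Category.{v} C] [Preadditive C] [Linear ℂ C] [MonoidalCategory C]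
  [MonoidalPreadditive C] [MonoidalLinear ℂ C] [HasFiniteBiproducts C] [BraidedCategory C]
  [RigidCategory C] {I : Type} [Fintype I] [DecidableEq I]
  {D : Type u'} [Category.{v'} D] [Preadditive D] [Linear ℂ D] [MonoidalCategory D]
  [MonoidalPreadditive D] [MonoidalLinear ℂ D]
  {F : C ⥤ D} [F.Monoidal] [F.Additive] [F.Linear ℂ] (M : Modular C I)

variable (F) in
/-- two generalised elements commute -/
def Com {B : D} (m : B ⊗ B ⟶ B) {Y Z : C} (y : F.obj Y ⟶ B) (z : F.obj Z ⟶ B) : Prop :=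
  c0 F Y Z ≫ (z ⊗ₘ y) ≫ m = (y ⊗ₘ z) ≫ m

section Com
variable {A : C} {B : D} {m : B ⊗ B ⟶ B} {Y Z Z' : C} {y : F.obj Y ⟶ B}

theorem Com.symm (h : Ifc F A) (hB : ∀ k, rk M F k B ≠ 0 → M.T k = 1) {z : F.obj Z ⟶ B}
    (c : Com F m y z) : Com F m z y := by
  unfold Com at c ⊢
  rw [← c, c0_c0 M h hB hB hB]

theorem Com.red (h : Ifc F A) {z : F.obj Z ⟶ B} (c : Com F m y z) (g : F.obj Z' ⟶ F.obj Z) :
    Com F m y (g ≫ z) := by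
  unfold Com at c ⊢
  rw [← Category.id_comp y, ← tensorHom_comp_tensorHom, ← tensorHom_comp_tensorHom,
    tensorHom_id, id_tensorHom, Category.assoc, Category.assoc, ← c, ← Category.assoc, ← h.nat,
    Category.assoc]

theorem Com.add {z z' : F.obj Z ⟶ B} (c : Com F m y z) (c' : Com F m y z') :
    Com F m y (z + z') := by
  unfold Com at c c' ⊢
  rw [MonoidalPreadditive.tensor_add, MonoidalPreadditive.add_tensor, Preadditive.add_comp,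
    Preadditive.add_comp, Preadditive.comp_add, c, c']

theorem Com.mul (as : m ▷ B ≫ m = (α_ B B B).hom ≫ B ◁ m ≫ m) {z : F.obj Z ⟶ B}
    {z' : F.obj Z' ⟶ B} (c : Com F m y z) (c' : Com F m y z') :
    Com F m y (δ F Z Z' ≫ (z ⊗ₘ z') ≫ m) := by
  unfold Com at c c' ⊢
  have as' : B ◁ m ≫ m = (α_ B B B).inv ≫ m ▷ B ≫ m := by rw [as, Iso.inv_hom_id_assoc]
  calc _ = (c0 F Y (Z ⊗ Z') ≫ δ F Z Z' ▷ F.obj Y) ≫ ((z ⊗ₘ z') ⊗ₘ y) ≫ m ▷ B ≫ m := by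
        rw [Category.assoc, tensorHom_comp_whiskerRight_assoc, whiskerRight_comp_tensorHom_assoc]
    _ = F.obj Y ◁ δ F Z Z' ≫ (α_ _ _ _).inv ≫ c0 F Y Z ▷ F.obj Z' ≫ (α_ _ _ _).hom ≫
        (z ⊗ₘ (c0 F Y Z' ≫ (z' ⊗ₘ y) ≫ m)) ≫ m := by
      rw [c0_hex, as, ← whiskerLeft_comp_tensorHom, ← tensorHom_comp_whiskerLeft]
      simp only [Category.assoc, associator_naturality_assoc, Iso.inv_hom_id_assoc]
    _ = F.obj Y ◁ δ F Z Z' ≫ (α_ _ _ _).inv ≫ ((c0 F Y Z ≫ (z ⊗ₘ y) ≫ m) ⊗ₘ z') ≫ m := by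
      rw [c', ← tensorHom_comp_whiskerLeft, ← whiskerRight_comp_tensorHom,
        ← tensorHom_comp_whiskerRight]
      simp only [Category.assoc, as, associator_naturality_assoc]
    _ = _ := by
      rw [c, ← tensorHom_comp_whiskerRight, ← whiskerLeft_comp_tensorHom,
        ← tensorHom_comp_whiskerLeft]
      simp only [Category.assoc, as', associator_inv_naturality_assoc]

end Com

/-- transfer of an algebra along the right adjoint -/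
theorem transfer {A : C} (h : Ifc F A) {B : D} (m : B ⊗ B ⟶ B) (u : 𝟙_ D ⟶ B)
    (as : m ▷ B ≫ m = (α_ B B B).hom ≫ B ◁ m ≫ m) (one : u ▷ B ≫ m = (λ_ B).hom)
    (com : ∀ (Y Z : C) (y : F.obj Y ⟶ B) (z : F.obj Z ⟶ B), Com F m y z)
    (conn : rk M F M.o B = 1) (hB : ∀ k, rk M F k B ≠ 0 → M.T k = 1)
    (hd : ∑ k, (rk M F k B : ℂ) * M.dim k ≠ 0)
    (simple : ∀ (Y : C) (y : F.obj Y ⟶ B), y ≠ 0 →
      ∃ w : 𝟙_ D ⟶ F.obj Y ⊗ B, w ≫ y ▷ B ≫ m = u) :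
    ∃ L, Nonempty (Etale M L) ∧ M.trL L (𝟙 L) = ∑ k, (rk M F k B : ℂ) * M.dim k := by
  obtain ⟨L, e, he⟩ := h.rep M B
  have inj : ∀ {Y : C} {g g' : Y ⟶ L}, F.map g ≫ e = F.map g' ≫ e → g = g' :=
    fun H => (he _).1 H
  obtain ⟨mL, hm⟩ := (he _).2 (δ F L L ≫ (e ⊗ₘ e) ≫ m)
  obtain ⟨uL, hu⟩ := (he _).2 (η F ≫ u)
  simp only at hm hu
  have key : ∀ {Y Z : C} (y : Y ⟶ L) (z : Z ⟶ L), F.map ((y ⊗ₘ z) ≫ mL) ≫ e =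
      δ F Y Z ≫ ((F.map y ≫ e) ⊗ₘ (F.map z ≫ e)) ≫ m := fun y z => by
    rw [F.map_comp, Category.assoc, hm, ← δ_natural_assoc, tensorHom_comp_tensorHom_assoc]
  have tr : M.trL L (𝟙 L) = ∑ k, (rk M F k B : ℂ) * M.dim k := by
    rw [M.ss.tr_fun M.trL M.trL_cyc (fun V => 𝟙 V) (by simp) L]
    exact Finset.sum_congr rfl fun k _ => by rw [he.rank]; rfl
  refine ⟨L, M.etale_of_simple mL uL (inj ?_) (inj ?_) (inj ?_) ?_ (inj ?_) (tr ▸ hd)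
    fun {Y} y hy => ?_, tr⟩
  · rw [← tensorHom_id, ← id_tensorHom, key, F.map_comp, Category.assoc, key, hm, F.map_id,
      Category.id_comp, ← whiskerRight_comp_tensorHom, ← whiskerLeft_comp_tensorHom,
      ← tensorHom_comp_whiskerRight, ← tensorHom_comp_whiskerLeft]
    simp only [Category.assoc]
    rw [as, associator_naturality_assoc, Functor.OplaxMonoidal.associativity_assoc]
  · rw [← tensorHom_id, key, hu, F.map_id, Category.id_comp, ← tensorHom_comp_whiskerRight,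
      Category.assoc, one, MonoidalCategory.tensorHom_def, Category.assoc, leftUnitor_naturality]
    simp
  · have := com L L e e
    unfold Com c0 at this
    rw [F.map_comp, Category.assoc, hm]
    simpa using congrArg (δ F L L ≫ ·) this
  · rw [rank_iso' L M.unit_iso.some, he.rank]
    exact conn
  · exact (loc M h hB e).trans
      ((Category.id_comp e).symm.trans (congrArg (· ≫ e) (F.map_id L).symm))
  · obtain ⟨w, hw⟩ := simple Y (F.map y ≫ e) fun e0 => hy (inj (by simpa using e0))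
    obtain ⟨w', hw'⟩ := (he.proj Y _).2 (η F ≫ w)
    simp only at hw'
    refine ⟨w', inj ?_⟩
    rw [F.map_comp, Category.assoc, ← tensorHom_id, key, hu, F.map_id, Category.id_comp, ← hw,
      ← reassoc_of% hw', tensorHom_def', Category.assoc]

end K3

end Pool.Agent.Lib.MP_edb142_al
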