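import Pool.Agent.Lib.MP_edb142_al.H.B0
import Pool.Agent.Lib.MP_edb142_al.H.K3c
import Pool.Agent.Lib.MP_edb142_al.H.K3e

open CategoryTheory MonoidalCategory Limits BraidedCategory Module

set_option linter.unusedSectionVars false

namespace Pool.Agent.Lib.MP_edb142_al

universe v u

variable {C : Type u} [Category.{v} C] [Preadditive C] [Linear ℂ C] [MonoidalCategory C]
  [MonoidalPreadditive C] [MonoidalLinear ℂ C] [HasFiniteBiproducts C] [BraidedCategory C]
  [RigidCategory C] {I : Type} [Fintype I] [DecidableEq I]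

namespace B4

open K3

variable {L S X : C} (d : Dec L S X)

theorem extR {U T : C} {f g : L ⊗ U ⟶ T} (h0 : d.a ▷ U ≫ f = d.a ▷ U ≫ g)
    (h1 : d.a' ▷ U ≫ f = d.a' ▷ U ≫ g) : f = g := by
  rw [← Category.id_comp f, ← Category.id_comp g, ← id_whiskerRight, ← d.tot]
  simp [h0, h1]

theorem extL {U T : C} {f g : U ⊗ L ⟶ T} (h0 : U ◁ d.a ≫ f = U ◁ d.a ≫ g)
    (h1 : U ◁ d.a' ≫ f = U ◁ d.a' ≫ g) : f = g := by
  rw [← Category.id_comp f, ← Category.id_comp g, ← MonoidalCategory.whiskerLeft_id, ← d.tot]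
  simp [h0, h1]

theorem extM {U V T : C} {f g : (U ⊗ L) ⊗ V ⟶ T} (h0 : (U ◁ d.a) ▷ V ≫ f = (U ◁ d.a) ▷ V ≫ g)
    (h1 : (U ◁ d.a') ▷ V ≫ f = (U ◁ d.a') ▷ V ≫ g) : f = g := by
  rw [← Category.id_comp f, ← Category.id_comp g, ← id_whiskerRight,
    ← MonoidalCategory.whiskerLeft_id, ← d.tot]
  simp only [MonoidalPreadditive.whiskerLeft_add, MonoidalPreadditive.add_whiskerRight,
    MonoidalCategory.whiskerLeft_comp, comp_whiskerRight, Preadditive.add_comp, Category.assoc,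
    h0, h1]

theorem extRR {U V T : C} {f g : (L ⊗ U) ⊗ V ⟶ T} (h0 : d.a ▷ U ▷ V ≫ f = d.a ▷ U ▷ V ≫ g)
    (h1 : d.a' ▷ U ▷ V ≫ f = d.a' ▷ U ▷ V ≫ g) : f = g := by
  rw [← Category.id_comp f, ← Category.id_comp g, ← id_whiskerRight, ← id_whiskerRight, ← d.tot]
  simp only [MonoidalPreadditive.add_whiskerRight, comp_whiskerRight, Preadditive.add_comp,
    Category.assoc, h0, h1]

theorem descR {U T : C} (f0 : S ⊗ U ⟶ T) (f1 : X ⊗ U ⟶ T) :
    ∃ f : L ⊗ U ⟶ T, d.a ▷ U ≫ f = f0 ∧ d.a' ▷ U ≫ f = f1 :=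
  ⟨d.b ▷ U ≫ f0 + d.b' ▷ U ≫ f1, by simp [← comp_whiskerRight_assoc, d.ab, d.z],
    by simp [← comp_whiskerRight_assoc, d.ab', d.z']⟩

theorem descL {U T : C} (f0 : U ⊗ S ⟶ T) (f1 : U ⊗ X ⟶ T) :
    ∃ f : U ⊗ L ⟶ T, U ◁ d.a ≫ f = f0 ∧ U ◁ d.a' ≫ f = f1 :=
  ⟨U ◁ d.b ≫ f0 + U ◁ d.b' ≫ f1,
    by simp [← MonoidalCategory.whiskerLeft_comp_assoc, d.ab, d.z],
    by simp [← MonoidalCategory.whiskerLeft_comp_assoc, d.ab', d.z']⟩

/-- the commutative algebra on the sum of the unit and `X` -/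
theorem alg {L X : C} (d : Dec L (𝟙_ C) X) {a : ℂ} (A : TriAlg X a) : ∃ m : L ⊗ L ⟶ L,
    m ▷ L ≫ m = (α_ L L L).hom ≫ L ◁ m ≫ m ∧ d.a ▷ L ≫ m = (λ_ L).hom ∧
      L ◁ d.a ≫ m = (ρ_ L).hom ∧ (β_ L L).hom ≫ m = m ∧
      d.a' ▷ X ≫ L ◁ d.a' ≫ m = a • (A.P.ε ≫ d.a) + A.m ≫ d.a' := by
  obtain ⟨σ, s0, s1⟩ := descR d ((λ_ X).hom ≫ d.a') (a • (A.P.ε ≫ d.a) + A.m ≫ d.a')
  obtain ⟨m, m0, m1⟩ := descL d (ρ_ L).hom σ
  have one : d.a ▷ L ≫ m = (λ_ L).hom := by
    refine extL d ?_ ?_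
    · rw [whisker_exchange_assoc, m0]
      monoidal
    · rw [whisker_exchange_assoc, m1, s0]
      monoidal
  have a2 : σ ▷ X ≫ σ = (α_ L X X).hom ≫ (a • (L ◁ A.P.ε ≫ (ρ_ L).hom) + L ◁ A.m ≫ σ) := by
    refine extRR d ?_ ?_
    · rw [← comp_whiskerRight_assoc, s0, comp_whiskerRight, Category.assoc, s1,
        associator_naturality_left_assoc]
      simp only [Preadditive.comp_add, Linear.comp_smul]
      rw [← whisker_exchange_assoc, ← whisker_exchange_assoc, s0]
      congr 1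
      · congr 1
        monoidal
      · monoidal
    · rw [← comp_whiskerRight_assoc, s1, associator_naturality_left_assoc]
      simp only [Preadditive.comp_add, Linear.comp_smul, MonoidalPreadditive.add_whiskerRight,
        MonoidalLinear.smul_whiskerRight, Preadditive.add_comp, Linear.smul_comp,
        comp_whiskerRight, Category.assoc]
      rw [← whisker_exchange_assoc, ← whisker_exchange_assoc, s0, s1, rightUnitor_naturality]
      have h := congrArg (· ≫ d.a') A.ass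
      have h' := congrArg (· ≫ d.a) A.inv
      simp only [Preadditive.comp_add, Linear.comp_smul, Preadditive.add_comp, Linear.smul_comp,
        Category.assoc] at h h' ⊢
      rw [h', add_left_comm, add_comm (a • _) (_ ≫ _), ← h]
      abel
  have a1 : m ▷ X ≫ σ = (α_ L L X).hom ≫ L ◁ σ ≫ m := by
    refine extM d ?_ ?_
    · rw [← comp_whiskerRight_assoc, m0, associator_naturality_middle_assoc,
        ← MonoidalCategory.whiskerLeft_comp_assoc, s0, MonoidalCategory.whiskerLeft_comp,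
        Category.assoc, m1]
      monoidal
    · rw [← comp_whiskerRight_assoc, m1, associator_naturality_middle_assoc,
        ← MonoidalCategory.whiskerLeft_comp_assoc, s1, a2]
      simp only [MonoidalPreadditive.whiskerLeft_add, MonoidalLinear.whiskerLeft_smul,
        MonoidalCategory.whiskerLeft_comp, Preadditive.add_comp, Linear.smul_comp,
        Category.assoc, m0, m1]
  refine ⟨m, extL d ?_ ?_, one, m0, extL d ?_ ?_, by rw [m1, s1]⟩
  · rw [whisker_exchange_assoc, m0, associator_naturality_right_assoc,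
      ← MonoidalCategory.whiskerLeft_comp_assoc, m0]
    monoidal
  · rw [whisker_exchange_assoc, m1, associator_naturality_right_assoc,
      ← MonoidalCategory.whiskerLeft_comp_assoc, m1, a1]
  · rw [braiding_naturality_right_assoc, one, m0, braiding_leftUnitor]
  · rw [braiding_naturality_right_assoc, m1]
    refine extR d ?_ ?_
    · rw [braiding_naturality_left_assoc, whisker_exchange_assoc, m0, s0, rightUnitor_naturality,
        braiding_rightUnitor_assoc]
    · rw [braiding_naturality_left_assoc, whisker_exchange_assoc, m1, s1]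
      simp only [Preadditive.comp_add, Linear.comp_smul]
      rw [reassoc_of% A.cε, reassoc_of% A.cm]

end B4

open K3 in
theorem TriAlg.etale (M : Modular C I) (x : I) (hxo : x ≠ M.o) (hT : M.T x = 1) {a : ℂ}
    (ha : a ≠ 0) (hd : 1 + M.dim x ≠ 0) (A : TriAlg (M.X x) a) :
    ∃ L : C, Nonempty (Etale M L) ∧
      ∀ k, Module.finrank ℂ (M.X k ⟶ L) = if k = M.o ∨ k = x then 1 else 0 := by
  have := M.ss.finite
  obtain ⟨L, ⟨d⟩⟩ := dec_ex (𝟙_ C) (M.X x)
  obtain ⟨m, as, one, m0, cm, mm⟩ := B4.alg d A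
  obtain ⟨φ⟩ := M.unit_iso
  have rk : ∀ k, finrank ℂ (M.X k ⟶ L) = if k = M.o ∨ k = x then 1 else 0 := fun k => by
    rw [d.rank_to, rank_iso _ φ, rank_X, rank_X]
    by_cases h1 : k = M.o
    · have h2 : k ≠ x := fun h => hxo (h ▸ h1)
      simp [h1, hxo.symm]
    · simp [h1]
  have z : ∀ f : 𝟙_ C ⟶ M.X x, f = 0 := fun f => by
    rw [← φ.hom_inv_id_assoc f, M.hom_zero _ _ hxo.symm (φ.inv ≫ f), comp_zero]
  have tx : (M.tw.t (M.X x)).hom = 𝟙 _ := by rw [M.tw_X, hT, one_smul]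
  refine ⟨L, M.etale_of_simple m d.a as one cm ?_ ?_ ?_ ?_, rk⟩
  · rw [rank_iso' _ φ, rk, if_pos (Or.inl rfl)]
  · change (M.tw.t L).hom = 𝟙 L
    rw [← Category.id_comp (M.tw.t L).hom, ← d.tot, Preadditive.add_comp, Category.assoc,
      Category.assoc, M.tw.nat, M.tw.nat, M.tw.unit, tx, Category.id_comp, Category.id_comp]
  · have t1 : M.trL (𝟙_ C) (𝟙 _) = 1 := by
      apply M.s1.inj
      rw [← M.tr_eq Du.unit, Tw.tr_unit, one_smul]
    rw [← d.tot, map_add, M.trL_cyc, M.trL_cyc d.b', d.ab, d.ab', t1]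
    exact hd
  · intro Y y hy
    have e : ∀ {Z : C} (g : Z ⟶ Y), g ≫ y = (g ≫ y ≫ d.b) ≫ d.a + (g ≫ y ≫ d.b') ≫ d.a' :=
      fun g => by
        simp only [Category.assoc]
        rw [← Preadditive.comp_add, ← Preadditive.comp_add, d.tot, Category.comp_id]
    by_cases h : y ≫ d.b = 0
    · have h' : y ≫ d.b' ≠ 0 := fun h' => hy (by simpa [h, h'] using e (𝟙 Y))
      obtain ⟨g, hg⟩ := (M.ss.sim x).epi h' (M.ss.reg _)
      have gy : g ≫ y = d.a' := by rw [e, h, hg, comp_zero, zero_comp, zero_add, Category.id_comp]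
      have lp : A.P.η ≫ A.P.ε = M.dim x • 𝟙 _ := by
        have := M.tr_eq A.P (𝟙 _)
        rwa [Tw.tr_plus, tx, A.cε, Category.id_comp, id_whiskerRight, Category.id_comp] at this
      refine ⟨(a * M.dim x)⁻¹ • (A.P.η ≫ g ▷ _ ≫ Y ◁ d.a'), ?_⟩
      rw [Linear.smul_comp, Category.assoc, Category.assoc, whisker_exchange_assoc,
        ← comp_whiskerRight_assoc, gy, mm, Preadditive.comp_add, Linear.comp_smul,
        ← Category.assoc, ← Category.assoc, lp, z (_ ≫ A.m), zero_comp, add_zero,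
        Linear.smul_comp, Category.id_comp, smul_smul a, smul_smul,
        inv_mul_cancel₀ (mul_ne_zero ha (M.dim_ne x)), one_smul]
    · obtain ⟨g, hg⟩ := M.s1.epi h (M.ss.reg _)
      have gy : g ≫ y = d.a := by rw [e, hg, z (g ≫ _), zero_comp, add_zero, Category.id_comp]
      refine ⟨(ρ_ _).inv ≫ g ▷ _ ≫ Y ◁ d.a, ?_⟩
      rw [Category.assoc, Category.assoc, whisker_exchange_assoc, ← comp_whiskerRight_assoc, gy,
        m0, rightUnitor_naturality, Iso.inv_hom_id_assoc]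

end Pool.Agent.Lib.MP_edb142_al
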