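import Mathlib

namespace Pool.Agent.Lib.MP_edb142_al

/-- Labels of the twelve simple objects: `inl 0, …, inl 5` stand for the unit, `π₁`, `π₂`, `σ₀`,
`σ₁`, `σ₂`, and `inr l` stands for `μ_{l+1}`. -/
abbrev Lab : Type := Fin 6 ⊕ Fin 6

/-- The number `d = (3 ± √13)/2` written through a primitive 13th root of unity. -/
noncomputable def hd (ζ : ℂ) : ℂ := 2 + ζ + ζ ^ 3 + ζ ^ 4 + ζ ^ 9 + ζ ^ 10 + ζ ^ 12

/-- The `S`-matrix of the Drinfeld centre of the Haagerup fusion category, normalised by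
`S(unit, unit) = 1`. -/
noncomputable def hS (ζ : ℂ) : Lab → Lab → ℂ
  | .inl i, .inl j =>
    !![1, 3 * hd ζ + 1, 3 * hd ζ + 2, 3 * hd ζ + 2, 3 * hd ζ + 2, 3 * hd ζ + 2;
      3 * hd ζ + 1, 1, 3 * hd ζ + 2, 3 * hd ζ + 2, 3 * hd ζ + 2, 3 * hd ζ + 2;
      3 * hd ζ + 2, 3 * hd ζ + 2, 2 * (3 * hd ζ + 2), -(3 * hd ζ + 2), -(3 * hd ζ + 2),
        -(3 * hd ζ + 2);
      3 * hd ζ + 2, 3 * hd ζ + 2, -(3 * hd ζ + 2), 2 * (3 * hd ζ + 2), -(3 * hd ζ + 2),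
        -(3 * hd ζ + 2);
      3 * hd ζ + 2, 3 * hd ζ + 2, -(3 * hd ζ + 2), -(3 * hd ζ + 2), -(3 * hd ζ + 2),
        2 * (3 * hd ζ + 2);
      3 * hd ζ + 2, 3 * hd ζ + 2, -(3 * hd ζ + 2), -(3 * hd ζ + 2), 2 * (3 * hd ζ + 2),
        -(3 * hd ζ + 2)] i j
  | .inl i, .inr _ => ![3 * hd ζ, -(3 * hd ζ), 0, 0, 0, 0] i
  | .inr _, .inl j => ![3 * hd ζ, -(3 * hd ζ), 0, 0, 0, 0] j
  | .inr l, .inr m =>
    -(3 * hd ζ) * (ζ ^ ((l.val + 1) * (m.val + 1)) + ζ⁻¹ ^ ((l.val + 1) * (m.val + 1)))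

/-- The twists of the Drinfeld centre of the Haagerup fusion category. -/
noncomputable def hT (ζ ω : ℂ) : Lab → ℂ
  | .inl i => ![1, 1, 1, 1, ω, ω ^ 2] i
  | .inr l => ζ ^ (6 * (l.val + 1) ^ 2)

end Pool.Agent.Lib.MP_edb142_al
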