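import Pool.Agent.Lib.MP_edb142_al.H.Dat0

namespace Pool.Agent.Lib.MP_edb142_al

/-- braiding eigenvalues on the square of `π₁` -/
noncomputable def hR (ζ ω : ℂ) : Lab → ℂ
  | .inl i => ![1, 1, 1, 1, ω ^ 2, ω] i
  | .inr l => -ζ ^ (3 * (l.val + 1) ^ 2)

namespace HN
variable {ζ : ℂ} (hζ : IsPrimitiveRoot ζ 13)
include hζ

theorem zsum : 1 + ζ + ζ ^ 2 + ζ ^ 3 + ζ ^ 4 + ζ ^ 5 + ζ ^ 6 + ζ ^ 7 + ζ ^ 8 + ζ ^ 9 + ζ ^ 10 +
    ζ ^ 11 + ζ ^ 12 = 0 := by
  have := hζ.geom_sum_eq_zero (by norm_num)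
  simpa [Finset.sum_range_succ] using this

theorem dsq : hd ζ ^ 2 = 3 * hd ζ + 1 := by
  unfold hd
  linear_combination (-3 + 4 * ζ + 2 * ζ ^ 4 - ζ ^ 5 - ζ ^ 6 + ζ ^ 7 - ζ ^ 8 + 2 * ζ ^ 10 - ζ ^ 11 +
    ζ ^ 12) * zsum hζ

theorem zinv : ζ⁻¹ = ζ ^ 12 := by
  apply inv_eq_of_mul_eq_one_right
  rw [← pow_succ', hζ.pow_eq_one]

/-- powers of `ζ` as a function of the residue of the exponent -/
theorem exz : ∃ z : ℕ → ℂ, (∀ n, ζ ^ n = z (n % 13)) ∧ z 0 = 1 ∧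
    z 1 + z 3 + z 4 + z 9 + z 10 + z 12 = hd ζ - 2 ∧
    z 2 + z 5 + z 6 + z 7 + z 8 + z 11 = 1 - hd ζ := by
  refine ⟨fun n => ζ ^ n, fun n => pow_eq_pow_mod n hζ.pow_eq_one, pow_zero _, ?_, ?_⟩
  · simp only [hd]; ring
  · simp only [hd]; linear_combination zsum hζ

theorem csum (m : Fin 6) : ∑ l : Fin 6, hS ζ (.inr l) (.inr m) = 3 * hd ζ := by
  obtain ⟨z, hz, h0, h1, h2⟩ := exz hζ
  simp only [hS, zinv hζ, ← pow_mul, Fin.sum_univ_six]
  simp only [hz]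
  fin_cases m <;> norm_num <;> linear_combination (-(3 * hd ζ)) * (h1 + h2)

theorem q1 (a : ℕ) (h : a % 13 = 12 ∨ a % 13 = 3) :
    ∑ l : Fin 6, ζ ^ (a * (l.val + 1) ^ 2) = hd ζ - 2 := by
  obtain ⟨z, hz, h0, h1, h2⟩ := exz hζ
  simp only [Fin.sum_univ_six, hz, Nat.mul_mod a]
  rcases h with h | h <;> rw [h] <;> norm_num <;> linear_combination h1

theorem q2 (a : ℕ) (h : a % 13 = 5 ∨ a % 13 = 8 ∨ a % 13 = 11) :
    ∑ l : Fin 6, ζ ^ (a * (l.val + 1) ^ 2) = 1 - hd ζ := by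
  obtain ⟨z, hz, h0, h1, h2⟩ := exz hζ
  simp only [Fin.sum_univ_six, hz, Nat.mul_mod a]
  rcases h with h | h | h <;> rw [h] <;> norm_num <;> linear_combination h2

theorem gauss (m : Fin 6) : ∑ l : Fin 6, hR ζ 0 (.inr l) * hS ζ (.inr l) (.inr m) =
    (ζ ^ (6 * (m.val + 1) ^ 2))⁻¹ ^ 2 * (9 * hd ζ + 6) - 3 * hd ζ := by
  have e : ∀ n, (2 * hd ζ - 3) * ζ ^ n = ζ ^ n + 2 * (ζ ^ (1 + n) + ζ ^ (3 + n) + ζ ^ (4 + n) +
      ζ ^ (9 + n) + ζ ^ (10 + n) + ζ ^ (12 + n)) := fun n => by unfold hd; ring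
  have e2 : ∀ x : ℂ, x * (9 * hd ζ + 6) = 3 * hd ζ * ((2 * hd ζ - 3) * x) := fun x => by
    linear_combination (-6 * x) * dsq hζ
  have e3 : ∀ a b c : ℕ, -ζ ^ a * (-(3 * hd ζ) * (ζ ^ b + ζ ^ c)) =
      3 * hd ζ * (ζ ^ (a + b) + ζ ^ (a + c)) := fun a b c => by ring
  obtain ⟨z, hz, h0, h1, h2⟩ := exz hζ
  rw [e2]
  simp only [hR, hS, ← inv_pow, zinv hζ, ← pow_mul, Fin.sum_univ_six, e, e3]
  simp only [hz]
  fin_cases m <;> norm_num <;> rw [h0] <;> ring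

/-- column sums of the `S`-matrix -/
noncomputable def col (ζ : ℂ) : Lab → ℂ
  | .inl i => ![(3 * hd ζ + 1) ^ 2, 10 - 3 * hd ζ, 3 * hd ζ + 2, 3 * hd ζ + 2, 3 * hd ζ + 2,
      3 * hd ζ + 2] i
  | .inr _ => 3 * hd ζ

theorem colsum (j : Lab) : ∑ m, hS ζ m j = col ζ j := by
  have hq := dsq hζ
  rcases j with j | j
  · fin_cases j <;> simp [Fintype.sum_sum_type, Fin.sum_univ_six, hS, col]
    · linear_combination (-9) * hq
    all_goals ring
  · rw [Fintype.sum_sum_type, csum hζ]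
    simp [Fin.sum_univ_six, hS, col]

theorem v00 (j : Lab) : hS ζ (.inl 0) j * hS ζ (.inl 0) j =
    hS ζ (.inl 1) j * ∑ m, (Sum.elim (fun _ => 1) (fun _ => -1) m : ℂ) * hS ζ m j := by
  have hq := dsq hζ
  rcases j with j | j
  · fin_cases j <;> simp [Fintype.sum_sum_type, Fin.sum_univ_six, hS]
    · linear_combination 9 * hq
    · linear_combination 9 * hq
    all_goals exact Or.inl (by ring)
  · rw [Fintype.sum_sum_type]
    simp only [Sum.elim_inr, neg_mul, one_mul, Finset.sum_neg_distrib, csum hζ]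
    simp [Fin.sum_univ_six, hS]

theorem vxx (j : Lab) : hS ζ (.inl 1) j * hS ζ (.inl 1) j = hS ζ (.inl 0) j * col ζ j := by
  have hq := dsq hζ
  rcases j with j | j
  · fin_cases j <;> simp [hS, col]
    · ring
    · linear_combination 9 * hq
  · simp [hS, col]

theorem vxa (a : Fin 4) (j : Lab) : hS ζ (.inl 1) j * hS ζ (.inl a.succ.succ) j =
    hS ζ (.inl 0) j * (col ζ j - hS ζ (.inl 0) j + hS ζ (.inl a.succ.succ) j) := by
  have hq := dsq hζ
  rcases j with j | j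
  · fin_cases a <;> fin_cases j <;> simp [hS, col] <;> first | ring1 | linear_combination 9 * hq
  · fin_cases a <;> simp [hS, col]

theorem vxm (l : Fin 6) (j : Lab) : hS ζ (.inl 1) j * hS ζ (.inr l) j =
    hS ζ (.inl 0) j * (col ζ j - hS ζ (.inl 0) j - hS ζ (.inr l) j) := by
  have hq := dsq hζ
  rcases j with j | j
  · fin_cases j <;> simp [hS, col] <;> first | ring1 | linear_combination 9 * hq
  · simp only [hS, col]; simp

theorem vaa (j : Lab) : hS ζ (.inl 2) j * hS ζ (.inl 2) j =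
    hS ζ (.inl 0) j * (col ζ j + hS ζ (.inl 1) j + hS ζ (.inl 2) j) := by
  have hq := dsq hζ
  rcases j with j | j
  · fin_cases j <;> simp [hS, col] <;> first | ring1 | linear_combination 9 * hq
  · simp [hS, col]

theorem vma (j : Lab) : hS ζ (.inr 0) j * hS ζ (.inl 2) j =
    hS ζ (.inl 0) j * (col ζ j - hS ζ (.inl 0) j) := by
  have hq := dsq hζ
  rcases j with j | j
  · fin_cases j <;> simp [hS, col] <;> first | ring1 | linear_combination 9 * hq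
  · simp [hS, col]

theorem sq1 (k : Lab) : ∑ j, hS ζ k j * hS ζ (.inl 1) j =
    if k = .inl 1 then 117 * (3 * hd ζ + 1) else 0 := by
  have hq := dsq hζ
  rcases k with k | k
  · fin_cases k <;> simp [Fintype.sum_sum_type, Fin.sum_univ_six, hS] <;>
      first | ring1 | linear_combination (-18) * hq | linear_combination 99 * hq
  · have : ∀ j, hS ζ (.inr k) (.inr j) * hS ζ (.inl 1) (.inr j) =
        -(3 * hd ζ) * hS ζ (.inr j) (.inr k) := fun j => by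
      simp only [hS, mul_comm (k.val + 1)]; simp; ring
    rw [Fintype.sum_sum_type]
    simp only [this, ← Finset.mul_sum, csum hζ]
    simp [Fin.sum_univ_six, hS]; ring

end HN

end Pool.Agent.Lib.MP_edb142_al
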