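import Pool.Agent.Lib.MP_edb142_al.H.Alg
import Pool.Agent.Lib.MP_edb142_al.H.Dat1a

open CategoryTheory MonoidalCategory Limits

set_option linter.unusedSectionVars false

namespace Pool.Agent.Lib.MP_edb142_al

universe v u

variable {C : Type u} [Category.{v} C] [Preadditive C] [Linear ℂ C] [MonoidalCategory C]
  [MonoidalPreadditive C] [MonoidalLinear ℂ C] [HasFiniteBiproducts C] [BraidedCategory C]
  [RigidCategory C]

/-- the trace of the `n`-th power of the double braiding of `X x` with `X j`, when `T x = 1` -/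
noncomputable def Modular.G {I : Type} [Fintype I] [DecidableEq I] (M : Modular C I) (x : I)
    (n : ℕ) (j : I) : ℂ :=
  (M.T j)⁻¹ ^ n * ∑ m, (M.N x j m : ℂ) * (M.T m ^ n * M.dim m)

namespace Modular
variable {I : Type} [Fintype I] [DecidableEq I] (M : Modular C I)

theorem S_inj {t t' : I → ℂ} (h : ∀ j, ∑ k, t k * M.S k j = ∑ k, t' k * M.S k j) : t = t' := by
  have : Matrix.vecMul (t - t') M.S = 0 := by
    ext j
    simp only [Matrix.vecMul, dotProduct, Pi.sub_apply, sub_mul, Finset.sum_sub_distrib, h,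
      sub_self, Pi.zero_apply]
  exact sub_eq_zero.1 (Matrix.eq_zero_of_vecMul_eq_zero M.S_det this)

theorem N_of (k l : I) (f : I → ℂ)
    (h : ∀ j, M.S k j * M.S l j = M.S M.o j * ∑ m, f m * M.S m j) (m : I) :
    (M.N k l m : ℂ) = f m := by
  refine congrFun (M.S_inj (t := fun m => (M.N k l m : ℂ)) fun j => ?_) m
  have h1 := (M.verlinde k l j).symm.trans (h j)
  rw [M.S_o] at h1
  exact mul_left_cancel₀ (M.dim_ne j) h1

theorem N_swap (k l m : I) : M.N k l m = M.N l k m := by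
  have := M.N_of k l (fun m => (M.N l k m : ℂ)) (fun j => by rw [mul_comm, M.verlinde]) m
  exact_mod_cast this

theorem selfdual_of (hr : ∀ i j, (starRingEnd ℂ) (M.S i j) = M.S i j) (k l : I) (h : k ≠ l) :
    M.N k l M.o = 0 := by
  have h1 : (fun r => (Module.finrank ℂ (M.X r ⟶ (M.X k)ᘁ) : ℂ)) =
      fun r => if r = k then 1 else 0 := by
    refine M.S_inj fun j => ?_
    have h2 := M.s_conj (RingHom.id ℂ) j (du (M.X k))
    simp only [RingHom.id_apply] at h2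
    have h3 := hr k j
    rw [M.S_s, map_mul, M.dim_real, ← h2, M.s_dec, Finset.sum_mul] at h3
    simp only [ite_mul, one_mul, zero_mul, Finset.sum_ite_eq', Finset.mem_univ, if_true, M.S_s]
    rw [← h3]
    exact Finset.sum_congr rfl fun r _ => by ring
  have h2 := congrFun h1 l
  simp only [if_neg h.symm, Nat.cast_eq_zero] at h2
  unfold N
  rw [← ((du (M.X k)).eqvL _ _).finrank_eq, ← h2, M.ss.finrank_symm]
  exact (Linear.homCongr ℂ (whiskerLeftIso _ M.unit_iso.some.symm ≪≫ ρ_ _) (Iso.refl _)).finrank_eq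

end Modular

structure Haag (M : Modular C Lab) (ζ ω : ℂ) : Prop where
  hζ : IsPrimitiveRoot ζ 13
  hω : IsPrimitiveRoot ω 3
  S : ∀ i j, M.S i j = hS ζ i j
  T : ∀ i, M.T i = hT ζ ω i

namespace Haag
variable {M : Modular C Lab} {ζ ω : ℂ} (H : Haag M ζ ω)
include H

theorem o_eq : M.o = .inl 0 := by
  have hq := HN.dsq H.hζ
  have h1 : hS ζ M.o M.o = 1 := by rw [← H.S, M.S_o, M.dim_o]
  have h2 : hT ζ ω M.o = 1 := by rw [← H.T, M.T_o]
  have h3 : ¬ 2 * (3 * hd ζ + 2) = 1 := fun h => by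
    have : hd ζ = -1 / 2 := by linear_combination h / 6
    rw [this] at hq; norm_num at hq
  rcases ho : M.o with i | l
  · rw [ho] at h1 h2
    fin_cases i
    · rfl
    · have := M.N_of (.inl 0) (.inl 0) (Sum.elim (fun _ => 1) (fun _ => -1))
        (fun j => by simp only [H.S, ho]; exact HN.v00 H.hζ j) (.inr 0)
      have h4 : ((M.N (.inl 0) (.inl 0) (.inr 0) + 1 : ℕ) : ℂ) = 0 := by
        push_cast; rw [this]; simp
      exact absurd (Nat.cast_eq_zero.1 h4) (Nat.succ_ne_zero _)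
    · exact absurd (by simpa [hS] using h1) h3
    · exact absurd (by simpa [hS] using h1) h3
    · exact absurd (by simpa [hT] using h2) (H.hω.ne_one (by norm_num))
    · exact absurd (by simpa [hT] using h2)
        (H.hω.pow_ne_one_of_pos_of_lt (l := 2) (by norm_num) (by norm_num))
  · rw [ho] at h2
    have := (H.hζ.pow_eq_one_iff_dvd _).1 h2
    revert this
    fin_cases l <;> decide

theorem dim_eq (k : Lab) : M.dim k = hS ζ (.inl 0) k := by rw [← M.S_o, H.o_eq, H.S]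

theorem pos : M.Pos := by
  intro n h
  have hq := HN.dsq H.hζ
  simp only [H.dim_eq, Fintype.sum_sum_type, Fin.sum_univ_six] at h
  simp [hS] at h
  obtain ⟨A, hA⟩ : ∃ A : ℕ, A = n (.inl 0) + n (.inl 1) + 2 * (n (.inl 2) + n (.inl 3) +
    n (.inl 4) + n (.inl 5)) := ⟨_, rfl⟩
  obtain ⟨B, hB⟩ : ∃ B : ℕ, B = n (.inl 1) + n (.inl 2) + n (.inl 3) + n (.inl 4) + n (.inl 5) +
    n (.inr 0) + n (.inr 1) + n (.inr 2) + n (.inr 3) + n (.inr 4) + n (.inr 5) := ⟨_, rfl⟩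
  have h1 : (A : ℂ) + 3 * B * hd ζ = 0 := by
    rw [hA, hB]; push_cast; linear_combination h
  have hB0 : B = 0 := by
    by_contra hb
    have h2 : ((2 * A + 9 * B : ℕ) : ℂ) ^ 2 = 13 * ((3 * B : ℕ) : ℂ) ^ 2 := by
      push_cast
      linear_combination (4 * (A - 3 * B * hd ζ) + 36 * B) * h1 + 36 * B ^ 2 * hq
    have h3 : ((2 * A + 9 * B : ℕ) : ℚ) ^ 2 = 13 * ((3 * B : ℕ) : ℚ) ^ 2 := by exact_mod_cast h2
    have h4 : ((3 * B : ℕ) : ℚ) ≠ 0 := Nat.cast_ne_zero.2 (by omega)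
    have h5 : IsSquare ((13 : ℕ) : ℚ) := ⟨((2 * A + 9 * B : ℕ) : ℚ) / ((3 * B : ℕ) : ℚ), by
      field_simp; rw [h3]; norm_num⟩
    exact (by norm_num : Nat.Prime 13).prime.not_isSquare (Rat.isSquare_natCast_iff.1 h5)
  have hA0 : A = 0 := by
    rw [hB0] at h1; simpa using h1
  rintro (i | i) <;> fin_cases i <;> simp only [Fin.reduceFinMk, Fin.zero_eta, Fin.mk_one] <;> omega

theorem selfdual (k l : Lab) (h : k ≠ l) : M.N k l M.o = 0 := by
  refine M.selfdual_of (fun i j => ?_) k l h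
  have hd' : (starRingEnd ℂ) (hd ζ) = hd ζ := by
    have := M.dim_real (.inr 0)
    rw [H.dim_eq] at this
    simp only [hS, Matrix.cons_val_zero, map_mul, map_ofNat] at this
    linear_combination this / 3
  have hz : (starRingEnd ℂ) ζ = ζ⁻¹ :=
    (Complex.inv_eq_conj (H.hζ.norm'_eq_one (by norm_num))).symm
  rw [H.S]
  rcases i with i | i <;> rcases j with j | j
  · fin_cases i <;> fin_cases j <;> simp [hS, hd', map_ofNat]
  · fin_cases i <;> simp [hS, hd', map_ofNat]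
  · fin_cases j <;> simp [hS, hd', map_ofNat]
  · simp only [hS, map_mul, map_neg, map_add, map_pow, map_inv₀, hd', hz, map_ofNat, inv_inv]
    ring

theorem N_col (k l : Lab) (a b : Lab) (x y : ℂ)
    (h : ∀ j, hS ζ k j * hS ζ l j = hS ζ (.inl 0) j * (HN.col ζ j + x * hS ζ a j + y * hS ζ b j))
    (m : Lab) : (M.N k l m : ℂ) = 1 + (if m = a then x else 0) + (if m = b then y else 0) := by
  refine M.N_of k l (fun m => 1 + (if m = a then x else 0) + (if m = b then y else 0))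
    (fun j => ?_) m
  simp only [H.S, H.o_eq, h, add_mul, one_mul, ite_mul, zero_mul, Finset.sum_add_distrib,
    Finset.sum_ite_eq', Finset.mem_univ, if_true, HN.colsum H.hζ]

theorem Nxx (k : Lab) : M.N (.inl 1) (.inl 1) k = 1 := by
  have := H.N_col (.inl 1) (.inl 1) (.inl 0) (.inl 0) 0 0
    (fun j => by rw [HN.vxx H.hζ]; ring) k
  simpa using this

theorem Nx0 (k : Lab) : (M.N (.inl 1) (.inl 0) k : ℂ) = if k = .inl 1 then 1 else 0 := by
  refine M.N_of _ _ (fun m => if m = .inl 1 then 1 else 0) (fun j => ?_) k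
  simp [H.o_eq, mul_comm]

theorem Nxa (a : Fin 4) (k : Lab) : (M.N (.inl 1) (.inl a.succ.succ) k : ℂ) =
    1 + (if k = .inl 0 then -1 else 0) + (if k = .inl a.succ.succ then 1 else 0) :=
  H.N_col _ _ _ _ _ _ (fun j => by rw [HN.vxa H.hζ]; ring) k

theorem Nxm (l : Fin 6) (k : Lab) : (M.N (.inl 1) (.inr l) k : ℂ) =
    1 + (if k = .inl 0 then -1 else 0) + (if k = .inr l then -1 else 0) :=
  H.N_col _ _ _ _ _ _ (fun j => by rw [HN.vxm H.hζ]; ring) k

theorem Naa (k : Lab) : (M.N (.inl 2) (.inl 2) k : ℂ) =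
    1 + (if k = .inl 1 then 1 else 0) + (if k = .inl 2 then 1 else 0) :=
  H.N_col _ _ _ _ _ _ (fun j => by rw [HN.vaa H.hζ]; ring) k

theorem Nma (k : Lab) : (M.N (.inr 0) (.inl 2) k : ℂ) =
    1 + (if k = .inl 0 then -1 else 0) + (if k = .inl 0 then 0 else 0) :=
  H.N_col _ _ _ _ _ _ (fun j => by rw [HN.vma H.hζ]; ring) k

theorem hmm : M.N (.inr 0) (.inl 1) (.inr 0) = 0 := by
  have := H.Nxm 0 (.inr 0)
  rw [M.N_swap]
  simpa using this

theorem hm1 : M.N (.inr 0) (.inl 1) (.inl 2) = 1 := by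
  have := H.Nxm 0 (.inl 2)
  rw [M.N_swap]
  simpa using this

theorem h1 (k : Lab) : M.N (.inl 2) (.inl 1) k =
    (if k = .inr 0 then 1 else 0) + M.N (.inr 0) (.inl 1) k + (if k = .inl 2 then 1 else 0) := by
  have h1 : (M.N (.inl 1) (.inl 2) k : ℂ) = _ := H.Nxa 0 k
  rw [M.N_swap (.inl 2), M.N_swap (.inr 0), ← Nat.cast_inj (R := ℂ)]
  push_cast
  rw [h1, H.Nxm]
  have : (Fin.succ (Fin.succ (0 : Fin 4))) = 2 := rfl
  rw [this]
  split_ifs <;> ring

theorem h2 (k : Lab) : M.N (.inl 2) (.inl 2) k =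
    M.N (.inr 0) (.inl 2) k + (if k = M.o ∨ k = .inl 1 ∨ k = .inl 2 then 1 else 0) := by
  rw [← Nat.cast_inj (R := ℂ)]
  push_cast
  rw [H.Naa, H.Nma, H.o_eq]
  rcases k with k | k
  · fin_cases k <;> simp
  · simp

theorem dimsq : (3 * M.dim (.inl 2)) ^ 2 = ∑ i, M.dim i ^ 2 := by
  simp only [H.dim_eq, Fintype.sum_sum_type, Fin.sum_univ_six]
  simp [hS]
  linear_combination (-18) * HN.dsq H.hζ

/-- power sums of the twists -/
theorem psum (n : ℕ) : ∑ m, M.T m ^ n * M.dim m = 9 * hd ζ + 6 + (3 * hd ζ + 2) *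
    (ω ^ n + ω ^ (2 * n)) + 3 * hd ζ * ∑ l : Fin 6, ζ ^ (6 * n * (l.val + 1) ^ 2) := by
  have : ∀ l : Fin 6, M.T (.inr l) ^ n * M.dim (.inr l) =
      3 * hd ζ * ζ ^ (6 * n * (l.val + 1) ^ 2) := fun l => by
    rw [H.T, H.dim_eq]
    simp only [hT, hS, Matrix.cons_val_zero]
    ring
  rw [Fintype.sum_sum_type]
  simp only [this, ← Finset.mul_sum]
  simp only [H.T, H.dim_eq, Fin.sum_univ_six]
  simp [hT, hS]
  ring

theorem wsum : ω ^ 2 + ω + 1 = 0 := by
  have := H.hω.geom_sum_eq_zero (by norm_num)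
  simp only [Finset.sum_range_succ, Finset.sum_range_zero] at this
  linear_combination this

theorem p2 : ∑ m, M.T m ^ 2 * M.dim m = 9 * hd ζ + 7 := by
  rw [H.psum, HN.q1 H.hζ _ (by norm_num)]
  linear_combination (3 * hd ζ + 2) * (ω ^ 2 - ω + 1) * H.wsum + 3 * HN.dsq H.hζ

theorem p3 : ∑ m, M.T m ^ 3 * M.dim m = 9 * hd ζ + 7 := by
  rw [H.psum, HN.q2 H.hζ _ (by norm_num)]
  linear_combination (3 * hd ζ + 2) * (ω ^ 3 + 2) * H.hω.pow_eq_one - 3 * HN.dsq H.hζ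

theorem p4 : ∑ m, M.T m ^ 4 * M.dim m = 1 := by
  rw [H.psum, HN.q2 H.hζ _ (by norm_num)]
  linear_combination (3 * hd ζ + 2) * (ω ^ 6 - ω ^ 5 + ω ^ 3 - ω + 1) * H.wsum - 3 * HN.dsq H.hζ

theorem G0 (n : ℕ) : M.G (.inl 1) n (.inl 0) = 3 * hd ζ + 1 := by
  simp [Modular.G, H.Nx0, H.T, H.dim_eq, hT, hS]

theorem G1 (n : ℕ) : M.G (.inl 1) n (.inl 1) = ∑ m, M.T m ^ n * M.dim m := by
  simp [Modular.G, H.Nxx, H.T (.inl 1), hT]

theorem Gj (n : ℕ) (j : Lab) (e : ℂ) (h : ∀ k, (M.N (.inl 1) j k : ℂ) =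
    1 + (if k = .inl 0 then -1 else 0) + (if k = j then e else 0)) :
    M.G (.inl 1) n j = (hT ζ ω j)⁻¹ ^ n * (∑ m, M.T m ^ n * M.dim m - 1) + e * hS ζ (.inl 0) j := by
  have h1 : (M.T j)⁻¹ ^ n * M.T j ^ n = 1 := by rw [← mul_pow, inv_mul_cancel₀ (M.T_ne j), one_pow]
  have h2 : M.T (.inl 0) ^ n * M.dim (.inl 0) = 1 := by rw [← H.o_eq, M.T_o, M.dim_o]; simp
  simp only [Modular.G, h, add_mul, one_mul, ite_mul, zero_mul, Finset.sum_add_distrib,
    Finset.sum_ite_eq', Finset.mem_univ, if_true, h2]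
  rw [← H.T, ← H.dim_eq]
  linear_combination e * M.dim j * h1

theorem Gall (n : ℕ) (p : ℂ) (hp : ∑ m, M.T m ^ n * M.dim m = p) (j : Lab) :
    M.G (.inl 1) n j = Sum.elim ![3 * hd ζ + 1, p, p + 3 * hd ζ + 1, p + 3 * hd ζ + 1,
      ω⁻¹ ^ n * (p - 1) + 3 * hd ζ + 2, (ω ^ 2)⁻¹ ^ n * (p - 1) + 3 * hd ζ + 2]
      (fun l => (ζ ^ (6 * (l.val + 1) ^ 2))⁻¹ ^ n * (p - 1) - 3 * hd ζ) j := by
  rcases j with j | j
  · fin_cases j
    · exact H.G0 n
    · exact (H.G1 n).trans hp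
    · refine (H.Gj n _ 1 (H.Nxa 0)).trans ?_
      rw [hp]; simp [hT, hS]; ring
    · refine (H.Gj n _ 1 (H.Nxa 1)).trans ?_
      rw [hp]; simp [hT, hS]; ring
    · refine (H.Gj n _ 1 (H.Nxa 2)).trans ?_
      rw [hp]; simp [hT, hS]; ring
    · refine (H.Gj n _ 1 (H.Nxa 3)).trans ?_
      rw [hp]; simp [hT, hS]; ring
  · rw [H.Gj n _ _ (H.Nxm j), hp]
    simp only [hT, hS, Matrix.cons_val_zero, Sum.elim_inr]
    ring

theorem winv : ω⁻¹ = ω ^ 2 := by
  apply inv_eq_of_mul_eq_one_right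
  rw [← pow_succ', H.hω.pow_eq_one]

theorem tr2 (t : Lab → ℂ) (h : ∀ j, ∑ k, t k * M.S k j = M.G (.inl 1) 2 j) : t = hR ζ ω := by
  refine M.S_inj fun j => ?_
  have hq := HN.dsq H.hζ
  have hw := H.wsum
  rw [h, H.Gall 2 _ H.p2, Fintype.sum_sum_type]
  simp only [H.S]
  rcases j with j | j
  · have : ∀ l : Fin 6, hR ζ ω (.inr l) * hS ζ (.inr l) (.inl j) =
        -hS ζ (.inr 0) (.inl j) * ζ ^ (3 * (l.val + 1) ^ 2) := fun l => by
      simp only [hR, hS]; ring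
    simp only [this, ← Finset.mul_sum, HN.q1 H.hζ 3 (by norm_num)]
    fin_cases j <;> simp [Fin.sum_univ_six, hR, hS, ← inv_pow, H.winv]
    · linear_combination 3 * hq - (3 * hd ζ + 2) * hw
    · linear_combination (-3) * hq - (3 * hd ζ + 2) * hw
    · linear_combination (3 * hd ζ + 2) * hw
    · linear_combination (3 * hd ζ + 2) * hw
    · linear_combination (3 * hd ζ + 2) * (3 * (ω ^ 2 - ω) + 1) * hw
    · linear_combination (3 * hd ζ + 2) * (3 * (ω ^ 6 - ω ^ 5 + ω ^ 3 - ω ^ 2) + 1) * hw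
  · have := HN.gauss H.hζ j
    simp only [hR] at this ⊢
    rw [this]
    simp [Fin.sum_univ_six, hS]
    exact Or.inl (by ring)

theorem tr3 (t : Lab → ℂ) (h : ∀ j, ∑ k, t k * M.S k j = M.G (.inl 1) 3 j) : t (.inl 1) = 3 := by
  have hq := HN.dsq H.hζ
  have h1 : ∑ j, M.G (.inl 1) 3 j * hS ζ (.inl 1) j = t (.inl 1) * (117 * (3 * hd ζ + 1)) := by
    simp only [← h, Finset.sum_mul, H.S]
    rw [Finset.sum_comm]
    simp only [mul_assoc, ← Finset.mul_sum, HN.sq1 H.hζ, mul_ite, mul_zero, Finset.sum_ite_eq',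
      Finset.mem_univ, if_true]
  have h2 : ∀ l : Fin 6, M.G (.inl 1) 3 (.inr l) * hS ζ (.inl 1) (.inr l) =
      -(3 * hd ζ) * (9 * hd ζ + 6) * ζ ^ (216 * (l.val + 1) ^ 2) + 9 * hd ζ ^ 2 := fun l => by
    rw [H.Gall 3 _ H.p3]
    simp only [Sum.elim_inr, ← inv_pow, HN.zinv H.hζ, hS, Matrix.cons_val_one,
      Matrix.cons_val_zero]
    ring
  have h3 : ω⁻¹ ^ 3 = 1 := by rw [inv_pow, H.hω.pow_eq_one, inv_one]
  have h4 : (ω ^ 2)⁻¹ ^ 3 = 1 := by rw [← inv_pow, ← pow_mul, mul_comm, pow_mul, h3, one_pow]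
  rw [Fintype.sum_sum_type] at h1
  simp only [h2, Finset.sum_add_distrib, ← Finset.mul_sum, HN.q2 H.hζ 216 (by norm_num)] at h1
  simp only [H.Gall 3 _ H.p3, h3, h4, Fin.sum_univ_six] at h1
  simp [hS] at h1
  have h5 : (117 * (3 * hd ζ + 1) : ℂ) ≠ 0 := fun h => by
    have : hd ζ = -1 / 3 := by linear_combination h / 351
    rw [this] at hq; norm_num at hq
  refine mul_right_cancel₀ h5 ?_
  linear_combination -h1 + (27 * hd ζ + 279) * hq

theorem tr4 (t : Lab → ℂ) (h : ∀ j, ∑ k, t k * M.S k j = M.G (.inl 1) 4 j) : t (.inl 0) = 0 := by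
  have : t = fun k => if k = .inl 1 then 1 else 0 := by
    refine M.S_inj fun j => ?_
    rw [h, H.Gall 4 _ H.p4]
    simp only [ite_mul, one_mul, zero_mul, Finset.sum_ite_eq', Finset.mem_univ, if_true, H.S]
    rcases j with j | j
    · fin_cases j <;> simp [hS] <;> ring
    · simp [hS]
  rw [this]; simp

end Haag

end Pool.Agent.Lib.MP_edb142_al
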