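import Mathlib

open Module

namespace Pool.Agent.Lib.MP_edb142_al.LA

section General
variable {V : Type*} [AddCommGroup V] [Module ℂ V] [FiniteDimensional ℂ V]

theorem tr_idem (P : V →ₗ[ℂ] V) (h : ∀ x, P (P x) = P x) :
    LinearMap.trace ℂ V P = (finrank ℂ (LinearMap.range P) : ℂ) := by
  apply LinearMap.IsProj.trace
  exact ⟨fun x => ⟨x, rfl⟩, by rintro _ ⟨x, rfl⟩; exact h x⟩

theorem rank_fix2 (F : V →ₗ[ℂ] V) (h : ∀ x, F (F x) = x) (t : LinearMap.trace ℂ V F = 0) :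
    2 * finrank ℂ (LinearMap.ker (F - 1)) = finrank ℂ V := by
  have h1 := tr_idem ((1 / 2 : ℂ) • (1 + F)) (fun x => by
    simp only [LinearMap.smul_apply, LinearMap.add_apply, Module.End.one_apply, map_add, map_smul, h]
    module)
  have h2 : LinearMap.range ((1 / 2 : ℂ) • (1 + F)) = LinearMap.ker (F - 1) := by
    ext x
    simp only [LinearMap.mem_range, LinearMap.mem_ker, LinearMap.smul_apply, LinearMap.add_apply,
      Module.End.one_apply, LinearMap.sub_apply]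
    constructor
    · rintro ⟨y, rfl⟩
      simp only [map_add, map_smul, h]; module
    · intro hx
      refine ⟨x, ?_⟩
      rw [sub_eq_zero.1 hx]; module
  rw [h2, map_smul, map_add, t, LinearMap.trace_one] at h1
  have : ((2 * finrank ℂ (LinearMap.ker (F - 1)) : ℕ) : ℂ) = (finrank ℂ V : ℂ) := by
    push_cast; rw [← h1]; simp
  exact_mod_cast this

theorem tr_sq3 (D : V →ₗ[ℂ] V) (h : ∀ x, D (D (D x)) = x) (t : LinearMap.trace ℂ V D = 3) :
    LinearMap.trace ℂ V (D ∘ₗ D) = 3 := by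
  obtain ⟨ω, hω⟩ : ∃ ω : ℂ, ω ^ 2 + ω + 1 = 0 := by
    refine ⟨(-1 + Complex.I * (Real.sqrt 3 : ℝ)) / 2, ?_⟩
    have h3 : ((Real.sqrt 3 : ℝ) : ℂ) ^ 2 = 3 := by
      rw [← Complex.ofReal_pow, Real.sq_sqrt (by norm_num)]; simp
    have hI := Complex.I_sq
    linear_combination (Complex.I ^ 2 / 4) * h3 + (3 / 4) * hI
  have key : ∀ c : ℂ, c ^ 3 = 1 → ∃ n : ℕ,
      (finrank ℂ V : ℂ) + c ^ 2 * 3 + c * LinearMap.trace ℂ V (D ∘ₗ D) = 3 * n := by
    intro c hc
    have h1 := tr_idem ((1 / 3 : ℂ) • (1 + c ^ 2 • D + c • (D ∘ₗ D))) (fun x => by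
      simp only [LinearMap.smul_apply, LinearMap.add_apply, Module.End.one_apply, map_add, map_smul, h,
        LinearMap.comp_apply]
      match_scalars
      · linear_combination (2 / 9) * hc
      · linear_combination 0
      · linear_combination (c / 9) * hc)
    rw [map_smul, map_add, map_add, map_smul, map_smul, t, LinearMap.trace_one] at h1
    refine ⟨finrank ℂ (LinearMap.range ((1 / 3 : ℂ) • (1 + c ^ 2 • D + c • (D ∘ₗ D)))), ?_⟩
    rw [← h1]; simp only [smul_eq_mul]; ring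
  obtain ⟨n0, h0⟩ := key 1 (by norm_num)
  obtain ⟨n1, h1⟩ := key ω (by linear_combination (ω - 1) * hω)
  set T := LinearMap.trace ℂ V (D ∘ₗ D)
  by_contra hne
  have hT : T - 3 = ((3 * n0 - finrank ℂ V - 6 : ℝ) : ℂ) := by push_cast; linear_combination h0
  have hw : ω * (T - 3) = ((3 * n1 - finrank ℂ V + 3 : ℝ) : ℂ) := by
    push_cast; linear_combination h1 - 3 * hω
  have hne' : T - 3 ≠ 0 := sub_ne_zero.2 hne
  obtain ⟨r, hr⟩ : ∃ r : ℝ, ω = r := by
    refine ⟨(3 * n1 - finrank ℂ V + 3) / (3 * n0 - finrank ℂ V - 6), ?_⟩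
    rw [Complex.ofReal_div, ← hT, ← hw]; field_simp
  rw [hr] at hω
  have : r ^ 2 + r + 1 = 0 := by exact_mod_cast hω
  nlinarith [sq_nonneg (2 * r + 1)]

theorem rank_fix3 (C : V →ₗ[ℂ] V) (h : ∀ x, C (C (C x)) = x) (t : LinearMap.trace ℂ V C = 3)
    (t' : LinearMap.trace ℂ V (C ∘ₗ C) = 3) :
    3 * finrank ℂ (LinearMap.ker (C - 1)) = finrank ℂ V + 6 := by
  have h1 := tr_idem ((1 / 3 : ℂ) • (1 + C + C ∘ₗ C)) (fun x => by
    simp only [LinearMap.smul_apply, LinearMap.add_apply, Module.End.one_apply, map_add, map_smul, h,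
      LinearMap.comp_apply]
    module)
  have h2 : LinearMap.range ((1 / 3 : ℂ) • (1 + C + C ∘ₗ C)) = LinearMap.ker (C - 1) := by
    ext x
    simp only [LinearMap.mem_range, LinearMap.mem_ker, LinearMap.smul_apply, LinearMap.add_apply,
      Module.End.one_apply, LinearMap.sub_apply, LinearMap.comp_apply]
    constructor
    · rintro ⟨y, rfl⟩
      simp only [map_add, map_smul, h]; module
    · intro hx
      refine ⟨x, ?_⟩
      rw [sub_eq_zero.1 hx, sub_eq_zero.1 hx]; module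
  rw [h2, map_smul, map_add, map_add, t, t', LinearMap.trace_one] at h1
  have : ((3 * finrank ℂ (LinearMap.ker (C - 1)) : ℕ) : ℂ) = ((finrank ℂ V + 6 : ℕ) : ℂ) := by
    push_cast; rw [← h1]; simp only [smul_eq_mul]; ring
  exact_mod_cast this

/-- Scott's inequality for a self-adjoint pair. -/
theorem scott (B : LinearMap.BilinForm ℂ V) (hB : B.Nondegenerate) (hs : B.IsSymm)
    (F σ : V →ₗ[ℂ] V) (hF : ∀ x y, B (F x) y = B x (F y)) (hσ : ∀ x y, B (σ x) y = B x (σ y)) :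
    finrank ℂ (LinearMap.ker (σ - 1)) + finrank ℂ V ≤
      2 * finrank ℂ ↥(LinearMap.ker (F - 1) ⊓ LinearMap.ker (σ - 1)) +
        finrank ℂ (LinearMap.ker (F - 1)) + finrank ℂ (LinearMap.ker (F ∘ₗ σ - 1)) +
        (finrank ℂ V - finrank ℂ (LinearMap.ker (F - 1)) - finrank ℂ (LinearMap.ker (F - 1))) +
        (finrank ℂ V - finrank ℂ (LinearMap.ker (F ∘ₗ σ - 1)) -
          finrank ℂ (LinearMap.ker (F ∘ₗ σ - 1))) := by
  set Th := LinearMap.ker (σ - 1)
  set Ep := LinearMap.ker (F - 1)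
  set K := LinearMap.ker (F ∘ₗ σ - 1)
  set A := LinearMap.range (F - 1)
  set A' := LinearMap.range (F ∘ₗ σ - 1)
  have e1 : finrank ℂ A + finrank ℂ Ep = finrank ℂ V := LinearMap.finrank_range_add_finrank_ker _
  have e2 : finrank ℂ A' + finrank ℂ K = finrank ℂ V := LinearMap.finrank_range_add_finrank_ker _
  have e3 := Submodule.finrank_sup_add_finrank_inf_eq A A'
  have e4 : finrank ℂ ↥(A ⊔ A') + finrank ℂ (B.orthogonal (A ⊔ A')) = finrank ℂ V := by
    have := LinearMap.BilinForm.finrank_orthogonal hB (A ⊔ A')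
    have h2 := Submodule.finrank_le (A ⊔ A')
    omega
  have e5 : B.orthogonal (A ⊔ A') ≤ Ep ⊓ Th := by
    intro x hx
    have h1 : F x = x := by
      rw [← sub_eq_zero]
      apply hB.1
      intro y
      have := hx ((F - 1) y) (Submodule.mem_sup_left ⟨y, rfl⟩)
      simp only [LinearMap.sub_apply, Module.End.one_apply, map_sub] at this ⊢
      rw [hF] at this
      rw [hs.eq (F x) y, hs.eq x y]; simpa using this
    have h2 : σ x = x := by
      rw [← sub_eq_zero]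
      apply hB.1
      intro y
      have := hx ((F ∘ₗ σ - 1) y) (Submodule.mem_sup_right ⟨y, rfl⟩)
      simp only [LinearMap.sub_apply, Module.End.one_apply, map_sub,
        LinearMap.comp_apply] at this ⊢
      rw [hF, h1, hσ] at this
      rw [hs.eq (σ x) y, hs.eq x y]; simpa using this
    exact ⟨by simp [Ep, h1], by simp [Th, h2]⟩
  have e6 := Submodule.finrank_mono e5
  have e7 : Th.map (F - 1) ≤ A ⊓ A' := by
    rintro _ ⟨x, hx, rfl⟩
    refine ⟨⟨x, rfl⟩, ⟨x, ?_⟩⟩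
    have : σ x = x := by simpa [Th, sub_eq_zero] using hx
    simp [this]
  have e8 := Submodule.finrank_mono e7
  have e9 : finrank ℂ (Th.map (F - 1)) + finrank ℂ ↥(Ep ⊓ Th) = finrank ℂ Th := by
    have := LinearMap.finrank_range_add_finrank_ker ((F - 1).domRestrict Th)
    rw [LinearMap.range_domRestrict, LinearMap.ker_domRestrict] at this
    rw [← this, inf_comm, ← Submodule.map_comap_subtype, Submodule.finrank_map_subtype_eq]
  omega

/-- more vectors than the codimension of the kernel are dependent modulo the kernel -/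
theorem dep_mod {U : Type*} [AddCommGroup U] [Module ℂ U] (E : Submodule ℂ V) (ρ : V →ₗ[ℂ] U)
    {n : ℕ} (h : finrank ℂ E < n + finrank ℂ ↥(E ⊓ LinearMap.ker ρ)) (x : Fin n → V)
    (hx : ∀ i, x i ∈ E) : ∃ c : Fin n → ℂ, ∑ i, c i • ρ (x i) = 0 ∧ ∃ i, c i ≠ 0 := by
  have e9 : finrank ℂ (E.map ρ) + finrank ℂ ↥(E ⊓ LinearMap.ker ρ) = finrank ℂ E := by
    have := LinearMap.finrank_range_add_finrank_ker (ρ.domRestrict E)
    rw [LinearMap.range_domRestrict, LinearMap.ker_domRestrict] at this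
    rw [← this, ← Submodule.map_comap_subtype, Submodule.finrank_map_subtype_eq]
  have hli : ¬LinearIndependent ℂ (fun i => (⟨ρ (x i), x i, hx i, rfl⟩ : E.map ρ)) := by
    intro hl
    have := hl.fintype_card_le_finrank
    rw [Fintype.card_fin] at this
    omega
  obtain ⟨c, h1, h2⟩ := Fintype.not_linearIndependent_iff.1 hli
  refine ⟨c, ?_, h2⟩
  simpa using congrArg Subtype.val h1

end General

section Four
variable {s v : Fin 4 → ℂ}

theorem P4 (hs : Function.Injective s) {a0 a1 a2 a3 : ℂ}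
    (h : ∀ p, a0 + a1 * s p + a2 * s p ^ 2 + a3 * s p ^ 3 = 0) :
    a0 = 0 ∧ a1 = 0 ∧ a2 = 0 ∧ a3 = 0 := by
  have := Matrix.eq_zero_of_forall_index_sum_mul_pow_eq_zero (v := ![a0, a1, a2, a3]) hs (fun j => by
    simpa [Fin.sum_univ_four] using h j)
  exact ⟨congrFun this 0, congrFun this 1, congrFun this 2, congrFun this 3⟩

theorem D4 (hs : Function.Injective s) {u : Fin 4 → ℂ} (h0 : ∑ p, u p = 0) (h1 : ∑ p, u p * s p = 0)
    (h2 : ∑ p, u p * s p ^ 2 = 0) (h3 : ∑ p, u p * s p ^ 3 = 0) (p : Fin 4) : u p = 0 := by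
  have := Matrix.eq_zero_of_forall_pow_sum_mul_pow_eq_zero (v := u) hs (fun i => by
    fin_cases i <;> simpa)
  exact congrFun this p

theorem interp (hs : Function.Injective s) (f : Fin 4 → ℂ) :
    ∃ a0 a1 a2 a3 : ℂ, ∀ p, f p = a0 + a1 * s p + a2 * s p ^ 2 + a3 * s p ^ 3 := by
  have hd : IsUnit (Matrix.vandermonde s).det :=
    isUnit_iff_ne_zero.2 (Matrix.det_vandermonde_ne_zero_iff.2 hs)
  set a := (Matrix.vandermonde s)⁻¹.mulVec f
  have : (Matrix.vandermonde s).mulVec a = f := by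
    simp only [a, Matrix.mulVec_mulVec, Matrix.mul_nonsing_inv _ hd, Matrix.one_mulVec]
  refine ⟨a 0, a 1, a 2, a 3, fun p => ?_⟩
  rw [← congrFun this p]
  simp [Matrix.mulVec, dotProduct, Fin.sum_univ_four, Matrix.vandermonde]
  ring

/-- `v` is the dual vector of the four points `s`. -/
structure Dual (s v : Fin 4 → ℂ) : Prop where
  inj : Function.Injective s
  ne : ∀ p, v p ≠ 0
  h0 : ∑ p, v p = 0
  h1 : ∑ p, v p * s p = 0
  h2 : ∑ p, v p * s p ^ 2 = 0
  h3 : ∑ p, v p * s p ^ 3 = 1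

theorem Dual.sum (h : Dual s v) (a0 a1 a2 a3 : ℂ) :
    ∑ p, v p * (a0 + a1 * s p + a2 * s p ^ 2 + a3 * s p ^ 3) = a3 := by
  have h0 := h.h0; have h1 := h.h1; have h2 := h.h2; have h3 := h.h3
  simp only [Fin.sum_univ_four] at *
  linear_combination a0 * h0 + a1 * h1 + a2 * h2 + a3 * h3

theorem Dual.quad (h : Dual s v) {u : Fin 4 → ℂ} (h0 : ∑ p, u p = 0) :
    ∃ a0 a1 a2 : ℂ, ∀ p, u p = v p * (a0 + a1 * s p + a2 * s p ^ 2) := by
  obtain ⟨a0, a1, a2, a3, ha⟩ := interp h.inj fun p => u p / v p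
  have hu : ∀ p, u p = v p * (a0 + a1 * s p + a2 * s p ^ 2 + a3 * s p ^ 3) := fun p => by
    rw [← ha p]; field_simp [h.ne p]
  have : a3 = 0 := by rw [← h.sum a0 a1 a2 a3, ← h0]; exact Finset.sum_congr rfl fun p _ => (hu p).symm
  exact ⟨a0, a1, a2, fun p => by rw [hu p, this]; ring⟩

theorem Dual.lin (h : Dual s v) {u : Fin 4 → ℂ} (h0 : ∑ p, u p = 0) (h1 : ∑ p, u p * s p = 0) :
    ∃ a0 a1 : ℂ, ∀ p, u p = v p * (a0 + a1 * s p) := by
  obtain ⟨a0, a1, a2, ha⟩ := h.quad h0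
  have : a2 = 0 := by
    rw [← h.sum 0 a0 a1 a2]
    exact Eq.trans (Finset.sum_congr rfl fun p _ => by rw [ha p]; ring) h1
  exact ⟨a0, a1, fun p => by rw [ha p, this]; ring⟩

theorem Dual.pole (h : Dual s v) {t : ℂ} (ht : ∀ p, s p - t ≠ 0) : ∑ p, v p / (s p - t) ≠ 0 := by
  intro h0
  have hi : Function.Injective fun p => s p - t := fun a b hab => h.inj (by simpa using hab)
  have := D4 hi (u := fun p => v p / (s p - t)) h0
    (by rw [← h.h0]; exact Finset.sum_congr rfl fun p _ => by field_simp [ht p])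
    (by rw [← h.sum (-t) 1 0 0]; exact Finset.sum_congr rfl fun p _ => by field_simp [ht p]; ring)
    (by rw [← h.sum (t ^ 2) (-2 * t) 1 0]; exact Finset.sum_congr rfl fun p _ => by field_simp [ht p]; ring) 0
  exact h.ne 0 (by simpa [ht 0] using this)

/-- the numerical conditions on the points `s`, the weights `w` and the dual vector `v` -/
structure Num (s w v : Fin 4 → ℂ) : Prop where
  dual : Dual s v
  w_ne : ∀ p, w p ≠ 0
  s_ne : ∀ p, s p - 2 ≠ 0
  s_ne' : ∀ p, s p + 2 ≠ 0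
  n1 : ∑ p, w p * (2 - s p) ≠ 0
  n2 : ∀ t : ℂ, ∑ p, (s p - t) ^ 3 * (v p ^ 3 / (w p ^ 2 * (s p ^ 2 - 4))) = 0 →
    ∑ p, (s p - t) ^ 2 * (v p ^ 3 / (w p ^ 2 * (s p ^ 2 - 4))) ≠ 0 ∧ ∀ p, s p - t ≠ 0
  n3 : ∀ q : Fin 4 → ℂ, ((∀ p, q p = 1) ∨ ∃ p0, ∀ p, q p = s p - s p0) →
    ∀ N0 N1 nu : ℂ, N0 = ∑ p, (q p * v p) ^ 2 / w p → N1 = ∑ p, (q p * v p) ^ 2 / w p * s p →
      nu = ∑ p, (q p * v p) ^ 2 / w p * ((s p + 2) / (s p - 2)) →
      N0 ≠ 0 ∧ N1 + 2 * N0 ≠ 0 ∧ N0 - N1 ≠ 0 ∧ (N0 - N1) * nu + N0 * (N1 + 2 * N0) ≠ 0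

end Four

end Pool.Agent.Lib.MP_edb142_al.LA
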