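import Pool.Agent.Lib.MP_edb142_al.H.Dat0
import Pool.Agent.Lib.MP_edb142_al.H.LA1

/-!
The numerical conditions `LA.Num` for the points and weights of the Haagerup data.
-/

namespace Pool.Agent.Lib.MP_edb142_al

namespace D2

theorem all4 {P : Fin 4 → Prop} (h0 : P 0) (h1 : P 1) (h2 : P 2) (h3 : P 3) (p : Fin 4) :
    P p := by
  fin_cases p <;> assumption

/-- the four nonvanishing conditions -/
def Fo (N0 N1 nu : ℂ) : Prop :=
  N0 ≠ 0 ∧ N1 + 2 * N0 ≠ 0 ∧ N0 - N1 ≠ 0 ∧ (N0 - N1) * nu + N0 * (N1 + 2 * N0) ≠ 0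

theorem num_of {s w v u r g : Fin 4 → ℂ} (dual : LA.Dual s v) (w_ne : ∀ p, w p ≠ 0)
    (s_ne : ∀ p, s p - 2 ≠ 0) (s_ne' : ∀ p, s p + 2 ≠ 0) (n1 : ∑ p, w p * (2 - s p) ≠ 0)
    (hu : ∀ p, u p * w p = v p ^ 2) (hr : ∀ p, r p * (w p ^ 2 * (s p ^ 2 - 4)) = v p ^ 3)
    (hg : ∀ p, g p * (s p - 2) = s p + 2) {L1 L2 L3 M0 M1 M2 M3 G0 G1 G2 : ℂ}
    (hL0 : ∑ p, r p = 0) (hL1 : ∑ p, r p * s p = L1) (hL2 : ∑ p, r p * s p ^ 2 = L2)
    (hL3 : ∑ p, r p * s p ^ 3 = L3)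
    (hM0 : ∑ p, u p = M0) (hM1 : ∑ p, u p * s p = M1) (hM2 : ∑ p, u p * s p ^ 2 = M2)
    (hM3 : ∑ p, u p * s p ^ 3 = M3)
    (hG0 : ∑ p, u p * g p = G0) (hG1 : ∑ p, u p * g p * s p = G1)
    (hG2 : ∑ p, u p * g p * s p ^ 2 = G2)
    (hd : 4 * L1 * L3 - 3 * L2 ^ 2 ≠ 0) (hK : ∀ p, L3 - 3 * s p * L2 + 3 * s p ^ 2 * L1 ≠ 0)
    (h1 : Fo M0 M1 G0)
    (hq : ∀ p, Fo (M2 - 2 * s p * M1 + s p ^ 2 * M0) (M3 - 2 * s p * M2 + s p ^ 2 * M1)
      (G2 - 2 * s p * G1 + s p ^ 2 * G0)) : LA.Num s w v := by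
  have er : ∀ p, v p ^ 3 / (w p ^ 2 * (s p ^ 2 - 4)) = r p := fun p => by
    have h4 : s p ^ 2 - 4 ≠ 0 := by
      have := mul_ne_zero (s_ne p) (s_ne' p)
      intro h; apply this; linear_combination h
    rw [div_eq_iff (mul_ne_zero (pow_ne_zero 2 (w_ne p)) h4), hr]
  have eu : ∀ p x, (x * v p) ^ 2 / w p = x ^ 2 * u p := fun p x => by
    rw [div_eq_iff (w_ne p), mul_pow, ← hu]; ring
  have eg : ∀ p, (s p + 2) / (s p - 2) = g p := fun p => by rw [div_eq_iff (s_ne p), hg]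
  refine ⟨dual, w_ne, s_ne, s_ne', n1, fun t ht => ?_, fun q hq' N0 N1 nu e0 e1 e2 => ?_⟩
  · simp only [er] at ht ⊢
    simp only [Fin.sum_univ_four] at ht hL0 hL1 hL2 hL3 ⊢
    have hk : L3 - 3 * t * L2 + 3 * t ^ 2 * L1 = 0 := by
      linear_combination ht - hL3 + 3 * t * hL2 - 3 * t ^ 2 * hL1 + t ^ 3 * hL0
    refine ⟨fun h => hd ?_, fun p h => hK p ?_⟩
    · have h2 : L2 - 2 * t * L1 = 0 := by
        linear_combination h - hL2 + 2 * t * hL1 - t ^ 2 * hL0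
      linear_combination 4 * L1 * hk - (3 * L2 - 6 * t * L1) * h2
    · rw [sub_eq_zero.1 h]; exact hk
  · simp only [eu, eg] at e0 e1 e2
    simp only [Fin.sum_univ_four] at e0 e1 e2 hM0 hM1 hM2 hM3 hG0 hG1 hG2
    rcases hq' with h | ⟨p0, h⟩
    · simp only [h] at e0 e1 e2
      have a0 : N0 = M0 := by linear_combination e0 + hM0
      have a1 : N1 = M1 := by linear_combination e1 + hM1
      have a2 : nu = G0 := by linear_combination e2 + hG0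
      rw [a0, a1, a2]; exact h1
    · simp only [h] at e0 e1 e2
      have a0 : N0 = M2 - 2 * s p0 * M1 + s p0 ^ 2 * M0 := by
        linear_combination e0 + hM2 - 2 * s p0 * hM1 + s p0 ^ 2 * hM0
      have a1 : N1 = M3 - 2 * s p0 * M2 + s p0 ^ 2 * M1 := by
        linear_combination e1 + hM3 - 2 * s p0 * hM2 + s p0 ^ 2 * hM1
      have a2 : nu = G2 - 2 * s p0 * G1 + s p0 ^ 2 * G0 := by
        linear_combination e2 + hG2 - 2 * s p0 * hG1 + s p0 ^ 2 * hG0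
      rw [a0, a1, a2]; exact hq p0

/-- dual vector at a root of the cubic -/
noncomputable def V (d t : ℂ) : ℂ :=
  1 / 13 * t ^ 2 * d + 5 / 13 * t ^ 2 + 3 / 13 * t * d + 2 / 13 * t + 2 / 13 * d - 16 / 13

/-- the value of `v ^ 2 / w` at a root of the cubic -/
noncomputable def U (d t : ℂ) : ℂ :=
  -(2 / 39 * t ^ 2) - 4 / 39 * t * d + 11 / 39 * t + 2 / 13 * d - 17 / 39

/-- the value of `v ^ 3 / (w ^ 2 * (s ^ 2 - 4))` at a root of the cubic -/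
noncomputable def R (d t : ℂ) : ℂ :=
  17 / 1521 * t ^ 2 * d - 58 / 1521 * t ^ 2 + 14 / 507 * t * d - 47 / 507 * t - 38 / 507 * d + 379 / 1521

/-- the quotient of `s + 2` by `s - 2` at a root of the cubic -/
noncomputable def G (d t : ℂ) : ℂ :=
  12 * t ^ 2 * d - 40 * t ^ 2 - 4 * t * d + 12 * t - 20 * d + 65

/-- the value of `v ^ 2 / w` at the point `-1` -/
noncomputable def u0 (d : ℂ) : ℂ :=
  -(3 / 13 * d) + 11 / 13

/-- the value of `v ^ 3 / (w ^ 2 * (s ^ 2 - 4))` at the point `-1` -/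
noncomputable def r0 (d : ℂ) : ℂ :=
  1 / 13 * d - 10 / 39

/-- moment 1 of `r` -/
noncomputable def L1 (d : ℂ) : ℂ :=
  7 / 117 * d - 23 / 117

/-- moment 2 of `r` -/
noncomputable def L2 (d : ℂ) : ℂ :=
  1 / 39 * d - 10 / 117

/-- moment 3 of `r` -/
noncomputable def L3 (d : ℂ) : ℂ :=
  23 / 117 * d - 76 / 117

/-- moment 0 of `u` -/
noncomputable def M0 (d : ℂ) : ℂ :=
  4 / 39 * d - 2 / 13

/-- moment 1 of `u` -/
noncomputable def M1 (d : ℂ) : ℂ :=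
  1 / 39 * d - 8 / 39

/-- moment 2 of `u` -/
noncomputable def M2 (d : ℂ) : ℂ :=
  10 / 39 * d - 28 / 39

/-- moment 3 of `u` -/
noncomputable def M3 (d : ℂ) : ℂ :=
  4 / 39 * d - 19 / 39

/-- moment 0 of `u * g` -/
noncomputable def G0 (d : ℂ) : ℂ :=
  -(20 / 13 * d) + 194 / 39

/-- moment 1 of `u * g` -/
noncomputable def G1 (d : ℂ) : ℂ :=
  -(37 / 13 * d) + 368 / 39

/-- moment 2 of `u * g` -/
noncomputable def G2 (d : ℂ) : ℂ :=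
  -(70 / 13 * d) + 692 / 39

section Root
variable {d t : ℂ} (hd : d ^ 2 = 3 * d + 1) (h : t ^ 3 + (d - 2) * t ^ 2 - t + 3 - d = 0)
include hd h

theorem rV : V d t * ((t + 1) * (3 * t ^ 2 + 2 * (d - 2) * t - 1)) = 1 := by
  unfold V
  linear_combination (3 / 13 * t ^ 2 * d + 15 / 13 * t ^ 2 + 6 / 13 * t * d + 30 / 13 * t + 3 /
    13 * d + 2 / 13) * h + (-(1 / 13 * t ^ 4) + 2 / 13 * t ^ 3 + 10 / 13 * t ^ 2 + 10 / 13 * t
    + 3 / 13) * hd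

theorem rU : U d t * (3 * d) = V d t ^ 2 := by
  unfold U V
  linear_combination (-(1 / 13 * t * d) - 2 / 13 * t - 1 / 13 * d - 5 / 13) * h + (-(1 / 169 *
    t ^ 4) + 7 / 169 * t ^ 3 - 77 / 169 * t + 61 / 169) * hd

theorem rR : R d t * ((3 * d) ^ 2 * (t ^ 2 - 4)) = V d t ^ 3 := by
  unfold R V
  linear_combination (-(10 / 169 * t ^ 3 * d) - 11 / 169 * t ^ 3 - 30 / 169 * t ^ 2 * d - 33 /
    169 * t ^ 2 - 8 / 169 * t * d + 12 / 169 * t + 24 / 169 * d + 68 / 169) * h + (-(1 / 2197 *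
    t ^ 6 * d) - 18 / 2197 * t ^ 6 - 9 / 2197 * t ^ 5 * d + 7 / 2197 * t ^ 5 + 188 / 2197 * t ^
    4 * d + 17 / 2197 * t ^ 4 + 483 / 2197 * t ^ 3 * d - 380 / 2197 * t ^ 3 - 2432 / 2197 * t ^
    2 * d + 437 / 2197 * t ^ 2 - 2220 / 2197 * t * d + 1120 / 2197 * t + 5920 / 2197 * d - 1444
    / 2197) * hd

theorem rG : G d t * (t - 2) = t + 2 := by
  unfold G
  linear_combination (12 * d - 40) * h + (-(12 * t ^ 2) + 12) * hd

theorem r2 : t - 2 ≠ 0 := by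
  refine left_ne_zero_of_mul_eq_one (b := 3 * t ^ 2 * d - 10 * t ^ 2 - t * d + 3 * t - 5 * d +
    16) ?_
  linear_combination (3 * d - 10) * h + (-(3 * t ^ 2) + 3) * hd

theorem r2' : t + 2 ≠ 0 := by
  refine left_ne_zero_of_mul_eq_one (b := 3 / 13 * t ^ 2 * d + 2 / 13 * t ^ 2 - 1 / 13 * t * d
    - 5 / 13 * t - 1 / 13 * d + 8 / 13) ?_
  linear_combination (3 / 13 * d + 2 / 13) * h + (-(3 / 13 * t ^ 2) + 3 / 13) * hd

theorem rK : L3 d - 3 * t * L2 d + 3 * t ^ 2 * L1 d ≠ 0 := by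
  refine left_ne_zero_of_mul_eq_one (b := 2705547 / 8243 * t ^ 2 * d + 820365 / 8243 * t ^ 2 +
    3011424 / 8243 * t * d + 911235 / 8243 * t - 2705976 / 8243 * d - 825903 / 8243) ?_
  unfold L1 L2 L3
  linear_combination (8499 / 8243 * t * d + 1806 / 8243 * t + 5086 / 8243 * d + 461 / 8243) * h
    + (485611 / 8243 * t ^ 4 + 323894 / 8243 * t ^ 3 - 571687 / 24729 * t ^ 2 + 2425921 / 24729
    * t - 526858 / 8243) * hd

theorem rF : Fo (M2 d - 2 * t * M1 d + t ^ 2 * M0 d) (M3 d - 2 * t * M2 d + t ^ 2 * M1 d)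
    (G2 d - 2 * t * G1 d + t ^ 2 * G0 d) := by
  unfold Fo M0 M1 M2 M3 G0 G1 G2
  refine ⟨?_, ?_, ?_, ?_⟩
  · refine left_ne_zero_of_mul_eq_one (b := -(489 / 262 * t ^ 2 * d) - 33 / 131 * t ^ 2 - 243 /
      131 * t * d - 285 / 262 * t + 456 / 131 * d - 159 / 262) ?_
    linear_combination (-(41 / 131 * t * d) - 20 / 131 * t - 52 / 131 * d - 3 / 131) * h +
      (-(326 / 1703 * t ^ 4) + 372 / 1703 * t ^ 3 + 631 / 1703 * t ^ 2 - 1647 / 1703 * t + 844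
      / 1703) * hd
  · refine left_ne_zero_of_mul_eq_one (b := -(22830 / 12973 * t ^ 2 * d) - 31353 / 12973 * t ^
      2 - 39027 / 12973 * t * d + 18273 / 12973 * t + 28200 / 12973 * d + 71970 / 12973) ?_
    linear_combination (-(11333 / 12973 * t * d) + 10810 / 12973 * t + 7663 / 12973 * d - 42120
      / 12973) * h + (-(68490 / 168649 * t ^ 4) + 16376 / 12973 * t ^ 3 + 114557 / 168649 * t ^
      2 - 685145 / 168649 * t + 325219 / 168649) * hd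
  · refine left_ne_zero_of_mul_eq_one (b := -(320406 / 399281 * t ^ 2 * d) + 2703 / 399281 * t
      ^ 2 - 310557 / 399281 * t * d - 347451 / 399281 * t + 571764 / 399281 * d + 125232 /
      399281) ?_
    linear_combination (-(90163 / 399281 * t * d) - 24508 / 399281 * t - 113419 / 399281 * d -
      151212 / 399281) * h + (-(320406 / 5190653 * t ^ 4) - 1060874 / 5190653 * t ^ 3 - 457943
      / 5190653 * t ^ 2 + 1637351 / 5190653 * t - 330919 / 5190653) * hd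
  · refine left_ne_zero_of_mul_eq_one (b := -(837486 / 2393 * t ^ 2 * d) - 1212003 / 9572 * t ^
      2 - 907101 / 2393 * t * d - 257400 / 2393 * t + 4244643 / 9572 * d + 1618929 / 9572) ?_
    linear_combination (-(7914 / 2393 * t ^ 3 * d) - 15249 / 2393 * t ^ 3 - 117131 / 2393 * t ^
      2 * d + 315892 / 2393 * t ^ 2 + 131880 / 2393 * t * d - 505725 / 2393 * t + 18089 / 2393
      * d - 88599 / 2393) * h + (1030752 / 31109 * t ^ 6 * d + 1117356 / 31109 * t ^ 6 +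
      4895856 / 31109 * t ^ 5 * d - 20484010 / 31109 * t ^ 5 - 20404380 / 31109 * t ^ 4 * d +
      43044087 / 31109 * t ^ 4 - 10324260 / 31109 * t ^ 3 * d + 47437576 / 31109 * t ^ 3 +
      57899358 / 31109 * t ^ 2 * d - 152829239 / 31109 * t ^ 2 - 16906776 / 31109 * t * d +
      57859572 / 31109 * t - 9251145 / 31109 * d + 10855532 / 31109) * hd

end Root

section Zero
variable {d : ℂ} (hd : d ^ 2 = 3 * d + 1)
include hd

theorem zw : 3 * d ≠ 0 := by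
  refine left_ne_zero_of_mul_eq_one (b := 1 / 3 * d - 1) ?_
  linear_combination (1) * hd

theorem zw0 : 3 * d + 2 ≠ 0 := by
  refine left_ne_zero_of_mul_eq_one (b := -(3 / 13 * d) + 11 / 13) ?_
  linear_combination (-(9 / 13)) * hd

theorem zU : u0 d * (3 * d + 2) = 1 ^ 2 := by
  unfold u0
  linear_combination (-(9 / 13)) * hd

theorem zR : r0 d * ((3 * d + 2) ^ 2 * ((-1) ^ 2 - 4)) = 1 ^ 3 := by
  unfold r0
  linear_combination (-(27 / 13 * d) - 27 / 13) * hd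

theorem zK : L3 d - 3 * (-1) * L2 d + 3 * (-1) ^ 2 * L1 d ≠ 0 := by
  refine left_ne_zero_of_mul_eq_one (b := 689 * d + 208) ?_
  unfold L1 L2 L3
  linear_combination (2809 / 9) * hd

theorem zD : 4 * L1 d * L3 d - 3 * L2 d ^ 2 ≠ 0 := by
  refine left_ne_zero_of_mul_eq_one (b := -(10097919 / 113 * d) - 3057210 / 113) ?_
  unfold L1 L2 L3
  linear_combination (-(1365421 / 339 * d) + 4483979 / 339) * hd

theorem zF : Fo (M2 d - 2 * (-1) * M1 d + (-1) ^ 2 * M0 d) (M3 d - 2 * (-1) * M2 d + (-1) ^ 2 * M1 d)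
    (G2 d - 2 * (-1) * G1 d + (-1) ^ 2 * G0 d) := by
  unfold Fo M0 M1 M2 M3 G0 G1 G2
  refine ⟨?_, ?_, ?_, ?_⟩
  · refine left_ne_zero_of_mul_eq_one (b := 4 * d + 1 / 2) ?_
    linear_combination (64 / 39) * hd
  · refine left_ne_zero_of_mul_eq_one (b := 19 / 9 * d + 4 / 9) ?_
    linear_combination (361 / 117) * hd
  · refine left_ne_zero_of_mul_eq_one (b := 3 * d + 2) ?_
    linear_combination (-(9 / 13)) * hd
  · refine left_ne_zero_of_mul_eq_one (b := 1287 / 16 * d + 195 / 8) ?_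
    linear_combination (14685 / 52 * d - 26089 / 26) * hd

theorem zF1 : Fo (M0 d) (M1 d) (G0 d) := by
  unfold Fo M0 M1 G0
  refine ⟨?_, ?_, ?_, ?_⟩
  · refine left_ne_zero_of_mul_eq_one (b := 3 * d - 9 / 2) ?_
    linear_combination (4 / 13) * hd
  · refine left_ne_zero_of_mul_eq_one (b := 27 / 17 * d - 21 / 17) ?_
    linear_combination (81 / 221) * hd
  · refine left_ne_zero_of_mul_eq_one (b := -(9 * d) + 33) ?_
    linear_combination (-(9 / 13)) * hd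
  · refine left_ne_zero_of_mul_eq_one (b := 39 / 2 * d + 39 / 4) ?_
    linear_combination (-(24 / 13 * d) - 88 / 39) * hd

theorem zN : (3 * d + 2) * 3 + 3 * d * (4 + d) ≠ 0 := by
  refine left_ne_zero_of_mul_eq_one (b := 10 / 3 * d - 11) ?_
  linear_combination (10 * d + 67) * hd

end Zero

section Sums
variable {d a b c : ℂ} (hd : d ^ 2 = 3 * d + 1) (ha : a ^ 3 + (d - 2) * a ^ 2 - a + 3 - d = 0)
  (hb : b ^ 3 + (d - 2) * b ^ 2 - b + 3 - d = 0) (hc : c ^ 3 + (d - 2) * c ^ 2 - c + 3 - d = 0)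
  (P1 : a + b + c = 2 - d) (P2 : a ^ 2 + b ^ 2 + c ^ 2 = (2 - d) ^ 2 + 2)
include hd ha hb hc P1 P2

theorem sV0 : 1 + V d a + V d b + V d c = 0 := by
  unfold V
  linear_combination (3 / 13 * d + 2 / 13) * P1 + (1 / 13 * d + 5 / 13) * P2 + (1 / 13 * d + 1
    / 13) * hd

theorem sV1 : 1 * (-1) + V d a * a + V d b * b + V d c * c = 0 := by
  unfold V
  linear_combination (1 / 13 * d + 5 / 13) * ha + (1 / 13 * d + 5 / 13) * hb + (1 / 13 * d + 5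
    / 13) * hc + (3 / 13 * d - 11 / 13) * P1 + (-(1 / 13 * d ^ 2) + 12 / 13) * P2 + (-(1 / 13 *
    d ^ 2) + 1 / 13 * d + 8 / 13) * hd

theorem sV2 : 1 * (-1) ^ 2 + V d a * a ^ 2 + V d b * b ^ 2 + V d c * c ^ 2 = 0 := by
  unfold V
  linear_combination (1 / 13 * a * d + 5 / 13 * a - 1 / 13 * d ^ 2 + 12 / 13) * ha + (1 / 13 *
    b * d + 5 / 13 * b - 1 / 13 * d ^ 2 + 12 / 13) * hb + (1 / 13 * c * d + 5 / 13 * c - 1 / 13
    * d ^ 2 + 12 / 13) * hc + (2 / 13 * d - 3 / 13) * P1 + (1 / 13 * d ^ 3 - 2 / 13 * d ^ 2 - 9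
    / 13 * d + 1) * P2 + (1 / 13 * d ^ 3 - 3 / 13 * d ^ 2 - 6 / 13 * d + 23 / 13) * hd

theorem sV3 : 1 * (-1) ^ 3 + V d a * a ^ 3 + V d b * b ^ 3 + V d c * c ^ 3 = 1 := by
  unfold V
  linear_combination (1 / 13 * a ^ 2 * d + 5 / 13 * a ^ 2 - 1 / 13 * a * d ^ 2 + 12 / 13 * a +
    1 / 13 * d ^ 3 - 2 / 13 * d ^ 2 - 9 / 13 * d + 1) * ha + (1 / 13 * b ^ 2 * d + 5 / 13 * b ^
    2 - 1 / 13 * b * d ^ 2 + 12 / 13 * b + 1 / 13 * d ^ 3 - 2 / 13 * d ^ 2 - 9 / 13 * d + 1) *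
    hb + (1 / 13 * c ^ 2 * d + 5 / 13 * c ^ 2 - 1 / 13 * c * d ^ 2 + 12 / 13 * c + 1 / 13 * d ^
    3 - 2 / 13 * d ^ 2 - 9 / 13 * d + 1) * hc + (1 / 13 * d ^ 2 + 3 / 13 * d - 23 / 13) * P1 +
    (-(1 / 13 * d ^ 4) + 4 / 13 * d ^ 3 + 5 / 13 * d ^ 2 - 29 / 13 * d + 23 / 13) * P2 + (-(1 /
    13 * d ^ 4) + 5 / 13 * d ^ 3 - 36 / 13 * d + 51 / 13) * hd

theorem sR0 : r0 d + R d a + R d b + R d c = 0 := by
  unfold R r0
  linear_combination (14 / 507 * d - 47 / 507) * P1 + (17 / 1521 * d - 58 / 1521) * P2 + (17 /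
    1521 * d - 1 / 13) * hd

theorem sR1 : r0 d * (-1) + R d a * a + R d b * b + R d c * c = L1 d := by
  unfold R r0 L1
  linear_combination (17 / 1521 * d - 58 / 1521) * ha + (17 / 1521 * d - 58 / 1521) * hb + (17
    / 1521 * d - 58 / 1521) * hc + (-(97 / 1521 * d) + 107 / 507) * P1 + (-(17 / 1521 * d ^ 2)
    + 134 / 1521 * d - 257 / 1521) * P2 + (-(17 / 1521 * d ^ 2) + 151 / 1521 * d - 311 / 1521)
    * hd

theorem sR2 : r0 d * (-1) ^ 2 + R d a * a ^ 2 + R d b * b ^ 2 + R d c * c ^ 2 = L2 d := by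
  unfold R r0 L2
  linear_combination (17 / 1521 * a * d - 58 / 1521 * a - 17 / 1521 * d ^ 2 + 134 / 1521 * d -
    257 / 1521) * ha + (17 / 1521 * b * d - 58 / 1521 * b - 17 / 1521 * d ^ 2 + 134 / 1521 * d
    - 257 / 1521) * hb + (17 / 1521 * c * d - 58 / 1521 * c - 17 / 1521 * d ^ 2 + 134 / 1521 *
    d - 257 / 1521) * hc + (25 / 1521 * d - 83 / 1521) * P1 + (17 / 1521 * d ^ 3 - 56 / 507 * d
    ^ 2 + 428 / 1521 * d - 193 / 1521) * P2 + (17 / 1521 * d ^ 3 - 185 / 1521 * d ^ 2 + 613 /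
    1521 * d - 81 / 169) * hd

theorem sR3 : r0 d * (-1) ^ 3 + R d a * a ^ 3 + R d b * b ^ 3 + R d c * c ^ 3 = L3 d := by
  unfold R r0 L3
  linear_combination (17 / 1521 * a ^ 2 * d - 58 / 1521 * a ^ 2 - 17 / 1521 * a * d ^ 2 + 134 /
    1521 * a * d - 257 / 1521 * a + 17 / 1521 * d ^ 3 - 56 / 507 * d ^ 2 + 428 / 1521 * d - 193
    / 1521) * ha + (17 / 1521 * b ^ 2 * d - 58 / 1521 * b ^ 2 - 17 / 1521 * b * d ^ 2 + 134 /
    1521 * b * d - 257 / 1521 * b + 17 / 1521 * d ^ 3 - 56 / 507 * d ^ 2 + 428 / 1521 * d - 193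
    / 1521) * hb + (17 / 1521 * c ^ 2 * d - 58 / 1521 * c ^ 2 - 17 / 1521 * c * d ^ 2 + 134 /
    1521 * c * d - 257 / 1521 * c + 17 / 1521 * d ^ 3 - 56 / 507 * d ^ 2 + 428 / 1521 * d - 193
    / 1521) * hc + (17 / 1521 * d ^ 2 - 77 / 507 * d + 578 / 1521) * P1 + (-(17 / 1521 * d ^ 4)
    + 202 / 1521 * d ^ 3 - 764 / 1521 * d ^ 2 + 358 / 507 * d - 469 / 1521) * P2 + (-(17 / 1521
    * d ^ 4) + 73 / 507 * d ^ 3 - 983 / 1521 * d ^ 2 + 646 / 507 * d - 1457 / 1521) * hd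

theorem sU0 : u0 d + U d a + U d b + U d c = M0 d := by
  unfold U u0 M0
  linear_combination (-(4 / 39 * d) + 11 / 39) * P1 + (-(2 / 39)) * P2 + (2 / 39) * hd

theorem sU1 : u0 d * (-1) + U d a * a + U d b * b + U d c * c = M1 d := by
  unfold U u0 M1
  linear_combination (-(2 / 39)) * ha + (-(2 / 39)) * hb + (-(2 / 39)) * hc + (2 / 13 * d - 19
    / 39) * P1 + (-(2 / 39 * d) + 7 / 39) * P2 + (-(2 / 39 * d) + 1 / 13) * hd

theorem sU2 : u0 d * (-1) ^ 2 + U d a * a ^ 2 + U d b * b ^ 2 + U d c * c ^ 2 = M2 d := by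
  unfold U u0 M2
  linear_combination (-(2 / 39 * a) - 2 / 39 * d + 7 / 39) * ha + (-(2 / 39 * b) - 2 / 39 * d +
    7 / 39) * hb + (-(2 / 39 * c) - 2 / 39 * d + 7 / 39) * hc + (-(4 / 39 * d) + 1 / 3) * P1 +
    (2 / 39 * d ^ 2 - 5 / 39 * d - 5 / 39) * P2 + (2 / 39 * d ^ 2 - 7 / 39 * d + 2 / 13) * hd

theorem sU3 : u0 d * (-1) ^ 3 + U d a * a ^ 3 + U d b * b ^ 3 + U d c * c ^ 3 = M3 d := by
  unfold U u0 M3
  linear_combination (-(2 / 39 * a ^ 2) - 2 / 39 * a * d + 7 / 39 * a + 2 / 39 * d ^ 2 - 5 / 39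
    * d - 5 / 39) * ha + (-(2 / 39 * b ^ 2) - 2 / 39 * b * d + 7 / 39 * b + 2 / 39 * d ^ 2 - 5
    / 39 * d - 5 / 39) * hb + (-(2 / 39 * c ^ 2) - 2 / 39 * c * d + 7 / 39 * c + 2 / 39 * d ^ 2
    - 5 / 39 * d - 5 / 39) * hc + (8 / 39 * d - 2 / 3) * P1 + (-(2 / 39 * d ^ 3) + 3 / 13 * d ^
    2 - 3 / 13 * d + 1 / 13) * P2 + (-(2 / 39 * d ^ 3) + 11 / 39 * d ^ 2 - 20 / 39 * d + 1 /
    13) * hd

theorem sG0 : u0 d * (-1 / 3) + U d a * G d a + U d b * G d b + U d c * G d c = G0 d := by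
  unfold U G u0 G0
  linear_combination (-(8 / 13 * a * d) + 80 / 39 * a - 8 / 13 * d ^ 2 + 172 / 39 * d - 304 /
    39) * ha + (-(8 / 13 * b * d) + 80 / 39 * b - 8 / 13 * d ^ 2 + 172 / 39 * d - 304 / 39) *
    hb + (-(8 / 13 * c * d) + 80 / 39 * c - 8 / 13 * d ^ 2 + 172 / 39 * d - 304 / 39) * hc + (8
    / 39 * d ^ 2 - 16 / 39 * d - 11 / 13) * P1 + (8 / 13 * d ^ 3 - 44 / 13 * d ^ 2 + 128 / 39 *
    d + 154 / 39) * P2 + (8 / 13 * d ^ 3 - 4 * d ^ 2 + 92 / 13 * d - 74 / 39) * hd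

theorem sG1 : u0 d * (-1 / 3) * (-1) + U d a * G d a * a + U d b * G d b * b + U d c * G d c *
  c = G1 d := by
  unfold U G u0 G1
  linear_combination (-(8 / 13 * a ^ 2 * d) + 80 / 39 * a ^ 2 - 8 / 13 * a * d ^ 2 + 172 / 39 *
    a * d - 304 / 39 * a + 8 / 13 * d ^ 3 - 44 / 13 * d ^ 2 + 128 / 39 * d + 154 / 39) * ha +
    (-(8 / 13 * b ^ 2 * d) + 80 / 39 * b ^ 2 - 8 / 13 * b * d ^ 2 + 172 / 39 * b * d - 304 / 39
    * b + 8 / 13 * d ^ 3 - 44 / 13 * d ^ 2 + 128 / 39 * d + 154 / 39) * hb + (-(8 / 13 * c ^ 2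
    * d) + 80 / 39 * c ^ 2 - 8 / 13 * c * d ^ 2 + 172 / 39 * c * d - 304 / 39 * c + 8 / 13 * d
    ^ 3 - 44 / 13 * d ^ 2 + 128 / 39 * d + 154 / 39) * hc + (-(8 / 39 * d ^ 2) + 38 / 39 * d -
    1) * P1 + (-(8 / 13 * d ^ 4) + 60 / 13 * d ^ 3 - 128 / 13 * d ^ 2 + 86 / 39 * d + 275 / 39)
    * P2 + (-(8 / 13 * d ^ 4) + 68 / 13 * d ^ 3 - 196 / 13 * d ^ 2 + 538 / 39 * d + 57 / 13) *
    hd

theorem sG2 : u0 d * (-1 / 3) * (-1) ^ 2 + U d a * G d a * a ^ 2 + U d b * G d b * b ^ 2 + U d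
  c * G d c * c ^ 2 = G2 d := by
  unfold U G u0 G2
  linear_combination (-(8 / 13 * a ^ 3 * d) + 80 / 39 * a ^ 3 - 8 / 13 * a ^ 2 * d ^ 2 + 172 /
    39 * a ^ 2 * d - 304 / 39 * a ^ 2 + 8 / 13 * a * d ^ 3 - 44 / 13 * a * d ^ 2 + 128 / 39 * a
    * d + 154 / 39 * a - 8 / 13 * d ^ 4 + 60 / 13 * d ^ 3 - 128 / 13 * d ^ 2 + 86 / 39 * d +
    275 / 39) * ha + (-(8 / 13 * b ^ 3 * d) + 80 / 39 * b ^ 3 - 8 / 13 * b ^ 2 * d ^ 2 + 172 /
    39 * b ^ 2 * d - 304 / 39 * b ^ 2 + 8 / 13 * b * d ^ 3 - 44 / 13 * b * d ^ 2 + 128 / 39 * b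
    * d + 154 / 39 * b - 8 / 13 * d ^ 4 + 60 / 13 * d ^ 3 - 128 / 13 * d ^ 2 + 86 / 39 * d +
    275 / 39) * hb + (-(8 / 13 * c ^ 3 * d) + 80 / 39 * c ^ 3 - 8 / 13 * c ^ 2 * d ^ 2 + 172 /
    39 * c ^ 2 * d - 304 / 39 * c ^ 2 + 8 / 13 * c * d ^ 3 - 44 / 13 * c * d ^ 2 + 128 / 39 * c
    * d + 154 / 39 * c - 8 / 13 * d ^ 4 + 60 / 13 * d ^ 3 - 128 / 13 * d ^ 2 + 86 / 39 * d +
    275 / 39) * hc + (-(8 / 13 * d ^ 3) + 140 / 39 * d ^ 2 - 48 / 13 * d - 187 / 39) * P1 + (8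
    / 13 * d ^ 5 - 76 / 13 * d ^ 4 + 248 / 13 * d ^ 3 - 862 / 39 * d ^ 2 - 5 / 3 * d + 511 /
    39) * P2 + (8 / 13 * d ^ 5 - 84 / 13 * d ^ 4 + 332 / 13 * d ^ 3 - 130 / 3 * d ^ 2 + 271 /
    13 * d + 162 / 13) * hd

end Sums

theorem num_abc {d a b c : ℂ} (hd : d ^ 2 = 3 * d + 1) (P1 : a + b + c = 2 - d)
    (e2 : a * b + b * c + c * a = -1) (e3 : a * b * c = d - 3) :
    LA.Num ![-1, a, b, c] ![3 * d + 2, 3 * d, 3 * d, 3 * d] ![1, V d a, V d b, V d c] := by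
  have ha : a ^ 3 + (d - 2) * a ^ 2 - a + 3 - d = 0 := by
    linear_combination a ^ 2 * P1 - a * e2 + e3
  have hb : b ^ 3 + (d - 2) * b ^ 2 - b + 3 - d = 0 := by
    linear_combination b ^ 2 * P1 - b * e2 + e3
  have hc : c ^ 3 + (d - 2) * c ^ 2 - c + 3 - d = 0 := by
    linear_combination c ^ 2 * P1 - c * e2 + e3
  have P2 : a ^ 2 + b ^ 2 + c ^ 2 = (2 - d) ^ 2 + 2 := by
    linear_combination (a + b + c + 2 - d) * P1 - 2 * e2
  have fa : V d a * ((a + 1) * ((a - b) * (a - c))) = 1 := by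
    linear_combination rV hd ha + V d a * (a + 1) * (-2 * a * P1 + e2)
  have fb : V d b * ((b + 1) * ((b - a) * (b - c))) = 1 := by
    linear_combination rV hd hb + V d b * (b + 1) * (-2 * b * P1 + e2)
  have fc : V d c * ((c + 1) * ((c - a) * (c - b))) = 1 := by
    linear_combination rV hd hc + V d c * (c + 1) * (-2 * c * P1 + e2)
  have ga := right_ne_zero_of_mul_eq_one fa
  have gb := right_ne_zero_of_mul_eq_one fb
  have gc := right_ne_zero_of_mul_eq_one fc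
  have a1 : a ≠ -1 := fun h => ga (by rw [h]; ring)
  have b1 : b ≠ -1 := fun h => gb (by rw [h]; ring)
  have c1 : c ≠ -1 := fun h => gc (by rw [h]; ring)
  have ab : a ≠ b := fun h => ga (by rw [h]; ring)
  have ac : a ≠ c := fun h => ga (by rw [h]; ring)
  have bc : b ≠ c := fun h => gb (by rw [h]; ring)
  have inj : Function.Injective ![-1, a, b, c] := by
    intro p q
    refine all4 (P := fun p => ![-1, a, b, c] p = ![-1, a, b, c] q → p = q) ?_ ?_ ?_ ?_ p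
    · exact all4 (P := fun q => ![-1, a, b, c] 0 = ![-1, a, b, c] q → 0 = q) (fun _ => rfl)
        (fun h => (a1 h.symm).elim) (fun h => (b1 h.symm).elim) (fun h => (c1 h.symm).elim) q
    · exact all4 (P := fun q => ![-1, a, b, c] 1 = ![-1, a, b, c] q → 1 = q)
        (fun h => (a1 h).elim) (fun _ => rfl) (fun h => (ab h).elim) (fun h => (ac h).elim) q
    · exact all4 (P := fun q => ![-1, a, b, c] 2 = ![-1, a, b, c] q → 2 = q)
        (fun h => (b1 h).elim) (fun h => (ab h.symm).elim) (fun _ => rfl) (fun h => (bc h).elim) q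
    · exact all4 (P := fun q => ![-1, a, b, c] 3 = ![-1, a, b, c] q → 3 = q)
        (fun h => (c1 h).elim) (fun h => (ac h.symm).elim) (fun h => (bc h.symm).elim)
        (fun _ => rfl) q
  refine num_of (u := ![u0 d, U d a, U d b, U d c]) (r := ![r0 d, R d a, R d b, R d c])
    (g := ![-1 / 3, G d a, G d b, G d c]) (L1 := L1 d) (L2 := L2 d) (L3 := L3 d) (M0 := M0 d)
    (M1 := M1 d) (M2 := M2 d) (M3 := M3 d) (G0 := G0 d) (G1 := G1 d) (G2 := G2 d)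
    ⟨inj, all4 one_ne_zero (left_ne_zero_of_mul_eq_one fa) (left_ne_zero_of_mul_eq_one fb)
      (left_ne_zero_of_mul_eq_one fc), ?_, ?_, ?_, ?_⟩
    (all4 (zw0 hd) (zw hd) (zw hd) (zw hd))
    (all4 (show (-1 : ℂ) - 2 ≠ 0 by norm_num) (r2 hd ha) (r2 hd hb) (r2 hd hc))
    (all4 (show (-1 : ℂ) + 2 ≠ 0 by norm_num) (r2' hd ha) (r2' hd hb) (r2' hd hc)) ?_
    (all4 (zU hd) (rU hd ha) (rU hd hb) (rU hd hc))
    (all4 (zR hd) (rR hd ha) (rR hd hb) (rR hd hc))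
    (all4 (show (-1 / 3 : ℂ) * (-1 - 2) = -1 + 2 by norm_num) (rG hd ha) (rG hd hb) (rG hd hc))
    ?_ ?_ ?_ ?_ ?_ ?_ ?_ ?_ ?_ ?_ ?_ (zD hd)
    (all4 (zK hd) (rK hd ha) (rK hd hb) (rK hd hc)) (zF1 hd)
    (all4 (zF hd) (rF hd ha) (rF hd hb) (rF hd hc))
  all_goals rw [Fin.sum_univ_four]
  · exact sV0 hd ha hb hc P1 P2
  · exact sV1 hd ha hb hc P1 P2
  · exact sV2 hd ha hb hc P1 P2
  · exact sV3 hd ha hb hc P1 P2
  · show (3 * d + 2) * (2 - -1) + 3 * d * (2 - a) + 3 * d * (2 - b) + 3 * d * (2 - c) ≠ 0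
    intro h; apply zN hd; linear_combination h + 3 * d * P1
  · exact sR0 hd ha hb hc P1 P2
  · exact sR1 hd ha hb hc P1 P2
  · exact sR2 hd ha hb hc P1 P2
  · exact sR3 hd ha hb hc P1 P2
  · exact sU0 hd ha hb hc P1 P2
  · exact sU1 hd ha hb hc P1 P2
  · exact sU2 hd ha hb hc P1 P2
  · exact sU3 hd ha hb hc P1 P2
  · exact sG0 hd ha hb hc P1 P2
  · exact sG1 hd ha hb hc P1 P2
  · exact sG2 hd ha hb hc P1 P2

theorem phi {ζ : ℂ} (hζ : IsPrimitiveRoot ζ 13) : 1 + ζ + ζ ^ 2 + ζ ^ 3 + ζ ^ 4 + ζ ^ 5 + ζ ^ 6 +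
    ζ ^ 7 + ζ ^ 8 + ζ ^ 9 + ζ ^ 10 + ζ ^ 11 + ζ ^ 12 = 0 := by
  have := hζ.geom_sum_eq_zero (by norm_num)
  simp only [Finset.sum_range_succ, Finset.range_zero, Finset.sum_empty] at this
  linear_combination this

end D2

theorem hd_sq {ζ : ℂ} (hζ : IsPrimitiveRoot ζ 13) : hd ζ ^ 2 = 3 * hd ζ + 1 := by
  unfold hd
  linear_combination (-3 + 4 * ζ + 2 * ζ ^ 4 - ζ ^ 5 - ζ ^ 6 + ζ ^ 7 - ζ ^ 8 + 2 * ζ ^ 10 - ζ ^ 11 + ζ ^ 12) * D2.phi hζ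

theorem haag_num {ζ : ℂ} (hζ : IsPrimitiveRoot ζ 13) : ∃ v : Fin 4 → ℂ,
    LA.Num ![-1, -(ζ + ζ ^ 12), -(ζ ^ 3 + ζ ^ 10), -(ζ ^ 4 + ζ ^ 9)]
      ![3 * hd ζ + 2, 3 * hd ζ, 3 * hd ζ, 3 * hd ζ] v := by
  refine ⟨_, D2.num_abc (hd_sq hζ) ?_ ?_ ?_⟩
  · unfold hd; ring
  · linear_combination (1 - ζ + ζ ^ 4 - ζ ^ 6 + ζ ^ 7 - ζ ^ 8 + ζ ^ 10) * D2.phi hζ
  · unfold hd
    linear_combination (1 - 2 * ζ + ζ ^ 2 - ζ ^ 3 + ζ ^ 5 - ζ ^ 8 + ζ ^ 11 - ζ ^ 12 + ζ ^ 13 - ζ ^ 14 + ζ ^ 18 - ζ ^ 19) * D2.phi hζ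

end Pool.Agent.Lib.MP_edb142_al
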