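import Pool.Agent.Lib.MP_edb142_al.H.N3

open CategoryTheory MonoidalCategory Limits Module

set_option linter.unusedSectionVars false

namespace Pool.Agent.Lib.MP_edb142_al

universe v u

variable {C : Type u} [Category.{v} C] [Preadditive C] [Linear ℂ C] [MonoidalCategory C]
  [MonoidalPreadditive C] [MonoidalLinear ℂ C] [HasFiniteBiproducts C] [BraidedCategory C]
  [RigidCategory C] {I : Type} [Fintype I] [DecidableEq I]

namespace Modular
variable (M : Modular C I)

/-- the global dimension -/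
noncomputable def DD : ℂ := ∑ k, M.dim k ^ 2

theorem orth' {i j : I} (h : i ≠ j) : ∑ m, M.S i m * (starRingEnd ℂ) (M.S j m) = 0 := by
  rw [← M.orth h.symm]
  exact Finset.sum_congr rfl fun m _ => by rw [M.S_symm i, M.S_symm j, mul_comm]

theorem sq_pos (i : I) : ∃ r : ℝ, 0 < r ∧ ∑ m, M.S i m * (starRingEnd ℂ) (M.S i m) = r := by
  refine ⟨∑ m, Complex.normSq (M.S i m), Finset.sum_pos' (fun m _ => Complex.normSq_nonneg _)
    ⟨M.o, Finset.mem_univ _, Complex.normSq_pos.2 (by rw [M.S_o']; exact M.dim_ne i)⟩, ?_⟩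
  simp only [Complex.mul_conj, Complex.ofReal_sum]

theorem DD_eq : ∑ m, M.S M.o m * (starRingEnd ℂ) (M.S M.o m) = M.DD :=
  Finset.sum_congr rfl fun m _ => by rw [M.S_o, M.dim_real, sq]

theorem DD_pos : ∃ r : ℝ, 0 < r ∧ M.DD = r := M.DD_eq ▸ M.sq_pos M.o

theorem DD_ne : M.DD ≠ 0 := by
  obtain ⟨r, h, e⟩ := M.DD_pos
  rw [e]
  exact_mod_cast h.ne'

theorem norm (i : I) : ∑ m, M.S i m * (starRingEnd ℂ) (M.S i m) = M.DD := by
  let n : I → ℂ := fun i => ∑ m, M.S i m * (starRingEnd ℂ) (M.S i m)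
  have n0 : ∀ i, n i ≠ 0 := fun i => by
    obtain ⟨r, h, e⟩ := M.sq_pos i
    rw [show n i = r from e]
    exact_mod_cast h.ne'
  have a : ∀ (g : I → ℂ) i, ∑ l, (∑ j, g j * M.S j l) * (starRingEnd ℂ) (M.S i l) = g i * n i :=
    fun g i => by
      simp only [Finset.sum_mul, mul_assoc]
      rw [Finset.sum_comm]
      simp only [← Finset.mul_sum]
      exact Finset.sum_eq_single i (fun j _ h => by rw [M.orth' h, mul_zero]) (by simp)
  have h1 := M.S_inj (t := fun l => (starRingEnd ℂ) (∑ j, M.dim j / n j * M.S j l))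
    (t' := fun l => if l = M.o then 1 else 0) fun i => by
      have := congrArg (starRingEnd ℂ) (a (fun j => M.dim j / n j) i)
      rw [div_mul_cancel₀ _ (n0 i), M.dim_real, map_sum] at this
      simp only [ite_mul, one_mul, zero_mul, Finset.sum_ite_eq', Finset.mem_univ, if_true, M.S_o]
      rw [← this]
      exact Finset.sum_congr rfl fun l _ => by rw [map_mul, Complex.conj_conj, M.S_symm]
  have h2 := M.S_inj (t := fun j => M.dim j / n j) (t' := fun j => M.dim j / M.DD) fun l => by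
    have := congrArg (starRingEnd ℂ) (congrFun h1 l)
    simp only [Complex.conj_conj] at this
    rw [this]
    simp only [div_mul_eq_mul_div, ← Finset.sum_div]
    have e : ∑ j, M.dim j * M.S j l = ∑ j, M.S l j * (starRingEnd ℂ) (M.S M.o j) :=
      Finset.sum_congr rfl fun j _ => by rw [M.S_o, M.dim_real, M.S_symm, mul_comm]
    rw [e]
    split_ifs with h
    · rw [h, M.DD_eq, div_self M.DD_ne, map_one]
    · rw [M.orth' h, zero_div, map_zero]
  have h3 : M.dim i / n i = M.dim i / M.DD := congrFun h2 i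
  rw [div_eq_div_iff (n0 i) M.DD_ne] at h3
  exact (mul_left_cancel₀ (M.dim_ne i) h3).symm

theorem coef (g : I → ℂ) (i : I) :
    ∑ l, (∑ j, g j * M.S j l) * (starRingEnd ℂ) (M.S i l) = g i * M.DD := by
  simp only [Finset.sum_mul, mul_assoc]
  rw [Finset.sum_comm]
  simp only [← Finset.mul_sum]
  rw [Finset.sum_eq_single i (fun j _ h => by rw [M.orth' h, mul_zero]) (by simp), M.norm]

theorem row_inj {i l : I} (h : ∀ j, M.S i j = M.S l j) : i = l := by
  by_contra e
  have := M.orth' e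
  simp only [h, M.norm] at this
  exact M.DD_ne this

theorem ver (k l j : I) : ∑ m, (M.N k l m : ℂ) * M.S m j = M.s j (M.X k) * M.S l j := by
  have := M.verlinde k l j
  rw [M.S_o, M.S_s k] at this
  exact mul_left_cancel₀ (M.dim_ne j) (by rw [← this]; ring)

theorem Ninv (k l m : I) : (M.N k l m : ℂ) * M.DD =
    ∑ j, M.s j (M.X k) * M.S l j * (starRingEnd ℂ) (M.S m j) := by
  simp only [← M.ver]
  exact (M.coef (fun m => (M.N k l m : ℂ)) m).symm

theorem single_of_norm (n : I → ℕ) (r : I → ℂ) (h : ∀ j, ∑ m, (n m : ℂ) * M.S m j = r j)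
    (h' : ∑ j, r j * (starRingEnd ℂ) (r j) = M.DD) :
    ∃ l, (∀ m, n m = if m = l then 1 else 0) ∧ ∀ j, M.S l j = r j := by
  have e : ((∑ m, n m * n m : ℕ) : ℂ) = (1 : ℕ) := by
    refine mul_right_cancel₀ M.DD_ne ?_
    rw [Nat.cast_one, one_mul]
    conv_rhs => rw [← h']
    push_cast
    simp only [Finset.sum_mul, mul_assoc, ← M.coef (fun m => (n m : ℂ)), h, Finset.mul_sum]
    rw [Finset.sum_comm]
    refine Finset.sum_congr rfl fun j _ => ?_
    conv_rhs => enter [2]; rw [← h, map_sum]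
    rw [Finset.mul_sum]
    exact Finset.sum_congr rfl fun m _ => by rw [map_mul, map_natCast]; ring
  have e1 := Nat.cast_injective (R := ℂ) e
  obtain ⟨l, -, hl⟩ := Finset.exists_ne_zero_of_sum_ne_zero (e1.trans_ne one_ne_zero)
  rw [← Finset.add_sum_erase _ _ (Finset.mem_univ l)] at e1
  have h1 : n l * n l = 1 := by omega
  have h3 : ∑ m ∈ Finset.univ.erase l, n m * n m = 0 := by omega
  have h2 : ∀ m, n m = if m = l then 1 else 0 := fun m => by
    split_ifs with hm
    · rw [hm]; exact Nat.eq_one_of_mul_eq_one_right h1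
    · exact mul_self_eq_zero.1 (Finset.sum_eq_zero_iff.1 h3 m
        (Finset.mem_erase.2 ⟨hm, Finset.mem_univ m⟩))
  refine ⟨l, h2, fun j => ?_⟩
  rw [← h]
  simp [h2]

theorem N_dual (k l : I) : finrank ℂ (M.X l ⟶ (M.X k)ᘁ) = M.N k l M.o := by
  unfold Modular.N
  rw [← ((du (M.X k)).eqvL _ _).finrank_eq, M.ss.finrank_symm]
  exact (Linear.homCongr ℂ (whiskerLeftIso _ M.unit_iso.some.symm ≪≫ ρ_ _)
    (Iso.refl _)).finrank_eq.symm

theorem T_dual {k l : I} (h : M.N k l M.o ≠ 0) : M.T l = M.T k := by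
  have := M.ss.finite
  obtain ⟨f, hf⟩ := (finrank_pos_iff_exists_ne_zero (R := ℂ) (M := M.X l ⟶ (M.X k)ᘁ)).1
    (by rw [M.N_dual]; omega)
  refine smul_left_injective ℂ hf ((du (M.X k)).ε_right_inj ?_)
  have e := M.tw.nat f
  rw [M.tw_X, Linear.smul_comp, Category.id_comp] at e
  simp only
  rw [← e, comp_whiskerRight, Category.assoc, M.tw.dual, M.tw_X]
  simp

theorem ex_dual (k : I) : ∃ l, (∀ m, M.N k m M.o = if m = l then 1 else 0) ∧
    ∀ j, M.S l j = (starRingEnd ℂ) (M.S k j) :=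
  M.single_of_norm _ _ (fun j => by
    have h2 := M.s_conj (RingHom.id ℂ) j (du (M.X k))
    simp only [RingHom.id_apply] at h2
    rw [M.S_s k, map_mul, M.dim_real, ← h2, M.s_dec, Finset.sum_mul]
    exact Finset.sum_congr rfl fun r _ => by rw [M.N_dual, M.S_s, mul_assoc]) (by
    rw [← M.norm k]
    exact Finset.sum_congr rfl fun j _ => by rw [Complex.conj_conj, mul_comm])

theorem N_rot {x : I} (hx : ∀ j, (starRingEnd ℂ) (M.S x j) = M.S x j) (i j : I) :
    M.N x i j = M.N x j i := by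
  have h : ∀ l, (starRingEnd ℂ) (M.s l (M.X x)) = M.s l (M.X x) := fun l => by
    have := hx l
    rw [M.S_s, map_mul, M.dim_real] at this
    exact mul_right_cancel₀ (M.dim_ne l) this
  have e := congrArg (starRingEnd ℂ) (M.Ninv x i j)
  obtain ⟨r, -, hr⟩ := M.DD_pos
  rw [map_mul, map_natCast, hr, Complex.conj_ofReal, ← hr, map_sum] at e
  rw [← Nat.cast_inj (R := ℂ)]
  refine mul_right_cancel₀ M.DD_ne ?_
  rw [e, M.Ninv]
  exact Finset.sum_congr rfl fun l _ => by
    rw [map_mul, map_mul, h, Complex.conj_conj]; ring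

theorem N_o (k m : I) : M.N M.o k m = if m = k then 1 else 0 := by
  exact_mod_cast M.N_of M.o k (fun m => if m = k then 1 else 0) (fun j => by simp) m

end Modular

end Pool.Agent.Lib.MP_edb142_al
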