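import Pool.Agent.Lib.MP_edb142_al.H.G1

open CategoryTheory MonoidalCategory Limits Module

set_option linter.unusedSectionVars false

namespace Pool.Agent.Lib.MP_edb142_al

universe v u

variable {C : Type u} [Category.{v} C] [Preadditive C] [Linear ℂ C] [MonoidalCategory C]
  [MonoidalPreadditive C] [MonoidalLinear ℂ C] [HasFiniteBiproducts C] [BraidedCategory C]
  [RigidCategory C] {I : Type} [Fintype I] [DecidableEq I]

namespace Modular
variable (M : Modular C I)

/-- the normalised entry -/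
noncomputable def ch (k c : I) : ℂ := M.s c (M.X k)

theorem S_ch (k j : I) : M.S k j = M.ch k j * M.dim j := M.S_s k j

theorem S_ch' (k j : I) : M.S j k = M.ch k j * M.dim j := by rw [M.S_symm, S_ch]

theorem ch_o (j : I) : M.ch M.o j = 1 := M.s_o j

theorem ch_o' (k : I) : M.ch k M.o = M.dim k := M.s_o_X k

theorem ver' (k l j : I) : ∑ m, (M.N k l m : ℂ) * M.S m j = M.ch k j * M.S l j := M.ver k l j

theorem Ninv' (k l m : I) : (M.N k l m : ℂ) * M.DD =
    ∑ j, M.ch k j * M.S l j * (starRingEnd ℂ) (M.S m j) := M.Ninv k l m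

theorem N_of' (k l : I) (f : I → ℂ) (h : ∀ j, M.ch k j * M.S l j = ∑ m, f m * M.S m j) (m : I) :
    (M.N k l m : ℂ) = f m :=
  congrFun (M.S_inj (t := fun m => (M.N k l m : ℂ)) fun j => (M.ver' k l j).trans (h j)) m

/-- the product with an invertible label -/
noncomputable def act (k c : I) : I :=
  @Classical.epsilon I ⟨M.o⟩ fun l => ∀ j, M.S l j = M.ch k j * M.S c j

end Modular

/-- the group free hypotheses -/
structure GF (M : Modular C I) (x : I) (δ : ℂ) (τ ν : I → ℕ) : Prop where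
  xo : x ≠ M.o
  T : M.T x = 1
  dx : M.dim x = δ + 1
  ty : ∀ c, (τ c = 1 ∧ ν c = 0) ∨ (τ c = 1 ∧ ν c = 1) ∨ (τ c = 2 ∧ ν c = 1) ∨ (τ c = 0 ∧ ν c = 1)
  d : ∀ c, M.dim c = τ c + ν c * δ
  s : ∀ c, M.S x c = τ c * (δ + 1) - ν c * δ
  nb : ∀ b, τ b = 0 → M.N x b b = 0

namespace GF
variable {M : Modular C I} {x : I} {δ : ℂ} {τ ν : I → ℕ} (H : GF M x δ τ ν)
include H

theorem real : (starRingEnd ℂ) δ = δ := by
  have := M.dim_real x
  rw [H.dx] at this
  simpa using this

theorem ne1 : δ + 1 ≠ 0 := H.dx ▸ M.dim_ne x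

theorem ne0 : δ ≠ 0 := fun h => H.xo (M.row_inj fun j => by rw [M.S_o, H.d, H.s, h]; ring)

theorem ne2 : δ + 2 ≠ 0 := fun h => by
  have e := M.orth' H.xo
  have : ∀ j, M.S x j = -M.S M.o j := fun j => by
    rw [M.S_o, H.d, H.s]; linear_combination (τ j : ℂ) * h
  simp only [this, neg_mul, Finset.sum_neg_distrib, M.norm, neg_eq_zero] at e
  exact M.DD_ne e

theorem sreal (j : I) : (starRingEnd ℂ) (M.S x j) = M.S x j := by
  rw [H.s]; simp [H.real]

theorem dK {k : I} (h : ν k = 0) : M.dim k = 1 ∧ M.S x k = δ + 1 := by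
  have : τ k = 1 := by have := H.ty k; omega
  rw [H.d, H.s, h, this]; simp

theorem dV {k : I} (h : τ k = 1) (h' : ν k = 1) : M.dim k = δ + 1 ∧ M.S x k = 1 := by
  rw [H.d, H.s, h, h']; simp [add_comm]

theorem dA {k : I} (h : τ k = 2) : M.dim k = δ + 2 ∧ M.S x k = δ + 2 := by
  have : ν k = 1 := by have := H.ty k; omega
  rw [H.d, H.s, h, this]; push_cast; constructor <;> ring

theorem dB {k : I} (h : τ k = 0) : M.dim k = δ ∧ M.S x k = -δ := by
  have : ν k = 1 := by have := H.ty k; omega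
  rw [H.d, H.s, h, this]; simp

theorem ty_of {c : I} {a b : ℕ} (h1 : M.dim c = a + b * δ) (h2 : M.S x c = a * (δ + 1) - b * δ) :
    τ c = a ∧ ν c = b := by
  rw [H.d] at h1
  rw [H.s] at h2
  have e : (τ c : ℂ) = a := mul_right_cancel₀ H.ne2 (by linear_combination h1 + h2)
  have e' : (ν c : ℂ) = b := mul_right_cancel₀ H.ne0 (by linear_combination h1 - e)
  exact ⟨by exact_mod_cast e, by exact_mod_cast e'⟩

theorem ty_o : τ M.o = 1 ∧ ν M.o = 0 :=
  H.ty_of (by simp [M.dim_o]) (by simp [M.S_o', H.dx])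

theorem ty_x : τ x = 1 ∧ ν x = 1 := by
  have h := H.dx
  rcases H.ty x with e | e | e | e
  · rw [(H.dK e.2).1] at h
    exact absurd (by linear_combination -h) H.ne0
  · exact e
  · rw [(H.dA e.1).1] at h
    exact absurd (by linear_combination h : (1 : ℂ) = 0) one_ne_zero
  · rw [(H.dB e.1).1] at h
    exact absurd (by linear_combination -h : (1 : ℂ) = 0) one_ne_zero

theorem sx_ne (j : I) : M.S x j ≠ 0 := by
  rcases H.ty j with e | e | e | e
  · rw [(H.dK e.2).2]; exact H.ne1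
  · rw [(H.dV e.1 e.2).2]; exact one_ne_zero
  · rw [(H.dA e.1).2]; exact H.ne2
  · rw [(H.dB e.1).2]; exact neg_ne_zero.2 H.ne0

/-- counting the types in a product -/
theorem cnt (k l : I) :
    ((∑ m, M.N k l m * τ m : ℕ) : ℂ) + (∑ m, M.N k l m * ν m : ℕ) * δ = M.dim k * M.dim l ∧
    (((∑ m, M.N k l m * τ m : ℕ) : ℂ) * (δ + 1) - (∑ m, M.N k l m * ν m : ℕ) * δ) * (δ + 1) =
      M.S x k * M.S x l := by
  have a := M.ver' k l M.o
  have b := M.ver' k l x
  simp only [M.S_o', M.ch_o'] at a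
  constructor
  · rw [← a]
    push_cast
    rw [Finset.sum_mul, ← Finset.sum_add_distrib]
    exact Finset.sum_congr rfl fun m _ => by rw [H.d]; ring
  · rw [M.S_ch' k x, H.dx, mul_right_comm, M.S_symm x l, ← b]
    push_cast
    rw [Finset.sum_mul, Finset.sum_mul, ← Finset.sum_sub_distrib]
    congr 1
    exact Finset.sum_congr rfl fun m _ => by rw [M.S_symm m, H.s]; ring

theorem ty_conj {k l : I} (h : ∀ j, M.S l j = (starRingEnd ℂ) (M.S k j)) : τ l = τ k ∧ ν l = ν k :=
  H.ty_of (by rw [← M.S_o', h, M.S_o', M.dim_real, H.d])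
    (by rw [M.S_symm, h, M.S_symm, H.sreal, H.s])

theorem unit {k : I} (h : ν k = 0) (j : I) : M.ch k j * (starRingEnd ℂ) (M.ch k j) = 1 := by
  obtain ⟨l, h1, h2⟩ := M.ex_dual k
  have hl := (H.ty_conj h2).2.trans h
  obtain ⟨a, b⟩ := H.cnt k l
  rw [(H.dK h).1, (H.dK hl).1] at a
  rw [(H.dK h).2, (H.dK hl).2] at b
  have b' := mul_right_cancel₀ H.ne1 b
  have e : ((∑ m, M.N k l m * τ m : ℕ) : ℂ) = (1 : ℕ) :=
    mul_right_cancel₀ H.ne2 (by push_cast at a b' ⊢; linear_combination a + b')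
  have e' : ((∑ m, M.N k l m * ν m : ℕ) : ℂ) = (0 : ℕ) :=
    mul_right_cancel₀ H.ne0 (by rw [e] at a; push_cast at a ⊢; linear_combination a)
  have e1 := Nat.cast_injective (R := ℂ) e
  have e2 := Finset.sum_eq_zero_iff.1 (Nat.cast_injective (R := ℂ) e')
  rw [← Finset.add_sum_erase _ _ (Finset.mem_univ M.o), h1, if_pos rfl, H.ty_o.1] at e1
  have e3 := Finset.sum_eq_zero_iff.1 (by omega : ∑ m ∈ Finset.univ.erase M.o, M.N k l m * τ m = 0)
  have v := M.ver' k l j
  rw [Finset.sum_eq_single M.o (fun m _ hm => by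
    have a1 := mul_eq_zero.1 (e2 m (Finset.mem_univ m))
    have a2 := mul_eq_zero.1 (e3 m (Finset.mem_erase.2 ⟨hm, Finset.mem_univ m⟩))
    have a3 := H.ty m
    rw [show M.N k l m = 0 by omega]; simp) (by simp), h1, if_pos rfl, h2, M.S_o, M.S_ch, map_mul,
    M.dim_real] at v
  exact mul_right_cancel₀ (M.dim_ne j) (by linear_combination -v)

theorem ch_ne {k : I} (h : ν k = 0) (j : I) : M.ch k j ≠ 0 := left_ne_zero_of_mul_eq_one (H.unit h j)

theorem act_S {k : I} (h : ν k = 0) (c j : I) : M.S (M.act k c) j = M.ch k j * M.S c j := by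
  obtain ⟨l, -, hl⟩ := M.single_of_norm (M.N k c) _ (M.ver' k c) (by
    rw [← M.norm c]
    exact Finset.sum_congr rfl fun j _ => by
      rw [map_mul]; linear_combination M.S c j * (starRingEnd ℂ) (M.S c j) * H.unit h j)
  exact @Classical.epsilon_spec I (fun l => ∀ j, M.S l j = M.ch k j * M.S c j) ⟨l, hl⟩ j

theorem act_N {k : I} (h : ν k = 0) (c m : I) : M.N k c m = if m = M.act k c then 1 else 0 := by
  exact_mod_cast M.N_of' k c (fun m => if m = M.act k c then 1 else 0)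
    (fun j => by simp [H.act_S h]) m

theorem ch_x {k : I} (h : ν k = 0) : M.ch k x = 1 := by
  have := M.S_ch' k x
  rw [(H.dK h).2, H.dx] at this
  exact mul_right_cancel₀ H.ne1 (by rw [← this, one_mul])

theorem act_d {k : I} (h : ν k = 0) (c : I) :
    M.dim (M.act k c) = M.dim c ∧ M.S x (M.act k c) = M.S x c :=
  ⟨by rw [← M.S_o', H.act_S h, M.ch_o', (H.dK h).1, one_mul, M.S_o'],
    by rw [M.S_symm, H.act_S h, H.ch_x h, one_mul, M.S_symm]⟩

theorem act_ty {k : I} (h : ν k = 0) (c : I) : τ (M.act k c) = τ c ∧ ν (M.act k c) = ν c :=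
  H.ty_of ((H.act_d h c).1.trans (H.d c)) ((H.act_d h c).2.trans (H.s c))

theorem act_inj {k : I} (h : ν k = 0) {c c' : I} (e : M.act k c = M.act k c') : c = c' :=
  M.row_inj fun j => mul_left_cancel₀ (H.ch_ne h j) (by rw [← H.act_S h, ← H.act_S h, e])

theorem act_o (c : I) : M.act M.o c = c :=
  M.row_inj fun j => by rw [H.act_S H.ty_o.2, M.ch_o, one_mul]

theorem act_o' {k : I} (h : ν k = 0) : M.act k M.o = k :=
  M.row_inj fun j => by rw [H.act_S h, M.S_o, M.S_ch]

theorem act_ch {k : I} (h : ν k = 0) (y c : I) : M.ch (M.act k y) c = M.ch k c * M.ch y c :=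
  mul_right_cancel₀ (M.dim_ne c) (by rw [← M.S_ch, H.act_S h, M.S_ch, mul_assoc])

theorem act_act {k k' : I} (h : ν k = 0) (h' : ν k' = 0) (c : I) :
    M.act k (M.act k' c) = M.act (M.act k k') c :=
  M.row_inj fun j => by
    rw [H.act_S h, H.act_S h', H.act_S ((H.act_ty h k').2.trans h'), H.act_ch h, mul_assoc]

theorem actx_inj {k k' : I} (h : ν k = 0) (h' : ν k' = 0) (e : M.act k x = M.act k' x) : k = k' :=
  M.row_inj fun j => by
    rw [M.S_ch, M.S_ch, mul_right_cancel₀ (H.sx_ne j) ((H.act_S h x j).symm.trans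
      (e ▸ H.act_S h' x j))]

theorem actx_ty {k : I} (h : ν k = 0) : τ (M.act k x) = 1 ∧ ν (M.act k x) = 1 :=
  ⟨(H.act_ty h x).1.trans H.ty_x.1, (H.act_ty h x).2.trans H.ty_x.2⟩

theorem S_kx {k : I} (h : ν k = 0) (y : I) : M.S y (M.act k x) = M.ch k y * M.S x y := by
  rw [M.S_symm, H.act_S h]

theorem ch_kx {k j : I} (h : ν k = 0) (hj : ν j = 0) : M.ch j (M.act k x) = M.ch j k := by
  refine mul_right_cancel₀ H.ne1 ?_
  have e := M.S_ch j (M.act k x)
  rw [H.S_kx h, (H.dK hj).2, (H.dV (H.actx_ty h).1 (H.actx_ty h).2).1] at e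
  have e2 := M.S_symm j k
  rw [M.S_ch, M.S_ch, (H.dK h).1, (H.dK hj).1, mul_one, mul_one] at e2
  rw [← e, e2]

theorem sum4 (f : I → ℂ) : ∑ j, f j = ∑ k with ν k = 0, f k + ∑ k with τ k = 1 ∧ ν k = 1, f k +
    ∑ k with τ k = 2, f k + ∑ k with τ k = 0, f k := by
  simp only [Finset.sum_filter, ← Finset.sum_add_distrib]
  refine Finset.sum_congr rfl fun j _ => ?_
  rcases H.ty j with e | e | e | e <;> simp [e.1, e.2]

theorem V_eq : ({k | τ k = 1 ∧ ν k = 1} : Finset I) =
    ({k | ν k = 0} : Finset I).image fun k => M.act k x := by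
  have inj : Set.InjOn (fun k => M.act k x) ({k | ν k = 0} : Finset I) := fun a ha b hb e =>
    H.actx_inj (by simpa using ha) (by simpa using hb) e
  refine (Finset.eq_of_subset_of_card_le (fun c hc => ?_) ?_).symm
  · obtain ⟨k, hk, rfl⟩ := Finset.mem_image.1 hc
    simpa using H.actx_ty (by simpa using hk)
  · rw [Finset.card_image_of_injOn inj]
    have e := (M.norm x).trans (M.norm M.o).symm
    simp only [H.sreal, M.S_o, M.dim_real] at e
    rw [← sub_eq_zero, ← Finset.sum_sub_distrib, H.sum4,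
      Finset.sum_congr rfl (g := fun _ => δ * (δ + 2)) fun k hk => by
        rw [(H.dK (by simpa using hk)).1, (H.dK (by simpa using hk)).2]; ring,
      Finset.sum_congr (s₁ := {k | τ k = 1 ∧ ν k = 1}) rfl (g := fun _ => -(δ * (δ + 2)))
        fun k hk => by
          have hk := (Finset.mem_filter.1 hk).2
          rw [(H.dV hk.1 hk.2).1, (H.dV hk.1 hk.2).2]; ring,
      Finset.sum_eq_zero (s := {k | τ k = 2}) fun k hk => by
        rw [(H.dA (by simpa using hk)).1, (H.dA (by simpa using hk)).2]; ring,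
      Finset.sum_eq_zero (s := {k | τ k = 0}) fun k hk => by
        rw [(H.dB (by simpa using hk)).1, (H.dB (by simpa using hk)).2]; ring] at e
    simp only [Finset.sum_const, nsmul_eq_mul] at e
    have e2 : ((({k | τ k = 1 ∧ ν k = 1} : Finset I).card : ℕ) : ℂ) =
        (({k | ν k = 0} : Finset I).card : ℕ) :=
      mul_right_cancel₀ (mul_ne_zero H.ne0 H.ne2) (by linear_combination -e)
    exact (Nat.cast_injective e2).le

theorem V_ex {c : I} (h : τ c = 1) (h' : ν c = 1) : ∃ k, ν k = 0 ∧ c = M.act k x := by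
  have : c ∈ ({k | τ k = 1 ∧ ν k = 1} : Finset I) := by simp [h, h']
  rw [H.V_eq] at this
  obtain ⟨k, hk, e⟩ := Finset.mem_image.1 this
  exact ⟨k, by simpa using hk, e.symm⟩

theorem sumI (f : I → ℂ) : ∑ j, f j = ∑ k with ν k = 0, (f k + f (M.act k x)) +
    ∑ k with τ k = 2, f k + ∑ k with τ k = 0, f k := by
  rw [H.sum4, H.V_eq, Finset.sum_image fun a ha b hb e =>
    H.actx_inj (by simpa using ha) (by simpa using hb) e, Finset.sum_add_distrib]

theorem cases (p : I → Prop) (hK : ∀ k, ν k = 0 → p k) (hV : ∀ k, ν k = 0 → p (M.act k x))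
    (hA : ∀ a, τ a = 2 → p a) (hB : ∀ b, τ b = 0 → p b) (j : I) : p j := by
  rcases H.ty j with e | e | e | e
  · exact hK j e.2
  · obtain ⟨k, hk, rfl⟩ := H.V_ex e.1 e.2
    exact hV k hk
  · exact hA j e.1
  · exact hB j e.1

end GF

end Pool.Agent.Lib.MP_edb142_al
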