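import Pool.Agent.Lib.MP_edb142_al.H.G2

open CategoryTheory MonoidalCategory Limits Module

set_option linter.unusedSectionVars false

namespace Pool.Agent.Lib.MP_edb142_al

universe v u

variable {C : Type u} [Category.{v} C] [Preadditive C] [Linear ℂ C] [MonoidalCategory C]
  [MonoidalPreadditive C] [MonoidalLinear ℂ C] [HasFiniteBiproducts C] [BraidedCategory C]
  [RigidCategory C] {I : Type} [Fintype I] [DecidableEq I]

/-- two labels have the same monodromy with the invertible labels -/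
def Modular.Gr (M : Modular C I) (ν : I → ℕ) (c c' : I) : Prop :=
  ∀ k, ν k = 0 → M.ch k c = M.ch k c'

/-- the character sum -/
noncomputable def Modular.cs (M : Modular C I) (ν : I → ℕ) (c c' : I) : ℂ :=
  ∑ k with ν k = 0, M.ch k c * (starRingEnd ℂ) (M.ch k c')

/-- the number of invertible labels -/
def nK (ν : I → ℕ) : ℕ := ({k | ν k = 0} : Finset I).card

namespace GF
variable {M : Modular C I} {x : I} {δ : ℂ} {τ ν : I → ℕ} (H : GF M x δ τ ν)
include H

theorem nK_pos : 0 < nK ν := Finset.card_pos.2 ⟨M.o, by simp [H.ty_o.2]⟩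

theorem cs_pos {c c' : I} (h : M.Gr ν c c') : M.cs ν c c' = nK ν := by
  rw [Modular.cs, Finset.sum_congr rfl (g := fun _ => 1) fun k hk => by
    rw [h k (by simpa using hk), H.unit (by simpa using hk)]]
  simp [nK]

theorem cs_neg {c c' : I} (h : ¬ M.Gr ν c c') : M.cs ν c c' = 0 := by
  obtain ⟨k0, h0, hne⟩ : ∃ k0, ν k0 = 0 ∧ M.ch k0 c ≠ M.ch k0 c' := by
    by_contra e
    push Not at e
    exact h e
  have inj : Set.InjOn (M.act k0) ({k | ν k = 0} : Finset I) := fun a _ b _ e => H.act_inj h0 e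
  have im : ({k | ν k = 0} : Finset I).image (M.act k0) = ({k | ν k = 0} : Finset I) :=
    Finset.eq_of_subset_of_card_le (fun c hc => by
      obtain ⟨k, hk, rfl⟩ := Finset.mem_image.1 hc
      simpa [(H.act_ty h0 k).2] using hk) (Finset.card_image_of_injOn inj).ge
  have e : M.cs ν c c' = M.ch k0 c * (starRingEnd ℂ) (M.ch k0 c') * M.cs ν c c' := by
    unfold Modular.cs
    conv_lhs => rw [← im, Finset.sum_image inj]
    rw [Finset.mul_sum]
    exact Finset.sum_congr rfl fun k _ => by rw [H.act_ch h0, H.act_ch h0, map_mul]; ring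
  by_contra hc
  have e1 := mul_right_cancel₀ hc ((one_mul _).trans e)
  exact hne (by linear_combination -M.ch k0 c' * e1 - M.ch k0 c * H.unit h0 c')

theorem chK {k : I} (h : ν k = 0) : M.ch x k = δ + 1 := by
  rw [← (H.dK h).2, M.S_ch, (H.dK h).1, mul_one]

theorem chV {k : I} (h : ν k = 0) : M.ch x (M.act k x) = (δ + 1)⁻¹ :=
  eq_inv_of_mul_eq_one_left (by
    rw [← (H.dV (H.actx_ty h).1 (H.actx_ty h).2).1, ← M.S_ch, (H.dV (H.actx_ty h).1 (H.actx_ty h).2).2])

theorem chA {a : I} (h : τ a = 2) : M.ch x a = 1 :=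
  mul_right_cancel₀ (M.dim_ne a) (by rw [← M.S_ch, (H.dA h).1, (H.dA h).2, one_mul])

theorem chB {a : I} (h : τ a = 0) : M.ch x a = -1 :=
  mul_right_cancel₀ (M.dim_ne a) (by rw [← M.S_ch, (H.dB h).1, (H.dB h).2, neg_one_mul])

theorem dkx {k : I} (h : ν k = 0) : M.dim (M.act k x) = δ + 1 ∧ M.S x (M.act k x) = 1 :=
  H.dV (H.actx_ty h).1 (H.actx_ty h).2

theorem Nxx0 (c : I) : ((M.N x x c : ℂ) - if c = M.o then 1 else 0) * M.DD * (δ + 1) =
    M.cs ν M.o c * ν c * (δ * (δ + 2)) ^ 2 := by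
  have r : ∀ j, ∑ m, ((M.N x x m : ℂ) - if m = M.o then 1 else 0) * M.S m j =
      M.ch x j * M.S x j - M.dim j := fun j => by
    simp [sub_mul, Finset.sum_sub_distrib, M.ver', M.S_o]
  rw [← M.coef (fun m => (M.N x x m : ℂ) - if m = M.o then 1 else 0) c]
  simp only [r]
  rw [H.sumI, Finset.sum_eq_zero (s := {k | τ k = 2}) fun k hk => by
      have hk := (Finset.mem_filter.1 hk).2
      rw [H.chA hk, (H.dA hk).1, (H.dA hk).2]; ring,
    Finset.sum_eq_zero (s := {k | τ k = 0}) fun k hk => by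
      have hk := (Finset.mem_filter.1 hk).2
      rw [H.chB hk, (H.dB hk).1, (H.dB hk).2]; ring, add_zero, add_zero, Modular.cs,
    Finset.sum_mul, Finset.sum_mul, Finset.sum_mul]
  refine Finset.sum_congr rfl fun k hk => ?_
  have hk := (Finset.mem_filter.1 hk).2
  have := H.ne1
  rw [H.chK hk, H.chV hk, (H.dK hk).1, (H.dK hk).2, (H.dkx hk).1, (H.dkx hk).2, H.S_kx hk,
    M.S_ch' k c, map_mul, map_mul, M.dim_real, H.sreal, M.ch_o', (H.dK hk).1, H.d, H.s]
  field_simp
  ring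

theorem Gr_x : M.Gr ν M.o x := fun k hk => by rw [M.ch_o', (H.dK hk).1, H.ch_x hk]

theorem mu : (M.N x x x : ℂ) * M.DD * (δ + 1) = nK ν * (δ * (δ + 2)) ^ 2 := by
  have := H.Nxx0 x
  rwa [if_neg H.xo, sub_zero, H.cs_pos H.Gr_x, H.ty_x.2, Nat.cast_one, mul_one] at this

theorem ex_real : ∃ d : ℝ, δ = d ∧ 0 < d + 1 ∧ d ≠ 0 ∧ d + 2 ≠ 0 := by
  obtain ⟨d, rfl⟩ : ∃ d : ℝ, (d : ℂ) = δ := ⟨δ.re, Complex.conj_eq_iff_re.1 H.real⟩
  obtain ⟨r, hr, e⟩ := M.DD_pos
  have h := H.mu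
  rw [e] at h
  have h' : (M.N x x x : ℝ) * r * (d + 1) = nK ν * (d * (d + 2)) ^ 2 := by exact_mod_cast h
  have d0 : d ≠ 0 := by exact_mod_cast H.ne0
  have d2 : d + 2 ≠ 0 := by exact_mod_cast H.ne2
  have k0 : (0 : ℝ) < nK ν := by exact_mod_cast H.nK_pos
  refine ⟨d, rfl, ?_, d0, d2⟩
  have p : 0 < (M.N x x x : ℝ) * r * (d + 1) := by rw [h']; positivity
  exact (pos_iff_pos_of_mul_pos p).1 (lt_of_le_of_ne (by positivity) fun e => by
    rw [← e, zero_mul] at p; exact lt_irrefl _ p)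

theorem ex_B {y : I} (hy : τ y ≠ 0) : ∃ b, τ b = 0 ∧ M.Gr ν y b := by
  classical
  by_contra hc
  push Not at hc
  obtain ⟨d, rfl, d1, -, -⟩ := H.ex_real
  have k0 : (0 : ℝ) < nK ν := by exact_mod_cast H.nK_pos
  have e : ∑ c, M.cs ν y c * (M.dim c * M.S x c) = 0 := by
    simp only [Modular.cs, Finset.sum_mul]
    rw [Finset.sum_comm]
    refine Finset.sum_eq_zero fun k hk => ?_
    have hk := (Finset.mem_filter.1 hk).2
    have := M.orth' (i := x) (j := k) fun e => by have := H.ty_x.2; rw [e] at this; omega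
    rw [← mul_zero (M.ch k y), ← this, Finset.mul_sum]
    exact Finset.sum_congr rfl fun c _ => by rw [M.S_ch k, map_mul, M.dim_real]; ring
  let t : I → ℝ := fun c => if M.Gr ν y c then
    nK ν * ((τ c + ν c * d) * (τ c * (d + 1) - ν c * d)) else 0
  have p : ∀ c, M.Gr ν y c → 0 < t c := fun c h => by
    have h0 : τ c ≠ 0 := fun e => hc c e h
    simp only [t, if_pos h]
    refine mul_pos k0 ?_
    rcases H.ty c with e | e | e | e
    · rw [e.1, e.2]; push_cast; nlinarith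
    · rw [e.1, e.2]; push_cast; nlinarith
    · rw [e.1, e.2]; push_cast; nlinarith
    · exact absurd e.1 h0
  have e2 : ∑ c, t c = 0 := by
    rw [← Complex.ofReal_eq_zero, ← e, Complex.ofReal_sum]
    refine Finset.sum_congr rfl fun c _ => ?_
    by_cases h : M.Gr ν y c
    · simp only [t, if_pos h, H.cs_pos h, H.d, H.s]
      push_cast
      ring
    · simp [t, h, H.cs_neg h]
  refine (Finset.sum_pos' (fun c _ => ?_) ⟨y, Finset.mem_univ y, p y fun _ _ => rfl⟩).ne' e2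
  by_cases h : M.Gr ν y c
  · exact (p c h).le
  · simp [t, h]

theorem mass {b : I} (hb : τ b = 0) : M.N x x x = 1 ∧ ∀ a, τ a = 2 → M.S b a = 0 := by
  have e : M.DD = ∑ j, (1 + M.ch x j) * (M.S b j * (starRingEnd ℂ) (M.S b j)) := by
    have := M.Ninv' x b b
    rw [H.nb b hb, Nat.cast_zero, zero_mul] at this
    simp only [add_mul, one_mul, Finset.sum_add_distrib, M.norm, ← mul_assoc, ← this, add_zero]
  have n1 := H.ne1
  rw [H.sumI, Finset.sum_eq_zero (s := {k | τ k = 0}) fun k hk => by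
      rw [H.chB (Finset.mem_filter.1 hk).2]; ring, add_zero,
    Finset.sum_congr rfl (g := fun _ => (δ * (δ + 2)) ^ 2 / (δ + 1)) fun k hk => by
      have hk := (Finset.mem_filter.1 hk).2
      rw [H.chK hk, H.chV hk, H.S_kx hk, M.S_ch' k b, map_mul, map_mul, M.dim_real, H.sreal,
        (H.dB hb).1, (H.dB hb).2]
      field_simp
      linear_combination (δ * (δ + 2)) ^ 2 * H.unit hk b,
    Finset.sum_congr (s₁ := {k | τ k = 2}) rfl (g := fun a => ((2 * Complex.normSq (M.S b a) : ℝ) : ℂ))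
      fun k hk => by
        rw [H.chA (Finset.mem_filter.1 hk).2, Complex.mul_conj]; push_cast; ring,
    Finset.sum_const, nsmul_eq_mul, ← Complex.ofReal_sum, ← mul_div_assoc] at e
  change _ = (nK ν : ℂ) * _ / _ + _ at e
  have m0 : M.N x x x ≠ 0 := fun h => by
    have := H.mu
    rw [h, Nat.cast_zero, zero_mul, zero_mul] at this
    exact mul_ne_zero (Nat.cast_ne_zero.2 H.nK_pos.ne') (pow_ne_zero 2 (mul_ne_zero H.ne0 H.ne2))
      this.symm
  rw [← H.mu, mul_div_cancel_right₀ _ n1] at e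
  obtain ⟨r, hr, er⟩ := M.DD_pos
  rw [er] at e
  have e' : r = M.N x x x * r + ∑ a with τ a = 2, 2 * Complex.normSq (M.S b a) := by
    exact_mod_cast e
  have nn : ∀ a ∈ ({k | τ k = 2} : Finset I), 0 ≤ 2 * Complex.normSq (M.S b a) := fun a _ =>
    mul_nonneg zero_le_two (Complex.normSq_nonneg _)
  have p := Finset.sum_nonneg nn
  have m1 : (1 : ℝ) ≤ M.N x x x := by exact_mod_cast Nat.one_le_iff_ne_zero.2 m0
  have m2 : (M.N x x x : ℝ) = 1 := le_antisymm (by nlinarith) m1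
  refine ⟨by exact_mod_cast m2, fun a ha => ?_⟩
  have z := (Finset.sum_eq_zero_iff_of_nonneg nn).1 (by rw [m2] at e'; linarith) a (by simpa using ha)
  exact Complex.normSq_eq_zero.1 (by linarith)

theorem S_ba {b a : I} (hb : τ b = 0) (ha : τ a = 2) : M.S b a = 0 := (H.mass hb).2 a ha

theorem S_ab {b a : I} (hb : τ b = 0) (ha : τ a = 2) : M.S a b = 0 := by
  rw [M.S_symm, H.S_ba hb ha]

theorem mu1 : M.N x x x = 1 := by
  obtain ⟨b, hb, -⟩ := H.ex_B (y := M.o) (by rw [H.ty_o.1]; exact one_ne_zero)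
  exact (H.mass hb).1

open Classical in
theorem Nxx (c : I) : M.N x x c = if c = M.o ∨ (M.Gr ν M.o c ∧ ν c = 1) then 1 else 0 := by
  have e := H.Nxx0 c
  have m := H.mu
  rw [H.mu1, Nat.cast_one, one_mul] at m
  have n := mul_ne_zero M.DD_ne H.ne1
  rw [mul_assoc] at e
  rw [← Nat.cast_inj (R := ℂ)]
  by_cases h : c = M.o
  · rw [if_pos h, h, H.ty_o.2] at e
    rw [if_pos (Or.inl h), h]
    exact mul_right_cancel₀ n (by push_cast at e ⊢; linear_combination e)
  · rw [if_neg h, sub_zero] at e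
    by_cases g : M.Gr ν M.o c
    · rw [H.cs_pos g] at e
      rcases (by have := H.ty c; omega : ν c = 0 ∨ ν c = 1) with v | v
      · rw [if_neg (by simp [h, v])]
        rw [v] at e
        exact mul_right_cancel₀ n (by push_cast at e ⊢; linear_combination e)
      · rw [if_pos (Or.inr ⟨g, v⟩)]
        rw [v] at e
        exact mul_right_cancel₀ n (by push_cast at e ⊢; linear_combination e - m)
    · rw [if_neg (by simp [h, g])]
      rw [H.cs_neg g] at e
      exact mul_right_cancel₀ n (by push_cast at e ⊢; linear_combination e)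

theorem quad : ∃ n : ℕ, ∑ m, M.N x x m * τ m = n + 1 ∧ ∑ m, M.N x x m * ν m = n + 2 ∧
    δ ^ 2 = n * (δ + 1) := by
  obtain ⟨a, b⟩ := H.cnt x x
  obtain ⟨n, hn⟩ : ∃ n, ∑ m, M.N x x m * τ m = n + 1 := Nat.exists_eq_succ_of_ne_zero fun h => by
    have := Finset.sum_eq_zero_iff.1 h x (Finset.mem_univ x)
    rw [H.mu1, H.ty_x.1] at this
    omega
  rw [hn, H.dx] at a
  rw [hn, (H.dV H.ty_x.1 H.ty_x.2).2] at b
  have q : δ ^ 2 = n * (δ + 1) := mul_right_cancel₀ H.ne2 (by
    push_cast at a b; linear_combination -(δ + 1) * a - b)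
  refine ⟨n, hn, Nat.cast_injective (R := ℂ) (mul_right_cancel₀ (mul_ne_zero H.ne0 H.ne1) ?_), q⟩
  generalize ((∑ m, M.N x x m * ν m : ℕ) : ℂ) = B at a b
  push_cast at a ⊢
  linear_combination (δ + 1) * a + (δ + 1) * q

theorem irr {a b : ℕ} (h : (a : ℂ) + b * δ = 0) : a = 0 ∧ b = 0 := by
  have hb : b = 0 := by
    by_contra hb
    obtain ⟨n, -, -, hq⟩ := H.quad
    have hn : n ≠ 0 := fun e => H.ne0 (by simpa [e] using hq)
    have h2 : ((2 * a + n * b : ℕ) : ℂ) ^ 2 = ((n ^ 2 + 4 * n : ℕ) : ℂ) * (b : ℂ) ^ 2 := by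
      push_cast
      linear_combination (4 * (a - b * δ) + 4 * n * b) * h + 4 * b ^ 2 * hq
    have h3 : ((2 * a + n * b : ℕ) : ℚ) ^ 2 = ((n ^ 2 + 4 * n : ℕ) : ℚ) * (b : ℚ) ^ 2 := by
      exact_mod_cast h2
    have h4 : (b : ℚ) ≠ 0 := Nat.cast_ne_zero.2 hb
    have h5 : IsSquare ((n ^ 2 + 4 * n : ℕ) : ℚ) := ⟨((2 * a + n * b : ℕ) : ℚ) / b, by
      field_simp; rw [h3]⟩
    obtain ⟨r, hr⟩ := Rat.isSquare_natCast_iff.1 h5
    have h8 := Nat.pos_of_ne_zero hn
    have h6 : n + 1 < r := Nat.mul_self_lt_mul_self_iff.1 (by nlinarith)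
    have h7 : r < n + 2 := Nat.mul_self_lt_mul_self_iff.1 (by nlinarith)
    omega
  rw [hb] at h
  exact ⟨by simpa using h, hb⟩

theorem pos : M.Pos := by
  intro n h k
  obtain ⟨h1, h2⟩ := H.irr (a := ∑ k, n k * τ k) (b := ∑ k, n k * ν k) (by
    rw [← h]
    push_cast
    rw [Finset.sum_mul, ← Finset.sum_add_distrib]
    exact Finset.sum_congr rfl fun k _ => by rw [H.d]; ring)
  have h3 := mul_eq_zero.1 (Finset.sum_eq_zero_iff.1 h1 k (Finset.mem_univ k))
  have h4 := mul_eq_zero.1 (Finset.sum_eq_zero_iff.1 h2 k (Finset.mem_univ k))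
  have := H.ty k
  omega

theorem dimsq : ∑ k, M.dim k ^ 2 =
    (nK ν + 2 * ({k | τ k = 2} : Finset I).card : ℕ) * (δ + 2) ^ 2 := by
  have e := M.orth' H.xo
  simp only [M.S_o, M.dim_real] at e
  rw [← add_zero (∑ k, M.dim k ^ 2), ← e, ← Finset.sum_add_distrib, H.sumI,
    Finset.sum_eq_zero (s := {k | τ k = 0}) fun k hk => by
      have hk := (Finset.mem_filter.1 hk).2
      rw [(H.dB hk).1, (H.dB hk).2]; ring,
    Finset.sum_congr rfl (g := fun _ => (δ + 2) ^ 2) fun k hk => by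
      have hk := (Finset.mem_filter.1 hk).2
      rw [(H.dK hk).1, (H.dK hk).2, (H.dkx hk).1, (H.dkx hk).2]; ring,
    Finset.sum_congr (s₁ := {k | τ k = 2}) rfl (g := fun _ => 2 * (δ + 2) ^ 2) fun k hk => by
      have hk := (Finset.mem_filter.1 hk).2
      rw [(H.dA hk).1, (H.dA hk).2]; ring]
  simp only [Finset.sum_const, nsmul_eq_mul, nK]
  push_cast
  ring

theorem hA {a b : I} (ha : τ a = 2) (hb : τ b = 0) (g : M.Gr ν a b) (l : I) :
    M.N a x l = (if l = b then 1 else 0) + M.N b x l + if l = a then 1 else 0 := by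
  rw [M.N_swap, M.N_swap b]
  exact_mod_cast M.N_of' x a
    (fun l => (if l = b then 1 else 0) + (M.N x b l : ℂ) + if l = a then 1 else 0) (fun j => by
      simp only [add_mul, Finset.sum_add_distrib, M.ver', ite_mul, one_mul, zero_mul,
        Finset.sum_ite_eq', Finset.mem_univ, if_true]
      have := H.ne1
      induction j using H.cases with
      | hK k hk =>
        rw [H.chK hk, M.S_ch' k, M.S_ch' k, g k hk, (H.dA ha).1, (H.dB hb).1]; ring
      | hV k hk =>
        rw [H.chV hk, H.S_kx hk, H.S_kx hk, g k hk, (H.dA ha).2, (H.dB hb).2]; field_simp; ring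
      | hA k hk => rw [H.chA hk, H.S_ba hb hk]; ring
      | hB k hk => rw [H.chB hk, H.S_ab hk ha]; ring) l

theorem hV {k b : I} (hk : ν k = 0) (hb : τ b = 0) (g : M.Gr ν k b) (l : I) :
    M.N (M.act k x) x l = (if l = b then 1 else 0) + M.N b x l + if l = k then 1 else 0 := by
  rw [M.N_swap, M.N_swap b]
  exact_mod_cast M.N_of' x (M.act k x)
    (fun l => (if l = b then 1 else 0) + (M.N x b l : ℂ) + if l = k then 1 else 0) (fun j => by
      simp only [add_mul, Finset.sum_add_distrib, M.ver', ite_mul, one_mul, zero_mul,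
        Finset.sum_ite_eq', Finset.mem_univ, if_true]
      have := H.ne1
      induction j using H.cases with
      | hK j hj =>
        rw [H.chK hj, M.S_ch' j, M.S_ch' j, M.S_ch' j, H.ch_kx hk hj, g j hj, (H.dkx hk).1,
          (H.dB hb).1, (H.dK hk).1]; ring
      | hV j hj =>
        rw [H.chV hj, H.S_kx hj, H.S_kx hj, H.S_kx hj, H.ch_kx hk hj, g j hj, (H.dkx hk).2,
          (H.dB hb).2, (H.dK hk).2]; field_simp; ring
      | hA j hj => rw [H.chA hj, H.S_ba hb hj, H.act_S hk, M.S_ch k, (H.dA hj).1, (H.dA hj).2]; ring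
      | hB j hj => rw [H.chB hj, H.act_S hk, M.S_ch k, (H.dB hj).1, (H.dB hj).2]; ring) l

theorem free {a b a' c : I} (ha : τ a = 2) (hb : τ b = 0) (g : M.Gr ν a b) (ha' : τ a' = 2)
    (hc : τ c = 0) : M.N a' a c = M.N a' b c := by
  rw [← Nat.cast_inj (R := ℂ)]
  refine mul_right_cancel₀ M.DD_ne ?_
  have z : ∀ j, τ j = 0 → M.ch a' j = 0 := fun j hj =>
    (mul_eq_zero.1 ((M.S_ch a' j).symm.trans (H.S_ab hj ha'))).resolve_right (M.dim_ne j)
  rw [M.Ninv', M.Ninv', ← sub_eq_zero, ← Finset.sum_sub_distrib, H.sumI,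
    Finset.sum_eq_zero (s := {k | τ k = 0}) fun k hk => by
      rw [z k (Finset.mem_filter.1 hk).2]; ring,
    Finset.sum_eq_zero (s := {k | τ k = 2}) fun k hk => by
      rw [H.S_ba hc (Finset.mem_filter.1 hk).2]; simp, add_zero, add_zero]
  refine Finset.sum_eq_zero fun k hk => ?_
  have hk := (Finset.mem_filter.1 hk).2
  have e1 := M.S_ch a' k
  have e2 := M.S_ch a' (M.act k x)
  rw [M.S_ch' k, (H.dA ha').1, (H.dK hk).1, mul_one] at e1
  rw [H.S_kx hk, (H.dA ha').2, (H.dkx hk).1, e1] at e2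
  rw [H.S_kx hk, H.S_kx hk, H.S_kx hk, M.S_ch' k, M.S_ch' k, M.S_ch' k, map_mul, map_mul,
    M.dim_real, H.sreal, g k hk, (H.dA ha).1, (H.dA ha).2, (H.dB hb).1, (H.dB hb).2, (H.dB hc).1,
    (H.dB hc).2, e2]
  ring

theorem van (f : I → ℂ) (h : ∀ j, τ j = 0 → ∑ k, f k * M.S k j = 0) {k b : I} (hk : ν k = 0)
    (hb : τ b = 0) (g : M.Gr ν k b) : f (M.act k x) = f k + f b := by
  refine mul_right_cancel₀ M.DD_ne ?_
  rw [add_mul, ← M.coef, ← M.coef, ← M.coef, ← Finset.sum_add_distrib]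
  refine Finset.sum_congr rfl fun j _ => ?_
  rw [← mul_add, ← map_add]
  induction j using H.cases with
  | hK j hj =>
    rw [M.S_ch' j (M.act k x), M.S_ch' j k, M.S_ch' j b, H.ch_kx hk hj, g j hj, (H.dkx hk).1,
      (H.dB hb).1, (H.dK hk).1]
    congr 2; ring
  | hV j hj =>
    rw [H.S_kx hj (M.act k x), H.S_kx hj k, H.S_kx hj b, H.ch_kx hk hj, g j hj, (H.dkx hk).2,
      (H.dB hb).2, (H.dK hk).2]
    congr 2; ring
  | hA j hj => rw [H.S_ba hb hj, H.act_S hk, M.S_ch k j, (H.dA hj).1, (H.dA hj).2, add_zero]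
  | hB j hj => rw [h j hj, zero_mul, zero_mul]

end GF

end Pool.Agent.Lib.MP_edb142_al
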