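import Pool.Agent.Lib.MP_edb142_al.H.G3

open CategoryTheory MonoidalCategory Limits Module

set_option linter.unusedSectionVars false

namespace Pool.Agent.Lib.MP_edb142_al

universe v u

namespace QN

theorem cube_le2 {K : Type} [Fintype K] (w y : K → ℝ) (hw : ∀ c, w c = 0 ∨ 1 / 2 ≤ w c) :
    (∑ c, w c * y c ^ 3) ^ 2 ≤ 2 * (∑ c, w c * y c ^ 2) ^ 3 := by
  have w0 : ∀ c, 0 ≤ w c := fun c => (hw c).elim (fun e => e.ge) fun e => by linarith
  have p : ∀ c, 0 ≤ w c * y c ^ 2 := fun c => mul_nonneg (w0 c) (sq_nonneg _)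
  have h1 := Finset.sum_sq_le_sum_mul_sum_of_sq_le_mul Finset.univ (r := fun c => w c * y c ^ 3)
    (f := fun c => w c * y c ^ 2) (g := fun c => w c * y c ^ 4) (fun c _ => p c)
    (fun c _ => mul_nonneg (w0 c) (by positivity)) fun c _ => le_of_eq (by ring)
  have h0 : 0 ≤ ∑ c, w c * y c ^ 2 := Finset.sum_nonneg fun c _ => p c
  have h2 : ∑ c, w c * y c ^ 4 ≤ 2 * (∑ c, w c * y c ^ 2) ^ 2 := by
    rw [sq (∑ c, w c * y c ^ 2), Finset.sum_mul, Finset.mul_sum]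
    refine Finset.sum_le_sum fun c _ => ?_
    have h3 := Finset.single_le_sum (f := fun c => w c * y c ^ 2) (fun c _ => p c)
      (Finset.mem_univ c)
    rcases hw c with e | e
    · simp [e]
    · have h4 : y c ^ 2 ≤ 2 * ∑ c, w c * y c ^ 2 := by nlinarith [sq_nonneg (y c)]
      nlinarith [mul_le_mul_of_nonneg_left h4 (p c)]
  calc _ ≤ _ := h1
    _ ≤ (∑ c, w c * y c ^ 2) * (2 * (∑ c, w c * y c ^ 2) ^ 2) := mul_le_mul_of_nonneg_left h2 h0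
    _ = _ := by ring

theorem pos2 (d : ℝ) (h : 7 / 2 ≤ d ∨ (-1 < d ∧ d ≤ -3 / 4)) :
    0 < 16 * E d ^ 2 - 54 * (d * (d ^ 2 + 3 * d + 1)) * (3 * d ^ 2 + 5 * d + 1) ^ 2 *
      (d ^ 2 - d - 1) * (d + 1) ^ 2 := by
  rcases h with h | ⟨h1, h2⟩
  · obtain ⟨y, hy, rfl⟩ : ∃ y : ℝ, 0 ≤ y ∧ d = 7 / 2 + y := ⟨d - 7 / 2, by linarith, by ring⟩
    refine lt_of_lt_of_eq (b := 6121999471 / 1024 + 265597422571 / 512 * y +
      389716228697 / 256 * y ^ 2 + 257868988945 / 128 * y ^ 3 + 50501638965 / 32 * y ^ 4 +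
      13021556615 / 16 * y ^ 5 + 2323960921 / 8 * y ^ 6 + 293297889 / 4 * y ^ 7 +
      52404467 / 4 * y ^ 8 + 3250295 / 2 * y ^ 9 + 133381 * y ^ 10 + 6522 * y ^ 11 +
      144 * y ^ 12) (by positivity) ?_
    unfold E; ring
  · obtain ⟨q, hq, rfl⟩ : ∃ q : ℝ, 0 < q ∧ d = q - 1 := ⟨d + 1, by linarith, by ring⟩
    obtain ⟨p, hp, hpq⟩ : ∃ p : ℝ, 0 ≤ p ∧ p = 1 - 4 * q := ⟨_, by linarith, rfl⟩
    refine lt_of_lt_of_eq (b := 27596376 * q ^ 12 + 111611466 * p * q ^ 11 +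
      202871574 * p ^ 2 * q ^ 10 + 218937384 * p ^ 3 * q ^ 9 + 156211524 * p ^ 4 * q ^ 8 +
      77645226 * p ^ 5 * q ^ 7 + 27578518 * p ^ 6 * q ^ 6 + 7055936 * p ^ 7 * q ^ 5 +
      1291224 * p ^ 8 * q ^ 4 + 164914 * p ^ 9 * q ^ 3 + 13962 * p ^ 10 * q ^ 2 +
      704 * p ^ 11 * q + 16 * p ^ 12) (by positivity) ?_
    rw [hpq]; unfold E; ring

theorem no2 (d e Y2 Y3 : ℝ) (h : 7 / 2 ≤ d ∨ (-1 < d ∧ d ≤ -3 / 4)) (he : e ≠ 0)
    (hm : 0 < d ^ 2 - d - 1)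
    (h2 : d * (d + 2) * Y2 = (d ^ 2 - d - 1) * e *
      (2 * (d + 1) * (d ^ 2 - d - 1) - e * (d + 2) * (d ^ 2 + 3 * d + 1)))
    (h3 : (d + 2) * d ^ 2 * Y3 = (d ^ 2 - d - 1) * e *
      ((d + 2) * (d + 1) * (d ^ 2 - d - 1) ^ 2 -
        4 * (d + 1) * (d ^ 2 - d - 1) * (2 * d ^ 2 + 4 * d + 1) * e +
        (d + 2) * ((d ^ 2 + 3 * d + 1) * (3 * d ^ 2 + 5 * d + 1)) * e ^ 2))
    (hY : Y3 ^ 2 ≤ 2 * Y2 ^ 3) : False := by
  obtain ⟨pE, -, pkB, pk⟩ := pos d (h.imp (fun h => by linarith) id)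
  have pW := pos2 d h
  have hx : 0 < d + 1 := by rcases h with h | h <;> linarith [h]
  have ha : 0 < d + 2 := by linarith
  have hd : d ≠ 0 := fun h0 => by simp [h0] at pk
  have hE : E d = (d + 2) ^ 2 * ((d ^ 2 + 3 * d + 1) * (3 * d ^ 2 + 5 * d + 1)) -
    4 * (d + 1) * (2 * d ^ 2 + 4 * d + 1) ^ 2 := rfl
  generalize E d = EE at *
  generalize d ^ 2 - d - 1 = m at *
  generalize d ^ 2 + 3 * d + 1 = k at *
  generalize 3 * d ^ 2 + 5 * d + 1 = B at *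
  generalize 2 * d ^ 2 + 4 * d + 1 = A at *
  generalize d + 1 = x at *
  generalize d + 2 = a at *
  obtain ⟨Q, hQ⟩ : ∃ Q, Q = a * x * m ^ 2 - 4 * x * m * A * e + a * (k * B) * e ^ 2 := ⟨_, rfl⟩
  obtain ⟨w, hw⟩ : ∃ w, w = 2 * x * m - e * a * k := ⟨_, rfl⟩
  rw [← hQ] at h3
  rw [← hw] at h2
  have s1 : a * Q ^ 2 ≤ 2 * (m * d * e * w ^ 3) := by
    have t1 : (a ^ 3 * d ^ 4) * Y3 ^ 2 ≤ (a ^ 3 * d ^ 4) * (2 * Y2 ^ 3) :=
      mul_le_mul_of_nonneg_left hY (by positivity)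
    have t2 : (a ^ 3 * d ^ 4) * Y3 ^ 2 = (m * e) ^ 2 * (a * Q ^ 2) := by
      calc _ = a * (a * d ^ 2 * Y3) ^ 2 := by ring
        _ = _ := by rw [h3]; ring
    have t3 : (a ^ 3 * d ^ 4) * (2 * Y2 ^ 3) = (m * e) ^ 2 * (2 * (m * d * e * w ^ 3)) := by
      calc _ = 2 * d * (d * a * Y2) ^ 3 := by ring
        _ = _ := by rw [h2]; ring
    rw [t2, t3] at t1
    exact le_of_mul_le_mul_left t1 (by positivity)
  have s2 : 256 * (e * a * k) * w ^ 3 ≤ 27 * (2 * x * m) ^ 4 := by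
    have t1 : 2 * x * m = e * a * k + w := by rw [hw]; ring
    rw [t1]
    generalize e * a * k = z
    have t2 : 0 ≤ 3 * z ^ 2 + 14 * z * w + 27 * w ^ 2 := by
      nlinarith [sq_nonneg (3 * z + 7 * w), sq_nonneg w]
    have t3 : 27 * (z + w) ^ 4 - 256 * z * w ^ 3 =
        (3 * z - w) ^ 2 * (3 * z ^ 2 + 14 * z * w + 27 * w ^ 2) := by ring
    have t4 := mul_nonneg (sq_nonneg (3 * z - w)) t2
    linarith
  have s3 : x * m ^ 2 * EE ≤ a * (k * B) * Q := by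
    have : a * (k * B) * Q - x * m ^ 2 * EE = (a * (k * B) * e - 2 * x * m * A) ^ 2 := by
      rw [hQ, hE]; ring
    nlinarith [sq_nonneg (a * (k * B) * e - 2 * x * m * A)]
  have s4 : (x * m ^ 2 * EE) ^ 2 ≤ (a * (k * B) * Q) ^ 2 :=
    pow_le_pow_left₀ (by positivity) s3 2
  have s5 : 256 * (a * (k * B) * Q) ^ 2 ≤ (2 * m * (d * k) * B ^ 2) * (27 * (2 * x * m) ^ 4) := by
    calc _ = (256 * a * (k * B) ^ 2) * (a * Q ^ 2) := by ring
      _ ≤ (256 * a * (k * B) ^ 2) * (2 * (m * d * e * w ^ 3)) :=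
        mul_le_mul_of_nonneg_left s1 (by positivity)
      _ = (2 * m * (d * k) * B ^ 2) * (256 * (e * a * k) * w ^ 3) := by ring
      _ ≤ _ := mul_le_mul_of_nonneg_left s2 (by positivity)
  have s6 : 0 < (16 * x ^ 2 * m ^ 4) * (16 * EE ^ 2 - 54 * (d * k) * B ^ 2 * m * x ^ 2) := by
    positivity
  nlinarith

end QN

/-- three weighted real moment equations force a constant solution -/
theorem skew2 {K : Type} [Fintype K] (δ η n : ℝ) (w h : K → ℝ) (hw : ∀ c, w c = 0 ∨ 1 / 2 ≤ w c)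
    (hn : ∑ c, w c = n) (hδ : δ ^ 2 = (2 * n + 1) * (δ + 1))
    (h1 : 1 ≤ n ∨ ∑ c, w c * h c = n * η)
    (e1 : 1 + (δ + 1) * (1 + η) + (δ + 2) * ∑ c, w c * h c + δ * (n + 2) * η = 0)
    (e2 : 1 + (δ + 1) * (1 + η) ^ 2 + (δ + 2) * ∑ c, w c * h c ^ 2 + δ * (n + 2) * η ^ 2 = δ + 1)
    (e3 : 1 + (δ + 1) * (1 + η) ^ 3 + (δ + 2) * ∑ c, w c * h c ^ 3 +
      δ * (n + 2) * η ^ 3 = (δ + 1) * (1 + η) ^ 2) :
    δ * η = -1 ∧ ∀ c, w c ≠ 0 → h c = η := by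
  have w0 : ∀ c, 0 ≤ w c := fun c => (hw c).elim (fun e => e.ge) fun e => by linarith
  have n0 : 0 ≤ n := hn ▸ Finset.sum_nonneg fun c _ => w0 c
  have sum : ∀ a b : ℝ,
      (∑ c, w c * (a * h c + b) ^ 2 =
        a ^ 2 * ∑ c, w c * h c ^ 2 + 2 * a * b * ∑ c, w c * h c + n * b ^ 2) ∧
      (∑ c, w c * (a * h c + b) ^ 3 = a ^ 3 * ∑ c, w c * h c ^ 3 +
        3 * a ^ 2 * b * ∑ c, w c * h c ^ 2 + 3 * a * b ^ 2 * ∑ c, w c * h c + n * b ^ 3) :=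
    fun a b => by
      simp only [← hn, Finset.mul_sum, Finset.sum_mul, ← Finset.sum_add_distrib]
      exact ⟨Finset.sum_congr rfl fun c _ => by ring, Finset.sum_congr rfl fun c _ => by ring⟩
  have d0 : δ ≠ 0 := fun h0 => by rw [h0] at hδ; nlinarith
  have d1 : δ + 1 ≠ 0 := fun h0 =>
    d0 (by rw [h0, mul_zero] at hδ; exact pow_eq_zero_iff two_ne_zero |>.1 hδ)
  have d2 : δ + 2 ≠ 0 := fun h0 => by
    rw [show δ = -2 by linarith] at hδ; nlinarith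
  obtain ⟨ε, hε⟩ : ∃ ε, ε = ∑ c, w c * h c - n * η := ⟨_, rfl⟩
  have a1 : δ * η = -1 - ε := by
    have : (δ + 2) * (δ * η - (-1 - ε)) = 0 := by rw [hε]; linear_combination e1 + η * hδ
    linarith [(mul_eq_zero.1 this).resolve_left d2]
  have b0 : n = (δ ^ 2 - δ - 1) / (2 * (δ + 1)) := by field_simp; linear_combination -hδ
  have b1 : η = (-1 - ε) / δ := by field_simp; linear_combination a1
  have b2 : ∑ c, w c * h c = ε + n * η := by rw [hε]; ring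
  have b3 : ∑ c, w c * h c ^ 2 =
      (δ - (δ + 1) * (1 + η) ^ 2 - δ * (n + 2) * η ^ 2) / (δ + 2) := by
    field_simp; linear_combination e2
  have b4 : ∑ c, w c * h c ^ 3 = ((δ + 1) * (1 + η) ^ 2 - 1 - (δ + 1) * (1 + η) ^ 3 -
      δ * (n + 2) * η ^ 3) / (δ + 2) := by
    field_simp; linear_combination e3
  have z : ε = 0 := by
    by_contra he
    have n1 : 1 ≤ n := h1.resolve_right fun e => he (by rw [hε, e, sub_self])
    have x0 : 0 < δ + 1 := by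
      by_contra hx
      have : 0 < δ ^ 2 := by positivity
      nlinarith
    have hr : 7 / 2 ≤ δ ∨ (-1 < δ ∧ δ ≤ -3 / 4) := by
      by_contra hc
      push Not at hc
      have := hc.2 (by linarith)
      nlinarith [hc.1]
    obtain ⟨c2, c3⟩ := sum (δ ^ 2 - δ - 1) (-(δ ^ 2 - δ - 1) * η - 2 * (δ + 1) * ε)
    refine QN.no2 δ ε _ _ hr he (by nlinarith) ?_ ?_ (QN.cube_le2 w (fun c =>
      (δ ^ 2 - δ - 1) * h c + (-(δ ^ 2 - δ - 1) * η - 2 * (δ + 1) * ε)) hw)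
    · rw [c2, b3, b2, b1, b0]; field_simp; ring
    · rw [c3, b4, b3, b2, b1, b0]; field_simp; ring
  refine ⟨by rw [a1, z]; ring, fun c hc => ?_⟩
  have c2 := (sum 1 (-η)).1
  have : ∑ c, w c * (1 * h c + -η) ^ 2 = 0 := by
    rw [c2, b3, b2, b1, b0, z]; field_simp; ring
  have := (Finset.sum_eq_zero_iff_of_nonneg fun c _ => mul_nonneg (w0 c) (sq_nonneg _)).1 this c
    (Finset.mem_univ c)
  linarith [pow_eq_zero_iff two_ne_zero |>.1 ((mul_eq_zero.1 this).resolve_left hc)]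

variable {C : Type u} [Category.{v} C] [Preadditive C] [Linear ℂ C] [MonoidalCategory C]
  [MonoidalPreadditive C] [MonoidalLinear ℂ C] [HasFiniteBiproducts C] [BraidedCategory C]
  [RigidCategory C] {I : Type} [Fintype I] [DecidableEq I]
  {M : Modular C I} {x : I} {δ : ℂ} {τ ν : I → ℕ}

open BraidedCategory in
theorem s_cup' {X : C} (P : Du X X) (Y : C) :
    P.cup (X ⊗ Y) ≫ X ◁ op (β_ X X).hom Y ≫ op (β_ X X).hom (X ⊗ Y) = X ◁ P.cup Y := by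
  unfold Du.cup op
  calc _ = 𝟙 _ ⊗≫ (P.η ▷ X ≫ (β_ (X ⊗ X) X).hom) ▷ Y ⊗≫ 𝟙 _ := by
        rw [braiding_tensor_left_hom]; monoidal
    _ = _ := by rw [braiding_naturality_left, braiding_tensorUnit_left]; monoidal

theorem oo_braid {X : C} (P : Du X X) (Y : C) :
    P.oo Y ≫ op (β_ X X).hom (X ⊗ X ⊗ Y) = P.oo Y ≫ X ◁ X ◁ op (β_ X X).hom Y := by
  have : IsIso (op (β_ X X).hom (X ⊗ Y)) := by unfold op; infer_instance
  have a := congrArg (fun t => X ◁ t) (s_cup' P Y)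
  simp only [MonoidalCategory.whiskerLeft_comp] at a
  rw [← cancel_mono (X ◁ op (β_ X X).hom (X ⊗ Y))]
  unfold Du.oo
  simp only [Category.assoc]
  rw [s_cup, a, P.cup_nat]

/-- the summands of a multiplicity free square are self dual -/
theorem Sq0.sd {s : Finset I} (Q : Sq0 M (M.X x ⊗ M.X x) s) (P : Du (M.X x) (M.X x))
    (hT : M.T x = 1) : ∀ k ∈ s, ∀ l ∈ s, k ≠ l → M.N k l M.o = 0 := by
  have tw : (M.tw.t (M.X x)).hom = 𝟙 _ := by rw [M.tw_X, hT, one_smul]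
  generalize M.X x = X at Q P tw
  have com : ∀ g h : X ⊗ X ⟶ X ⊗ X, g ≫ h = h ≫ g := fun g h => by
    obtain ⟨a, rfl⟩ := Q.Φ_surj g
    obtain ⟨b, rfl⟩ := Q.Φ_surj h
    rw [← Q.Φ_mul, mul_comm, Q.Φ_mul]
  have s1 : ∀ t : 𝟙_ C ⟶ X ⊗ X ⊗ X ⊗ X ⊗ 𝟙_ C, t ≫ op (β_ X X).hom (X ⊗ X ⊗ 𝟙_ C) =
      t ≫ X ◁ X ◁ op (β_ X X).hom (𝟙_ C) := fun t => by
    obtain ⟨g, rfl⟩ : ∃ g, t = P.oo (𝟙_ C) ≫ X ◁ X ◁ op g (𝟙_ C) :=
      ⟨X ◁ (ρ_ X).inv ≫ (X ◁ X ◁ t ≫ P.oo' _) ≫ X ◁ (ρ_ X).hom, by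
        rw [op_unit', MonoidalCategory.whiskerLeft_comp, MonoidalCategory.whiskerLeft_comp,
          ← reassoc_of% P.oo_nat t, P.zz3, Category.comp_id]⟩
    rw [Category.assoc, op_nat, reassoc_of% oo_braid P, Category.assoc,
      wl2 (wl2 ((op_comp _ _ _).symm.trans ((congrArg (op · _) (com _ g)).trans (op_comp _ _ _))))]
  have dd : ∀ t : 𝟙_ C ⟶ X ⊗ X ⊗ X ⊗ X ⊗ 𝟙_ C, t ≫ dl X (𝟙_ C) ≫ dl X (𝟙_ C) = t := fun t => by
    conv_rhs => rw [← M.vec_bb tw P t, ← dl_bb]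
    have a := s1 (t ≫ dl X (𝟙_ C))
    have b := s1 (t ≫ dl X (𝟙_ C) ≫ X ◁ X ◁ op (β_ _ _).hom (𝟙_ C) ≫
      X ◁ op (β_ X X).hom (X ⊗ 𝟙_ C))
    simp only [Category.assoc] at a b
    rw [b, ← reassoc_of% a]
    rfl
  have st : ∀ (g : X ⊗ X ⟶ X ⊗ X) (t : 𝟙_ C ⟶ (X ⊗ X) ⊗ X ⊗ X),
      t ≫ g ▷ (X ⊗ X) = t ≫ (X ⊗ X) ◁ g := fun g t => by
    have e := dd ((t ⊗≫ 𝟙 _) ≫ X ◁ X ◁ op g (𝟙_ C))
    rw [Category.assoc, reassoc_of% dl_34 g, dl_23, reassoc_of% dd (t ⊗≫ 𝟙 _)] at e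
    calc _ = ((t ⊗≫ 𝟙 (X ⊗ X ⊗ X ⊗ X ⊗ 𝟙_ C)) ≫ op g (X ⊗ X ⊗ 𝟙_ C)) ⊗≫ 𝟙 _ := by
          unfold op; monoidal
      _ = _ := by rw [e]; unfold op; monoidal
  intro k hk l hl n
  have := M.ss.finite
  refine finrank_zero_iff_forall_zero.2 fun w => ?_
  have e := st (Q.Φ (Pi.single k 1)) (M.unit_iso.some.hom ≫ w ≫ (Q.e k ⊗ₘ Q.e l))
  simp only [Category.assoc, tensorHom_comp_whiskerRight, tensorHom_comp_whiskerLeft, Q.Φ_to,
    Pi.single_eq_same, Pi.single_eq_of_ne n.symm, one_smul, zero_smul,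
    MonoidalPreadditive.tensor_zero, comp_zero] at e
  have e2 := congrArg (M.unit_iso.some.inv ≫ · ≫ (Q.f k ⊗ₘ Q.f l)) e
  simpa [tensorHom_comp_tensorHom, Q.ef k hk, Q.ef l hl] using e2

theorem GF.triAlg (H : GF M x δ τ ν) (Dg : Dagger C) : Nonempty (TriAlg (M.X x) δ⁻¹) := by
  classical
  have hxo := H.xo
  obtain ⟨t, ht⟩ : ∃ t : Finset I, ∀ k, k ∈ t ↔ k ≠ x ∧ M.Gr ν M.o k ∧ ν k = 1 :=
    ⟨Finset.univ.filter fun k => k ≠ x ∧ M.Gr ν M.o k ∧ ν k = 1, fun k => by simp⟩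
  have xt : x ∉ t := fun h => ((ht x).1 h).1 rfl
  have ot : M.o ∉ insert x t := fun h => by
    rcases Finset.mem_insert.1 h with h | h
    · exact hxo h.symm
    · have := ((ht _).1 h).2.2
      rw [H.ty_o.2] at this
      omega
  obtain ⟨s, hs⟩ : ∃ s, s = insert M.o (insert x t) := ⟨_, rfl⟩
  have hN : ∀ k, M.N x x k = if k ∈ s then 1 else 0 := fun k => by
    rw [H.Nxx]
    refine if_congr ?_ rfl rfl
    simp only [hs, Finset.mem_insert, ht]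
    refine or_congr_right ⟨fun h => ?_, fun h => ?_⟩
    · by_cases e : k = x
      · exact Or.inl e
      · exact Or.inr ⟨e, h⟩
    · rcases h with rfl | h
      · exact ⟨H.Gr_x, H.ty_x.2⟩
      · exact h.2
  have ho : M.o ∈ s := by simp [hs]
  have hx : x ∈ s := by simp [hs]
  have hts : ∀ k ∈ t, k ∈ s := fun k hk => by simp [hs, hk]
  obtain ⟨n, n1, n2, hδ⟩ := H.quad
  simp only [hN, ite_mul, one_mul, zero_mul, Finset.sum_ite_mem, Finset.univ_inter] at n1 n2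
  rw [hs, Finset.sum_insert ot, Finset.sum_insert xt] at n1 n2
  rw [H.ty_o.1, H.ty_x.1] at n1
  rw [H.ty_o.2, H.ty_x.2, Finset.sum_congr rfl (g := fun _ => 1) fun k hk => ((ht k).1 hk).2.2,
    Finset.sum_const, smul_eq_mul, mul_one] at n2
  obtain ⟨Q⟩ := M.exists_sq0 s hN
  obtain ⟨P⟩ := M.selfdu' x ((hN _).trans (if_pos ho))
  obtain ⟨r, hr⟩ := Q.Φ_surj (β_ (M.X x) (M.X x)).hom
  let K : Cx M x s := ⟨Q, P, r, ho, hx, hxo, H.T, Q.sd P H.T, hr⟩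
  obtain ⟨h, hh⟩ := K.Q.Φ_surj K.H
  have h0 := K.h_o hh
  have vn := fun {k b : I} => H.van (fun k => if k ∈ s then h k else 0)
    (fun j hj => K.van hh (H.nb j hj)) (k := k) (b := b)
  have hB : ∀ b, τ b = 0 → M.Gr ν M.o b → b ∈ s ∧ h b = h x - 1 := fun b hb g => by
    have bs : b ∈ s := hts b ((ht b).2 ⟨fun e => by have := H.ty_x.1; rw [← e] at this; omega, g,
      by have := H.ty b; omega⟩)
    have := vn H.ty_o.2 hb g
    simp only [H.act_o, if_pos hx, if_pos ho, if_pos bs, h0] at this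
    exact ⟨bs, by rw [this]; ring⟩
  have h1 : ∀ k ∈ t, τ k ≠ 2 → h k = h x - 1 := fun k hk h2 => by
    obtain ⟨a1, a2, a3⟩ := (ht k).1 hk
    by_cases h3 : τ k = 0
    · exact (hB k h3 a2).2
    · obtain ⟨j, hj, rfl⟩ := H.V_ex (c := k) (by have := H.ty k; omega) a3
      obtain ⟨b, hb, g⟩ := H.ex_B (y := M.o) (by rw [H.ty_o.1]; exact one_ne_zero)
      have := vn hj hb fun i hi => by rw [← H.ch_kx hj hi, ← a2 i hi, g i hi]
      have js : j ∉ s := fun e => by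
        simp only [hs, Finset.mem_insert, ht] at e
        rcases e with rfl | rfl | e
        · exact a1 (H.act_o x)
        · have := H.ty_x.2; omega
        · omega
      simp only [if_pos (hts _ hk), if_neg js, if_pos (hB b hb g).1, zero_add] at this
      exact this.trans (hB b hb g).2
  obtain ⟨m, hm⟩ : ∃ m, m = ∑ k ∈ t, τ k := ⟨_, rfl⟩
  have hm' : ∑ c : t, (τ c : ℝ) / 2 = m / 2 := by
    rw [← Finset.sum_div, Finset.sum_coe_sort t fun c => (τ c : ℝ), hm, Nat.cast_sum]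
  have split : ∀ i : ℕ, ∑ k ∈ s, M.dim k * h k ^ i = 1 + (δ + 1) * h x ^ i +
      (δ + 2) * ∑ c : t, (τ c : ℂ) / 2 * h c ^ i + δ * (m / 2 + 2) * (h x - 1) ^ i := fun i => by
    rw [hs, Finset.sum_insert ot, Finset.sum_insert xt, M.dim_o, h0, H.dx,
      Finset.sum_congr rfl (g := fun k => (δ + 2) * ((τ k : ℂ) / 2 * h k ^ i) +
        (δ * (h x - 1) ^ i - τ k * (δ / 2 * (h x - 1) ^ i))) fun k hk => by
          rw [H.d, ((ht k).1 hk).2.2]
          by_cases e : τ k = 2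
          · rw [e]; push_cast; ring
          · rw [h1 k hk e]; push_cast; ring,
      Finset.sum_add_distrib, Finset.sum_sub_distrib, ← Finset.mul_sum, Finset.sum_const,
      ← Finset.sum_mul, Finset.sum_coe_sort t fun k => (τ k : ℂ) / 2 * h k ^ i, ← Nat.cast_sum,
      ← hm, show t.card = m + 2 by omega, nsmul_eq_mul]
    push_cast
    ring
  have e1 := split 1
  have e2 := split 2
  have e3 := split 3
  simp only [pow_one] at e1
  rw [K.m1 hh] at e1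
  rw [K.m2 hh, H.dx] at e2
  rw [K.m3 hh, H.dx] at e3
  obtain ⟨d, rfl, -⟩ := H.ex_real
  obtain ⟨η, hη⟩ : ∃ η : ℝ, h x = 1 + η := ⟨(h x).re - 1, by
    push_cast
    rw [Complex.conj_eq_iff_re.1 (K.real hh Dg hx)]; ring⟩
  obtain ⟨g, hg⟩ : ∃ g : t → ℝ, ∀ c : t, h c = g c := ⟨fun c => (h c).re, fun c =>
    (Complex.conj_eq_iff_re.1 (K.real hh Dg (hts _ c.2))).symm⟩
  simp only [hg, hη, add_sub_cancel_left] at e1 e2 e3
  have h1' : ∀ c : t, τ c ≠ 2 → g c = η := fun c e => by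
    have := h1 c c.2 e
    rw [hg, hη, add_sub_cancel_left] at this
    exact_mod_cast this
  obtain rfl : n = m + 1 := by omega
  obtain ⟨a1, a2⟩ := skew2 d η (m / 2) (fun c : t => (τ c : ℝ) / 2) g
    (fun c => by
      rcases Nat.eq_zero_or_pos (τ c) with e | e
      · simp [e]
      · have : (1 : ℝ) ≤ τ c := by exact_mod_cast e
        exact Or.inr (by linarith)) hm'
    (by have : d ^ 2 = (m + 1) * (d + 1) := by exact_mod_cast hδ
        rw [this]; ring)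
    (by
      by_cases e : ∀ c : t, τ c ≠ 2
      · exact Or.inr (by simp only [h1' _ (e _), ← Finset.sum_mul, hm'])
      · push Not at e
        obtain ⟨c, hc⟩ := e
        have : τ c ≤ m := hm ▸ Finset.single_le_sum (f := τ) (fun _ _ => Nat.zero_le _) c.2
        have : (2 : ℝ) ≤ m := by exact_mod_cast hc ▸ this
        exact Or.inl (by linarith))
    (Complex.ofReal_injective (by push_cast; exact e1.symm))
    (Complex.ofReal_injective (by push_cast; exact e2.symm))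
    (Complex.ofReal_injective (by push_cast; exact e3.symm))
  have a3 : (d : ℂ) * η = -1 := by exact_mod_cast a1
  have d0 : (d : ℂ) ≠ 0 := H.ne0
  have a4 : (η : ℂ) = -(d : ℂ)⁻¹ := by field_simp; linear_combination a3
  have hz : K.H + (d : ℂ)⁻¹ • 𝟙 _ = K.Q.Φ (Pi.single x 1) + (d : ℂ)⁻¹ • (K.P.ε ≫ K.P.η) := by
    rw [← hh, ← K.Q.Φ_one, ← K.Φ_cc, ← map_smul, ← map_smul, ← map_add, ← map_add]
    refine K.Q.Φ_congr fun k hk => ?_
    simp only [hs, Finset.mem_insert] at hk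
    simp only [Pi.add_apply, Pi.smul_apply, smul_eq_mul, Pi.one_apply]
    rcases hk with rfl | rfl | hk
    · rw [h0, Pi.single_eq_of_ne hxo.symm, Pi.single_eq_same, H.dx]; field_simp; ring
    · rw [hη, a4, Pi.single_eq_of_ne hxo, Pi.single_eq_same]; ring
    · have e : g ⟨k, hk⟩ = η := by
        by_cases e : τ k = 2
        · exact a2 _ (by simp [e])
        · exact h1' _ e
      rw [hg ⟨k, hk⟩, e, a4, Pi.single_eq_of_ne fun e : k = x => xt (e ▸ hk),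
        Pi.single_eq_of_ne fun e : k = M.o => ot (e ▸ Finset.mem_insert_of_mem hk)]; ring
  refine K.alg _ (K.r_x hh (fun e => ?_) hz) hz
  rw [hη, a4] at e
  have d2 : (d : ℂ) = 2 := by field_simp at e; linear_combination e
  rw [d2] at hδ
  have : ((4 : ℕ) : ℂ) = (((m + 1) * 3 : ℕ) : ℂ) := by push_cast at hδ ⊢; linear_combination hδ
  have := Nat.cast_injective (R := ℂ) this
  omega

theorem GF.etale (H : GF M x δ τ ν) (Dg : Dagger C) : ∃ L : C, Nonempty (Etale M L) ∧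
    ∀ k, Module.finrank ℂ (M.X k ⟶ L) = if k = M.o ∨ k = x then 1 else 0 := by
  obtain ⟨T⟩ := H.triAlg Dg
  exact T.etale M _ H.xo H.T (inv_ne_zero H.ne0) fun h => H.ne2 (by
    rw [H.dx] at h; linear_combination h)

end Pool.Agent.Lib.MP_edb142_al
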