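import Pool.Agent.Lib.MP_edb142_al.H.G4

open CategoryTheory MonoidalCategory Limits BraidedCategory Module Idempotents
open Functor.LaxMonoidal Functor.OplaxMonoidal

set_option linter.unusedSectionVars false

namespace Pool.Agent.Lib.MP_edb142_al

universe v u v' u'

namespace K3

variable {C : Type u} [Category.{v} C] [Preadditive C] [Linear ℂ C] [MonoidalCategory C]
  [MonoidalPreadditive C] [MonoidalLinear ℂ C] [HasFiniteBiproducts C] [BraidedCategory C]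
  [RigidCategory C] {I : Type} [Fintype I] [DecidableEq I]
  {D : Type u'} [Category.{v'} D] [Preadditive D] [Linear ℂ D] [MonoidalCategory D]
  [MonoidalPreadditive D] [MonoidalLinear ℂ D]
  {F : C ⥤ D} [F.Monoidal] [F.Additive] [F.Linear ℂ] (M : Modular C I)

variable (F) in
/-- all labels of `P` have twist `t` -/
def Hg (P : D) (t : ℂ) : Prop := ∀ k, rk M F k P ≠ 0 → M.T k = t

theorem loc' {A : C} (h : Ifc F A) {P : D} {t : ℂ} (hP : Hg F M P t) {Y : C}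
    (y : F.obj Y ⟶ P) : F.map (M.tw.t Y).hom ≫ y = t • y := by
  refine ext_map M fun k w => ?_
  by_cases h0 : rk M F k P = 0
  · exact (h.zero_of_rank h0 M _).trans (h.zero_of_rank h0 M _).symm
  · rw [← F.map_comp_assoc, M.tw.nat, M.tw_X, hP k h0]
    simp

theorem c0_c0' {A : C} (h : Ifc F A) {Y Z : C} {P Q : D} (y : F.obj Y ⟶ P) (z : F.obj Z ⟶ Q)
    {p q t : ℂ} (hP : Hg F M P p) (hQ : Hg F M Q q) (hT : Hg F M (P ⊗ Q) t) (p0 : p ≠ 0)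
    (q0 : q ≠ 0) : c0 F Y Z ≫ c0 F Z Y ≫ (y ⊗ₘ z) = (t / (p * q)) • (y ⊗ₘ z) := by
  have h1 := loc' M h hT (δ F Y Z ≫ (y ⊗ₘ z))
  rw [M.tw.tens, F.map_comp, F.map_comp, Category.assoc, Category.assoc, ← δ_natural_assoc,
    tensorHom_comp_tensorHom, loc' M h hP, loc' M h hQ] at h1
  have e : (p • y) ⊗ₘ (q • z) = (p * q) • (y ⊗ₘ z) := by
    simp [MonoidalCategory.tensorHom_def, smul_smul, mul_comm]
  rw [e] at h1
  simp only [Linear.comp_smul] at h1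
  refine smul_right_injective _ (mul_ne_zero p0 q0) ?_
  unfold c0
  simp only [Category.assoc, Functor.Monoidal.δ_μ_assoc]
  rw [← Linear.comp_smul, h1, smul_smul, mul_div_cancel₀ _ (mul_ne_zero p0 q0), Linear.comp_smul,
    Functor.Monoidal.μ_δ_assoc]

theorem Ifc.ex_br' {A : C} (h : Ifc F A) {P Q : D} {p q t : ℂ} (hP : Hg F M P p) (hQ : Hg F M Q q)
    (hT : Hg F M (Q ⊗ P) t) (p0 : p ≠ 0) (q0 : q ≠ 0) :
    ∃ γ : P ⊗ Q ⟶ Q ⊗ P, ∀ (Y Z : C) (y : F.obj Y ⟶ P) (z : F.obj Z ⟶ Q), Br F y z γ := by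
  obtain ⟨Y0, i, r, hp⟩ := h.gen P
  obtain ⟨Z0, j, s, hq⟩ := h.gen Q
  have c := fun (Y Z : C) (y : F.obj Y ⟶ P) (z : F.obj Z ⟶ Q) => c0_c0' M h z y hQ hP hT q0 p0
  have iso : ∀ Y Z : C, IsIso (c0 F Y Z) := fun Y Z => by unfold c0; infer_instance
  have nl : ∀ (Y Z : C) (y : F.obj Y ⟶ P) (z : F.obj Z ⟶ Q),
      c0 F Y Z ≫ (z ⊗ₘ y) = (y ≫ i) ▷ F.obj Z ≫ c0 F Y0 Z ≫ (z ⊗ₘ r) := fun Y Z y z => by
    rw [← cancel_epi (c0 F Z Y), c, ← reassoc_of% h.nat Z Y Y0 (y ≫ i), c, Linear.comp_smul,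
      whiskerLeft_comp_tensorHom, Category.assoc, hp, Category.comp_id]
  refine ⟨(i ⊗ₘ j) ≫ c0 F Y0 Z0 ≫ (s ⊗ₘ r), fun Y Z y z => ?_⟩
  unfold Br
  rw [nl, tensorHom_comp_tensorHom_assoc, MonoidalCategory.tensorHom_def (y ≫ i), Category.assoc,
    reassoc_of% h.nat Y0 Z Z0 (z ≫ j), whiskerRight_comp_tensorHom, Category.assoc, hq,
    Category.comp_id]

theorem Ifc.br2 {A : C} (h : Ifc F A) {P Q : D} {p q t t' : ℂ} (hP : Hg F M P p) (hQ : Hg F M Q q)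
    (hT : Hg F M (P ⊗ Q) t) (hT' : Hg F M (Q ⊗ P) t') (p0 : p ≠ 0) (q0 : q ≠ 0) :
    ∃ (γ : P ⊗ Q ⟶ Q ⊗ P) (γ' : Q ⊗ P ⟶ P ⊗ Q),
      (∀ (Y Z : C) (y : F.obj Y ⟶ P) (z : F.obj Z ⟶ Q), Br F y z γ) ∧
      (∀ (Z Y : C) (z : F.obj Z ⟶ Q) (y : F.obj Y ⟶ P), Br F z y γ') ∧
      γ ≫ γ' = (t / (p * q)) • 𝟙 _ := by
  obtain ⟨γ, a⟩ := h.ex_br' M hP hQ hT' p0 q0
  obtain ⟨γ', b⟩ := h.ex_br' M hQ hP hT q0 p0
  refine ⟨γ, γ', a, b, h.ext2 fun Y Z y z => ?_⟩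
  unfold Br at a b
  rw [← reassoc_of% a, ← b, c0_c0' M h y z hP hQ hT p0 q0, Linear.comp_smul, Category.comp_id]

@[reassoc] theorem c0_hex' (Y Y' Z : C) : c0 F (Y ⊗ Y') Z ≫ F.obj Z ◁ δ F Y Y' =
    δ F Y Y' ▷ F.obj Z ≫ (α_ _ _ _).hom ≫ F.obj Y ◁ c0 F Y' Z ≫ (α_ _ _ _).inv ≫
      c0 F Y Z ▷ F.obj Y' ≫ (α_ _ _ _).hom := by
  unfold c0
  rw [braiding_tensor_left_hom]
  simp only [Functor.map_comp, Functor.Monoidal.map_whiskerLeft,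
    Functor.Monoidal.map_whiskerRight, Functor.Monoidal.map_associator_inv,
    Functor.Monoidal.map_associator, Category.assoc, Functor.Monoidal.μ_δ_assoc,
    comp_whiskerRight, MonoidalCategory.whiskerLeft_comp, Functor.Monoidal.whiskerLeft_μ_δ,
    Category.comp_id]

theorem Br.tensor' {Y Y' Z : C} {P P' Q : D} {y : F.obj Y ⟶ P} {y' : F.obj Y' ⟶ P'}
    {z : F.obj Z ⟶ Q} {γ : P ⊗ Q ⟶ Q ⊗ P} {γ' : P' ⊗ Q ⟶ Q ⊗ P'} (b : Br F y z γ)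
    (b' : Br F y' z γ') : Br F (δ F Y Y' ≫ (y ⊗ₘ y')) z
      ((α_ _ _ _).hom ≫ P ◁ γ' ≫ (α_ _ _ _).inv ≫ γ ▷ P' ≫ (α_ _ _ _).hom) := by
  unfold Br at b b' ⊢
  calc _ = (c0 F (Y ⊗ Y') Z ≫ F.obj Z ◁ δ F Y Y') ≫ (z ⊗ₘ (y ⊗ₘ y')) := by
        rw [Category.assoc, whiskerLeft_comp_tensorHom]
    _ = δ F Y Y' ▷ F.obj Z ≫ (α_ _ _ _).hom ≫ F.obj Y ◁ c0 F Y' Z ≫ (α_ _ _ _).inv ≫
        ((c0 F Y Z ≫ (z ⊗ₘ y)) ⊗ₘ y') ≫ (α_ _ _ _).hom := by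
      rw [c0_hex', ← whiskerRight_comp_tensorHom]
      simp only [Category.assoc, associator_naturality]
    _ = δ F Y Y' ▷ F.obj Z ≫ (α_ _ _ _).hom ≫ (y ⊗ₘ (c0 F Y' Z ≫ (z ⊗ₘ y'))) ≫ (α_ _ _ _).inv ≫
        γ ▷ P' ≫ (α_ _ _ _).hom := by
      rw [b, ← tensorHom_comp_whiskerRight, ← whiskerLeft_comp_tensorHom]
      simp only [Category.assoc, associator_inv_naturality_assoc]
    _ = _ := by
      rw [b', ← tensorHom_comp_whiskerLeft, ← whiskerRight_comp_tensorHom]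
      simp only [Category.assoc, associator_naturality_assoc]

/-- the monodromy is multiplicative -/
theorem Ifc.bimul {A : C} (h : Ifc F A) {X Y Z : D} {a b c ab ba ac ca bc t t' : ℂ}
    (hX : Hg F M X a) (hY : Hg F M Y b) (hZ : Hg F M Z c) (hXY : Hg F M (X ⊗ Y) ab)
    (hYX : Hg F M (Y ⊗ X) ba) (hXZ : Hg F M (X ⊗ Z) ac) (hZX : Hg F M (Z ⊗ X) ca)
    (hYZ : Hg F M (Y ⊗ Z) bc) (hT : Hg F M (X ⊗ Y ⊗ Z) t) (hT' : Hg F M ((Y ⊗ Z) ⊗ X) t')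
    (a0 : a ≠ 0) (b0 : b ≠ 0) (c0 : c ≠ 0) (bc0 : bc ≠ 0) (n : 𝟙 (X ⊗ Y ⊗ Z) ≠ 0) :
    t / (a * bc) = ab / (a * b) * (ac / (a * c)) := by
  obtain ⟨γ1, γ1', p1, q1, r1⟩ := h.br2 M hX hY hXY hYX a0 b0
  obtain ⟨γ2, γ2', p2, q2, r2⟩ := h.br2 M hX hZ hXZ hZX a0 c0
  obtain ⟨γ3, γ3', p3, q3, r3⟩ := h.br2 M hX hYZ hT hT' a0 bc0
  obtain ⟨U, i, p, hp⟩ := h.gen X
  obtain ⟨V, j, q, hq⟩ := h.gen Y
  obtain ⟨W, k, r, hr⟩ := h.gen Z
  have e := congrArg ((i ⊗ₘ ((j ⊗ₘ k) ≫ μ F V W)) ≫ ·)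
    ((p3 U _ p (δ F V W ≫ (q ⊗ₘ r))).symm.trans (Br.tensor (p1 U V p q) (p2 U W p r)))
  have e' := congrArg ((((j ⊗ₘ k) ≫ μ F V W) ⊗ₘ i) ≫ ·)
    ((q3 _ U (δ F V W ≫ (q ⊗ₘ r)) p).symm.trans (Br.tensor' (q1 V U q p) (q2 W U r p)))
  simp only [tensorHom_comp_tensorHom_assoc, Category.assoc, Functor.Monoidal.μ_δ_assoc,
    tensorHom_comp_tensorHom, hp, hq, hr, id_tensorHom_id, Category.id_comp] at e e'
  rw [e, e'] at r3
  simp only [Category.assoc, Iso.inv_hom_id_assoc] at r3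
  rw [← MonoidalCategory.whiskerLeft_comp_assoc, r2, MonoidalLinear.whiskerLeft_smul,
    MonoidalCategory.whiskerLeft_id] at r3
  simp only [Linear.smul_comp, Linear.comp_smul, Category.id_comp, Iso.hom_inv_id_assoc] at r3
  rw [← comp_whiskerRight_assoc, r1, MonoidalLinear.smul_whiskerRight, id_whiskerRight] at r3
  simp only [Linear.smul_comp, Linear.comp_smul, Category.id_comp, Iso.inv_hom_id,
    smul_smul] at r3
  rw [← smul_left_injective ℂ n r3, mul_comm]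

/-- the graded algebra, read in the ambient category -/
theorem Ifc.alg' {A : C} (h : Ifc F A) {Λ : Type} [AddCommGroup Λ] [Fintype Λ]
    (Q : Λ → D) (hQ : Fam Q) (hs : ∀ a (γ : Q a ⊗ Q a ⟶ Q a ⊗ Q a),
      (∀ (Y Z : C) (y : F.obj Y ⟶ Q a) (z : F.obj Z ⟶ Q a), Br F y z γ) → γ = 𝟙 _)
    (hT : ∀ a k, rk M F k (Q a) ≠ 0 → M.T k = 1) :
    ∃ (u : 𝟙_ D ≅ Q 0) (m : ∀ a b c, a + b = c → (Q a ⊗ Q b ≅ Q c)),
      (∀ a, u.hom ▷ Q a ≫ (m 0 a a (zero_add a)).hom = (λ_ (Q a)).hom) ∧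
      (∀ a b c d e f (h1 : a + b = d) (h2 : d + c = f) (h3 : b + c = e) (h4 : a + e = f),
        (m a b d h1).hom ▷ Q c ≫ (m d c f h2).hom =
          (α_ (Q a) (Q b) (Q c)).hom ≫ Q a ◁ (m b c e h3).hom ≫ (m a e f h4).hom) ∧
      ∀ a b c (h1 : a + b = c) (h2 : b + a = c) (Y Z : C) (y : F.obj Y ⟶ Q a)
        (z : F.obj Z ⟶ Q b),
        c0 F Y Z ≫ (z ⊗ₘ y) ≫ (m b a c h2).hom = (y ⊗ₘ z) ≫ (m a b c h1).hom := by
  let S : ObjectProperty D := fun X => ∃ a, Nonempty (X ≅ Q a)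
  have : S.IsMonoidal :=
    { prop_unit := ⟨0, hQ.unit⟩
      prop_tensor := fun X Y ⟨a, ⟨φ⟩⟩ ⟨b, ⟨ψ⟩⟩ => ⟨a + b, ⟨(φ ⊗ᵢ ψ) ≪≫ (hQ.mul a b).some⟩⟩ }
  have lc : ∀ X : S.FullSubcategory, ∀ k, rk M F k X.obj ≠ 0 → M.T k = 1 :=
    fun ⟨X, a, ⟨φ⟩⟩ k hk => hT a k (by rwa [← rk_iso M k φ])
  choose γ hγ using fun X Y : S.FullSubcategory => h.ex_br M (lc X) (lc Y) (lc (Y ⊗ X))
  unfold Br at hγ
  let _ := symS S γ
    (fun X Y Z f => h.ext2 fun U V y z => by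
      rw [tensorHom_comp_whiskerRight_assoc, ← hγ, ← reassoc_of% hγ, tensorHom_comp_whiskerLeft])
    (fun X Y Z f => h.ext2 fun U V y z => by
      rw [tensorHom_comp_whiskerLeft_assoc, ← hγ, ← reassoc_of% hγ, tensorHom_comp_whiskerRight])
    (fun X Y => h.ext2 fun U V y z => by
      rw [← reassoc_of% hγ, ← hγ]
      simpa only [Category.comp_id] using c0_c0 M h (lc X) (lc Y) (lc (X ⊗ Y)) (𝟙 _))
    (fun X Y Z => by
      obtain ⟨U, i, p, hp⟩ := h.gen X.obj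
      obtain ⟨V, j, q, hq⟩ := h.gen Y.obj
      obtain ⟨W, k, r, hr⟩ := h.gen Z.obj
      have e := (hγ X (Y ⊗ Z) U _ p (δ F V W ≫ (q ⊗ₘ r))).symm.trans
        (Br.tensor (hγ X Y U V p q) (hγ X Z U W p r))
      have e2 := congrArg ((i ⊗ₘ ((j ⊗ₘ k) ≫ μ F V W)) ≫ ·) e
      simpa only [tensorHom_comp_tensorHom_assoc, Category.assoc, Functor.Monoidal.μ_δ_assoc,
        tensorHom_comp_tensorHom, hp, hq, hr, id_tensorHom_id, Category.id_comp] using e2)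
  let Q' : Λ → S.FullSubcategory := fun a => ⟨Q a, a, ⟨Iso.refl _⟩⟩
  obtain ⟨G⟩ := QG.all (Q := Q') ⟨S.isoMk hQ.unit.some⟩ (fun a b => ⟨S.isoMk (hQ.mul a b).some⟩)
    fun a => ObjectProperty.hom_ext _ (hs a _ (hγ (Q' a) (Q' a)))
  refine ⟨S.ι.mapIso G.u, fun a b c e => S.ι.mapIso (G.μ a b c e),
    fun a => congrArg (·.hom) (G.one a),
    fun a b c d e f h1 h2 h3 h4 => congrArg (·.hom) (G.assoc a b c d e f h1 h2 h3 h4),
    fun a b c h1 h2 Y Z y z => ?_⟩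
  have e : γ (Q' a) (Q' b) ≫ (G.μ b a c h2).hom.hom = (G.μ a b c h1).hom.hom :=
    congrArg (·.hom) (G.comm a b c h1 h2)
  exact ((reassoc_of% hγ (Q' a) (Q' b) Y Z y z) _).trans (congrArg (_ ≫ ·) e)

theorem Ifc.extend' [HasFiniteBiproducts D] {A : C} (h : Ifc F A) {Λ : Type} [AddCommGroup Λ]
    [Fintype Λ] (Q : Λ → D) (hQ : Fam Q) (hs : ∀ a (γ : Q a ⊗ Q a ⟶ Q a ⊗ Q a),
      (∀ (Y Z : C) (y : F.obj Y ⟶ Q a) (z : F.obj Z ⟶ Q a), Br F y z γ) → γ = 𝟙 _)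
    (hT : ∀ a k, rk M F k (Q a) ≠ 0 → M.T k = 1)
    (hd : ∑ a, ∑ k, (rk M F k (Q a) : ℂ) * M.dim k ≠ 0) :
    ∃ L, Nonempty (Etale M L) ∧
      M.trL L (𝟙 L) = ∑ a, ∑ k, (rk M F k (Q a) : ℂ) * M.dim k := by
  classical
  obtain ⟨u, n, one, as, com⟩ := h.alg' M Q hQ hs hT
  have hfin := h.fin M
  let i : ∀ a, Q a ⟶ ⨁ Q := biproduct.ι Q
  let p : ∀ a, ⨁ Q ⟶ Q a := biproduct.π Q
  have tot : ∑ a, p a ≫ i a = 𝟙 (⨁ Q) := biproduct.total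
  have ip : ∀ a, i a ≫ p a = 𝟙 _ := biproduct.ι_π_self Q
  have ip' : ∀ {a b : Λ}, a ≠ b → i a ≫ p b = 0 := fun e => biproduct.ι_π_ne Q e
  have ind : ∀ a b c c' (e : a + b = c) (e' : a + b = c'),
      (n a b c e).hom ≫ i c = (n a b c' e').hom ≫ i c' := fun a b c c' e e' => by
    subst e e'; rfl
  obtain ⟨m, hm⟩ : ∃ m : (⨁ Q) ⊗ (⨁ Q) ⟶ ⨁ Q, ∀ a b c (e : a + b = c),
      (i a ⊗ₘ i b) ≫ m = (n a b c e).hom ≫ i c := by
    refine ⟨∑ a, ∑ b, (p a ⊗ₘ p b) ≫ (n a b _ rfl).hom ≫ i (a + b), fun a b c e => ?_⟩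
    simp only [Preadditive.comp_sum, tensorHom_comp_tensorHom_assoc]
    rw [Finset.sum_eq_single a, Finset.sum_eq_single b, ip, ip, id_tensorHom_id, Category.id_comp,
      ind a b _ c rfl e]
    · intro b' _ hb
      rw [ip' hb.symm, MonoidalPreadditive.tensor_zero, zero_comp]
    · simp
    · intro a' _ ha
      refine Finset.sum_eq_zero fun b' _ => ?_
      rw [ip' ha.symm, MonoidalPreadditive.zero_tensor, zero_comp]
    · simp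
  have rB : ∀ k, rk M F k (⨁ Q) = ∑ a, rk M F k (Q a) := fun k =>
    finrank_sum _ Q i p ip tot
  have dm : ∑ k, (rk M F k (⨁ Q) : ℂ) * M.dim k = ∑ a, ∑ k, (rk M F k (Q a) : ℂ) * M.dim k := by
    rw [Finset.sum_comm]
    simp only [rB, Nat.cast_sum, Finset.sum_mul]
  rw [← dm] at hd ⊢
  refine transfer M h m (u.hom ≫ i 0) (tot_ext (tot_tens (tot_tens tot tot) tot) fun t => ?_)
    (tot_ext (p := fun a => 𝟙_ D ◁ p a) (i := fun a => 𝟙_ D ◁ i a) ?_ fun a => ?_)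
    (fun Y Z y z => ?_) ?_ (fun k hk => ?_) hd fun Y y hy => ?_
  · obtain ⟨⟨a, b⟩, c⟩ := t
    rw [tensorHom_comp_whiskerRight_assoc, hm a b _ rfl, ← whiskerRight_comp_tensorHom,
      Category.assoc, hm _ c _ rfl, associator_naturality_assoc, tensorHom_comp_whiskerLeft_assoc,
      hm b c _ rfl, ← whiskerLeft_comp_tensorHom, Category.assoc, hm a _ _ (add_assoc a b c).symm,
      reassoc_of% as a b c _ _ _ rfl rfl rfl (add_assoc a b c).symm]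
  · simp only [← MonoidalCategory.whiskerLeft_comp, ← whiskerLeft_sum, tot,
      MonoidalCategory.whiskerLeft_id]
  · rw [← tensorHom_def'_assoc, ← whiskerRight_comp_tensorHom, Category.assoc,
      hm 0 a a (zero_add a), reassoc_of% one a, leftUnitor_naturality]
  · unfold Com
    rw [← Category.comp_id y, ← Category.comp_id z, ← tot]
    simp only [Preadditive.comp_sum, sum_tensor, tensor_sum, Preadditive.sum_comp]
    rw [Finset.sum_comm]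
    refine Finset.sum_congr rfl fun a _ => Finset.sum_congr rfl fun b _ => ?_
    rw [← Category.assoc y, ← Category.assoc z, ← tensorHom_comp_tensorHom,
      ← tensorHom_comp_tensorHom (y ≫ p _), Category.assoc, Category.assoc, hm _ _ _ rfl,
      hm _ _ _ (add_comm _ _), reassoc_of% com _ _ _ (add_comm _ _) rfl]
  · rw [rB, Finset.sum_eq_single 0, ← rank_unit, rank_iso' _ u, (hQ.sim 0).finrank_eq]
    · intro a _ ha
      rw [← rank_unit, rank_iso' _ u]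
      exact finrank_zero_iff_forall_zero.2 (hQ.zero 0 a ha.symm)
    · simp
  · obtain ⟨a, -, ha⟩ := Finset.exists_ne_zero_of_sum_ne_zero (rB k ▸ hk)
    exact hT a k ha
  · obtain ⟨a, ha⟩ : ∃ a, y ≫ p a ≠ 0 := by
      by_contra! h0
      exact hy (biproduct.hom_ext _ _ fun a => (h0 a).trans zero_comp.symm)
    obtain ⟨g, hg⟩ := (hQ.sim a).epi ha (h.reg _)
    have e1 : g ≫ y = i a := biproduct.hom_ext _ _ fun b => by
      by_cases hb : a = b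
      · subst hb
        exact (Category.assoc _ _ _).trans (hg.trans (ip a).symm)
      · exact (hQ.zero a b hb _).trans (hQ.zero a b hb _).symm
    exact ⟨u.hom ≫ (n a (-a) 0 (add_neg_cancel a)).inv ≫ (g ⊗ₘ i (-a)), by
      rw [Category.assoc, Category.assoc, tensorHom_comp_whiskerRight_assoc, e1,
        hm a (-a) 0 (add_neg_cancel a), Iso.inv_hom_id_assoc]⟩

end K3

variable {C : Type u} [Category.{v} C] [Preadditive C] [Linear ℂ C] [MonoidalCategory C]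
  [MonoidalPreadditive C] [MonoidalLinear ℂ C] [HasFiniteBiproducts C] [BraidedCategory C]
  [RigidCategory C] {I : Type} [Fintype I] [DecidableEq I] {M : Modular C I} {L : C}

namespace Etale
variable (E : Etale M L)

/-- the trace of a map of free modules -/
noncomputable def tr0 {Z : C} (f : E.F.obj Z ⟶ E.F.obj Z) : ℂ := M.trL Z (E.c0 (E.homF Z Z f))

theorem tr0_cyc (h0 : E.dL ≠ 0) {Z W : C} (f : E.F.obj Z ⟶ E.F.obj W) (g : E.F.obj W ⟶ E.F.obj Z) :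
    E.tr0 (f ≫ g) = E.tr0 (g ≫ f) := by
  refine mul_right_cancel₀ h0 ?_
  unfold tr0
  rw [← trL_ext, ← trL_ext, homF_comp, homF_comp, ext_ext, ext_ext, M.trL_cyc]

theorem tr0_retr {Y : C} {P : AM E} (e : E.F.obj Y ⟶ P) (s : P ⟶ E.F.obj Y) (hs : s ≫ e = 𝟙 P) :
    E.tr0 (e ≫ s) * E.dL = E.delta P := by
  unfold tr0
  rw [← trL_ext, delta_R, ← E.R.map_id, ← hs, E.R.map_comp, M.trL_cyc, ← E.R.map_comp, R_map,
    M.trL_cyc, Category.assoc, Rr_Ri, ext_p]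
  rfl

/-- an invertible local module of trivial twist braids trivially with itself -/
theorem sign {Y : C} (hY : (M.tw.t Y).hom = 𝟙 Y) {P : AM E} (e : E.F.obj Y ⟶ P)
    (s : P ⟶ E.F.obj Y) (hs : s ≫ e = 𝟙 P) (hd : E.delta P = E.dL) (h0 : E.dL ≠ 0) {c : ℂ}
    (hb : K3.Br E.F e e (c • 𝟙 _)) : c = 1 := by
  have t1 : E.tr0 (e ≫ s) = 1 := mul_right_cancel₀ h0 (by rw [E.tr0_retr e s hs, hd, _root_.one_mul])
  have gg : (e ≫ s) ≫ e ≫ s = e ≫ s := by rw [Category.assoc, reassoc_of% hs]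
  have b : K3.c0 E.F Y Y ≫ ((e ≫ s) ⊗ₘ (e ≫ s)) = c • ((e ≫ s) ⊗ₘ (e ≫ s)) := by
    unfold K3.Br at hb
    rw [← tensorHom_comp_tensorHom, reassoc_of% hb]
    simp
  generalize e ≫ s = g at t1 gg b
  have t2 : E.tr0 (δ E.F Y Y ≫ (g ⊗ₘ g) ≫ μ E.F Y Y) = E.tr0 g * E.tr0 g := by
    have : (δ E.F Y Y ≫ (g ⊗ₘ g) ≫ μ E.F Y Y).f = g.f ⊗ₘ g.f := by
      rw [Karoubi.comp_f, Karoubi.comp_f, F_δ_f, F_μ_f, Kar.th_f]
      erw [Category.id_comp, Category.comp_id]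
    unfold tr0
    rw [homF_apply, this]
    exact E.trL_c0_tensor g.f g.f
  have t3 : E.tr0 (δ E.F Y Y ≫ K3.c0 E.F Y Y ≫ E.F.obj Y ◁ g ≫ μ E.F Y Y) = E.tr0 g := by
    unfold tr0 K3.c0
    simp only [Category.assoc, Functor.Monoidal.δ_μ_assoc]
    rw [homF_map_comp, homF_wl]
    have : E.c0 ((β_ Y Y).hom ≫ Y ◁ E.homF Y Y g ≫ (α_ Y Y L).inv) =
        (β_ Y Y).hom ≫ Y ◁ E.c0 (E.homF Y Y g) := by
      unfold c0; monoidal
    rw [this, M.trL_pt (du Y)]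
    unfold Tw.pt
    rw [ptr_right]
    exact congrArg _ ((congrArg (· ≫ _) (M.tw.pt_braid (du Y) hY)).trans (Category.id_comp _))
  have t4 : E.tr0 (δ E.F Y Y ≫ (c • (g ⊗ₘ g)) ≫ μ E.F Y Y) = c * (E.tr0 g * E.tr0 g) := by
    rw [← t2]
    simp [tr0, c0]
  rw [← b, MonoidalCategory.tensorHom_def, ← reassoc_of% E.ifc.nat Y Y Y g] at t4
  have t5 := E.tr0_cyc h0 (δ E.F Y Y ≫ E.F.obj Y ◁ g ≫ μ E.F Y Y)
    (δ E.F Y Y ≫ K3.c0 E.F Y Y ≫ E.F.obj Y ◁ g ≫ μ E.F Y Y)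
  simp only [Category.assoc, Functor.Monoidal.μ_δ_assoc] at t4 t5
  rw [← MonoidalCategory.whiskerLeft_comp_assoc, gg, t3, t4, t1] at t5
  simpa using t5

end Etale

end Pool.Agent.Lib.MP_edb142_al
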