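import Pool.Agent.Lib.MP_edb142_al.H.G5

open CategoryTheory MonoidalCategory Limits BraidedCategory Module

set_option linter.unusedSectionVars false

namespace Pool.Agent.Lib.MP_edb142_al

universe v u v' u'

open K3

variable {C : Type u} [Category.{v} C] [Preadditive C] [Linear ℂ C] [MonoidalCategory C]
  [MonoidalPreadditive C] [MonoidalLinear ℂ C] [HasFiniteBiproducts C] [BraidedCategory C]
  [RigidCategory C] {I : Type} [Fintype I] [DecidableEq I]
  {D : Type u'} [Category.{v'} D] [Preadditive D] [Linear ℂ D] [MonoidalCategory D]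
  [MonoidalPreadditive D] [MonoidalLinear ℂ D]
  {F : C ⥤ D} [F.Monoidal] [F.Additive] [F.Linear ℂ] {M : Modular C I}
  {x : I} {δ : ℂ} {τ ν : I → ℕ} {A : C}

variable (F M) in
/-- the row of a module -/
noncomputable def row (T : D) (j : I) : ℂ := ∑ m, (rk M F m T : ℂ) * M.S m j

variable (F M x δ τ ν) in
/-- the list of the invertible local modules -/
structure Bas {Ω : Type} [Fintype Ω] (Ob : Ω → D) (q : Ω → ℂ) : Prop where
  sim : ∀ a, Sim (Ob a)
  uq : ∀ a b, (Ob a ≅ Ob b) → a = b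
  hg : ∀ a, Hg F M (Ob a) (q a)
  R0 : ∀ a b, τ b = 0 → row F M (Ob a) b = 0
  R1 : ∀ a k, ν k = 0 → row F M (Ob a) (M.act k x) = row F M (Ob a) k
  dim : ∀ a, row F M (Ob a) M.o = δ + 2
  cnt : ∀ j, ∑ e, rk M F j (Ob e) = τ j
  dec : ∀ j, τ j ≠ 0 → ∃ b, τ b = 0 ∧ M.Gr ν j b ∧
    (∀ T, rk M F j T = ν j * rk M F b T + ∑ e, rk M F j (Ob e) * finrank ℂ (Ob e ⟶ T)) ∧
    ∀ T l, rk M F l (F.obj (M.X j) ⊗ T) = ν j * rk M F l (F.obj (M.X b) ⊗ T) +
      ∑ e, rk M F j (Ob e) * rk M F l (Ob e ⊗ T)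

theorem row_tens (h : Ifc F A) (T : D) (j i : I) :
    row F M (F.obj (M.X j) ⊗ T) i = M.ch j i * row F M T i := by
  simp only [row, QP.rk_tens M h, Nat.cast_sum, Nat.cast_mul, Finset.sum_mul, Finset.mul_sum]
  rw [Finset.sum_comm]
  refine Finset.sum_congr rfl fun m _ => ?_
  simp only [mul_assoc, ← Finset.mul_sum, M.ver']
  ring

theorem GF.wt (H : GF M x δ τ ν) (T : D) :
    ((∑ l, rk M F l T * τ l : ℕ) : ℂ) * (δ + 2) = row F M T M.o + row F M T x := by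
  unfold row
  push_cast
  rw [Finset.sum_mul, ← Finset.sum_add_distrib]
  exact Finset.sum_congr rfl fun l _ => by rw [M.S_o', M.S_symm l, H.d, H.s]; ring

theorem GF.ch_diff (H : GF M x δ τ ν) {j b k : I} (hb : τ b = 0) (g : M.Gr ν j b) (hk : ν k = 0) :
    M.ch j k - ν j * M.ch b k = τ j * M.ch k j ∧
      M.ch j (M.act k x) - ν j * M.ch b (M.act k x) = τ j * M.ch k j := by
  have e1 : ∀ y, M.ch y k = M.ch k y * M.dim y := fun y => by
    rw [← M.S_ch', M.S_ch, (H.dK hk).1, mul_one]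
  have e2 : ∀ y, M.ch y (M.act k x) * (δ + 1) = M.ch k y * M.S x y := fun y => by
    rw [← H.S_kx hk, M.S_ch, (H.dkx hk).1]
  refine ⟨by rw [e1 j, e1 b, ← g k hk, (H.dB hb).1, H.d]; ring, mul_right_cancel₀ H.ne1 ?_⟩
  rw [sub_mul, mul_assoc, e2, e2, ← g k hk, (H.dB hb).2, H.s]
  ring

namespace Bas
variable {Ω : Type} [Fintype Ω] {Ob : Ω → D} {q : Ω → ℂ} (B : Bas F M x δ τ ν Ob q)
  (H : GF M x δ τ ν) (h : Ifc F A)
include B

theorem fr (e : Ω) {b : I} (hb : τ b = 0) : rk M F b (Ob e) = 0 :=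
  Finset.sum_eq_zero_iff.1 ((B.cnt b).trans hb) e (Finset.mem_univ e)

include H in
theorem wt (e : Ω) : ∑ l, rk M F l (Ob e) * τ l = 2 := by
  have := H.wt (F := F) (Ob e)
  rw [← H.act_o x, B.R1 e _ H.ty_o.2, B.dim] at this
  exact Nat.cast_injective (R := ℂ) (mul_right_cancel₀ H.ne2 (by rw [this]; push_cast; ring))

include h in
theorem lab (e : Ω) : ∃ j, rk M F j (Ob e) ≠ 0 ∧ τ j ≠ 0 := by
  by_contra hc
  push Not at hc
  exact (B.sim e).ne (h.zero_of_rk M fun k => by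
    by_contra hk
    exact hk (B.fr e (hc k hk)))

include h in
theorem q_ne (e : Ω) : q e ≠ 0 := by
  obtain ⟨j, hj, -⟩ := B.lab h e
  exact B.hg e j hj ▸ M.T_ne j

include H h

theorem sub {U : D} (n : 𝟙 U ≠ 0) (f : ∀ b, τ b = 0 → rk M F b U = 0) :
    2 ≤ ∑ l, rk M F l U * τ l ∧ (∑ l, rk M F l U * τ l = 2 → ∃ e, Nonempty (Ob e ≅ U)) := by
  obtain ⟨j, hj⟩ : ∃ j, rk M F j U ≠ 0 := by
    by_contra hc
    push Not at hc
    exact n (h.zero_of_rk M hc)
  obtain ⟨b, hb, -, d, -⟩ := B.dec j fun e => hj (f j e)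
  rw [d, f b hb, mul_zero, zero_add] at hj
  obtain ⟨e, -, he⟩ := Finset.exists_ne_zero_of_sum_ne_zero hj
  obtain ⟨W, ⟨d⟩⟩ := h.dec_of (B.sim e) (right_ne_zero_of_mul he) M
  have s : ∑ l, rk M F l U * τ l = 2 + ∑ l, rk M F l W * τ l := by
    simp only [h.rk_dec M d, add_mul, Finset.sum_add_distrib, B.wt H]
  refine ⟨by omega, fun e2 => ⟨e, ⟨d.iso (h.zero_of_rk M fun k => ?_)⟩⟩⟩
  have z := Finset.sum_eq_zero_iff.1 (by omega : ∑ l, rk M F l W * τ l = 0) k (Finset.mem_univ k)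
  rcases mul_eq_zero.1 z with z | z
  · exact z
  · have := f k z
    rw [h.rk_dec M d] at this
    omega

theorem free (c : Ω) {j b l : I} (hb : τ b = 0) (g : M.Gr ν j b) (hl : τ l = 0) :
    rk M F l (F.obj (M.X j) ⊗ Ob c) = ν j * rk M F l (F.obj (M.X b) ⊗ Ob c) := by
  rw [← Nat.cast_inj (R := ℂ)]
  refine mul_right_cancel₀ M.DD_ne ?_
  have a := fun y => M.coef (fun m => (rk M F m (F.obj (M.X y) ⊗ Ob c) : ℂ)) l
  have r := fun y i => row_tens (M := M) h (Ob c) y i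
  unfold row at r
  simp only [r] at a
  have R0 := B.R0 c
  have R1 := B.R1 c
  unfold row at R0 R1
  rw [Nat.cast_mul, mul_assoc, ← a, ← a, Finset.mul_sum, ← sub_eq_zero, ← Finset.sum_sub_distrib,
    H.sumI, Finset.sum_eq_zero (s := {k | τ k = 0}) fun k hk => by
      rw [R0 k (Finset.mem_filter.1 hk).2]; ring,
    Finset.sum_eq_zero (s := {k | τ k = 2}) fun k hk => by
      rw [H.S_ba hl (Finset.mem_filter.1 hk).2]; simp, add_zero, add_zero]
  refine Finset.sum_eq_zero fun k hk => ?_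
  have hk := (Finset.mem_filter.1 hk).2
  obtain ⟨e1, e2⟩ := H.ch_diff hb g hk
  rw [R1 k hk, H.S_kx hk, M.S_ch' k l, map_mul, map_mul, M.dim_real, H.sreal, (H.dB hl).1,
    (H.dB hl).2, eq_add_of_sub_eq e1, eq_add_of_sub_eq e2]
  ring

theorem close (s1 : Sim (𝟙_ D)) (a c : Ω) : ∃ e, Nonempty (Ob e ≅ Ob a ⊗ Ob c) := by
  obtain ⟨j, hj, tj⟩ := B.lab h a
  obtain ⟨b, hb, g, -, d⟩ := B.dec j tj
  have sb : ∀ e, rk M F j (Ob e) ≠ 0 → _ := fun e he =>
    B.sub H h (h.tens_ne s1 (B.sim e).ne (B.sim c).ne) fun l hl => by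
      have := d (Ob c) l
      rw [B.free H h c hb g hl, left_eq_add] at this
      exact (mul_eq_zero.1 (Finset.sum_eq_zero_iff.1 this e (Finset.mem_univ e))).resolve_left he
  have w : ∀ y, ((∑ l, rk M F l (F.obj (M.X y) ⊗ Ob c) * τ l : ℕ) : ℂ) =
      M.ch y M.o + M.ch y (M.act M.o x) := fun y => mul_right_cancel₀ H.ne2 (by
    rw [H.wt, row_tens h, row_tens h, H.act_o, ← H.act_o x, B.R1 c _ H.ty_o.2, B.dim, H.act_o]
    ring)
  have e : ∑ e, rk M F j (Ob e) * ∑ l, rk M F l (Ob e ⊗ Ob c) * τ l =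
      ∑ e, rk M F j (Ob e) * 2 := by
    obtain ⟨e1, e2⟩ := H.ch_diff hb g H.ty_o.2
    have e3 := w j
    simp only [d, add_mul, Finset.sum_add_distrib, mul_assoc, Finset.sum_mul] at e3
    rw [Finset.sum_comm, ← Finset.mul_sum, Nat.cast_add, Nat.cast_mul, w b] at e3
    simp only [← Finset.mul_sum] at e3
    rw [← Finset.sum_mul, B.cnt, ← Nat.cast_inj (R := ℂ)]
    rw [M.ch_o] at e1 e2
    push_cast at e3 ⊢
    linear_combination e3 + e1 + e2
  have e2 := (Finset.sum_eq_sum_iff_of_le fun e _ => ?_).1 e.symm a (Finset.mem_univ a)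
  · exact (sb a hj).2 (Nat.eq_of_mul_eq_mul_left (Nat.pos_of_ne_zero hj) e2).symm
  · by_cases he : rk M F j (Ob e) = 0
    · simp [he]
    · exact Nat.mul_le_mul_left _ (sb e he).1

theorem key {m : Ω → Ω → Ω} (hm : ∀ a c, Nonempty (Ob (m a c) ≅ Ob a ⊗ Ob c)) (c : Ω) (j : I) :
    row F M (Ob c) j = (δ + 2) * ∑ e, rk M F j (Ob e) * (q (m e c) / (q e * q c)) := by
  by_cases tj : τ j = 0
  · simp [B.R0 c j tj, B.fr _ tj]
  obtain ⟨b, hb, g, -, d⟩ := B.dec j tj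
  have t : ∀ y, ∑ l, (rk M F l (F.obj (M.X y) ⊗ Ob c) : ℂ) * (M.T l * M.S l M.o) =
      M.T y * q c * row F M (Ob c) y := fun y => by
    simp only [row, QP.rk_tens M h, Nat.cast_sum, Nat.cast_mul, Finset.sum_mul, Finset.mul_sum]
    rw [Finset.sum_comm]
    refine Finset.sum_congr rfl fun l _ => ?_
    simp only [mul_assoc, ← Finset.mul_sum, ← M.balance]
    by_cases e : rk M F l (Ob c) = 0
    · simp [e]
    · rw [B.hg c l e, M.S_symm]; ring
  have t2 : ∀ e, ∑ l, (rk M F l (Ob e ⊗ Ob c) : ℂ) * (M.T l * M.S l M.o) =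
      q (m e c) * (δ + 2) := fun e => by
    rw [← B.dim (m e c), row, Finset.mul_sum]
    refine Finset.sum_congr rfl fun l _ => ?_
    rw [← rk_iso M l (hm e c).some]
    by_cases e : rk M F l (Ob (m e c)) = 0
    · simp [e]
    · rw [B.hg _ l e]; ring
  have e := t j
  simp only [d, Nat.cast_add, Nat.cast_mul, Nat.cast_sum, add_mul, Finset.sum_add_distrib,
    mul_assoc, Finset.sum_mul] at e
  rw [Finset.sum_comm, ← Finset.mul_sum, t b, B.R0 c b hb, mul_zero, mul_zero, zero_add] at e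
  simp only [← Finset.mul_sum, t2] at e
  refine mul_left_cancel₀ (B.q_ne h c) (mul_left_cancel₀ (M.T_ne j) ?_)
  rw [← e, Finset.mul_sum, Finset.mul_sum, Finset.mul_sum]
  refine Finset.sum_congr rfl fun e _ => ?_
  by_cases he : rk M F j (Ob e) = 0
  · simp [he]
  · have := B.q_ne h e
    have := B.q_ne h c
    rw [B.hg e j he]
    field_simp

theorem linv (c : Ω) : ∃ e, rk M F M.o (Ob e ⊗ Ob c) ≠ 0 := by
  obtain ⟨l, hl, tl⟩ := B.lab h c
  obtain ⟨j, h1, h2⟩ := M.ex_dual l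
  obtain ⟨b, hb, -, -, d⟩ := B.dec j ((H.ty_conj h2).1 ▸ tl)
  have e := d (Ob c) M.o
  rw [QP.rk_tens M h, QP.rk_tens M h, Finset.sum_eq_zero (f := fun m => _ * M.N b m M.o)
    fun m _ => ?_, mul_zero, zero_add] at e
  · have p : rk M F l (Ob c) * M.N j l M.o ≤ _ := Finset.single_le_sum
      (f := fun m => rk M F m (Ob c) * M.N j m M.o) (fun _ _ => Nat.zero_le _) (Finset.mem_univ l)
    rw [M.N_swap, h1, if_pos rfl, e] at p
    obtain ⟨e, -, he⟩ := Finset.exists_ne_zero_of_sum_ne_zero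
      (by omega : ∑ e, rk M F j (Ob e) * rk M F M.o (Ob e ⊗ Ob c) ≠ 0)
    exact ⟨e, right_ne_zero_of_mul he⟩
  · obtain ⟨b', h3, h4⟩ := M.ex_dual b
    rw [h3]
    split_ifs with e
    · rw [e, B.fr c ((H.ty_conj h4).1.trans hb), zero_mul]
    · rfl

theorem even {e c : Ω} (n : rk M F M.o (Ob e ⊗ Ob c) ≠ 0) : q e = q c := by
  obtain ⟨j, hj, tj⟩ := B.lab h e
  obtain ⟨b, -, -, -, d⟩ := B.dec j tj
  have e1 := d (Ob c) M.o
  have p : rk M F j (Ob e) * rk M F M.o (Ob e ⊗ Ob c) ≤ _ := Finset.single_le_sum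
    (f := fun e => rk M F j (Ob e) * rk M F M.o (Ob e ⊗ Ob c)) (fun _ _ => Nat.zero_le _)
    (Finset.mem_univ e)
  have p2 := mul_ne_zero hj n
  rw [QP.rk_tens M h] at e1
  obtain ⟨l, -, hl⟩ := Finset.exists_ne_zero_of_sum_ne_zero
    (by omega : ∑ l, rk M F l (Ob c) * M.N j l M.o ≠ 0)
  rw [← B.hg e j hj, ← B.hg c l (left_ne_zero_of_mul hl), M.T_dual (right_ne_zero_of_mul hl)]

/-- the metric group of invertible local modules -/
theorem group (ru : ∀ k, rk M F k (𝟙_ D) = if k = M.o ∨ k = x then 1 else 0) :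
    ∃ _ : AddCommGroup Ω, Fam Ob ∧ IsMetric q ∧
      ∀ c j, row F M (Ob c) j = (δ + 2) * ∑ e, rk M F j (Ob e) * pol q e c := by
  have s1 : Sim (𝟙_ D) := Sim.of_finrank (by rw [rank_unit (F := F) M, ru, if_pos (Or.inl rfl)])
  choose m hm using B.close H h s1
  obtain ⟨z, ⟨u⟩⟩ := (B.sub H h s1.ne fun b hb => by
    rw [ru, if_neg]
    rintro (rfl | rfl)
    · have := H.ty_o.1; omega
    · have := H.ty_x.1; omega).2 (by
      rw [Finset.sum_eq_add M.o x H.xo.symm (fun k _ hk => by simp [ru, hk]) (by simp) (by simp)]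
      simp [ru, H.ty_o.1, H.ty_x.1])
  have q0 := B.q_ne h
  have hg : ∀ a c, Hg F M (Ob a ⊗ Ob c) (q (m a c)) := fun a c k hk =>
    B.hg _ k (by rwa [rk_iso M k (hm a c).some])
  have z1 : ∀ a, rk M F M.o (Ob a) ≠ 0 → a = z := fun a ha => by
    obtain ⟨f, hf⟩ := h.ex_of_rank ((rank_unit M (Ob a)).trans_ne ha) M
    exact B.uq _ _ ((h.sim_iso s1 (B.sim a) hf).some.symm ≪≫ u.symm)
  have rz : rk M F M.o (Ob z) ≠ 0 := by
    rw [rk_iso M _ u, ru, if_pos (Or.inl rfl)]; exact one_ne_zero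
  have qz : q z = 1 := (B.hg z _ rz).symm.trans M.T_o
  have sm : ∀ a c, Sim (Ob a ⊗ Ob c) := fun a c => (B.sim _).of_iso (hm a c).some.symm
  have com : ∀ a c, m a c = m c a := fun a c => by
    obtain ⟨γ, γ', -, -, e⟩ := h.br2 M (B.hg a) (B.hg c) (hg a c) (hg c a) (q0 a) (q0 c)
    have n : γ ≠ 0 := fun e0 => by
      rw [e0, zero_comp] at e
      exact smul_ne_zero (div_ne_zero (q0 _) (mul_ne_zero (q0 a) (q0 c))) (sm a c).ne e.symm
    exact B.uq _ _ ((hm a c).some ≪≫ (h.sim_iso (sm a c) (sm c a) n).some ≪≫ (hm c a).some.symm)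
  choose ng hng using B.linv H h
  have li : ∀ c, m (ng c) c = z := fun c => z1 _ (by rw [rk_iso M _ (hm _ _).some]; exact hng c)
  let _ : Add Ω := ⟨m⟩
  let _ : Zero Ω := ⟨z⟩
  let _ : Neg Ω := ⟨ng⟩
  let G0 : AddGroup Ω := AddGroup.ofLeftAxioms
    (fun a b c => B.uq _ _ ((hm _ _).some ≪≫ whiskerRightIso (hm a b).some _ ≪≫ α_ _ _ _ ≪≫
      whiskerLeftIso _ (hm b c).some.symm ≪≫ (hm _ _).some.symm))
    (fun a => B.uq _ _ ((hm z a).some ≪≫ whiskerRightIso u _ ≪≫ λ_ _)) li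
  let G : AddCommGroup Ω := { G0 with add_comm := com }
  have key : ∀ c j, row F M (Ob c) j = (δ + 2) * ∑ e, rk M F j (Ob e) * pol q e c :=
    B.key H h hm
  refine ⟨G, ⟨B.sim, fun a b hab f => ?_, ⟨u.symm⟩, fun a b => ⟨(hm a b).some.symm⟩⟩,
    ⟨q0, fun g => B.even H h (hng g), fun a b c => ?_, fun g hg => z1 g ?_⟩, key⟩
  · by_contra hf
    exact hab (B.uq _ _ (h.sim_iso (B.sim a) (B.sim b) hf).some)
  · rw [pol_comm q (a + b), pol_comm q a, pol_comm q b]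
    exact h.bimul M (B.hg c) (B.hg a) (B.hg b) (hg c a) (hg a c) (hg c b) (hg b c) (hg a b)
      (t' := q (m (m a b) c))
      (fun k hk => hg c (m a b) k (by rwa [rk_iso M k (whiskerLeftIso _ (hm a b).some)]))
      (fun k hk => hg (m a b) c k (by rwa [rk_iso M k (whiskerRightIso (hm a b).some _)]))
      (q0 c) (q0 a) (q0 b) (q0 _)
      ((sm c (m a b)).of_iso (whiskerLeftIso _ (hm a b).some.symm)).ne
  · have e := M.S_inj (t := fun l => (rk M F l (Ob g) : ℂ)) (t' := fun l => (rk M F l (Ob z) : ℂ))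
      fun j => by
        refine (key g j).trans (Eq.trans ?_ (key 0 j).symm)
        refine congrArg _ (Finset.sum_congr rfl fun e _ => ?_)
        rw [pol_comm, hg, pol, add_zero, show q 0 = 1 from qz, mul_one (q e), div_self (q0 e)]
    rwa [Nat.cast_injective (R := ℂ) (congrFun e M.o)]

end Bas

end Pool.Agent.Lib.MP_edb142_al
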