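import Pool.Agent.Lib.MP_edb142_al.H.G6

open CategoryTheory MonoidalCategory Limits BraidedCategory Module

set_option linter.unusedSectionVars false

namespace Pool.Agent.Lib.MP_edb142_al

universe v u v' u'

open K3

variable {C : Type u} [Category.{v} C] [Preadditive C] [Linear ℂ C] [MonoidalCategory C]
  [MonoidalPreadditive C] [MonoidalLinear ℂ C] [HasFiniteBiproducts C] [BraidedCategory C]
  [RigidCategory C] {I : Type} [Fintype I] [DecidableEq I]
  {D : Type u'} [Category.{v'} D] [Preadditive D] [Linear ℂ D] [MonoidalCategory D]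
  [MonoidalPreadditive D] [MonoidalLinear ℂ D]
  {F : C ⥤ D} [F.Monoidal] [F.Additive] [F.Linear ℂ] {M : Modular C I}
  {x : I} {δ : ℂ} {τ ν : I → ℕ} {A : C}

namespace GF
variable (H : GF M x δ τ ν) (h : Ifc F A)
  (hA : ∀ k, finrank ℂ (M.X k ⟶ A) = if k = M.o ∨ k = x then 1 else 0)
include H

theorem T_kx {k : I} (hk : ν k = 0) : M.T (M.act k x) = M.T k := by
  have e := M.balance k x
  simp only [H.act_N hk, Nat.cast_ite, Nat.cast_one, Nat.cast_zero, ite_mul, one_mul, zero_mul,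
    Finset.sum_ite_eq', Finset.mem_univ, if_true] at e
  rw [M.S_o', (H.dkx hk).1, M.S_symm, (H.dK hk).2, H.T] at e
  exact mul_right_cancel₀ H.ne1 (by linear_combination -e)

include h hA

theorem r0 (k i : I) : rk M F k (F.obj (M.X i)) = (if k = i then 1 else 0) + M.N i x k := by
  rw [h.rk_obj, rank_tens M, Finset.sum_eq_add M.o x H.xo.symm, hA, hA, if_pos (Or.inl rfl),
    if_pos (Or.inr rfl), one_mul, one_mul,
    rank_iso _ (whiskerLeftIso _ M.unit_iso.some.symm ≪≫ ρ_ _), rank_X]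
  · rfl
  · intro c _ hc
    rw [hA, if_neg (by tauto), zero_mul]
  · simp
  · simp

theorem rK {k : I} (hk : ν k = 0) (j : I) :
    rk M F j (F.obj (M.X k)) = if j = k ∨ j = M.act k x then 1 else 0 := by
  have n : M.act k x ≠ k := fun e => by have := (H.actx_ty hk).2; rw [e] at this; omega
  rw [H.r0 h hA, H.act_N hk]
  by_cases e : j = k
  · simp [e, n.symm]
  · simp [e]

theorem split {j b : I} (hb : τ b = 0) (f : I → ℕ)
    (e : ∀ l, M.N j x l = (if l = b then 1 else 0) + M.N b x l + f l) :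
    ∃ W, Nonempty (K3.Dec (F.obj (M.X j)) (F.obj (M.X b)) W) ∧
      ∀ l, rk M F l W = (if l = j then 1 else 0) + f l := by
  have sb : Sim (F.obj (M.X b)) :=
    Sim.of_finrank ((H.r0 h hA b b).trans (by rw [if_pos rfl, M.N_swap, H.nb b hb]))
  obtain ⟨W, ⟨d⟩⟩ := h.dec_of sb (P := F.obj (M.X j))
    ((H.r0 h hA b j).trans_ne (by rw [e, if_pos rfl]; omega)) M
  refine ⟨W, ⟨d⟩, fun l => ?_⟩
  have := h.rk_dec M d l
  rw [H.r0 h hA, H.r0 h hA, e] at this
  omega

theorem halves {a : I} (ha : τ a = 2) : ∃ (b : I) (P : Bool → D), τ b = 0 ∧ M.Gr ν a b ∧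
    (∀ s, Sim (P s)) ∧ IsEmpty (P true ≅ P false) ∧
    (∀ s k, rk M F k (P s) = if k = a then 1 else 0) ∧
    ∃ W, Nonempty (K3.Dec (F.obj (M.X a)) (F.obj (M.X b)) W) ∧
      Nonempty (K3.Dec W (P true) (P false)) := by
  have hfin := h.fin M
  obtain ⟨b, hb, g⟩ := H.ex_B (y := a) (by omega)
  have hba : b ≠ a := fun e => by rw [e] at hb; omega
  obtain ⟨W, ⟨d⟩, rW⟩ := H.split h hA hb _ (H.hA ha hb g)
  obtain ⟨P, Q, d', nP, nQ⟩ := h.idem (W := W) (by
    have e1 : rk M F a W = rk M F b W + _ := d.rank_from W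
    rw [rW, rW, if_pos rfl, if_neg hba] at e1
    omega) M
  have r12 : ∀ k, rk M F k P + rk M F k Q = (if k = a then 1 else 0) + if k = a then 1 else 0 :=
    fun k => (h.rk_dec M d' k).symm.trans (rW k)
  have ra : ∀ T : D, 𝟙 T ≠ 0 → (∀ k, k ≠ a → rk M F k T = 0) → rk M F a T ≠ 0 :=
    fun T n e e' => n (h.zero_of_rk M fun k => by
      by_cases hk : k = a
      · rw [hk, e']
      · exact e k hk)
  have a1 := ra P nP fun k hk => by have := r12 k; rw [if_neg hk] at this; omega
  have a2 := ra Q nQ fun k hk => by have := r12 k; rw [if_neg hk] at this; omega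
  have rPQ : ∀ k, (rk M F k P = if k = a then 1 else 0) ∧ rk M F k Q = if k = a then 1 else 0 :=
    fun k => by
      have := r12 k
      split_ifs at this ⊢ with hk
      · subst hk; omega
      · omega
  have one : ∀ T : D, (∀ k, rk M F k T = if k = a then 1 else 0) →
      finrank ℂ (P ⟶ T) + finrank ℂ (Q ⟶ T) = 1 := fun T e => by
    have e1 : rk M F a T = rk M F b T + _ := d.rank_from T
    rw [e, e, if_pos rfl, if_neg hba, d'.rank_from T] at e1
    omega
  have p1 := one P fun k => (rPQ k).1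
  have p2 := one Q fun k => (rPQ k).2
  have p3 := rank_pos nP
  have p4 := rank_pos nQ
  refine ⟨b, fun s => cond s P Q, hb, g, ?_, ⟨fun φ : P ≅ Q => ?_⟩, ?_, W, ⟨d⟩, ⟨d'⟩⟩
  · rintro (_ | _)
    · exact Sim.of_finrank (by change finrank ℂ (Q ⟶ Q) = 1; omega)
    · exact Sim.of_finrank (by change finrank ℂ (P ⟶ P) = 1; omega)
  · have := rank_iso P φ
    omega
  · rintro (_ | _) k
    · exact (rPQ k).2
    · exact (rPQ k).1

theorem bas : ∃ (Ob : {k // ν k = 0} ⊕ {a // τ a = 2} × Bool → D) (q : _ → ℂ),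
    Bas F M x δ τ ν Ob q := by
  have hfin := h.fin M
  choose b P hb g sP nP rP hW using fun a : {a // τ a = 2} => H.halves h hA a.2
  obtain ⟨Ob, oI, oA⟩ : ∃ Ob : {k // ν k = 0} ⊕ {a // τ a = 2} × Bool → D,
      (∀ k, Ob (.inl k) = F.obj (M.X k)) ∧ ∀ a s, Ob (.inr (a, s)) = P a s :=
    ⟨Sum.elim (fun k => F.obj (M.X k)) fun p => P p.1 p.2, fun _ => rfl, fun _ _ => rfl⟩
  have rI : ∀ k j, rk M F j (Ob (.inl k)) = if j = k ∨ j = M.act k x then 1 else 0 := fun k j =>
    oI k ▸ H.rK h hA k.2 j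
  have rA : ∀ a s j, rk M F j (Ob (.inr (a, s))) = if j = a then 1 else 0 := fun a s j =>
    oA a s ▸ rP a s j
  have t1 : ∀ {k j}, ν k = 0 → j = k ∨ j = M.act k x → τ j = 1 := by
    rintro k j hk (rfl | rfl)
    · have := H.ty j; omega
    · exact (H.actx_ty hk).1
  have ev1 : ∀ (k : {k // ν k = 0}) (j : I), j = k ∨ j = M.act k x → ∀ f : _ → ℕ,
      ∑ e, rk M F j (Ob e) * f e = f (.inl k) := fun k j hj f => by
    rw [Finset.sum_eq_single (.inl k), rI, if_pos hj, one_mul]
    · rintro (k' | ⟨a, s⟩) - n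
      · rw [rI, if_neg, zero_mul]
        intro hj'
        have a1 := (H.actx_ty k.2).2
        have a2 := (H.actx_ty k'.2).2
        refine n (congrArg _ (Subtype.ext ?_))
        rcases hj with rfl | rfl <;> rcases hj' with e | e
        · exact e.symm
        · rw [← e, k.2] at a2; omega
        · rw [e, k'.2] at a1; omega
        · exact (H.actx_inj k.2 k'.2 e).symm
      · rw [rA, if_neg, zero_mul]
        intro e
        have := t1 k.2 hj
        rw [e, a.2] at this
        omega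
    · simp
  have ev2 : ∀ (a : {a // τ a = 2}) (f : _ → ℕ),
      ∑ e, rk M F a (Ob e) * f e = f (.inr (a, true)) + f (.inr (a, false)) := fun a f => by
    rw [Fintype.sum_sum_type, Finset.sum_eq_zero fun k _ => by
      rw [rI, if_neg fun e => by have := t1 k.2 e; rw [a.2] at this; omega, zero_mul],
      zero_add, Fintype.sum_prod_type, Finset.sum_eq_single a]
    · simp [rA]
    · intro a' _ n
      simp [rA, Subtype.coe_inj, n.symm]
    · simp
  have wI : ∀ k j, row F M (Ob (.inl k)) j = M.S k j + M.S (M.act k x) j := fun k j => by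
    have n : (k : I) ≠ M.act k x := fun e => by
      have := (H.actx_ty k.2).2; rw [← e, k.2] at this; omega
    rw [row, Finset.sum_eq_add _ _ n (fun c _ hc => by simp [rI, hc]) (by simp) (by simp)]
    simp [rI]
  have wA : ∀ a s j, row F M (Ob (.inr (a, s))) j = M.S a j := fun a s j => by simp [row, rA]
  refine ⟨Ob, Sum.elim (fun k => M.T k) fun p => M.T p.1, ?_, ?_, ?_, ?_, ?_, ?_, fun j => ?_,
    fun j hj => ?_⟩
  · rintro (k | ⟨a, s⟩)
    · rw [oI]
      exact Sim.of_finrank ((H.rK h hA k.2 k).trans (if_pos (Or.inl rfl)))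
    · rw [oA]
      exact sP a s
  · rintro (k | ⟨a, s⟩) e φ
    · have := ev1 k k (Or.inl rfl) fun e' => if e' = e then 1 else 0
      simp only [mul_ite, mul_one, mul_zero, Finset.sum_ite_eq', Finset.mem_univ, if_true] at this
      rw [← rk_iso M _ φ, rI, if_pos (Or.inl rfl)] at this
      by_contra n
      rw [if_neg n] at this
      omega
    · have := rk_iso (F := F) M a φ
      rw [rA, if_pos rfl] at this
      rcases e with k | ⟨a', s'⟩
      · rw [rI, if_neg fun e => by have := t1 k.2 e; rw [a.2] at this; omega] at this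
        omega
      · rw [rA] at this
        obtain rfl : a = a' := Subtype.ext (by by_contra n; rw [if_neg n] at this; omega)
        rw [oA, oA] at φ
        cases s <;> cases s'
        · rfl
        · exact ((nP a).false φ.symm).elim
        · exact ((nP a).false φ).elim
        · rfl
  · rintro (k | ⟨a, s⟩) j hj
    · rw [rI] at hj
      rcases (ite_ne_right_iff.1 hj).1 with rfl | rfl
      · rfl
      · exact H.T_kx k.2
    · rw [rA] at hj
      rw [(ite_ne_right_iff.1 hj).1]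
      rfl
  · rintro (k | ⟨a, s⟩) c hc
    · rw [wI, H.act_S k.2, M.S_ch, (H.dB hc).1, (H.dB hc).2]; ring
    · rw [wA, H.S_ab hc a.2]
  · rintro (k | ⟨a, s⟩) c hc
    · rw [wI, wI, H.S_kx hc, H.S_kx hc, M.S_ch' c k, M.S_ch' c (M.act k x), H.ch_kx k.2 hc,
        (H.dK k.2).1, (H.dK k.2).2, (H.dkx k.2).1, (H.dkx k.2).2]
      ring
    · rw [wA, wA, H.S_kx hc, M.S_ch' c a, (H.dA a.2).1, (H.dA a.2).2]
  · rintro (k | ⟨a, s⟩)
    · rw [wI, M.S_o', M.S_o', (H.dK k.2).1, (H.dkx k.2).1]; ring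
    · rw [wA, M.S_o', (H.dA a.2).1]
  · induction j using H.cases with
    | hK k hk => simpa [t1 hk (Or.inl rfl)] using ev1 ⟨k, hk⟩ k (Or.inl rfl) fun _ => 1
    | hV k hk => simpa [t1 hk (Or.inr rfl)] using ev1 ⟨k, hk⟩ _ (Or.inr rfl) fun _ => 1
    | hA a ha => simpa [ha] using ev2 ⟨a, ha⟩ fun _ => 1
    | hB c hc =>
      rw [hc]
      refine Finset.sum_eq_zero ?_
      rintro (k | ⟨a, s⟩) -
      · rw [rI, if_neg fun e => by have := t1 k.2 e; omega]
      · rw [rA, if_neg fun e => by have := a.2; rw [← e] at this; omega]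
  · induction j using H.cases with
    | hK k hk =>
      obtain ⟨c, hc, gc⟩ := H.ex_B hj
      refine ⟨c, hc, gc, fun T => ?_, fun T l => ?_⟩ <;>
        rw [ev1 ⟨k, hk⟩ k (Or.inl rfl), oI, hk, zero_mul, zero_add]
      rfl
    | hV k hk =>
      obtain ⟨c, hc, gc⟩ := H.ex_B (y := k) (by rw [t1 hk (Or.inl rfl)]; omega)
      obtain ⟨W, ⟨d⟩, rW⟩ := H.split h hA hc _ (H.hV hk hc gc)
      have n : M.act k x ≠ k := fun e => by have := (H.actx_ty hk).2; rw [e] at this; omega
      obtain ⟨φ⟩ := h.iso_of M (P := W)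
        (Sim.of_finrank ((H.rK h hA hk k).trans (if_pos (Or.inl rfl))))
        ((rW k).trans_ne (by rw [if_pos rfl]; omega)) fun l => by
          rw [rW, H.rK h hA hk]
          by_cases e : l = k
          · simp [e, n.symm]
          · simp [e]
      refine ⟨c, hc, fun k' hk' => (H.ch_kx hk hk').trans (gc k' hk'), fun T => ?_,
        fun T l => ?_⟩ <;> rw [ev1 ⟨k, hk⟩ _ (Or.inr rfl), oI, (H.actx_ty hk).2, one_mul]
      · rw [rank_iso' T φ]
        exact d.rank_from T
      · rw [rk_iso M l (whiskerRightIso φ T)]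
        exact h.rk_dec M (d.tensor T) l
    | hA a ha =>
      obtain ⟨W, ⟨d⟩, ⟨d'⟩⟩ := hW ⟨a, ha⟩
      have n : ν a = 1 := by have := H.ty a; omega
      refine ⟨_, hb ⟨a, ha⟩, g ⟨a, ha⟩, fun T => ?_, fun T l => ?_⟩ <;>
        rw [ev2 ⟨a, ha⟩, oA, oA, n, one_mul]
      · rw [← d'.rank_from T]
        exact d.rank_from T
      · rw [← h.rk_dec M (d'.tensor T) l]
        exact h.rk_dec M (d.tensor T) l
    | hB c hc => exact (hj hc).elim

end GF

open scoped ComplexOrder in
theorem GF.centre (H : GF M x δ τ ν) (Dg : Dagger C) {w : I → ℕ} (hw : LagVec M.S M.T M.o w) :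
    IsCentre C := by
  obtain ⟨L, ⟨E⟩, hL⟩ := H.etale Dg
  have h := E.ifc
  obtain ⟨Ob, q, B⟩ := H.bas h hL
  have ru := fun k => (h.rk_unit M k).trans (hL k)
  obtain ⟨_, hF, hq, key⟩ := B.group H h ru
  obtain ⟨w0, hg, c, -, hc⟩ := hw
  have t1 : ∀ j e, rk M E.F j (Ob e) ≠ 0 → w j ≠ 0 → M.T j = 1 := fun j e he hj => by
    have tj : τ j ≠ 0 := fun e0 => he (B.fr e e0)
    obtain ⟨a1, a2⟩ := hg j hj
    refine (sq_eq_one_iff.1 a1).resolve_right fun e1 => ?_
    obtain ⟨d, rfl, d1, -, -⟩ := H.ex_real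
    have a3 := a2 (RingHom.id ℂ)
    rw [RingHom.id_apply, e1, M.S_o', H.d] at a3
    have a4 : (0 : ℝ) < -1 * (τ j + ν j * d) := by exact_mod_cast a3
    rcases H.ty j with e | e | e | e <;> rw [e.1, e.2] at a4 <;> push_cast at a4
    · linarith
    · linarith
    · linarith
    · exact tj e.1
  have u : ∀ j e, (rk M E.F j (Ob e) : ℂ) * (M.T j * w j) = rk M E.F j (Ob e) * w j :=
    fun j e => by
      by_cases he : rk M E.F j (Ob e) = 0
      · simp [he]
      by_cases hj : w j = 0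
      · simp [hj]
      rw [t1 j e he hj, one_mul]
  obtain ⟨Λ, a1, a2⟩ := hq.lagrangian (fun e => ∑ j, rk M E.F j (Ob e) * w j)
    (fun e => by
      have := Finset.sum_eq_zero_iff.1 e M.o (Finset.mem_univ _)
      rw [← rk_iso M _ hF.unit.some, ru, if_pos (Or.inl rfl), one_mul] at this
      exact w0 this)
    (fun e he => by
      obtain ⟨j, -, hj⟩ := Finset.exists_ne_zero_of_sum_ne_zero he
      rw [← B.hg e j (left_ne_zero_of_mul hj),
        t1 j e (left_ne_zero_of_mul hj) (right_ne_zero_of_mul hj)]) (c / (δ + 2)) fun b => by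
      have e1 : ∑ j, row E.F M (Ob b) j * (M.T j * w j) =
          c * ∑ j, (rk M E.F j (Ob b) : ℂ) * w j := by
        simp only [row, Finset.sum_mul]
        rw [Finset.sum_comm, Finset.mul_sum]
        refine Finset.sum_congr rfl fun m _ => ?_
        simp only [mul_assoc, ← Finset.mul_sum, hc]
        rw [← u]; ring
      rw [div_mul_eq_mul_div, eq_div_iff H.ne2]
      push_cast
      rw [← e1]
      simp only [key, Finset.sum_mul, Finset.mul_sum]
      rw [Finset.sum_comm]
      refine Finset.sum_congr rfl fun j _ => Finset.sum_congr rfl fun e _ => ?_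
      rw [← u]; ring
  have : Fintype Λ := Fintype.ofFinite _
  rw [Nat.card_eq_fintype_card] at a2
  have dm : ∀ e, ∑ k, (rk M E.F k (Ob e) : ℂ) * M.dim k = δ + 2 := fun e => by
    rw [← B.dim e, row]; simp only [M.S_o']
  have dl : ∀ e, E.delta (Ob e) = δ + 2 := fun e =>
    (Finset.sum_congr rfl fun k _ => mul_comm _ _).trans (dm e)
  have ds : ∑ a : Λ, ∑ k, (rk M E.F k (Ob a) : ℂ) * M.dim k = Fintype.card Λ * (δ + 2) := by
    simp only [dm, Finset.sum_const, Finset.card_univ, nsmul_eq_mul]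
  have hT : ∀ (a : Λ) k, rk M E.F k (Ob a) ≠ 0 → M.T k = 1 := fun a k hk =>
    (B.hg _ k hk).trans (a1 _ a.2)
  obtain ⟨L', ⟨E'⟩, hL'⟩ := h.extend' M (fun l : Λ => Ob l)
    ⟨fun a => hF.sim a, fun a b n => hF.zero _ _ fun e => n (Subtype.ext e), hF.unit,
      fun a b => hF.mul a b⟩
    (fun a γ hγ => by
      obtain ⟨j, hj, -⟩ := B.lab h a
      obtain ⟨e, he⟩ := h.ex_of_rank hj M
      obtain ⟨s, hs⟩ := (hF.sim a).epi he (h.reg e)
      obtain ⟨r, rfl⟩ := ((hF.sim _).of_iso (hF.mul a a).some).ex γ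
      rw [E.sign (by rw [M.tw_X, hT a j hj, one_smul]) e s hs
        (by rw [← E.delta_unit, E.delta_iso hF.unit.some, dl, dl]) (E.dL_ne H.pos) (hγ _ _ e e),
        one_smul]) hT
    (ds ▸ mul_ne_zero (Nat.cast_ne_zero.2 Fintype.card_ne_zero) H.ne2)
  refine Etale.isCentre M E' H.pos ?_
  rw [hL', ds, H.dimsq, mul_pow, ← Nat.cast_pow, a2]
  simp [nK, Fintype.card_subtype, mul_comm]

end Pool.Agent.Lib.MP_edb142_al
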