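import Pool.Agent.Lib.MP_edb142_al.H.K2E

open CategoryTheory MonoidalCategory Limits BraidedCategory
open Functor.LaxMonoidal Functor.OplaxMonoidal Functor.Monoidal

set_option linter.unusedSectionVars false

namespace Pool.Agent.Lib.MP_edb142_al

universe v u v' u'

variable {C : Type u} [Category.{v} C] [Preadditive C] [Linear ℂ C] [MonoidalCategory C]
  [MonoidalPreadditive C] [MonoidalLinear ℂ C] [HasFiniteBiproducts C] [BraidedCategory C]
  [RigidCategory C] {I : Type} [Fintype I] [DecidableEq I]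
  {A : Type u'} [Category.{v'} A] [Preadditive A] [Linear ℂ A] [MonoidalCategory A]
  [MonoidalPreadditive A] [MonoidalLinear ℂ A]

/-- conjugate of a map by half braidings -/
def nn (z z' : Center A) (g : z.1 ⟶ z'.1) (Q : A) : Q ⊗ z.1 ⟶ Q ⊗ z'.1 :=
  (z.2.β Q).inv ≫ g ▷ Q ≫ (z'.2.β Q).hom

theorem nn_nat (z z' : Center A) (g : z.1 ⟶ z'.1) {Q Q' : A} (h : Q ⟶ Q') :
    h ▷ z.1 ≫ nn z z' g Q' = nn z z' g Q ≫ h ▷ z'.1 := by
  unfold nn
  rw [← cancel_epi (z.2.β Q).hom, ← z.2.naturality_assoc]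
  simp only [Category.assoc, Iso.hom_inv_id_assoc]
  rw [whisker_exchange_assoc, z'.2.naturality]

theorem nn_tensor (z z' : Center A) (g : z.1 ⟶ z'.1) (U W : A) :
    (α_ _ _ _).inv ≫ nn z z' g (U ⊗ W) ≫ (α_ _ _ _).hom =
      U ◁ (z.2.β W).inv ≫ ((α_ _ _ _).inv ≫ nn z z' g U ▷ W ≫ (α_ _ _ _).hom) ≫
        U ◁ (z'.2.β W).hom := by
  unfold nn
  have h : (z.2.β (U ⊗ W)).inv = (α_ _ _ _).hom ≫ U ◁ (z.2.β W).inv ≫ (α_ _ _ _).inv ≫
      (z.2.β U).inv ▷ W ≫ (α_ _ _ _).hom := by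
    rw [← cancel_epi (z.2.β (U ⊗ W)).hom, Iso.hom_inv_id, z.2.monoidal]; simp
  rw [h, z'.2.monoidal]; monoidal

theorem nn_left {z₀ : Center A} (z z' : Center A) (a : z₀ ⟶ z) (g : z.1 ⟶ z'.1) (Q : A) :
    nn z₀ z' (a.f ≫ g) Q = Q ◁ a.f ≫ nn z z' g Q := by
  unfold nn
  rw [← cancel_epi (z₀.2.β Q).hom, ← a.comm_assoc]; simp

theorem nn_right {z₀ : Center A} (z z' : Center A) (g : z.1 ⟶ z'.1) (a : z' ⟶ z₀) (Q : A) :
    nn z z₀ (g ≫ a.f) Q = nn z z' g Q ≫ Q ◁ a.f := by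
  unfold nn
  simp

theorem nn_id (z : Center A) (Q : A) : nn z z (𝟙 _) Q = 𝟙 _ := by
  unfold nn; simp

variable (M : Modular C I) (F : C ⥤ A) [F.Monoidal] [F.Additive] [F.Linear ℂ]

noncomputable def P1 (z z' : Center A) (g : z.1 ⟶ z'.1) : z.1 ⟶ z'.1 :=
  ∑ l, M.dim l • ptr (cF F (M.tw.rev (du (M.X l))).η) (eF F (du (M.X l)).ε)
    (nn z z' g (F.obj (M.X l)))

noncomputable def P2 (z z' : Center A) (g : z.1 ⟶ z'.1) : z.1 ⟶ z'.1 :=
  ∑ k, M.dim k • ptr (cF F (du (M.X k)).η) (eF F (M.tw.rev (du (M.X k))).ε)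
    (nn z z' g (F.obj (M.X k)ᘁ))

theorem P2_P1_F (z z' : Center A) (g : z.1 ⟶ z'.1) (V : C) :
    P2 M F z z' g ▷ F.obj V ≫ (z'.2.β (F.obj V)).hom =
      (z.2.β (F.obj V)).hom ≫ F.obj V ◁ P1 M F z z' g := by
  unfold P1 P2
  rw [← slide F M (nn z z' g) (nn_nat z z' g) V, sum_whiskerRight, Preadditive.sum_comp,
    Preadditive.comp_sum]
  refine Finset.sum_congr rfl fun k _ => ?_
  rw [nn_tensor, ptr_left, ptr_right, ptr_whisk]
  simp

theorem P1_left {z₀ : Center A} (z z' : Center A) (a : z₀ ⟶ z) (g : z.1 ⟶ z'.1) :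
    P1 M F z₀ z' (a.f ≫ g) = a.f ≫ P1 M F z z' g := by
  unfold P1
  rw [Preadditive.comp_sum]
  refine Finset.sum_congr rfl fun k _ => ?_
  rw [nn_left, ptr_left, Linear.comp_smul]

theorem P1_right {z₀ : Center A} (z z' : Center A) (g : z.1 ⟶ z'.1) (a : z' ⟶ z₀) :
    P1 M F z z₀ (g ≫ a.f) = P1 M F z z' g ≫ a.f := by
  unfold P1
  rw [Preadditive.sum_comp]
  refine Finset.sum_congr rfl fun k _ => ?_
  rw [nn_right, ptr_right, Linear.smul_comp]

theorem cF_eF {V d : C} (P : Du V d) :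
    cF F (M.tw.co P) ≫ eF F P.ε = M.trL V (𝟙 V) • 𝟙 _ := by
  have h := M.tr_eq P (𝟙 V)
  unfold Tw.tr trc at h
  simp only [MonoidalCategory.whiskerLeft_id, Category.id_comp] at h
  unfold cF eF
  simp only [Category.assoc, δ_μ_assoc]
  rw [← F.map_comp_assoc, h]
  simp

theorem P1_id (z : Center A) : P1 M F z z (𝟙 _) = (∑ i, M.dim i ^ 2) • 𝟙 _ := by
  unfold P1
  rw [Finset.sum_smul]
  refine Finset.sum_congr rfl fun k _ => ?_
  rw [nn_id, sq, mul_smul]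
  congr 1
  unfold ptr
  simp only [MonoidalCategory.whiskerLeft_id, Category.id_comp, Iso.hom_inv_id_assoc]
  rw [← comp_whiskerRight_assoc, Tw.rev_η, cF_eF]
  simp [Modular.dim]

variable {M F} {L : C} {E : Etale M L} (D : Ind M E F)

namespace Ind

include D in
theorem P2_P1 (z z' : Center A) (g : z.1 ⟶ z'.1) (U : A) :
    P2 M F z z' g ▷ U ≫ (z'.2.β U).hom = (z.2.β U).hom ≫ U ◁ P1 M F z z' g :=
  D.ext_F (S := tensorLeft z.1) (T := tensorRight z'.1)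
    (fun U => P2 M F z z' g ▷ U ≫ (z'.2.β U).hom) (fun U => (z.2.β U).hom ≫ U ◁ P1 M F z z' g)
    (fun h => by
      simp only [tensorLeft, tensorRight, curriedTensor, Functor.flip]
      rw [whisker_exchange_assoc, z'.2.naturality, Category.assoc])
    (fun h => by
      simp only [tensorLeft, tensorRight, curriedTensor, Functor.flip]
      rw [z.2.naturality_assoc, ← whisker_exchange, Category.assoc])
    (P2_P1_F M F z z' g) U

include D in
theorem P2_eq (z z' : Center A) (g : z.1 ⟶ z'.1) : P2 M F z z' g = P1 M F z z' g := by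
  have h := D.P2_P1 z z' g (𝟙_ A)
  rw [half_unit, half_unit] at h
  simpa using h

/-- the averaging map -/
noncomputable def avg (z z' : Center A) (g : z.1 ⟶ z'.1) : z ⟶ z' :=
  ⟨(∑ i, M.dim i ^ 2)⁻¹ • P1 M F z z' g, fun U => by
    have h := D.P2_P1 z z' g U
    rw [D.P2_eq] at h
    simp [h]⟩

theorem avg_left {z₀ : Center A} (z z' : Center A) (a : z₀ ⟶ z) (g : z.1 ⟶ z'.1) :
    D.avg z₀ z' (a.f ≫ g) = a ≫ D.avg z z' g := by
  apply Center.ext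
  simp [avg, P1_left]

theorem avg_right {z₀ : Center A} (z z' : Center A) (g : z.1 ⟶ z'.1) (a : z' ⟶ z₀) :
    D.avg z z₀ (g ≫ a.f) = D.avg z z' g ≫ a := by
  apply Center.ext
  simp [avg, P1_right]

theorem avg_id (hD : ∑ i, M.dim i ^ 2 ≠ 0) (z : Center A) : D.avg z z (𝟙 _) = 𝟙 z := by
  apply Center.ext
  simp [avg, P1_id, smul_smul, inv_mul_cancel₀ hD]

include D in
theorem central_retr (hD : ∑ i, M.dim i ^ 2 ≠ 0) {z z' : Center A} (a : z ⟶ z')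
    (r : z'.1 ⟶ z.1) (h : a.f ≫ r = 𝟙 _) : ∃ r' : z' ⟶ z, a ≫ r' = 𝟙 z :=
  ⟨D.avg z' z r, by rw [← D.avg_left, h, D.avg_id hD]⟩

include D in
theorem central_ginv (hD : ∑ i, M.dim i ^ 2 ≠ 0) {z z' : Center A} (a : z ⟶ z')
    (r : z'.1 ⟶ z.1) (h : a.f ≫ r ≫ a.f = a.f) : ∃ r' : z' ⟶ z, a ≫ r' ≫ a = a :=
  ⟨D.avg z' z r, by
    rw [← D.avg_right, ← D.avg_left, h]
    conv_lhs => rw [← Category.comp_id a.f]
    rw [D.avg_left, D.avg_id hD, Category.comp_id]⟩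

end Ind

end Pool.Agent.Lib.MP_edb142_al
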