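import Pool.Agent.Lib.MP_edb142_al.H.K2D
import Pool.Agent.Lib.MP_edb142_al.H.K2F

open CategoryTheory MonoidalCategory Limits BraidedCategory
open Functor.LaxMonoidal Functor.OplaxMonoidal Functor.Monoidal

set_option linter.unusedSectionVars false

namespace Pool.Agent.Lib.MP_edb142_al

universe v u v' u'

variable {A : Type u'} [Category.{v'} A] [Preadditive A] [Linear ℂ A] [MonoidalCategory A]
  [MonoidalPreadditive A] [MonoidalLinear ℂ A] [HasFiniteBiproducts A] [RigidCategory A]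
  {J : Type} [Fintype J]

namespace Fusion
variable (Ψ : Fusion A J)

noncomputable def lift2 (z z' : Center A) (g : z.1 ⟶ z'.1) : z.1 ⟶ z'.1 ⊗ Ψ.W :=
  Ψ.ex fun V => (z.2.β V).hom ≫ V ◁ g ≫ (z'.2.β V).inv

theorem lift2_spec (z z' : Center A) (g : z.1 ⟶ z'.1) (V : A) :
    Ψ.lift2 z z' g ▷ V ≫ (α_ _ _ _).hom ≫ z'.1 ◁ Ψ.π V =
      (z.2.β V).hom ≫ V ◁ g ≫ (z'.2.β V).inv :=
  Ψ.ex_spec (fun V => (z.2.β V).hom ≫ V ◁ g ≫ (z'.2.β V).inv) (fun {V V'} h => by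
    rw [z.2.naturality_assoc, ← whisker_exchange_assoc]
    simp only [Category.assoc]
    congr 2
    rw [Iso.comp_inv_eq, Category.assoc, z'.2.naturality, Iso.inv_hom_id_assoc]) V

theorem lift2_ε (z z' : Center A) (g : z.1 ⟶ z'.1) :
    Ψ.lift2 z z' g ≫ z'.1 ◁ Ψ.εW ≫ (ρ_ _).hom = g := by
  have h := Ψ.lift2_spec z z' g (𝟙_ A)
  have h2 : (z'.2.β (𝟙_ A)).inv = (λ_ _).hom ≫ (ρ_ _).inv := by
    rw [← cancel_epi (z'.2.β (𝟙_ A)).hom, Iso.hom_inv_id, half_unit]; simp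
  rw [half_unit, h2] at h
  unfold εW
  calc _ = (ρ_ _).inv ≫ (Ψ.lift2 z z' g ▷ 𝟙_ A ≫ (α_ _ _ _).hom ≫ z'.1 ◁ Ψ.π (𝟙_ A)) ≫
        (ρ_ _).hom := by monoidal
    _ = _ := by rw [h]; monoidal

theorem lift2_comm (z z' : Center A) (g : z.1 ⟶ z'.1) (U : A) :
    Ψ.lift2 z z' g ▷ U ≫ (α_ _ _ _).hom ≫ z'.1 ◁ Ψ.γ U ≫ (α_ _ _ _).inv ≫
      (z'.2.β U).hom ▷ Ψ.W ≫ (α_ _ _ _).hom = (z.2.β U).hom ≫ U ◁ Ψ.lift2 z z' g := by
  rw [← cancel_mono (α_ U z'.1 Ψ.W).inv]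
  apply Ψ.uniq
  intro V
  have hinv : (z'.2.β (U ⊗ V)).inv = (α_ _ _ _).hom ≫ U ◁ (z'.2.β V).inv ≫ (α_ _ _ _).inv ≫
      (z'.2.β U).inv ▷ V ≫ (α_ _ _ _).hom := by
    rw [← cancel_epi (z'.2.β (U ⊗ V)).hom, Iso.hom_inv_id, z'.2.monoidal]; simp
  calc _ = 𝟙 _ ⊗≫ Ψ.lift2 z z' g ▷ (U ⊗ V) ⊗≫ z'.1 ◁ Ψ.γ U ▷ V ⊗≫
        ((z'.2.β U).hom ▷ (Ψ.W ⊗ V) ≫ (U ⊗ z'.1) ◁ Ψ.π V) := by monoidal
    _ = 𝟙 _ ⊗≫ Ψ.lift2 z z' g ▷ (U ⊗ V) ⊗≫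
        z'.1 ◁ (Ψ.γ U ▷ V ≫ (α_ _ _ _).hom ≫ U ◁ Ψ.π V) ⊗≫ (z'.2.β U).hom ▷ V := by
        rw [← whisker_exchange]; monoidal
    _ = 𝟙 _ ⊗≫ (Ψ.lift2 z z' g ▷ (U ⊗ V) ≫ (α_ _ _ _).hom ≫ z'.1 ◁ Ψ.π (U ⊗ V)) ⊗≫
        (z'.2.β U).hom ▷ V := by
        rw [γ_spec]; monoidal
    _ = 𝟙 _ ⊗≫ (z.2.β U).hom ▷ V ⊗≫ U ◁ ((z.2.β V).hom ≫ V ◁ g ≫ (z'.2.β V).inv) ⊗≫
        ((z'.2.β U).inv ≫ (z'.2.β U).hom) ▷ V := by
        rw [lift2_spec, hinv, z.2.monoidal]; monoidal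
    _ = _ := by rw [← lift2_spec Ψ, Iso.inv_hom_id]; monoidal

/-- the central lift of a map -/
noncomputable def liftZ (z z' : Center A) (g : z.1 ⟶ z'.1) : z ⟶ z' ⊗ Ψ.Z :=
  ⟨Ψ.lift2 z z' g, Ψ.lift2_comm z z' g⟩

end Fusion

variable {C : Type u} [Category.{v} C] [Preadditive C] [Linear ℂ C] [MonoidalCategory C]
  [MonoidalPreadditive C] [MonoidalLinear ℂ C] [HasFiniteBiproducts C] [BraidedCategory C]
  [RigidCategory C] {I : Type} [Fintype I] [DecidableEq I] {M : Modular C I} {L : C}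
  {E : Etale M L} {F : C ⥤ A} [F.Monoidal] [F.Additive] [F.Linear ℂ]

namespace Ind
variable (D : Ind M E F) (Ψ : Fusion A J)

include D in
theorem dlt_W (hpos : M.Pos) : dlt M F Ψ.W = ∑ i, M.dim i ^ 2 := by
  apply mul_right_cancel₀ (E.dim_ne hpos)
  rw [dlt_sum Ψ.ss _ Ψ.iW Ψ.pW Ψ.iW_pW Ψ.W_tot, Finset.sum_mul]
  simp only [D.dlt_tensor Ψ.ss, dlt_dual Ψ.ss (du _)]
  calc _ = ∑ j, ∑ k, M.dim k * ((Module.finrank ℂ (Ψ.X j ⟶ F.obj (M.X k)) : ℂ) *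
        dlt M F (Ψ.X j)) := by
        refine Finset.sum_congr rfl fun j _ => ?_
        conv_lhs => enter [1]; unfold dlt
        rw [Finset.sum_mul]
        refine Finset.sum_congr rfl fun k _ => ?_
        rw [Ψ.ss.finrank_comm2, mul_assoc]
    _ = ∑ k, M.dim k * dlt M F (F.obj (M.X k)) := by
        rw [Finset.sum_comm]
        refine Finset.sum_congr rfl fun k _ => ?_
        rw [← Finset.mul_sum, ← dlt_dec Ψ.ss]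
    _ = _ := by
        rw [Finset.sum_mul]
        refine Finset.sum_congr rfl fun k _ => ?_
        rw [D.dlt_F, sq, mul_assoc]; rfl

include D in
theorem inv_of_dlt (hpos : M.Pos) {P Q : A} (l : P ⟶ Q) (l' : Q ⟶ P) (hl : l ≫ l' = 𝟙 P)
    (H : dlt M F P = dlt M F Q) {X : J → A} (h : SS X) : l' ≫ l = 𝟙 Q := by
  obtain ⟨R, q, j, hjq, hqj⟩ := h.split2 (𝟙 Q - l' ≫ l) (by
    simp [Preadditive.sub_comp, Preadditive.comp_sub, reassoc_of% hl])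
  have h1 := dlt_sum (M := M) (F := F) h (fun b : Bool => Bool.rec R P b)
    (fun b => Bool.rec (motive := fun b => (Bool.rec R P b : A) ⟶ Q) j l b)
    (fun b => Bool.rec (motive := fun b => Q ⟶ (Bool.rec R P b : A)) q l' b)
    (fun b => by cases b; exact hjq; exact hl) (by simp [hqj])
  simp only [Fintype.sum_bool] at h1
  have h2 : dlt M F R = 0 := by
    rw [H] at h1
    exact left_eq_add.1 h1
  have h3 := D.dlt_zero h hpos h2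
  have h4 : q ≫ j = 0 := by rw [← Category.id_comp j, h3]; simp
  rw [h4] at hqj
  exact (sub_eq_zero.1 hqj.symm).symm

/-- the counit of the free module on the algebra -/
noncomputable def cou : F.obj L ⟶ 𝟙_ A := (D.hom L (𝟙_ C)).symm (λ_ L).inv ≫ η F

theorem cou_inj {Y : C} {e : Y ⟶ L} (h : F.map e ≫ D.cou = 0) : e = 0 := by
  unfold cou at h
  rw [← Category.assoc, ← zero_comp (f := η F), cancel_mono] at h
  have h2 := congrArg (D.hom Y (𝟙_ C)) h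
  rw [D.hom_pre, LinearEquiv.apply_symm_apply, map_zero] at h2
  simpa using h2 =≫ (λ_ L).hom

noncomputable def lZ : D.Φ.obj L ⟶ Ψ.Z := ⟨Ψ.lift (D.hb L) D.cou, Ψ.lift_comm (D.hb L) D.cou⟩

theorem lZ_iso (hpos : M.Pos) (hL : (M.trL L (𝟙 L)) ^ 2 = ∑ i, M.dim i ^ 2) :
    IsIso (D.lZ Ψ) := by
  have hD : ∑ i, M.dim i ^ 2 ≠ 0 := by rw [← hL]; exact pow_ne_zero _ (E.dim_ne hpos)
  obtain ⟨r, hr⟩ := Ψ.ss.ginv (D.lZ Ψ).f
  obtain ⟨l', hl'⟩ := D.central_ginv hD (D.lZ Ψ) r hr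
  obtain ⟨e, he⟩ := D.Φ.map_surjective (D.lZ Ψ ≫ l')
  have h1 : e = 𝟙 L := by
    rw [← sub_eq_zero]
    apply D.cou_inj
    have h2 : F.map e ≫ Ψ.lift (D.hb L) D.cou = Ψ.lift (D.hb L) D.cou := by
      have := he =≫ D.lZ Ψ
      rw [Category.assoc, hl'] at this
      exact congrArg Center.Hom.f this
    have h3 := Ψ.lift_ε (D.hb L) D.cou
    rw [F.map_sub, F.map_id, Preadditive.sub_comp, Category.id_comp, sub_eq_zero]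
    conv_lhs => rw [← h3, reassoc_of% h2, h3]
  rw [h1, D.Φ.map_id] at he
  refine ⟨l', he.symm, Center.ext _ _ ?_⟩
  refine D.inv_of_dlt hpos (D.lZ Ψ).f l'.f (congrArg Center.Hom.f he.symm) ?_ Ψ.ss
  change dlt M F (F.obj L) = dlt M F Ψ.W
  rw [D.dlt_F, D.dlt_W Ψ hpos, ← hL, sq]

include Ψ in
theorem essSurj (hpos : M.Pos) (hL : (M.trL L (𝟙 L)) ^ 2 = ∑ i, M.dim i ^ 2) :
    D.Φ.EssSurj := by
  have hD : ∑ i, M.dim i ^ 2 ≠ 0 := by rw [← hL]; exact pow_ne_zero _ (E.dim_ne hpos)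
  have := D.lZ_iso Ψ hpos hL
  refine ⟨fun z => ?_⟩
  obtain ⟨Y, i, p, hip⟩ := D.retr z.1
  obtain ⟨b₀, hb₀⟩ := D.central_retr hD (Ψ.liftZ z (D.Φ.obj Y) i)
    (F.obj Y ◁ Ψ.εW ≫ (ρ_ _).hom ≫ p) (by
      have key : ∀ x : z.1 ⟶ F.obj Y ⊗ Ψ.W, x ≫ F.obj Y ◁ Ψ.εW ≫ (ρ_ (F.obj Y)).hom = i →
          x ≫ F.obj Y ◁ Ψ.εW ≫ (ρ_ (F.obj Y)).hom ≫ p = 𝟙 _ := fun x hx => by
        rw [reassoc_of% hx, hip]
      exact key _ (Ψ.lift2_ε z (D.Φ.obj Y) i))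
  let ι : D.Φ.obj Y ⊗ Ψ.Z ≅ D.Φ.obj (Y ⊗ L) :=
    whiskerLeftIso _ (asIso (D.lZ Ψ)).symm ≪≫ Center.isoMk (D.Φμ Y L)
  obtain ⟨a, b, hab⟩ : ∃ (a : z ⟶ D.Φ.obj (Y ⊗ L)) (b : D.Φ.obj (Y ⊗ L) ⟶ z), a ≫ b = 𝟙 z :=
    ⟨Ψ.liftZ z (D.Φ.obj Y) i ≫ ι.hom, ι.inv ≫ b₀, by
      rw [Category.assoc, Iso.hom_inv_id_assoc, hb₀]⟩
  obtain ⟨e, he⟩ := D.Φ.map_surjective (b ≫ a)
  obtain ⟨Y', q, j, hjq, hqj⟩ := M.ss.split2 e (D.Φ.map_injective (by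
    rw [D.Φ.map_comp, he, Category.assoc, reassoc_of% hab]))
  refine ⟨Y', ⟨⟨D.Φ.map j ≫ b, a ≫ D.Φ.map q, ?_, ?_⟩⟩⟩
  · rw [Category.assoc, reassoc_of% he.symm, ← D.Φ.map_comp, ← D.Φ.map_comp, ← hqj,
      Category.assoc, reassoc_of% hjq, hjq, D.Φ.map_id]
  · rw [Category.assoc, ← D.Φ.map_comp_assoc, hqj, he, Category.assoc, reassoc_of% hab, hab]

include D Ψ in
/-- a Lagrangian algebra gives a braided equivalence with the centre of its module category -/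
theorem centreEquiv (hpos : M.Pos) (hL : (M.trL L (𝟙 L)) ^ 2 = ∑ i, M.dim i ^ 2) :
    Nonempty (CentreEquiv C A) :=
  ⟨{ E := D.Φ
     braided := D.Φbraided
     isEquiv := { essSurj := D.essSurj Ψ hpos hL }
     map_add := fun _ _ => F.map_add
     map_smul := fun c f => F.map_smul c f }⟩

end Ind

end Pool.Agent.Lib.MP_edb142_al
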