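import Pool.Agent.Lib.MP_edb142_al.H.K1c
import Pool.Agent.Lib.MP_edb142_al.H.K2G

open CategoryTheory MonoidalCategory Limits

namespace Pool.Agent.Lib.MP_edb142_al

universe v u

variable {C : Type u} [Category.{v} C] [Preadditive C] [Linear ℂ C] [MonoidalCategory C]
  [MonoidalPreadditive C] [MonoidalLinear ℂ C] [HasFiniteBiproducts C] [BraidedCategory C]
  [RigidCategory C] {I : Type} [Fintype I] [DecidableEq I] {M : Modular C I} {L : C}

/-- the free module functor satisfies the abstract interface -/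
def Etale.ind (E : Etale M L) : Ind M E E.F where
  hom := E.homF
  hom_map := E.homF_map
  hom_comp := E.homF_comp
  hom_wl Y _ _ g := E.homF_wl Y g
  hom_wr := E.homF_wr
  retr := E.retract

theorem Etale.isCentre_of_fusion (E : Etale M L) (hpos : M.Pos)
    (hL : (M.trL L (𝟙 L)) ^ 2 = ∑ i, M.dim i ^ 2)
    (hf : ∃ (J : Type) (_ : Fintype J), Nonempty (Fusion (AM E) J)) : IsCentre C := by
  obtain ⟨J, _, ⟨Ψ⟩⟩ := hf
  exact ⟨AM E, inferInstance, inferInstance, inferInstance, inferInstance, inferInstance,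
    inferInstance, inferInstance, inferInstance, J, inferInstance, ⟨Ψ⟩,
    E.ind.centreEquiv Ψ hpos hL⟩

end Pool.Agent.Lib.MP_edb142_al
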