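import Pool.Agent.Lib.MP_edb142_al.H.K1
import Pool.Agent.Lib.MP_edb142_al.H.K2H

open CategoryTheory MonoidalCategory Limits

namespace Pool.Agent.Lib.MP_edb142_al

universe v u

variable {C : Type u} [Category.{v} C] [Preadditive C] [Linear ℂ C] [MonoidalCategory C]
  [MonoidalPreadditive C] [MonoidalLinear ℂ C] [HasFiniteBiproducts C] [BraidedCategory C]
  [RigidCategory C] {I : Type} [Fintype I] [DecidableEq I]

/-- a modular category with a Lagrangian algebra is a Drinfeld centre -/
theorem Etale.isCentre (M : Modular C I) {L : C} (E : Etale M L) (hpos : M.Pos)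
    (hL : (M.trL L (𝟙 L)) ^ 2 = ∑ i, M.dim i ^ 2) : IsCentre C :=
  E.isCentre_of_fusion hpos hL E.fusion

end Pool.Agent.Lib.MP_edb142_al
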