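import Pool.Agent.Lib.MP_edb142_al.H.K3c
import Pool.Agent.Lib.MP_edb142_al.H.K3e

open CategoryTheory MonoidalCategory Limits BraidedCategory Module
open Functor.LaxMonoidal Functor.OplaxMonoidal

set_option linter.unusedSectionVars false

namespace Pool.Agent.Lib.MP_edb142_al

universe v u v' u'

namespace K3

variable {C : Type u} [Category.{v} C] [Preadditive C] [Linear ℂ C] [MonoidalCategory C]
  [MonoidalPreadditive C] [MonoidalLinear ℂ C] [HasFiniteBiproducts C] [BraidedCategory C]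
  [RigidCategory C] {I : Type} [Fintype I] [DecidableEq I]
  {D : Type u'} [Category.{v'} D] [Preadditive D] [Linear ℂ D] [MonoidalCategory D]
  [MonoidalPreadditive D] [MonoidalLinear ℂ D] [HasFiniteBiproducts D]
  {F : C ⥤ D} [F.Monoidal] [F.Additive] [F.Linear ℂ] (M : Modular C I)

/-- the extension of the algebra `1 + x` by the two module structures on `a` -/
theorem Ifc.triple {A : C} (h : Ifc F A) (tw : (M.θ.hom.app A : A ⟶ A) = 𝟙 A) (x a mu : I)
    (hA : ∀ k, finrank ℂ (M.X k ⟶ A) = if k = M.o ∨ k = x then 1 else 0) (hxo : x ≠ M.o)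
    (hao : a ≠ M.o) (hax : a ≠ x) (hma : mu ≠ a) (hT : M.T a = 1) (hd : M.dim a = 1 + M.dim x)
    (hmm : M.N mu x mu = 0) (hm1 : M.N mu x a = 1)
    (h1 : ∀ k, M.N a x k = (if k = mu then 1 else 0) + M.N mu x k + (if k = a then 1 else 0))
    (h2 : ∀ k, M.N a a k = M.N mu a k + (if k = M.o ∨ k = x ∨ k = a then 1 else 0)) :
    ∃ L, Nonempty (Etale M L) ∧ M.trL L (𝟙 L) = 3 * M.dim a := by
  obtain ⟨P, rP, rQ, sP, sQ, z12, z21, ⟨φ⟩⟩ := h.find M x a mu hA hxo hao hax hma hmm hm1 h1 h2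
  have ru : ∀ k, rk M F k (𝟙_ D) = if k = M.o ∨ k = x then 1 else 0 := fun k =>
    (h.rk_unit M k).trans (hA k)
  have s1 : Sim (𝟙_ D) := Sim.of_finrank (by rw [rank_unit (F := F) M, ru, if_pos (Or.inl rfl)])
  obtain ⟨e, he⟩ := h.ex_of_rank (P := F.obj (M.X a)) (Q := P)
    (((rP a).trans (if_pos rfl)).trans_ne one_ne_zero) M
  obtain ⟨s, hs⟩ := sP.epi he (h.reg e)
  obtain ⟨br, mv⟩ := br_one M h hT rP rQ sQ s1 φ hs he
  obtain ⟨W, ⟨d'⟩⟩ := dec_ex P (P ⊗ P)
  obtain ⟨B, ⟨d⟩⟩ := dec_ex (𝟙_ D) W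
  have rB : ∀ k, rk M F k B = (if k = M.o ∨ k = x then 1 else 0) + 2 * if k = a then 1 else 0 :=
    fun k => by rw [h.rk_dec M d, h.rk_dec M d', ru, rP, rQ, two_mul]
  obtain ⟨t⟩ : Nonempty (Tri B (𝟙_ D) P (P ⊗ P)) := ⟨d.tri d'⟩
  obtain ⟨m, as, one, one', m11, m12, m21⟩ := alg3 t mv
  have hTx : M.T x = 1 := by
    have := M.ss.finite
    obtain ⟨g, hg⟩ := (finrank_pos_iff_exists_ne_zero (R := ℂ) (M := M.X x ⟶ A)).1
      (by rw [hA, if_pos (Or.inr rfl)]; exact one_pos)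
    have e1 := M.tw.nat g
    rw [show (M.tw.t A).hom = 𝟙 A from tw, M.tw_X] at e1
    exact smul_left_injective ℂ hg (by simpa using e1.symm)
  have hB : ∀ k, rk M F k B ≠ 0 → M.T k = 1 := fun k hk => by
    rw [rB] at hk
    by_cases e1 : k = a
    · rw [e1, hT]
    · by_cases e2 : k = M.o ∨ k = x
      · rcases e2 with e2 | e2
        · rw [e2, M.T_o]
        · rw [e2, hTx]
      · rw [if_neg e1, if_neg e2] at hk
        exact absurd rfl hk
  have dm : ∑ k, (rk M F k B : ℂ) * M.dim k = 3 * M.dim a := by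
    have e1 : ∀ k, (rk M F k B : ℂ) * M.dim k = (if k = M.o then M.dim k else 0) +
        (if k = x then M.dim k else 0) + 2 * if k = a then M.dim k else 0 := fun k => by
      rw [rB]
      by_cases e2 : k = M.o
      · subst e2; simp [hxo.symm, hao.symm]
      · by_cases e3 : k = x
        · subst e3; simp [hxo, hax.symm]
        · by_cases e4 : k = a <;> simp [e2, e3, e4, hao, hax]
    simp only [e1, Finset.sum_add_distrib, ← Finset.mul_sum, Finset.sum_ite_eq', Finset.mem_univ,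
      if_true, M.dim_o]
    rw [← hd]; ring
  have gen : ∀ {Y : C} (y : F.obj Y ⟶ B), Com F m y (e ≫ t.i1) →
      ∀ (Z : C) (z : F.obj Z ⟶ B), Com F m y z := fun {Y} y c Z z => by
    have c0' : Com F m y (η F ≫ t.i0) := by
      have b := br_unit y
      unfold Br at b
      unfold Com
      rw [← tensorHom_comp_whiskerRight, ← tensorHom_comp_whiskerLeft, Category.assoc,
        Category.assoc, one, one', reassoc_of% b, Iso.inv_hom_id, Category.comp_id]
    have a0 := c0'.red h (z ≫ t.p0 ≫ ε F)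
    have a1 := c.red h (z ≫ t.p1 ≫ s)
    have a2 := (c.mul as c).red h (z ≫ t.p2 ≫ (s ⊗ₘ s) ≫ μ F _ _)
    simp only [Category.assoc, Functor.Monoidal.ε_η_assoc, reassoc_of% hs,
      Functor.Monoidal.μ_δ_assoc, tensorHom_comp_tensorHom_assoc, m11] at a0 a1 a2
    have := (a0.add a1).add a2
    rwa [← Preadditive.comp_add, ← Preadditive.comp_add, t.tot, Category.comp_id] at this
  have c11 : Com F m (e ≫ t.i1) (e ≫ t.i1) := by
    unfold Br at br
    unfold Com
    rw [← tensorHom_comp_tensorHom, Category.assoc, reassoc_of% br]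
  rw [← dm]
  refine transfer M h m t.i0 as one (fun Y Z y z => gen y ((gen _ c11 Y y).symm M h hB) Z z) ?_ hB
    (by rw [dm]; exact mul_ne_zero three_ne_zero (M.dim_ne a)) fun Y y hy => ?_
  · rw [rB, if_pos (Or.inl rfl), if_neg hao.symm]
  have u1 : ∀ f : 𝟙_ D ⟶ P, f = 0 :=
    h.zero_of_rank (by rw [rank_unit (F := F) M, rP, if_neg hao.symm]) M
  have u2 : ∀ f : 𝟙_ D ⟶ P ⊗ P, f = 0 :=
    h.zero_of_rank (by rw [rank_unit (F := F) M, rQ, if_neg hao.symm]) M
  have rev : ∀ {S : D}, Sim S → (∀ f : 𝟙_ D ⟶ S, f = 0) → ∀ f : S ⟶ 𝟙_ D, f = 0 :=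
    fun {S} hS u f => by
      by_contra hf
      obtain ⟨g, hg⟩ := hS.mono hf (h.reg f)
      exact hS.ne (by rw [← hg, u g, comp_zero])
  have dec : ∀ {S : D} (g : S ⟶ B), g = (g ≫ t.p0) ≫ t.i0 + (g ≫ t.p1) ≫ t.i1 +
      (g ≫ t.p2) ≫ t.i2 := fun g => by
    simp only [Category.assoc, ← Preadditive.comp_add, t.tot, Category.comp_id]
  by_cases y0 : y ≫ t.p0 = 0
  · by_cases y1 : y ≫ t.p1 = 0
    · have y2 : y ≫ t.p2 ≠ 0 := fun y2 => hy (by rw [dec y, y0, y1, y2]; simp)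
      obtain ⟨g, hg⟩ := sQ.epi y2 (h.reg _)
      have e1 : g ≫ y = t.i2 := by
        rw [dec (g ≫ y), rev sQ u2 (_ ≫ t.p0), h.zero_of_rank z21 M (_ ≫ t.p1),
          Category.assoc g y, hg]
        simp
      exact ⟨φ.inv ≫ (g ⊗ₘ t.i1), by
        rw [Category.assoc, tensorHom_comp_whiskerRight_assoc, e1, m21, Iso.inv_hom_id_assoc]⟩
    · obtain ⟨g, hg⟩ := sP.epi y1 (h.reg _)
      have e1 : g ≫ y = t.i1 := by
        rw [dec (g ≫ y), rev sP u1 (_ ≫ t.p0), h.zero_of_rank z12 M (_ ≫ t.p2),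
          Category.assoc g y, hg]
        simp
      exact ⟨φ.inv ≫ (α_ P P P).hom ≫ (g ⊗ₘ t.i2), by
        rw [Category.assoc, Category.assoc, tensorHom_comp_whiskerRight_assoc, e1, m12,
          Iso.hom_inv_id_assoc, Iso.inv_hom_id_assoc]⟩
  · obtain ⟨g, hg⟩ := s1.epi y0 (h.reg _)
    have e1 : g ≫ y = t.i0 := by
      rw [dec (g ≫ y), u1 (_ ≫ t.p1), u2 (_ ≫ t.p2), Category.assoc g y, hg]
      simp
    exact ⟨(λ_ _).inv ≫ (g ⊗ₘ t.i0), by
      rw [Category.assoc, tensorHom_comp_whiskerRight_assoc, e1, tensorHom_def', Category.assoc,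
        one, leftUnitor_naturality, Iso.inv_hom_id_assoc]⟩

end K3

end Pool.Agent.Lib.MP_edb142_al
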