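import Pool.Agent.Lib.MP_edb142_al.H.K1f
import Pool.Agent.Lib.MP_edb142_al.H.K3f

open CategoryTheory MonoidalCategory Limits Module

namespace Pool.Agent.Lib.MP_edb142_al

universe v u

variable {C : Type u} [Category.{v} C] [Preadditive C] [Linear ℂ C] [MonoidalCategory C]
  [MonoidalPreadditive C] [MonoidalLinear ℂ C] [HasFiniteBiproducts C] [BraidedCategory C]
  [RigidCategory C] {I : Type} [Fintype I] [DecidableEq I]

theorem Etale.ifc {M : Modular C I} {A : C} (E : Etale M A) : K3.Ifc E.F A where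
  split p hp := IsIdempotentComplete.idempotents_split _ p hp
  reg := E.reg
  gen := E.retract
  hom X Y := ⟨E.homF X Y⟩
  nat Y Z Z' g := by
    unfold K3.c0
    rw [← E.cc_F, ← E.cc_F, E.cc_nat]

/-- from the algebra `1 + x` to an algebra of three times its dimension -/
theorem Etale.triple (M : Modular C I) {A : C} (E : Etale M A) (x a mu : I)
    (hA : ∀ k, finrank ℂ (M.X k ⟶ A) = if k = M.o ∨ k = x then 1 else 0) (hxo : x ≠ M.o)
    (hao : a ≠ M.o) (hax : a ≠ x) (hma : mu ≠ a) (hT : M.T a = 1) (hd : M.dim a = 1 + M.dim x)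
    (hmm : M.N mu x mu = 0) (hm1 : M.N mu x a = 1)
    (h1 : ∀ k, M.N a x k = (if k = mu then 1 else 0) + M.N mu x k + (if k = a then 1 else 0))
    (h2 : ∀ k, M.N a a k = M.N mu a k + (if k = M.o ∨ k = x ∨ k = a then 1 else 0)) :
    ∃ L, Nonempty (Etale M L) ∧ M.trL L (𝟙 L) = 3 * M.dim a :=
  E.ifc.triple M E.twist x a mu hA hxo hao hax hma hT hd hmm hm1 h1 h2

end Pool.Agent.Lib.MP_edb142_al
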