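import Pool.Agent.Lib.MP_edb142_al.H.LA3

open Module

namespace Pool.Agent.Lib.MP_edb142_al.LA

theorem tr_T : LinearMap.trace ℂ V T = 4 := by
  rw [tr_diag, Fintype.sum_sum_type, Fintype.sum_prod_type]
  simp

namespace Hy
variable (H : Hy)

theorem trTF (h : ∀ x, H.F (T x) = T (H.F x)) : LinearMap.trace ℂ V (T ∘ₗ H.F) = 4 := by
  have a : T ∘ₗ H.F = (T ∘ₗ LinearMap.mulLeft ℂ H.r ∘ₗ H.F ∘ₗ LinearMap.mulLeft ℂ H.r ∘ₗ H.F) ∘ₗ
      LinearMap.mulLeft ℂ H.r := LinearMap.ext fun x => congrArg T (H.hex x).symm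
  have b : LinearMap.mulLeft ℂ H.r ∘ₗ
      (T ∘ₗ LinearMap.mulLeft ℂ H.r ∘ₗ H.F ∘ₗ LinearMap.mulLeft ℂ H.r ∘ₗ H.F) =
      (T ∘ₗ H.F ∘ₗ LinearMap.mulLeft ℂ H.r) ∘ₗ H.F := LinearMap.ext fun x => by
    simp only [LinearMap.comp_apply, LinearMap.mulLeft_apply]
    rw [T_mul, T_r, r_ri_mul]
  have c : H.F ∘ₗ (T ∘ₗ H.F ∘ₗ LinearMap.mulLeft ℂ H.r) = T ∘ₗ LinearMap.mulLeft ℂ H.r :=
    LinearMap.ext fun x => by
      simp only [LinearMap.comp_apply, LinearMap.mulLeft_apply]
      rw [h, H.ff]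
  rw [a, LinearMap.trace_comp_comm', b, LinearMap.trace_comp_comm', c, tr_diag,
    Fintype.sum_sum_type, Fintype.sum_prod_type]
  simp

theorem symE (h : ∀ f, ∃ x, H.F x = x ∧ Rest x f) : False := by
  choose g hg hg' using h
  have a : ∀ x, H.F x = x → T x = x := by
    intro x hx
    obtain ⟨c, hc, i, hi⟩ := H.D2 ![g (Pi.single 0 1), g (Pi.single 1 1), g (Pi.single 2 1),
      g (Pi.single 3 1), x] (fun i => by fin_cases i; exacts [hg _, hg _, hg _, hg _, hx])
    simp only [Fin.sum_univ_five, Matrix.cons_val, hg' _ _ _] at hc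
    by_cases h4 : c 4 = 0
    · exfalso; apply hi
      have h0 := hc 0 true
      have h1 := hc 1 true
      have h2 := hc 2 true
      have h3 := hc 3 true
      simp [h4] at h0 h1 h2 h3
      fin_cases i; exacts [h0, h1, h2, h3, h4]
    · funext i
      rcases i with i | ⟨p, b⟩
      · rfl
      · apply mul_left_cancel₀ h4
        rw [T_inr]
        linear_combination hc p (!b) - hc p b
  have b : ∀ x, T (H.F x + x) = H.F x + x := fun x => a _ (by rw [map_add, H.ff, add_comm])
  have c : ∀ x, H.F (T x) + T x = H.F x + x := by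
    intro x
    rw [← sub_eq_zero]
    apply H.nd
    intro y
    have := b y
    rw [map_sub, map_add, map_add, LinearMap.sub_apply, LinearMap.add_apply, LinearMap.add_apply,
      B_F, B_F, ← map_add, ← map_add, B_T, b, sub_self]
  have d := H.trTF fun x => by
    have h1 := b x
    rw [map_add] at h1
    rw [← add_left_inj (T x), c, h1]
  have e : T ∘ₗ H.F = H.F + 1 - T := LinearMap.ext fun x => by
    have h1 := b x
    rw [map_add] at h1
    simp only [LinearMap.comp_apply, LinearMap.sub_apply, LinearMap.add_apply, Module.End.one_apply]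
    rw [← h1]; abel
  rw [e, map_sub, map_add, H.t2, tr_T, LinearMap.trace_one] at d
  simp at d
  norm_num at d

theorem symnd {d : V} (hd : T d = d) (h : ∀ x, T x = x → H.B d x = 0) : d = 0 := by
  apply H.nd
  intro x
  have a := h (x + T x) (by rw [map_add, TT, add_comm])
  rw [map_add, ← B_T, hd] at a
  linear_combination a / 2

theorem exc (q : Fin 4 → ℂ) (hq : (∀ p, q p = 1) ∨ ∃ p0, ∀ p, q p = H.s p - H.s p0)
    (ann : ∀ x f, H.F x = x → Rest x f → ∑ p, q p * H.v p * f p = 0)
    (span : ∀ f, ∑ p, q p * H.v p * f p = 0 → ∃ x, H.F x = x ∧ Rest x f)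
    (hT : ∀ x, Th x → T (H.F x) = H.F x) (θ : V) (hθ : Th θ) (f' : Fin 4 → ℂ)
    (hf' : Rest (H.F θ) f') (hf1 : ∑ p, q p * H.v p * ((H.s p ^ 2 - 2) * f' p) = 1) : False := by
  obtain ⟨k0, k1, k2, k3⟩ := H.hN.n3 q hq _ _ _ rfl rfl rfl
  set N0 := ∑ p, (q p * H.v p) ^ 2 / H.w p with hN0
  set N1 := ∑ p, (q p * H.v p) ^ 2 / H.w p * H.s p with hN1
  set nu := ∑ p, (q p * H.v p) ^ 2 / H.w p * ((H.s p + 2) / (H.s p - 2)) with hnu
  set n : V := sy fun p => q p * H.v p / H.w p with hn
  have n0 : ∀ i, n (.inl i) = 0 := fun i => rfl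
  have n1 : ∀ p b, n (.inr (p, b)) = q p * H.v p / H.w p := fun p b => rfl
  have Tn : T n = n := Rest.T n1
  have Bn : ∀ x, H.B n x = ∑ p, q p * H.v p * (x (.inr (p, true)) + x (.inr (p, false))) := by
    intro x
    rw [H.B_rest n0]
    refine Finset.sum_congr rfl fun p _ => ?_
    rw [n1, n1]; field_simp [H.hN.w_ne p]
  have Bn' : ∀ x f, Rest x f → H.B n x = 2 * ∑ p, q p * H.v p * f p := by
    intro x f h
    rw [Bn, Finset.mul_sum]
    exact Finset.sum_congr rfl fun p _ => by rw [h, h]; ring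
  have Bnn : H.B n n = 2 * N0 := by
    rw [Bn' n _ n1]
    congr 1
    exact Finset.sum_congr rfl fun p _ => by ring
  have dec : ∀ x, T x = x → H.B n x = 0 → ∃ x', H.F x' = x' ∧ T x' = x' ∧ H.B n x' = 0 ∧
      Th (x - x') := by
    intro x hx hb
    have h := rest_of_T hx
    rw [Bn' x _ h] at hb
    obtain ⟨x', h1, h2⟩ := span _ (by simpa using hb)
    exact ⟨x', h1, h2.T, by rw [Bn' x' _ h2, hb], fun p b => by rw [Pi.sub_apply, h, h2, sub_self]⟩
  have hH : ∀ x, T x = x → H.B n x = 0 → T (H.F x) = H.F x ∧ H.B n (H.F x) = 0 := by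
    intro x hx hb
    obtain ⟨x', h1, h2, h3, h4⟩ := dec x hx hb
    have : H.F x = x' + H.F (x - x') := by rw [map_sub, h1]; abel
    rw [this, map_add, map_add, h2, hT _ h4, h3, zero_add]
    refine ⟨rfl, ?_⟩
    have h5 := rest_of_T (hT _ h4)
    rw [Bn' _ _ h5, ann (H.F (x - x') + (x - x')) _ (by rw [map_add, H.ff, add_comm])
      (fun p b => by rw [Pi.add_apply, h4, add_zero, h5]), mul_zero]
  have prj : ∀ x, T x = x → T (x - (H.B n x / (2 * N0)) • n) = x - (H.B n x / (2 * N0)) • n ∧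
      H.B n (x - (H.B n x / (2 * N0)) • n) = 0 := by
    intro x hx
    refine ⟨by rw [map_sub, map_smul, hx, Tn], ?_⟩
    rw [map_sub, map_smul, Bnn, smul_eq_mul]; field_simp; ring
  have Tp : ∀ x : V, T (x + T x) = x + T x := fun x => by rw [map_add, TT, add_comm]
  have Tm : ∀ x : V, T (x - T x) = -(x - T x) := fun x => by rw [map_sub, TT, neg_sub]
  have perp : ∀ d, T d = d → (∀ x, T x = x → H.B n x = 0 → H.B d x = 0) → ∃ c : ℂ, d = c • n := by
    intro d hd h
    refine ⟨H.B n d / (2 * N0), ?_⟩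
    rw [← sub_eq_zero]
    obtain ⟨a, b⟩ := prj d hd
    refine H.symnd a fun x hx => ?_
    obtain ⟨a', b'⟩ := prj _ hx
    have c := h _ a' b'
    rw [map_sub, map_smul] at b' c
    rw [map_sub, map_smul, LinearMap.sub_apply, LinearMap.smul_apply]
    rw [Bnn] at b'
    rw [H.B_comm d n] at c
    simp only [smul_eq_mul] at b' c ⊢
    linear_combination c
  obtain ⟨wm, hwm⟩ : ∃ wm : V, wm = (1 / (2 * N0)) • (H.F n - T (H.F n)) := ⟨_, rfl⟩
  have Tw : T wm = -wm := by rw [hwm, map_smul, Tm, smul_neg]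
  have G1 : ∀ x, T x = x → H.F x - T (H.F (T x)) = H.B n x • wm := by
    intro x hx
    obtain ⟨a, b⟩ := prj x hx
    have c := (hH _ a b).1
    simp only [map_sub, map_smul] at c
    rw [hx, hwm, smul_smul, mul_one_div, smul_sub, ← sub_eq_zero]
    rw [← sub_eq_zero] at c
    rw [← neg_eq_zero, ← c]; abel
  have Gs : ∀ x y, H.B (H.F x - T (H.F (T x))) y = H.B x (H.F y - T (H.F (T y))) := by
    intro x y
    rw [map_sub, LinearMap.sub_apply, map_sub, B_F, B_T, B_F, B_T]
  have G2 : ∀ x, T x = -x → H.F x - T (H.F (T x)) = H.B wm x • n := by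
    intro x hx
    rw [← sub_eq_zero]
    refine H.symnd ?_ fun y hy => ?_
    · rw [hx, map_neg, map_neg, map_sub, map_sub, map_neg, TT, map_smul, Tn]; abel
    · rw [map_sub, LinearMap.sub_apply, Gs, G1 _ hy, map_smul, map_smul, LinearMap.smul_apply,
        H.B_comm x]
      simp [mul_comm]
  have G : ∀ x, H.F x - T (H.F (T x)) = H.B n x • wm + H.B wm x • n := by
    intro x
    have a := G1 _ (Tp x)
    have b := G2 _ (Tm x)
    have c : H.B n (T x) = H.B n x := by rw [← B_T, Tn]
    have d : H.B wm (T x) = -H.B wm x := by rw [← B_T, Tw]; simp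
    simp only [map_add, map_sub, TT, c, d] at a b
    linear_combination (norm := module) (1 / 2 : ℂ) • a + (1 / 2 : ℂ) • b
  have tG : H.B n (H.r * wm) = 0 := by
    have a : H.F ∘ₗ LinearMap.mulLeft ℂ H.r - T ∘ₗ (H.F ∘ₗ T ∘ₗ LinearMap.mulLeft ℂ H.r) =
        (H.B n ∘ₗ LinearMap.mulLeft ℂ H.r).smulRight wm +
          (H.B wm ∘ₗ LinearMap.mulLeft ℂ H.r).smulRight n := LinearMap.ext fun x => G _
    have b : (H.F ∘ₗ T ∘ₗ LinearMap.mulLeft ℂ H.r) ∘ₗ T = H.F ∘ₗ LinearMap.mulLeft ℂ H.ri :=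
      LinearMap.ext fun x => by
        simp only [LinearMap.comp_apply, LinearMap.mulLeft_apply]
        rw [T_mul, T_r, TT]
    have c := congrArg (LinearMap.trace ℂ V) a
    have d : LinearMap.trace ℂ V (LinearMap.mulLeft ℂ H.ri ∘ₗ H.F) = 3 := H.t3
    rw [map_sub, map_add, H.t3', LinearMap.trace_comp_comm', b, LinearMap.trace_comp_comm', d,
      LinearMap.trace_smulRight, LinearMap.trace_smulRight] at c
    simp only [LinearMap.comp_apply, LinearMap.mulLeft_apply] at c
    rw [H.B_comm wm, B_mul] at c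
    linear_combination (-1 / 2) * c
  have w0 : wm = 0 := by
    have y1 : H.F (H.r * (H.r * H.F θ)) = H.ri * H.F (H.ri * (H.ri * H.F θ)) := by
      rw [← H.h1, H.h4 hθ]
    have y2 : T (H.r * (H.r * H.F θ)) = H.ri * (H.ri * H.F θ) := by
      rw [T_mul, T_mul, T_r, hT _ hθ]
    have y3 : T (H.ri * (H.ri * H.F θ)) = H.r * (H.r * H.F θ) := by rw [← y2, TT]
    have y4 : H.B n (H.r * (H.r * H.F θ)) = 1 := by
      rw [Bn, ← hf1]
      refine Finset.sum_congr rfl fun p _ => ?_
      simp only [Pi.mul_apply, r_t, r_f, hf' p, H.hs]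
      field_simp [H.hR p]; ring
    have y5 : H.B n (H.ri * (H.ri * H.F θ)) = 1 := by rw [← y2, ← B_T, Tn, y4]
    have y6 : H.B wm (H.ri * (H.ri * H.F θ)) = -H.B wm (H.r * (H.r * H.F θ)) := by
      rw [← y2, ← B_T, Tw]; simp
    have a := G (H.r * (H.r * H.F θ))
    have b := G (H.ri * (H.ri * H.F θ))
    rw [y2, y4, y1] at a
    rw [y3, y5, y6, y1, T_mul, T_ri] at b
    set β := H.B wm (H.r * (H.r * H.F θ))
    have c : ∀ p b, (1 - H.ri (.inr (p, b))) * wm (.inr (p, b)) =
        -β * (1 + H.ri (.inr (p, b))) * (q p * H.v p / H.w p) := by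
      intro p b'
      have a1 := congrFun a (.inr (p, b'))
      have b1 := congrFun b (.inr (p, b'))
      have c1 := H.r_ri (.inr (p, b'))
      simp only [Pi.sub_apply, Pi.add_apply, Pi.mul_apply, Pi.smul_apply, smul_eq_mul, n1] at a1 b1
      linear_combination H.ri (.inr (p, b')) * b1 - a1 +
        T (H.F (H.ri * (H.ri * H.F θ))) (.inr (p, b')) * c1
    have d : β * (N1 + 2 * N0) = 0 := by
      rw [Bn] at tG
      rw [← neg_eq_zero, ← tG, hN0, hN1, Finset.mul_sum, ← Finset.sum_add_distrib, Finset.mul_sum,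
        ← Finset.sum_neg_distrib]
      refine Finset.sum_congr rfl fun p _ => ?_
      have c1 := c p true
      have c2 := congrFun Tw (.inr (p, true))
      have c3 := mul_inv_cancel₀ (H.hR p)
      simp only [T_inr, Pi.neg_apply, Bool.not_true, Pi.mul_apply, r_t, r_f, ri_t] at c1 c2 ⊢
      rw [c2, H.hs]
      linear_combination (-(q p * H.v p) * (H.R p + 1)) * c1 +
        (q p * H.v p * (β * (q p * H.v p / H.w p) - wm (.inr (p, true)))) * c3
    have β0 : β = 0 := by simpa [k1] using d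
    funext i
    rcases i with i | ⟨p, b⟩
    · have := congrFun Tw (.inl i)
      simp only [T_inl, Pi.neg_apply] at this
      rw [Pi.zero_apply]; linear_combination this / 2
    · have := c p b
      rw [β0] at this
      simpa [H.ri_ne p b] using this
  have TFn : T (H.F n) = H.F n := by
    have := G n
    rw [w0, Tn] at this
    simp only [smul_zero, map_zero, LinearMap.zero_apply, zero_smul, add_zero, sub_eq_zero] at this
    exact this.symm
  have FT : ∀ x, T (H.F (T x)) = H.F x := by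
    intro x
    have := G x
    rw [w0] at this
    simp only [smul_zero, map_zero, LinearMap.zero_apply, zero_smul, add_zero, sub_eq_zero] at this
    exact this.symm
  obtain ⟨c, hc⟩ := perp _ TFn fun x hx hb => by rw [B_F, (hH x hx hb).2]
  have c2 : (c - 1) * (c + 1) = 0 := by
    have := congrArg (H.B n) (H.ff n)
    rw [hc, map_smul, hc, map_smul, map_smul, Bnn] at this
    apply mul_left_cancel₀ k0
    simp only [smul_eq_mul] at this
    linear_combination this / 2
  rcases mul_eq_zero.1 c2 with c1 | c1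
  · rw [sub_eq_zero.1 c1, one_smul] at hc
    apply k0
    rw [← ann n _ hc n1]
    exact Finset.sum_congr rfl fun p _ => by ring
  rw [eq_neg_of_add_eq_zero_left c1, neg_smul, one_smul] at hc
  have g1 : H.F (H.r * n) = -(H.ri * H.F (H.ri * n)) := by
    rw [← H.h1, hc, mul_neg, map_neg, neg_neg]
  set g := H.F (H.ri * n) with hg
  have g2 : H.F ((H.r + H.ri) * n) = (1 - H.ri) * g := by rw [add_mul, map_add, g1]; ring
  have g3 : H.F ((H.r - H.ri) * n) = -((1 + H.ri) * g) := by rw [sub_mul, map_sub, g1]; ring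
  have Ts : T ((H.r + H.ri) * n) = (H.r + H.ri) * n := by rw [T_mul, map_add, T_r, T_ri, Tn, add_comm]
  obtain ⟨c', hc'⟩ := perp (H.F ((H.r + H.ri) * n) - (H.r + H.ri) * n)
    (by have := FT ((H.r + H.ri) * n); rw [Ts] at this; rw [map_sub, Ts, this]) fun x hx hb => by
      obtain ⟨x', h1, -, -, h4⟩ := dec x hx hb
      rw [← sub_add_cancel x x', map_add, H.B_comm _ x', H.orth h1 (by rw [map_sub, H.ff, neg_sub]),
        H.B_rest (by intro i; rw [g2]; simp [n0])]
      simp [h4 _ _]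
  have Bs : H.B n ((H.r + H.ri) * n) = 2 * N1 := by
    rw [Bn' _ (fun p => H.s p * (q p * H.v p / H.w p))
      (fun p b => by rw [Pi.mul_apply, Pi.add_apply, r_add, n1])]
    congr 1
    exact Finset.sum_congr rfl fun p _ => by ring
  have cN : c' * N0 = -2 * N1 := by
    have := congrArg (H.B n) hc'
    rw [map_sub, ← B_F, hc, map_neg, LinearMap.neg_apply, Bs, map_smul, Bnn, smul_eq_mul] at this
    linear_combination (-1 / 2) * this
  have ph : ∀ p b, ((1 + H.ri) * g) (.inr (p, b)) ^ 2 =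
      (c' + H.s p) ^ 2 * (q p * H.v p / H.w p) ^ 2 * ((H.s p + 2) / (H.s p - 2)) := by
    intro p b
    have a := congrFun hc' (.inr (p, b))
    rw [g2] at a
    have a1 := H.r_ri (.inr (p, b))
    have a2 := H.r_add p b
    simp only [Pi.sub_apply, Pi.add_apply, Pi.mul_apply, Pi.smul_apply, smul_eq_mul, n1, a2,
      Pi.one_apply] at a ⊢
    rw [← mul_div_assoc, eq_div_iff (H.hN.s_ne p), ← mul_pow,
      show (c' + H.s p) * (q p * H.v p / H.w p) = (1 - H.ri (.inr (p, b))) * g (.inr (p, b)) by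
        linear_combination -a, ← a2]
    linear_combination (4 * g (.inr (p, b)) ^ 2) * a1
  have fin : H.B (H.F ((H.r - H.ri) * n)) (H.F ((H.r - H.ri) * n)) =
      H.B ((H.r - H.ri) * n) ((H.r - H.ri) * n) := by rw [B_F, H.ff]
  have g0 : ∀ i, g (.inl i) = 0 := by
    intro i
    have a : T (H.F ((H.r - H.ri) * n)) = -H.F ((H.r - H.ri) * n) := by
      rw [← map_neg, ← FT (-_), map_neg, T_mul, map_sub, T_r, T_ri, Tn, ← neg_mul, neg_sub]
    have := congrFun a (.inl i)
    rw [T_inl, g3] at this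
    simp only [Pi.neg_apply, Pi.mul_apply, Pi.add_apply, Pi.one_apply, ri_inl] at this
    linear_combination (-1 / 4) * this
  rw [g3, map_neg, map_neg, LinearMap.neg_apply, neg_neg, H.B_rest (by intro i; simp [g0]),
    B_asym] at fin
  have fin2 : (c' + 2) * ((c' + 2) * nu + 2 * (N1 + 2 * N0)) = 0 := by
    rw [← sub_eq_zero, ← Finset.sum_sub_distrib] at fin
    rw [← mul_zero (1 / 2 : ℂ), ← fin, hN0, hN1, hnu]
    simp only [Finset.mul_sum, ← Finset.sum_add_distrib]
    refine Finset.sum_congr rfl fun p _ => ?_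
    have a := H.io_sq p
    rw [← pow_two, ← pow_two, ph, ph]
    simp only [Pi.mul_apply, Pi.sub_apply, r_t, r_f, ri_t, ri_f, n1]
    have := H.hN.w_ne p
    have := H.hN.s_ne p
    rw [show (H.R p)⁻¹ - H.R p = -(H.R p - (H.R p)⁻¹) by ring]
    generalize H.R p - (H.R p)⁻¹ = j at a ⊢
    field_simp
    linear_combination (2 * q p ^ 2 * H.v p ^ 2 * (H.s p - 2)) * a
  have : (N0 - N1) * ((N0 - N1) * nu + N0 * (N1 + 2 * N0)) = 0 := by
    rw [show N1 = -(c' * N0) / 2 by linear_combination cN / 2] at fin2 ⊢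
    linear_combination (N0 ^ 2 / 4) * fin2
  exact mul_ne_zero k2 k3 this

theorem main : H.F H.z = H.z := by
  by_contra hne
  set m : Fin 4 → ℂ := fun p => H.y (.inr (p, true)) with hm
  have ry : Rest H.y m := by
    intro p b
    cases b
    · exact (H.claim1 p).symm
    · rfl
  have nc : ∀ c, ¬∀ p, m p = c := fun c h => hne (H.const (c := c) fun p b => (ry p b).trans (h p))
  have hT : ∀ x, Th x → T (H.F x) = H.F x := by
    intro x hx
    obtain ⟨c, hc, i, hi⟩ := H.D1 ![H.e, H.z, x]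
      (fun i => by fin_cases i; exacts [H.Th_e, H.Th_z, hx])
    have hc' : ∀ p b, c 0 + c 1 * m p + c 2 * H.F x (.inr (p, b)) = 0 := by
      intro p b
      have := hc p b
      simp only [Fin.sum_univ_three, Matrix.cons_val, F_e, Pi.one_apply] at this
      rw [← ry p b, y]
      linear_combination this
    by_cases h2 : c 2 = 0
    · exfalso
      by_cases h1 : c 1 = 0
      · have h0 := hc' 0 true
        rw [h1, h2] at h0
        apply hi
        fin_cases i; exacts [by simpa using h0, h1, h2]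
      · refine nc (-c 0 / c 1) fun p => ?_
        have := hc' p true
        rw [h2] at this
        field_simp
        linear_combination this
    · refine Rest.T (f := fun p => -(c 0 + c 1 * m p) / c 2) fun p b => ?_
      field_simp
      linear_combination hc' p b
  let Sp : Submodule ℂ (Fin 4 → ℂ) :=
    { carrier := {f | ∃ x, H.F x = x ∧ Rest x f}
      add_mem' := by
        rintro f g ⟨x, h1, h2⟩ ⟨y, h3, h4⟩
        exact ⟨x + y, by rw [map_add, h1, h3], fun p b => by rw [Pi.add_apply, h2, h4]; rfl⟩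
      zero_mem' := ⟨0, map_zero _, fun p b => rfl⟩
      smul_mem' := by
        rintro c f ⟨x, h1, h2⟩
        exact ⟨c • x, by rw [map_smul, h1], fun p b => by rw [Pi.smul_apply, h2]; rfl⟩ }
  have s1 : (fun _ => 1) ∈ Sp := ⟨_, H.p1, fun p b => by simp [H.Th_e p b]⟩
  have s2 : H.s ∈ Sp := ⟨_, H.p2, fun p b => H.r_add p b⟩
  have s3 : m ∈ Sp := ⟨_, H.p3, fun p b => by simp [H.Th_z p b, ry p b]⟩
  have s4 : (fun p => H.s p * m p) ∈ Sp :=
    ⟨_, H.p4, fun p b => by rw [Pi.mul_apply, Pi.add_apply, r_add, ry]⟩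
  have s5 : (fun p => m p ^ 2) ∈ Sp := by
    obtain ⟨x, h1, h2⟩ := H.p5
    exact ⟨x, h1, fun p b => by rw [h2, ry]⟩
  have comb : ∀ (f : Fin 4 → ℂ) (a b c d : ℂ),
      (∀ p, f p = a + b * H.s p + c * m p + d * (H.s p * m p)) → f ∈ Sp := by
    intro f a b c d h
    have := Sp.add_mem (Sp.add_mem (Sp.add_mem (Sp.smul_mem a s1) (Sp.smul_mem b s2))
      (Sp.smul_mem c s3)) (Sp.smul_mem d s4)
    rwa [show f = (a • fun _ => 1) + b • H.s + c • m + d • fun p => H.s p * m p from
      funext fun p => by simpa using h p]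
  obtain ⟨φ, φ0, hφ⟩ := Sp.exists_le_ker_of_lt_top (lt_top_iff_ne_top.2 fun h =>
    H.symE fun f => (h ▸ Submodule.mem_top : f ∈ Sp))
  set u : Fin 4 → ℂ := fun p => φ (Pi.single p 1) with hu
  have φu : ∀ f, φ f = ∑ p, u p * f p := fun f => by
    rw [φ.pi_apply_eq_sum_univ]
    refine Finset.sum_congr rfl fun p _ => ?_
    rw [smul_eq_mul, mul_comm, hu]
    congr 2
    funext j
    simp [Pi.single_apply, eq_comm]
  have ann : ∀ f ∈ Sp, ∑ p, u p * f p = 0 := fun f hf => by rw [← φu]; exact hφ hf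
  obtain ⟨q0, q1, hq⟩ := H.hN.dual.lin (u := u) (by simpa using ann _ s1) (ann _ s2)
  obtain ⟨a0, a1, ha⟩ := H.hN.dual.lin (u := fun p => u p * m p) (ann _ s3)
    (by rw [← ann _ s4]; exact Finset.sum_congr rfl fun p _ => by ring)
  have qa : ∀ p, (q0 + q1 * H.s p) * m p = a0 + a1 * H.s p := fun p => by
    apply mul_left_cancel₀ (H.hN.dual.ne p)
    have := ha p
    simp only [hq p] at this
    linear_combination this
  by_cases h1 : q1 = 0
  · have h0 : q0 ≠ 0 := by
      intro h0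
      apply φ0
      refine LinearMap.ext fun f => ?_
      rw [φu]; simp [hq, h0, h1]
    simp only [h1, zero_mul, add_zero] at hq qa
    have ha1 : a1 ≠ 0 := fun h => nc (a0 / q0) fun p => by
      field_simp
      linear_combination qa p + H.s p * h
    refine H.exc (fun _ => 1) (Or.inl fun _ => rfl) (fun x f h1 h2 => ?_) (fun f hf => ?_) hT
      ((q0 / a1) • H.z - (a0 / a1) • H.e) (fun p b => by simp [H.Th_e p b, H.Th_z p b]) H.s
      (fun p b => ?_) ?_
    · apply mul_left_cancel₀ h0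
      rw [mul_zero, ← ann f ⟨x, h1, h2⟩, Finset.mul_sum]
      exact Finset.sum_congr rfl fun p _ => by rw [hq]; ring
    · obtain ⟨b0, b1, b2, hb⟩ := H.hN.dual.quad hf
      refine comb f b0 (b1 - b2 * a0 / a1) 0 (b2 * q0 / a1) fun p => ?_
      have := mul_left_cancel₀ (H.hN.dual.ne p) ((by ring : H.v p * f p = 1 * H.v p * f p).trans (hb p))
      rw [this]
      field_simp
      linear_combination (-b2 * H.s p) * qa p
    · rw [map_sub, map_smul, map_smul, F_e, Pi.sub_apply, Pi.smul_apply, Pi.smul_apply, ← y, ry]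
      simp only [smul_eq_mul, Pi.one_apply]
      field_simp
      linear_combination qa p
    · exact Eq.trans (Finset.sum_congr rfl fun p _ => by ring) (H.hN.dual.sum 0 (-2) 0 1)
  by_cases ht : ∀ p, H.s p - -q0 / q1 ≠ 0
  · have hm' : ∀ p, m p = a1 / q1 + (a0 + a1 * (-q0 / q1)) / q1 / (H.s p - -q0 / q1) := fun p => by
      rw [← sub_eq_iff_eq_add', eq_div_iff (ht p)]
      field_simp
      linear_combination q1 * qa p
    set t := -q0 / q1 with htd
    set e := (a0 + a1 * t) / q1
    set c := a1 / q1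
    have h2 : e ^ 2 * ∑ p, H.v p / (H.s p - t) = 0 := by
      apply mul_left_cancel₀ h1
      have h3 := H.hN.dual.sum (q1 * (2 * c * e - c ^ 2 * t)) (q1 * c ^ 2) 0 0
      rw [mul_zero, ← add_zero (q1 * _)]
      refine Eq.trans (congrArg _ h3.symm) (Eq.trans ?_ (ann _ s5))
      rw [Finset.mul_sum, Finset.mul_sum, ← Finset.sum_add_distrib]
      refine Finset.sum_congr rfl fun p _ => ?_
      have h4 : q0 = -q1 * t := by rw [htd]; field_simp
      have := ht p
      rw [hq, hm', h4]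
      field_simp
      ring
    have h3 : e = 0 := by simpa [H.hN.dual.pole ht] using h2
    exact nc c fun p => by rw [hm', h3]; simp
  push Not at ht
  obtain ⟨p0, hp0⟩ := ht
  have h4 : q0 = -q1 * H.s p0 := by
    rw [sub_eq_zero.1 hp0]; field_simp
  have h5 : a0 = -a1 * H.s p0 := by linear_combination (m p0) * h4 - qa p0
  have h6 : ∀ p, p ≠ p0 → m p = a1 / q1 := fun p hp => by
    apply mul_left_cancel₀ (sub_ne_zero.2 fun h => hp (H.hN.dual.inj h))
    field_simp
    linear_combination qa p - m p * h4 + h5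
  have h7 : m p0 - a1 / q1 ≠ 0 := fun h => nc (a1 / q1) fun p => by
    by_cases hp : p = p0
    · rw [hp]; exact sub_eq_zero.1 h
    · exact h6 p hp
  refine H.exc (fun p => H.s p - H.s p0) (Or.inr ⟨p0, fun _ => rfl⟩) (fun x f h2 h3 => ?_)
    (fun f hf => ?_) hT H.e H.Th_e (fun _ => 1) (fun p b => by rw [F_e]; rfl) ?_
  · apply mul_left_cancel₀ h1
    rw [mul_zero, ← ann f ⟨x, h2, h3⟩, Finset.mul_sum]
    exact Finset.sum_congr rfl fun p _ => by rw [hq, h4]; ring
  · obtain ⟨b0, b1, b2, hb⟩ := H.hN.dual.quad hf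
    have hb' : ∀ p, (H.s p - H.s p0) * f p = b0 + b1 * H.s p + b2 * H.s p ^ 2 := fun p =>
      mul_left_cancel₀ (H.hN.dual.ne p) (by linear_combination hb p)
    set c := a1 / q1
    set k := (f p0 - (b1 + b2 * H.s p0) - b2 * H.s p0) / (m p0 - c) with hk
    refine comb f (b1 + b2 * H.s p0 - k * c) b2 k 0 fun p => ?_
    by_cases hp : p = p0
    · rw [hp, hk]; field_simp; ring
    · rw [h6 p hp]
      apply mul_left_cancel₀ (sub_ne_zero.2 fun h => hp (H.hN.dual.inj h))
      linear_combination hb' p - hb' p0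
  · exact Eq.trans (Finset.sum_congr rfl fun p _ => by ring)
      (H.hN.dual.sum (2 * H.s p0) (-2) (-H.s p0) 1)

end Hy

end Pool.Agent.Lib.MP_edb142_al.LA
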