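import Pool.Agent.Lib.MP_edb142_al.H.B0
import Pool.Agent.Lib.MP_edb142_al.H.K2
import Pool.Agent.Lib.MP_edb142_al.H.K3
import Pool.Agent.Lib.MP_edb142_al.H.LA4
import Pool.Agent.Lib.MP_edb142_al.H.Dat2

open CategoryTheory MonoidalCategory Limits

set_option linter.unusedSectionVars false

namespace Pool.Agent.Lib.MP_edb142_al

universe v u

variable {C : Type u} [Category.{v} C] [Preadditive C] [Linear ℂ C] [MonoidalCategory C]
  [MonoidalPreadditive C] [MonoidalLinear ℂ C] [HasFiniteBiproducts C] [BraidedCategory C]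
  [RigidCategory C] {I : Type} [Fintype I] [DecidableEq I]

namespace Glue

/-- the labels attached to the indices of the linear algebra lemma -/
def lab : LA.Ix → Lab
  | .inl i => .inl (![0, 1, 2, 3] i)
  | .inr (p, true) => ![.inl 4, .inr 2, .inr 0, .inr 5] p
  | .inr (p, false) => ![.inl 5, .inr 1, .inr 4, .inr 3] p

theorem lab_bij : Function.Bijective lab := by decide

/-- the labels, as an equivalence -/
noncomputable def q : LA.Ix ≃ Lab := Equiv.ofBijective lab lab_bij

/-- functions on the labels, read on the indices -/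
noncomputable def E : (Lab → ℂ) ≃ₗ[ℂ] LA.V := LinearEquiv.funCongrLeft ℂ ℂ q

theorem E_apply (f : Lab → ℂ) (i : LA.Ix) : E f i = f (q i) := rfl

theorem E_mul (f g : Lab → ℂ) : E (f * g) = E f * E g := rfl

theorem E_single (i : LA.Ix) (c : ℂ) : E (Pi.single (lab i) c) = Pi.single i c := by
  funext j
  change Pi.single (M := fun _ => ℂ) (lab i) c (lab j) = _
  simp only [Pi.single_apply, lab_bij.1.eq_iff]

theorem conj_E (F : (Lab → ℂ) →ₗ[ℂ] (Lab → ℂ)) (f : Lab → ℂ) : E.conj F (E f) = E (F f) := by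
  simp [LinearEquiv.conj_apply]

variable {ζ ω : ℂ}

theorem rr_eq (hζ : IsPrimitiveRoot ζ 13) (hω : IsPrimitiveRoot ω 3) :
    LA.rr ![ω ^ 2, -ζ, -ζ ^ 3, -ζ ^ 4] = E (hR ζ ω) := by
  have z := hζ.pow_eq_one
  have w := hω.pow_eq_one
  funext i
  rcases i with i | ⟨p, _ | _⟩
  · fin_cases i <;> rfl
  · fin_cases p
    · exact inv_eq_of_mul_eq_one_right (by change ω ^ 2 * ω = 1; linear_combination w)
    · exact inv_eq_of_mul_eq_one_right (by change -ζ * -ζ ^ 12 = 1; linear_combination z)
    · refine inv_eq_of_mul_eq_one_right ?_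
      change -ζ ^ 3 * -ζ ^ 75 = 1
      rw [pow_eq_pow_mod 75 z]
      linear_combination z
    · refine inv_eq_of_mul_eq_one_right ?_
      change -ζ ^ 4 * -ζ ^ 48 = 1
      rw [pow_eq_pow_mod 48 z]
      linear_combination z
  · fin_cases p
    · rfl
    · change -ζ = -ζ ^ 27
      rw [pow_eq_pow_mod 27 z, pow_one]
    · rfl
    · change -ζ ^ 4 = -ζ ^ 108
      rw [pow_eq_pow_mod 108 z]

end Glue

open Glue

theorem Haag.triAlg {M : Modular C Lab} {ζ ω : ℂ} (H : Haag M ζ ω) (R : Rot M (.inl 1) (hR ζ ω)) :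
    Nonempty (TriAlg (M.X (.inl 1)) (3 * hd ζ)⁻¹) := by
  obtain ⟨v, hv⟩ := haag_num H.hζ
  have z := H.hζ.pow_eq_one
  have w := H.hω.pow_eq_one
  have z0 : ζ ≠ 0 := H.hζ.ne_zero (by norm_num)
  have w0 : ω ≠ 0 := H.hω.ne_zero (by norm_num)
  have d0 : 3 * hd ζ ≠ 0 := fun h => by
    have := hd_sq H.hζ
    have e : hd ζ = 0 := by linear_combination h / 3
    rw [e] at this
    norm_num at this
  have hr := rr_eq H.hζ H.hω
  have hw : ∀ i, LA.ww (fun i => M.dim (lab (.inl i)))
      ![3 * hd ζ + 2, 3 * hd ζ, 3 * hd ζ, 3 * hd ζ] i = M.dim (q i) := fun i => by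
    rcases i with i | ⟨p, _ | _⟩
    · rfl
    · rw [H.dim_eq]
      fin_cases p <;> rfl
    · rw [H.dim_eq]
      fin_cases p <;> rfl
  have e0 : E (Pi.single M.o (M.dim (.inl 1))) = Pi.single (.inl 0) (M.dim (lab (.inl 1))) := by
    rw [H.o_eq]
    exact E_single (.inl 0) _
  have e1 : E (Pi.single (.inl 1) 1) = Pi.single (.inl 1) 1 := E_single (.inl 1) _
  let Y : LA.Hy :=
    { R := ![ω ^ 2, -ζ, -ζ ^ 3, -ζ ^ 4]
      w0 := fun i => M.dim (lab (.inl i))
      w := ![3 * hd ζ + 2, 3 * hd ζ, 3 * hd ζ, 3 * hd ζ]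
      v := v
      s := ![-1, -(ζ + ζ ^ 12), -(ζ ^ 3 + ζ ^ 10), -(ζ ^ 4 + ζ ^ 9)]
      α := (3 * hd ζ)⁻¹
      F := E.conj R.F
      hR := fun p => by fin_cases p <;> simp [z0, w0]
      hs := fun p => by
        fin_cases p
        · change -1 = ω ^ 2 + (ω ^ 2)⁻¹
          rw [inv_eq_of_mul_eq_one_right (b := ω) (by linear_combination w)]
          linear_combination -H.wsum
        · change -(ζ + ζ ^ 12) = -ζ + (-ζ)⁻¹
          rw [inv_eq_of_mul_eq_one_right (b := -ζ ^ 12) (by linear_combination z)]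
          ring
        · change -(ζ ^ 3 + ζ ^ 10) = -ζ ^ 3 + (-ζ ^ 3)⁻¹
          rw [inv_eq_of_mul_eq_one_right (b := -ζ ^ 10) (by linear_combination z)]
          ring
        · change -(ζ ^ 4 + ζ ^ 9) = -ζ ^ 4 + (-ζ ^ 4)⁻¹
          rw [inv_eq_of_mul_eq_one_right (b := -ζ ^ 9) (by linear_combination z)]
          ring
      hN := hv
      hw0 := fun i => M.dim_ne _
      h00 := by
        change M.dim (.inl 0) = 1
        rw [← H.o_eq, M.dim_o]
      hα := by
        change (3 * hd ζ)⁻¹ * (M.dim (.inl 1) - 1) = 1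
        rw [H.dim_eq]
        change (3 * hd ζ)⁻¹ * (3 * hd ζ + 1 - 1) = 1
        rw [add_sub_cancel_right, inv_mul_cancel₀ d0]
      sa := fun x y => by
        obtain ⟨f, rfl⟩ := E.surjective x
        obtain ⟨g, rfl⟩ := E.surjective y
        simp only [conj_E, hw, E_apply]
        rw [q.sum_comp fun k => M.dim k * (R.F f k * g k),
          q.sum_comp fun k => M.dim k * (f k * R.F g k), R.sa]
      ff := fun x => by
        obtain ⟨f, rfl⟩ := E.surjective x
        rw [conj_E, conj_E, R.ff]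
      hex := fun x => by
        obtain ⟨f, rfl⟩ := E.surjective x
        rw [hr, ← E_mul, conj_E, ← E_mul, conj_E, ← E_mul, R.hex, conj_E]
      t2 := by rw [LinearMap.trace_conj', R.t2]
      t3 := by
        rw [← R.t3, ← LinearMap.trace_conj' _ E]
        congr 1
        refine LinearMap.ext fun x => ?_
        obtain ⟨f, rfl⟩ := E.surjective x
        rw [conj_E, LinearMap.comp_apply, conj_E, hr]
        rfl
      e1 := by
        rw [← e0, conj_E, R.e1]
        rfl
      sq := by rw [← e1, conj_E, ← E_mul, conj_E, R.sq] }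
  refine R.alg _ (E.injective ?_)
  rw [← conj_E, map_add, map_smul, e0, e1]
  exact Y.main

theorem haag_reindex (M : Modular C I) (e : I ≃ Lab) {ζ ω : ℂ} (hζ : IsPrimitiveRoot ζ 13)
    (hω : IsPrimitiveRoot ω 3) (hS' : ∀ i j, M.S i j = hS ζ (e i) (e j))
    (hT' : ∀ i, M.T i = hT ζ ω (e i)) : ∃ M' : Modular C Lab, Haag M' ζ ω := by
  refine ⟨{ X := fun k => M.X (e.symm k)
            o := e M.o
            unit_iso := by
              rw [e.symm_apply_apply]
              exact M.unit_iso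
            end_one := fun k => M.end_one _
            hom_zero := fun k l h => M.hom_zero _ _ fun h' => h (e.symm.injective h')
            decomp := fun Y => by
              obtain ⟨n, t, ⟨φ⟩⟩ := M.decomp Y
              exact ⟨n, fun a => e (t a), ⟨φ ≪≫ biproduct.mapIso fun a =>
                eqToIso (congrArg M.X (e.symm_apply_apply (t a)).symm)⟩⟩
            θ := M.θ
            θ_tensor := M.θ_tensor
            θ_dual := M.θ_dual
            S := M.S.submatrix e.symm e.symm
            T := fun k => M.T (e.symm k)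
            S_eq := fun k l => M.S_eq _ _
            T_eq := fun k => M.T_eq _
            S_det := by
              rw [Matrix.det_submatrix_equiv_self]
              exact M.S_det }, hζ, hω, fun k l => ?_, fun k => ?_⟩
  · change M.S (e.symm k) (e.symm l) = _
    rw [hS', e.apply_symm_apply, e.apply_symm_apply]
  · change M.T (e.symm k) = _
    rw [hT', e.apply_symm_apply]

theorem Haag.centre_of_etale {M : Modular C Lab} {ζ ω : ℂ} (H : Haag M ζ ω) {L : C} (E : Etale M L)
    (hL : ∀ k, Module.finrank ℂ (M.X k ⟶ L) = if k = M.o ∨ k = .inl 1 then 1 else 0) :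
    IsCentre C := by
  obtain ⟨L', ⟨E'⟩, h⟩ := Etale.triple M E (.inl 1) (.inl 2) (.inr 0) hL
    (by rw [H.o_eq]; decide) (by rw [H.o_eq]; decide) (by decide) (by decide) (H.T _)
    (by
      rw [H.dim_eq, H.dim_eq]
      change 3 * hd ζ + 2 = 1 + (3 * hd ζ + 1)
      ring) H.hmm H.hm1 H.h1 H.h2
  exact Etale.isCentre M E' H.pos (by rw [h, H.dimsq])

end Pool.Agent.Lib.MP_edb142_al
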