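import Pool.Agent.Lib.MP_edb142_al.H.K1f

open CategoryTheory MonoidalCategory Limits BraidedCategory Idempotents Module
open Functor.LaxMonoidal Functor.OplaxMonoidal

set_option linter.unusedSectionVars false

namespace Pool.Agent.Lib.MP_edb142_al

universe v u

variable {C : Type u} [Category.{v} C] [Preadditive C] [Linear ℂ C] [MonoidalCategory C]
  [MonoidalPreadditive C] [MonoidalLinear ℂ C] [HasFiniteBiproducts C] [BraidedCategory C]
  [RigidCategory C] {I : Type} [Fintype I] [DecidableEq I] {M : Modular C I} {L : C}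

namespace Etale
variable (E : Etale M L)

/-- dimension of `L` -/
noncomputable def dL (_ : Etale M L) : ℂ := M.trL L (𝟙 L)
/-- dimension of the underlying object of a module -/
noncomputable def delta (P : AM E) : ℂ :=
  ∑ k, M.dim k * (finrank ℂ (E.F.obj (M.X k) ⟶ P) : ℂ)

theorem delta_R (P : AM E) : E.delta P = M.trL (E.R.obj P) (𝟙 _) := by
  rw [M.trL_id]
  exact Finset.sum_congr rfl fun k _ => by rw [(E.homR _ _).finrank_eq]

theorem delta_sum {T : Type*} [Fintype T] {P : AM E} (Q : T → AM E) (e : ∀ a, Q a ⟶ P)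
    (f : ∀ a, P ⟶ Q a) (hef : ∀ a, e a ≫ f a = 𝟙 _) (tot : ∑ a, f a ≫ e a = 𝟙 P) :
    E.delta P = ∑ a, E.delta (Q a) := by
  unfold delta
  rw [Finset.sum_comm]
  refine Finset.sum_congr rfl fun k _ => ?_
  rw [finrank_sum _ Q e f hef tot, Nat.cast_sum, Finset.mul_sum]

theorem delta_iso {P Q : AM E} (φ : P ≅ Q) : E.delta P = E.delta Q := by
  simpa using E.delta_sum (T := Unit) (fun _ => Q) (fun _ => φ.inv) (fun _ => φ.hom)
    (by simp) (by simp)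

theorem delta_biprod {T : Type} [Fintype T] (Q : T → AM E) :
    E.delta (⨁ Q) = ∑ a, E.delta (Q a) := by
  classical
  exact E.delta_sum Q (biproduct.ι Q) (biproduct.π Q) (fun a => biproduct.ι_π_self _ a)
    biproduct.total

theorem delta_two {P Q Q' : AM E} (i : Q ⟶ P) (r : P ⟶ Q) (i' : Q' ⟶ P) (r' : P ⟶ Q')
    (h : i ≫ r = 𝟙 Q) (h' : i' ≫ r' = 𝟙 Q') (tot : r ≫ i + r' ≫ i' = 𝟙 P) :
    E.delta P = E.delta Q + E.delta Q' := by
  have := E.delta_sum (T := Bool) (fun b => match b with | true => Q | false => Q')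
    (fun b => match b with | true => i | false => i')
    (fun b => match b with | true => r | false => r')
    (fun b => match b with | true => h | false => h') (by rw [Fintype.sum_bool]; exact tot)
  rwa [Fintype.sum_bool] at this

theorem delta_frame {J : Type} [Fintype J] {S : J → AM E} (h : SS S) (P : AM E) :
    E.delta P = ∑ j, (finrank ℂ (S j ⟶ P) : ℂ) * E.delta (S j) := by
  let φ := h.fr P
  rw [E.delta_sum (fun t : (Σ j, φ.T j) => S t.1) (fun t => φ.e t.1 t.2) (fun t => φ.f t.1 t.2)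
    (fun t => φ.ef _ _) φ.sigma_tot, Fintype.sum_sigma]
  refine Finset.sum_congr rfl fun j _ => ?_
  change ∑ _y : φ.T j, E.delta (S j) = _
  rw [φ.finrank_to h, Finset.sum_const, Finset.card_univ, nsmul_eq_mul]

theorem delta_zero (hpos : M.Pos) {P : AM E} (h : E.delta P = 0) : 𝟙 P = 0 := by
  have h1 := hpos (fun k => finrank ℂ (E.F.obj (M.X k) ⟶ P))
    (by rw [← h]; exact Finset.sum_congr rfl fun k _ => mul_comm _ _)
  refine E.gen P fun i f => ?_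
  have : Subsingleton (E.F.obj (M.X i) ⟶ P) := Module.finrank_zero_iff.1 (h1 i)
  exact Subsingleton.elim _ _

/-- a retract of full dimension is everything -/
theorem delta_full (hpos : M.Pos) {P Q : AM E} (i : Q ⟶ P) (r : P ⟶ Q) (hir : i ≫ r = 𝟙 Q)
    (h : E.delta Q = E.delta P) : r ≫ i = 𝟙 P := by
  obtain ⟨Q', i', r', a, b⟩ := IsIdempotentComplete.idempotents_split P (𝟙 P - r ≫ i)
    (by rw [Preadditive.sub_comp, Preadditive.comp_sub, Preadditive.comp_sub, Category.id_comp,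
          Category.id_comp, Category.comp_id, Category.assoc, reassoc_of% hir, sub_self, sub_zero])
  have h1 := E.delta_two i r i' r' hir a (by rw [b, add_sub_cancel])
  rw [h, left_eq_add] at h1
  have h2 := E.delta_zero hpos h1
  rw [← Category.id_comp i', h2, zero_comp, comp_zero] at b
  exact (sub_eq_zero.1 b.symm).symm

theorem delta_F (Y : C) : E.delta (E.F.obj Y) = M.trL Y (𝟙 Y) * E.dL := by
  unfold dL
  rw [← M.trL_tensor, id_tensorHom_id, M.trL_id]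
  exact Finset.sum_congr rfl fun k _ => by rw [(E.homF _ _).finrank_eq]

theorem delta_unit : E.delta (𝟙_ (AM E)) = E.dL := by
  rw [E.delta_iso (Functor.Monoidal.εIso E.F), delta_F, M.trL_unit, M.s1.sc_id, _root_.one_mul]

theorem dL_ne (hpos : M.Pos) : E.dL ≠ 0 := fun h =>
  E.sim_unit.ne (E.delta_zero hpos (by rw [delta_unit, h]))

/-- the unit component of a morphism with an `L`-leg -/
noncomputable def c0 {X Y : C} (g : X ⟶ Y ⊗ L) : X ⟶ Y := g ≫ Y ◁ E.eps ≫ (ρ_ Y).hom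

theorem pt_leg {Y d : C} (B : Du Y d) (g : Y ⟶ Y ⊗ L) :
    M.tw.pt B ((ρ_ Y).hom ≫ g) = M.trL Y (E.c0 g) • E.u := by
  rw [E.unit_eq (M.tw.pt B ((ρ_ Y).hom ≫ g))]
  congr 1
  apply M.s1.sc_eq
  rw [← M.tr_eq B, ← Tw.pt_unit]
  unfold Tw.pt c0
  rw [← ptr_right]
  congr 1
  monoidal

theorem pt_leg_whisk {Y d Z W : C} (B : Du Y d) (g : Y ⟶ Y ⊗ L) (h : L ⊗ Z ⟶ W) :
    M.tw.pt B (g ▷ Z ≫ (α_ Y L Z).hom ≫ Y ◁ h) =
      M.trL Y (E.c0 g) • ((λ_ Z).inv ≫ E.u ▷ Z ≫ h) := by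
  have h1 : g ▷ Z ≫ (α_ Y L Z).hom ≫ Y ◁ h = Y ◁ (λ_ Z).inv ≫
      ((α_ Y (𝟙_ C) Z).inv ≫ ((ρ_ Y).hom ≫ g) ▷ Z ≫ (α_ Y L Z).hom) ≫ Y ◁ h := by monoidal
  have h2 := E.pt_leg B g
  unfold Tw.pt at h2 ⊢
  rw [h1, ptr_left, ptr_right, ptr_whisk, h2]
  simp

theorem trL_ext {Y : C} (g : Y ⟶ Y ⊗ L) :
    M.trL (Y ⊗ L) (E.ext g) = M.trL Y (E.c0 g) * E.dL := by
  apply M.s1.inj
  rw [← M.tr_eq ((du Y).tensor (du L)), Tw.tr_tensor]
  unfold ext act
  rw [pt_leg_whisk, E.one_mul, Iso.inv_hom_id, M.tr_eq, map_smul]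
  rfl

theorem delta_eq (P : AM E) : E.delta P = M.trL P.X.X (E.c0 P.p.f) * E.dL := by
  rw [delta_R, ← E.Ri_Rr, M.trL_cyc, Rr_Ri, trL_ext]

theorem trL_c0_tensor {Y Z : Kl E} (p : Y ⟶ Y) (q : Z ⟶ Z) :
    M.trL (Y.X ⊗ Z.X) (E.c0 (p ⊗ₘ q).f) = M.trL Y.X (E.c0 p.f) * M.trL Z.X (E.c0 q.f) := by
  have h1 : E.c0 (p ⊗ₘ q).f = p.f ▷ Z.X ≫ (α_ _ _ _).hom ≫
      Y.X ◁ ((β_ Z.X L).inv ≫ E.ext q.f ≫ Z.X ◁ E.eps ≫ (ρ_ _).hom) := by
    rw [Kl.tensorHom_eq, Kl.comp_f, Kl.wr_f, Kl.wl_f]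
    unfold c0 ext act
    simp only [Kl.tensor_X]
    monoidal
  have h2 : (λ_ Z.X).inv ≫ E.u ▷ Z.X ≫ (β_ Z.X L).inv = E.un Z.X := by
    unfold un
    rw [braiding_inv_naturality_left, braiding_inv_tensorUnit_right]; monoidal
  apply M.s1.inj
  rw [← M.tr_eq ((du Y.X).tensor (du Z.X)), Tw.tr_tensor]
  erw [h1]
  rw [pt_leg_whisk, reassoc_of% h2, un_ext_assoc, M.tr_eq, map_smul]
  rfl

theorem delta_tensor (P Q : AM E) : E.delta (P ⊗ Q) * E.dL = E.delta P * E.delta Q := by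
  rw [delta_eq, delta_eq, delta_eq]
  have := E.trL_c0_tensor P.p Q.p
  change M.trL (P.X.X ⊗ Q.X.X) (E.c0 (P.p ⊗ₘ Q.p).f) * E.dL * E.dL = _
  rw [this]; ring

theorem c0_mate {Y d : Kl E} (B : Du Y.X d.X) (p : Y ⟶ Y) (q : d ⟶ d)
    (h : Kl.of (X := 𝟙_ _) (Y := Y ⊗ d) B.η ≫ Y ◁ q = Kl.of (X := 𝟙_ _) (Y := Y ⊗ d) B.η ≫ p ▷ d) :
    E.c0 q.f = B.mate B (E.c0 p.f) := by
  have h1 := congrArg Kl.Hom.f h
  rw [Kl.of_comp_f, Kl.of_comp_f, Kl.wl_f, Kl.wr_f] at h1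
  apply B.η_left_inj
  rw [Du.mate_η]
  unfold c0
  calc _ = (B.η ≫ Y.X ◁ q.f ≫ (α_ Y.X d.X L).inv) ≫ (Y.X ⊗ d.X) ◁ E.eps ≫ (ρ_ _).hom := by
        monoidal
    _ = B.η ⊗≫ p.f ▷ d.X ⊗≫ Y.X ◁ ((β_ d.X L).inv ≫ d.X ◁ E.eps) ⊗≫ 𝟙 _ := by
        erw [h1]; monoidal
    _ = _ := by
        rw [← braiding_inv_naturality_left, braiding_inv_tensorUnit_right]; monoidal

theorem delta_dual {P Q : AM E} (B : Du P Q) : E.delta Q = E.delta P := by
  let B0 : Du P.X (⟨P.X.Xᘁ⟩ : Kl E) := (du P.X.X).map E.F0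
  rw [E.delta_iso (B.uniq (Kar.duR P B0)), delta_eq, delta_eq]
  have hη : B0.η = Kl.of (X := 𝟙_ _) (Y := P.X ⊗ ⟨P.X.Xᘁ⟩) (du P.X.X).η :=
    (Category.id_comp _).trans (Category.comp_id _)
  have h := B0.mate_η B0 P.p
  rw [hη] at h
  have h2 := E.c0_mate (d := ⟨P.X.Xᘁ⟩) (du P.X.X) P.p _ h
  change M.trL (P.X.Xᘁ) (E.c0 (B0.mate B0 P.p).f) * _ = _
  rw [h2, M.trL_mate]

/-- the sum of the squares of the dimensions of the simple modules -/
theorem sum_delta_sq {J : Type} [Fintype J] {S : J → AM E} (h : SS S) :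
    ∑ j, E.delta (S j) ^ 2 = E.dL * ∑ k, M.dim k ^ 2 := by
  calc _ = ∑ j, ∑ k, M.dim k * ((finrank ℂ (S j ⟶ E.F.obj (M.X k)) : ℂ) * E.delta (S j)) := by
        refine Finset.sum_congr rfl fun j _ => ?_
        rw [sq]
        conv_lhs => enter [1]; unfold delta
        rw [Finset.sum_mul]
        exact Finset.sum_congr rfl fun k _ => by rw [h.finrank_symm, mul_assoc]
    _ = ∑ k, M.dim k * E.delta (E.F.obj (M.X k)) := by
        rw [Finset.sum_comm]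
        exact Finset.sum_congr rfl fun k _ => by rw [E.delta_frame h, Finset.mul_sum]
    _ = _ := by
        rw [Finset.mul_sum]
        refine Finset.sum_congr rfl fun k _ => ?_
        rw [delta_F]; unfold Modular.dim; ring

end Etale

end Pool.Agent.Lib.MP_edb142_al
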