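import Pool.Agent.Lib.MP_edb142_al.H.Alg

open CategoryTheory MonoidalCategory Limits BraidedCategory

set_option linter.unusedSectionVars false

namespace Pool.Agent.Lib.MP_edb142_al

universe v u

variable {C : Type u} [Category.{v} C] [Preadditive C] [Linear ℂ C] [MonoidalCategory C]
  [MonoidalPreadditive C] [MonoidalLinear ℂ C] [HasFiniteBiproducts C] [BraidedCategory C]
  [RigidCategory C] {I : Type} [Fintype I] [DecidableEq I] {M : Modular C I} {L : C}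

namespace Etale
variable (E : Etale M L)

attribute [reassoc] Etale.assoc Etale.one_mul Etale.comm Etale.frob_l Etale.frob_r Etale.sep

@[reassoc] theorem comm_inv : (β_ L L).inv ≫ E.m = E.m := by
  rw [Iso.inv_comp_eq, E.comm]

@[reassoc] theorem mul_one : L ◁ E.u ≫ E.m = (ρ_ L).hom := by
  rw [← E.comm, braiding_naturality_right_assoc, E.one_mul, braiding_leftUnitor]

/-- the right action of `L` on the free module `Y ⊗ L` -/
def act (Y : C) : (Y ⊗ L) ⊗ L ⟶ Y ⊗ L := (α_ Y L L).hom ≫ Y ◁ E.m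

/-- the unit `Y ⟶ Y ⊗ L` -/
def un (Y : C) : Y ⟶ Y ⊗ L := (ρ_ Y).inv ≫ Y ◁ E.u

/-- the `L`-linear extension of `g : X ⟶ Y ⊗ L` -/
def ext {X Y : C} (g : X ⟶ Y ⊗ L) : X ⊗ L ⟶ Y ⊗ L := g ▷ L ≫ E.act Y

@[reassoc] theorem un_nat {X Y : C} (f : X ⟶ Y) : f ≫ E.un Y = E.un X ≫ f ▷ L := by
  unfold un
  rw [rightUnitor_inv_naturality_assoc, Category.assoc, whisker_exchange]

@[reassoc] theorem act_nat {X Y : C} (f : X ⟶ Y) :
    f ▷ L ▷ L ≫ E.act Y = E.act X ≫ f ▷ L := by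
  unfold act
  rw [associator_naturality_left_assoc, Category.assoc, whisker_exchange]

@[reassoc] theorem un_act (Y : C) : E.un Y ▷ L ≫ E.act Y = 𝟙 _ := by
  unfold un act
  calc _ = 𝟙 _ ⊗≫ Y ◁ (E.u ▷ L ≫ E.m) := by monoidal
    _ = _ := by rw [E.one_mul]; monoidal

@[reassoc] theorem un_act' (Y : C) : E.un (Y ⊗ L) ≫ E.act Y = 𝟙 _ := by
  unfold un act
  calc _ = 𝟙 _ ⊗≫ Y ◁ (L ◁ E.u ≫ E.m) := by monoidal
    _ = _ := by rw [E.mul_one]; monoidal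

@[reassoc] theorem act_act (Y : C) : E.act Y ▷ L ≫ E.act Y = E.act (Y ⊗ L) ≫ E.act Y := by
  unfold act
  calc _ = 𝟙 _ ⊗≫ Y ◁ (E.m ▷ L ≫ E.m) := by monoidal
    _ = _ := by rw [E.assoc]; monoidal

@[reassoc] theorem un_ext {X Y : C} (g : X ⟶ Y ⊗ L) : E.un X ≫ E.ext g = g := by
  unfold ext
  rw [← E.un_nat_assoc, un_act', Category.comp_id]

theorem ext_un (X : C) : E.ext (E.un X) = 𝟙 _ := E.un_act X

theorem ext_comp {X Y Z : C} (f : X ⟶ Y) (g : Y ⟶ Z ⊗ L) : E.ext (f ≫ g) = f ▷ L ≫ E.ext g := by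
  unfold ext; simp

theorem ext_comp_un {X Y : C} (f : X ⟶ Y) : E.ext (f ≫ E.un Y) = f ▷ L := by
  rw [ext_comp, ext_un, Category.comp_id]

@[reassoc] theorem act_ext {X Y : C} (g : X ⟶ Y ⊗ L) :
    E.act X ≫ E.ext g = E.ext g ▷ L ≫ E.act Y := by
  unfold ext
  rw [← E.act_nat_assoc, comp_whiskerRight, Category.assoc, act_act]

theorem ext_ext {X Y Z : C} (f : X ⟶ Y ⊗ L) (g : Y ⟶ Z ⊗ L) :
    E.ext (f ≫ E.ext g) = E.ext f ≫ E.ext g := by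
  conv_lhs => unfold ext
  conv_rhs => enter [1]; unfold ext
  rw [Category.assoc, act_ext, comp_whiskerRight, Category.assoc]
  rfl

theorem ext_add {X Y : C} (f g : X ⟶ Y ⊗ L) : E.ext (f + g) = E.ext f + E.ext g := by
  unfold ext; simp

theorem ext_smul {X Y : C} (c : ℂ) (f : X ⟶ Y ⊗ L) : E.ext (c • f) = c • E.ext f := by
  unfold ext; simp

theorem ext_zero {X Y : C} : E.ext (0 : X ⟶ Y ⊗ L) = 0 := by
  unfold ext; simp

end Etale

/-- Objects of the Kleisli category of free `L`-modules. -/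
structure Kl (E : Etale M L) where
  X : C

namespace Kl
variable {E : Etale M L}

/-- Morphisms of the Kleisli category. -/
@[ext] structure Hom (X Y : Kl E) where
  f : X.X ⟶ Y.X ⊗ L

instance : Category.{v} (Kl E) where
  Hom := Hom
  id X := ⟨E.un X.X⟩
  comp f g := ⟨f.f ≫ E.ext g.f⟩
  id_comp f := Hom.ext (E.un_ext _)
  comp_id f := Hom.ext (by simp [E.ext_un])
  assoc f g h := Hom.ext (by simp [E.ext_ext])

@[ext] theorem hom_ext {X Y : Kl E} {f g : X ⟶ Y} (h : f.f = g.f) : f = g := Hom.ext h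

/-- constructor for morphisms -/
def mkHom {X Y : Kl E} (f : X.X ⟶ Y.X ⊗ L) : X ⟶ Y := ⟨f⟩

@[simp] theorem mkHom_f {X Y : Kl E} (f : X.X ⟶ Y.X ⊗ L) : (mkHom f).f = f := rfl
theorem id_f (X : Kl E) : Hom.f (𝟙 X) = E.un X.X := rfl
theorem comp_f {X Y Z : Kl E} (f : X ⟶ Y) (g : Y ⟶ Z) : (f ≫ g).f = f.f ≫ E.ext g.f := rfl

def homEquiv (X Y : Kl E) : (X ⟶ Y) ≃ (X.X ⟶ Y.X ⊗ L) where
  toFun f := f.f
  invFun := mkHom
  left_inv _ := rfl
  right_inv _ := rfl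

instance (X Y : Kl E) : AddCommGroup (X ⟶ Y) := (homEquiv X Y).addCommGroup
instance (X Y : Kl E) : Module ℂ (X ⟶ Y) := (homEquiv X Y).module ℂ

@[simp] theorem add_f {X Y : Kl E} (f g : X ⟶ Y) : (f + g).f = f.f + g.f := rfl
@[simp] theorem smul_f {X Y : Kl E} (c : ℂ) (f : X ⟶ Y) : (c • f).f = c • f.f := rfl
@[simp] theorem zero_f {X Y : Kl E} : (0 : X ⟶ Y).f = 0 := rfl

instance : Preadditive (Kl E) where
  homGroup _ _ := inferInstance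
  add_comp _ _ _ f g h := by ext; simp [comp_f]
  comp_add _ _ _ f g h := by ext; simp [comp_f, E.ext_add]

instance : Linear ℂ (Kl E) where
  homModule _ _ := inferInstance
  smul_comp _ _ _ c f g := by ext; simp [comp_f]
  comp_smul _ _ _ f c g := by ext; simp [comp_f, E.ext_smul]

/-- the linear identification of the morphism spaces -/
def homL (X Y : Kl E) : (X ⟶ Y) ≃ₗ[ℂ] (X.X ⟶ Y.X ⊗ L) where
  toFun f := f.f
  map_add' _ _ := rfl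
  map_smul' _ _ := rfl
  invFun := mkHom
  left_inv _ := rfl
  right_inv _ := rfl

theorem sum_f {X Y : Kl E} {T : Type*} (s : Finset T) (g : T → (X ⟶ Y)) :
    (∑ a ∈ s, g a).f = ∑ a ∈ s, (g a).f := map_sum (homL X Y) g s

end Kl

/-- The free module functor to the Kleisli category. -/
@[implicit_reducible] def Etale.F0 (E : Etale M L) : C ⥤ Kl E where
  obj X := ⟨X⟩
  map f := ⟨f ≫ E.un _⟩
  map_id X := Kl.hom_ext (by simp [Kl.id_f])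
  map_comp f g := Kl.hom_ext (by
    simp only [Kl.comp_f, E.ext_comp_un, Category.assoc, ← E.un_nat])

namespace Kl
variable {E : Etale M L}

/-- the image of a morphism of `C`, with arbitrary source and target objects -/
def of {X Y : Kl E} (f : X.X ⟶ Y.X) : X ⟶ Y := ⟨f ≫ E.un _⟩

theorem of_f {X Y : Kl E} (f : X.X ⟶ Y.X) : (of f).f = f ≫ E.un _ := rfl
theorem F0_map {X Y : C} (f : X ⟶ Y) : E.F0.map f = of (X := ⟨X⟩) (Y := ⟨Y⟩) f := rfl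
theorem of_id (X : Kl E) : of (𝟙 X.X) = 𝟙 X := E.F0.map_id X.X
@[reassoc] theorem of_comp {X Y Z : Kl E} (f : X.X ⟶ Y.X) (g : Y.X ⟶ Z.X) :
    of f ≫ of g = of (f ≫ g) := (E.F0.map_comp f g).symm

theorem of_comp_f {X Y Z : Kl E} (f : X.X ⟶ Y.X) (g : Y ⟶ Z) : (of f ≫ g).f = f ≫ g.f := by
  rw [comp_f, of_f, Category.assoc, E.un_ext]

theorem comp_of_f {X Y Z : Kl E} (g : X ⟶ Y) (f : Y.X ⟶ Z.X) : (g ≫ of f).f = g.f ≫ f ▷ L := by
  rw [comp_f, of_f, E.ext_comp_un]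

/-- the image of an isomorphism -/
def ofIso {X Y : Kl E} (φ : X.X ≅ Y.X) : X ≅ Y where
  hom := of φ.hom
  inv := of φ.inv
  hom_inv_id := by rw [of_comp, φ.hom_inv_id, of_id]
  inv_hom_id := by rw [of_comp, φ.inv_hom_id, of_id]

instance : MonoidalCategoryStruct (Kl E) where
  tensorObj X Y := ⟨X.X ⊗ Y.X⟩
  whiskerLeft X _ _ g := ⟨X.X ◁ g.f ≫ (α_ _ _ _).inv⟩
  whiskerRight g Z := ⟨g.f ▷ Z.X ≫ (α_ _ _ _).hom ≫ _ ◁ (β_ Z.X L).inv ≫ (α_ _ _ _).inv⟩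
  tensorUnit := ⟨𝟙_ C⟩
  associator X Y Z := ofIso (α_ X.X Y.X Z.X)
  leftUnitor X := ofIso (λ_ X.X)
  rightUnitor X := ofIso (ρ_ X.X)

theorem tensor_X (X Y : Kl E) : (X ⊗ Y).X = X.X ⊗ Y.X := rfl
theorem unit_X : (𝟙_ (Kl E)).X = 𝟙_ C := rfl
theorem wl_f (X : Kl E) {Y Z : Kl E} (g : Y ⟶ Z) :
    (X ◁ g).f = X.X ◁ g.f ≫ (α_ X.X Z.X L).inv := rfl
theorem wr_f {X Y : Kl E} (g : X ⟶ Y) (Z : Kl E) : (g ▷ Z).f =
    g.f ▷ Z.X ≫ (α_ Y.X L Z.X).hom ≫ Y.X ◁ (β_ Z.X L).inv ≫ (α_ Y.X Z.X L).inv := rfl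
theorem tensorHom_eq {X Y X' Y' : Kl E} (f : X ⟶ Y) (g : X' ⟶ Y') :
    f ⊗ₘ g = f ▷ X' ≫ Y ◁ g := rfl
theorem assoc_hom (X Y Z : Kl E) : (α_ X Y Z).hom = of (α_ X.X Y.X Z.X).hom := rfl
theorem assoc_inv (X Y Z : Kl E) : (α_ X Y Z).inv = of (α_ X.X Y.X Z.X).inv := rfl
theorem lu_hom (X : Kl E) : (λ_ X).hom = of (λ_ X.X).hom := rfl
theorem lu_inv (X : Kl E) : (λ_ X).inv = of (λ_ X.X).inv := rfl
theorem ru_hom (X : Kl E) : (ρ_ X).hom = of (ρ_ X.X).hom := rfl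
theorem ru_inv (X : Kl E) : (ρ_ X).inv = of (ρ_ X.X).inv := rfl

theorem wl_of (X : Kl E) {Y Z : Kl E} (g : Y.X ⟶ Z.X) :
    X ◁ of g = of (X := X ⊗ Y) (Y := X ⊗ Z) (X.X ◁ g) := by
  ext
  rw [wl_f, of_f, of_f]
  unfold Etale.un
  simp only [tensor_X]
  monoidal

theorem wr_of {X Y : Kl E} (g : X.X ⟶ Y.X) (Z : Kl E) :
    of g ▷ Z = of (X := X ⊗ Z) (Y := Y ⊗ Z) (g ▷ Z.X) := by
  ext
  rw [wr_f, of_f, of_f]
  unfold Etale.un
  simp only [tensor_X]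
  calc _ = g ▷ Z.X ⊗≫ Y.X ◁ (E.u ▷ Z.X ≫ (β_ Z.X L).inv) ⊗≫ 𝟙 _ := by monoidal
    _ = _ := by
      rw [braiding_inv_naturality_left, braiding_inv_tensorUnit_right]; monoidal

theorem wl_comp (W : Kl E) {X Y Z : Kl E} (f : X ⟶ Y) (g : Y ⟶ Z) :
    W ◁ (f ≫ g) = W ◁ f ≫ W ◁ g := by
  ext
  simp only [wl_f, comp_f, Etale.ext, Etale.act, tensor_X]
  monoidal

theorem wr_comp {X Y Z : Kl E} (f : X ⟶ Y) (g : Y ⟶ Z) (W : Kl E) :
    (f ≫ g) ▷ W = f ▷ W ≫ g ▷ W := by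
  ext
  simp only [wr_f, comp_f, Etale.ext, Etale.act, tensor_X]
  calc _ = f.f ▷ W.X ⊗≫ g.f ▷ (L ⊗ W.X) ⊗≫ Z.X ◁ (E.m ▷ W.X ≫ (β_ W.X L).inv) ⊗≫ 𝟙 _ := by
        monoidal
    _ = f.f ▷ W.X ⊗≫ (g.f ▷ (L ⊗ W.X) ≫ (Z.X ⊗ L) ◁ (β_ W.X L).inv) ⊗≫
          Z.X ◁ (β_ W.X L).inv ▷ L ⊗≫ Z.X ◁ W.X ◁ E.m ⊗≫ 𝟙 _ := by
        rw [braiding_inv_naturality_left, braiding_tensor_right_inv]; monoidal
    _ = _ := by rw [← whisker_exchange]; monoidal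

theorem exch {W X Y Z : Kl E} (f : W ⟶ X) (g : Y ⟶ Z) : W ◁ g ≫ f ▷ Z = f ▷ Y ≫ X ◁ g := by
  ext
  simp only [wl_f, wr_f, comp_f, Etale.ext, Etale.act, tensor_X]
  calc _ = (W.X ◁ g.f ≫ f.f ▷ (Z.X ⊗ L)) ⊗≫ X.X ◁ (β_ Z.X L).inv ▷ L ⊗≫
          X.X ◁ Z.X ◁ E.m ⊗≫ 𝟙 _ := by monoidal
    _ = f.f ▷ Y.X ⊗≫ X.X ◁ (L ◁ g.f ≫ (β_ (Z.X ⊗ L) L).inv) ⊗≫ X.X ◁ Z.X ◁ E.m ⊗≫ 𝟙 _ := by
        rw [whisker_exchange, braiding_tensor_left_inv]
        conv_lhs => rw [← E.comm_inv]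
        monoidal
    _ = _ := by rw [braiding_inv_naturality_right]; monoidal

theorem assoc_l {X X' : Kl E} (f : X ⟶ X') (Y Z : Kl E) :
    f ▷ Y ▷ Z ≫ (α_ X' Y Z).hom = (α_ X Y Z).hom ≫ f ▷ (Y ⊗ Z) := by
  ext
  rw [assoc_hom, assoc_hom, comp_of_f, of_comp_f]
  simp only [wr_f, tensor_X]
  rw [braiding_tensor_left_inv]; monoidal

theorem assoc_m (X : Kl E) {Y Y' : Kl E} (f : Y ⟶ Y') (Z : Kl E) :
    (X ◁ f) ▷ Z ≫ (α_ X Y' Z).hom = (α_ X Y Z).hom ≫ X ◁ f ▷ Z := by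
  ext
  rw [assoc_hom, assoc_hom, comp_of_f, of_comp_f]
  simp only [wr_f, wl_f, tensor_X]
  monoidal

theorem assoc_r (X Y : Kl E) {Z Z' : Kl E} (f : Z ⟶ Z') :
    (X ⊗ Y) ◁ f ≫ (α_ X Y Z').hom = (α_ X Y Z).hom ≫ X ◁ Y ◁ f := by
  ext
  rw [assoc_hom, assoc_hom, comp_of_f, of_comp_f]
  simp only [wl_f, tensor_X]
  monoidal

instance : MonoidalCategory (Kl E) where
  tensorHom_def _ _ := rfl
  id_tensorHom_id X Y := by
    rw [tensorHom_eq, ← of_id, ← of_id, wr_of, wl_of, of_comp, ← of_id]; simp [tensor_X]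
  tensorHom_comp_tensorHom f₁ f₂ g₁ g₂ := by
    simp only [tensorHom_eq, wl_comp, wr_comp, Category.assoc]
    rw [reassoc_of% (exch g₁ f₂)]
  whiskerLeft_id X Y := by rw [← of_id, wl_of, ← of_id]; simp [tensor_X]
  id_whiskerRight X Y := by rw [← of_id, wr_of, ← of_id]; simp [tensor_X]
  associator_naturality f₁ f₂ f₃ := by
    simp only [tensorHom_eq, wl_comp, wr_comp, Category.assoc]
    rw [assoc_r, reassoc_of% (assoc_m _ f₂ _), reassoc_of% (assoc_l f₁ _ _)]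
  leftUnitor_naturality f := by
    ext
    rw [lu_hom, lu_hom, comp_of_f, of_comp_f]
    simp only [wl_f, unit_X, tensor_X]
    monoidal
  rightUnitor_naturality f := by
    ext
    rw [ru_hom, ru_hom, comp_of_f, of_comp_f]
    simp only [wr_f, unit_X, tensor_X]
    rw [braiding_inv_tensorUnit_left]
    monoidal
  pentagon W X Y Z := by
    simp only [assoc_hom, wl_of, wr_of, of_comp, tensor_X]
    congr 1
    monoidal
  triangle X Y := by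
    simp only [assoc_hom, lu_hom, ru_hom, wl_of, wr_of, of_comp, tensor_X, unit_X]
    congr 1
    monoidal

instance : MonoidalPreadditive (Kl E) where
  whiskerLeft_zero := by intros; ext; simp [wl_f]
  zero_whiskerRight := by intros; ext; simp [wr_f]
  whiskerLeft_add := by intros; ext; simp [wl_f]
  add_whiskerRight := by intros; ext; simp [wr_f]

instance : MonoidalLinear ℂ (Kl E) where
  whiskerLeft_smul := by intros; ext; simp [wl_f]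
  smul_whiskerRight := by intros; ext; simp [wr_f]

end Kl

end Pool.Agent.Lib.MP_edb142_al
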