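import Pool.Agent.Lib.MP_edb142_al.H.K1a
import Pool.Agent.Lib.MP_edb142_al.H.K1b

open CategoryTheory MonoidalCategory Limits BraidedCategory Idempotents
open Functor.LaxMonoidal Functor.OplaxMonoidal

set_option linter.unusedSectionVars false

namespace Pool.Agent.Lib.MP_edb142_al

universe v u

variable {C : Type u} [Category.{v} C] [Preadditive C] [Linear ℂ C] [MonoidalCategory C]
  [MonoidalPreadditive C] [MonoidalLinear ℂ C] [HasFiniteBiproducts C] [BraidedCategory C]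
  [RigidCategory C] {I : Type} [Fintype I] [DecidableEq I] {M : Modular C I} {L : C}

namespace Kl
variable {E : Etale M L}

theorem of_add {X Y : Kl E} (f g : X.X ⟶ Y.X) : of (f + g) = of f + of g := by
  ext; simp [of_f]

theorem of_smul {X Y : Kl E} (c : ℂ) (f : X.X ⟶ Y.X) : of (c • f) = c • of f := by
  ext; simp [of_f]

theorem of_zero {X Y : Kl E} : of (0 : X.X ⟶ Y.X) = 0 := by
  ext; simp [of_f]

instance : E.F0.Additive where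
  map_add := of_add _ _

instance : E.F0.Linear ℂ where
  map_smul f c := of_smul c f

/-- the strict monoidal structure of the free module functor -/
def core (E : Etale M L) : E.F0.CoreMonoidal where
  εIso := Iso.refl _
  μIso _ _ := Iso.refl _
  μIso_hom_natural_left f X := by
    simp only [Iso.refl_hom]
    exact (Category.comp_id _).trans ((wr_of (X := ⟨_⟩) (Y := ⟨_⟩) f ⟨X⟩).trans
      (Category.id_comp _).symm)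
  μIso_hom_natural_right X f := by
    simp only [Iso.refl_hom]
    exact (Category.comp_id _).trans ((wl_of ⟨X⟩ (Y := ⟨_⟩) (Z := ⟨_⟩) f).trans
      (Category.id_comp _).symm)
  associativity X Y Z := by
    simp only [Iso.refl_hom]
    erw [id_whiskerRight, MonoidalCategory.whiskerLeft_id, Category.id_comp, Category.id_comp,
      Category.id_comp, Category.comp_id]
    rfl
  left_unitality X := by
    simp only [Iso.refl_hom]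
    erw [id_whiskerRight, Category.id_comp, Category.id_comp]
    rfl
  right_unitality X := by
    simp only [Iso.refl_hom]
    erw [MonoidalCategory.whiskerLeft_id, Category.id_comp, Category.id_comp]
    rfl

instance : E.F0.Monoidal := (core E).toMonoidal

instance : HasFiniteBiproducts (Kl E) where
  out n := ⟨fun f => by
    refine hasBiproduct_of_total
      { pt := ⟨⨁ fun j => (f j).X⟩
        π := fun j => of (biproduct.π (fun j => (f j).X) j)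
        ι := fun j => of (biproduct.ι (fun j => (f j).X) j)
        ι_π := fun j j' => ?_ } ?_
    · rw [of_comp]
      split_ifs with h
      · subst h; simp [of_id]
      · rw [biproduct.ι_π_ne _ h, of_zero]
    · simp only [of_comp]
      ext
      rw [sum_f, id_f]
      simp only [of_f]
      rw [← Preadditive.sum_comp, biproduct.total, Category.id_comp]⟩

noncomputable instance : RigidCategory (Kl E) where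
  rightDual X := @HasRightDual.mk _ _ _ X ⟨X.Xᘁ⟩ ((Du.ofEP X.X (X.Xᘁ)).map E.F0).toEP
  leftDual X := @HasLeftDual.mk _ _ _ X ⟨ᘁX.X⟩ ((Du.ofEP (ᘁX.X : C) X.X).map E.F0).toEP

/-- the image of the braiding -/
def br (X Y : Kl E) : X ⊗ Y ≅ Y ⊗ X := ofIso (β_ X.X Y.X)

theorem br_hom (X Y : Kl E) : (br X Y).hom = of (β_ X.X Y.X).hom := rfl
theorem br_inv (X Y : Kl E) : (br X Y).inv = of (β_ X.X Y.X).inv := rfl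

@[reassoc] theorem br_nat (X : Kl E) {Y Z : Kl E} (g : Y ⟶ Z) :
    X ◁ g ≫ (br X Z).hom = (br X Y).hom ≫ g ▷ X := by
  ext
  rw [br_hom, br_hom, comp_of_f, of_comp_f, wl_f, wr_f]
  simp only [tensor_X]
  rw [← braiding_naturality_right_assoc, braiding_tensor_right_hom]
  simp only [Category.assoc, Iso.inv_hom_id_assoc]
  rw [← MonoidalCategory.whiskerLeft_comp_assoc, Iso.hom_inv_id]
  simp

@[reassoc] theorem br_nat_of {X X' : Kl E} (f : X.X ⟶ X'.X) (Y : Kl E) :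
    of f ▷ Y ≫ (br X' Y).hom = (br X Y).hom ≫ Y ◁ of f := by
  rw [wr_of, wl_of, br_hom, br_hom, of_comp, of_comp]
  congr 1
  exact braiding_naturality_left _ _

theorem br_tensor_right (X Y Z : Kl E) : (br X (Y ⊗ Z)).hom = (α_ X Y Z).inv ≫ (br X Y).hom ▷ Z ≫
    (α_ Y X Z).hom ≫ Y ◁ (br X Z).hom ≫ (α_ Y Z X).inv := by
  simp only [br_hom, assoc_hom, assoc_inv, wl_of, wr_of, of_comp]
  congr 1
  exact braiding_tensor_right_hom _ _ _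

theorem br_tensor_left (X Y Z : Kl E) : (br (X ⊗ Y) Z).hom = (α_ X Y Z).hom ≫ X ◁ (br Y Z).hom ≫
    (α_ X Z Y).inv ≫ (br X Z).hom ▷ Y ≫ (α_ Z X Y).hom := by
  simp only [br_hom, assoc_hom, assoc_inv, wl_of, wr_of, of_comp]
  congr 1
  exact braiding_tensor_left_hom _ _ _

theorem aux_left (A B Z : Kl E) (q : Z ⟶ Z) (hq : q ≫ q = q) :
    ((𝟙 A ⊗ₘ 𝟙 B) ⊗ₘ q) ≫ (br (A ⊗ B) Z).hom ≫ (q ⊗ₘ (𝟙 A ⊗ₘ 𝟙 B)) =
    (((𝟙 A ⊗ₘ 𝟙 B) ⊗ₘ q) ≫ (α_ A B Z).hom) ≫ (𝟙 A ⊗ₘ ((br B Z).hom ≫ q ▷ B)) ≫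
    ((𝟙 A ⊗ₘ (q ⊗ₘ 𝟙 B)) ≫ (α_ A Z B).inv) ≫ (((br A Z).hom ≫ q ▷ A) ⊗ₘ 𝟙 B) ≫
    ((q ⊗ₘ 𝟙 A) ⊗ₘ 𝟙 B) ≫ (α_ Z A B).hom := by
  simp only [id_tensorHom, tensorHom_id, Category.assoc]
  congr 1
  rw [br_tensor_left]
  symm
  calc _ = 𝟙 _ ⊗≫ A ◁ (br B Z).hom ⊗≫ (A ◁ (q ≫ q) ≫ (br A Z).hom) ▷ B ⊗≫
        (q ≫ q) ▷ (A ⊗ B) ⊗≫ 𝟙 _ := by monoidal
    _ = 𝟙 _ ⊗≫ A ◁ (br B Z).hom ⊗≫ (br A Z).hom ▷ B ⊗≫
        (q ≫ q) ▷ (A ⊗ B) ⊗≫ 𝟙 _ := by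
        conv_lhs => rw [hq, br_nat]
        monoidal
    _ = _ := by rw [hq]; monoidal

theorem aux_right (A Z Z' : Kl E) (q : Z ⟶ Z) (hq : q ≫ q = q) (q' : Z' ⟶ Z')
    (hq' : q' ≫ q' = q') :
    (br A (Z ⊗ Z')).hom ≫ (q ⊗ₘ q') ▷ A =
    ((𝟙 A ⊗ₘ (q ⊗ₘ q')) ≫ (α_ A Z Z').inv) ≫ (((br A Z).hom ≫ q ▷ A) ⊗ₘ q') ≫
    (((q ⊗ₘ 𝟙 A) ⊗ₘ q') ≫ (α_ Z A Z').hom) ≫ (q ⊗ₘ ((br A Z').hom ≫ q' ▷ A)) ≫
    (q ⊗ₘ (q' ⊗ₘ 𝟙 A)) ≫ (α_ Z Z' A).inv := by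
  have h1 : (A ◁ q ≫ (br A Z).hom ≫ q ▷ A ≫ q ▷ A) = (br A Z).hom ≫ q ▷ A := by
    rw [br_nat_assoc, ← comp_whiskerRight, ← comp_whiskerRight, hq, hq]
  have h2 : A ◁ q' ≫ (br A Z').hom ≫ q' ▷ A ≫ q' ▷ A = (br A Z').hom ≫ q' ▷ A := by
    rw [br_nat_assoc, ← comp_whiskerRight, ← comp_whiskerRight, hq', hq']
  simp only [Category.assoc, tensorHom_comp_tensorHom_assoc, id_tensorHom, tensorHom_id, hq, hq']
  rw [br_tensor_right]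
  simp only [MonoidalCategory.tensorHom_def]
  symm
  calc _ = 𝟙 _ ⊗≫ (A ◁ q) ▷ Z' ⊗≫ ((A ⊗ Z) ◁ q' ≫ ((br A Z).hom ≫ q ▷ A ≫ q ▷ A) ▷ Z') ⊗≫
        ((Z ⊗ A) ◁ q' ≫ (q ▷ A) ▷ Z') ⊗≫
        Z ◁ ((br A Z').hom ≫ q' ▷ A ≫ q' ▷ A) ⊗≫ 𝟙 _ := by monoidal
    _ = 𝟙 _ ⊗≫ (A ◁ q ≫ (br A Z).hom ≫ q ▷ A ≫ q ▷ A) ▷ Z' ⊗≫
        ((Z ⊗ A) ◁ (q' ≫ q') ≫ (q ▷ A) ▷ Z') ⊗≫
        Z ◁ ((br A Z').hom ≫ q' ▷ A ≫ q' ▷ A) ⊗≫ 𝟙 _ := by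
        conv_lhs => rw [whisker_exchange]
        monoidal
    _ = 𝟙 _ ⊗≫ (br A Z).hom ▷ Z' ⊗≫ (q ≫ q) ▷ (A ⊗ Z') ⊗≫
        Z ◁ (A ◁ q' ≫ (br A Z').hom ≫ q' ▷ A ≫ q' ▷ A) ⊗≫ 𝟙 _ := by
        rw [h1, hq', whisker_exchange]; monoidal
    _ = 𝟙 _ ⊗≫ (br A Z).hom ▷ Z' ⊗≫ (q ▷ (A ⊗ Z') ≫ Z ◁ (br A Z').hom) ⊗≫
        Z ◁ q' ▷ A ⊗≫ 𝟙 _ := by
        rw [hq, h2]; monoidal
    _ = _ := by rw [← whisker_exchange]; monoidal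

theorem aux_inv (A Z : Kl E) (q : Z ⟶ Z) (hq : q ≫ q = q) :
    (q ⊗ₘ 𝟙 A) ≫ (q ▷ A ≫ (br A Z).inv) ≫ (𝟙 A ⊗ₘ q) = q ▷ A ≫ (br A Z).inv := by
  rw [tensorHom_id, id_tensorHom, Category.assoc, ← comp_whiskerRight_assoc, hq,
    ← cancel_mono (br A Z).hom]
  simp only [Category.assoc, br_nat, Iso.inv_hom_id_assoc, Iso.inv_hom_id, Category.comp_id,
    ← comp_whiskerRight, hq]

end Kl

/-- The category of `L`-modules: the Karoubi envelope of the Kleisli category. -/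
abbrev AM (E : Etale M L) : Type (max u v) := Karoubi (Kl E)

namespace Etale
variable (E : Etale M L)

/-- the free module functor -/
@[implicit_reducible] def F : C ⥤ AM E := E.F0 ⋙ toKaroubi (Kl E)

instance : E.F.Additive := inferInstanceAs (E.F0 ⋙ toKaroubi (Kl E)).Additive
instance : E.F.Linear ℂ := inferInstanceAs ((E.F0 ⋙ toKaroubi (Kl E)).Linear ℂ)
instance : E.F.Monoidal := inferInstanceAs (E.F0 ⋙ toKaroubi (Kl E)).Monoidal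

theorem F_X (Y : C) : (E.F.obj Y).X = ⟨Y⟩ := rfl
theorem F_p (Y : C) : (E.F.obj Y).p = 𝟙 (⟨Y⟩ : Kl E) := rfl
theorem F_map_f {X Y : C} (f : X ⟶ Y) : (E.F.map f).f = Kl.of (X := ⟨X⟩) (Y := ⟨Y⟩) f := rfl
theorem F_μ_f (X Y : C) : (μ E.F X Y).f = 𝟙 (⟨X ⊗ Y⟩ : Kl E) := Category.id_comp _
theorem F_δ_f (X Y : C) : (δ E.F X Y).f = 𝟙 (⟨X ⊗ Y⟩ : Kl E) := Category.id_comp _
theorem F_ε_f : (Functor.LaxMonoidal.ε E.F).f = 𝟙 (⟨𝟙_ C⟩ : Kl E) := Category.id_comp _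
theorem F_η_f : (Functor.OplaxMonoidal.η E.F).f = 𝟙 (⟨𝟙_ C⟩ : Kl E) := Category.id_comp _

/-- morphisms between free modules -/
def homF (X Y : C) : (E.F.obj X ⟶ E.F.obj Y) ≃ₗ[ℂ] (X ⟶ Y ⊗ L) where
  toFun g := g.f.f
  map_add' _ _ := rfl
  map_smul' _ _ := rfl
  invFun f := ⟨Kl.mkHom (X := ⟨X⟩) (Y := ⟨Y⟩) f,
    (Category.id_comp _).trans (Category.comp_id _)⟩
  left_inv _ := rfl
  right_inv _ := rfl

theorem homF_apply {X Y : C} (g : E.F.obj X ⟶ E.F.obj Y) : E.homF X Y g = g.f.f := rfl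

theorem homF_map {X Y : C} (f : X ⟶ Y) : E.homF X Y (E.F.map f) = f ≫ E.un Y := rfl

theorem homF_id (X : C) : E.homF X X (𝟙 _) = E.un X := rfl

theorem homF_comp {X Y Z : C} (g : E.F.obj X ⟶ E.F.obj Y) (h : E.F.obj Y ⟶ E.F.obj Z) :
    E.homF X Z (g ≫ h) = E.homF X Y g ≫ E.ext (E.homF Y Z h) := rfl

theorem homF_map_comp {X Y Z : C} (f : X ⟶ Y) (h : E.F.obj Y ⟶ E.F.obj Z) :
    E.homF X Z (E.F.map f ≫ h) = f ≫ E.homF Y Z h := by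
  rw [homF_comp, homF_map, Category.assoc, un_ext]

theorem homF_comp_map {X Y Z : C} (g : E.F.obj X ⟶ E.F.obj Y) (f : Y ⟶ Z) :
    E.homF X Z (g ≫ E.F.map f) = E.homF X Y g ≫ f ▷ L := by
  rw [homF_comp, homF_map, ext_comp_un]

theorem homF_wl (W : C) {X Y : C} (g : E.F.obj X ⟶ E.F.obj Y) :
    E.homF (W ⊗ X) (W ⊗ Y) (δ E.F W X ≫ E.F.obj W ◁ g ≫ μ E.F W Y) =
      W ◁ E.homF X Y g ≫ (α_ W Y L).inv := by
  have : (δ E.F W X ≫ E.F.obj W ◁ g ≫ μ E.F W Y).f = (⟨W⟩ : Kl E) ◁ g.f := by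
    rw [Karoubi.comp_f, Karoubi.comp_f, F_δ_f, F_μ_f, Kar.wl_f, F_p]
    erw [Category.id_comp, Category.comp_id, id_tensorHom]
    rfl
  rw [homF_apply, this]; rfl

theorem homF_wr {X Y : C} (g : E.F.obj X ⟶ E.F.obj Y) (W : C) :
    E.homF (X ⊗ W) (Y ⊗ W) (δ E.F X W ≫ g ▷ E.F.obj W ≫ μ E.F Y W) =
      E.homF X Y g ▷ W ≫ (α_ Y L W).hom ≫ Y ◁ (β_ W L).inv ≫ (α_ Y W L).inv := by
  have : (δ E.F X W ≫ g ▷ E.F.obj W ≫ μ E.F Y W).f = g.f ▷ (⟨W⟩ : Kl E) := by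
    rw [Karoubi.comp_f, Karoubi.comp_f, F_δ_f, F_μ_f, Kar.wr_f, F_p]
    erw [Category.id_comp, Category.comp_id, tensorHom_id]
    rfl
  rw [homF_apply, this]; rfl

/-- inclusion of a module into the free module on its carrier -/
def inc (P : AM E) : P ⟶ E.F.obj P.X.X := P.decompId_i
/-- projection of the free module on the carrier to the module -/
def prj (P : AM E) : E.F.obj P.X.X ⟶ P := P.decompId_p

theorem inc_f (P : AM E) : (E.inc P).f = P.p := rfl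
theorem prj_f (P : AM E) : (E.prj P).f = P.p := rfl

@[reassoc] theorem inc_prj (P : AM E) : E.inc P ≫ E.prj P = 𝟙 P := P.decompId.symm

theorem retract (P : AM E) :
    ∃ (Y : C) (i : P ⟶ E.F.obj Y) (r : E.F.obj Y ⟶ P), i ≫ r = 𝟙 P :=
  ⟨_, E.inc P, E.prj P, E.inc_prj P⟩

/-- the braiding of `C` cut down to two modules -/
def cc (P Q : AM E) : P ⊗ Q ⟶ Q ⊗ P :=
  ⟨(P.p ⊗ₘ Q.p) ≫ (Kl.br P.X Q.X).hom ≫ (Q.p ⊗ₘ P.p), by simp⟩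

theorem cc_f (P Q : AM E) :
    (E.cc P Q).f = (P.p ⊗ₘ Q.p) ≫ (Kl.br P.X Q.X).hom ≫ (Q.p ⊗ₘ P.p) := rfl

theorem cc_F (X Y : C) :
    E.cc (E.F.obj X) (E.F.obj Y) = μ E.F X Y ≫ E.F.map (β_ X Y).hom ≫ δ E.F Y X := by
  ext1
  rw [cc_f, Karoubi.comp_f, Karoubi.comp_f, F_δ_f, F_μ_f, F_p, F_p]
  erw [id_tensorHom_id, id_tensorHom_id]
  rfl

@[reassoc] theorem cc_nat (P : AM E) {Q Q' : AM E} (g : Q ⟶ Q') :
    P ◁ g ≫ E.cc P Q' = E.cc P Q ≫ g ▷ P := by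
  ext1
  simp only [Karoubi.comp_f, cc_f, Kar.wl_f, Kar.wr_f, Category.assoc,
    tensorHom_comp_tensorHom_assoc, tensorHom_comp_tensorHom, Karoubi.idem, Karoubi.comp_p,
    Karoubi.p_comp]
  simp only [MonoidalCategory.tensorHom_def, Category.assoc, Kl.br_nat_assoc,
    ← comp_whiskerRight_assoc, Karoubi.comp_p, Karoubi.p_comp]

theorem cc_eq (P Q : AM E) :
    E.cc P Q = E.inc P ▷ Q ≫ E.cc (E.F.obj P.X.X) Q ≫ Q ◁ E.prj P := by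
  ext1
  simp only [Karoubi.comp_f, cc_f, Kar.wl_f, Kar.wr_f, Category.assoc, inc_f, prj_f, F_p]
  erw [tensorHom_comp_tensorHom_assoc, tensorHom_comp_tensorHom, Category.comp_id,
    Category.id_comp, Q.idem]
  rfl

theorem ccF_f (X : C) (Q : AM E) : (E.cc (E.F.obj X) Q).f =
    (Kl.br (⟨X⟩ : Kl E) Q.X).hom ≫ Q.p ▷ (⟨X⟩ : Kl E) := by
  change (𝟙 (⟨X⟩ : Kl E) ⊗ₘ Q.p) ≫ (Kl.br (⟨X⟩ : Kl E) Q.X).hom ≫ (Q.p ⊗ₘ 𝟙 (⟨X⟩ : Kl E)) = _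
  rw [id_tensorHom, tensorHom_id, Kl.br_nat_assoc, ← comp_whiskerRight, Q.idem]

@[reassoc] theorem cc_nat_F {X Y : C} (f : X ⟶ Y) (Q : AM E) :
    E.F.map f ▷ Q ≫ E.cc (E.F.obj Y) Q = E.cc (E.F.obj X) Q ≫ Q ◁ E.F.map f := by
  ext1
  rw [Karoubi.comp_f, Karoubi.comp_f, ccF_f, ccF_f]
  change (Kl.of (X := ⟨X⟩) (Y := ⟨Y⟩) f ⊗ₘ Q.p) ≫ (Kl.br (⟨Y⟩ : Kl E) Q.X).hom ≫
    Q.p ▷ (⟨Y⟩ : Kl E) = ((Kl.br (⟨X⟩ : Kl E) Q.X).hom ≫ Q.p ▷ (⟨X⟩ : Kl E)) ≫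
      (Q.p ⊗ₘ Kl.of (X := ⟨X⟩) (Y := ⟨Y⟩) f)
  rw [MonoidalCategory.tensorHom_def, MonoidalCategory.tensorHom_def', Category.assoc,
    Kl.br_nat_assoc, Kl.br_nat_of_assoc, Category.assoc, ← whisker_exchange_assoc]

theorem ccF_tensor_left (X X' : C) (Q : AM E) : E.cc (E.F.obj X ⊗ E.F.obj X') Q =
    (α_ _ _ Q).hom ≫ E.F.obj X ◁ E.cc (E.F.obj X') Q ≫ (α_ _ Q _).inv ≫
      E.cc (E.F.obj X) Q ▷ E.F.obj X' ≫ (α_ Q _ _).hom := by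
  ext1
  simp only [Karoubi.comp_f, Kar.wl_f, Kar.wr_f, ccF_f, Kar.assoc_hom_f, Kar.assoc_inv_f]
  exact Kl.aux_left ⟨X⟩ ⟨X'⟩ Q.X Q.p Q.idem

theorem cc_tensor_left (P P' Q : AM E) : E.cc (P ⊗ P') Q = (α_ P P' Q).hom ≫ P ◁ E.cc P' Q ≫
    (α_ P Q P').inv ≫ E.cc P Q ▷ P' ≫ (α_ Q P P').hom := by
  have h1 : E.cc (P ⊗ P') Q = (E.inc P ⊗ₘ E.inc P') ▷ Q ≫
      E.cc (E.F.obj P.X.X ⊗ E.F.obj P'.X.X) Q ≫ Q ◁ (E.prj P ⊗ₘ E.prj P') := by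
    ext1
    change ((P.p ⊗ₘ P'.p) ⊗ₘ Q.p) ≫ (Kl.br (P.X ⊗ P'.X) Q.X).hom ≫ (Q.p ⊗ₘ (P.p ⊗ₘ P'.p)) =
      ((P.p ⊗ₘ P'.p) ⊗ₘ Q.p) ≫ (((𝟙 P.X ⊗ₘ 𝟙 P'.X) ⊗ₘ Q.p) ≫ (Kl.br (P.X ⊗ P'.X) Q.X).hom ≫
        (Q.p ⊗ₘ (𝟙 P.X ⊗ₘ 𝟙 P'.X))) ≫ (Q.p ⊗ₘ (P.p ⊗ₘ P'.p))
    simp only [Category.assoc, tensorHom_comp_tensorHom_assoc, tensorHom_comp_tensorHom,
      Karoubi.idem, Category.comp_id, Category.id_comp]
  rw [h1, ccF_tensor_left, E.cc_eq P Q, E.cc_eq P' Q, MonoidalCategory.tensorHom_def',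
    MonoidalCategory.tensorHom_def']
  calc _ = 𝟙 _ ⊗≫ P ◁ E.inc P' ▷ Q ⊗≫ (E.inc P ▷ (_ ⊗ Q) ≫ _ ◁ E.cc (E.F.obj P'.X.X) Q) ⊗≫
        (E.cc (E.F.obj P.X.X) Q ▷ _ ≫ (Q ⊗ _) ◁ E.prj P') ⊗≫ Q ◁ E.prj P ▷ P' ⊗≫ 𝟙 _ := by
        monoidal
    _ = 𝟙 _ ⊗≫ P ◁ E.inc P' ▷ Q ⊗≫ P ◁ E.cc (E.F.obj P'.X.X) Q ⊗≫
        (E.inc P ▷ (Q ⊗ _) ≫ _ ◁ Q ◁ E.prj P') ⊗≫
        E.cc (E.F.obj P.X.X) Q ▷ P' ⊗≫ Q ◁ E.prj P ▷ P' ⊗≫ 𝟙 _ := by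
        rw [← whisker_exchange, ← whisker_exchange]; monoidal
    _ = _ := by rw [← whisker_exchange]; monoidal

theorem ccF_tensor_right (X : C) (Q Q' : AM E) : E.cc (E.F.obj X) (Q ⊗ Q') =
    (α_ _ Q Q').inv ≫ E.cc (E.F.obj X) Q ▷ Q' ≫ (α_ Q _ Q').hom ≫ Q ◁ E.cc (E.F.obj X) Q' ≫
      (α_ Q Q' _).inv := by
  ext1
  simp only [Karoubi.comp_f, Kar.wl_f, Kar.wr_f, ccF_f, Kar.assoc_hom_f, Kar.assoc_inv_f]
  exact Kl.aux_right ⟨X⟩ Q.X Q'.X Q.p Q.idem Q'.p Q'.idem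

/-- the half braiding of a free module as an isomorphism -/
def ccIso (X : C) (Q : AM E) : E.F.obj X ⊗ Q ≅ Q ⊗ E.F.obj X where
  hom := E.cc (E.F.obj X) Q
  inv := ⟨Q.p ▷ (⟨X⟩ : Kl E) ≫ (Kl.br (⟨X⟩ : Kl E) Q.X).inv, Kl.aux_inv ⟨X⟩ Q.X Q.p Q.idem⟩
  hom_inv_id := by
    ext1
    rw [Karoubi.comp_f, ccF_f]
    change ((Kl.br (⟨X⟩ : Kl E) Q.X).hom ≫ Q.p ▷ (⟨X⟩ : Kl E)) ≫ Q.p ▷ (⟨X⟩ : Kl E) ≫
      (Kl.br (⟨X⟩ : Kl E) Q.X).inv = 𝟙 (⟨X⟩ : Kl E) ⊗ₘ Q.p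
    rw [Category.assoc, ← comp_whiskerRight_assoc, Q.idem, ← Kl.br_nat_assoc, Iso.hom_inv_id,
      Category.comp_id, id_tensorHom]
  inv_hom_id := by
    ext1
    rw [Karoubi.comp_f, ccF_f]
    change (Q.p ▷ (⟨X⟩ : Kl E) ≫ (Kl.br (⟨X⟩ : Kl E) Q.X).inv) ≫ (Kl.br (⟨X⟩ : Kl E) Q.X).hom ≫
      Q.p ▷ (⟨X⟩ : Kl E) = Q.p ⊗ₘ 𝟙 (⟨X⟩ : Kl E)
    rw [Category.assoc, Iso.inv_hom_id_assoc, ← comp_whiskerRight, Q.idem, tensorHom_id]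

/-- the half braiding of a free module -/
def hb (X : C) : HalfBraiding (E.F.obj X) where
  β := E.ccIso X
  monoidal := E.ccF_tensor_right X
  naturality f := E.cc_nat _ f

theorem hb_β (X : C) (Q : AM E) : ((E.hb X).β Q).hom = E.cc (E.F.obj X) Q := rfl

end Etale

end Pool.Agent.Lib.MP_edb142_al
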