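import Pool.Agent.Lib.MP_edb142_al.H.K1d

open CategoryTheory MonoidalCategory Limits Module

set_option linter.unusedSectionVars false

namespace Pool.Agent.Lib.MP_edb142_al

universe v u

variable {A : Type u} [Category.{v} A] [Preadditive A] [Linear ℂ A]

/-- a decomposition of an object into simple retracts -/
structure Dec (Y : A) where
  T : Type
  fin : Fintype T
  S : T → A
  sim : ∀ a, Sim (S a)
  e : ∀ a, S a ⟶ Y
  f : ∀ a, Y ⟶ S a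
  ef : ∀ a, e a ≫ f a = 𝟙 _
  orth : ∀ a b, a ≠ b → e a ≫ f b = 0
  tot : ∑ a, f a ≫ e a = 𝟙 Y

attribute [instance] Dec.fin

theorem Sim.isIso (reg : ∀ {P Q : A} (f : P ⟶ Q), ∃ g : Q ⟶ P, f ≫ g ≫ f = f) {S S' : A}
    (h : Sim S) (h' : Sim S') (f : S ⟶ S') (hf : f ≠ 0) : IsIso f := by
  obtain ⟨g, hg⟩ := reg f
  refine ⟨g, ?_, ?_⟩
  · have h1 : (sc (f ≫ g) - 1) • f = 0 := by
      rw [sub_smul, one_smul, sub_eq_zero]
      conv_rhs => rw [← hg, ← Category.assoc, h.spec (f ≫ g)]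
      simp
    rw [smul_eq_zero, sub_eq_zero] at h1
    rw [h.spec (f ≫ g), h1.resolve_right hf, one_smul]
  · have h1 : (sc (g ≫ f) - 1) • f = 0 := by
      rw [sub_smul, one_smul, sub_eq_zero]
      conv_rhs => rw [← hg, h'.spec (g ≫ f)]
      simp
    rw [smul_eq_zero, sub_eq_zero] at h1
    rw [h'.spec (g ≫ f), h1.resolve_right hf, one_smul]

theorem sim_of_idem (reg : ∀ {P Q : A} (f : P ⟶ Q), ∃ g : Q ⟶ P, f ≫ g ≫ f = f) {Y : A}
    [Module.Finite ℂ (Y ⟶ Y)] (h0 : 𝟙 Y ≠ 0) (h : ∀ p : Y ⟶ Y, p ≫ p = p → p = 0 ∨ p = 𝟙 Y) :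
    Sim Y := by
  refine ⟨h0, fun f => ?_⟩
  have : Nontrivial (Y ⟶ Y) := ⟨⟨_, _, h0⟩⟩
  obtain ⟨c, hc⟩ := Module.End.exists_eigenvalue (Linear.rightComp ℂ Y f)
  obtain ⟨w, hw⟩ := hc.exists_hasEigenvector
  have h1 : w ≫ (f - c • 𝟙 Y) = 0 := by
    have := hw.apply_eq_smul
    simp only [Linear.rightComp_apply] at this
    simp [this]
  obtain ⟨g, hg⟩ := reg (f - c • 𝟙 Y)
  refine ⟨c, ?_⟩
  rcases h ((f - c • 𝟙 Y) ≫ g) (by rw [Category.assoc, reassoc_of% hg]) with h2 | h2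
  · rw [← Category.assoc, h2, zero_comp] at hg
    exact sub_eq_zero.1 hg.symm
  · exfalso
    apply hw.2
    rw [← Category.comp_id w, ← h2, ← Category.assoc, h1, zero_comp]

theorem finrank_lt_of_retract {Y Z : A} [Module.Finite ℂ (Y ⟶ Y)] (i : Z ⟶ Y) (r : Y ⟶ Z)
    (hir : i ≫ r = 𝟙 Z) (hne : r ≫ i ≠ 𝟙 Y) : finrank ℂ (Z ⟶ Z) < finrank ℂ (Y ⟶ Y) := by
  let φ : (Z ⟶ Z) →ₗ[ℂ] (Y ⟶ Y) := Linear.leftComp ℂ Y r ∘ₗ Linear.rightComp ℂ Z i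
  have hφ : ∀ g, φ g = r ≫ g ≫ i := fun g => rfl
  have hinj : Function.Injective φ := by
    intro g g' H
    rw [hφ, hφ] at H
    have := congrArg (fun x => i ≫ x ≫ r) H
    simpa [hir, reassoc_of% hir] using this
  rw [← LinearMap.finrank_range_of_inj hinj]
  apply Submodule.finrank_lt
  intro htop
  obtain ⟨g, hg⟩ : 𝟙 Y ∈ LinearMap.range φ := by rw [htop]; trivial
  rw [hφ] at hg
  apply hne
  rw [← Category.comp_id (r ≫ i), ← hg]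
  simp [reassoc_of% hir]

theorem exists_dec [IsIdempotentComplete A] (fin : ∀ P : A, Module.Finite ℂ (P ⟶ P))
    (reg : ∀ {P Q : A} (f : P ⟶ Q), ∃ g : Q ⟶ P, f ≫ g ≫ f = f) (Y : A) : Nonempty (Dec Y) := by
  induction hn : finrank ℂ (Y ⟶ Y) using Nat.strong_induction_on generalizing Y with
  | _ n ih =>
  by_cases h0 : 𝟙 Y = 0
  · exact ⟨⟨Empty, inferInstance, fun a => a.elim, fun a => a.elim, fun a => a.elim,
      fun a => a.elim, fun a => a.elim, fun a => a.elim, by simp [h0]⟩⟩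
  by_cases h : ∀ p : Y ⟶ Y, p ≫ p = p → p = 0 ∨ p = 𝟙 Y
  · exact ⟨⟨Unit, inferInstance, fun _ => Y, fun _ => sim_of_idem reg h0 h, fun _ => 𝟙 Y,
      fun _ => 𝟙 Y, by simp, by simp, by simp⟩⟩
  push Not at h
  obtain ⟨p, hp, hp0, hp1⟩ := h
  obtain ⟨Y1, i1, r1, a1, b1⟩ := IsIdempotentComplete.idempotents_split Y p hp
  obtain ⟨Y2, i2, r2, a2, b2⟩ := IsIdempotentComplete.idempotents_split Y (𝟙 Y - p)
    (by simp [hp])
  obtain ⟨D1⟩ := ih _ (hn ▸ finrank_lt_of_retract i1 r1 a1 (by rwa [b1])) Y1 rfl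
  obtain ⟨D2⟩ := ih _ (hn ▸ finrank_lt_of_retract i2 r2 a2 (by
    rw [b2]; intro H; exact hp0 (sub_eq_self.1 H))) Y2 rfl
  have c12 : i1 ≫ r2 = 0 := by
    calc _ = i1 ≫ (r1 ≫ i1) ≫ (r2 ≫ i2) ≫ r2 := by simp [a2, reassoc_of% a1]
      _ = 0 := by rw [b1, b2]; simp [reassoc_of% hp]
  have c21 : i2 ≫ r1 = 0 := by
    calc _ = i2 ≫ (r2 ≫ i2) ≫ (r1 ≫ i1) ≫ r1 := by simp [a1, reassoc_of% a2]
      _ = 0 := by rw [b1, b2]; simp [reassoc_of% hp]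
  refine ⟨⟨D1.T ⊕ D2.T, inferInstance, Sum.elim D1.S D2.S, ?_,
    fun a => match a with
      | .inl a => D1.e a ≫ i1
      | .inr a => D2.e a ≫ i2,
    fun a => match a with
      | .inl a => r1 ≫ D1.f a
      | .inr a => r2 ≫ D2.f a, ?_, ?_, ?_⟩⟩
  · rintro (a | a)
    · exact D1.sim a
    · exact D2.sim a
  · rintro (a | a)
    · change (D1.e a ≫ i1) ≫ r1 ≫ D1.f a = 𝟙 (D1.S a)
      rw [Category.assoc, reassoc_of% a1, D1.ef]
    · change (D2.e a ≫ i2) ≫ r2 ≫ D2.f a = 𝟙 (D2.S a)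
      rw [Category.assoc, reassoc_of% a2, D2.ef]
  · rintro (a | a) (b | b) hab
    · change (D1.e a ≫ i1) ≫ r1 ≫ D1.f b = (0 : D1.S a ⟶ D1.S b)
      rw [Category.assoc, reassoc_of% a1, D1.orth a b (fun H => hab (by rw [H]))]
    · change (D1.e a ≫ i1) ≫ r2 ≫ D2.f b = (0 : D1.S a ⟶ D2.S b)
      rw [Category.assoc, reassoc_of% c12]; simp
    · change (D2.e a ≫ i2) ≫ r1 ≫ D1.f b = (0 : D2.S a ⟶ D1.S b)
      rw [Category.assoc, reassoc_of% c21]; simp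
    · change (D2.e a ≫ i2) ≫ r2 ≫ D2.f b = (0 : D2.S a ⟶ D2.S b)
      rw [Category.assoc, reassoc_of% a2, D2.orth a b (fun H => hab (by rw [H]))]
  · rw [Fintype.sum_sum_type]
    change ∑ a, (r1 ≫ D1.f a) ≫ D1.e a ≫ i1 + ∑ a, (r2 ≫ D2.f a) ≫ D2.e a ≫ i2 = _
    have e1 : ∑ a, (r1 ≫ D1.f a) ≫ D1.e a ≫ i1 = r1 ≫ (∑ a, D1.f a ≫ D1.e a) ≫ i1 := by
      simp [Preadditive.sum_comp, Preadditive.comp_sum]
    have e2 : ∑ a, (r2 ≫ D2.f a) ≫ D2.e a ≫ i2 = r2 ≫ (∑ a, D2.f a ≫ D2.e a) ≫ i2 := by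
      simp [Preadditive.sum_comp, Preadditive.comp_sum]
    rw [e1, e2, D1.tot, D2.tot, Category.id_comp, Category.id_comp, b1, b2]
    simp

theorem exists_fusion [MonoidalCategory A] [HasFiniteBiproducts A] [IsIdempotentComplete A]
    (fin : ∀ P : A, Module.Finite ℂ (P ⟶ P))
    (reg : ∀ {P Q : A} (f : P ⟶ Q), ∃ g : Q ⟶ P, f ≫ g ≫ f = f) (h1 : Sim (𝟙_ A))
    {I : Type} [Fintype I] (G : I → A)
    (gen : ∀ S : A, 𝟙 S ≠ 0 → ∃ (i : I) (f : G i ⟶ S), f ≠ 0) :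
    ∃ (J : Type) (_ : Fintype J), Nonempty (Fusion A J) := by
  classical
  have D := fun Y : A => (exists_dec fin reg Y).some
  let T : Type := Σ i, (D (G i)).T
  let S : T → A := fun t => (D (G t.1)).S t.2
  have hS : ∀ t, Sim (S t) := fun t => (D (G t.1)).sim t.2
  let r : Setoid T := ⟨fun t t' => Nonempty (S t ≅ S t'),
    ⟨fun _ => ⟨Iso.refl _⟩, fun ⟨φ⟩ => ⟨φ.symm⟩, fun ⟨φ⟩ ⟨ψ⟩ => ⟨φ ≪≫ ψ⟩⟩⟩
  have key : ∀ Y : A, Sim Y → ∃ j : Quotient r, Nonempty (Y ≅ S j.out) := by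
    intro Y hY
    obtain ⟨i, f, hf⟩ := gen Y hY.ne
    have : ∃ a, (D (G i)).e a ≫ f ≠ 0 := by
      by_contra H
      push Not at H
      apply hf
      rw [← Category.id_comp f, ← (D (G i)).tot, Preadditive.sum_comp]
      simp [H]
    obtain ⟨a, ha⟩ := this
    have := Sim.isIso reg ((D (G i)).sim a) hY _ ha
    obtain ⟨ψ⟩ : r (Quotient.mk r ⟨i, a⟩).out ⟨i, a⟩ := Quotient.mk_out (s := r) _
    exact ⟨Quotient.mk r ⟨i, a⟩, ⟨(asIso ((D (G i)).e a ≫ f)).symm ≪≫ ψ.symm⟩⟩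
  refine ⟨Quotient r, Fintype.ofFinite _, ⟨⟨fun j => S j.out, (key _ h1).choose,
    (key _ h1).choose_spec, fun j => (hS _).finrank_eq, fun i j hij f => ?_, fun Y => ?_⟩⟩⟩
  · by_contra hf
    have := Sim.isIso reg (hS _) (hS _) f hf
    exact hij (Quotient.out_equiv_out.1 ⟨asIso f⟩)
  · let E := D Y
    choose t ht using fun a => key (E.S a) (E.sim a)
    have φ := fun a => (ht a).some
    let σ := (Fintype.equivFin E.T).symm
    refine ⟨Fintype.card E.T, fun a => t (σ a), ⟨⟨biproduct.lift fun a => E.f (σ a) ≫ (φ (σ a)).hom,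
      biproduct.desc fun a => (φ (σ a)).inv ≫ E.e (σ a), ?_, ?_⟩⟩⟩
    · rw [biproduct.lift_desc, ← E.tot, ← σ.sum_comp]
      simp
    · ext b a
      by_cases hab : a = b
      · subst hab
        simp [reassoc_of% (E.ef (σ a))]
      · simp [biproduct.ι_π_ne _ hab, reassoc_of% (E.orth (σ a) (σ b) (σ.injective.ne hab))]

end Pool.Agent.Lib.MP_edb142_al
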