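import Pool.Agent.Lib.MP_edb142_al.H.K1c
import Pool.Agent.Lib.MP_edb142_al.H.K1e

open CategoryTheory MonoidalCategory Limits BraidedCategory Idempotents Module
open Functor.LaxMonoidal Functor.OplaxMonoidal

set_option linter.unusedSectionVars false

namespace Pool.Agent.Lib.MP_edb142_al

universe v u

variable {C : Type u} [Category.{v} C] [Preadditive C] [Linear ℂ C] [MonoidalCategory C]
  [MonoidalPreadditive C] [MonoidalLinear ℂ C] [HasFiniteBiproducts C] [BraidedCategory C]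
  [RigidCategory C] {I : Type} [Fintype I] [DecidableEq I] {M : Modular C I} {L : C}

namespace Etale
variable (E : Etale M L)

theorem u_ne : E.u ≠ 0 := by
  intro h
  have h1 : 𝟙 L = 0 := by
    rw [← (λ_ L).inv_hom_id, ← E.one_mul, h]; simp
  have : Subsingleton (𝟙_ C ⟶ L) := ⟨fun a b => by
    rw [← Category.comp_id a, ← Category.comp_id b, h1]; simp⟩
  have h2 := E.conn
  rw [Module.finrank_zero_of_subsingleton] at h2
  exact absurd h2 (by norm_num)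

theorem unit_scalar (x : 𝟙_ C ⟶ L) : ∃ c : ℂ, x = c • E.u := by
  obtain ⟨c, hc⟩ := (finrank_eq_one_iff_of_nonzero' E.u E.u_ne).1 E.conn x
  exact ⟨c, hc.symm⟩

theorem exists_eps1 : ∃ e : L ⟶ 𝟙_ C, E.u ≫ e = 𝟙 _ := by
  obtain ⟨g, hg⟩ := M.ss.reg1 E.u
  refine ⟨g, ?_⟩
  have h1 : (sc (E.u ≫ g) - 1) • E.u = 0 := by
    rw [sub_smul, one_smul, sub_eq_zero]
    conv_rhs => rw [← hg, ← Category.assoc, M.s1.spec (E.u ≫ g)]
    simp
  rw [smul_eq_zero, sub_eq_zero] at h1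
  rw [M.s1.spec (E.u ≫ g), h1.resolve_right E.u_ne, one_smul]

/-- a retraction of the unit -/
noncomputable def eps (E : Etale M L) : L ⟶ 𝟙_ C := E.exists_eps1.choose

@[reassoc] theorem u_eps : E.u ≫ E.eps = 𝟙 _ := E.exists_eps1.choose_spec

theorem unit_eq (x : 𝟙_ C ⟶ L) : x = sc (x ≫ E.eps) • E.u := by
  obtain ⟨c, rfl⟩ := E.unit_scalar x
  rw [Linear.smul_comp, u_eps, M.s1.sc_smul_id]

/-- the coaction of `L` on the free module -/
def coact (Y : C) : Y ⊗ L ⟶ (Y ⊗ L) ⊗ L := Y ◁ E.Δ ≫ (α_ Y L L).inv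

@[reassoc] theorem coact_act (Y : C) : E.coact Y ≫ E.act Y = 𝟙 _ := by
  unfold coact act
  rw [Category.assoc, Iso.inv_hom_id_assoc, ← MonoidalCategory.whiskerLeft_comp, E.sep]; simp

@[reassoc] theorem ext_coact {X Y : C} (f : X ⟶ Y ⊗ L) :
    E.ext f ≫ E.coact Y = E.coact X ≫ E.ext f ▷ L := by
  unfold coact ext act
  calc _ = f ▷ L ⊗≫ Y ◁ (E.m ≫ E.Δ) ⊗≫ 𝟙 _ := by monoidal
    _ = 𝟙 _ ⊗≫ (f ▷ L ≫ (Y ⊗ L) ◁ E.Δ) ⊗≫ Y ◁ E.m ▷ L ⊗≫ 𝟙 _ := by rw [← E.frob_r]; monoidal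
    _ = _ := by rw [← whisker_exchange]; monoidal

theorem ext_avg {X Y : C} (g : Y ⊗ L ⟶ X ⊗ L) :
    E.ext (E.un Y ≫ E.coact Y ≫ g ▷ L ≫ E.act X) = E.coact Y ≫ g ▷ L ≫ E.act X := by
  have h1 : (E.un Y ≫ E.coact Y) ▷ L ≫ E.act (Y ⊗ L) = E.coact Y := by
    unfold coact un act
    calc _ = 𝟙 _ ⊗≫ Y ◁ E.u ▷ L ⊗≫ Y ◁ (E.Δ ▷ L ≫ (α_ L L L).hom ≫ L ◁ E.m) ⊗≫ 𝟙 _ := by monoidal
      _ = 𝟙 _ ⊗≫ Y ◁ (E.u ▷ L ≫ E.m) ⊗≫ Y ◁ E.Δ ⊗≫ 𝟙 _ := by rw [E.frob_l]; monoidal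
      _ = _ := by rw [E.one_mul]; monoidal
  unfold ext
  conv_rhs => rw [← h1]
  simp only [comp_whiskerRight, Category.assoc]
  rw [act_act, act_nat_assoc]

theorem reg0 {X Y : Kl E} (f : X ⟶ Y) : ∃ g : Y ⟶ X, f ≫ g ≫ f = f := by
  obtain ⟨g, hg⟩ := M.ss.reg1 (E.ext f.f)
  refine ⟨Kl.mkHom (E.un _ ≫ E.coact _ ≫ g ▷ L ≫ E.act _), Kl.hom_ext ?_⟩
  rw [Kl.comp_f, Kl.comp_f, ext_ext, Kl.mkHom_f, ext_avg]
  conv_lhs => enter [1]; rw [← E.un_ext f.f]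
  simp only [Category.assoc]
  rw [ext_coact_assoc, act_ext, ← comp_whiskerRight_assoc, ← comp_whiskerRight_assoc,
    Category.assoc, hg, ← act_ext, coact_act_assoc, un_ext]

instance finite0 (X Y : Kl E) : Module.Finite ℂ (X ⟶ Y) :=
  have := M.ss.finite X.X (Y.X ⊗ L)
  Module.Finite.equiv (Kl.homL X Y).symm

instance finite (P Q : AM E) : Module.Finite ℂ (P ⟶ Q) :=
  Module.Finite.of_injective (Kar.incl P Q) (Kar.incl_inj P Q)

theorem reg {P Q : AM E} (f : P ⟶ Q) : ∃ g : Q ⟶ P, f ≫ g ≫ f = f := by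
  obtain ⟨g, hg⟩ := E.reg0 f.f
  refine ⟨⟨Q.p ≫ g ≫ P.p, by simp⟩, ?_⟩
  ext1
  simpa using hg

theorem sim_unit : Sim (𝟙_ (AM E)) := by
  have h : Sim (E.F.obj (𝟙_ C)) := by
    apply Sim.of_finrank
    rw [(E.homF _ _).finrank_eq, ← E.conn]
    exact (Linear.homCongr ℂ (Iso.refl _) (λ_ L)).finrank_eq
  exact h.of_iso (Functor.Monoidal.εIso E.F)

theorem F_tot (Y : C) (φ : Frame M.X Y) :
    ∑ t : (Σ i, φ.T i), E.F.map (φ.f t.1 t.2) ≫ E.F.map (φ.e t.1 t.2) = 𝟙 (E.F.obj Y) := by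
  simp only [← Functor.map_comp]
  rw [← Functor.map_sum, φ.sigma_tot, E.F.map_id]

theorem gen (S : AM E) (h : ∀ (i : I) (f : E.F.obj (M.X i) ⟶ S), f = 0) : 𝟙 S = 0 := by
  rw [← E.inc_prj S, ← Category.id_comp (E.prj S), ← E.F_tot _ (M.ss.fr _), Preadditive.sum_comp]
  simp only [Category.assoc, h _ (E.F.map _ ≫ E.prj S)]
  simp

theorem fusion : ∃ (J : Type) (_ : Fintype J), Nonempty (Fusion (AM E) J) :=
  exists_fusion (fun P => E.finite P P) E.reg E.sim_unit (fun i => E.F.obj (M.X i)) fun S hS => by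
    by_contra H
    push Not at H
    exact hS (E.gen S H)

theorem ext_idem (P : AM E) : E.ext P.p.f ≫ E.ext P.p.f = E.ext P.p.f := by
  rw [← ext_ext, ← Kl.comp_f, P.idem]

theorem p_ext {P Q : AM E} (g : P ⟶ Q) : E.ext P.p.f ≫ E.ext g.f.f = E.ext g.f.f := by
  rw [← ext_ext, ← Kl.comp_f, Karoubi.p_comp]

theorem ext_p {P Q : AM E} (g : P ⟶ Q) : E.ext g.f.f ≫ E.ext Q.p.f = E.ext g.f.f := by
  rw [← ext_ext, ← Kl.comp_f, Karoubi.comp_p]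

theorem f_ext_p {P Q : AM E} (g : P ⟶ Q) : g.f.f ≫ E.ext Q.p.f = g.f.f := by
  rw [← Kl.comp_f, Karoubi.comp_p]

/-- the underlying object of a module -/
noncomputable def Robj (P : AM E) : C := (M.ss.split _ (E.ext_idem P)).choose
noncomputable def Ri0 (P : AM E) : E.Robj P ⟶ P.X.X ⊗ L :=
  (M.ss.split _ (E.ext_idem P)).choose_spec.choose
noncomputable def Rr0 (P : AM E) : P.X.X ⊗ L ⟶ E.Robj P :=
  (M.ss.split _ (E.ext_idem P)).choose_spec.choose_spec.choose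
@[reassoc] theorem Ri_Rr0 (P : AM E) : E.Ri0 P ≫ E.Rr0 P = 𝟙 _ :=
  (M.ss.split _ (E.ext_idem P)).choose_spec.choose_spec.choose_spec.1
@[reassoc] theorem Rr_Ri0 (P : AM E) : E.Rr0 P ≫ E.Ri0 P = E.ext P.p.f :=
  (M.ss.split _ (E.ext_idem P)).choose_spec.choose_spec.choose_spec.2

/-- the forgetful functor, right adjoint of `F` -/
noncomputable def R : AM E ⥤ C where
  obj := E.Robj
  map {P Q} g := E.Ri0 P ≫ E.ext g.f.f ≫ E.Rr0 Q
  map_id P := by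
    rw [Karoubi.id_f, ← E.Rr_Ri0, Category.assoc, Ri_Rr0, Category.comp_id, Ri_Rr0]
  map_comp {P Q S} f g := by
    simp only [Category.assoc]
    rw [Rr_Ri0_assoc, reassoc_of% (E.ext_p f), Karoubi.comp_f, Kl.comp_f, ext_ext, Category.assoc]

noncomputable def Ri (P : AM E) : E.R.obj P ⟶ P.X.X ⊗ L := E.Ri0 P
noncomputable def Rr (P : AM E) : P.X.X ⊗ L ⟶ E.R.obj P := E.Rr0 P
@[reassoc] theorem Ri_Rr (P : AM E) : E.Ri P ≫ E.Rr P = 𝟙 _ := E.Ri_Rr0 P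
@[reassoc] theorem Rr_Ri (P : AM E) : E.Rr P ≫ E.Ri P = E.ext P.p.f := E.Rr_Ri0 P
theorem R_map {P Q : AM E} (g : P ⟶ Q) : E.R.map g = E.Ri P ≫ E.ext g.f.f ≫ E.Rr Q := rfl

@[reassoc] theorem Ri_p (P : AM E) : E.Ri P ≫ E.ext P.p.f = E.Ri P := by
  rw [← Rr_Ri, Ri_Rr_assoc]
@[reassoc] theorem p_Rr (P : AM E) : E.ext P.p.f ≫ E.Rr P = E.Rr P := by
  rw [← Rr_Ri, Category.assoc, Ri_Rr, Category.comp_id]
@[reassoc] theorem R_map_Ri {P Q : AM E} (g : P ⟶ Q) :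
    E.R.map g ≫ E.Ri Q = E.Ri P ≫ E.ext g.f.f := by
  rw [R_map, Category.assoc, Category.assoc, Rr_Ri, ext_p]
@[reassoc] theorem Rr_R_map {P Q : AM E} (g : P ⟶ Q) :
    E.Rr P ≫ E.R.map g = E.ext g.f.f ≫ E.Rr Q := by
  rw [R_map, Rr_Ri_assoc, reassoc_of% (E.p_ext g)]

instance : E.R.Additive where
  map_add {P Q f g} := by
    rw [R_map, R_map, R_map, Kar.add_f, Kl.add_f, ext_add]; simp

instance : E.R.Linear ℂ where
  map_smul f c := by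
    rw [R_map, R_map, Kar.smul_f, Kl.smul_f, ext_smul]; simp

instance : E.R.Faithful where
  map_injective {P Q f g} h := by
    have h1 := congrArg (fun x => E.un _ ≫ E.Rr P ≫ x ≫ E.Ri Q) h
    simp only [Rr_R_map_assoc, Rr_Ri, ext_p, un_ext] at h1
    ext1
    exact Kl.hom_ext h1

/-- the adjunction as a linear equivalence -/
noncomputable def homR (X : C) (P : AM E) : (E.F.obj X ⟶ P) ≃ₗ[ℂ] (X ⟶ E.R.obj P) where
  toFun g := (g.f.f : X ⟶ P.X.X ⊗ L) ≫ E.Rr P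
  map_add' f g := Preadditive.add_comp _ _ _ _ _ _
  map_smul' c f := Linear.smul_comp _ _ _ _ _ _
  invFun g := ⟨Kl.mkHom (X := ⟨X⟩) (g ≫ E.Ri P), (Category.id_comp _).trans (Kl.hom_ext (by
    rw [Kl.comp_f, Kl.mkHom_f, Category.assoc, Ri_p]))⟩
  left_inv g := by
    ext1
    apply Kl.hom_ext
    change ((g.f.f : X ⟶ P.X.X ⊗ L) ≫ E.Rr P) ≫ E.Ri P = g.f.f
    rw [Category.assoc, Rr_Ri]
    exact E.f_ext_p g
  right_inv g := by
    change (g ≫ E.Ri P) ≫ E.Rr P = g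
    rw [Category.assoc, Ri_Rr, Category.comp_id]

theorem homR_apply {X : C} {P : AM E} (g : E.F.obj X ⟶ P) : E.homR X P g = g.f.f ≫ E.Rr P := rfl
theorem homR_symm_f {X : C} {P : AM E} (g : X ⟶ E.R.obj P) :
    ((E.homR X P).symm g).f.f = g ≫ E.Ri P := rfl

theorem homR_comp {X : C} {P Q : AM E} (f : E.F.obj X ⟶ P) (g : P ⟶ Q) :
    E.homR X Q (f ≫ g) = E.homR X P f ≫ E.R.map g := by
  change ((f.f.f : X ⟶ P.X.X ⊗ L) ≫ E.ext g.f.f) ≫ E.Rr Q =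
    ((f.f.f : X ⟶ P.X.X ⊗ L) ≫ E.Rr P) ≫ E.R.map g
  rw [Category.assoc, Category.assoc, Rr_R_map]

theorem homR_map_comp {X' X : C} {P : AM E} (f : X' ⟶ X) (g : E.F.obj X ⟶ P) :
    E.homR X' P (E.F.map f ≫ g) = f ≫ E.homR X P g := by
  change ((f ≫ E.un X) ≫ E.ext (g.f.f : X ⟶ P.X.X ⊗ L)) ≫ E.Rr P =
    f ≫ (g.f.f : X ⟶ P.X.X ⊗ L) ≫ E.Rr P
  rw [Category.assoc, Category.assoc, un_ext_assoc]

/-- the data of the adjunction -/
noncomputable def coreAdj : Adjunction.CoreHomEquiv E.F E.R where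
  homEquiv X P := (E.homR X P).toEquiv
  homEquiv_naturality_left_symm {X' X P} f g := by
    rw [Equiv.symm_apply_eq]
    change _ = E.homR X' P (E.F.map f ≫ (E.homR X P).symm g)
    rw [homR_map_comp, LinearEquiv.apply_symm_apply]
  homEquiv_naturality_right f g := E.homR_comp f g

noncomputable def adj : E.F ⊣ E.R := Adjunction.mkOfHomEquiv E.coreAdj

theorem adj_homEquiv {X : C} {P : AM E} (g : E.F.obj X ⟶ P) :
    E.adj.homEquiv X P g = E.homR X P g := by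
  unfold adj
  rw [Adjunction.mkOfHomEquiv_homEquiv]; rfl

theorem adj_unit (X : C) : E.adj.unit.app X = E.un X ≫ E.Rr (E.F.obj X) := rfl

theorem adj_counit_f (P : AM E) : (E.adj.counit.app P).f.f = E.Ri P := Category.id_comp _

noncomputable instance : E.R.LaxMonoidal := E.adj.rightAdjointLaxMonoidal
instance : E.adj.IsMonoidal := inferInstanceAs
  (letI := E.adj.rightAdjointLaxMonoidal; E.adj.IsMonoidal)

/-- `R (F Y) ≅ Y ⊗ L`, with `hom = Ri`, `inv = Rr` -/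
noncomputable def RF (Y : C) : E.R.obj (E.F.obj Y) ≅ Y ⊗ L where
  hom := E.Ri (E.F.obj Y)
  inv := E.Rr (E.F.obj Y)
  hom_inv_id := E.Ri_Rr _
  inv_hom_id := (E.Rr_Ri _).trans (E.ext_un Y)

end Etale

end Pool.Agent.Lib.MP_edb142_al
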