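import Pool.Agent.Lib.MP_edb142_al.H.K2Defs

open CategoryTheory MonoidalCategory Limits

set_option linter.unusedSectionVars false

namespace Pool.Agent.Lib.MP_edb142_al

universe v u v' u'

theorem lin_ginv {V W : Type*} [AddCommGroup V] [Module ℂ V] [AddCommGroup W] [Module ℂ W]
    (T : V →ₗ[ℂ] W) : ∃ S : W →ₗ[ℂ] V, ∀ v, T (S (T v)) = T v := by
  obtain ⟨s, hs⟩ := T.rangeRestrict.exists_rightInverse_of_surjective T.range_rangeRestrict
  obtain ⟨S, hS⟩ := s.exists_extend
  refine ⟨S, fun v => ?_⟩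
  have h1 : S (T v) = s ⟨T v, v, rfl⟩ := by rw [← hS]; rfl
  have h2 := congrArg Subtype.val (LinearMap.congr_fun hs ⟨T v, v, rfl⟩)
  rw [h1]
  exact h2

variable {C : Type u} [Category.{v} C] [Preadditive C] [Linear ℂ C] {I : Type} [Fintype I]
  {X : I → C}

namespace SS

/-- a family of linear maps on the multiplicity spaces comes from a morphism -/
theorem exists_of_lin (h : SS X) {Y Z : C} (S : ∀ i, (X i ⟶ Y) →ₗ[ℂ] (X i ⟶ Z)) :
    ∃ g : Y ⟶ Z, ∀ i (w : X i ⟶ Y), w ≫ g = S i w := by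
  classical
  let φ := h.fr Y
  refine ⟨∑ i, ∑ a, φ.f i a ≫ S i (φ.e i a), fun i w => ?_⟩
  rw [Preadditive.comp_sum, Finset.sum_eq_single i]
  · conv_rhs => rw [← φ.exp_to h w, map_sum]
    rw [Preadditive.comp_sum]
    refine Finset.sum_congr rfl fun a _ => ?_
    rw [← Category.assoc, map_smul]
    conv_lhs => rw [(h.sim i).spec (w ≫ φ.f i a)]
    simp
  · intro j _ hj
    rw [Preadditive.comp_sum]
    refine Finset.sum_eq_zero fun a _ => ?_
    rw [← Category.assoc, h.zero i j (Ne.symm hj) (w ≫ φ.f j a), zero_comp]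
  · simp

/-- generalised inverse -/
theorem ginv (h : SS X) {Y Z : C} (g : Y ⟶ Z) : ∃ g' : Z ⟶ Y, g ≫ g' ≫ g = g := by
  choose S hS using fun i => lin_ginv (Linear.rightComp ℂ (X i) g)
  obtain ⟨g', hg'⟩ := h.exists_of_lin S
  refine ⟨g', h.hom_ext fun i w => ?_⟩
  have := hS i w
  simp only [Linear.rightComp_apply] at this
  rw [← Category.assoc, ← Category.assoc, hg', this]

/-- idempotents split -/
theorem split2 [HasFiniteBiproducts C] (h : SS X) {Y : C} (e : Y ⟶ Y) (he : e ≫ e = e) :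
    ∃ (Y' : C) (q : Y ⟶ Y') (j : Y' ⟶ Y), j ≫ q = 𝟙 Y' ∧ q ≫ j = e := by
  classical
  have := fun i => h.finite (X i) Y
  let R : ∀ i, Submodule ℂ (X i ⟶ Y) := fun i => LinearMap.range (Linear.rightComp ℂ (X i) e)
  let b := fun i => Module.finBasis ℂ (R i)
  let T : Type := Σ i, Fin (Module.finrank ℂ (R i))
  let j : (⨁ fun p : T => X p.1) ⟶ Y := biproduct.desc fun p => (b p.1 p.2 : X p.1 ⟶ Y)
  let S : ∀ i, (X i ⟶ Y) →ₗ[ℂ] (X i ⟶ ⨁ fun p : T => X p.1) := fun i =>
    ((b i).constr ℂ fun a => biproduct.ι (fun p : T => X p.1) ⟨i, a⟩) ∘ₗ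
      (Linear.rightComp ℂ (X i) e).rangeRestrict
  obtain ⟨q, hq⟩ := h.exists_of_lin S
  have key : ∀ i (r : R i), ((b i).constr ℂ
      (fun a => biproduct.ι (fun p : T => X p.1) ⟨i, a⟩) r) ≫ j = (r : X i ⟶ Y) := by
    intro i r
    have : (Linear.rightComp ℂ (X i) j) ∘ₗ ((b i).constr ℂ
        (fun a => biproduct.ι (fun p : T => X p.1) ⟨i, a⟩)) = (R i).subtype := by
      apply (b i).ext
      intro a
      simp [j]
    exact LinearMap.congr_fun this r
  refine ⟨_, q, j, ?_, h.hom_ext fun i w => ?_⟩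
  · apply biproduct.hom_ext'
    rintro ⟨i, a⟩
    rw [← Category.assoc, biproduct.ι_desc, hq, Category.comp_id]
    have : (Linear.rightComp ℂ (X i) e).rangeRestrict (b i a : X i ⟶ Y) = b i a := by
      apply Subtype.ext
      obtain ⟨w, hw⟩ := (b i a).2
      simp only [LinearMap.codRestrict_apply, Linear.rightComp_apply] at hw ⊢
      rw [← hw, Category.assoc, he]
    simp only [S, LinearMap.comp_apply, this, Module.Basis.constr_basis]
  · rw [← Category.assoc, hq]
    exact key i _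

theorem finrank_le (h : SS X) {Y Z : C} (l : Y ⟶ Z) (l' : Z ⟶ Y) (hl : l ≫ l' = 𝟙 Y) (V : C) :
    Module.finrank ℂ (V ⟶ Y) ≤ Module.finrank ℂ (V ⟶ Z) := by
  have := h.finite V Z
  refine LinearMap.finrank_le_finrank_of_injective (f := Linear.rightComp ℂ V l) ?_
  intro a b hab
  simp only [Linear.rightComp_apply] at hab
  rw [← Category.comp_id a, ← Category.comp_id b, ← hl, reassoc_of% hab]

theorem inv_of_finrank (h : SS X) {Y Z : C} (l : Y ⟶ Z) (l' : Z ⟶ Y) (hl : l ≫ l' = 𝟙 Y)
    (H : ∀ i, Module.finrank ℂ (X i ⟶ Y) = Module.finrank ℂ (X i ⟶ Z)) : l' ≫ l = 𝟙 Z := by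
  refine h.hom_ext fun i w => ?_
  have := h.finite (X i) Y
  have := h.finite (X i) Z
  have inj : Function.Injective (Linear.rightComp ℂ (X i) l) := by
    intro a b hab
    simp only [Linear.rightComp_apply] at hab
    rw [← Category.comp_id a, ← Category.comp_id b, ← hl, reassoc_of% hab]
  obtain ⟨x, hx⟩ := (LinearMap.injective_iff_surjective_of_finrank_eq_finrank (H i)).1 inj w
  simp only [Linear.rightComp_apply] at hx
  rw [← hx, Category.assoc, reassoc_of% hl, Category.comp_id]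

/-- dimension of a hom space through the multiplicities -/
theorem finrank_hom2 (h : SS X) (V Y : C) :
    Module.finrank ℂ (V ⟶ Y) =
      ∑ i, Module.finrank ℂ (X i ⟶ Y) * Module.finrank ℂ (V ⟶ X i) := by
  classical
  let φ := h.fr Y
  have := fun i => h.finite V (X i)
  let e : (V ⟶ Y) ≃ₗ[ℂ] (∀ i, φ.T i → (V ⟶ X i)) :=
    { toFun := fun g i a => g ≫ φ.f i a
      map_add' := fun g g' => by ext i a; simp
      map_smul' := fun c g => by ext i a; simp
      invFun := fun c => ∑ i, ∑ a, c i a ≫ φ.e i a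
      left_inv := fun g => by
        simp only [Category.assoc, ← Preadditive.comp_sum, φ.tot, Category.comp_id]
      right_inv := fun c => by
        ext i a
        beta_reduce
        rw [Preadditive.sum_comp, Finset.sum_eq_single i]
        · simp [Preadditive.sum_comp, φ.orth, comp_ite]
        · intro j _ hj
          rw [Preadditive.sum_comp]
          refine Finset.sum_eq_zero fun b _ => ?_
          rw [Category.assoc, h.zero j i hj (φ.e j b ≫ φ.f i a), comp_zero]
        · simp }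
  rw [e.finrank_eq, Module.finrank_pi_fintype]
  refine Finset.sum_congr rfl fun i _ => ?_
  rw [Module.finrank_pi_fintype, φ.finrank_to h]
  simp

theorem finrank_comm2 (h : SS X) (V Y : C) :
    Module.finrank ℂ (V ⟶ Y) = Module.finrank ℂ (Y ⟶ V) := by
  rw [h.finrank_hom2 V Y, h.finrank_hom2 Y V]
  refine Finset.sum_congr rfl fun i _ => ?_
  rw [h.finrank_symm Y, h.finrank_symm V, mul_comm]

end SS

end Pool.Agent.Lib.MP_edb142_al
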