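import Pool.Agent.Lib.MP_edb142_al.H.K2A
import Pool.Agent.Lib.MP_edb142_al.Lag

open CategoryTheory MonoidalCategory Limits BraidedCategory
open Functor.LaxMonoidal Functor.OplaxMonoidal Functor.Monoidal

set_option linter.unusedSectionVars false

namespace Pool.Agent.Lib.MP_edb142_al

universe v u v' u'

variable {C : Type u} [Category.{v} C] [Preadditive C] [Linear ℂ C] [MonoidalCategory C]
  [MonoidalPreadditive C] [MonoidalLinear ℂ C] [HasFiniteBiproducts C] [BraidedCategory C]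
  [RigidCategory C] {I : Type} [Fintype I] [DecidableEq I]
  {A : Type u'} [Category.{v'} A] [Preadditive A] [Linear ℂ A] [MonoidalCategory A]
  {M : Modular C I} {L : C}

namespace Etale
variable (E : Etale M L)

@[reassoc] theorem mul_one' : L ◁ E.u ≫ E.m = (ρ_ L).hom := by
  rw [← E.comm, braiding_naturality_right_assoc, E.one_mul, braiding_tensorUnit_right]
  simp

theorem u_ne2 : E.u ≠ 0 := by
  intro h
  have h1 := E.one_mul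
  rw [h, MonoidalPreadditive.zero_whiskerRight, zero_comp] at h1
  have h2 : 𝟙 L = 0 := by rw [← (λ_ L).inv_hom_id, ← h1, comp_zero]
  have : Subsingleton (𝟙_ C ⟶ L) := ⟨fun a b => by
    rw [← Category.comp_id a, ← Category.comp_id b, h2]; simp⟩
  have h3 := E.conn
  rw [Module.finrank_zero_of_subsingleton] at h3
  exact absurd h3 (by norm_num)

theorem to_L (w : 𝟙_ C ⟶ L) : ∃ c : ℂ, w = c • E.u := by
  obtain ⟨c, hc⟩ := (finrank_eq_one_iff_of_nonzero' E.u E.u_ne2).1 E.conn w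
  exact ⟨c, hc.symm⟩

theorem exists_eps : ∃ eps : L ⟶ 𝟙_ C, E.u ≫ eps = 𝟙 _ := by
  obtain ⟨g, hg⟩ := M.ss.ginv E.u
  refine ⟨g, ?_⟩
  have h := M.s1.spec (E.u ≫ g)
  rw [← Category.assoc, h, Linear.smul_comp, Category.id_comp] at hg
  have : sc (E.u ≫ g) = 1 := by
    apply smul_left_injective ℂ E.u_ne2
    simpa using hg
  rw [h, this, one_smul]

end Etale

/-- image of the braiding -/
noncomputable def bF (F : C ⥤ A) [F.Monoidal] (Y Z : C) : F.obj Y ⊗ F.obj Z ⟶ F.obj Z ⊗ F.obj Y :=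
  μ F Y Z ≫ F.map (β_ Y Z).hom ≫ δ F Z Y

section
variable (F : C ⥤ A) [F.Monoidal]

@[reassoc] theorem bF_left {Y Y' : C} (f : Y ⟶ Y') (Z : C) :
    F.map f ▷ F.obj Z ≫ bF F Y' Z = bF F Y Z ≫ F.obj Z ◁ F.map f := by
  unfold bF
  simp only [Category.assoc, μ_natural_left_assoc, δ_natural_right, ← F.map_comp_assoc,
    braiding_naturality_left]

theorem bF_tensor_right (Y Z Z' : C) :
    F.obj Y ◁ μ F Z Z' ≫ bF F Y (Z ⊗ Z') =
      (𝟙 _ ⊗≫ bF F Y Z ▷ F.obj Z' ⊗≫ F.obj Z ◁ bF F Y Z' ⊗≫ 𝟙 _) ≫ μ F Z Z' ▷ F.obj Y := by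
  unfold bF
  rw [braiding_tensor_right_hom]
  simp only [Functor.map_comp, map_whiskerLeft, map_whiskerRight, map_associator_inv,
    map_associator, Category.assoc, μ_δ_assoc, μ_δ, whiskerLeft_μ_δ_assoc, Category.comp_id,
    comp_whiskerRight, MonoidalCategory.whiskerLeft_comp]
  monoidal

theorem bF_tensor_left (X Y Z : C) :
    μ F X Y ▷ F.obj Z ≫ bF F (X ⊗ Y) Z =
      (𝟙 _ ⊗≫ F.obj X ◁ bF F Y Z ⊗≫ bF F X Z ▷ F.obj Y ⊗≫ 𝟙 _) ≫ F.obj Z ◁ μ F X Y := by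
  unfold bF
  rw [braiding_tensor_left_hom]
  simp only [Functor.map_comp, map_whiskerLeft, map_whiskerRight, map_associator_inv,
    map_associator, Category.assoc, μ_δ_assoc, μ_δ, whiskerRight_μ_δ_assoc, Category.comp_id,
    comp_whiskerRight, MonoidalCategory.whiskerLeft_comp]
  monoidal

theorem bF_unit_right (Y : C) :
    F.obj Y ◁ ε F ≫ bF F Y (𝟙_ C) = ((ρ_ _).hom ≫ (λ_ _).inv) ≫ ε F ▷ F.obj Y := by
  unfold bF
  rw [braiding_tensorUnit_right]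
  simp only [Functor.map_comp, map_rightUnitor, map_leftUnitor_inv, Category.assoc, μ_δ_assoc,
    μ_δ, whiskerLeft_ε_η_assoc, Category.comp_id]

theorem bF_unit_left (Y : C) :
    ε F ▷ F.obj Y ≫ bF F (𝟙_ C) Y = ((λ_ _).hom ≫ (ρ_ _).inv) ≫ F.obj Y ◁ ε F := by
  unfold bF
  rw [braiding_tensorUnit_left]
  simp only [Functor.map_comp, map_leftUnitor, map_rightUnitor_inv, Category.assoc, μ_δ_assoc,
    μ_δ, whiskerRight_ε_η_assoc, Category.comp_id]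

end

namespace Ind
variable {E : Etale M L} {F : C ⥤ A} [F.Monoidal] (D : Ind M E F)

theorem hom_pre {X Y Z : C} (a : X ⟶ Y) (g : F.obj Y ⟶ F.obj Z) :
    D.hom X Z (F.map a ≫ g) = a ≫ D.hom Y Z g := by
  rw [D.hom_comp, D.hom_map]
  calc _ = a ≫ (ρ_ Y).inv ≫ (Y ◁ E.u ≫ D.hom Y Z g ▷ L) ≫ (α_ Z L L).hom ≫ Z ◁ E.m := by monoidal
    _ = a ≫ D.hom Y Z g ≫ Z ◁ ((ρ_ L).inv ≫ L ◁ E.u ≫ E.m) := by
      rw [whisker_exchange]; monoidal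
    _ = _ := by rw [E.mul_one']; simp

theorem hom_post {X Y Z : C} (g : F.obj X ⟶ F.obj Y) (b : Y ⟶ Z) :
    D.hom X Z (g ≫ F.map b) = D.hom X Y g ≫ b ▷ L := by
  rw [D.hom_comp, D.hom_map]
  calc _ = D.hom X Y g ≫ b ▷ L ≫ Z ◁ ((λ_ L).inv ≫ E.u ▷ L ≫ E.m) := by monoidal
    _ = _ := by rw [E.one_mul]; simp

include D in
theorem map_inj {X Y : C} {f g : X ⟶ Y} (h : F.map f = F.map g) : f = g := by
  obtain ⟨eps, he⟩ := E.exists_eps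
  have h1 := congrArg (D.hom X Y) h
  rw [D.hom_map, D.hom_map] at h1
  have h2 := h1 =≫ (Y ◁ eps ≫ (ρ_ Y).hom)
  simp only [Category.assoc, ← MonoidalCategory.whiskerLeft_comp_assoc, he] at h2
  simpa using h2

include D in
@[reassoc] theorem bF_nat (Y : C) {Z Z' : C} (g : F.obj Z ⟶ F.obj Z') :
    F.obj Y ◁ g ≫ bF F Y Z' = bF F Y Z ≫ g ▷ F.obj Y := by
  rw [← cancel_epi (δ F Y Z), ← cancel_mono (μ F Z' Y)]
  apply (D.hom _ _).injective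
  unfold bF
  simp only [Category.assoc, δ_μ, δ_μ_assoc, Category.comp_id]
  have h1 := D.hom_post (δ F Y Z ≫ F.obj Y ◁ g ≫ μ F Y Z') (β_ Y Z').hom
  simp only [Category.assoc] at h1
  rw [h1, D.hom_pre, D.hom_wl, D.hom_wr, ← braiding_naturality_right_assoc,
    braiding_tensor_right_hom]
  simp

/-- chosen retraction data -/
noncomputable def rO (Q : A) : C := (D.retr Q).choose
noncomputable def ri (Q : A) : Q ⟶ F.obj (D.rO Q) := (D.retr Q).choose_spec.choose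
noncomputable def rp (Q : A) : F.obj (D.rO Q) ⟶ Q := (D.retr Q).choose_spec.choose_spec.choose
@[reassoc] theorem ri_rp (Q : A) : D.ri Q ≫ D.rp Q = 𝟙 Q :=
  (D.retr Q).choose_spec.choose_spec.choose_spec

/-- the half braiding of a free module -/
noncomputable def γ (Y : C) (Q : A) : F.obj Y ⊗ Q ⟶ Q ⊗ F.obj Y :=
  F.obj Y ◁ D.ri Q ≫ bF F Y (D.rO Q) ≫ D.rp Q ▷ F.obj Y

@[reassoc] theorem γ_nat (Y : C) {Q Q' : A} (h : Q ⟶ Q') :
    F.obj Y ◁ h ≫ D.γ Y Q' = D.γ Y Q ≫ h ▷ F.obj Y := by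
  unfold γ
  calc _ = F.obj Y ◁ D.ri Q ≫ (F.obj Y ◁ (D.rp Q ≫ h ≫ D.ri Q') ≫ bF F Y (D.rO Q')) ≫
        D.rp Q' ▷ F.obj Y := by
        simp only [Category.assoc, ← MonoidalCategory.whiskerLeft_comp_assoc, D.ri_rp_assoc]
    _ = _ := by
        rw [D.bF_nat]
        simp only [Category.assoc, ← comp_whiskerRight, D.ri_rp, Category.comp_id]

theorem γ_F (Y Z : C) : D.γ Y (F.obj Z) = bF F Y Z := by
  unfold γ
  rw [D.bF_nat_assoc, ← comp_whiskerRight, D.ri_rp]; simp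

include D in
/-- natural families that agree on free modules agree -/
theorem ext_F {S T : A ⥤ A} (a b : ∀ Q, S.obj Q ⟶ T.obj Q)
    (ha : ∀ {Q Q' : A} (h : Q ⟶ Q'), S.map h ≫ a Q' = a Q ≫ T.map h)
    (hb : ∀ {Q Q' : A} (h : Q ⟶ Q'), S.map h ≫ b Q' = b Q ≫ T.map h)
    (H : ∀ Z, a (F.obj Z) = b (F.obj Z)) (Q : A) : a Q = b Q := by
  rw [← Category.comp_id (a Q), ← Category.comp_id (b Q), ← T.map_id, ← D.ri_rp Q, T.map_comp,
    ← reassoc_of% (ha (D.ri Q)), ← reassoc_of% (hb (D.ri Q)), H]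

include D in
/-- commutation with two natural families can be checked on free modules -/
theorem comm_ext {z z' : A} (b : ∀ U, z ⊗ U ⟶ U ⊗ z) (b' : ∀ U, z' ⊗ U ⟶ U ⊗ z')
    (hb : ∀ {U U' : A} (h : U ⟶ U'), z ◁ h ≫ b U' = b U ≫ h ▷ z)
    (hb' : ∀ {U U' : A} (h : U ⟶ U'), z' ◁ h ≫ b' U' = b' U ≫ h ▷ z') (g : z ⟶ z')
    (H : ∀ Z, g ▷ F.obj Z ≫ b' (F.obj Z) = b (F.obj Z) ≫ F.obj Z ◁ g) (U : A) :
    g ▷ U ≫ b' U = b U ≫ U ◁ g :=
  D.ext_F (S := tensorLeft z) (T := tensorRight z') (fun U => g ▷ U ≫ b' U)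
    (fun U => b U ≫ U ◁ g)
    (fun h => by
      simp only [tensorLeft, tensorRight, curriedTensor, Functor.flip]
      rw [whisker_exchange_assoc, hb', Category.assoc])
    (fun h => by
      simp only [tensorLeft, tensorRight, curriedTensor, Functor.flip]
      rw [reassoc_of% (hb h), ← whisker_exchange, Category.assoc]) H U

@[reassoc] theorem γ_left {Y Y' : C} (f : Y ⟶ Y') (Q : A) :
    F.map f ▷ Q ≫ D.γ Y' Q = D.γ Y Q ≫ Q ◁ F.map f :=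
  D.comm_ext (D.γ Y) (D.γ Y') (D.γ_nat Y) (D.γ_nat Y') _
    (fun Z => by rw [γ_F, γ_F, bF_left]) Q

theorem γ_mon (Y : C) (U U' : A) :
    D.γ Y (U ⊗ U') = 𝟙 _ ⊗≫ D.γ Y U ▷ U' ⊗≫ U ◁ D.γ Y U' ⊗≫ 𝟙 _ := by
  have h0 : ∀ Z Z', D.γ Y (F.obj Z ⊗ F.obj Z') =
      𝟙 _ ⊗≫ bF F Y Z ▷ F.obj Z' ⊗≫ F.obj Z ◁ bF F Y Z' ⊗≫ 𝟙 _ := by
    intro Z Z'
    rw [← cancel_mono (μ F Z Z' ▷ F.obj Y), ← D.γ_nat, γ_F, bF_tensor_right]
  calc _ = F.obj Y ◁ (D.ri U ▷ U' ≫ F.obj (D.rO U) ◁ D.ri U') ≫ (F.obj Y ◁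
        (F.obj (D.rO U) ◁ D.rp U' ≫ D.rp U ▷ U') ≫ D.γ Y (U ⊗ U')) := by
        simp only [← MonoidalCategory.whiskerLeft_comp_assoc, Category.assoc, D.ri_rp,
          MonoidalCategory.whiskerLeft_id, Category.id_comp, ← comp_whiskerRight,
          id_whiskerRight]
    _ = 𝟙 _ ⊗≫ (F.obj Y ◁ D.ri U) ▷ U' ⊗≫ ((F.obj Y ⊗ F.obj (D.rO U)) ◁ D.ri U' ≫
          bF F Y (D.rO U) ▷ F.obj (D.rO U')) ⊗≫
          F.obj (D.rO U) ◁ (bF F Y (D.rO U') ≫ D.rp U' ▷ F.obj Y) ⊗≫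
          D.rp U ▷ (U' ⊗ F.obj Y) ⊗≫ 𝟙 _ := by
        rw [D.γ_nat, h0]; monoidal
    _ = 𝟙 _ ⊗≫ (F.obj Y ◁ D.ri U ≫ bF F Y (D.rO U)) ▷ U' ⊗≫
          (F.obj (D.rO U) ◁ D.γ Y U' ≫ D.rp U ▷ (U' ⊗ F.obj Y)) ⊗≫ 𝟙 _ := by
        rw [whisker_exchange]; unfold γ; monoidal
    _ = _ := by
        rw [whisker_exchange]; unfold γ; monoidal

theorem γ_unit (Y : C) : D.γ Y (𝟙_ A) = (ρ_ _).hom ≫ (λ_ _).inv := by
  rw [← cancel_mono (ε F ▷ F.obj Y), ← D.γ_nat, γ_F, bF_unit_right]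

theorem γ_μ (X Y : C) (Q : A) : μ F X Y ▷ Q ≫ D.γ (X ⊗ Y) Q =
    (𝟙 _ ⊗≫ F.obj X ◁ D.γ Y Q ⊗≫ D.γ X Q ▷ F.obj Y ⊗≫ 𝟙 _) ≫ Q ◁ μ F X Y :=
  D.comm_ext (fun Q => 𝟙 _ ⊗≫ F.obj X ◁ D.γ Y Q ⊗≫ D.γ X Q ▷ F.obj Y ⊗≫ 𝟙 _) (D.γ (X ⊗ Y))
    (fun {U U'} h => by
      calc _ = 𝟙 _ ⊗≫ F.obj X ◁ (F.obj Y ◁ h ≫ D.γ Y U') ⊗≫ D.γ X U' ▷ F.obj Y ⊗≫ 𝟙 _ := by
            monoidal
        _ = 𝟙 _ ⊗≫ F.obj X ◁ D.γ Y U ⊗≫ (F.obj X ◁ h ≫ D.γ X U') ▷ F.obj Y ⊗≫ 𝟙 _ := by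
            rw [D.γ_nat]; monoidal
        _ = _ := by rw [D.γ_nat]; monoidal)
    (D.γ_nat _) _ (fun Z => by rw [γ_F, γ_F, γ_F, bF_tensor_left]) Q

theorem γ_ε (Q : A) : ε F ▷ Q ≫ D.γ (𝟙_ C) Q = ((λ_ _).hom ≫ (ρ_ _).inv) ≫ Q ◁ ε F :=
  D.comm_ext (fun Q => (λ_ Q).hom ≫ (ρ_ Q).inv) (D.γ (𝟙_ C)) (fun h => by monoidal)
    (D.γ_nat _) _ (fun Z => by rw [γ_F, bF_unit_left]) Q

variable [RigidCategory A]

instance γ_isIso (Y : C) (U : A) : IsIso (D.γ Y U) :=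
  half_isIso (D.γ Y) (D.γ_nat Y) (D.γ_mon Y) (D.γ_unit Y) (Du.ofEP (ᘁU : A) U)

/-- the half braiding on a free module -/
noncomputable def hb (Y : C) : HalfBraiding (F.obj Y) where
  β U := asIso (D.γ Y U)
  monoidal U U' := by
    simp only [asIso_hom]
    rw [γ_mon]; monoidal
  naturality f := D.γ_nat Y f

/-- the central functor -/
noncomputable def Φ : C ⥤ Center A where
  obj Y := ⟨F.obj Y, D.hb Y⟩
  map f := ⟨F.map f, D.γ_left f⟩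
  map_id Y := Center.ext _ _ (F.map_id Y)
  map_comp f g := Center.ext _ _ (F.map_comp f g)

noncomputable def Φε : 𝟙_ (Center A) ⟶ D.Φ.obj (𝟙_ C) := ⟨ε F, D.γ_ε⟩

noncomputable def Φμ (X Y : C) : D.Φ.obj X ⊗ D.Φ.obj Y ⟶ D.Φ.obj (X ⊗ Y) :=
  ⟨μ F X Y, fun U => (D.γ_μ X Y U).trans (by
    change _ = ((α_ _ _ _).hom ≫ F.obj X ◁ D.γ Y U ≫ (α_ _ _ _).inv ≫ D.γ X U ▷ F.obj Y ≫
      (α_ _ _ _).hom) ≫ U ◁ μ F X Y
    monoidal)⟩

instance : IsIso D.Φε.f := inferInstanceAs (IsIso (ε F))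
instance (X Y : C) : IsIso (D.Φμ X Y).f := inferInstanceAs (IsIso (μ F X Y))

noncomputable def Φcore : D.Φ.CoreMonoidal where
  εIso := Center.isoMk D.Φε
  μIso X Y := Center.isoMk (D.Φμ X Y)
  μIso_hom_natural_left f X' := Center.ext _ _ (μ_natural_left F f X')
  μIso_hom_natural_right X' f := Center.ext _ _ (μ_natural_right F X' f)
  associativity X Y Z := Center.ext _ _ (Functor.LaxMonoidal.associativity F X Y Z)
  left_unitality X := Center.ext _ _ (Functor.LaxMonoidal.left_unitality F X)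
  right_unitality X := Center.ext _ _ (Functor.LaxMonoidal.right_unitality F X)

@[instance_reducible] noncomputable def Φbraided : D.Φ.Braided where
  toMonoidal := D.Φcore.toMonoidal
  braided X Y := Center.ext _ _ (by
    change μ F X Y ≫ F.map (β_ X Y).hom = D.γ X (F.obj Y) ≫ μ F Y X
    rw [γ_F]; unfold bF; simp)

end Ind

end Pool.Agent.Lib.MP_edb142_al
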