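import Pool.Agent.Lib.MP_edb142_al.H.K2B

open CategoryTheory MonoidalCategory Limits BraidedCategory
open Functor.LaxMonoidal Functor.OplaxMonoidal Functor.Monoidal

set_option linter.unusedSectionVars false

namespace Pool.Agent.Lib.MP_edb142_al

universe v u v' u'

variable {C : Type u} [Category.{v} C] [Preadditive C] [Linear ℂ C] [MonoidalCategory C]
  [MonoidalPreadditive C] [MonoidalLinear ℂ C] [HasFiniteBiproducts C] [BraidedCategory C]
  [RigidCategory C] {I : Type} [Fintype I] [DecidableEq I]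
  {A : Type u'} [Category.{v'} A] [Preadditive A] [Linear ℂ A] [MonoidalCategory A]
  {M : Modular C I} {L : C}

theorem Tw.bb_nat_right {V U U' : C} (f : U ⟶ U') : V ◁ f ≫ Tw.bb V U' = Tw.bb V U ≫ V ◁ f := by
  unfold Tw.bb
  rw [braiding_naturality_right_assoc, braiding_naturality_left, Category.assoc]

namespace Modular
variable (M)

theorem pt_id {V d : C} (P : Du V d) (W : C) :
    M.tw.pt P (𝟙 (V ⊗ W)) = M.trL V (𝟙 V) • 𝟙 W := by
  have h := M.tr_eq P (𝟙 V)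
  unfold Tw.tr trc at h
  unfold Tw.pt ptr
  simp only [MonoidalCategory.whiskerLeft_id, Category.id_comp] at h ⊢
  rw [Iso.hom_inv_id_assoc, ← comp_whiskerRight_assoc, h]
  simp

/-- only the unit is transparent -/
theorem eq_o_of_s (k : I) (h : ∀ j, M.s k (M.X j) = M.dim j) : k = M.o := by
  by_contra hk
  apply M.S_det
  apply Matrix.exists_mulVec_eq_zero_iff.1
  refine ⟨Pi.single k 1 - M.dim k • Pi.single M.o 1, ?_, ?_⟩
  · intro h0
    have := congrFun h0 k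
    simp [hk] at this
  · rw [Matrix.mulVec_sub, Matrix.mulVec_smul, Matrix.mulVec_single_one, Matrix.mulVec_single_one]
    ext j
    simp only [Pi.sub_apply, Pi.smul_apply, Matrix.col_apply, smul_eq_mul, Pi.zero_apply]
    rw [M.S_s j k, h, S_o']; ring

theorem transp_zero {W : C} {k : I} (hk : k ≠ M.o) (h : W ⟶ M.X k)
    (H : ∀ Z, Z ◁ h ≫ Tw.bb Z (M.X k) = Z ◁ h) : h = 0 := by
  by_contra hne
  apply hk
  apply M.eq_o_of_s
  intro j
  have h1 := congrArg (M.tw.pt (du (M.X j))) (H (M.X j))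
  have h2 : M.tw.pt (du (M.X j)) (M.X j ◁ h) = M.dim j • h := by
    rw [← Category.comp_id (M.X j ◁ h)]
    unfold Tw.pt
    rw [ptr_left]
    change h ≫ M.tw.pt _ _ = _
    rw [pt_id]; simp [dim]
  rw [h2] at h1
  unfold Tw.pt at h1
  rw [ptr_left] at h1
  change h ≫ M.tw.pt _ _ = _ at h1
  rw [pt_bb, Linear.comp_smul, Category.comp_id] at h1
  exact smul_left_injective ℂ hne h1

end Modular

namespace Etale
variable (E : Etale M L)

theorem transp {W : C} (h : W ⟶ L) (H : ∀ Z, Z ◁ h ≫ Tw.bb Z L = Z ◁ h) :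
    ∃ h0 : W ⟶ 𝟙_ C, h = h0 ≫ E.u := by
  obtain ⟨ι⟩ := M.unit_iso
  let φ := M.ss.fr L
  choose c hc using fun a : φ.T M.o => E.to_L (ι.hom ≫ φ.e M.o a)
  refine ⟨∑ a, c a • (h ≫ φ.f M.o a ≫ ι.inv), ?_⟩
  conv_lhs => rw [← Category.comp_id h, ← φ.tot, Preadditive.comp_sum]
  rw [Finset.sum_eq_single M.o]
  · rw [Preadditive.comp_sum, Preadditive.sum_comp]
    refine Finset.sum_congr rfl fun a _ => ?_
    rw [Linear.smul_comp, ← Linear.comp_smul, ← hc]; simp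
  · intro k _ hk
    rw [Preadditive.comp_sum]
    refine Finset.sum_eq_zero fun a _ => ?_
    rw [← Category.assoc, M.transp_zero hk (h ≫ φ.f k a), zero_comp]
    intro Z
    rw [MonoidalCategory.whiskerLeft_comp, Category.assoc, Tw.bb_nat_right, reassoc_of% (H Z)]
  · simp

theorem transp' {X Y : C} (g : X ⟶ Y ⊗ L)
    (H : ∀ Z, g ▷ Z ≫ (α_ Y L Z).hom ≫ Y ◁ (β_ Z L).inv = g ▷ Z ≫ (α_ Y L Z).hom ≫ Y ◁ (β_ L Z).hom) :
    ∃ f : X ⟶ Y, g = f ≫ (ρ_ Y).inv ≫ Y ◁ E.u := by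
  obtain ⟨h0, hh⟩ := E.transp ((du Y).unL g) (fun Z => by
    have h1 : (du Y).unL g ▷ Z ≫ (β_ Z L).inv = (du Y).unL g ▷ Z ≫ (β_ L Z).hom := by
      have key : ∀ b : L ⊗ Z ⟶ Z ⊗ L, (du Y).unL g ▷ Z ≫ b =
          (α_ _ _ _).hom ≫ (du Y).unL (g ▷ Z ≫ (α_ Y L Z).hom ≫ Y ◁ b) := by
        intro b
        unfold Du.unL
        calc _ = 𝟙 _ ⊗≫ (Yᘁ : C) ◁ g ▷ Z ⊗≫ ((du Y).ε ▷ (L ⊗ Z) ≫ 𝟙_ C ◁ b) ⊗≫ 𝟙 _ := by monoidal
          _ = _ := by rw [← whisker_exchange]; monoidal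
      rw [key, key, H]
    unfold Tw.bb
    rw [← cancel_epi (β_ Z ((Yᘁ : C) ⊗ X)).inv, ← braiding_inv_naturality_left_assoc,
      ← braiding_inv_naturality_left, Iso.inv_hom_id_assoc, h1])
  refine ⟨(du Y).toL h0 ≫ (ρ_ Y).hom, ?_⟩
  rw [← (du Y).toL_unL g, hh]
  unfold Du.toL
  simp

end Etale

namespace Ind
variable {E : Etale M L} {F : C ⥤ A} [F.Monoidal] (D : Ind M E F)

include D in
theorem full_aux {X Y : C} (g : F.obj X ⟶ F.obj Y)
    (H : ∀ Z, g ▷ F.obj Z ≫ bF F Y Z = bF F X Z ≫ F.obj Z ◁ g) : ∃ f : X ⟶ Y, F.map f = g := by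
  obtain ⟨f, hf⟩ := E.transp' (D.hom X Y g) (fun Z => by
    have h1 := congrArg (D.hom _ _) (δ F X Z ≫= (H Z) =≫ μ F Z Y)
    unfold bF at h1
    simp only [Category.assoc, δ_μ, δ_μ_assoc, Category.comp_id] at h1
    have h2 := D.hom_post (δ F X Z ≫ g ▷ F.obj Z ≫ μ F Y Z) (β_ Y Z).hom
    simp only [Category.assoc] at h2
    rw [h2, D.hom_pre, D.hom_wl, D.hom_wr, ← braiding_naturality_left_assoc,
      braiding_tensor_left_hom] at h1
    simp only [Category.assoc, Iso.hom_inv_id, Category.comp_id] at h1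
    rw [← cancel_mono ((α_ Y Z L).inv ≫ (β_ Y Z).hom ▷ L)]
    simpa using h1)
  exact ⟨f, (D.hom X Y).injective (by rw [D.hom_map, hf])⟩

variable [RigidCategory A]

theorem full {X Y : C} (g : F.obj X ⟶ F.obj Y)
    (H : ∀ U, g ▷ U ≫ D.γ Y U = D.γ X U ≫ U ◁ g) : ∃ f : X ⟶ Y, F.map f = g :=
  D.full_aux g fun Z => by rw [← D.γ_F, ← D.γ_F, H]

instance : D.Φ.Full where
  map_surjective g := by
    obtain ⟨f, hf⟩ := D.full g.f g.comm
    exact ⟨f, Center.ext _ _ hf⟩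

instance : D.Φ.Faithful where
  map_injective h := D.map_inj (congrArg Center.Hom.f h)

end Ind

end Pool.Agent.Lib.MP_edb142_al
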