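import Pool.Agent.Lib.MP_edb142_al.H.K2E

open CategoryTheory MonoidalCategory Limits BraidedCategory
open Functor.LaxMonoidal Functor.OplaxMonoidal Functor.Monoidal

set_option linter.unusedSectionVars false

namespace Pool.Agent.Lib.MP_edb142_al

universe v u v' u'

section Tr
variable {B : Type u} [Category.{v} B] [Preadditive B] [Linear ℂ B]

/-- trace of postcomposition on a hom space -/
noncomputable def trH (V P : B) : (P ⟶ P) →ₗ[ℂ] ℂ where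
  toFun f := LinearMap.trace ℂ _ (Linear.rightComp ℂ V f)
  map_add' f g := by
    rw [← map_add]; congr 1; ext; simp
  map_smul' c f := by
    rw [RingHom.id_apply, ← map_smul]; congr 1; ext; simp

variable {J : Type} [Fintype J] {X : J → B}

theorem SS.trH_cyc (h : SS X) (V : B) {P Q : B} (f : P ⟶ Q) (g : Q ⟶ P) :
    trH V P (f ≫ g) = trH V Q (g ≫ f) := by
  have := h.finite V P
  have := h.finite V Q
  have e := LinearMap.trace_comp_comm' (Linear.rightComp ℂ V f) (Linear.rightComp ℂ V g)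
  refine Eq.trans ?_ (e.trans ?_)
  · change LinearMap.trace ℂ _ _ = _
    congr 1; ext; simp
  · change _ = LinearMap.trace ℂ _ _
    congr 1; ext; simp

theorem SS.trH_id (h : SS X) (V P : B) : trH V P (𝟙 P) = (Module.finrank ℂ (V ⟶ P) : ℂ) := by
  have := h.finite V P
  rw [← LinearMap.trace_id ℂ]
  change LinearMap.trace ℂ _ _ = _
  congr 1; ext; simp

/-- dimensions of hom spaces add over retract decompositions -/
theorem SS.finrank_sum (h : SS X) (V : B) {P : B} {T : Type*} [Fintype T] (Q : T → B)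
    (i : ∀ a, Q a ⟶ P) (p : ∀ a, P ⟶ Q a) (hip : ∀ a, i a ≫ p a = 𝟙 _)
    (tot : ∑ a, p a ≫ i a = 𝟙 P) :
    Module.finrank ℂ (V ⟶ P) = ∑ a, Module.finrank ℂ (V ⟶ Q a) := by
  apply Nat.cast_injective (R := ℂ)
  rw [← h.trH_id, ← tot, map_sum, Nat.cast_sum]
  refine Finset.sum_congr rfl fun a _ => ?_
  rw [h.trH_cyc, hip, h.trH_id]

theorem Frame.trH_eq (h : SS X) {V : B} (φ : Frame X V) (k : J) (g : V ⟶ V) :
    trH (X k) V g = ∑ a, sc (φ.e k a ≫ g ≫ φ.f k a) := by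
  have := h.finite (X k) V
  have e := trace_frame (φ.e k) (fun a => (h.sim k).scL ∘ₗ Linear.rightComp ℂ (X k) (φ.f k a))
    (fun x => φ.exp_to h x) (Linear.rightComp ℂ (X k) g)
  refine e.trans (Finset.sum_congr rfl fun a _ => ?_)
  simp [Sim.scL]

variable [MonoidalCategory B] [MonoidalPreadditive B] [MonoidalLinear ℂ B]

noncomputable def Du.eqvR {V d : B} (P : Du V d) (Z Y : B) : (Z ⊗ V ⟶ Y) ≃ₗ[ℂ] (Z ⟶ Y ⊗ d) where
  toFun := P.toR
  map_add' g g' := by simp [Du.toR]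
  map_smul' c g := by simp [Du.toR]
  invFun := P.unR
  left_inv := P.unR_toR
  right_inv := P.toR_unR

theorem Du.finrank_swap {p p' w d : B} (P : Du p p') (R : Du w d) :
    Module.finrank ℂ (d ⟶ p') = Module.finrank ℂ (p ⟶ w) := by
  rw [(Linear.homCongr ℂ (Iso.refl d) (λ_ p').symm).finrank_eq, ← (P.eqvR d _).finrank_eq,
    (R.eqvL _ _).finrank_eq, (Linear.homCongr ℂ (Iso.refl p) (ρ_ w)).finrank_eq]

end Tr

variable {C : Type u} [Category.{v} C] [Preadditive C] [Linear ℂ C] [MonoidalCategory C]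
  [MonoidalPreadditive C] [MonoidalLinear ℂ C] [HasFiniteBiproducts C] [BraidedCategory C]
  [RigidCategory C] {I : Type} [Fintype I] [DecidableEq I]
  {A : Type u'} [Category.{v'} A] [Preadditive A] [Linear ℂ A] [MonoidalCategory A]
  [MonoidalPreadditive A] [MonoidalLinear ℂ A] {M : Modular C I} {L : C}

namespace Modular
variable (M)

theorem trL_eq_sum (V : C) (g : V ⟶ V) : M.trL V g = ∑ k, M.dim k * trH (M.X k) V g := by
  let φ := M.ss.fr V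
  conv_lhs => rw [← Category.id_comp g, ← φ.tot, Preadditive.sum_comp, map_sum]
  refine Finset.sum_congr rfl fun k _ => ?_
  rw [Preadditive.sum_comp, map_sum, φ.trH_eq M.ss, Finset.mul_sum]
  refine Finset.sum_congr rfl fun a _ => ?_
  rw [Category.assoc, trL_cyc, trL_X, Category.assoc, mul_comm]

theorem trL_id_sum (V : C) :
    M.trL V (𝟙 V) = ∑ k, M.dim k * (Module.finrank ℂ (M.X k ⟶ V) : ℂ) := by
  rw [trL_eq_sum]; simp only [M.ss.trH_id]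

theorem trL_tensor_id (V U : C) : M.trL (V ⊗ U) (𝟙 _) = M.trL V (𝟙 V) * M.trL U (𝟙 U) := by
  rw [tr_id, tr_id, tr_id, s_tensor]

theorem trL_dual {V d : C} (P : Du V d) : M.trL d (𝟙 d) = M.trL V (𝟙 V) := by
  apply M.s1.inj
  rw [← M.tr_eq P.swap, ← M.tr_eq P, Tw.tr_dual]

theorem trL_ne (hpos : M.Pos) {V : C} (hV : 𝟙 V ≠ 0) : M.trL V (𝟙 V) ≠ 0 := by
  intro h
  apply hV
  rw [trL_id_sum] at h
  have h2 := hpos (fun k => Module.finrank ℂ (M.X k ⟶ V)) (by simpa [mul_comm] using h)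
  refine M.ss.hom_ext fun k w => ?_
  have := M.ss.finite (M.X k) V
  have := Module.finrank_zero_iff.1 (h2 k)
  exact Subsingleton.elim _ _

end Modular

theorem Etale.dim_ne (E : Etale M L) (hpos : M.Pos) : M.trL L (𝟙 L) ≠ 0 :=
  M.trL_ne hpos fun h => E.u_ne2 (by rw [← Category.comp_id E.u, h, comp_zero])

variable {J : Type} [Fintype J] {X : J → A} {F : C ⥤ A}

theorem dlt_iso {P Q : A} (e : P ≅ Q) : dlt M F P = dlt M F Q := by
  unfold dlt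
  refine Finset.sum_congr rfl fun k _ => ?_
  rw [(Linear.homCongr ℂ (Iso.refl _) e).finrank_eq]

theorem dlt_sum (h : SS X) {P : A} {T : Type*} [Fintype T] (Q : T → A)
    (i : ∀ a, Q a ⟶ P) (p : ∀ a, P ⟶ Q a) (hip : ∀ a, i a ≫ p a = 𝟙 _)
    (tot : ∑ a, p a ≫ i a = 𝟙 P) : dlt M F P = ∑ a, dlt M F (Q a) := by
  unfold dlt
  rw [Finset.sum_comm]
  refine Finset.sum_congr rfl fun k _ => ?_
  rw [h.finrank_sum _ Q i p hip tot, Nat.cast_sum, Finset.mul_sum]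

theorem dlt_dec (h : SS X) (P : A) :
    dlt M F P = ∑ j, (Module.finrank ℂ (X j ⟶ P) : ℂ) * dlt M F (X j) := by
  unfold dlt
  simp only [Finset.mul_sum]
  rw [Finset.sum_comm]
  refine Finset.sum_congr rfl fun k _ => ?_
  rw [h.finrank_hom2, Nat.cast_sum, Finset.mul_sum]
  refine Finset.sum_congr rfl fun j _ => ?_
  push_cast; ring

theorem finrank_F [F.Additive] [F.Linear ℂ] (h : SS X) (V : C) (P : A) :
    (Module.finrank ℂ (F.obj V ⟶ P) : ℂ) = ∑ r, (Module.finrank ℂ (M.X r ⟶ V) : ℂ) *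
      (Module.finrank ℂ (F.obj (M.X r) ⟶ P) : ℂ) := by
  let φ := M.ss.fr V
  rw [h.finrank_comm2, h.finrank_sum P (fun a : (Σ r, φ.T r) => F.obj (M.X a.1))
    (fun a => F.map (φ.e a.1 a.2)) (fun a => F.map (φ.f a.1 a.2))
    (fun a => by rw [← F.map_comp, φ.ef, F.map_id])
    (by rw [Fintype.sum_sigma, ← F.map_id, ← φ.tot]; simp [F.map_sum]), Fintype.sum_sigma,
    Nat.cast_sum]
  refine Finset.sum_congr rfl fun r _ => ?_
  rw [φ.finrank_to M.ss, h.finrank_comm2 (F.obj _)]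
  change ((∑ _a : φ.T r, Module.finrank ℂ (P ⟶ F.obj (M.X r)) : ℕ) : ℂ) = _
  rw [Finset.sum_const, Finset.card_univ, smul_eq_mul, Nat.cast_mul]

variable [F.Monoidal]

theorem dlt_dual [F.Additive] [F.Linear ℂ] (h : SS X) {P P' : A} (R : Du P P') :
    dlt M F P' = dlt M F P := by
  unfold dlt
  have e1 : ∀ k, (Module.finrank ℂ (F.obj (M.X k) ⟶ P') : ℂ) =
      ∑ r, (Module.finrank ℂ (M.X k ⟶ (M.X r)ᘁ) : ℂ) *
        (Module.finrank ℂ (F.obj (M.X r) ⟶ P) : ℂ) := by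
    intro k
    rw [R.finrank_swap ((du (M.X k)).swap.map F), h.finrank_comm2, finrank_F (M := M) h]
    refine Finset.sum_congr rfl fun r _ => ?_
    rw [(du (M.X k)).finrank_swap (du (M.X r)).swap]
  simp only [e1, Finset.mul_sum]
  rw [Finset.sum_comm]
  refine Finset.sum_congr rfl fun r _ => ?_
  simp only [← mul_assoc]
  rw [← Finset.sum_mul, ← M.trL_id_sum, M.trL_dual (du _)]; rfl

namespace Ind
variable {E : Etale M L} (D : Ind M E F)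

include D in
theorem dlt_F (Y : C) : dlt M F (F.obj Y) = M.trL Y (𝟙 Y) * M.trL L (𝟙 L) := by
  rw [← M.trL_tensor_id, M.trL_id_sum]
  unfold dlt
  refine Finset.sum_congr rfl fun k _ => ?_
  rw [(D.hom _ _).finrank_eq]

include D in
theorem zero_of_hom [F.Additive] {P : A} (H : ∀ k (g : F.obj (M.X k) ⟶ P), g = 0) : 𝟙 P = 0 := by
  have : D.rp P = 0 := by
    rw [← Category.id_comp (D.rp P), ← F.map_id, ← (M.ss.fr (D.rO P)).tot]
    simp only [F.map_sum, Preadditive.sum_comp, F.map_comp, Category.assoc]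
    refine Finset.sum_eq_zero fun k _ => Finset.sum_eq_zero fun a _ => ?_
    rw [H k (F.map _ ≫ D.rp P), comp_zero]
  rw [← D.ri_rp, this, comp_zero]

include D in
theorem dlt_zero [F.Additive] (h : SS X) (hpos : M.Pos) {P : A} (H : dlt M F P = 0) :
    𝟙 P = 0 := by
  have h2 := hpos (fun k => Module.finrank ℂ (F.obj (M.X k) ⟶ P))
    (by simpa [dlt, mul_comm] using H)
  refine D.zero_of_hom fun k g => ?_
  have := h.finite (F.obj (M.X k)) P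
  have := Module.finrank_zero_iff.1 (h2 k)
  exact Subsingleton.elim _ _

/-- the underlying map of a module map -/
noncomputable def til {Y Z : C} (g : F.obj Y ⟶ F.obj Z) : Y ⊗ L ⟶ Z ⊗ L :=
  D.hom Y Z g ▷ L ≫ (α_ Z L L).hom ≫ Z ◁ E.m

theorem trH_til (V Y : C) (e : F.obj Y ⟶ F.obj Y) :
    trH (F.obj V) (F.obj Y) e = trH V (Y ⊗ L) (D.til e) := by
  change LinearMap.trace ℂ _ _ = LinearMap.trace ℂ _ _
  rw [← LinearMap.trace_conj' _ (D.hom V Y)]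
  congr 1
  ext g
  simp [LinearEquiv.conj_apply, D.hom_comp, til]

theorem dlt_retr (h : SS X) {P : A} {Y : C} (i : P ⟶ F.obj Y) (p : F.obj Y ⟶ P)
    (hip : i ≫ p = 𝟙 P) : dlt M F P = M.trL (Y ⊗ L) (D.til (p ≫ i)) := by
  rw [M.trL_eq_sum]
  unfold dlt
  refine Finset.sum_congr rfl fun k _ => ?_
  rw [← D.trH_til, h.trH_cyc, hip, h.trH_id]

theorem trL_til {Y d : C} (R : Du Y d) (e : F.obj Y ⟶ F.obj Y) (c : ℂ)
    (hc : M.tw.pt R ((ρ_ Y).hom ≫ D.hom Y Y e) = c • E.u) :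
    M.trL (Y ⊗ L) (D.til e) = c * M.trL L (𝟙 L) := by
  have h1 : M.tw.pt R (D.til e) = c • 𝟙 L := by
    have : D.til e = Y ◁ (λ_ L).inv ≫ ((α_ _ _ _).inv ≫ ((ρ_ Y).hom ≫ D.hom Y Y e) ▷ L ≫
        (α_ _ _ _).hom) ≫ Y ◁ E.m := by
      unfold til; monoidal
    unfold Tw.pt at hc ⊢
    rw [this, ptr_left, ptr_right, ptr_whisk, hc]
    simp [E.one_mul]
  apply M.s1.inj
  rw [← M.tr_eq (R.tensor (du L)), Tw.tr_tensor, h1, M.tr_eq, map_smul]
  rfl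

theorem pt_tensor_hom {Y Z d d' : C} (R : Du Y d) (R' : Du Z d') (e : F.obj Y ⟶ F.obj Y)
    (e' : F.obj Z ⟶ F.obj Z) (c c' : ℂ)
    (hc : M.tw.pt R ((ρ_ Y).hom ≫ D.hom Y Y e) = c • E.u)
    (hc' : M.tw.pt R' ((ρ_ Z).hom ≫ D.hom Z Z e') = c' • E.u) :
    M.tw.pt (R.tensor R') ((ρ_ _).hom ≫ D.hom (Y ⊗ Z) (Y ⊗ Z)
      (δ F Y Z ≫ (e ⊗ₘ e') ≫ μ F Y Z)) = (c * c') • E.u := by
  have h0 : δ F Y Z ≫ (e ⊗ₘ e') ≫ μ F Y Z =
      (δ F Y Z ≫ e ▷ F.obj Z ≫ μ F Y Z) ≫ (δ F Y Z ≫ F.obj Y ◁ e' ≫ μ F Y Z) := by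
    simp [MonoidalCategory.tensorHom_def]
  rw [h0, D.hom_comp, D.hom_wl, D.hom_wr, Tw.pt_tensor]
  have h1 : (α_ Y Z (𝟙_ C)).inv ≫ ((ρ_ (Y ⊗ Z)).hom ≫ (D.hom Y Y e ▷ Z ≫ (α_ Y L Z).hom ≫
      Y ◁ (β_ Z L).inv ≫ (α_ Y Z L).inv) ≫ (Y ◁ D.hom Z Z e' ≫ (α_ Y Z L).inv) ▷ L ≫
      (α_ (Y ⊗ Z) L L).hom ≫ (Y ⊗ Z) ◁ E.m) ≫ (α_ Y Z L).hom =
      Y ◁ ((ρ_ Z).hom ≫ (λ_ Z).inv) ≫ ((α_ _ _ _).inv ≫ ((ρ_ Y).hom ≫ D.hom Y Y e) ▷ Z ≫
        (α_ _ _ _).hom) ≫ Y ◁ ((β_ Z L).inv ≫ D.hom Z Z e' ▷ L ≫ (α_ Z L L).hom ≫ Z ◁ E.m) := by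
    monoidal
  have h2 : ((ρ_ Z).hom ≫ (λ_ Z).inv) ≫ E.u ▷ Z ≫ (β_ Z L).inv ≫ D.hom Z Z e' ▷ L ≫
      (α_ Z L L).hom ≫ Z ◁ E.m = (ρ_ Z).hom ≫ D.hom Z Z e' := by
    rw [braiding_inv_naturality_left_assoc, braiding_inv_tensorUnit_right, whisker_exchange_assoc]
    calc _ = (ρ_ Z).hom ≫ D.hom Z Z e' ≫ Z ◁ ((ρ_ L).inv ≫ L ◁ E.u ≫ E.m) := by monoidal
      _ = _ := by rw [E.mul_one']; simp
  rw [h1]
  unfold Tw.pt at hc hc' ⊢
  rw [ptr_left, ptr_right, ptr_whisk, hc, MonoidalLinear.smul_whiskerRight, Linear.smul_comp,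
    Linear.comp_smul, h2, ptr_smul, hc', smul_smul]

include D in
theorem dlt_tensor (h : SS X) (P Q : A) :
    dlt M F (P ⊗ Q) * M.trL L (𝟙 L) = dlt M F P * dlt M F Q := by
  obtain ⟨c, hc⟩ := E.to_L (M.tw.pt (du _) ((ρ_ _).hom ≫ D.hom _ _ (D.rp P ≫ D.ri P)))
  obtain ⟨c', hc'⟩ := E.to_L (M.tw.pt (du _) ((ρ_ _).hom ≫ D.hom _ _ (D.rp Q ≫ D.ri Q)))
  have h3 := D.pt_tensor_hom _ _ _ _ _ _ hc hc'
  rw [D.dlt_retr h _ _ (D.ri_rp P), D.dlt_retr h _ _ (D.ri_rp Q), D.trL_til _ _ _ hc,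
    D.trL_til _ _ _ hc',
    D.dlt_retr h ((D.ri P ⊗ₘ D.ri Q) ≫ μ F _ _) (δ F _ _ ≫ (D.rp P ⊗ₘ D.rp Q))
      (by simp [D.ri_rp])]
  simp only [Category.assoc, tensorHom_comp_tensorHom_assoc]
  rw [D.trL_til _ _ _ h3]; ring

end Ind

end Pool.Agent.Lib.MP_edb142_al
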