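import Pool.Agent.Lib.MP_edb142_al.H.Alg

open CategoryTheory MonoidalCategory Limits
open Functor.LaxMonoidal Functor.OplaxMonoidal

namespace Pool.Agent.Lib.MP_edb142_al

universe v u v' u'

variable {C : Type u} [Category.{v} C] [Preadditive C] [Linear ℂ C] [MonoidalCategory C]
  [MonoidalPreadditive C] [MonoidalLinear ℂ C] [HasFiniteBiproducts C] [BraidedCategory C]
  [RigidCategory C] {I : Type} [Fintype I] [DecidableEq I]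
  {A : Type u'} [Category.{v'} A] [Preadditive A] [Linear ℂ A] [MonoidalCategory A]

/-- the dimension function on the module category -/
noncomputable def dlt (M : Modular C I) (F : C ⥤ A) (P : A) : ℂ :=
  ∑ k, M.dim k * (Module.finrank ℂ (F.obj (M.X k) ⟶ P) : ℂ)

/-- `F` is the free module functor for the algebra `L` -/
structure Ind (M : Modular C I) {L : C} (E : Etale M L) (F : C ⥤ A) [F.Monoidal] where
  hom : ∀ X Y : C, (F.obj X ⟶ F.obj Y) ≃ₗ[ℂ] (X ⟶ Y ⊗ L)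
  hom_map : ∀ {X Y : C} (f : X ⟶ Y), hom X Y (F.map f) = f ≫ (ρ_ Y).inv ≫ Y ◁ E.u
  hom_comp : ∀ {X Y Z : C} (g : F.obj X ⟶ F.obj Y) (h : F.obj Y ⟶ F.obj Z),
    hom X Z (g ≫ h) = hom X Y g ≫ hom Y Z h ▷ L ≫ (α_ Z L L).hom ≫ Z ◁ E.m
  hom_wl : ∀ (Y : C) {Z Z' : C} (g : F.obj Z ⟶ F.obj Z'),
    hom (Y ⊗ Z) (Y ⊗ Z') (δ F Y Z ≫ F.obj Y ◁ g ≫ μ F Y Z') = Y ◁ hom Z Z' g ≫ (α_ Y Z' L).inv
  hom_wr : ∀ {Y Y' : C} (g : F.obj Y ⟶ F.obj Y') (Z : C),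
    hom (Y ⊗ Z) (Y' ⊗ Z) (δ F Y Z ≫ g ▷ F.obj Z ≫ μ F Y' Z) =
      hom Y Y' g ▷ Z ≫ (α_ Y' L Z).hom ≫ Y' ◁ (β_ Z L).inv ≫ (α_ Y' Z L).inv
  retr : ∀ P : A, ∃ (Y : C) (i : P ⟶ F.obj Y) (p : F.obj Y ⟶ P), i ≫ p = 𝟙 P

end Pool.Agent.Lib.MP_edb142_al
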