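import Pool.Agent.Lib.MP_edb142_al.H.K2C

open CategoryTheory MonoidalCategory Limits BraidedCategory
open Functor.LaxMonoidal Functor.OplaxMonoidal Functor.Monoidal

set_option linter.unusedSectionVars false

namespace Pool.Agent.Lib.MP_edb142_al

universe v u v' u'

section Rev
variable {C : Type u} [Category.{v} C] [MonoidalCategory C] [BraidedCategory C]

namespace Tw
variable (θ : Tw C) {V d x x' y y' : C}

theorem co_eq (P : Du V d) : θ.co P = P.swap.η ≫ d ◁ (θ.t V).inv := by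
  unfold co
  rw [Du.swap_η, Category.assoc, braiding_inv_naturality_left]

/-- the reversed duality given by the ribbon structure -/
noncomputable def rev (P : Du V d) : Du d V where
  η := θ.co P
  ε := (θ.t V).hom ▷ d ≫ (β_ V d).hom ≫ P.ε
  z1 := by
    rw [co_eq, ← Du.swap_ε]
    calc _ = 𝟙 _ ⊗≫ (V ◁ P.swap.η ≫ (θ.t V).hom ▷ (d ⊗ V)) ⊗≫ ((V ⊗ d) ◁ (θ.t V).inv ≫
          P.swap.ε ▷ V) := by
          calc _ = V ◁ P.swap.η ⊗≫ ((V ⊗ d) ◁ (θ.t V).inv ≫ ((θ.t V).hom ▷ d) ▷ V) ⊗≫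
                P.swap.ε ▷ V := by monoidal
            _ = _ := by rw [whisker_exchange]; monoidal
      _ = (θ.t V).hom ▷ 𝟙_ C ≫ (V ◁ P.swap.η ⊗≫ P.swap.ε ▷ V) ≫ 𝟙_ C ◁ (θ.t V).inv := by
          rw [whisker_exchange, whisker_exchange]; monoidal
      _ = _ := by rw [P.swap.z1]; simp
  z2 := by
    rw [co_eq, ← Du.swap_ε, ← P.swap.z2]
    calc _ = P.swap.η ▷ d ⊗≫ d ◁ ((θ.t V).inv ≫ (θ.t V).hom) ▷ d ⊗≫ d ◁ P.swap.ε := by monoidal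
      _ = _ := by rw [Iso.inv_hom_id]; monoidal

theorem rev_η (P : Du V d) : (θ.rev P).η = θ.co P := rfl
theorem rev_ε (P : Du V d) : (θ.rev P).ε = (θ.t V).hom ▷ d ≫ (β_ V d).hom ≫ P.ε := rfl

theorem co_rev_ε (P : Du V d) : P.η ≫ (θ.rev P).ε = θ.tr P (𝟙 V) := by
  rw [tr_plus, rev_ε, Category.id_comp]

theorem close (R : Du x x') (P : Du y y') (h : x ⊗ y ⟶ x ⊗ y) :
    θ.tr R ((ρ_ x).inv ≫ x ◁ P.η ≫ (α_ _ _ _).inv ≫ h ▷ y' ≫ (α_ _ _ _).hom ≫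
      x ◁ (θ.rev P).ε ≫ (ρ_ x).hom) = θ.tr P (θ.pt R h) := by
  rw [θ.tr_plus P, comp_whiskerRight, Category.assoc, ← rev_ε]
  unfold tr trc pt ptr
  calc _ = 𝟙 _ ⊗≫ (θ.co R ▷ 𝟙_ C ≫ (x' ⊗ x) ◁ P.η) ⊗≫ x' ◁ h ▷ y' ⊗≫
        ((x' ⊗ x) ◁ (θ.rev P).ε ≫ R.ε ▷ 𝟙_ C) ⊗≫ 𝟙 _ := by monoidal
    _ = _ := by rw [← whisker_exchange, whisker_exchange R.ε]; monoidal

theorem pair (R : Du x x') (P : Du y y') (e : y ⟶ x' ⊗ V) (f : x' ⊗ V ⟶ y) :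
    θ.tr R (P.toR ((θ.rev R).unL e) ≫ (θ.rev P).unR (R.toL f)) = θ.tr P (e ≫ f) := by
  have h1 : θ.pt R ((θ.rev R).unL e ≫ R.toL f) = e ≫ f := by
    conv_rhs => rw [← (θ.rev R).toL_unL e, ← R.unL_toL f]
    generalize (θ.rev R).unL e = a
    generalize R.toL f = b
    unfold pt ptr Du.toL Du.unL
    rw [rev_η]; monoidal
  rw [← h1, ← θ.close R P]
  congr 1
  unfold Du.toR Du.unR
  simp

end Tw
end Rev

variable {C : Type u} [Category.{v} C] [Preadditive C] [Linear ℂ C] [MonoidalCategory C]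
  [MonoidalPreadditive C] [MonoidalLinear ℂ C] [HasFiniteBiproducts C] [BraidedCategory C]
  [RigidCategory C] {I : Type} [Fintype I] [DecidableEq I]

namespace Modular
variable (M : Modular C I)

noncomputable def tE (V : C) (k l : I) :
    (M.X l ⟶ (M.X k)ᘁ ⊗ V) →ₗ[ℂ] (M.X k ⟶ V ⊗ (M.X l)ᘁ) where
  toFun e := (du (M.X l)).toR ((M.tw.rev (du (M.X k))).unL e)
  map_add' a b := by simp [Du.toR, Du.unL]
  map_smul' c a := by simp [Du.toR, Du.unL]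

noncomputable def tF (V : C) (k l : I) (f : (M.X k)ᘁ ⊗ V ⟶ M.X l) : V ⊗ (M.X l)ᘁ ⟶ M.X k :=
  (M.tw.rev (du (M.X l))).unR ((du (M.X k)).toL f)

theorem trL_X (k : I) (f : M.X k ⟶ M.X k) : M.trL _ f = sc f * M.dim k := by
  conv_lhs => rw [(M.ss.sim k).spec f]
  rw [map_smul]; rfl

theorem pair_sc (V : C) (k l : I) (e : M.X l ⟶ (M.X k)ᘁ ⊗ V) (f : (M.X k)ᘁ ⊗ V ⟶ M.X l) :
    sc (M.tE V k l e ≫ M.tF V k l f) * M.dim k = sc (e ≫ f) * M.dim l := by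
  rw [← trL_X, ← trL_X]
  apply M.s1.inj
  rw [← M.tr_eq (du _), ← M.tr_eq (du _)]
  exact M.tw.pair _ _ e f

theorem slide_C (V : C) (l : I) :
    ∑ k, ∑ a, M.dim k • (M.tF V k l ((M.ss.fr ((M.X k)ᘁ ⊗ V)).f l a) ≫
      M.tE V k l ((M.ss.fr ((M.X k)ᘁ ⊗ V)).e l a)) = M.dim l • 𝟙 (V ⊗ (M.X l)ᘁ) := by
  refine M.ss.hom_ext fun k w => ?_
  obtain ⟨w0, rfl⟩ : ∃ w0, M.tE V k l w0 = w :=
    ⟨(M.tw.rev (du (M.X k))).toL ((du (M.X l)).unR w), by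
      change (du (M.X l)).toR ((M.tw.rev (du (M.X k))).unL _) = w
      rw [Du.unL_toL, Du.toR_unR]⟩
  rw [Preadditive.comp_sum, Finset.sum_eq_single k]
  · rw [Preadditive.comp_sum, Linear.comp_smul, Category.comp_id]
    conv_rhs => rw [← (M.ss.fr ((M.X k)ᘁ ⊗ V)).exp_to M.ss w0, map_sum, Finset.smul_sum]
    refine Finset.sum_congr rfl fun a _ => ?_
    rw [Linear.comp_smul, ← Category.assoc, (M.ss.sim k).spec (M.tE V k l w0 ≫ _),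
      Linear.smul_comp, Category.id_comp, map_smul, smul_smul, smul_smul, mul_comm, pair_sc,
      mul_comm]
  · intro j _ hj
    rw [Preadditive.comp_sum]
    refine Finset.sum_eq_zero fun a _ => ?_
    rw [Linear.comp_smul, ← Category.assoc, M.ss.zero k j (Ne.symm hj) (M.tE V k l w0 ≫ _)]
    simp
  · simp

end Modular

variable {A : Type u'} [Category.{v'} A] [Preadditive A] [Linear ℂ A] [MonoidalCategory A]
  [MonoidalPreadditive A] [MonoidalLinear ℂ A] (F : C ⥤ A) [F.Monoidal]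

noncomputable def cF {d V : C} (co : 𝟙_ C ⟶ d ⊗ V) : 𝟙_ A ⟶ F.obj d ⊗ F.obj V :=
  ε F ≫ F.map co ≫ δ F d V

noncomputable def eF {d V : C} (ev : d ⊗ V ⟶ 𝟙_ C) : F.obj d ⊗ F.obj V ⟶ 𝟙_ A :=
  μ F d V ≫ F.map ev ≫ η F

noncomputable def TT {z z' : A} {y V : C} (m : F.obj y ⊗ z ⟶ F.obj y ⊗ z') (D : C)
    (a : V ⟶ D ⊗ y) : (D ⊗ y ⟶ V) → (F.obj V ⊗ z ⟶ F.obj V ⊗ z') := fun b =>
  (F.map a ≫ δ F D y) ▷ z ≫ (α_ _ _ _).hom ≫ F.obj D ◁ m ≫ (α_ _ _ _).inv ≫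
    (μ F D y ≫ F.map b) ▷ z'

theorem TT_slide {z z' : A} {y V : C} (m : F.obj y ⊗ z ⟶ F.obj y ⊗ z') {D D' : C}
    (a : V ⟶ D ⊗ y) (h : D ⟶ D') (b : D' ⊗ y ⟶ V) :
    TT F m D' (a ≫ h ▷ y) b = TT F m D a (h ▷ y ≫ b) := by
  unfold TT
  rw [F.map_comp, F.map_comp, Category.assoc, ← δ_natural_left, ← μ_natural_left_assoc]
  calc _ = (F.map a ≫ δ F D y) ▷ z ⊗≫ (F.map h ▷ (F.obj y ⊗ z) ≫ F.obj D' ◁ m) ⊗≫
        (μ F D' y ≫ F.map b) ▷ z' := by monoidal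
    _ = _ := by rw [← whisker_exchange]; monoidal

theorem TT_three {z z' : A} {x x' y V : C} (m : F.obj y ⊗ z ⟶ F.obj y ⊗ z') (R : Du x x')
    (Q : Du x' x) (f : x' ⊗ V ⟶ y) (e : y ⟶ x' ⊗ V) :
    ptr (cF F R.η) (eF F Q.ε) ((α_ _ _ _).inv ≫ (μ F x' V ≫ F.map f) ▷ z ≫ m ≫
      (F.map e ≫ δ F x' V) ▷ z' ≫ (α_ _ _ _).hom) = TT F m x (R.toL f) (Q.unL e) := by
  unfold TT ptr cF eF Du.toL Du.unL
  simp only [Functor.map_comp, map_whiskerLeft, map_whiskerRight, map_associator_inv,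
    map_associator, map_leftUnitor, map_leftUnitor_inv, Category.assoc, μ_δ_assoc, μ_δ,
    Category.comp_id]
  monoidal

theorem TT_four {z z' : A} {y y' V : C} (m : F.obj y ⊗ z ⟶ F.obj y ⊗ z') (P : Du y y')
    (P' : Du y' y) :
    F.obj V ◁ ptr (cF F P'.η) (eF F P.ε) m =
      TT F m (V ⊗ y') (P'.toR (𝟙 _)) (P.unR (𝟙 _)) := by
  unfold TT ptr cF eF Du.toR Du.unR
  simp only [Functor.map_comp, map_whiskerLeft, map_associator_inv,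
    map_associator, map_rightUnitor, map_rightUnitor_inv, Category.assoc, μ_δ_assoc, μ_δ,
    Category.comp_id, id_whiskerRight, Category.id_comp]
  calc _ = 𝟙 _ ⊗≫ F.obj V ◁ (ε F ≫ F.map P'.η ≫ δ F y' y) ▷ z ⊗≫
        ((μ F V y' ≫ δ F V y') ▷ (F.obj y ⊗ z) ≫ (F.obj V ⊗ F.obj y') ◁ m) ⊗≫
        F.obj V ◁ (μ F y' y ≫ F.map P.ε ≫ η F) ▷ z' ⊗≫ 𝟙 _ := by
        rw [μ_δ]; monoidal
    _ = 𝟙 _ ⊗≫ F.obj V ◁ (ε F ≫ F.map P'.η ≫ δ F y' y) ▷ z ⊗≫ μ F V y' ▷ (F.obj y ⊗ z) ≫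
        (δ F V y' ▷ (F.obj y ⊗ z) ≫ (F.obj V ⊗ F.obj y') ◁ m) ⊗≫
        F.obj V ◁ (μ F y' y ≫ F.map P.ε ≫ η F) ▷ z' ⊗≫ 𝟙 _ := by monoidal
    _ = _ := by rw [← whisker_exchange]; monoidal

variable [F.Additive] [F.Linear ℂ]

noncomputable def TL {z z' : A} {y V : C} (m : F.obj y ⊗ z ⟶ F.obj y ⊗ z') (D : C)
    (a : V ⟶ D ⊗ y) (b : D ⊗ y ⟶ V) : (D ⟶ D) →ₗ[ℂ] (F.obj V ⊗ z ⟶ F.obj V ⊗ z') where
  toFun h := TT F m D a (h ▷ y ≫ b)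
  map_add' h h' := by simp [TT]
  map_smul' c h := by simp [TT]

theorem slide (M : Modular C I) {z z' : A} (n : ∀ Q : A, Q ⊗ z ⟶ Q ⊗ z')
    (hn : ∀ {Q Q' : A} (h : Q ⟶ Q'), h ▷ z ≫ n Q' = n Q ≫ h ▷ z') (V : C) :
    ∑ k, M.dim k • ptr (cF F (du (M.X k)).η) (eF F (M.tw.rev (du (M.X k))).ε)
        ((α_ _ _ _).inv ≫ n (F.obj (M.X k)ᘁ ⊗ F.obj V) ≫ (α_ _ _ _).hom) =
      F.obj V ◁ ∑ l, M.dim l • ptr (cF F (M.tw.rev (du (M.X l))).η) (eF F (du (M.X l)).ε)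
        (n (F.obj (M.X l))) := by
  have h1 : ∀ k, n (F.obj (M.X k)ᘁ ⊗ F.obj V) = ∑ l, ∑ a,
      (μ F _ V ≫ F.map ((M.ss.fr ((M.X k)ᘁ ⊗ V)).f l a)) ▷ z ≫ n (F.obj (M.X l)) ≫
        (F.map ((M.ss.fr ((M.X k)ᘁ ⊗ V)).e l a) ≫ δ F _ V) ▷ z' := by
    intro k
    simp only [reassoc_of% hn, ← comp_whiskerRight, ← Preadditive.comp_sum, ← sum_whiskerRight,
      Category.assoc, ← F.map_comp_assoc, ← Preadditive.sum_comp, ← F.map_sum, Frame.tot]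
    simp
  have h2 : ∀ k, M.dim k • ptr (cF F (du (M.X k)).η) (eF F (M.tw.rev (du (M.X k))).ε)
      ((α_ _ _ _).inv ≫ n (F.obj (M.X k)ᘁ ⊗ F.obj V) ≫ (α_ _ _ _).hom) =
      ∑ l, ∑ a, TL F (n (F.obj (M.X l))) (V ⊗ (M.X l)ᘁ) ((M.tw.rev (du (M.X l))).toR (𝟙 _))
        ((du (M.X l)).unR (𝟙 _)) (M.dim k • (M.tF V k l ((M.ss.fr ((M.X k)ᘁ ⊗ V)).f l a) ≫
          M.tE V k l ((M.ss.fr ((M.X k)ᘁ ⊗ V)).e l a))) := by
    intro k
    rw [h1, Preadditive.sum_comp, Preadditive.comp_sum, ptr_sum, Finset.smul_sum]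
    refine Finset.sum_congr rfl fun l _ => ?_
    rw [Preadditive.sum_comp, Preadditive.comp_sum, ptr_sum, Finset.smul_sum]
    refine Finset.sum_congr rfl fun a _ => ?_
    rw [map_smul]
    congr 1
    simp only [Category.assoc]
    rw [TT_three]
    change _ = TT F _ _ _ _
    rw [comp_whiskerRight, Category.assoc, ← TT_slide]
    congr 1
    · conv_lhs => rw [← (M.tw.rev (du (M.X l))).toR_unR ((du (M.X k)).toL _)]
      unfold Modular.tF Du.toR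
      simp
    · conv_lhs => rw [← (du (M.X l)).unR_toR ((M.tw.rev (du (M.X k))).unL _)]
      change _ = (du (M.X l)).toR _ ▷ _ ≫ _
      unfold Du.unR
      simp
  simp only [h2]
  rw [Finset.sum_comm, whiskerLeft_sum]
  refine Finset.sum_congr rfl fun l _ => ?_
  simp only [← map_sum]
  rw [M.slide_C, map_smul, MonoidalLinear.whiskerLeft_smul, TT_four]
  congr 1
  change TT F _ _ _ _ = _
  rw [id_whiskerRight, Category.id_comp]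

end Pool.Agent.Lib.MP_edb142_al
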