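import Pool.Agent.Lib.MP_edb142_al.H.Alg

open CategoryTheory MonoidalCategory Limits BraidedCategory

set_option linter.unusedSectionVars false

namespace Pool.Agent.Lib.MP_edb142_al

universe v u v' u'

theorem lin_reg {V W : Type*} [AddCommGroup V] [Module ℂ V] [AddCommGroup W] [Module ℂ W]
    (φ : V →ₗ[ℂ] W) : ∃ G : W →ₗ[ℂ] V, ∀ x, φ (G (φ x)) = φ x := by
  obtain ⟨r, hr⟩ := φ.rangeRestrict.exists_rightInverse_of_surjective
    (LinearMap.range_rangeRestrict φ)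
  obtain ⟨l, hl⟩ := (LinearMap.range φ).subtype.exists_leftInverse_of_injective
    (Submodule.ker_subtype _)
  refine ⟨r ∘ₗ l, fun x => ?_⟩
  have h1 : l (φ x) = φ.rangeRestrict x := LinearMap.congr_fun hl (φ.rangeRestrict x)
  have h2 := congrArg Subtype.val (LinearMap.congr_fun hr (φ.rangeRestrict x))
  rw [LinearMap.comp_apply, h1]
  exact h2

section
variable {C : Type u} [Category.{v} C] [Preadditive C] [Linear ℂ C] {I : Type} [Fintype I]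
  {X : I → C}

/-- linear maps between the multiplicity spaces come from a morphism -/
theorem SS.full (h : SS X) {V W : C} (G : ∀ i, (X i ⟶ W) →ₗ[ℂ] (X i ⟶ V)) :
    ∃ g : W ⟶ V, ∀ i (w : X i ⟶ W), w ≫ g = G i w := by
  classical
  let ψ := h.fr W
  refine ⟨∑ i, ∑ b, ψ.f i b ≫ G i (ψ.e i b), fun i w => ?_⟩
  rw [Preadditive.comp_sum, Finset.sum_eq_single i]
  · conv_rhs => rw [← ψ.exp_to h w, map_sum]
    rw [Preadditive.comp_sum]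
    refine Finset.sum_congr rfl fun b _ => ?_
    rw [← Category.assoc, map_smul]
    conv_lhs => rw [(h.sim i).spec (w ≫ ψ.f i b)]
    simp
  · intro j _ hj
    rw [Preadditive.comp_sum]
    refine Finset.sum_eq_zero fun b _ => ?_
    rw [← Category.assoc, h.zero i j (Ne.symm hj) (w ≫ ψ.f j b), zero_comp]
  · simp

/-- generalised inverses -/
theorem SS.reg (h : SS X) {V W : C} (f : V ⟶ W) : ∃ g : W ⟶ V, f ≫ g ≫ f = f := by
  choose G hG using fun i => lin_reg (Linear.rightComp ℂ (X i) f)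
  obtain ⟨g, hg⟩ := h.full G
  refine ⟨g, h.hom_ext fun i w => ?_⟩
  rw [← Category.assoc, ← Category.assoc, hg]
  exact hG i w

/-- a nonzero map out of a simple object splits -/
theorem Sim.mono {S P : C} (h : Sim S) {f : S ⟶ P} (hf : f ≠ 0) (r : ∃ g, f ≫ g ≫ f = f) :
    ∃ g, f ≫ g = 𝟙 S := by
  obtain ⟨g, hg⟩ := r
  obtain ⟨c, hc⟩ := h.ex (f ≫ g)
  rw [← Category.assoc, hc, Linear.smul_comp, Category.id_comp] at hg
  have : c = 1 := smul_left_injective ℂ hf (by simpa using hg)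
  exact ⟨g, by rw [hc, this, one_smul]⟩

/-- a nonzero map to a simple object splits -/
theorem Sim.epi {S P : C} (h : Sim S) {f : P ⟶ S} (hf : f ≠ 0) (r : ∃ g, f ≫ g ≫ f = f) :
    ∃ g, g ≫ f = 𝟙 S := by
  obtain ⟨g, hg⟩ := r
  obtain ⟨c, hc⟩ := h.ex (g ≫ f)
  rw [hc, Linear.comp_smul, Category.comp_id] at hg
  have : c = 1 := smul_left_injective ℂ hf (by simpa using hg)
  exact ⟨g, by rw [hc, this, one_smul]⟩

end

variable {C : Type u} [Category.{v} C] [Preadditive C] [Linear ℂ C] [MonoidalCategory C]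
  [MonoidalPreadditive C] [MonoidalLinear ℂ C] [HasFiniteBiproducts C] [BraidedCategory C]
  [RigidCategory C] {I : Type} [Fintype I] [DecidableEq I]

/-- a simple connected commutative algebra of nonzero dimension is separable -/
theorem Modular.etale_of_simple (M : Modular C I) {L : C} (m : L ⊗ L ⟶ L) (u : 𝟙_ C ⟶ L)
    (assoc : m ▷ L ≫ m = (α_ L L L).hom ≫ L ◁ m ≫ m) (one_mul : u ▷ L ≫ m = (λ_ L).hom)
    (comm : (β_ L L).hom ≫ m = m) (conn : Module.finrank ℂ (𝟙_ C ⟶ L) = 1)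
    (twist : (M.θ.hom.app L : L ⟶ L) = 𝟙 L) (hd : M.trL L (𝟙 L) ≠ 0)
    (simple : ∀ {Y : C} (y : Y ⟶ L), y ≠ 0 → ∃ w : 𝟙_ C ⟶ Y ⊗ L, w ≫ y ▷ L ≫ m = u) :
    Nonempty (Etale M L) := by
  have hu : u ≠ 0 := by
    intro h
    apply hd
    rw [h, MonoidalPreadditive.zero_whiskerRight, zero_comp] at one_mul
    rw [← (λ_ L).inv_hom_id, ← one_mul, comp_zero, map_zero]
  obtain ⟨e, he⟩ := M.s1.mono hu (M.ss.reg u)
  have nd : ∀ {Y : C} (y : Y ⟶ L), y ▷ L ≫ m ≫ e = 0 → y = 0 := by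
    intro Y y h
    by_contra hy
    obtain ⟨w, hw⟩ := simple y hy
    apply M.s1.ne
    rw [← he, ← hw, Category.assoc, Category.assoc, h, comp_zero]
  let P := du L
  obtain ⟨f, hf⟩ : ∃ f : L ⟶ Lᘁ, f ▷ L ≫ P.ε = m ≫ e := by
    refine ⟨P.toR (m ≫ e) ≫ (λ_ _).hom, ?_⟩
    conv_rhs => rw [← P.unR_toR (m ≫ e)]
    unfold Du.unR
    monoidal
  obtain ⟨g, hg⟩ := M.ss.reg f
  have fg : f ≫ g = 𝟙 L := by
    rw [← sub_eq_zero]
    apply nd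
    rw [← hf, ← comp_whiskerRight_assoc, Preadditive.sub_comp, Category.assoc, hg,
      Category.id_comp, sub_self, MonoidalPreadditive.zero_whiskerRight, zero_comp]
  have gf : g ≫ f = 𝟙 _ := by
    obtain ⟨y, hy⟩ : ∃ y : L ⟶ L, P.mate P y = g ≫ f - 𝟙 _ :=
      ⟨P.capR (P.η ≫ L ◁ (g ≫ f - 𝟙 _)), P.η_left_inj (by rw [Du.mate_η, Du.η_capR])⟩
    have h0 : L ◁ y ≫ m ≫ e = 0 := by
      rw [← hf, whisker_exchange_assoc, ← P.mate_ε P y, hy, ← comp_whiskerRight_assoc,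
        Preadditive.comp_sub, hg, Category.comp_id, sub_self,
        MonoidalPreadditive.zero_whiskerRight, zero_comp]
    have h1 : y = 0 := nd y (by
      rw [← comm, Category.assoc, braiding_naturality_left_assoc, h0, comp_zero])
    rw [← sub_eq_zero, ← hy]
    apply P.η_left_inj
    rw [Du.mate_η, h1]
    simp
  obtain ⟨Q, hQ⟩ : ∃ Q : Du L L, Q.ε = m ≫ e := by
    refine ⟨⟨P.η ≫ L ◁ g, m ≫ e, ?_, ?_⟩, rfl⟩
    · rw [← hf]
      calc _ = L ◁ P.η ⊗≫ ((L ⊗ L) ◁ g ≫ (f ▷ L ≫ P.ε) ▷ L) := by monoidal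
        _ = (L ◁ P.η ≫ f ▷ (L ⊗ Lᘁ)) ⊗≫ P.ε ▷ Lᘁ ⊗≫ g ⊗≫ 𝟙 _ := by
          rw [whisker_exchange]; monoidal
        _ = 𝟙 _ ⊗≫ f ⊗≫ (Lᘁ ◁ P.η ⊗≫ P.ε ▷ Lᘁ) ⊗≫ g ⊗≫ 𝟙 _ := by
          rw [whisker_exchange]; monoidal
        _ = 𝟙 _ ⊗≫ (f ≫ g) ⊗≫ 𝟙 _ := by rw [P.z1]; monoidal
        _ = _ := by rw [fg]; monoidal
    · rw [← hf, ← P.z2]
      calc _ = P.η ▷ L ⊗≫ L ◁ (g ≫ f) ▷ L ⊗≫ L ◁ P.ε := by monoidal
        _ = _ := by rw [gf]; monoidal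
  have assoc' : L ◁ m ≫ m = (α_ L L L).inv ≫ m ▷ L ≫ m := by rw [assoc, Iso.inv_hom_id_assoc]
  have lr : Q.toR m = Q.toL m := by
    rw [← Q.toL_unL (Q.toR m)]
    congr 1
    unfold Du.unL Du.toR
    rw [hQ]
    calc _ = 𝟙 _ ⊗≫ (L ⊗ L) ◁ Q.η ⊗≫ (L ◁ m ≫ m) ▷ L ⊗≫ e ▷ L ⊗≫ 𝟙 _ := by monoidal
      _ = 𝟙 _ ⊗≫ ((L ⊗ L) ◁ Q.η ≫ m ▷ (L ⊗ L)) ⊗≫ (m ≫ e) ▷ L ⊗≫ 𝟙 _ := by
        rw [assoc']; monoidal
      _ = m ⊗≫ (L ◁ Q.η ⊗≫ Q.ε ▷ L) ⊗≫ 𝟙 _ := by rw [whisker_exchange, hQ]; monoidal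
      _ = _ := by rw [Q.z1]; monoidal
  have fl : Q.toL m ▷ L ≫ (α_ L L L).hom ≫ L ◁ m = m ≫ Q.toL m := by
    unfold Du.toL
    calc _ = 𝟙 _ ⊗≫ Q.η ▷ (L ⊗ L) ⊗≫ L ◁ (m ▷ L ≫ m) := by monoidal
      _ = 𝟙 _ ⊗≫ (Q.η ▷ (L ⊗ L) ≫ (L ⊗ L) ◁ m) ⊗≫ L ◁ m := by rw [assoc]; monoidal
      _ = _ := by rw [← whisker_exchange]; monoidal
  have fr : L ◁ Q.toR m ≫ (α_ L L L).inv ≫ m ▷ L = m ≫ Q.toR m := by
    unfold Du.toR
    calc _ = 𝟙 _ ⊗≫ (L ⊗ L) ◁ Q.η ⊗≫ (L ◁ m ≫ m) ▷ L := by monoidal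
      _ = 𝟙 _ ⊗≫ ((L ⊗ L) ◁ Q.η ≫ m ▷ (L ⊗ L)) ⊗≫ m ▷ L := by rw [assoc']; monoidal
      _ = _ := by rw [whisker_exchange]; monoidal
  obtain ⟨c, hc⟩ := (finrank_eq_one_iff_of_nonzero' u hu).1 conn (Q.η ≫ m)
  have hc' : M.trL L (𝟙 L) = c := by
    apply M.s1.inj
    have ht : (M.tw.t L).hom = 𝟙 L := twist
    rw [← M.tr_eq Q, Tw.tr_plus, ht, hQ, reassoc_of% comm, Category.id_comp, id_whiskerRight,
      Category.id_comp, ← Category.assoc, ← hc, Linear.smul_comp, he]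
  have sp : Q.toL m ≫ m = c • 𝟙 L := by
    unfold Du.toL
    calc _ = (λ_ L).inv ≫ (Q.η ≫ m) ▷ L ≫ m := by
          rw [Category.assoc, Category.assoc, Category.assoc, assoc']; monoidal
      _ = _ := by
          rw [← hc, MonoidalLinear.smul_whiskerRight, Linear.smul_comp, one_mul]; simp
  rw [hc'] at hd
  refine ⟨⟨m, u, c⁻¹ • Q.toL m, assoc, one_mul, comm, ?_, ?_, ?_, conn, twist⟩⟩
  · rw [MonoidalLinear.smul_whiskerRight, Linear.smul_comp, fl, Linear.comp_smul]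
  · rw [MonoidalLinear.whiskerLeft_smul, Linear.smul_comp, ← lr, fr, Linear.comp_smul]
  · rw [Linear.smul_comp, sp, smul_smul, inv_mul_cancel₀ hd, one_smul]

end Pool.Agent.Lib.MP_edb142_al
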