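import Pool.Agent.Lib.MP_edb142_al.H.K3a

open CategoryTheory MonoidalCategory Limits BraidedCategory Module
open Functor.LaxMonoidal Functor.OplaxMonoidal

set_option linter.unusedSectionVars false

namespace Pool.Agent.Lib.MP_edb142_al

universe v u v' u'

namespace K3

section Dec
variable {D : Type u'} [Category.{v'} D] [Preadditive D] [Linear ℂ D]

/-- `P` is the direct sum of `S` and `W` -/
structure Dec (P S W : D) where
  a : S ⟶ P
  b : P ⟶ S
  a' : W ⟶ P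
  b' : P ⟶ W
  ab : a ≫ b = 𝟙 S
  ab' : a' ≫ b' = 𝟙 W
  tot : b ≫ a + b' ≫ a' = 𝟙 P

namespace Dec
variable {P S W : D} (d : Dec P S W)

attribute [reassoc] ab ab'

/-- exchange the summands -/
def symm : Dec P W S := ⟨d.a', d.b', d.a, d.b, d.ab', d.ab, by rw [add_comm, d.tot]⟩

@[reassoc] theorem z : d.a ≫ d.b' = 0 := by
  have h := congrArg (fun x => d.a ≫ x ≫ d.b') d.tot
  simpa [d.ab_assoc, d.ab'] using h

@[reassoc] theorem z' : d.a' ≫ d.b = 0 := d.symm.z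

include d in
theorem rank_to (T : D) [Module.Finite ℂ (T ⟶ S)] [Module.Finite ℂ (T ⟶ W)] :
    finrank ℂ (T ⟶ P) = finrank ℂ (T ⟶ S) + finrank ℂ (T ⟶ W) := by
  rw [← finrank_prod]
  refine LinearEquiv.finrank_eq (LinearEquiv.ofLinearMap
    ((Linear.rightComp ℂ T d.b).prod (Linear.rightComp ℂ T d.b'))
    ((Linear.rightComp ℂ T d.a).coprod (Linear.rightComp ℂ T d.a')) ?_ ?_)
  · ext x <;> simp [d.ab, d.ab', d.z, d.z']
  · ext x
    simp [← Preadditive.comp_add, d.tot]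

include d in
theorem rank_from (T : D) [Module.Finite ℂ (S ⟶ T)] [Module.Finite ℂ (W ⟶ T)] :
    finrank ℂ (P ⟶ T) = finrank ℂ (S ⟶ T) + finrank ℂ (W ⟶ T) := by
  rw [← finrank_prod]
  refine LinearEquiv.finrank_eq (LinearEquiv.ofLinearMap
    ((Linear.leftComp ℂ T d.a).prod (Linear.leftComp ℂ T d.a'))
    ((Linear.leftComp ℂ T d.b).coprod (Linear.leftComp ℂ T d.b')) ?_ ?_)
  · ext x <;> simp [d.ab_assoc, d.ab'_assoc, d.z_assoc, d.z'_assoc]
  · ext x
    simp [← Category.assoc, ← Preadditive.add_comp, d.tot]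

/-- a zero summand can be dropped -/
def iso (h : 𝟙 W = 0) : S ≅ P where
  hom := d.a
  inv := d.b
  hom_inv_id := d.ab
  inv_hom_id := by rw [← d.tot, ← Category.id_comp d.a', h]; simp

/-- tensor with an object -/
def tensor [MonoidalCategory D] [MonoidalPreadditive D] (Q : D) : Dec (P ⊗ Q) (S ⊗ Q) (W ⊗ Q) where
  a := d.a ▷ Q
  b := d.b ▷ Q
  a' := d.a' ▷ Q
  b' := d.b' ▷ Q
  ab := by rw [← comp_whiskerRight, d.ab, id_whiskerRight]
  ab' := by rw [← comp_whiskerRight, d.ab', id_whiskerRight]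
  tot := by
    rw [← comp_whiskerRight, ← comp_whiskerRight, ← MonoidalPreadditive.add_whiskerRight, d.tot,
      id_whiskerRight]

end Dec

theorem rank_iso (T : D) {P Q : D} (φ : P ≅ Q) : finrank ℂ (T ⟶ P) = finrank ℂ (T ⟶ Q) :=
  (Linear.homCongr ℂ (Iso.refl T) φ).finrank_eq

theorem rank_iso' (T : D) {P Q : D} (φ : P ≅ Q) : finrank ℂ (P ⟶ T) = finrank ℂ (Q ⟶ T) :=
  (Linear.homCongr ℂ φ (Iso.refl T)).finrank_eq

theorem rank_pos {P : D} [Module.Finite ℂ (P ⟶ P)] (h : 𝟙 P ≠ 0) : 0 < finrank ℂ (P ⟶ P) :=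
  finrank_pos_iff_exists_ne_zero.2 ⟨_, h⟩

end Dec

variable {C : Type u} [Category.{v} C] [Preadditive C] [Linear ℂ C] [MonoidalCategory C]
  [MonoidalPreadditive C] [MonoidalLinear ℂ C] [HasFiniteBiproducts C] [BraidedCategory C]
  [RigidCategory C] {I : Type} [Fintype I] [DecidableEq I]
  {D : Type u'} [Category.{v'} D] [Preadditive D] [Linear ℂ D] [MonoidalCategory D]
  [MonoidalPreadditive D] [MonoidalLinear ℂ D]
  (F : C ⥤ D) [F.Monoidal] [F.Additive] [F.Linear ℂ]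

/-- the image of the braiding -/
def c0 (Y Z : C) : F.obj Y ⊗ F.obj Z ⟶ F.obj Z ⊗ F.obj Y :=
  μ F Y Z ≫ F.map (β_ Y Z).hom ≫ δ F Z Y

/-- what is used about the category of modules over `A` -/
structure Ifc (A : C) : Prop where
  split : ∀ {P : D} (p : P ⟶ P), p ≫ p = p →
    ∃ (W : D) (i : W ⟶ P) (e : P ⟶ W), i ≫ e = 𝟙 W ∧ e ≫ i = p
  reg : ∀ {P Q : D} (f : P ⟶ Q), ∃ g, f ≫ g ≫ f = f
  gen : ∀ P : D, ∃ (Y : C) (i : P ⟶ F.obj Y) (p : F.obj Y ⟶ P), i ≫ p = 𝟙 P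
  hom : ∀ X Y : C, Nonempty ((F.obj X ⟶ F.obj Y) ≃ₗ[ℂ] (X ⟶ Y ⊗ A))
  nat : ∀ (Y Z Z' : C) (g : F.obj Z ⟶ F.obj Z'), F.obj Y ◁ g ≫ c0 F Y Z' = c0 F Y Z ≫ g ▷ F.obj Y

/-- `e` is the counit of a right adjoint at `P` -/
def Rep {L : C} {P : D} (e : F.obj L ⟶ P) : Prop :=
  ∀ Y : C, Function.Bijective fun g : Y ⟶ L => F.map g ≫ e

variable {F} (M : Modular C I)

/-- restriction to simple objects -/
theorem ext_map {Y : C} {P : D} {y y' : F.obj Y ⟶ P}
    (h : ∀ k (w : M.X k ⟶ Y), F.map w ≫ y = F.map w ≫ y') : y = y' := by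
  rw [← Category.id_comp y, ← Category.id_comp y', ← F.map_id, ← (M.ss.fr Y).tot]
  simp [Functor.map_sum, Preadditive.sum_comp, h]

theorem rep_of {L : C} {P : D} {e : F.obj L ⟶ P}
    (h : ∀ k, Function.Bijective fun g : M.X k ⟶ L => F.map g ≫ e) : Rep F e := by
  refine fun Y => ⟨fun g g' H => M.ss.hom_ext fun k w => (h k).1 ?_, fun y => ?_⟩
  · simp only at H ⊢
    rw [F.map_comp, F.map_comp, Category.assoc, Category.assoc, H]
  · let φ := M.ss.fr Y
    choose g hg using fun k (a : φ.T k) => (h k).2 (F.map (φ.e k a) ≫ y)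
    simp only at hg
    refine ⟨∑ k, ∑ a, φ.f k a ≫ g k a, ?_⟩
    conv_rhs => rw [← Category.id_comp y, ← F.map_id, ← φ.tot]
    simp [Functor.map_sum, Preadditive.sum_comp, hg]

theorem Rep.rank {L : C} {P : D} {e : F.obj L ⟶ P} (h : Rep F e) (Y : C) :
    finrank ℂ (Y ⟶ L) = finrank ℂ (F.obj Y ⟶ P) :=
  (LinearEquiv.ofBijective ((Linear.rightComp ℂ _ e).comp (F.mapLinearMap ℂ)) (h Y)).finrank_eq

theorem Rep.proj {L : C} {P : D} {e : F.obj L ⟶ P} (h : Rep F e) (Y : C) :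
    Rep F (δ F Y L ≫ F.obj Y ◁ e) := by
  intro W
  let Q := du Y
  have key : ∀ g : W ⟶ Y ⊗ L, F.map g ≫ δ F Y L ≫ F.obj Y ◁ e =
      (Q.map F).toL (μ F _ W ≫ F.map (Q.unL g) ≫ e) := by
    intro g
    rw [← (Q.map F).toL_unL (F.map g ≫ δ F Y L ≫ F.obj Y ◁ e)]
    congr 1
    unfold Du.unL
    rw [Du.map_ε]
    simp only [Functor.map_comp, Functor.Monoidal.map_whiskerLeft,
      Functor.Monoidal.map_whiskerRight, Functor.Monoidal.map_associator_inv,
      Functor.Monoidal.map_leftUnitor, Category.assoc, Functor.Monoidal.μ_δ_assoc,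
      comp_whiskerRight, MonoidalCategory.whiskerLeft_comp]
    rw [associator_inv_naturality_right_assoc, whisker_exchange_assoc, whisker_exchange_assoc,
      whisker_exchange_assoc, leftUnitor_naturality]
  simp only [key]
  refine ((Q.map F).eqvL (F.obj W) P).bijective.comp (Function.Bijective.comp
    (g := fun x => μ F _ W ≫ x) ?_ ((h _).comp (Q.eqvL W L).symm.bijective))
  exact Function.bijective_iff_has_inverse.2 ⟨fun x => δ F _ W ≫ x, fun x => by simp,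
    fun x => by simp⟩

/-- multiplicities -/
noncomputable def rk (F : C ⥤ D) (k : I) (P : D) : ℕ := finrank ℂ (F.obj (M.X k) ⟶ P)

namespace Ifc
variable {A : C} (h : Ifc F A)
include h

include M in
theorem fin (P Q : D) : Module.Finite ℂ (P ⟶ Q) := by
  obtain ⟨Y, i, p, hp⟩ := h.gen P
  obtain ⟨Z, j, q, hq⟩ := h.gen Q
  have := M.ss.finite Y (Z ⊗ A)
  have := Module.Finite.equiv (h.hom Y Z).some.symm
  refine Module.Finite.of_surjective
    ((Linear.leftComp ℂ Q i).comp (Linear.rightComp ℂ (F.obj Y) q)) fun f => ⟨p ≫ f ≫ j, ?_⟩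
  simp [reassoc_of% hp, hq]

theorem rk_obj (k : I) (Y : C) : rk M F k (F.obj Y) = finrank ℂ (M.X k ⟶ Y ⊗ A) :=
  (h.hom _ _).some.finrank_eq

theorem dec {S P : D} (a : S ⟶ P) (b : P ⟶ S) (hab : a ≫ b = 𝟙 S) :
    ∃ (W : D) (d : Dec P S W), d.b ≫ d.a = b ≫ a := by
  obtain ⟨W, i, e, h1, h2⟩ := h.split (𝟙 P - b ≫ a) (by simp [reassoc_of% hab])
  exact ⟨W, ⟨a, b, i, e, hab, h1, by rw [h2, add_sub_cancel]⟩, rfl⟩

theorem rk_dec {P S W : D} (d : Dec P S W) (k : I) : rk M F k P = rk M F k S + rk M F k W :=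
  have := h.fin M
  d.rank_to _

theorem zero_of_rank {P Q : D} (h0 : finrank ℂ (P ⟶ Q) = 0) (M : Modular C I) (f : P ⟶ Q) :
    f = 0 :=
  have := h.fin M
  finrank_zero_iff_forall_zero.1 h0 f

theorem zero_of_rk {P : D} (h0 : ∀ k, rk M F k P = 0) : 𝟙 P = 0 := by
  obtain ⟨Y, i, p, hp⟩ := h.gen P
  have : p = 0 := ext_map M fun k w => by rw [comp_zero]; exact h.zero_of_rank (h0 k) M _
  rw [← hp, this, comp_zero]

theorem ex_of_rank {P Q : D} (h0 : finrank ℂ (P ⟶ Q) ≠ 0) (M : Modular C I) :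
    ∃ f : P ⟶ Q, f ≠ 0 :=
  have := h.fin M
  finrank_pos_iff_exists_ne_zero.1 (Nat.pos_of_ne_zero h0)

/-- a simple object with a nonzero map to `P` is a summand -/
theorem dec_of {S P : D} (hS : Sim S) (h0 : finrank ℂ (S ⟶ P) ≠ 0) (M : Modular C I) :
    ∃ W, Nonempty (Dec P S W) := by
  obtain ⟨f, hf⟩ := h.ex_of_rank h0 M
  obtain ⟨g, hg⟩ := hS.mono hf (h.reg f)
  obtain ⟨W, d, -⟩ := h.dec f g hg
  exact ⟨W, ⟨d⟩⟩

theorem iso_of {S P : D} (hS : Sim S) (h0 : finrank ℂ (S ⟶ P) ≠ 0)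
    (h1 : ∀ k, rk M F k P = rk M F k S) : Nonempty (S ≅ P) := by
  obtain ⟨W, ⟨d⟩⟩ := h.dec_of hS h0 M
  exact ⟨d.iso (h.zero_of_rk M fun k => by have := h.rk_dec M d k; rw [h1] at this; omega)⟩

include M in
theorem rep (P : D) : ∃ (L : C) (e : F.obj L ⟶ P), Rep F e := by
  classical
  have := h.fin M
  let b := fun k => Module.finBasis ℂ (F.obj (M.X k) ⟶ P)
  let T := Σ k, Fin (finrank ℂ (F.obj (M.X k) ⟶ P))
  let Y : T → C := fun t => M.X t.1
  refine ⟨⨁ Y, ∑ t, F.map (biproduct.π Y t) ≫ b t.1 t.2, rep_of M fun k => ?_⟩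
  have key : ∀ g : M.X k ⟶ ⨁ Y, F.map g ≫ ∑ t, F.map (biproduct.π Y t) ≫ b t.1 t.2 =
      ∑ a, sc (g ≫ biproduct.π Y ⟨k, a⟩) • b k a := by
    intro g
    rw [Preadditive.comp_sum, Fintype.sum_sigma, Finset.sum_eq_single k]
    · refine Finset.sum_congr rfl fun a _ => ?_
      rw [← F.map_comp_assoc]
      conv_lhs => rw [(M.ss.sim k).spec (g ≫ biproduct.π Y ⟨k, a⟩)]
      simp
    · intro j _ hj
      refine Finset.sum_eq_zero fun a _ => ?_
      rw [← F.map_comp_assoc, M.ss.zero k j (Ne.symm hj) (g ≫ biproduct.π Y ⟨j, a⟩)]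
      simp
    · simp
  simp only [key]
  refine ⟨fun g g' H => biproduct.hom_ext _ _ fun t => ?_, fun y => ?_⟩
  · obtain ⟨j, a⟩ := t
    by_cases hj : k = j
    · subst hj
      have := congrFun ((b k).equivFun.symm.injective (a₁ := fun a => sc (g ≫ biproduct.π Y ⟨k, a⟩))
        (a₂ := fun a => sc (g' ≫ biproduct.π Y ⟨k, a⟩)) (by simpa using H)) a
      rw [(M.ss.sim k).spec (g ≫ biproduct.π Y ⟨k, a⟩),
        (M.ss.sim k).spec (g' ≫ biproduct.π Y ⟨k, a⟩), this]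
    · exact (M.ss.zero k j hj _).trans (M.ss.zero k j hj _).symm
  · refine ⟨∑ a, (b k).repr y a • biproduct.ι Y ⟨k, a⟩, ?_⟩
    conv_rhs => rw [← (b k).sum_repr y]
    refine Finset.sum_congr rfl fun a _ => ?_
    congr 1
    refine (M.ss.sim k).sc_eq ?_
    rw [Preadditive.sum_comp, Finset.sum_eq_single a]
    · rw [Linear.smul_comp, biproduct.ι_π_self]
    · intro a' _ ha
      rw [Linear.smul_comp, biproduct.ι_π_ne Y fun e => ha (eq_of_heq (Sigma.mk.inj e).2),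
        smul_zero]
    · simp

end Ifc

/-- maps to an object all of whose labels have trivial twist do not see the twist -/
theorem loc {A : C} (h : Ifc F A) {P : D} (hP : ∀ k, rk M F k P ≠ 0 → M.T k = 1) {Y : C}
    (y : F.obj Y ⟶ P) : F.map (M.tw.t Y).hom ≫ y = y := by
  refine ext_map M fun k w => ?_
  by_cases h0 : rk M F k P = 0
  · exact (h.zero_of_rank h0 M _).trans (h.zero_of_rank h0 M _).symm
  · rw [← F.map_comp_assoc, M.tw.nat, M.tw_X, hP k h0, one_smul, Category.id_comp]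

end K3

end Pool.Agent.Lib.MP_edb142_al
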