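import Pool.Agent.Lib.MP_edb142_al.H.K3b

open CategoryTheory MonoidalCategory Limits BraidedCategory Module
open Functor.LaxMonoidal Functor.OplaxMonoidal

set_option linter.unusedSectionVars false

namespace Pool.Agent.Lib.MP_edb142_al

universe v u v' u'

namespace K3

section Inv
variable {D : Type u'} [Category.{v'} D] [Preadditive D] [Linear ℂ D] [MonoidalCategory D]
  [MonoidalPreadditive D] [MonoidalLinear ℂ D]

/-- cancelling an invertible object -/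
def th {R R' X Y : D} (χ : R ⊗ R' ≅ 𝟙_ D) (f : X ⊗ R ⟶ Y ⊗ R) : X ⟶ Y :=
  (ρ_ X).inv ≫ X ◁ χ.inv ≫ (α_ _ _ _).inv ≫ f ▷ R' ≫ (α_ _ _ _).hom ≫ Y ◁ χ.hom ≫ (ρ_ Y).hom

theorem th_whisk {R R' X Y : D} (χ : R ⊗ R' ≅ 𝟙_ D) (g : X ⟶ Y) : th χ (g ▷ R) = g := by
  unfold th
  calc _ = 𝟙 _ ⊗≫ (X ◁ χ.inv ≫ g ▷ (R ⊗ R')) ⊗≫ Y ◁ χ.hom ⊗≫ 𝟙 _ := by monoidal
    _ = g ⊗≫ Y ◁ (χ.inv ≫ χ.hom) ⊗≫ 𝟙 _ := by rw [whisker_exchange]; monoidal
    _ = _ := by rw [χ.inv_hom_id]; monoidal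

theorem th_spec {R R' X Y : D} (χ : R ⊗ R' ≅ 𝟙_ D) (χ' : R' ⊗ R ≅ 𝟙_ D) (f : X ⊗ R ⟶ Y ⊗ R) :
    f = th χ f ▷ R := by
  have inj : ∀ g : X ⊗ R ⟶ Y ⊗ R, th χ f = th χ g → f ▷ R' = g ▷ R' := fun g e => by
    simp only [th, cancel_epi] at e
    simpa only [← Category.assoc, cancel_mono] using e
  exact (th_whisk χ' f).symm.trans
    ((congrArg (th χ') (inj _ (th_whisk χ _).symm)).trans (th_whisk χ' _))

/-- moving an isomorphism with the unit across an object -/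
def Mv {T : D} (φ : T ⟶ 𝟙_ D) (X : D) (γ : X ⊗ T ⟶ T ⊗ X) (c : ℂ) : Prop :=
  X ◁ φ ≫ (ρ_ X).hom = c • (γ ≫ φ ▷ X ≫ (λ_ X).hom)

theorem Mv.tensor {T X X' : D} {φ : T ⟶ 𝟙_ D} {γ : X ⊗ T ⟶ T ⊗ X} {γ' : X' ⊗ T ⟶ T ⊗ X'}
    {c c' : ℂ} (h : Mv φ X γ c) (h' : Mv φ X' γ' c') : Mv φ (X ⊗ X')
      ((α_ _ _ _).hom ≫ X ◁ γ' ≫ (α_ _ _ _).inv ≫ γ ▷ X' ≫ (α_ _ _ _).hom) (c' * c) := by
  unfold Mv at h h' ⊢
  calc _ = (α_ _ _ _).hom ≫ X ◁ (X' ◁ φ ≫ (ρ_ X').hom) := by monoidal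
    _ = c' • ((α_ _ _ _).hom ≫ X ◁ γ' ≫ (α_ _ _ _).inv ≫ (X ◁ φ ≫ (ρ_ X).hom) ▷ X') := by
      rw [h', MonoidalLinear.whiskerLeft_smul, Linear.comp_smul]
      congr 1
      monoidal
    _ = _ := by
      rw [h, MonoidalLinear.smul_whiskerRight, Linear.comp_smul, Linear.comp_smul,
        Linear.comp_smul, mul_smul]
      congr 2
      monoidal

end Inv

variable {C : Type u} [Category.{v} C] [Preadditive C] [Linear ℂ C] [MonoidalCategory C]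
  [MonoidalPreadditive C] [MonoidalLinear ℂ C] [HasFiniteBiproducts C] [BraidedCategory C]
  [RigidCategory C] {I : Type} [Fintype I] [DecidableEq I]
  {D : Type u'} [Category.{v'} D] [Preadditive D] [Linear ℂ D] [MonoidalCategory D]
  [MonoidalPreadditive D] [MonoidalLinear ℂ D]
  {F : C ⥤ D} [F.Monoidal] [F.Additive] [F.Linear ℂ] (M : Modular C I)

@[reassoc] theorem c0_hex (Y Z Z' : C) : c0 F Y (Z ⊗ Z') ≫ δ F Z Z' ▷ F.obj Y =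
    F.obj Y ◁ δ F Z Z' ≫ (α_ _ _ _).inv ≫ c0 F Y Z ▷ F.obj Z' ≫ (α_ _ _ _).hom ≫
      F.obj Z ◁ c0 F Y Z' ≫ (α_ _ _ _).inv := by
  unfold c0
  rw [braiding_tensor_right_hom]
  simp only [Functor.map_comp, Functor.Monoidal.map_whiskerLeft,
    Functor.Monoidal.map_whiskerRight, Functor.Monoidal.map_associator_inv,
    Functor.Monoidal.map_associator, Category.assoc, Functor.Monoidal.μ_δ_assoc,
    comp_whiskerRight, MonoidalCategory.whiskerLeft_comp, Functor.Monoidal.whiskerRight_μ_δ,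
    Category.comp_id]

@[reassoc] theorem c0_unit (Y : C) : c0 F Y (𝟙_ C) ≫ η F ▷ F.obj Y =
    F.obj Y ◁ η F ≫ (ρ_ _).hom ≫ (λ_ _).inv := by
  unfold c0
  rw [braiding_tensorUnit_right]
  simp only [Functor.map_comp, Functor.Monoidal.map_rightUnitor,
    Functor.Monoidal.map_leftUnitor_inv, Category.assoc, Functor.Monoidal.μ_δ_assoc,
    Functor.Monoidal.μ_δ, Category.comp_id, Functor.Monoidal.whiskerRight_ε_η]

theorem c0_c0 {A : C} (h : Ifc F A) {Y Z : C} {P Q T : D} {y : F.obj Y ⟶ P} {z : F.obj Z ⟶ Q}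
    (hP : ∀ k, rk M F k P ≠ 0 → M.T k = 1) (hQ : ∀ k, rk M F k Q ≠ 0 → M.T k = 1)
    (hT : ∀ k, rk M F k T ≠ 0 → M.T k = 1) (n : P ⊗ Q ⟶ T) :
    c0 F Y Z ≫ c0 F Z Y ≫ (y ⊗ₘ z) ≫ n = (y ⊗ₘ z) ≫ n := by
  have h1 := loc M h hT (δ F Y Z ≫ (y ⊗ₘ z) ≫ n)
  rw [M.tw.tens, F.map_comp, F.map_comp, Category.assoc, Category.assoc, ← δ_natural_assoc,
    tensorHom_comp_tensorHom_assoc, loc M h hP, loc M h hQ] at h1
  unfold c0
  simp only [Category.assoc, Functor.Monoidal.δ_μ_assoc]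
  rw [h1, Functor.Monoidal.μ_δ_assoc]

variable (F) in
/-- `γ` is induced by the braiding -/
def Br {Y Z : C} {P Q : D} (y : F.obj Y ⟶ P) (z : F.obj Z ⟶ Q) (γ : P ⊗ Q ⟶ Q ⊗ P) : Prop :=
  c0 F Y Z ≫ (z ⊗ₘ y) = (y ⊗ₘ z) ≫ γ

theorem br_unit {Y : C} {P : D} (y : F.obj Y ⟶ P) : Br F y (η F) ((ρ_ P).hom ≫ (λ_ P).inv) := by
  unfold Br
  rw [MonoidalCategory.tensorHom_def, c0_unit_assoc, tensorHom_def']
  monoidal

theorem Br.red {A : C} (h : Ifc F A) {Y Z Z' : C} {P Q : D} {y : F.obj Y ⟶ P} {z : F.obj Z ⟶ Q}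
    {γ : P ⊗ Q ⟶ Q ⊗ P} (b : Br F y z γ) (g : F.obj Z' ⟶ F.obj Z) : Br F y (g ≫ z) γ := by
  unfold Br at b ⊢
  rw [← Category.id_comp y, ← tensorHom_comp_tensorHom, ← tensorHom_comp_tensorHom,
    tensorHom_id, id_tensorHom, Category.assoc, ← b, ← Category.assoc, ← h.nat, Category.assoc]

theorem Br.tensor {Y Z Z' : C} {P Q Q' : D} {y : F.obj Y ⟶ P} {z : F.obj Z ⟶ Q}
    {z' : F.obj Z' ⟶ Q'} {γ : P ⊗ Q ⟶ Q ⊗ P} {γ' : P ⊗ Q' ⟶ Q' ⊗ P} (b : Br F y z γ)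
    (b' : Br F y z' γ') : Br F y (δ F Z Z' ≫ (z ⊗ₘ z'))
      ((α_ _ _ _).inv ≫ γ ▷ Q' ≫ (α_ _ _ _).hom ≫ Q ◁ γ' ≫ (α_ _ _ _).inv) := by
  unfold Br at b b' ⊢
  calc _ = (c0 F Y (Z ⊗ Z') ≫ δ F Z Z' ▷ F.obj Y) ≫ ((z ⊗ₘ z') ⊗ₘ y) := by
        rw [Category.assoc, whiskerRight_comp_tensorHom]
    _ = F.obj Y ◁ δ F Z Z' ≫ (α_ _ _ _).inv ≫ c0 F Y Z ▷ F.obj Z' ≫ (α_ _ _ _).hom ≫
        (z ⊗ₘ (c0 F Y Z' ≫ (z' ⊗ₘ y))) ≫ (α_ _ _ _).inv := by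
      rw [c0_hex, ← whiskerLeft_comp_tensorHom]
      simp only [Category.assoc, associator_inv_naturality]
    _ = F.obj Y ◁ δ F Z Z' ≫ (α_ _ _ _).inv ≫ ((c0 F Y Z ≫ (z ⊗ₘ y)) ⊗ₘ z') ≫ (α_ _ _ _).hom ≫
        Q ◁ γ' ≫ (α_ _ _ _).inv := by
      rw [b', ← tensorHom_comp_whiskerLeft, ← whiskerRight_comp_tensorHom]
      simp only [Category.assoc, associator_naturality_assoc]
    _ = _ := by
      rw [b, ← tensorHom_comp_whiskerRight, ← whiskerLeft_comp_tensorHom]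
      simp only [Category.assoc, associator_inv_naturality_assoc]

/-- the braiding of the invertible module with itself is trivial -/
theorem br_one {A : C} (h : Ifc F A) {a : I} (hT : M.T a = 1) {P : D}
    (rP : ∀ k, rk M F k P = if k = a then 1 else 0)
    (rQ : ∀ k, rk M F k (P ⊗ P) = if k = a then 1 else 0) (sQ : Sim (P ⊗ P)) (s1 : Sim (𝟙_ D))
    (φ : (P ⊗ P) ⊗ P ≅ 𝟙_ D) {e : F.obj (M.X a) ⟶ P} {s : P ⟶ F.obj (M.X a)} (hs : s ≫ e = 𝟙 P)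
    (he : e ≠ 0) : Br F e e (𝟙 _) ∧ Mv φ.hom P (𝟙 _ ⊗≫ 𝟙 _) 1 := by
  have lc : ∀ T : D, (∀ k, rk M F k T = if k = a then 1 else 0) → ∀ k, rk M F k T ≠ 0 →
      M.T k = 1 := fun T r k hk => by
    rw [r] at hk
    by_cases e : k = a
    · rw [e, hT]
    · exact absurd (if_neg e) hk
  obtain ⟨l, hl⟩ := (finrank_eq_one_iff_of_nonzero' e he).1 ((rP a).trans (if_pos rfl))
    (th ((α_ P P P).symm ≪≫ φ) (F.obj (M.X a) ◁ s ≫ c0 F _ _ ≫ (e ⊗ₘ e)))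
  have b : Br F e e (l • 𝟙 _) := by
    have h1 := th_spec ((α_ P P P).symm ≪≫ φ) φ (F.obj (M.X a) ◁ s ≫ c0 F _ _ ≫ (e ⊗ₘ e))
    rw [← hl] at h1
    have h2 := congrArg (F.obj (M.X a) ◁ e ≫ ·) h1
    rw [← MonoidalCategory.whiskerLeft_comp_assoc, reassoc_of% h.nat,
      whiskerRight_comp_tensorHom, Category.assoc, hs, Category.comp_id] at h2
    unfold Br
    rw [h2, MonoidalLinear.smul_whiskerRight, Linear.comp_smul, Linear.comp_smul,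
      Category.comp_id, tensorHom_def']
  have l2 : l * l = 1 := by
    have h1 := c0_c0 M h (y := e) (z := e) (lc _ rP) (lc _ rP) (lc _ rQ) (𝟙 _)
    unfold Br at b
    rw [Category.comp_id, b, Linear.comp_smul, Category.comp_id, Linear.comp_smul, b,
      Linear.comp_smul, Category.comp_id, smul_smul] at h1
    apply sQ.inj
    have h2 := congrArg ((s ⊗ₘ s) ≫ ·) h1
    simpa [hs] using h2
  have m : Mv φ.hom P (𝟙 _ ⊗≫ 𝟙 _) (l * (l * l)) := by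
    have b3 := (b.tensor b).tensor b
    have b0 := (br_unit e).red h ((δ F _ _ ≫ ((δ F _ _ ≫ (e ⊗ₘ e)) ⊗ₘ e)) ≫ φ.hom ≫ ε F)
    obtain ⟨z, hz⟩ : ∃ z, z = δ F _ _ ≫ ((δ F _ _ ≫ (e ⊗ₘ e)) ⊗ₘ e) := ⟨_, rfl⟩
    have hz' : (((s ⊗ₘ s) ≫ μ F _ _) ⊗ₘ s) ≫ μ F _ _ ≫ z = 𝟙 _ := by simp [hz, hs]
    rw [← hz] at b3 b0
    unfold Br at b3 b0
    rw [Category.assoc, Category.assoc, Functor.Monoidal.ε_η, Category.comp_id,
      ← tensorHom_comp_whiskerRight, ← tensorHom_comp_whiskerLeft, reassoc_of% b3] at b0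
    have h2 := congrArg ((s ⊗ₘ (((s ⊗ₘ s) ≫ μ F _ _) ⊗ₘ s) ≫ μ F _ _) ≫ · ≫ (λ_ P).hom) b0
    simp only [Category.assoc, tensorHom_comp_tensorHom_assoc, hs, hz', id_tensorHom_id,
      Category.id_comp, Iso.inv_hom_id, Category.comp_id] at h2
    unfold Mv
    rw [← h2]
    simp only [MonoidalLinear.smul_whiskerRight, MonoidalLinear.whiskerLeft_smul, Linear.smul_comp,
      Linear.comp_smul, smul_smul]
    congr 1
    monoidal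
  rw [l2, mul_one] at m
  have l3 : l * (l * l) = 1 := by
    have m3 := (m.tensor m).tensor m
    unfold Mv at m3
    have h1 : ((P ⊗ P) ⊗ P) ◁ φ.hom ≫ (ρ_ _).hom ≫ φ.hom =
        φ.hom ▷ ((P ⊗ P) ⊗ P) ≫ (λ_ _).hom ≫ φ.hom := by
      rw [← rightUnitor_naturality, ← leftUnitor_naturality, whisker_exchange_assoc,
        unitors_equal]
    have h2 : (l * (l * l)) • (φ.hom ▷ ((P ⊗ P) ⊗ P) ≫ (λ_ _).hom ≫ φ.hom) =
        φ.hom ▷ ((P ⊗ P) ⊗ P) ≫ (λ_ _).hom ≫ φ.hom := by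
      conv_rhs => rw [← h1, ← Category.assoc, m3, Linear.smul_comp]
      congr 1
      monoidal
    apply s1.inj
    have h3 := congrArg (φ.inv ≫ (λ_ _).inv ≫ φ.inv ▷ ((P ⊗ P) ⊗ P) ≫ ·) h2
    simpa using h3
  rw [l2, mul_one] at l3
  rw [l3] at m
  rw [l3, one_smul] at b
  exact ⟨b, m⟩

end K3

end Pool.Agent.Lib.MP_edb142_al
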