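import Pool.Agent.Lib.MP_edb142_al.H.LA1

open Module

namespace Pool.Agent.Lib.MP_edb142_al.LA

abbrev Ix : Type := Fin 4 ⊕ Fin 4 × Bool
abbrev V : Type := Ix → ℂ

def sw : Ix → Ix
  | .inl i => .inl i
  | .inr (p, b) => .inr (p, !b)

def T : V →ₗ[ℂ] V := LinearMap.funLeft ℂ ℂ sw

noncomputable def rr (R : Fin 4 → ℂ) : V
  | .inl _ => 1
  | .inr (p, true) => R p
  | .inr (p, false) => (R p)⁻¹

def ww (w0 w : Fin 4 → ℂ) : V
  | .inl i => w0 i
  | .inr (p, _) => w p

def sy (f : Fin 4 → ℂ) : V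
  | .inl _ => 0
  | .inr (p, _) => f p

def Th (x : V) : Prop := ∀ p b, x (.inr (p, b)) = 0

def Rest (x : V) (f : Fin 4 → ℂ) : Prop := ∀ p b, x (.inr (p, b)) = f p

@[simp] theorem T_inl (x : V) (i : Fin 4) : T x (.inl i) = x (.inl i) := rfl
@[simp] theorem T_inr (x : V) (p : Fin 4) (b : Bool) : T x (.inr (p, b)) = x (.inr (p, !b)) := rfl
@[simp] theorem sy_inl (f : Fin 4 → ℂ) (i : Fin 4) : sy f (.inl i) = 0 := rfl
@[simp] theorem sy_inr (f : Fin 4 → ℂ) (p : Fin 4) (b : Bool) : sy f (.inr (p, b)) = f p := rfl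

theorem TT (x : V) : T (T x) = x := by
  funext i; rcases i with i | ⟨p, b⟩ <;> simp

theorem T_mul (x y : V) : T (x * y) = T x * T y := rfl

theorem Rest.T {x : V} {f : Fin 4 → ℂ} (h : Rest x f) : T x = x := by
  funext i; rcases i with i | ⟨p, b⟩
  · rfl
  · rw [T_inr, h, h]

theorem rest_of_T {x : V} (h : T x = x) : Rest x fun p => x (.inr (p, true)) := by
  intro p b
  cases b
  · exact (congrFun h (.inr (p, false))).symm
  · rfl

theorem tr_diag (G : V →ₗ[ℂ] V) : LinearMap.trace ℂ V G = ∑ i, G (Pi.single i 1) i := by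
  rw [LinearMap.trace_eq_matrix_trace ℂ (Pi.basisFun ℂ Ix)]
  simp [Matrix.trace]

structure Hy where
  R : Fin 4 → ℂ
  w0 : Fin 4 → ℂ
  w : Fin 4 → ℂ
  v : Fin 4 → ℂ
  s : Fin 4 → ℂ
  α : ℂ
  F : V →ₗ[ℂ] V
  hR : ∀ p, R p ≠ 0
  hs : ∀ p, s p = R p + (R p)⁻¹
  hN : Num s w v
  hw0 : ∀ i, w0 i ≠ 0
  h00 : w0 0 = 1
  hα : α * (w0 1 - 1) = 1
  sa : ∀ x y, ∑ i, ww w0 w i * (F x i * y i) = ∑ i, ww w0 w i * (x i * F y i)
  ff : ∀ x, F (F x) = x
  hex : ∀ x, rr R * F (rr R * F (rr R * x)) = F x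
  t2 : LinearMap.trace ℂ V F = 0
  t3 : LinearMap.trace ℂ V (LinearMap.mulLeft ℂ (rr R)⁻¹ ∘ₗ F) = 3
  e1 : F (Pi.single (.inl 0) (w0 1)) = 1
  sq : F (F (Pi.single (.inl 1) 1) * F (Pi.single (.inl 1) 1)) =
    F (Pi.single (.inl 1) 1) * F (Pi.single (.inl 1) 1)

namespace Hy
variable (H : Hy)

noncomputable def r : V := rr H.R
noncomputable def ri : V := (rr H.R)⁻¹
noncomputable def e : V := Pi.single (.inl 0) (H.w0 1)
noncomputable def z : V := Pi.single (.inl 1) 1 + H.α • H.e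
noncomputable def y : V := H.F H.z

@[simp] theorem r_inl (i : Fin 4) : H.r (.inl i) = 1 := rfl
@[simp] theorem r_t (p : Fin 4) : H.r (.inr (p, true)) = H.R p := rfl
@[simp] theorem r_f (p : Fin 4) : H.r (.inr (p, false)) = (H.R p)⁻¹ := rfl
@[simp] theorem ri_inl (i : Fin 4) : H.ri (.inl i) = 1 := inv_one
@[simp] theorem ri_t (p : Fin 4) : H.ri (.inr (p, true)) = (H.R p)⁻¹ := rfl
@[simp] theorem ri_f (p : Fin 4) : H.ri (.inr (p, false)) = H.R p := inv_inv _

theorem r_ri (i : Ix) : H.r i * H.ri i = 1 := by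
  rcases i with i | ⟨p, _ | _⟩ <;> simp [H.hR]

theorem r_add (p : Fin 4) (b : Bool) : H.r (.inr (p, b)) + H.ri (.inr (p, b)) = H.s p := by
  cases b <;> simp [H.hs, add_comm]

theorem ri_ne (p : Fin 4) (b : Bool) : 1 - H.ri (.inr (p, b)) ≠ 0 := by
  intro h
  apply H.hN.s_ne p
  have h1 := H.r_ri (.inr (p, b))
  have h2 := H.r_add p b
  linear_combination h1 - h2 + (H.r (.inr (p, b)) - 1) * h

theorem r_ri_mul (x : V) : H.r * (H.ri * x) = x := by
  funext i; simp only [Pi.mul_apply]; rw [← mul_assoc, r_ri, one_mul]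

theorem ri_r_mul (x : V) : H.ri * (H.r * x) = x := by
  rw [mul_left_comm, r_ri_mul]

theorem T_r : T H.r = H.ri := by
  funext i; rcases i with i | ⟨p, _ | _⟩ <;> simp

theorem T_ri : T H.ri = H.r := by rw [← T_r, TT]

noncomputable def B : LinearMap.BilinForm ℂ V :=
  LinearMap.mk₂ ℂ (fun x y => ∑ i, ww H.w0 H.w i * (x i * y i))
    (fun x x' y => by simp [add_mul, mul_add, Finset.sum_add_distrib])
    (fun c x y => by
      simp only [Pi.smul_apply, smul_eq_mul, Finset.mul_sum]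
      exact Finset.sum_congr rfl fun i _ => by ring)
    (fun x y y' => by simp [mul_add, Finset.sum_add_distrib])
    (fun c x y => by
      simp only [Pi.smul_apply, smul_eq_mul, Finset.mul_sum]
      exact Finset.sum_congr rfl fun i _ => by ring)

theorem B_def (x y : V) : H.B x y = ∑ i, ww H.w0 H.w i * (x i * y i) := rfl

theorem B_eq (x y : V) : H.B x y = ∑ i, H.w0 i * (x (.inl i) * y (.inl i)) +
    ∑ p, H.w p * (x (.inr (p, true)) * y (.inr (p, true)) +
      x (.inr (p, false)) * y (.inr (p, false))) := by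
  rw [B_def, Fintype.sum_sum_type, Fintype.sum_prod_type]
  simp [ww, mul_add]

theorem B_rest {x : V} (hx : ∀ i, x (.inl i) = 0) (y : V) : H.B x y =
    ∑ p, H.w p * (x (.inr (p, true)) * y (.inr (p, true)) +
      x (.inr (p, false)) * y (.inr (p, false))) := by
  rw [B_eq]; simp [hx]

theorem B_comm (x y : V) : H.B x y = H.B y x := by
  simp only [B_def, mul_comm]

theorem B_mul (a x y : V) : H.B (a * x) y = H.B x (a * y) := by
  simp only [B_def, Pi.mul_apply]
  exact Finset.sum_congr rfl fun i _ => by ring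

theorem B_F (x y : V) : H.B (H.F x) y = H.B x (H.F y) := H.sa x y

theorem B_T (x y : V) : H.B (T x) y = H.B x (T y) := by
  rw [B_eq, B_eq]; simp [add_comm]

theorem nd {x : V} (h : ∀ y, H.B x y = 0) : x = 0 := by
  funext i
  have := h (Pi.single i 1)
  rw [B_def, Finset.sum_eq_single i] at this
  · have hw : ww H.w0 H.w i ≠ 0 := by
      rcases i with i | ⟨p, b⟩
      · exact H.hw0 i
      · exact H.hN.w_ne p
    simpa [hw] using this
  · intro j _ hj; simp [hj]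
  · simp

theorem orth {x y : V} (hx : H.F x = x) (hy : H.F y = -y) : H.B x y = 0 := by
  have := H.B_F x y
  rw [hx, hy, map_neg] at this
  linear_combination this / 2

theorem orthT {x y : V} (hx : T x = x) (hy : T y = -y) : H.B x y = 0 := by
  have := H.B_T x y
  rw [hx, hy, map_neg] at this
  linear_combination this / 2

theorem h1 (x : V) : H.F (H.r * H.F x) = H.ri * H.F (H.ri * x) := by
  have := H.hex (H.ri * x)
  change H.r * H.F (H.r * H.F (H.r * (H.ri * x))) = _ at this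
  rw [r_ri_mul] at this
  rw [← this, ri_r_mul]

theorem h2 (x : V) : H.F (H.ri * H.F x) = H.r * H.F (H.r * x) := by
  have := H.hex x
  change H.r * H.F (H.r * H.F (H.r * x)) = _ at this
  rw [← this, ri_r_mul, H.ff]

theorem r_Th {x : V} (hx : Th x) : H.r * x = x := by
  funext i; rcases i with i | ⟨p, b⟩ <;> simp [hx _ _]

theorem ri_Th {x : V} (hx : Th x) : H.ri * x = x := by
  funext i; rcases i with i | ⟨p, b⟩ <;> simp [hx _ _]

theorem h3 {x : V} (hx : Th x) : H.F (H.r * H.F x) = H.ri * H.F x := by rw [h1, H.ri_Th hx]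
theorem h4 {x : V} (hx : Th x) : H.F (H.ri * H.F x) = H.r * H.F x := by rw [h2, H.r_Th hx]

theorem fix {x : V} (hx : Th x) (h : Th (H.F x)) : H.F x = x := by
  have := H.h3 hx
  rw [H.r_Th h, H.ri_Th h, H.ff] at this
  exact this.symm

theorem Th_e : Th H.e := fun p b => by simp [e]
theorem Th_z : Th H.z := fun p b => by simp [e, z]
theorem F_e : H.F H.e = 1 := H.e1
theorem F_one : H.F 1 = H.e := by rw [← F_e, H.ff]
theorem F_y : H.F H.y = H.z := H.ff _
theorem F_r : H.F H.r = H.ri := by simpa [F_e] using H.h3 H.Th_e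
theorem F_ri : H.F H.ri = H.r := by rw [← F_r, H.ff]

theorem p1 : H.F (1 + H.e) = 1 + H.e := by rw [map_add, F_one, F_e, add_comm]
theorem p2 : H.F (H.r + H.ri) = H.r + H.ri := by rw [map_add, F_r, F_ri, add_comm]
theorem p3 : H.F (H.y + H.z) = H.y + H.z := by rw [map_add, F_y, add_comm]; rfl
theorem p4 : H.F ((H.r + H.ri) * H.y) = (H.r + H.ri) * H.y := by
  rw [add_mul, map_add, y, H.h3 H.Th_z, H.h4 H.Th_z, add_comm]
theorem m4 : H.F ((H.r - H.ri) * H.y) = -((H.r - H.ri) * H.y) := by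
  rw [sub_mul, map_sub, y, H.h3 H.Th_z, H.h4 H.Th_z, neg_sub]

theorem p5 : ∃ x, H.F x = x ∧ ∀ p b, x (.inr (p, b)) = H.y (.inr (p, b)) ^ 2 := by
  refine ⟨H.F (Pi.single (.inl 1) 1) * H.F (Pi.single (.inl 1) 1) + (2 * H.α) • (H.y + H.z) -
    H.α ^ 2 • (1 + H.e), ?_, fun p b => ?_⟩
  · rw [map_sub, map_add, map_smul, map_smul, H.sq, p1, p3]
  · have : H.y = H.F (Pi.single (.inl 1) 1) + H.α • 1 := by rw [y, z, map_add, map_smul, F_e]
    have h := congrFun this (.inr (p, b))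
    simp only [Pi.add_apply, Pi.smul_apply, Pi.one_apply, smul_eq_mul, Pi.sub_apply, Pi.mul_apply,
      H.Th_e p b, H.Th_z p b] at h ⊢
    rw [h]; ring

theorem const {c : ℂ} (h : Rest H.y fun _ => c) : H.F H.z = H.z := by
  have a1 : H.B H.y 1 = H.B H.z H.e := by rw [y, B_F, F_one]
  have a2 : H.B H.y (H.r + H.ri) = H.B H.z (H.r + H.ri) := by rw [y, B_F, p2]
  have a3 : H.B H.z (H.r + H.ri) = 2 * H.B H.z H.e := by
    rw [B_eq, B_eq]
    simp only [H.Th_z _ _]
    simp [z, e, Fin.sum_univ_four, H.h00]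
    linear_combination (-2 * H.w0 1) * H.hα
  have a4 : H.B ((2 : ℂ) • (1 : V) - (H.r + H.ri)) H.y = 0 := by
    rw [B_comm, map_sub, map_smul, a1, a2, a3]; simp
  rw [H.B_rest (by intro i; simp; norm_num)] at a4
  have a5 : 2 * c * ∑ p, H.w p * (2 - H.s p) = 0 := by
    rw [← a4, Finset.mul_sum]
    refine Finset.sum_congr rfl fun p _ => ?_
    simp only [h p, Pi.sub_apply, Pi.add_apply, r_add, Pi.smul_apply, Pi.one_apply, smul_eq_mul]
    ring
  have hc : c = 0 := by simpa [H.hN.n1] using a5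
  exact H.fix H.Th_z fun p b => by rw [← hc]; exact h p b

def ρ : V →ₗ[ℂ] (Fin 4 × Bool → ℂ) := LinearMap.funLeft ℂ ℂ Sum.inr

theorem kerρ : LinearMap.ker (LinearMap.mulLeft ℂ H.r - 1) = LinearMap.ker ρ := by
  ext x
  simp only [LinearMap.mem_ker, LinearMap.sub_apply, LinearMap.mulLeft_apply, Module.End.one_apply]
  constructor
  · intro h
    funext ⟨p, b⟩
    have h1 := congrFun h (.inr (p, b))
    simp only [Pi.sub_apply, Pi.mul_apply, Pi.zero_apply] at h1
    have h2 := H.r_ri (.inr (p, b))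
    have : (1 - H.ri (.inr (p, b))) * x (.inr (p, b)) = 0 := by
      linear_combination H.ri (.inr (p, b)) * h1 - x (.inr (p, b)) * h2
    exact (mul_eq_zero.1 this).resolve_left (H.ri_ne p b)
  · intro h
    rw [H.r_Th fun p b => congrFun h (p, b), sub_self]

theorem rkρ : finrank ℂ (LinearMap.ker ρ) = 4 := by
  have h := LinearMap.finrank_range_add_finrank_ker ρ
  have hs : Function.Surjective ρ :=
    LinearMap.funLeft_surjective_of_injective ℂ ℂ _ Sum.inr_injective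
  rw [LinearMap.range_eq_top.2 hs] at h
  simp at h
  omega

theorem t3' : LinearMap.trace ℂ V (H.F ∘ₗ LinearMap.mulLeft ℂ H.r) = 3 := by
  have := tr_sq3 (LinearMap.mulLeft ℂ H.ri ∘ₗ H.F) (fun x => by
    simp only [LinearMap.comp_apply, LinearMap.mulLeft_apply]
    rw [h2, ri_r_mul, r_ri_mul, H.ff]) H.t3
  rw [← this]
  congr 1
  refine LinearMap.ext fun x => ?_
  simp only [LinearMap.comp_apply, LinearMap.mulLeft_apply]
  rw [h2, ri_r_mul]

theorem rkE : finrank ℂ (LinearMap.ker (H.F - 1)) = 6 := by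
  have := rank_fix2 H.F H.ff H.t2
  simp at this
  omega

theorem rkU : 2 ≤ finrank ℂ ↥(LinearMap.ker (H.F - 1) ⊓ LinearMap.ker ρ) := by
  have a := rank_fix3 (H.F ∘ₗ LinearMap.mulLeft ℂ H.r) (fun x => by
    simp only [LinearMap.comp_apply, LinearMap.mulLeft_apply]
    exact (congrArg H.F (H.hex x)).trans (H.ff x)) H.t3' (by
    rw [← H.t3]
    congr 1
    refine LinearMap.ext fun x => ?_
    simp only [LinearMap.comp_apply, LinearMap.mulLeft_apply]
    rw [h1, ri_r_mul]; rfl)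
  have b := scott H.B ⟨fun x hx => H.nd hx, fun x hx => H.nd fun y => by rw [B_comm]; exact hx y⟩
    ⟨H.B_comm⟩ H.F (LinearMap.mulLeft ℂ H.r) H.B_F (H.B_mul H.r)
  rw [kerρ, rkρ, rkE] at b
  simp at a b
  omega

theorem D2 (x : Fin 5 → V) (hx : ∀ i, H.F (x i) = x i) :
    ∃ c : Fin 5 → ℂ, (∀ p b, ∑ i, c i * x i (.inr (p, b)) = 0) ∧ ∃ i, c i ≠ 0 := by
  obtain ⟨c, h1, h2⟩ := dep_mod (LinearMap.ker (H.F - 1)) ρ (n := 5)
    (by have := H.rkU; rw [rkE]; omega) x (fun i => by simp [hx i])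
  exact ⟨c, fun p b => by simpa [ρ] using congrFun h1 (p, b), h2⟩

theorem D1 (x : Fin 3 → V) (hx : ∀ i, Th (x i)) :
    ∃ c : Fin 3 → ℂ, (∀ p b, ∑ i, c i * H.F (x i) (.inr (p, b)) = 0) ∧ ∃ i, c i ≠ 0 := by
  have hle : LinearMap.ker (H.F - 1) ⊓ LinearMap.ker ρ ≤
      LinearMap.ker ρ ⊓ LinearMap.ker (ρ ∘ₗ H.F) := by
    rintro x ⟨h1, h2⟩
    refine ⟨h2, ?_⟩
    have : H.F x = x := by simpa [sub_eq_zero] using h1
    simpa [this] using h2
  obtain ⟨c, h1, h2⟩ := dep_mod (LinearMap.ker ρ) (ρ ∘ₗ H.F) (n := 3)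
    (by have := H.rkU; have := Submodule.finrank_mono hle; rw [rkρ]; omega) x
    (fun i => funext fun ⟨p, b⟩ => hx i p b)
  exact ⟨c, fun p b => by simpa [ρ] using congrFun h1 (p, b), h2⟩

end Hy

end Pool.Agent.Lib.MP_edb142_al.LA
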