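import Pool.Agent.Lib.MP_edb142_al.H.LA2

open Module

namespace Pool.Agent.Lib.MP_edb142_al.LA

namespace Hy
variable (H : Hy)

theorem io_sq (p : Fin 4) : (H.R p - (H.R p)⁻¹) ^ 2 = H.s p ^ 2 - 4 := by
  rw [H.hs]; field_simp [H.hR p]; ring

theorem s4 (p : Fin 4) : H.s p ^ 2 - 4 ≠ 0 := by
  rw [show H.s p ^ 2 - 4 = (H.s p - 2) * (H.s p + 2) by ring]
  exact mul_ne_zero (H.hN.s_ne p) (H.hN.s_ne' p)

theorem B_asym (x y : V) : H.B ((H.r - H.ri) * x) y = ∑ p, H.w p * (H.R p - (H.R p)⁻¹) *
    (x (.inr (p, true)) * y (.inr (p, true)) - x (.inr (p, false)) * y (.inr (p, false))) := by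
  rw [H.B_rest (by intro i; simp)]
  refine Finset.sum_congr rfl fun p _ => ?_
  simp only [Pi.mul_apply, Pi.sub_apply, r_t, r_f, ri_t, ri_f]
  ring

theorem claim1 (p : Fin 4) : H.y (.inr (p, true)) = H.y (.inr (p, false)) := by
  by_contra hp
  set δ : Fin 4 → ℂ := fun p => H.y (.inr (p, true)) - H.y (.inr (p, false)) with hδ
  set m : Fin 4 → ℂ := fun p => H.y (.inr (p, true)) + H.y (.inr (p, false)) with hm
  set u : Fin 4 → ℂ := fun p => H.w p * (H.R p - (H.R p)⁻¹) * δ p with hu
  have io : ∀ p, H.R p - (H.R p)⁻¹ ≠ 0 := fun p h => H.s4 p (by rw [← io_sq, h]; ring)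
  have u0 : ∑ p, u p = 0 := by
    have := H.orth H.p1 H.m4
    rw [B_comm, B_asym] at this
    rw [← this]
    refine Finset.sum_congr rfl fun p _ => ?_
    simp only [hu, hδ, Pi.add_apply, Pi.one_apply, H.Th_e p]; ring
  have u1 : ∑ p, u p * H.s p = 0 := by
    have := H.orth H.p2 H.m4
    rw [B_comm, B_asym] at this
    rw [← this]
    refine Finset.sum_congr rfl fun p _ => ?_
    simp only [hu, hδ, Pi.add_apply, r_add]; ring
  obtain ⟨l0, l1, hl⟩ := H.hN.dual.lin u0 u1
  have usum : ∀ a b c : ℂ, ∑ p, u p * (a + b * H.s p + c * H.s p ^ 2) = c * l1 := by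
    intro a b c
    rw [← H.hN.dual.sum (a * l0) (a * l1 + b * l0) (b * l1 + c * l0) (c * l1)]
    exact Finset.sum_congr rfl fun p _ => by rw [hl]; ring
  have supp : ∀ a b : ℂ, (∀ p, (a + b * H.s p) * δ p = 0) → a = 0 ∧ b = 0 := by
    intro a b h
    obtain ⟨k0, k1, k2, -⟩ := P4 H.hN.dual.inj (a0 := a * l0) (a1 := a * l1 + b * l0) (a2 := b * l1)
      (a3 := 0) (fun p => by
        apply mul_left_cancel₀ (H.hN.dual.ne p)
        have := hl p
        simp only [hu] at this
        linear_combination (H.w p * (H.R p - (H.R p)⁻¹)) * h p - (a + b * H.s p) * this)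
    have hl' : l0 ≠ 0 ∨ l1 ≠ 0 := by
      by_contra hh
      push Not at hh
      have := hl p
      simp only [hu, hh.1, hh.2, zero_mul, add_zero, mul_zero, mul_eq_zero, H.hN.w_ne p, io p,
        false_or, hδ, sub_eq_zero] at this
      exact hp this
    rcases hl' with h0 | h0
    · have ha : a = 0 := by simpa [h0] using k0
      exact ⟨ha, by simpa [ha, h0] using k1⟩
    · have hb : b = 0 := by simpa [h0] using k2
      exact ⟨by simpa [hb, h0] using k1, hb⟩
  have span : ∀ x, H.F x = x → ∃ A B C D : ℂ, ∀ p b,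
      x (.inr (p, b)) = A + B * H.s p + (C + D * H.s p) * H.y (.inr (p, b)) := by
    intro x hx
    obtain ⟨c, hc, i, hi⟩ := H.D2 ![1 + H.e, H.r + H.ri, H.y + H.z, (H.r + H.ri) * H.y, x]
      (fun i => by fin_cases i; exacts [H.p1, H.p2, H.p3, H.p4, hx])
    have hc' : ∀ p b, c 0 + c 1 * H.s p + (c 2 + c 3 * H.s p) * H.y (.inr (p, b)) +
        c 4 * x (.inr (p, b)) = 0 := by
      intro p b
      have := hc p b
      simp only [Fin.sum_univ_five, Matrix.cons_val, Pi.add_apply, Pi.mul_apply, Pi.one_apply,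
        H.Th_e p b, H.Th_z p b, r_add] at this
      linear_combination this
    by_cases h4 : c 4 = 0
    · obtain ⟨h2, h3⟩ := supp (c 2) (c 3) fun p => by
        have a := hc' p true
        have b := hc' p false
        rw [h4] at a b
        simp only [hδ]; linear_combination a - b
      obtain ⟨h0, h1, -, -⟩ := P4 H.hN.dual.inj (a0 := c 0) (a1 := c 1) (a2 := 0) (a3 := 0)
        (fun p => by have a := hc' p true; rw [h2, h3, h4] at a; linear_combination a)
      exfalso; apply hi
      fin_cases i; exacts [h0, h1, h2, h3, h4]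
    · refine ⟨-c 0 / c 4, -c 1 / c 4, -c 2 / c 4, -c 3 / c 4, fun p b => ?_⟩
      field_simp
      linear_combination hc' p b
  by_cases h1 : l1 = 0
  · have hx : H.F ((H.r - H.ri) * (H.r + H.ri)) + (H.r - H.ri) * (H.r + H.ri) = 0 := by
      apply H.nd
      intro x'
      obtain ⟨A, B, C, D, h⟩ := span (H.F x' + x') (by rw [map_add, H.ff, add_comm])
      rw [map_add, LinearMap.add_apply, B_F, ← map_add, B_asym, ← mul_zero D, ← h1, ← usum 0 C D]
      refine Finset.sum_congr rfl fun p _ => ?_
      rw [h, h]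
      simp only [hu, hδ, Pi.add_apply, r_add]; ring
    have hg : H.F (H.r * H.r) = H.ri * H.F (H.ri * H.ri) := by rw [← H.h1, F_ri]
    rw [show (H.r - H.ri) * (H.r + H.ri) = H.r * H.r - H.ri * H.ri by ring, map_sub, hg] at hx
    obtain ⟨A, B, C, D, h⟩ := span (H.F (H.ri * H.ri) + H.ri * H.ri)
      (by rw [map_add, H.ff, add_comm])
    have hv : ∀ p b, (H.F (H.ri * H.ri) + H.ri * H.ri) (.inr (p, b)) = H.s p ^ 2 + H.s p - 1 := by
      intro p b
      have a := congrFun hx (.inr (p, b))
      have a1 := H.r_ri (.inr (p, b))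
      apply mul_left_cancel₀ (H.ri_ne p b)
      rw [← H.r_add p b]
      simp only [Pi.add_apply, Pi.mul_apply, Pi.sub_apply, Pi.zero_apply] at a ⊢
      linear_combination (-1) * a + (H.r (.inr (p, b)) + 2 * H.ri (.inr (p, b)) - 1) * a1
    obtain ⟨hC, hD⟩ := supp C D fun p => by
      have a := h p true
      have b := h p false
      rw [hv] at a b
      simp only [hδ]; linear_combination b - a
    obtain ⟨-, -, h2, -⟩ := P4 H.hN.dual.inj (a0 := -1 - A) (a1 := 1 - B) (a2 := 1) (a3 := 0)
      (fun p => by have a := h p true; rw [hv, hC, hD] at a; linear_combination a)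
    exact one_ne_zero h2
  · obtain ⟨x, hx, hx2⟩ := H.p5
    obtain ⟨A, B, C, D, h⟩ := span x hx
    have e1 : ∀ p, δ p * m p = δ p * (C + D * H.s p) := fun p => by
      have a := h p true
      have b := h p false
      rw [hx2] at a b
      simp only [hδ, hm]; linear_combination a - b
    have e2 : ∀ p, m p ^ 2 + δ p ^ 2 = 4 * (A + B * H.s p) + 2 * (C + D * H.s p) * m p := fun p => by
      have a := h p true
      have b := h p false
      rw [hx2] at a b
      simp only [hδ, hm]; linear_combination 2 * a + 2 * b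
    have hD : D = 0 := by
      have := H.orth H.p4 H.m4
      rw [B_comm, B_asym] at this
      have h3 : D * l1 = 0 := by
        rw [← usum 0 C D]
        refine Eq.trans (Finset.sum_congr rfl fun p _ => ?_) this
        have a := e1 p
        simp only [hu, hδ, hm, Pi.add_apply, Pi.mul_apply, r_add] at a ⊢
        linear_combination (-(H.w p * (H.R p - (H.R p)⁻¹) * H.s p)) * a
      simpa [h1] using h3
    subst hD
    have e3 : ∀ p, δ p * δ p ^ 2 = δ p * (4 * A + C ^ 2 + 4 * B * H.s p) := fun p => by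
      linear_combination δ p * e2 p + (C - m p) * e1 p
    have e4 : ∀ p, δ p ^ 2 = l1 ^ 2 * (H.s p - -l0 / l1) ^ 2 * H.v p ^ 2 /
        (H.w p ^ 2 * (H.s p ^ 2 - 4)) := fun p => by
      have a := hl p
      simp only [hu] at a
      have := H.s4 p
      have := H.hN.w_ne p
      field_simp
      rw [← io_sq]
      linear_combination (H.w p * (H.R p - (H.R p)⁻¹) * δ p + H.v p * (l0 + l1 * H.s p)) * a
    obtain ⟨k1, k2⟩ := H.hN.n2 (-l0 / l1) (by
      apply mul_left_cancel₀ (pow_ne_zero 3 h1)
      rw [mul_zero, ← zero_mul l1, ← usum (4 * A + C ^ 2) (4 * B) 0, Finset.mul_sum]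
      refine Finset.sum_congr rfl fun p _ => ?_
      have a : u p * δ p ^ 2 = u p * (4 * A + C ^ 2 + 4 * B * H.s p) := by
        simp only [hu]; linear_combination (H.w p * (H.R p - (H.R p)⁻¹)) * e3 p
      rw [zero_mul, add_zero, ← a, e4, hl]
      field_simp
      ring)
    apply k1
    apply mul_left_cancel₀ (pow_ne_zero 2 h1)
    rw [mul_zero, ← H.hN.dual.sum (4 * A + C ^ 2) (4 * B) 0 0, Finset.mul_sum]
    refine Finset.sum_congr rfl fun p _ => ?_
    have hd : δ p ≠ 0 := by
      intro h0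
      have a := hl p
      simp only [hu, h0, mul_zero] at a
      apply k2 p
      have := (mul_eq_zero.1 a.symm).resolve_left (H.hN.dual.ne p)
      field_simp
      linear_combination this
    rw [zero_mul, zero_mul, add_zero, add_zero, ← mul_left_cancel₀ hd (e3 p), e4]
    ring

end Hy

end Pool.Agent.Lib.MP_edb142_al.LA
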