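import Pool.Agent.Lib.MP_edb142_al.H.B3
import Pool.Agent.Lib.MP_edb142_al.H.B4
import Pool.Agent.Lib.MP_edb142_al.H.Glue

open CategoryTheory MonoidalCategory Limits

namespace Pool.Agent.Lib.MP_edb142_al

universe v u

variable {C : Type u} [Category.{v} C] [Preadditive C] [Linear ℂ C] [MonoidalCategory C]
  [MonoidalPreadditive C] [MonoidalLinear ℂ C] [HasFiniteBiproducts C] [BraidedCategory C]
  [RigidCategory C]

theorem Haag.etale {M : Modular C Lab} {ζ ω : ℂ} (H : Haag M ζ ω) :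
    ∃ L : C, Nonempty (Etale M L) ∧
      ∀ k, Module.finrank ℂ (M.X k ⟶ L) = if k = M.o ∨ k = .inl 1 then 1 else 0 := by
  have hxo : (.inl 1 : Lab) ≠ M.o := by rw [H.o_eq]; decide
  have hT1 : M.T (.inl 1) = 1 := by rw [H.T]; rfl
  have hd2 := hd_sq H.hζ
  obtain ⟨R⟩ := M.rot (.inl 1) hxo hT1 H.Nxx H.selfdual (hR ζ ω) H.tr2 (by rw [H.o_eq]; rfl) rfl
    H.tr3 (fun t h => by rw [H.o_eq]; exact H.tr4 t h)
  obtain ⟨A⟩ := H.triAlg R
  refine A.etale M _ hxo hT1 (inv_ne_zero fun h => ?_) fun h => ?_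
  · have : (1 : ℂ) = 0 := by linear_combination (hd ζ / 3 - 1) * h - hd2
    exact one_ne_zero this
  · rw [H.dim_eq] at h
    change 1 + (3 * hd ζ + 1) = 0 at h
    have : (13 : ℂ) = 0 := by linear_combination 9 * hd2 + (11 - 3 * hd ζ) * h
    norm_num at this

theorem Haag.centre {M : Modular C Lab} {ζ ω : ℂ} (H : Haag M ζ ω) : IsCentre C := by
  obtain ⟨L, ⟨E⟩, hL⟩ := H.etale
  exact H.centre_of_etale E hL

end Pool.Agent.Lib.MP_edb142_al
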