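import Pool.Agent.Lib.MP_edb142_al.H.QDefs

set_option linter.unusedSectionVars false

namespace Pool.Agent.Lib.MP_edb142_al

variable {G Γ : Type} [AddCommGroup G] [AddCommGroup Γ] {θ : G → ℂ}

theorem pol_comm (θ : G → ℂ) (g k : G) : pol θ g k = pol θ k g := by
  rw [pol, pol, add_comm, mul_comm]

/-- the symmetrised polarisation -/
noncomputable def ff (θ : G → ℂ) (g k : G) : ℂ := pol θ g k + (pol θ g k)⁻¹

theorem ff_comm (θ : G → ℂ) (g k : G) : ff θ g k = ff θ k g := by rw [ff, ff, pol_comm]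

namespace IsMetric

variable (h : IsMetric θ)
include h

theorem pol_ne (g k : G) : pol θ g k ≠ 0 := div_ne_zero (h.ne _) (mul_ne_zero (h.ne _) (h.ne _))

theorem zero_left (k : G) : pol θ 0 k = 1 := by
  have := h.add 0 0 k
  rw [add_zero] at this
  exact mul_left_cancel₀ (h.pol_ne 0 k) (by rw [← this, mul_one])

theorem zero_right (k : G) : pol θ k 0 = 1 := by rw [pol_comm, h.zero_left]

theorem zero : θ 0 = 1 := by
  have := h.zero_left 0
  rw [pol, add_zero, div_mul_cancel_left₀ (h.ne 0)] at this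
  exact inv_eq_one.1 this

theorem neg_left (g k : G) : pol θ (-g) k = (pol θ g k)⁻¹ :=
  eq_inv_of_mul_eq_one_left (by rw [← h.add, neg_add_cancel, h.zero_left])

theorem self (g : G) : pol θ g g = θ g ^ 2 := by
  have := h.neg_left g g
  rw [pol, neg_add_cancel, h.zero, h.even, one_div] at this
  rw [sq, inv_inj.1 this]

theorem nsmul (n : ℕ) (g k : G) : pol θ (n • g) k = pol θ g k ^ n := by
  induction n with
  | zero => simp [h.zero_left]
  | succ n ih => rw [succ_nsmul, h.add, ih, pow_succ]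

theorem ff_zero (k : G) : ff θ 0 k = 2 := by
  rw [ff, h.zero_left]; norm_num

theorem ff_neg (g k : G) : ff θ (-g) k = ff θ g k := by rw [ff, ff, h.neg_left, inv_inv, add_comm]

theorem ff_mul (g g' k : G) : ff θ g k * ff θ g' k = ff θ (g + g') k + ff θ (g - g') k := by
  simp only [ff, sub_eq_add_neg, h.add, h.neg_left, mul_inv, inv_inv]
  ring

variable [Fintype G]

theorem conj (g k : G) : (starRingEnd ℂ) (pol θ g k) = (pol θ g k)⁻¹ :=
  (Complex.inv_eq_conj (Complex.norm_eq_one_of_pow_eq_one (n := Fintype.card G)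
    (by rw [← h.nsmul, card_nsmul_eq_zero, h.zero_left]) Fintype.card_ne_zero)).symm

theorem ff_conj (g k : G) : (starRingEnd ℂ) (ff θ g k) = ff θ g k := by
  rw [ff, map_add, map_inv₀, h.conj, inv_inv, add_comm]

theorem sum_pol {k : G} (hk : k ≠ 0) : ∑ g, pol θ g k = 0 := by
  obtain ⟨g0, h0⟩ : ∃ g0, pol θ g0 k ≠ 1 := by
    by_contra hc
    push Not at hc
    exact hk (h.nondeg k fun g => by rw [pol_comm, hc])
  have : ∑ g, pol θ g k = pol θ g0 k * ∑ g, pol θ g k := by
    rw [Finset.mul_sum, ← Equiv.sum_comp (Equiv.addLeft g0)]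
    simp [h.add]
  by_contra hc
  exact h0 (mul_right_cancel₀ hc (by rw [← this, one_mul]))

end IsMetric

variable [Fintype G] [Fintype Γ] [DecidableEq G] [DecidableEq Γ] {A : Finset G} {B : Finset Γ}

theorem IsHalf.ne (h : IsHalf A) (a : A) : (a : G) ≠ 0 := fun e => h.1 (e ▸ a.2)

theorem IsHalf.add_ne (h : IsHalf A) (a b : A) : (a : G) + b ≠ 0 := fun e =>
  (h.2 a (h.ne a)).1 a.2 (by rw [← eq_neg_of_add_eq_zero_right e]; exact b.2)

theorem IsHalf.sum (h : IsHalf A) (f : G → ℂ) : ∑ g, f g = f 0 + ∑ a : A, (f a + f (-a)) := by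
  have h1 : ∀ g, f g = (if g = 0 then f g else 0) + ((if g ∈ A then f g else 0) +
      if -g ∈ A then f (- -g) else 0) := fun g => by
    by_cases e : g = 0
    · simp [e, h.1]
    · have := h.2 g e
      by_cases e' : g ∈ A
      · simp [e, e', this.1 e']
      · simp [e, e', not_not.1 (mt this.2 e')]
  rw [Finset.sum_congr rfl fun g _ => h1 g, Finset.sum_add_distrib, Finset.sum_add_distrib,
    show (∑ g, if -g ∈ A then f (- -g) else 0) = _ from
      Equiv.sum_comp (Equiv.neg G) fun g => if g ∈ A then f (-g) else 0,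
    Finset.sum_coe_sort A fun a => f a + f (-a), Finset.sum_add_distrib]
  simp

theorem IsHalf.card (h : IsHalf A) : Fintype.card G = 2 * A.card + 1 := by
  have := h.sum fun _ => 1
  simp only [Finset.sum_const, Finset.card_univ, Fintype.card_coe, nsmul_eq_mul] at this
  exact_mod_cast (by linear_combination this : (Fintype.card G : ℂ) = 2 * A.card + 1)

theorem IsHalf.sum_ff (h : IsHalf A) (m : IsMetric θ) {k : G} (hk : k ≠ 0) :
    ∑ a : A, ff θ a k = -1 := by
  have := h.sum fun g => pol θ g k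
  simp only [m.sum_pol hk, m.zero_left, m.neg_left] at this
  unfold ff
  linear_combination -this

theorem IsHalf.orth (h : IsHalf A) (m : IsMetric θ) (k l : A) :
    ∑ a : A, ff θ k a * ff θ l a = (if k = l then 2 * (A.card : ℂ) + 1 else 0) - 2 := by
  simp only [m.ff_mul, Finset.sum_add_distrib, ff_comm θ (_ + _), ff_comm θ (_ - _),
    h.sum_ff m (h.add_ne k l)]
  split_ifs with e
  · simp [e, ff_comm θ _ 0, m.ff_zero]
    ring
  · rw [h.sum_ff m (sub_ne_zero.2 (Subtype.coe_injective.ne e))]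
    ring

theorem IsHalf.van (h : IsHalf A) (m : IsMetric θ) (v : A → ℂ)
    (hv : ∀ a : A, ∑ k : A, v k * ff θ k a = 0) (l : A) : v l = 0 := by
  have h1 : ∀ l, (2 * (A.card : ℂ) + 1) * v l = 2 * ∑ k, v k := fun l => by
    have : ∑ a : A, (∑ k : A, v k * ff θ k a) * ff θ l a = 0 := by
      simp only [hv, zero_mul, Finset.sum_const_zero]
    simp only [Finset.sum_mul, mul_assoc] at this
    rw [Finset.sum_comm] at this
    simp only [← Finset.mul_sum, h.orth m, mul_sub, mul_ite, mul_zero, Finset.sum_sub_distrib,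
      Finset.sum_ite_eq', Finset.mem_univ, if_true, ← Finset.sum_mul] at this
    linear_combination this
  have h2 := Finset.sum_congr rfl fun l (_ : l ∈ Finset.univ) => h1 l
  simp only [← Finset.mul_sum, Finset.sum_const, Finset.card_univ, Fintype.card_coe,
    nsmul_eq_mul] at h2
  have h3 : ∑ k, v k = 0 := by linear_combination h2
  have h4 : (2 * (A.card : ℂ) + 1) ≠ 0 := by exact_mod_cast Nat.succ_ne_zero (2 * A.card)
  exact (mul_eq_zero.1 (by rw [h1, h3, mul_zero])).resolve_left h4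

/-- the row attached to an element of `G` -/
noncomputable def qR (δ : ℂ) (s : G → ℂ) (g : G) : QL A B → ℂ
  | .inl _ => δ + 2
  | .inr (.inl a) => (δ + 2) * ff s g a
  | .inr (.inr _) => 0

/-- the hypotheses on the numerical data -/
structure Qd (A : Finset G) (B : Finset Γ) (δ : ℂ) (s : G → ℂ) (t : Γ → ℂ) : Prop where
  hs : IsMetric s
  ht : IsMetric t
  hA : IsHalf A
  hB : IsHalf B
  cB : B.card = A.card + 2
  hδ : δ ^ 2 = (2 * A.card + 1) * (δ + 1)

namespace Qd

variable {δ : ℂ} {s : G → ℂ} {t : Γ → ℂ} (H : Qd A B δ s t)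
include H

theorem col (ε : ℂ) (j : QL A B) :
    ∑ k : QL A B, Sum.elim (fun _ => 1) (Sum.elim (fun _ => 1) fun _ => ε) k * qS δ s t k j =
      Sum.elim (fun i => (A.card + 1) * (δ + 2) + (if i = 0 then 1 else -1) * ε * (A.card + 2) * δ)
        (Sum.elim (fun _ => δ + 2) fun _ => ε * δ) j := by
  have h1 := fun a : A => H.hA.sum_ff H.hs (H.hA.ne a)
  have h2 := fun b : B => H.hB.sum_ff H.ht (H.hB.ne b)
  simp only [ff, Finset.univ_eq_attach] at h1 h2
  rcases j with i | a | b
  · fin_cases i <;> simp [Fintype.sum_sum_type, qS, H.cB] <;> ring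
  · simp [Fintype.sum_sum_type, qS, ← Finset.mul_sum, h1]
    ring
  · simp [Fintype.sum_sum_type, qS, ← Finset.mul_sum, h2]

theorem col1 (j : QL A B) : ∑ k : QL A B, qS δ s t k j =
    Sum.elim (fun i => (A.card + 1) * (δ + 2) + (if i = 0 then 1 else -1) * (A.card + 2) * δ)
      (Sum.elim (fun _ => δ + 2) fun _ => δ) j := by
  have := H.col 1 j
  simp only [mul_one, one_mul] at this
  rw [← this]
  refine Finset.sum_congr rfl fun k _ => ?_
  rcases k with i | a | b <;> simp

theorem v00 (j : QL A B) : qS δ s t (.inl 0) j * qS δ s t (.inl 0) j = qS δ s t (.inl 1) j *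
    ∑ k : QL A B, Sum.elim (fun _ => 1) (Sum.elim (fun _ => 1) fun _ => -1) k * qS δ s t k j := by
  rw [H.col]
  rcases j with i | a | b
  · fin_cases i <;> simp [qS]
    · linear_combination H.hδ
    · linear_combination H.hδ
  · simp [qS]
  · simp [qS]

theorem vxx (j : QL A B) : qS δ s t (.inl 1) j * qS δ s t (.inl 1) j =
    qS δ s t (.inl 0) j * ∑ k : QL A B, qS δ s t k j := by
  rw [H.col1]
  rcases j with i | a | b
  · fin_cases i <;> simp [qS]
    · linear_combination H.hδ
    · linear_combination H.hδ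
  · simp [qS]
  · simp [qS]

theorem vdx (b : B) (j : QL A B) : qS δ s t (.inr (.inr b)) j * qS δ s t (.inl 1) j =
    qS δ s t (.inl 0) j * (∑ k : QL A B, qS δ s t k j - qS δ s t (.inl 0) j -
      qS δ s t (.inr (.inr b)) j) := by
  rw [H.col1]
  rcases j with i | a | b
  · fin_cases i <;> simp [qS]
    · linear_combination H.hδ
    · linear_combination H.hδ
  · simp [qS]
  · simp [qS]
    ring

theorem vcx (a : A) (j : QL A B) : qS δ s t (.inr (.inl a)) j * qS δ s t (.inl 1) j =
    qS δ s t (.inl 0) j * (∑ k : QL A B, qS δ s t k j - qS δ s t (.inl 0) j +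
      qS δ s t (.inr (.inl a)) j) := by
  rw [H.col1]
  rcases j with i | a | b
  · fin_cases i <;> simp [qS]
    · linear_combination H.hδ
    · linear_combination H.hδ
  · simp [qS]
    ring
  · simp [qS]

theorem vcc (b : B) (g g' : G) (j : QL A B) : qR δ s g j * qR δ s g' j =
    qS δ s t (.inr (.inr b)) j * qR δ s g' j +
      qS δ s t (.inl 0) j * (qR δ s (g + g') j + qR δ s (g - g') j) := by
  rcases j with i | a | b
  · fin_cases i <;> simp [qS, qR] <;> ring
  · simp only [qS, qR]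
    linear_combination (δ + 2) ^ 2 * H.hs.ff_mul g g' a
  · simp [qS, qR]

theorem qR_zero (j : QL A B) : qR δ s 0 j = qS δ s t (.inl 0) j + qS δ s t (.inl 1) j := by
  rcases j with i | a | b
  · fin_cases i <;> simp [qS, qR] <;> ring
  · simp only [qS, qR, H.hs.ff_zero]
    ring
  · simp [qS, qR]

theorem qR_eq (a : A) {g : G} (e : (a : G) = g ∨ (a : G) = -g) (j : QL A B) :
    qS δ s t (.inr (.inl a)) j = qR δ s g j := by
  rcases j with i | a | b
  · rfl
  · rcases e with rfl | e
    · rfl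
    · simp only [qS, qR, e]
      rw [← H.hs.ff_neg]
      rfl
  · rfl

theorem dimsq : ∑ k : QL A B, qS δ s t (.inl 0) k ^ 2 = (2 * A.card + 1) * (δ + 2) ^ 2 := by
  simp [Fintype.sum_sum_type, qS, H.cB]
  linear_combination 2 * H.hδ

theorem real (hd : (starRingEnd ℂ) δ = δ) (k j : QL A B) :
    (starRingEnd ℂ) (qS δ s t k j) = qS δ s t k j := by
  have h1 := H.hs.ff_conj
  have h2 := H.ht.ff_conj
  unfold ff at h1 h2
  rcases k with i | a | b <;> rcases j with i | a | b <;>
    simp only [qS, map_mul, h1, h2, map_neg, apply_ite (starRingEnd ℂ), map_add _ δ, hd, map_one,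
      map_ofNat, map_zero]

theorem irr {a b : ℕ} (h : (a : ℂ) + b * δ = 0) : a = 0 ∧ b = 0 := by
  have hb : b = 0 := by
    by_contra hb
    obtain ⟨n, hn⟩ : ∃ n : ℕ, n = 2 * A.card + 1 := ⟨_, rfl⟩
    have hq : δ ^ 2 = n * (δ + 1) := by rw [hn]; push_cast; exact H.hδ
    have h2 : ((2 * a + n * b : ℕ) : ℂ) ^ 2 = ((n ^ 2 + 4 * n : ℕ) : ℂ) * (b : ℂ) ^ 2 := by
      push_cast
      linear_combination (4 * (a - b * δ) + 4 * n * b) * h + 4 * b ^ 2 * hq
    have h3 : ((2 * a + n * b : ℕ) : ℚ) ^ 2 = ((n ^ 2 + 4 * n : ℕ) : ℚ) * (b : ℚ) ^ 2 := by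
      exact_mod_cast h2
    have h4 : (b : ℚ) ≠ 0 := Nat.cast_ne_zero.2 hb
    have h5 : IsSquare ((n ^ 2 + 4 * n : ℕ) : ℚ) := ⟨((2 * a + n * b : ℕ) : ℚ) / b, by
      field_simp; rw [h3]⟩
    obtain ⟨r, hr⟩ := Rat.isSquare_natCast_iff.1 h5
    have h6 : n + 1 < r := Nat.mul_self_lt_mul_self_iff.1 (by nlinarith)
    have h7 : r < n + 2 := Nat.mul_self_lt_mul_self_iff.1 (by nlinarith)
    omega
  rw [hb] at h
  exact ⟨by simpa using h, hb⟩

end Qd

end Pool.Agent.Lib.MP_edb142_al
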