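import Pool.Agent.Lib.MP_edb142_al.H.NDefs
import Pool.Agent.Lib.MP_edb142_al.H.QD1

set_option linter.unusedSectionVars false

namespace Pool.Agent.Lib.MP_edb142_al

variable {G B : Type} [AddCommGroup G] [Fintype G] [Fintype B] [DecidableEq G] [DecidableEq B]
  {A : Finset G}

/-- the row attached to an element of `G` -/
noncomputable def nR (δ : ℂ) (s : G → ℂ) (g : G) : NL A B → ℂ
  | .inl _ => δ + 2
  | .inr (.inl a) => (δ + 2) * ff s g a
  | .inr (.inr _) => 0

/-- the hypotheses on the numerical data -/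
structure Nd (A : Finset G) (δ : ℂ) (s : G → ℂ) (σ : B → B → ℝ) : Prop where
  hs : IsMetric s
  hA : IsHalf A
  cB : Fintype.card B = A.card + 2
  sB : ∀ c, ∑ b, (σ b c : ℂ) = δ
  hδ : δ ^ 2 = (2 * A.card + 1) * (δ + 1)

namespace Nd

variable {δ : ℂ} {s : G → ℂ} {σ : B → B → ℝ} (H : Nd A δ s σ)
include H

theorem col (ε : ℂ) (j : NL A B) :
    ∑ k : NL A B, Sum.elim (fun _ => 1) (Sum.elim (fun _ => 1) fun _ => ε) k * nS δ s σ k j =
      Sum.elim (fun i => (A.card + 1) * (δ + 2) + (if i = 0 then 1 else -1) * ε * (A.card + 2) * δ)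
        (Sum.elim (fun _ => δ + 2) fun _ => ε * δ) j := by
  have h1 := fun a : A => H.hA.sum_ff H.hs (H.hA.ne a)
  have h2 := H.sB
  simp only [ff, Finset.univ_eq_attach] at h1
  rcases j with i | a | b
  · fin_cases i <;> simp [Fintype.sum_sum_type, nS, H.cB] <;> ring
  · simp [Fintype.sum_sum_type, nS, ← Finset.mul_sum, h1]
    ring
  · simp [Fintype.sum_sum_type, nS, ← Finset.mul_sum, h2, -Complex.ofReal_sum]

theorem col1 (j : NL A B) : ∑ k : NL A B, nS δ s σ k j =
    Sum.elim (fun i => (A.card + 1) * (δ + 2) + (if i = 0 then 1 else -1) * (A.card + 2) * δ)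
      (Sum.elim (fun _ => δ + 2) fun _ => δ) j := by
  have := H.col 1 j
  simp only [mul_one, one_mul] at this
  rw [← this]
  refine Finset.sum_congr rfl fun k _ => ?_
  rcases k with i | a | b <;> simp

theorem v00 (j : NL A B) : nS δ s σ (.inl 0) j * nS δ s σ (.inl 0) j = nS δ s σ (.inl 1) j *
    ∑ k : NL A B, Sum.elim (fun _ => 1) (Sum.elim (fun _ => 1) fun _ => -1) k * nS δ s σ k j := by
  rw [H.col]
  rcases j with i | a | b
  · fin_cases i <;> simp [nS]
    · linear_combination H.hδ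
    · linear_combination H.hδ
  · simp [nS]
  · simp [nS]

theorem vxx (j : NL A B) : nS δ s σ (.inl 1) j * nS δ s σ (.inl 1) j =
    nS δ s σ (.inl 0) j * ∑ k : NL A B, nS δ s σ k j := by
  rw [H.col1]
  rcases j with i | a | b
  · fin_cases i <;> simp [nS]
    · linear_combination H.hδ
    · linear_combination H.hδ
  · simp [nS]
  · simp [nS]

theorem vdx (b : B) (j : NL A B) : nS δ s σ (.inr (.inr b)) j * nS δ s σ (.inl 1) j =
    nS δ s σ (.inl 0) j * (∑ k : NL A B, nS δ s σ k j - nS δ s σ (.inl 0) j -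
      nS δ s σ (.inr (.inr b)) j) := by
  rw [H.col1]
  rcases j with i | a | b
  · fin_cases i <;> simp [nS]
    · linear_combination H.hδ
    · linear_combination H.hδ
  · simp [nS]
  · simp [nS]
    ring

theorem vcx (a : A) (j : NL A B) : nS δ s σ (.inr (.inl a)) j * nS δ s σ (.inl 1) j =
    nS δ s σ (.inl 0) j * (∑ k : NL A B, nS δ s σ k j - nS δ s σ (.inl 0) j +
      nS δ s σ (.inr (.inl a)) j) := by
  rw [H.col1]
  rcases j with i | a | b
  · fin_cases i <;> simp [nS]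
    · linear_combination H.hδ
    · linear_combination H.hδ
  · simp [nS]
    ring
  · simp [nS]

theorem vcc (b : B) (g g' : G) (j : NL A B) : nR δ s g j * nR δ s g' j =
    nS δ s σ (.inr (.inr b)) j * nR δ s g' j +
      nS δ s σ (.inl 0) j * (nR δ s (g + g') j + nR δ s (g - g') j) := by
  rcases j with i | a | b
  · fin_cases i <;> simp [nS, nR] <;> ring
  · simp only [nS, nR]
    linear_combination (δ + 2) ^ 2 * H.hs.ff_mul g g' a
  · simp [nS, nR]

theorem nR_zero (j : NL A B) : nR δ s 0 j = nS δ s σ (.inl 0) j + nS δ s σ (.inl 1) j := by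
  rcases j with i | a | b
  · fin_cases i <;> simp [nS, nR] <;> ring
  · simp only [nS, nR, H.hs.ff_zero]
    ring
  · simp [nS, nR]

theorem nR_eq (a : A) {g : G} (e : (a : G) = g ∨ (a : G) = -g) (j : NL A B) :
    nS δ s σ (.inr (.inl a)) j = nR δ s g j := by
  rcases j with i | a | b
  · rfl
  · rcases e with rfl | e
    · rfl
    · simp only [nS, nR, e]
      rw [← H.hs.ff_neg]
      rfl
  · rfl

theorem dimsq : ∑ k : NL A B, nS δ s σ (.inl 0) k ^ 2 = (2 * A.card + 1) * (δ + 2) ^ 2 := by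
  simp [Fintype.sum_sum_type, nS, H.cB]
  linear_combination 2 * H.hδ

theorem real (hd : (starRingEnd ℂ) δ = δ) (k j : NL A B) :
    (starRingEnd ℂ) (nS δ s σ k j) = nS δ s σ k j := by
  have h1 := H.hs.ff_conj
  have h2 := Complex.conj_ofReal
  unfold ff at h1
  rcases k with i | a | b <;> rcases j with i | a | b <;>
    simp only [nS, map_mul, h1, h2, map_neg, apply_ite (starRingEnd ℂ), map_add _ δ, hd, map_one,
      map_ofNat, map_zero]

theorem irr {a b : ℕ} (h : (a : ℂ) + b * δ = 0) : a = 0 ∧ b = 0 := by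
  have hb : b = 0 := by
    by_contra hb
    obtain ⟨n, hn⟩ : ∃ n : ℕ, n = 2 * A.card + 1 := ⟨_, rfl⟩
    have hq : δ ^ 2 = n * (δ + 1) := by rw [hn]; push_cast; exact H.hδ
    have h2 : ((2 * a + n * b : ℕ) : ℂ) ^ 2 = ((n ^ 2 + 4 * n : ℕ) : ℂ) * (b : ℂ) ^ 2 := by
      push_cast
      linear_combination (4 * (a - b * δ) + 4 * n * b) * h + 4 * b ^ 2 * hq
    have h3 : ((2 * a + n * b : ℕ) : ℚ) ^ 2 = ((n ^ 2 + 4 * n : ℕ) : ℚ) * (b : ℚ) ^ 2 := by
      exact_mod_cast h2
    have h4 : (b : ℚ) ≠ 0 := Nat.cast_ne_zero.2 hb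
    have h5 : IsSquare ((n ^ 2 + 4 * n : ℕ) : ℚ) := ⟨((2 * a + n * b : ℕ) : ℚ) / b, by
      field_simp; rw [h3]⟩
    obtain ⟨r, hr⟩ := Rat.isSquare_natCast_iff.1 h5
    have h6 : n + 1 < r := Nat.mul_self_lt_mul_self_iff.1 (by nlinarith)
    have h7 : r < n + 2 := Nat.mul_self_lt_mul_self_iff.1 (by nlinarith)
    omega
  rw [hb] at h
  exact ⟨by simpa using h, hb⟩

end Nd

end Pool.Agent.Lib.MP_edb142_al
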