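import Pool.Agent.Lib.MP_edb142_al.H.QL
import Pool.Agent.Lib.MP_edb142_al.H.N2

open CategoryTheory MonoidalCategory Limits BraidedCategory Module

set_option linter.unusedSectionVars false

namespace Pool.Agent.Lib.MP_edb142_al

universe v u

variable {G B P : Type} [AddCommGroup G] [AddCommGroup P] [Fintype G] [Fintype B]
  [Fintype P] [DecidableEq G] [DecidableEq B] [DecidableEq P]
  {C : Type u} [Category.{v} C] [Preadditive C] [Linear ℂ C] [MonoidalCategory C]
  [MonoidalPreadditive C] [MonoidalLinear ℂ C] [HasFiniteBiproducts C] [BraidedCategory C]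
  [RigidCategory C] {A : Finset G}

namespace Shape
variable {M : Modular C (NL A B × P)} {δ : ℂ} {s : G → ℂ} {σ : B → B → ℝ} {τ : B → ℂ} {p : P → ℂ}
  (H : Shape M δ s σ τ p)
include H

open K3 in
theorem centre_of_etale (Λ : AddSubgroup (G × P)) (hΛ : ∀ l ∈ Λ, s l.1 * p l.2 = 1)
    (hc : Nat.card Λ ^ 2 = Fintype.card G * Fintype.card P) {L : C} (E : Etale M L)
    (hL : ∀ k, finrank ℂ (M.X k ⟶ L) = if k = M.o ∨ k = (.inl 1, 0) then 1 else 0) :
    IsCentre C := by
  have h := E.ifc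
  obtain ⟨b⟩ : Nonempty B := Fintype.card_pos_iff.1 (by rw [H.cardB]; omega)
  have hG : Odd (Fintype.card G) := ⟨_, H.hA.card⟩
  obtain ⟨Q, hQ, rQ⟩ := h.family M hG (.inl 1, 0) (.inr (.inr b), 0) (fun g => (ncl A B g, 0)) hL
    (by rw [H.o_eq]; simp) (fun g g' hg hg' => by simp [H.cl_eq g g' hg hg'])
    (fun g hg => by
      obtain ⟨a, ha, -⟩ := H.cl_ex g hg
      simp [H.o_eq, ha])
    (by simp [H.Ndx])
    (fun g hg => by
      obtain ⟨a, ha, -⟩ := H.cl_ex g hg
      simp [H.Ndx, ha]) (H.Ncx b) (H.Ncc b)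
  let U : P → AM E := fun q => E.F.obj (M.X (.inl 0, q))
  have mU : ∀ q r, Nonempty (U q ⊗ U r ≅ U (q + r)) := fun q r =>
    ⟨Functor.Monoidal.μIso E.F _ _ ≪≫ E.F.mapIso (M.ss.iso_of_finrank fun k =>
      (H.shift q (.inl 0, r) k).trans (rank_X M k _).symm).some⟩
  have rk' : ∀ g q k, rk M E.F k (U q ⊗ Q g) =
      if g = 0 then (if k = (.inl 0, q) ∨ k = (.inl 1, q) then 1 else 0)
      else if k = (ncl A B g, q) then 1 else 0 := fun g q k => by
    rw [QP.rk_tens M h, Finset.sum_eq_single (k.1, k.2 - q)]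
    · simp [H.shift, rQ, mult, H.o_eq, Prod.ext_iff, sub_eq_zero]
    · intro l _ hl
      rw [H.shift, if_neg, mul_zero]
      rintro rfl
      simp at hl
    · simp
  have : Fintype Λ := Fintype.ofFinite _
  rw [Nat.card_eq_fintype_card] at hc
  have dm : ∀ g q, ∑ k, (rk M E.F k (U q ⊗ Q g) : ℂ) * M.dim k = δ + 2 := fun g q => by
    simp only [rk']
    split_ifs with hg
    · rw [Finset.sum_eq_add (.inl 0, q) (.inl 1, q) (by simp) (fun k _ hk => by simp [hk])
        (by simp) (by simp)]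
      simp [H.dim_eq, nS]
      ring
    · obtain ⟨a, ha, -⟩ := H.cl_ex g hg
      simp [H.dim_eq, nS, ha]
  have ds : ∑ a : Λ, ∑ k, (rk M E.F k (U a.1.2 ⊗ Q a.1.1) : ℂ) * M.dim k =
      Fintype.card Λ * (δ + 2) := by
    simp only [dm, Finset.sum_const, Finset.card_univ, nsmul_eq_mul]
  obtain ⟨L', ⟨E'⟩, hL'⟩ := h.extend M (Λ := Λ)
    ((Nat.odd_pow_iff two_ne_zero).1 (hc ▸ hG.mul H.hP)) (fun l => U l.1.2 ⊗ Q l.1.1)
    (QP.fam E.sim_unit
      ⟨(λ_ _).symm ≪≫ ((Functor.Monoidal.εIso E.F ≪≫ E.F.mapIso (M.unit_iso.some ≪≫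
        eqToIso (congrArg M.X H.o_eq))) ⊗ᵢ hQ.unit.some)⟩
      (fun a a' => ⟨α_ _ _ _ ≪≫ whiskerLeftIso _ ((α_ _ _ _).symm ≪≫
        whiskerRightIso (QP.swap h _ _).some.symm _ ≪≫ α_ _ _ _) ≪≫ (α_ _ _ _).symm ≪≫
        ((mU _ _).some ⊗ᵢ (hQ.mul _ _).some)⟩)
      fun a ha => h.zero_of_rank (by
        rw [rank_unit (F := E.F) M, rk', H.o_eq]
        by_cases hg : a.1.1 = 0
        · have : (0 : P) ≠ a.1.2 := fun e => ha (Subtype.ext (Prod.ext hg e.symm))
          simp [hg, this]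
        · obtain ⟨c, hc, -⟩ := H.cl_ex _ hg
          simp [hg, hc]) M)
    (fun a k hk => by
      rw [rk'] at hk
      rw [H.T, ← hΛ a a.2]
      by_cases hg : a.1.1 = 0
      · rw [if_pos hg] at hk
        rw [hg, QP.zero H.hs]
        rcases (ite_ne_right_iff.1 hk).1 with rfl | rfl <;> rfl
      · rw [if_neg hg] at hk
        obtain ⟨c, hc, e⟩ := H.cl_ex _ hg
        rw [(ite_ne_right_iff.1 hk).1, hc]
        change s c * _ = _
        rcases e with e | e <;> simp [e, H.hs.even])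
    (ds ▸ mul_ne_zero (Nat.cast_ne_zero.2 Fintype.card_ne_zero) H.ne2)
  refine Etale.isCentre M E' H.pos ?_
  rw [hL', ds, H.dimsq, ← Nat.cast_mul, ← hc, mul_pow, Nat.cast_pow]

end Shape

theorem shape_reindex {I : Type} [Fintype I] [DecidableEq I] (M : Modular C I) (e : I ≃ NL A B × P)
    {δ : ℂ} {s : G → ℂ} {σ : B → B → ℝ} {τ : B → ℂ} {p : P → ℂ} (hs : IsMetric s)
    (hp : IsMetric p) (hA : IsHalf A) (hP : Odd (Fintype.card P)) (hδ : δ ^ 2 = Fintype.card G * (δ + 1))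
    (h₁ : ∀ i j, M.S i j = nS δ s σ (e i).1 (e j).1 * pol p (e i).2 (e j).2)
    (h₂ : ∀ i, M.T i = nT s τ (e i).1 * p (e i).2) :
    ∃ M' : Modular C (NL A B × P), Shape M' δ s σ τ p := by
  refine ⟨{ X := fun k => M.X (e.symm k)
            o := e M.o
            unit_iso := by
              rw [e.symm_apply_apply]
              exact M.unit_iso
            end_one := fun k => M.end_one _
            hom_zero := fun k l h => M.hom_zero _ _ fun h' => h (e.symm.injective h')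
            decomp := fun Y => by
              obtain ⟨n, t, ⟨φ⟩⟩ := M.decomp Y
              exact ⟨n, fun a => e (t a), ⟨φ ≪≫ biproduct.mapIso fun a =>
                eqToIso (congrArg M.X (e.symm_apply_apply (t a)).symm)⟩⟩
            θ := M.θ
            θ_tensor := M.θ_tensor
            θ_dual := M.θ_dual
            S := M.S.submatrix e.symm e.symm
            T := fun k => M.T (e.symm k)
            S_eq := fun k l => M.S_eq _ _
            T_eq := fun k => M.T_eq _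
            S_det := by
              rw [Matrix.det_submatrix_equiv_self]
              exact M.S_det }, hs, hp, hA, hP, hδ, fun k l => ?_, fun k => ?_⟩
  · change M.S (e.symm k) (e.symm l) = _
    rw [h₁, e.apply_symm_apply, e.apply_symm_apply]
  · change M.T (e.symm k) = _
    rw [h₂, e.apply_symm_apply]

variable {M : Modular C (NL A B × P)} {δ : ℂ} {s : G → ℂ} {σ : B → B → ℝ} {τ : B → ℂ}
  {p : P → ℂ}

theorem Shape.lagrangian (H : Shape M δ s σ τ p) (hC : IsCentre C) : ∃ Λ : AddSubgroup (G × P),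
    (∀ l ∈ Λ, s l.1 * p l.2 = 1) ∧ Nat.card Λ ^ 2 = Fintype.card G * Fintype.card P := by
  obtain ⟨E, _, _, _, _, _, _, _, _, J, _, ⟨Φ⟩, ⟨K⟩⟩ := hC
  obtain ⟨w, c, h1, -, h3, h4⟩ := K.cf.lagr M Φ
  have hm := H.hs.prod H.hp
  have ho : Odd (Fintype.card (G × P)) := by
    rw [Fintype.card_prod, H.hA.card]
    exact (odd_two_mul_add_one _).mul H.hP
  have t0 : ∀ i q, w (.inl i, q) ≠ 0 → s 0 * p q = 1 := fun i q e =>
    hm.one_of_sq ho (a := (0, q)) (by simpa [H.T, nT, H.hs.zero] using (h3 _ e).1)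
  have tc : ∀ g q, g ≠ 0 → M.T (ncl A B g, q) = s g * p q := fun g q hg => by
    obtain ⟨a, a1, a2 | a2⟩ := H.cl_ex g hg
    · rw [H.T, a1, ← a2]; rfl
    · rw [H.T, a1, ← H.hs.even g, ← a2]; rfl
  have t1 : ∀ g q, g ≠ 0 → w (ncl A B g, q) ≠ 0 → s g * p q = 1 := fun g q hg e =>
    hm.one_of_sq ho (a := (g, q)) (by simpa only [tc g q hg] using (h3 _ e).1)
  have u0 : ∀ i q, M.T (.inl i, q) * w (.inl i, q) = w (.inl i, q) := fun i q => by
    by_cases e : w (.inl i, q) = 0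
    · simp [e]
    · have := t0 i q e
      rw [H.hs.zero, one_mul] at this
      simp [H.T, nT, this]
  have u1 : ∀ g q, g ≠ 0 → M.T (ncl A B g, q) * w (ncl A B g, q) = w (ncl A B g, q) :=
    fun g q hg => by
      by_cases e : w (ncl A B g, q) = 0
      · simp [e]
      · rw [tc g q hg, t1 g q hg e, one_mul]
  have ca : ∀ a : A, ncl A B (a : G) = .inr (.inl a) := fun a => dif_pos a.2
  have cn : ∀ a : A, ncl A B (-(a : G)) = .inr (.inl a) := fun a => by
    rw [← ca]
    exact (H.cl_eq _ _ (neg_ne_zero.2 (H.hA.ne a)) (H.hA.ne a)).2 (Or.inr rfl)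
  let W : G × P → ℕ := fun l =>
    if l.1 = 0 then w (.inl 0, l.2) + w (.inl 1, l.2) else w (ncl A B l.1, l.2)
  have key : ∀ b : G × P, ∑ k : NL A B × P, nR δ s b.1 k.1 * pol p b.2 k.2 * (M.T k * w k) =
      (δ + 2) * ∑ a, pol (fun l : G × P => s l.1 * p l.2) a b * W a := fun b => by
    rw [Fintype.sum_prod_type_right, Fintype.sum_prod_type_right, Finset.mul_sum]
    refine Finset.sum_congr rfl fun q _ => ?_
    rw [H.hA.sum, Fintype.sum_sum_type, Fintype.sum_sum_type, Fin.sum_univ_two, u0, u0, mul_add,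
      Finset.mul_sum]
    simp only [nR, zero_mul, Finset.sum_const_zero, add_zero, pol_prod, H.hs.zero_left, W,
      if_true, pol_comm p q]
    congr 1
    · push_cast; ring
    · refine Finset.sum_congr rfl fun a _ => ?_
      rw [if_neg (H.hA.ne a), if_neg (neg_ne_zero.2 (H.hA.ne a)), cn, ← ca, u1 _ _ (H.hA.ne a),
        H.hs.neg_left, ff, pol_comm s b.1]
      ring
  obtain ⟨Λ, a1, a2⟩ := hm.lagrangian W (by simp [W, ← H.o_eq, h1]) (fun l e => by
    by_cases hl : l.1 = 0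
    · rw [hl]
      simp only [W, if_pos hl] at e
      by_cases e0 : w (.inl 0, l.2) = 0
      · exact t0 1 _ (by omega)
      · exact t0 0 _ e0
    · exact t1 _ _ hl (by simpa only [W, if_neg hl] using e)) (c / (δ + 2)) fun b => by
      rw [div_mul_eq_mul_div, eq_div_iff H.ne2, mul_comm, ← key]
      by_cases hb : b.1 = 0
      · simp only [W, if_pos hb]
        push_cast
        rw [mul_add, ← u0 0, ← u0 1, ← h4, ← h4, ← Finset.sum_add_distrib, hb]
        refine Finset.sum_congr rfl fun k _ => ?_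
        rw [H.qd.nR_zero, H.S, H.S]; ring
      · simp only [W, if_neg hb]
        rw [← u1 _ _ hb, ← h4]
        refine Finset.sum_congr rfl fun k _ => ?_
        rw [← H.S_cl _ hb k, H.S0, H.S]
  exact ⟨Λ, a1, by rw [a2, Fintype.card_prod]⟩

theorem Shape.etale (H : Shape M δ s σ τ p) (Dg : Dagger C) : ∃ L : C, Nonempty (Etale M L) ∧
    ∀ k, Module.finrank ℂ (M.X k ⟶ L) = if k = M.o ∨ k = (.inl 1, 0) then 1 else 0 := by
  let ec : A ↪ NL A B × P := ⟨fun a => (.inr (.inl a), 0), fun a b h => by simpa using h⟩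
  let ed : B ↪ NL A B × P := ⟨fun a => (.inr (.inr a), 0), fun a b h => by simpa using h⟩
  have e1 : ∀ a, ec a = (.inr (.inl a), 0) := fun _ => rfl
  have e2 : ∀ a, ed a = (.inr (.inr a), 0) := fun _ => rfl
  have hxo : ((.inl 1, 0) : NL A B × P) ≠ M.o := by rw [H.o_eq]; simp
  have hT : M.T (.inl 1, 0) = 1 := by rw [H.T, H.hp.zero]; simp [nT]
  have hs : ∀ k : NL A B × P, k ∈ insert M.o (insert (.inl 1, 0)
      (Finset.univ.map ec ∪ Finset.univ.map ed)) ↔ k.2 = 0 := by
    rintro ⟨i | a | b, q⟩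
    · rw [H.o_eq]; fin_cases i <;> simp [e1, e2]
    · rw [H.o_eq]; simp [e1, e2, eq_comm]
    · rw [H.o_eq]; simp [e1, e2, eq_comm]
  have hδ := H.hδ
  obtain ⟨T⟩ := M.triAlg_of Dg (.inl 1, 0) (Finset.univ.map ec) (Finset.univ.map ed) δ hxo hT
    (by rw [H.o_eq]; simp [e1]) (by rw [H.o_eq]; simp [e2]) (by simp [e1]) (by simp [e2])
    (by simp [Finset.disjoint_left, e1, e2]) _ rfl (fun k => by simp only [hs, H.Nxx])
    (fun k hk l _ h => H.selfdual k l ((hs k).1 hk) h)
    (by rw [hδ, H.hA.card]; simp) (by simp [H.cardB]) (by rw [H.dim_eq]; simp [nS])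
    (fun k hk => by
      obtain ⟨a, -, rfl⟩ := Finset.mem_map.1 hk
      rw [H.dim_eq]; rfl)
    (fun k hk => by
      obtain ⟨a, -, rfl⟩ := Finset.mem_map.1 hk
      rw [H.dim_eq]; rfl)
    (fun k hk => by
      obtain ⟨a, -, rfl⟩ := Finset.mem_map.1 hk
      rw [M.N_swap]
      exact (H.Ndx a _).trans (if_neg fun h => h.2.2 rfl))
    (fun f h0 h1 h2 k hk => by
      obtain ⟨a, -, rfl⟩ := Finset.mem_map.1 hk
      exact H.van f (fun k hk => h0 k fun e => hk ((hs k).1 e)) (H.o_eq ▸ h1)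
        (fun b => h2 _ (Finset.mem_map_of_mem ed (Finset.mem_univ b))) a)
  refine T.etale M _ hxo hT (inv_ne_zero fun h => ?_) fun h => H.ne2 ?_
  · rw [h, H.hA.card] at hδ
    have : ((2 * A.card + 1 : ℕ) : ℂ) = 0 := by linear_combination -hδ
    exact Nat.succ_ne_zero _ (Nat.cast_eq_zero.1 this)
  · rw [H.dim_eq] at h
    simp only [nS] at h
    rw [if_neg (by decide)] at h
    linear_combination h

theorem Shape.centre (H : Shape M δ s σ τ p) (Dg : Dagger C) (Λ : AddSubgroup (G × P))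
    (hΛ : ∀ l ∈ Λ, s l.1 * p l.2 = 1) (hc : Nat.card Λ ^ 2 = Fintype.card G * Fintype.card P) :
    IsCentre C := by
  obtain ⟨L, ⟨E⟩, hL⟩ := H.etale Dg
  exact H.centre_of_etale Λ hΛ hc E hL

end Pool.Agent.Lib.MP_edb142_al
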