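import Pool.Agent.Lib.MP_edb142_al.H.QDefs

namespace Pool.Agent.Lib.MP_edb142_al

variable {G B : Type} [AddCommGroup G] {A : Finset G}

/-- Labels: two distinguished ones, the pairs `±g` in `G` and an arbitrary set `B`. -/
abbrev NL (A : Finset G) (B : Type) : Type := Fin 2 ⊕ A ⊕ B

/-- The block shape of the `S`-matrix: a quadratic form `s` on `G` and an arbitrary real block `σ`
on `B`. -/
noncomputable def nS (δ : ℂ) (s : G → ℂ) (σ : B → B → ℝ) : NL A B → NL A B → ℂ
  | .inl i, .inl j => if i = j then 1 else δ + 1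
  | .inl _, .inr (.inl _) => δ + 2
  | .inr (.inl _), .inl _ => δ + 2
  | .inl i, .inr (.inr _) => if i = 0 then δ else -δ
  | .inr (.inr _), .inl j => if j = 0 then δ else -δ
  | .inr (.inl g), .inr (.inl h) => (δ + 2) * (pol s g h + (pol s g h)⁻¹)
  | .inr (.inl _), .inr (.inr _) => 0
  | .inr (.inr _), .inr (.inl _) => 0
  | .inr (.inr b), .inr (.inr c) => σ b c

/-- The twists: trivial on the distinguished labels, `s` on the pairs, arbitrary on `B`. -/
noncomputable def nT (s : G → ℂ) (τ : B → ℂ) : NL A B → ℂ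
  | .inl _ => 1
  | .inr (.inl g) => s g
  | .inr (.inr b) => τ b

end Pool.Agent.Lib.MP_edb142_al
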