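import Pool.Agent.Lib.MP_edb142_al.H.QDefs
import Pool.Agent.Lib.MP_edb142_al.H.K3
import Pool.Agent.Lib.MP_edb142_al.H.B0

open CategoryTheory MonoidalCategory Limits

namespace Pool.Agent.Lib.MP_edb142_al

universe v u v' u'

/-- equality up to sign -/
def PM {G : Type} [AddCommGroup G] (g h : G) : Prop := g = h ∨ g = -h

/-- a family of invertible simple objects that follows the group law of `Λ` -/
structure Fam {D : Type u'} [Category.{v'} D] [Preadditive D] [Linear ℂ D] [MonoidalCategory D]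
    {Λ : Type} [AddCommGroup Λ] (Q : Λ → D) : Prop where
  sim : ∀ a, Sim (Q a)
  zero : ∀ a b, a ≠ b → ∀ f : Q a ⟶ Q b, f = 0
  unit : Nonempty (𝟙_ D ≅ Q 0)
  mul : ∀ a b, Nonempty (Q a ⊗ Q b ≅ Q (a + b))

/-- a commutative graded algebra with invertible multiplication maps -/
structure GrAlg {S : Type u'} [Category.{v'} S] [MonoidalCategory S] [BraidedCategory S]
    {Λ : Type} [AddCommGroup Λ] (Q : Λ → S) where
  u : 𝟙_ S ≅ Q 0
  μ : ∀ a b c, a + b = c → (Q a ⊗ Q b ≅ Q c)
  one : ∀ a, u.hom ▷ Q a ≫ (μ 0 a a (zero_add a)).hom = (λ_ (Q a)).hom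
  assoc : ∀ a b c d e f (h1 : a + b = d) (h2 : d + c = f) (h3 : b + c = e) (h4 : a + e = f),
    (μ a b d h1).hom ▷ Q c ≫ (μ d c f h2).hom =
      (α_ (Q a) (Q b) (Q c)).hom ≫ Q a ◁ (μ b c e h3).hom ≫ (μ a e f h4).hom
  comm : ∀ a b c (h : a + b = c) (h' : b + a = c),
    (β_ (Q a) (Q b)).hom ≫ (μ b a c h').hom = (μ a b c h).hom

/-- the multiplicities of the invertible module attached to `g` -/
def mult {I G : Type} [DecidableEq I] [Zero G] [DecidableEq G] (o x : I) (c : G → I) (g : G)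
    (k : I) : ℕ :=
  if g = 0 then (if k = o ∨ k = x then 1 else 0) else if k = c g then 1 else 0

variable {G Γ P : Type} [AddCommGroup G] [AddCommGroup Γ] [AddCommGroup P] [Fintype G] [Fintype Γ]
  [Fintype P] [DecidableEq G] [DecidableEq Γ] [DecidableEq P]

/-- the label of the pair `±g` -/
def cl (A : Finset G) (B : Finset Γ) (g : G) : QL A B :=
  if h : g ∈ A then .inr (.inl ⟨g, h⟩) else if h : -g ∈ A then .inr (.inl ⟨-g, h⟩) else .inl 0

variable {C : Type u} [Category.{v} C] [Preadditive C] [Linear ℂ C] [MonoidalCategory C]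
  [MonoidalPreadditive C] [MonoidalLinear ℂ C] [HasFiniteBiproducts C] [BraidedCategory C]
  [RigidCategory C]

/-- the modular data of `M` are the Evans-Gannon data times a pointed factor -/
structure Quad {A : Finset G} {B : Finset Γ} (M : Modular C (QL A B × P)) (δ : ℂ) (s : G → ℂ)
    (t : Γ → ℂ) (p : P → ℂ) : Prop where
  hs : IsMetric s
  ht : IsMetric t
  hp : IsMetric p
  hA : IsHalf A
  hB : IsHalf B
  hP : Odd (Fintype.card P)
  hΓ : Fintype.card Γ = Fintype.card G + 4
  hδ : δ ^ 2 = Fintype.card G * (δ + 1)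
  S : ∀ i j, M.S i j = qS δ s t i.1 j.1 * pol p i.2 j.2
  T : ∀ i, M.T i = qT s t i.1 * p i.2

end Pool.Agent.Lib.MP_edb142_al
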