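import Pool.Agent.Lib.MP_edb142_al.H.B3b
import Pool.Agent.Lib.MP_edb142_al.H.B2
import Pool.Agent.Lib.MP_edb142_al.H.Q0

open CategoryTheory MonoidalCategory Limits BraidedCategory

set_option linter.unusedSectionVars false

namespace Pool.Agent.Lib.MP_edb142_al

universe v u

variable {C : Type u} [Category.{v} C] [Preadditive C] [Linear ℂ C] [MonoidalCategory C]
  [MonoidalPreadditive C] [MonoidalLinear ℂ C] [HasFiniteBiproducts C] [BraidedCategory C]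
  [RigidCategory C] {I : Type} [Fintype I] [DecidableEq I]

/-- a multiplicity free decomposition with labels in `s` -/
structure Sq0 (M : Modular C I) (V : C) (s : Finset I) where
  e : ∀ k, M.X k ⟶ V
  f : ∀ k, V ⟶ M.X k
  ef : ∀ k ∈ s, e k ≫ f k = 𝟙 _
  tot : ∑ k ∈ s, f k ≫ e k = 𝟙 V

theorem Modular.exists_sq0 (M : Modular C I) {V : C} (s : Finset I)
    (h : ∀ k, Module.finrank ℂ (M.X k ⟶ V) = if k ∈ s then 1 else 0) : Nonempty (Sq0 M V s) := by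
  let φ := M.ss.fr V
  refine ⟨⟨fun k => ∑ a, φ.e k a, fun k => ∑ a, φ.f k a, fun k hk => ?_, ?_⟩⟩
  · obtain ⟨a, ha⟩ : ∃ a : φ.T k, ∀ b, b = a :=
      Fintype.card_eq_one_iff.1 (by rw [← φ.finrank_to M.ss, h, if_pos hk])
    rw [Finset.sum_eq_single a (fun b _ hb => absurd (ha b) hb) (by simp),
      Finset.sum_eq_single a (fun b _ hb => absurd (ha b) hb) (by simp), φ.ef]
  · rw [← φ.tot, ← Finset.sum_subset (Finset.subset_univ s) fun k _ hk => ?_]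
    · refine Finset.sum_congr rfl fun k hk => ?_
      obtain ⟨a, ha⟩ : ∃ a : φ.T k, ∀ b, b = a :=
        Fintype.card_eq_one_iff.1 (by rw [← φ.finrank_to M.ss, h, if_pos hk])
      rw [Finset.sum_eq_single a (fun b _ hb => absurd (ha b) hb) (by simp),
        Finset.sum_eq_single a (fun b _ hb => absurd (ha b) hb) (by simp),
        Finset.sum_eq_single a (fun b _ hb => absurd (ha b) hb) (by simp)]
    · have := Fintype.card_eq_zero_iff.1
        (show Fintype.card (φ.T k) = 0 by rw [← φ.finrank_to M.ss, h, if_neg hk])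
      simp

namespace Sq0
variable {M : Modular C I} {V : C} {s : Finset I} (Q : Sq0 M V s)

theorem to_eq {k : I} (hk : k ∈ s) (u : M.X k ⟶ V) : u = sc (u ≫ Q.f k) • Q.e k := by
  conv_lhs => rw [← Category.comp_id u, ← Q.tot, Preadditive.comp_sum]
  rw [Finset.sum_eq_single k (fun l _ hl => by
    rw [← Category.assoc, M.ss.zero k l (Ne.symm hl) (u ≫ Q.f l), zero_comp])
    (fun h => absurd hk h), ← Category.assoc]
  conv_lhs => rw [(M.ss.sim k).spec (u ≫ Q.f k)]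
  simp

theorem from_eq {k : I} (hk : k ∈ s) (w : V ⟶ M.X k) : w = sc (Q.e k ≫ w) • Q.f k := by
  conv_lhs => rw [← Category.id_comp w, ← Q.tot, Preadditive.sum_comp]
  rw [Finset.sum_eq_single k (fun l _ hl => by
    rw [Category.assoc, M.ss.zero l k hl (Q.e l ≫ w), comp_zero])
    (fun h => absurd hk h), Category.assoc]
  conv_lhs => rw [(M.ss.sim k).spec (Q.e k ≫ w)]
  simp

include Q in
theorem to_zero {k : I} (hk : k ∉ s) (u : M.X k ⟶ V) : u = 0 := by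
  rw [← Category.comp_id u, ← Q.tot, Preadditive.comp_sum]
  exact Finset.sum_eq_zero fun l hl => by
    rw [← Category.assoc, M.ss.zero k l (fun e => hk (e ▸ hl)) (u ≫ Q.f l), zero_comp]

theorem e_ne {k : I} (hk : k ∈ s) : Q.e k ≠ 0 := fun h =>
  (M.ss.sim k).ne (by rw [← Q.ef k hk, h, zero_comp])

noncomputable def Φ : (I → ℂ) →ₗ[ℂ] (V ⟶ V) where
  toFun a := ∑ k ∈ s, a k • (Q.f k ≫ Q.e k)
  map_add' a b := by simp [add_smul, Finset.sum_add_distrib]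
  map_smul' c a := by simp [Finset.smul_sum, smul_smul]

theorem Φ_def (a : I → ℂ) : Q.Φ a = ∑ k ∈ s, a k • (Q.f k ≫ Q.e k) := rfl

theorem Φ_to (a : I → ℂ) {k : I} (u : M.X k ⟶ V) : u ≫ Q.Φ a = a k • u := by
  by_cases hk : k ∈ s
  · rw [Φ_def, Preadditive.comp_sum, Finset.sum_eq_single k (fun l _ hl => by
      rw [Linear.comp_smul, ← Category.assoc, M.ss.zero k l (Ne.symm hl) (u ≫ Q.f l), zero_comp,
        smul_zero]) (fun h => absurd hk h), Linear.comp_smul, Q.to_eq hk u]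
    simp [reassoc_of% Q.ef k hk]
  · rw [Q.to_zero hk u]; simp

theorem Φ_from (a : I → ℂ) {k : I} (w : V ⟶ M.X k) : Q.Φ a ≫ w = a k • w := by
  refine M.ss.hom_ext fun l u => ?_
  rw [← Category.assoc, Φ_to, Linear.smul_comp, Linear.comp_smul]
  by_cases h : l = k
  · subst h; rfl
  · rw [M.ss.zero l k h (u ≫ w)]; simp

theorem Φ_unit (a : I → ℂ) (t : 𝟙_ C ⟶ V) : t ≫ Q.Φ a = a M.o • t := by
  obtain ⟨u⟩ := M.unit_iso
  rw [← cancel_epi u.inv, ← Category.assoc, Φ_to, Linear.comp_smul]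

theorem Φ_unit' (a : I → ℂ) (t : V ⟶ 𝟙_ C) : Q.Φ a ≫ t = a M.o • t := by
  obtain ⟨u⟩ := M.unit_iso
  rw [← cancel_mono u.hom, Category.assoc, Φ_from, Linear.smul_comp]

theorem Φ_mul (a b : I → ℂ) : Q.Φ (a * b) = Q.Φ b ≫ Q.Φ a :=
  M.ss.hom_ext fun k u => by
    rw [← Category.assoc, Φ_to, Φ_to, Φ_to, smul_smul]; rfl

theorem Φ_one : Q.Φ 1 = 𝟙 V := M.ss.hom_ext fun k u => by rw [Φ_to]; simp

theorem Φ_single {k : I} (hk : k ∈ s) : Q.Φ (Pi.single k 1) = Q.f k ≫ Q.e k := by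
  rw [Φ_def, Finset.sum_eq_single k (fun l _ hl => by simp [hl]) (fun h => absurd hk h)]; simp

theorem Φ_inj {a b : I → ℂ} (h : Q.Φ a = Q.Φ b) {k : I} (hk : k ∈ s) : a k = b k := by
  have := congrArg (fun g => Q.e k ≫ g) h
  simp only [Φ_to] at this
  exact smul_left_injective ℂ (Q.e_ne hk) this

theorem Φ_congr {a b : I → ℂ} (h : ∀ k ∈ s, a k = b k) : Q.Φ a = Q.Φ b :=
  Finset.sum_congr rfl fun k hk => by rw [h k hk]

theorem Φ_surj (g : V ⟶ V) : ∃ a, Q.Φ a = g := by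
  refine ⟨fun k => sc (Q.e k ≫ g ≫ Q.f k), M.ss.hom_ext fun k u => ?_⟩
  by_cases hk : k ∈ s
  · rw [Φ_to, Q.to_eq hk u, Linear.smul_comp, smul_comm]
    congr 1
    rw [Q.to_eq hk (Q.e k ≫ g), Category.assoc]
  · rw [Q.to_zero hk u]; simp

theorem Φ_trace (a : I → ℂ) (k : I) :
    LinearMap.trace ℂ _ (Linear.rightComp ℂ (M.X k) (Q.Φ a)) = if k ∈ s then a k else 0 := by
  split_ifs with hk
  · have h : Linear.rightComp ℂ (M.X k) (Q.Φ a) =
        ((M.ss.sim k).scL ∘ₗ Linear.rightComp ℂ _ (Q.f k)).smulRight (a k • Q.e k) := by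
      ext u
      rw [Linear.rightComp_apply, Φ_to]
      conv_lhs => rw [Q.to_eq hk u]
      rw [smul_comm]; rfl
    have := M.ss.finite (M.X k) V
    rw [h, LinearMap.trace_smulRight, map_smul]
    change a k • sc (Q.e k ≫ Q.f k) = _
    rw [Q.ef k hk, (M.ss.sim k).sc_id]; simp
  · have h : Linear.rightComp ℂ (M.X k) (Q.Φ a) = 0 := by
      ext u
      exact Q.to_zero hk _
    rw [h, map_zero]

theorem Φ_trL (a : I → ℂ) : M.trL V (Q.Φ a) = ∑ k ∈ s, M.dim k * a k := by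
  rw [Φ_def, map_sum]
  refine Finset.sum_congr rfl fun k hk => ?_
  rw [map_smul, M.trL_cyc, Q.ef k hk, smul_eq_mul, mul_comm]; rfl

include Q in
theorem star (hsd : ∀ k ∈ s, ∀ l ∈ s, k ≠ l → M.N k l M.o = 0) (g : V ⟶ V)
    (t : 𝟙_ C ⟶ V ⊗ V) : t ≫ g ▷ V = t ≫ V ◁ g := by
  obtain ⟨a, rfl⟩ := Q.Φ_surj g
  have z : ∀ k ∈ s, ∀ l ∈ s, k ≠ l → t ≫ ((Q.f k ≫ Q.e k) ⊗ₘ (Q.f l ≫ Q.e l)) = 0 :=
    fun k hk l hl h => by
      rw [← tensorHom_comp_tensorHom, ← Category.assoc, M.unit_zero (hsd k hk l hl h) (t ≫ _),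
        zero_comp]
  have h1 : ∀ k ∈ s, t ≫ (Q.f k ≫ Q.e k) ▷ V = t ≫ ((Q.f k ≫ Q.e k) ⊗ₘ (Q.f k ≫ Q.e k)) :=
    fun k hk => by
      rw [← tensorHom_id, ← Q.tot, tensor_sum, Preadditive.comp_sum,
        Finset.sum_eq_single k (fun l hl' hl => z k hk l hl' (Ne.symm hl)) (fun h => absurd hk h)]
  have h2 : ∀ k ∈ s, t ≫ V ◁ (Q.f k ≫ Q.e k) = t ≫ ((Q.f k ≫ Q.e k) ⊗ₘ (Q.f k ≫ Q.e k)) :=
    fun k hk => by
      rw [← id_tensorHom, ← Q.tot, sum_tensor, Preadditive.comp_sum,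
        Finset.sum_eq_single k (fun l hl' hl => z l hl' k hk hl) (fun h => absurd hk h)]
  rw [Φ_def, sum_whiskerRight, whiskerLeft_sum, Preadditive.comp_sum, Preadditive.comp_sum]
  refine Finset.sum_congr rfl fun k hk => ?_
  rw [MonoidalLinear.smul_whiskerRight, MonoidalLinear.whiskerLeft_smul, Linear.comp_smul,
    Linear.comp_smul, h1 k hk, h2 k hk]

theorem star3 (hsd : ∀ k ∈ s, ∀ l ∈ s, k ≠ l → M.N k l M.o = 0) (a : I → ℂ) {x : I} (hx : x ∈ s)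
    (t : V ⊗ M.X x ⟶ 𝟙_ C) : Q.Φ a ▷ M.X x ≫ t = a x • t := by
  refine Eq.trans ?_ (congrArg (fun s => a x • s) (?_ : (Q.f x ≫ Q.e x) ▷ M.X x ≫ t = t))
  · rw [Φ_def, sum_whiskerRight, Preadditive.sum_comp, Finset.sum_eq_single x (fun l hl' hl => by
      rw [MonoidalLinear.smul_whiskerRight, Linear.smul_comp, comp_whiskerRight, Category.assoc,
        M.unit_zero' (hsd l hl' x hx hl) (_ ≫ t), comp_zero, smul_zero]) (fun h => absurd hx h),
      MonoidalLinear.smul_whiskerRight, Linear.smul_comp]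
  · conv_rhs => rw [← Category.id_comp t, ← id_whiskerRight, ← Q.tot, sum_whiskerRight,
      Preadditive.sum_comp]
    rw [Finset.sum_eq_single x (fun l hl' hl => by
      rw [comp_whiskerRight, Category.assoc, M.unit_zero' (hsd l hl' x hx hl) (_ ≫ t), comp_zero])
      (fun h => absurd hx h)]

theorem star3' (hsd : ∀ k ∈ s, ∀ l ∈ s, k ≠ l → M.N k l M.o = 0) (a : I → ℂ) {x : I} (hx : x ∈ s)
    (t : M.X x ⊗ V ⟶ 𝟙_ C) : M.X x ◁ Q.Φ a ≫ t = a x • t := by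
  rw [← cancel_epi (β_ V (M.X x)).hom, ← braiding_naturality_left_assoc, Q.star3 hsd a hx,
    Linear.comp_smul]

theorem dag_proj (Dg : Dagger C) {k : I} (hk : k ∈ s) :
    Dg.dag (Q.f k ≫ Q.e k) = Q.f k ≫ Q.e k := by
  have h1 := Dg.dag_comp (Q.e k) (Q.f k)
  rw [Q.ef k hk, Dg.dag_id] at h1
  rw [Dg.dag_comp]
  rw [Q.to_eq hk (Dg.dag (Q.f k)), Q.from_eq hk (Dg.dag (Q.e k))] at h1 ⊢
  simp only [Linear.smul_comp, Linear.comp_smul, smul_smul, Q.ef k hk] at h1 ⊢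
  rw [mul_comm, ← (M.ss.sim k).inj ((one_smul ℂ _).trans h1), one_smul]

theorem dag_Φ (Dg : Dagger C) (a : I → ℂ) :
    Dg.dag (Q.Φ a) = Q.Φ fun k => (starRingEnd ℂ) (a k) := by
  have h0 : Dg.dag (0 : V ⟶ V) = 0 := by simpa using Dg.dag_smul 0 (0 : V ⟶ V)
  let φ : (V ⟶ V) →+ (V ⟶ V) := ⟨⟨Dg.dag, h0⟩, Dg.dag_add⟩
  refine (map_sum φ _ _).trans (Finset.sum_congr rfl fun k hk => ?_)
  change Dg.dag _ = _
  rw [Dg.dag_smul, Q.dag_proj Dg hk]

end Sq0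

/-- a simple object with the unit in its square is self dual -/
theorem Modular.selfdu' (M : Modular C I) (x : I) (h1 : M.N x x M.o = 1) :
    Nonempty (Du (M.X x) (M.X x)) := by
  have key : ∀ k, Module.finrank ℂ (M.X k ⟶ (M.X x)ᘁ) = M.N x k M.o := fun k => by
    unfold Modular.N
    rw [← ((du (M.X x)).eqvL _ _).finrank_eq, M.ss.finrank_symm]
    exact (Linear.homCongr ℂ (whiskerLeftIso _ M.unit_iso.some.symm ≪≫ ρ_ _)
      (Iso.refl _)).finrank_eq.symm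
  have := M.ss.finite
  obtain ⟨f, hf⟩ := (Module.finrank_pos_iff_exists_ne_zero (R := ℂ) (M := M.X x ⟶ (M.X x)ᘁ)).1
    (by rw [key, h1]; exact one_pos)
  have sd : Sim ((M.X x)ᘁ) := by
    refine ⟨fun h => (M.ss.sim x).ne ((du (M.X x)).η_right_inj ?_), fun g => ?_⟩
    · rw [id_whiskerRight, ← MonoidalCategory.whiskerLeft_id, h]; simp
    · obtain ⟨c, hc⟩ := (M.ss.sim x).ex ((du (M.X x)).capR ((du (M.X x)).η ≫ M.X x ◁ g))
      refine ⟨c, (du (M.X x)).η_left_inj ?_⟩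
      rw [← (du (M.X x)).η_capR ((du (M.X x)).η ≫ M.X x ◁ g), hc]
      simp
  obtain ⟨g, hg⟩ := (M.ss.sim x).mono hf (M.ss.reg f)
  obtain ⟨g', hg'⟩ := sd.epi hf (M.ss.reg f)
  have hgf : g ≫ f = 𝟙 _ := by
    rw [← Category.id_comp (g ≫ f), ← hg', Category.assoc, reassoc_of% hg]
  exact ⟨(du (M.X x)).retract (𝟙 _) (𝟙 _) f g (by simp) (by simpa using hg) (by simp [hgf])⟩

end Pool.Agent.Lib.MP_edb142_al
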