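import Pool.Agent.Lib.MP_edb142_al.H.Q1

open CategoryTheory MonoidalCategory Limits BraidedCategory

set_option linter.unusedSectionVars false

namespace Pool.Agent.Lib.MP_edb142_al

universe v u

variable {C : Type u} [Category.{v} C] [Preadditive C] [Linear ℂ C] [MonoidalCategory C]
  [MonoidalPreadditive C] [MonoidalLinear ℂ C] [HasFiniteBiproducts C] [BraidedCategory C]
  [RigidCategory C] {I : Type} [Fintype I] [DecidableEq I]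

/-- a self dual simple object of trivial twist with multiplicity free square -/
structure Cx (M : Modular C I) (x : I) (s : Finset I) where
  Q : Sq0 M (M.X x ⊗ M.X x) s
  P : Du (M.X x) (M.X x)
  r : I → ℂ
  ho : M.o ∈ s
  hx : x ∈ s
  hxo : x ≠ M.o
  hT : M.T x = 1
  hsd : ∀ k ∈ s, ∀ l ∈ s, k ≠ l → M.N k l M.o = 0
  hr : Q.Φ r = (β_ (M.X x) (M.X x)).hom

namespace Cx
variable {M : Modular C I} {x : I} {s : Finset I} (K : Cx M x s)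

include K in
theorem tw1 : (M.tw.t (M.X x)).hom = 𝟙 _ := by rw [M.tw_X, K.hT, one_smul]

theorem η_ne : K.P.η ≠ 0 := fun h => (M.ss.sim x).ne (K.P.η_right_inj (by rw [h]; simp))

theorem r0 : K.r M.o = 1 := by
  have c1 : M.tw.co K.P = K.r M.o • K.P.η := by
    rw [M.tw.co_triv K.P K.tw1, ← K.hr, Sq0.Φ_unit]
  have c2 : M.tw.co (K.P.tensor K.P) = (K.r M.o * K.r M.o) • (K.P.tensor K.P).η := by
    rw [M.tw.co_tensor, c1, Du.tensor_η]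
    simp only [monoidalComp, MonoidalLinear.smul_whiskerRight, MonoidalLinear.whiskerLeft_smul,
      Linear.smul_comp, Linear.comp_smul, smul_smul]
    congr 1
    monoidal
  have h1 := M.tw.co_mate (K.P.tensor K.P) K.P (K.Q.f x)
  have h2 := (K.P.tensor K.P).mate_η K.P (K.Q.f x)
  obtain ⟨c, hc⟩ : ∃ c, c = (K.P.tensor K.P).mate K.P (K.Q.f x) := ⟨_, rfl⟩
  rw [← hc] at h1 h2
  have hb := (M.ss.sim x).spec (c ≫ K.Q.f x)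
  have b0 : sc (c ≫ K.Q.f x) ≠ 0 := fun h => by
    rw [K.Q.to_eq K.hx c, h, zero_smul] at h2
    have : K.Q.f x = 0 := (K.P.tensor K.P).η_right_inj (by rw [← h2]; simp)
    exact (M.ss.sim x).ne (by rw [← K.Q.ef x K.hx, this, comp_zero])
  have r1 : K.r M.o ≠ 0 := fun h => K.η_ne (by
    have := K.Q.Φ_unit K.r K.P.η
    rw [K.hr, h, zero_smul] at this
    rw [← cancel_mono (β_ (M.X x) (M.X x)).hom, this, zero_comp])
  have h3 := congrArg (· ≫ K.Q.f x ▷ M.X x) h1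
  simp only [c1, c2, Linear.smul_comp, Category.assoc] at h3
  rw [whisker_exchange, ← reassoc_of% h2, ← MonoidalCategory.whiskerLeft_comp,
    ← comp_whiskerRight, hb] at h3
  simp only [MonoidalLinear.smul_whiskerRight, MonoidalLinear.whiskerLeft_smul, Linear.comp_smul,
    id_whiskerRight, MonoidalCategory.whiskerLeft_id, Category.comp_id, smul_smul] at h3
  have h4 := smul_left_injective ℂ K.η_ne h3
  exact mul_left_cancel₀ r1 (mul_right_cancel₀ b0 (by simpa using h4))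

theorem rx2 : K.r x * K.r x = 1 := by
  have h1 := M.tw.nat (K.Q.e x)
  rw [M.tw.tens, K.tw1, id_tensorHom_id, Category.comp_id, Category.id_comp, ← K.hr,
    ← Category.assoc, Sq0.Φ_to, Sq0.Φ_to, smul_smul] at h1
  exact smul_left_injective ℂ (K.Q.e_ne K.hx) (h1.trans (one_smul ℂ _).symm)

theorem hη : K.P.η ≫ (β_ (M.X x) (M.X x)).hom = K.P.η := by
  rw [← K.hr, Sq0.Φ_unit, K.r0, one_smul]

theorem hε : (β_ (M.X x) (M.X x)).hom ≫ K.P.ε = K.P.ε := by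
  rw [← K.hr, Sq0.Φ_unit', K.r0, one_smul]

theorem co_eq : M.tw.co K.P = K.P.η := by rw [M.tw.co_triv K.P K.tw1, hη]

theorem loop : K.P.η ≫ K.P.ε = M.dim x • 𝟙 _ := by
  have := M.tr_eq K.P (𝟙 _)
  unfold Tw.tr trc at this
  rwa [co_eq, MonoidalCategory.whiskerLeft_id, Category.id_comp] at this

include K in
theorem star (g : M.X x ⊗ M.X x ⟶ M.X x ⊗ M.X x)
    (t : 𝟙_ C ⟶ M.X x ⊗ M.X x ⊗ M.X x ⊗ M.X x ⊗ 𝟙_ C) :
    t ≫ op g (M.X x ⊗ M.X x ⊗ 𝟙_ C) = t ≫ M.X x ◁ M.X x ◁ op g (𝟙_ C) := by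
  have := K.Q.star K.hsd g (t ⊗≫ 𝟙 _)
  unfold op
  calc _ = ((t ⊗≫ 𝟙 ((M.X x ⊗ M.X x) ⊗ M.X x ⊗ M.X x)) ≫ g ▷ (M.X x ⊗ M.X x)) ⊗≫ 𝟙 _ := by monoidal
    _ = _ := by rw [this]; monoidal

include K in
theorem dl_dl (t : 𝟙_ C ⟶ M.X x ⊗ M.X x ⊗ M.X x ⊗ M.X x ⊗ 𝟙_ C) :
    t ≫ dl (M.X x) (𝟙_ C) ≫ dl (M.X x) (𝟙_ C) = t := by
  conv_rhs => rw [← M.vec_bb K.tw1 K.P t, ← dl_bb]
  have a := K.star (β_ _ _).hom (t ≫ dl (M.X x) (𝟙_ C))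
  have b := K.star (β_ _ _).hom (t ≫ dl (M.X x) (𝟙_ C) ≫ M.X x ◁ M.X x ◁ op (β_ _ _).hom (𝟙_ C) ≫
    M.X x ◁ op (β_ (M.X x) (M.X x)).hom (M.X x ⊗ 𝟙_ C))
  simp only [Category.assoc] at a b
  rw [b, ← reassoc_of% a]
  rfl

/-- the vector attached to an endomorphism of the square -/
def Ψ (g : M.X x ⊗ M.X x ⟶ M.X x ⊗ M.X x) : 𝟙_ C ⟶ M.X x ⊗ M.X x ⊗ M.X x ⊗ M.X x ⊗ 𝟙_ C :=
  K.P.oo (𝟙_ C) ≫ op g (M.X x ⊗ M.X x ⊗ 𝟙_ C)

theorem Ψ_inj {g h : M.X x ⊗ M.X x ⟶ M.X x ⊗ M.X x} (H : K.Ψ g = K.Ψ h) : g = h := by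
  apply Du.op_inj
  have key : ∀ a, M.X x ◁ M.X x ◁ K.Ψ a ≫ K.P.oo' _ = op a (𝟙_ C) := fun a => by
    rw [Ψ, K.star]
    simp only [MonoidalCategory.whiskerLeft_comp, Category.assoc]
    rw [K.P.oo'_nat, reassoc_of% K.P.zz4]
  rw [← key, ← key, H]

theorem oo_dl : K.P.oo (𝟙_ C) ≫ dl (M.X x) (𝟙_ C) = K.P.ee (𝟙_ C) := by
  rw [← ee_dl K.P K.hη, Category.assoc, K.dl_dl]

theorem Ψ_rot (g : M.X x ⊗ M.X x ⟶ M.X x ⊗ M.X x) :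
    K.Ψ (K.P.rot g) = K.Ψ g ≫ dl (M.X x) (𝟙_ C) := by
  rw [Ψ, K.P.V1, Ψ, K.star, Category.assoc, dl_34, reassoc_of% K.oo_dl]

theorem Ψ_mul (g h : M.X x ⊗ M.X x ⟶ M.X x ⊗ M.X x) : K.Ψ (g ≫ h) = K.Ψ g ≫ op h _ := by
  rw [Ψ, op_comp, Ψ, Category.assoc]

theorem ff (g : M.X x ⊗ M.X x ⟶ M.X x ⊗ M.X x) : K.P.rot (K.P.rot g) = g :=
  K.Ψ_inj (by rw [Ψ_rot, Ψ_rot, Category.assoc, K.dl_dl])

include K in
theorem dl_eq (t : 𝟙_ C ⟶ M.X x ⊗ M.X x ⊗ M.X x ⊗ M.X x ⊗ 𝟙_ C) :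
    t ≫ dl (M.X x) (𝟙_ C) = t ≫ op (β_ _ _).hom _ ≫ M.X x ◁ op (β_ _ _).hom _ ≫
      op (β_ _ _).hom _ := by
  have a := K.star (β_ _ _).hom (t ≫ op (β_ _ _).hom _ ≫ M.X x ◁ op (β_ _ _).hom _)
  simp only [Category.assoc] at a
  rw [a]; rfl

theorem hex (g : M.X x ⊗ M.X x ⟶ M.X x ⊗ M.X x) :
    K.P.rot (K.P.rot (g ≫ (β_ _ _).hom) ≫ (β_ _ _).hom) ≫ (β_ _ _).hom = K.P.rot g := by
  apply K.Ψ_inj
  rw [Ψ_mul, Ψ_rot, Ψ_mul, Ψ_rot, Ψ_mul, Ψ_rot]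
  have b := K.dl_dl (K.Ψ g ≫ op (β_ _ _).hom _ ≫ M.X x ◁ op (β_ _ _).hom _)
  simp only [Category.assoc] at b ⊢
  rw [← reassoc_of% dl_23 (β_ (M.X x) (M.X x)).hom (𝟙_ C), reassoc_of% b, K.dl_eq]

theorem trL_vec (g : M.X x ⊗ M.X x ⟶ M.X x ⊗ M.X x) :
    M.trL _ g • 𝟙 (𝟙_ C) = K.P.oo _ ≫ M.X x ◁ M.X x ◁ op g (𝟙_ C) ≫ K.P.oo' _ := by
  rw [← M.tr_eq (K.P.tensor K.P)]
  unfold Tw.tr trc
  rw [M.tw.co_tensor, co_eq, Du.tensor_ε]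
  unfold Du.oo Du.oo' Du.cup Du.cap op
  monoidal

theorem sa (a b : M.X x ⊗ M.X x ⟶ M.X x ⊗ M.X x) :
    M.trL _ (K.P.rot a ≫ b) = M.trL _ (a ≫ K.P.rot b) := by
  apply M.s1.inj
  rw [trL_vec, trL_vec, op_comp, op_comp]
  simp only [MonoidalCategory.whiskerLeft_comp, Category.assoc]
  have s := K.star b (K.P.ee _ ≫ M.X x ◁ op a _)
  simp only [Category.assoc] at s
  rw [← reassoc_of% K.star (K.P.rot a) (K.P.oo _), reassoc_of% K.P.V1, ← reassoc_of% s,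
    ← reassoc_of% K.oo_dl, ← reassoc_of% dl_34, ← reassoc_of% dl_23, dl_oo' K.P K.hε, K.P.V2]

theorem Φ_cc : K.Q.Φ (Pi.single M.o (M.dim x)) = K.P.ε ≫ K.P.η := by
  obtain ⟨a, ha⟩ := K.Q.Φ_surj (K.P.ε ≫ K.P.η)
  rw [← ha]
  refine K.Q.Φ_congr fun k hs => ?_
  by_cases hk : k = M.o
  · subst hk
    have h := K.Q.Φ_unit a K.P.η
    rw [ha, reassoc_of% K.loop, Linear.smul_comp, Category.id_comp] at h
    rw [Pi.single_eq_same]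
    exact smul_left_injective ℂ K.η_ne h
  · obtain ⟨u⟩ := M.unit_iso
    have h := K.Q.Φ_to a (K.Q.e k)
    have z : K.Q.e k ≫ K.P.ε = 0 := by
      rw [← cancel_mono u.hom, zero_comp]; exact M.ss.zero _ _ hk _
    rw [ha, reassoc_of% z, zero_comp] at h
    rw [Pi.single_eq_of_ne hk]
    exact ((smul_eq_zero.1 h.symm).resolve_right (K.Q.e_ne hs)).symm

theorem tri : ∃ (m : M.X x ⊗ M.X x ⟶ M.X x) (c : M.X x ⟶ M.X x ⊗ M.X x),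
    c = K.P.cup (M.X x) ≫ M.X x ◁ m ∧ K.Q.Φ (Pi.single x 1) = m ≫ c := by
  have h0 : K.P.cup (M.X x) ≫ M.X x ◁ K.Q.f x = K.P.toL (K.Q.f x) := by
    unfold Du.cup Du.toL; simp
  have h1 := K.Q.to_eq K.hx (K.P.cup (M.X x) ≫ M.X x ◁ K.Q.f x)
  set b := sc ((K.P.cup (M.X x) ≫ M.X x ◁ K.Q.f x) ≫ K.Q.f x)
  have hb : b ≠ 0 := fun h => by
    rw [h, zero_smul, h0] at h1
    have := K.P.unL_toL (K.Q.f x)
    rw [h1] at this
    apply (M.ss.sim x).ne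
    rw [← K.Q.ef x K.hx, ← this]
    simp [Du.unL]
  obtain ⟨k, hk⟩ := IsAlgClosed.exists_pow_nat_eq b⁻¹ (n := 2) (by norm_num)
  refine ⟨k • K.Q.f x, _, rfl, ?_⟩
  rw [K.Q.Φ_single K.hx, MonoidalLinear.whiskerLeft_smul, Linear.comp_smul, h1, Linear.smul_comp,
    Linear.comp_smul, Linear.comp_smul, smul_smul, smul_smul, ← pow_two, hk, inv_mul_cancel₀ hb,
    one_smul]

theorem inv (m : M.X x ⊗ M.X x ⟶ M.X x) :
    m ▷ M.X x ≫ K.P.ε = (α_ _ _ _).hom ≫ M.X x ◁ m ≫ K.P.ε := by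
  have a := K.Q.star3 K.hsd K.r K.hx (m ▷ M.X x ≫ K.P.ε)
  have b := K.Q.star3' K.hsd K.r K.hx ((α_ _ _ _).inv ≫ m ▷ M.X x ≫ K.P.ε)
  rw [K.hr] at a b
  conv_rhs => rw [← K.hε, braiding_naturality_right_assoc, braiding_tensor_right_hom]
  simp only [Category.assoc, Iso.hom_inv_id_assoc]
  rw [b, Linear.comp_smul, Iso.hom_inv_id_assoc, Linear.comp_smul, a, smul_smul, K.rx2, one_smul]

/-- the rotated projection onto `X` -/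
noncomputable def H : M.X x ⊗ M.X x ⟶ M.X x ⊗ M.X x := K.P.rot (K.Q.Φ (Pi.single x 1))

theorem sq : K.P.rot (K.H ≫ K.H) = K.H ≫ K.H := by
  obtain ⟨m, c, hc, hm⟩ := K.tri
  apply K.Ψ_inj
  rw [Ψ, K.P.V1, Ψ, H, hm, op_comp, op_comp,
    MonoidalCategory.whiskerLeft_comp, Du.square hc (K.inv m), ← Category.assoc, ← K.star,
    Category.assoc]

theorem alg (a : ℂ) (rx : K.r x = 1)
    (h : K.H + a • 𝟙 _ = K.Q.Φ (Pi.single x 1) + a • (K.P.ε ≫ K.P.η)) :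
    Nonempty (TriAlg (M.X x) a) := by
  obtain ⟨m, c, hc, hm⟩ := K.tri
  have h1 := congrArg (fun g => op g (M.X x ⊗ 𝟙_ C) ≫ M.X x ◁ K.P.cap (𝟙_ C)) h
  simp only [H, hm, op_add, op_smul, op_id,
    Preadditive.add_comp, Linear.smul_comp, Category.id_comp, Du.rung_cap hc (K.inv m),
    op_mul_com, Du.op_cap_cup, Category.assoc, Du.com_cap hc (K.inv m), K.P.zz1,
    Category.comp_id] at h1
  refine ⟨⟨K.P, m, K.hε, by rw [← K.hr, Sq0.Φ_from, rx, one_smul], K.inv m, ?_⟩⟩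
  have h2 := congrArg (fun g => (α_ _ _ _).hom ≫ M.X x ◁ M.X x ◁ (ρ_ (M.X x)).inv ≫ g ≫
    (ρ_ (M.X x)).hom) h1
  simp only [Preadditive.add_comp, Preadditive.comp_add, Linear.smul_comp, Linear.comp_smul] at h2
  refine Eq.trans ?_ (h2.trans ?_)
  · congr 1
    · unfold mul; monoidal
    · congr 1; unfold Du.cap; monoidal
  · congr 1
    · unfold mul; monoidal
    · congr 1; unfold Du.cap; monoidal

/-- the two ways of writing the rotated projection -/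
theorem H_eq {m : M.X x ⊗ M.X x ⟶ M.X x} {c : M.X x ⟶ M.X x ⊗ M.X x}
    (hc : c = K.P.cup (M.X x) ≫ M.X x ◁ m) (hm : K.Q.Φ (Pi.single x 1) = m ≫ c) :
    K.H = c ▷ M.X x ≫ (α_ _ _ _).hom ≫ M.X x ◁ m ∧
      K.H = M.X x ◁ c ≫ (α_ _ _ _).inv ≫ m ▷ M.X x := by
  have h1 := Du.op_rung hc (K.inv m) (𝟙_ C)
  have h2 := Du.frob hc (K.inv m) (𝟙_ C)
  rw [← hm] at h1
  constructor
  · rw [← op_unit K.H, H, h1]; unfold com mul; monoidal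
  · rw [← op_unit K.H, H, h1, ← h2]; unfold com mul; monoidal

theorem H_dag (Dg : Dagger C) : Dg.dag K.H = K.H := by
  obtain ⟨m, c, hc, hm⟩ := K.tri
  obtain ⟨h1, h2⟩ := K.H_eq hc hm
  have hp := K.Q.dag_proj Dg K.hx
  rw [← K.Q.Φ_single K.hx, hm, Dg.dag_comp] at hp
  have c0 : sc (c ≫ K.Q.f x) ≠ 0 := fun h => K.Q.e_ne K.hx (by
    have := K.Q.Φ_to (Pi.single x 1) (K.Q.e x)
    rw [hm, K.Q.to_eq K.hx c, h] at this
    simpa using this.symm)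
  have m0 : sc (K.Q.e x ≫ m) ≠ 0 := fun h => K.Q.e_ne K.hx (by
    have := K.Q.Φ_to (Pi.single x 1) (K.Q.e x)
    rw [hm, K.Q.from_eq K.hx m, h] at this
    simpa using this.symm)
  obtain ⟨l, hl⟩ : ∃ l : ℂ, Dg.dag m = l • c := ⟨sc (Dg.dag m ≫ K.Q.f x) / sc (c ≫ K.Q.f x), by
    conv_rhs => enter [2]; rw [K.Q.to_eq K.hx c]
    rw [smul_smul, div_mul_cancel₀ _ c0, ← K.Q.to_eq K.hx]⟩
  obtain ⟨k, hk⟩ : ∃ k : ℂ, Dg.dag c = k • m := ⟨sc (K.Q.e x ≫ Dg.dag c) / sc (K.Q.e x ≫ m), by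
    conv_rhs => enter [2]; rw [K.Q.from_eq K.hx m]
    rw [smul_smul, div_mul_cancel₀ _ m0, ← K.Q.from_eq K.hx]⟩
  have lk : k * l = 1 := by
    rw [hl, hk, Linear.smul_comp, Linear.comp_smul, smul_smul, ← hm] at hp
    have := K.Q.Φ_inj ((map_smul K.Q.Φ _ _).trans hp) K.hx
    simpa using this
  conv_lhs => rw [h1, ← tensorHom_id, ← id_tensorHom]
  rw [Dg.dag_comp, Dg.dag_comp, Dg.dag_tensor, Dg.dag_tensor, Dg.dag_id, Dg.dag_assoc, hl, hk, h2,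
    tensorHom_id, id_tensorHom]
  simp [smul_smul, lk]

theorem H_van {j : I} (hj : M.N x j j = 0) :
    M.trL _ (Tw.bb (M.X x ⊗ M.X x) (M.X j) ≫ K.H ▷ M.X j) = 0 := by
  obtain ⟨m, c, hc, hm⟩ := K.tri
  have := M.ss.finite (M.X j) (M.X x ⊗ M.X j)
  have z : M.tw.pt K.P (Tw.bb (M.X x) (M.X j) ≫ c ▷ M.X j ≫ (α_ _ _ _).hom) = 0 :=
    (Module.finrank_zero_iff.1 hj).elim _ _
  have e : Tw.bb (M.X x ⊗ M.X x) (M.X j) ≫ K.H ▷ M.X j =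
      ((α_ _ _ _).hom ≫ M.X x ◁ (β_ (M.X x) (M.X j)).hom) ≫
        (((α_ _ _ _).inv ≫ (Tw.bb (M.X x) (M.X j) ≫ c ▷ M.X j ≫ (α_ _ _ _).hom) ▷ M.X x ≫
          (α_ _ _ _).hom) ≫ M.X x ◁ ((α_ _ _ _).hom ≫ M.X x ◁ (β_ (M.X j) (M.X x)).hom ≫
            (α_ _ _ _).inv ≫ m ▷ M.X j)) ≫ (α_ _ _ _).inv := by
    rw [(K.H_eq hc hm).1]
    unfold Tw.bb
    rw [braiding_tensor_left_hom, braiding_tensor_right_hom]
    calc _ = 𝟙 _ ⊗≫ M.X x ◁ (β_ (M.X x) (M.X j)).hom ⊗≫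
          ((β_ (M.X x) (M.X j)).hom ≫ (β_ (M.X j) (M.X x)).hom) ▷ M.X x ⊗≫
          (M.X x ◁ (β_ (M.X j) (M.X x)).hom ≫ c ▷ (M.X x ⊗ M.X j)) ⊗≫
          M.X x ◁ m ▷ M.X j ⊗≫ 𝟙 _ := by monoidal
      _ = _ := by rw [whisker_exchange]; monoidal
  rw [e, M.trL_cyc, Category.assoc, Category.assoc, Iso.inv_hom_id_assoc,
    ← MonoidalCategory.whiskerLeft_comp, M.trL_pt K.P]
  unfold Tw.pt at z ⊢
  rw [ptr_right, ptr_whisk, z]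
  simp

end Cx

end Pool.Agent.Lib.MP_edb142_al
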