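import Mathlib

namespace Pool.Agent.Lib.MP_edb142_al

namespace QN

theorem cube_le {K : Type} [Fintype K] (y : K → ℝ) : (∑ c, y c ^ 3) ^ 2 ≤ (∑ c, y c ^ 2) ^ 3 := by
  have h1 := Finset.sum_mul_sq_le_sq_mul_sq Finset.univ y fun c => y c ^ 2
  have h0 : 0 ≤ ∑ c, y c ^ 2 := Finset.sum_nonneg fun c _ => sq_nonneg _
  have h2 : ∑ c, (y c ^ 2) ^ 2 ≤ (∑ c, y c ^ 2) ^ 2 := by
    rw [sq (∑ c, y c ^ 2), Finset.sum_mul]
    refine Finset.sum_le_sum fun c _ => ?_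
    rw [sq (y c ^ 2)]
    exact mul_le_mul_of_nonneg_left
      (Finset.single_le_sum (f := fun c => y c ^ 2) (fun c _ => sq_nonneg _) (Finset.mem_univ c))
      (sq_nonneg _)
  calc _ = (∑ c, y c * y c ^ 2) ^ 2 := by
        congr 1
        exact Finset.sum_congr rfl fun c _ => by ring
    _ ≤ _ := h1
    _ ≤ (∑ c, y c ^ 2) * (∑ c, y c ^ 2) ^ 2 := mul_le_mul_of_nonneg_left h2 h0
    _ = _ := by ring

/-- first auxiliary polynomial -/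
def E (d : ℝ) : ℝ := (d + 2) ^ 2 * ((d ^ 2 + 3 * d + 1) * (3 * d ^ 2 + 5 * d + 1)) -
  4 * (d + 1) * (2 * d ^ 2 + 4 * d + 1) ^ 2

/-- second auxiliary polynomial -/
def W (d : ℝ) : ℝ := 16 * E d ^ 2 - 27 * (d * (d ^ 2 + 3 * d + 1)) * (3 * d ^ 2 + 5 * d + 1) ^ 2 *
  (d ^ 2 - d - 1) * (d + 1) ^ 2

theorem pos (d : ℝ) (h : 3 ≤ d ∨ (-1 < d ∧ d ≤ -3 / 4)) : 0 < E d ∧ 0 < W d ∧
    0 < (d ^ 2 + 3 * d + 1) * (3 * d ^ 2 + 5 * d + 1) ∧ 0 < d * (d ^ 2 + 3 * d + 1) := by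
  rcases h with h | ⟨h1, h2⟩
  · obtain ⟨y, hy, rfl⟩ : ∃ y : ℝ, 0 ≤ y ∧ d = 3 + y := ⟨d - 3, by linarith, by ring⟩
    refine ⟨?_, ?_, by positivity, by positivity⟩
    · have : E (3 + y) = 5049 + 9054 * y + 6684 * y ^ 2 + 2600 * y ^ 3 + 562 * y ^ 4 + 64 * y ^ 5 +
          3 * y ^ 6 := by unfold E; ring
      rw [this]; positivity
    · have : W (3 + y) = 180229536 + 694115352 * y + 1235709297 * y ^ 2 + 1331365329 * y ^ 3 +
          961183656 * y ^ 4 + 488338872 * y ^ 5 + 178777063 * y ^ 6 + 47496493 * y ^ 7 +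
          9089198 * y ^ 8 + 1222268 * y ^ 9 + 109687 * y ^ 10 + 5901 * y ^ 11 + 144 * y ^ 12 := by
        unfold W E; ring
      rw [this]; positivity
  · obtain ⟨q, hq, rfl⟩ : ∃ q : ℝ, 0 < q ∧ d = q - 1 := ⟨d + 1, by linarith, by ring⟩
    obtain ⟨p, hp, hpq⟩ : ∃ p : ℝ, 0 ≤ p ∧ p = 1 - 4 * q := ⟨_, by linarith, rfl⟩
    refine ⟨?_, ?_, ?_, ?_⟩
    · have : E (q - 1) = 1539 * q ^ 6 + 2952 * p * q ^ 5 + 2274 * p ^ 2 * q ^ 4 +
          904 * p ^ 3 * q ^ 3 + 196 * p ^ 4 * q ^ 2 + 22 * p ^ 5 * q + p ^ 6 := by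
        rw [hpq]; unfold E; ring
      rw [this]; positivity
    · have : W (q - 1) = 32746356 * q ^ 12 + 128495781 * p * q ^ 11 + 227145195 * p ^ 2 * q ^ 10 +
          239134356 * p ^ 3 * q ^ 9 + 166998402 * p ^ 4 * q ^ 8 + 81512949 * p ^ 5 * q ^ 7 +
          28521979 * p ^ 6 * q ^ 6 + 7210592 * p ^ 7 * q ^ 5 + 1307532 * p ^ 8 * q ^ 4 +
          165913 * p ^ 9 * q ^ 3 + 13989 * p ^ 10 * q ^ 2 + 704 * p ^ 11 * q + 16 * p ^ 12 := by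
        rw [hpq]; unfold W E; ring
      rw [this]; positivity
    · have : ((q - 1) ^ 2 + 3 * (q - 1) + 1) * (3 * (q - 1) ^ 2 + 5 * (q - 1) + 1) =
          187 * q ^ 4 + 218 * p * q ^ 3 + 91 * p ^ 2 * q ^ 2 + 16 * p ^ 3 * q + p ^ 4 := by
        rw [hpq]; ring
      rw [this]; positivity
    · have : (q - 1) * ((q - 1) ^ 2 + 3 * (q - 1) + 1) =
          (p + 3 * q) * (11 * q ^ 2 + 7 * p * q + p ^ 2) := by
        rw [hpq]; ring
      rw [this]; positivity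

theorem no (d e Y2 Y3 : ℝ) (h : 3 ≤ d ∨ (-1 < d ∧ d ≤ -3 / 4)) (he : e ≠ 0)
    (hm : 0 < d ^ 2 - d - 1)
    (h2 : d * (d + 2) * Y2 = (d ^ 2 - d - 1) * e *
      (2 * (d + 1) * (d ^ 2 - d - 1) - e * (d + 2) * (d ^ 2 + 3 * d + 1)))
    (h3 : (d + 2) * d ^ 2 * Y3 = (d ^ 2 - d - 1) * e *
      ((d + 2) * (d + 1) * (d ^ 2 - d - 1) ^ 2 -
        4 * (d + 1) * (d ^ 2 - d - 1) * (2 * d ^ 2 + 4 * d + 1) * e +
        (d + 2) * ((d ^ 2 + 3 * d + 1) * (3 * d ^ 2 + 5 * d + 1)) * e ^ 2))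
    (hY : Y3 ^ 2 ≤ Y2 ^ 3) : False := by
  obtain ⟨pE, pW, pkB, pk⟩ := pos d h
  have hx : 0 < d + 1 := by rcases h with h | h <;> linarith [h]
  have ha : 0 < d + 2 := by linarith
  have hd : d ≠ 0 := fun h0 => by simp [h0] at pk
  unfold W at pW
  have hE : E d = (d + 2) ^ 2 * ((d ^ 2 + 3 * d + 1) * (3 * d ^ 2 + 5 * d + 1)) -
    4 * (d + 1) * (2 * d ^ 2 + 4 * d + 1) ^ 2 := rfl
  generalize E d = EE at *
  generalize d ^ 2 - d - 1 = m at *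
  generalize d ^ 2 + 3 * d + 1 = k at *
  generalize 3 * d ^ 2 + 5 * d + 1 = B at *
  generalize 2 * d ^ 2 + 4 * d + 1 = A at *
  generalize d + 1 = x at *
  generalize d + 2 = a at *
  obtain ⟨Q, hQ⟩ : ∃ Q, Q = a * x * m ^ 2 - 4 * x * m * A * e + a * (k * B) * e ^ 2 := ⟨_, rfl⟩
  obtain ⟨w, hw⟩ : ∃ w, w = 2 * x * m - e * a * k := ⟨_, rfl⟩
  rw [← hQ] at h3
  rw [← hw] at h2
  have s1 : a * Q ^ 2 ≤ m * d * e * w ^ 3 := by
    have t1 : (a ^ 3 * d ^ 4) * Y3 ^ 2 ≤ (a ^ 3 * d ^ 4) * Y2 ^ 3 :=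
      mul_le_mul_of_nonneg_left hY (by positivity)
    have t2 : (a ^ 3 * d ^ 4) * Y3 ^ 2 = (m * e) ^ 2 * (a * Q ^ 2) := by
      calc _ = a * (a * d ^ 2 * Y3) ^ 2 := by ring
        _ = _ := by rw [h3]; ring
    have t3 : (a ^ 3 * d ^ 4) * Y2 ^ 3 = (m * e) ^ 2 * (m * d * e * w ^ 3) := by
      calc _ = d * (d * a * Y2) ^ 3 := by ring
        _ = _ := by rw [h2]; ring
    rw [t2, t3] at t1
    exact le_of_mul_le_mul_left t1 (by positivity)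
  have s2 : 256 * (e * a * k) * w ^ 3 ≤ 27 * (2 * x * m) ^ 4 := by
    have t1 : 2 * x * m = e * a * k + w := by rw [hw]; ring
    rw [t1]
    generalize e * a * k = z
    have t2 : 0 ≤ 3 * z ^ 2 + 14 * z * w + 27 * w ^ 2 := by nlinarith [sq_nonneg (3 * z + 7 * w), sq_nonneg w]
    have t3 : 27 * (z + w) ^ 4 - 256 * z * w ^ 3 =
        (3 * z - w) ^ 2 * (3 * z ^ 2 + 14 * z * w + 27 * w ^ 2) := by ring
    have t4 := mul_nonneg (sq_nonneg (3 * z - w)) t2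
    linarith
  have s3 : x * m ^ 2 * EE ≤ a * (k * B) * Q := by
    have : a * (k * B) * Q - x * m ^ 2 * EE = (a * (k * B) * e - 2 * x * m * A) ^ 2 := by
      rw [hQ, hE]; ring
    nlinarith [sq_nonneg (a * (k * B) * e - 2 * x * m * A)]
  have s4 : (x * m ^ 2 * EE) ^ 2 ≤ (a * (k * B) * Q) ^ 2 :=
    pow_le_pow_left₀ (by positivity) s3 2
  have s5 : 256 * (a * (k * B) * Q) ^ 2 ≤ (m * (d * k) * B ^ 2) * (27 * (2 * x * m) ^ 4) := by
    calc _ = (256 * a * (k * B) ^ 2) * (a * Q ^ 2) := by ring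
      _ ≤ (256 * a * (k * B) ^ 2) * (m * d * e * w ^ 3) :=
        mul_le_mul_of_nonneg_left s1 (by positivity)
      _ = (m * (d * k) * B ^ 2) * (256 * (e * a * k) * w ^ 3) := by ring
      _ ≤ _ := mul_le_mul_of_nonneg_left s2 (by positivity)
  have s6 : 0 < (16 * x ^ 2 * m ^ 4) * (16 * EE ^ 2 - 27 * (d * k) * B ^ 2 * m * x ^ 2) := by
    positivity
  nlinarith

end QN

/-- three real moment equations force a constant solution -/
theorem skew {K : Type} [Fintype K] (δ η : ℝ) (h : K → ℝ)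
    (hδ : δ ^ 2 = (2 * Fintype.card K + 1) * (δ + 1))
    (e1 : 1 + (δ + 1) * (1 + η) + (δ + 2) * ∑ c, h c + δ * (Fintype.card K + 2) * η = 0)
    (e2 : 1 + (δ + 1) * (1 + η) ^ 2 + (δ + 2) * ∑ c, h c ^ 2 +
      δ * (Fintype.card K + 2) * η ^ 2 = δ + 1)
    (e3 : 1 + (δ + 1) * (1 + η) ^ 3 + (δ + 2) * ∑ c, h c ^ 3 +
      δ * (Fintype.card K + 2) * η ^ 3 = (δ + 1) * (1 + η) ^ 2) :
    δ * η = -1 ∧ ∀ c, h c = η := by
  obtain ⟨n, hn⟩ : ∃ n : ℝ, n = Fintype.card K := ⟨_, rfl⟩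
  have n0 : 0 ≤ n := by rw [hn]; positivity
  have sum : ∀ a b : ℝ, (∑ c, (a * h c + b) = a * ∑ c, h c + n * b) ∧
      (∑ c, (a * h c + b) ^ 2 = a ^ 2 * ∑ c, h c ^ 2 + 2 * a * b * ∑ c, h c + n * b ^ 2) ∧
      (∑ c, (a * h c + b) ^ 3 = a ^ 3 * ∑ c, h c ^ 3 + 3 * a ^ 2 * b * ∑ c, h c ^ 2 +
        3 * a * b ^ 2 * ∑ c, h c + n * b ^ 3) := fun a b => by
    have hc : ∀ r : ℝ, n * r = ∑ _c : K, r := fun r => by simp [hn]
    simp only [hc, Finset.mul_sum, ← Finset.sum_add_distrib]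
    exact ⟨trivial, Finset.sum_congr rfl fun c _ => by ring, Finset.sum_congr rfl fun c _ => by ring⟩
  rw [← hn] at hδ e1 e2 e3
  have d0 : δ ≠ 0 := fun h0 => by rw [h0] at hδ; nlinarith
  have d1 : δ + 1 ≠ 0 := fun h0 => d0 (by rw [h0, mul_zero] at hδ; exact pow_eq_zero_iff two_ne_zero |>.1 hδ)
  have d2 : δ + 2 ≠ 0 := fun h0 => by
    rw [show δ = -2 by linarith] at hδ; nlinarith
  obtain ⟨ε, hε⟩ : ∃ ε, ε = ∑ c, h c - n * η := ⟨_, rfl⟩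
  have a1 : δ * η = -1 - ε := by
    have : (δ + 2) * (δ * η - (-1 - ε)) = 0 := by rw [hε]; linear_combination e1 + η * hδ
    linarith [(mul_eq_zero.1 this).resolve_left d2]
  have b0 : n = (δ ^ 2 - δ - 1) / (2 * (δ + 1)) := by field_simp; linear_combination -hδ
  have b1 : η = (-1 - ε) / δ := by field_simp; linear_combination a1
  have b2 : ∑ c, h c = ε + n * η := by rw [hε]; ring
  have b3 : ∑ c, h c ^ 2 = (δ - (δ + 1) * (1 + η) ^ 2 - δ * (n + 2) * η ^ 2) / (δ + 2) := by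
    field_simp; linear_combination e2
  have b4 : ∑ c, h c ^ 3 = ((δ + 1) * (1 + η) ^ 2 - 1 - (δ + 1) * (1 + η) ^ 3 -
      δ * (n + 2) * η ^ 3) / (δ + 2) := by
    field_simp; linear_combination e3
  have z : ε = 0 := by
    by_contra he
    rcases (Nat.eq_zero_or_pos (Fintype.card K)) with h0 | h0
    · have := Fintype.card_eq_zero_iff.1 h0
      apply he
      rw [hε, hn, h0]; simp
    have n1 : 1 ≤ n := by rw [hn]; exact_mod_cast h0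
    have x0 : 0 < δ + 1 := by
      by_contra hx
      have : 0 < δ ^ 2 := by positivity
      nlinarith
    have hr : 3 ≤ δ ∨ (-1 < δ ∧ δ ≤ -3 / 4) := by
      by_contra hc
      push Not at hc
      have := hc.2 (by linarith)
      nlinarith [hc.1]
    obtain ⟨-, c2, c3⟩ := sum (δ ^ 2 - δ - 1) (-(δ ^ 2 - δ - 1) * η - 2 * (δ + 1) * ε)
    refine QN.no δ ε _ _ hr he (by nlinarith) ?_ ?_ (QN.cube_le fun c =>
      (δ ^ 2 - δ - 1) * h c + (-(δ ^ 2 - δ - 1) * η - 2 * (δ + 1) * ε))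
    · rw [c2, b3, b2, b1, b0]; field_simp; ring
    · rw [c3, b4, b3, b2, b1, b0]; field_simp; ring
  refine ⟨by rw [a1, z]; ring, fun c => ?_⟩
  have c2 := (sum 1 (-η)).2.1
  have : ∑ c, (1 * h c + -η) ^ 2 = 0 := by
    rw [c2, b3, b2, b1, b0, z]; field_simp; ring
  have := (Finset.sum_eq_zero_iff_of_nonneg fun c _ => sq_nonneg _).1 this c (Finset.mem_univ c)
  linarith [pow_eq_zero_iff two_ne_zero |>.1 this]

end Pool.Agent.Lib.MP_edb142_al
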