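import Pool.Agent.Lib.MP_edb142_al.H.Q2
import Pool.Agent.Lib.MP_edb142_al.H.QN

open CategoryTheory MonoidalCategory Limits BraidedCategory

set_option linter.unusedSectionVars false

namespace Pool.Agent.Lib.MP_edb142_al

universe v u

variable {C : Type u} [Category.{v} C] [Preadditive C] [Linear ℂ C] [MonoidalCategory C]
  [MonoidalPreadditive C] [MonoidalLinear ℂ C] [HasFiniteBiproducts C] [BraidedCategory C]
  [RigidCategory C] {I : Type} [Fintype I] [DecidableEq I]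

namespace Cx
variable {M : Modular C I} {x : I} {s : Finset I} (K : Cx M x s)

theorem rot_one : K.P.rot (𝟙 _) = K.P.ε ≫ K.P.η := by rw [← K.P.rot_cc, K.ff]

theorem tr_single (k : I) (hk : k ∈ s) (c : ℂ) (a : I → ℂ) :
    M.trL _ (K.Q.Φ (a * Pi.single k c)) = M.dim k * (a k * c) := by
  rw [Sq0.Φ_trL, Finset.sum_eq_single k (fun l _ hl => by simp [hl]) (fun h => absurd hk h)]
  simp

variable {h : I → ℂ} (hh : K.Q.Φ h = K.H)
include hh

theorem h_o : h M.o = 1 := by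
  have e := K.sa (K.Q.Φ (Pi.single x 1)) (K.P.ε ≫ K.P.η)
  rw [K.P.rot_cc, Category.comp_id, ← H, ← hh, ← K.Φ_cc, ← Sq0.Φ_mul, mul_comm,
    K.tr_single _ K.ho, ← one_mul (Pi.single x 1 : I → ℂ), K.tr_single _ K.hx, M.dim_o] at e
  exact mul_right_cancel₀ (M.dim_ne x) (by simpa using e)

theorem m1 : ∑ k ∈ s, M.dim k * h k = 0 := by
  have e := K.sa (K.Q.Φ (Pi.single x 1)) (𝟙 _)
  rw [K.rot_one, Category.comp_id, ← H, ← hh, ← K.Φ_cc, ← Sq0.Φ_mul, K.tr_single _ K.hx,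
    Sq0.Φ_trL] at e
  simpa [K.hxo] using e

theorem m2 : ∑ k ∈ s, M.dim k * h k ^ 2 = M.dim x := by
  have e := K.sa (K.Q.Φ (Pi.single x 1)) K.H
  rw [H, K.ff, ← H, ← hh, ← Sq0.Φ_mul, ← Sq0.Φ_mul, K.tr_single _ K.hx, Sq0.Φ_trL] at e
  simpa [pow_two] using e

theorem m3 : ∑ k ∈ s, M.dim k * h k ^ 3 = M.dim x * h x ^ 2 := by
  have e := K.sa (K.Q.Φ (Pi.single x 1)) (K.H ≫ K.H)
  rw [K.sq, ← H, ← hh, ← Sq0.Φ_mul, ← Sq0.Φ_mul, ← Sq0.Φ_mul, K.tr_single _ K.hx,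
    Sq0.Φ_trL] at e
  simpa [pow_succ] using e

theorem real (Dg : Dagger C) {k : I} (hk : k ∈ s) : (starRingEnd ℂ) (h k) = h k :=
  K.Q.Φ_inj (a := fun k => (starRingEnd ℂ) (h k)) (by rw [← K.Q.dag_Φ Dg, hh, K.H_dag]) hk

theorem van {j : I} (hj : M.N x j j = 0) : ∑ k, (if k ∈ s then h k else 0) * M.S k j = 0 := by
  have e := K.H_van hj
  rw [← M.sum_trace, ← hh] at e
  simpa only [Sq0.Φ_trace] using e

theorem r_x {a : ℂ} (hx : h x ≠ a)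
    (hz : K.H + a • 𝟙 _ = K.Q.Φ (Pi.single x 1) + a • (K.P.ε ≫ K.P.η)) : K.r x = 1 := by
  have e1 : ∀ c : ℂ, K.P.rot (c • K.Q.Φ (Pi.single x 1) + a • (K.P.ε ≫ K.P.η)) =
      c • K.H + a • 𝟙 _ := fun c => by
    rw [← K.P.rot_cc]
    exact (K.P.rotL.map_add _ _).trans
      (congrArg₂ (· + ·) (K.P.rotL.map_smul _ _) (K.P.rotL.map_smul _ _))
  have e2 : ∀ c : ℂ, (c • K.Q.Φ (Pi.single x 1) + a • (K.P.ε ≫ K.P.η)) ≫ (β_ _ _).hom =
      (c * K.r x) • K.Q.Φ (Pi.single x 1) + a • (K.P.ε ≫ K.P.η) := fun c => by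
    rw [Preadditive.add_comp, Linear.smul_comp, Linear.smul_comp, Category.assoc, K.hη,
      K.Q.Φ_single K.hx, Category.assoc, ← K.hr, Sq0.Φ_to, Linear.comp_smul, smul_smul]
  have e3 := K.hex (K.r x • K.Q.Φ (Pi.single x 1) + a • (K.P.ε ≫ K.P.η))
  rw [e2, K.rx2, e1, one_smul, hz, ← one_smul ℂ (K.Q.Φ (Pi.single x 1)), e2, one_mul, one_smul,
    e1, ← hh, ← K.Q.Φ_one, ← map_smul, ← map_smul, ← map_add, ← K.hr, ← Sq0.Φ_mul] at e3
  have e4 := K.Q.Φ_inj e3 K.hx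
  simp only [Pi.mul_apply, Pi.add_apply, Pi.smul_apply, smul_eq_mul, Pi.one_apply] at e4
  have e5 : (K.r x - 1) * (h x - a) = 0 := by
    linear_combination -e4 + h x * K.rx2
  exact sub_eq_zero.1 ((mul_eq_zero.1 e5).resolve_right (sub_ne_zero.2 hx))

end Cx

/-- the algebra on the sum of the unit and `X x` -/
theorem Modular.triAlg_of (M : Modular C I) (Dg : Dagger C) (x : I) (Cs Ds : Finset I) (δ : ℂ)
    (hxo : x ≠ M.o) (hT : M.T x = 1) (o1 : M.o ∉ Cs) (o2 : M.o ∉ Ds) (x1 : x ∉ Cs) (x2 : x ∉ Ds)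
    (dj : Disjoint Cs Ds) (s : Finset I) (hs : s = insert M.o (insert x (Cs ∪ Ds)))
    (hN : ∀ k, M.N x x k = if k ∈ s then 1 else 0)
    (hsd : ∀ k ∈ s, ∀ l ∈ s, k ≠ l → M.N k l M.o = 0)
    (hδ : δ ^ 2 = (2 * Cs.card + 1) * (δ + 1)) (hD : Ds.card = Cs.card + 2)
    (dx : M.dim x = δ + 1) (dc : ∀ k ∈ Cs, M.dim k = δ + 2) (dd : ∀ k ∈ Ds, M.dim k = δ)
    (hv : ∀ j ∈ Ds, M.N x j j = 0)
    (van : ∀ f : I → ℂ, (∀ k ∉ s, f k = 0) → f M.o = 1 → (∀ j ∈ Ds, ∑ k, f k * M.S k j = 0) →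
      ∀ k ∈ Ds, f k = f x - 1) :
    Nonempty (TriAlg (M.X x) δ⁻¹) := by
  have ho : M.o ∈ s := by simp [hs]
  have hx : x ∈ s := by simp [hs]
  have hC : ∀ k ∈ Cs, k ∈ s := fun k hk => by simp [hs, hk]
  have hDs : ∀ k ∈ Ds, k ∈ s := fun k hk => by simp [hs, hk]
  obtain ⟨Q⟩ := M.exists_sq0 s hN
  obtain ⟨P⟩ := M.selfdu' x ((hN _).trans (if_pos ho))
  obtain ⟨r, hr⟩ := Q.Φ_surj (β_ (M.X x) (M.X x)).hom
  let K : Cx M x s := ⟨Q, P, r, ho, hx, hxo, hT, hsd, hr⟩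
  obtain ⟨h, hh⟩ := K.Q.Φ_surj K.H
  have h0 := K.h_o hh
  have h1 : ∀ k ∈ Ds, h k = h x - 1 := fun k hk => by
    have := van (fun k => if k ∈ s then h k else 0) (fun k hk => if_neg hk)
      ((if_pos ho).trans h0) (fun j hj => K.van hh (hv j hj)) k hk
    simpa only [if_pos hx, if_pos (hDs k hk)] using this
  have split : ∀ n : ℕ, ∑ k ∈ s, M.dim k * h k ^ n = 1 + (δ + 1) * h x ^ n +
      (δ + 2) * ∑ c : Cs, h c ^ n + δ * (Cs.card + 2) * (h x - 1) ^ n := fun n => by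
    rw [hs, Finset.sum_insert (by simp [hxo.symm, o1, o2]), Finset.sum_insert (by simp [x1, x2]),
      Finset.sum_union dj, M.dim_o, h0, dx,
      Finset.sum_congr rfl (fun k hk => by rw [dc k hk] : ∀ k ∈ Cs, M.dim k * h k ^ n =
        (δ + 2) * h k ^ n),
      Finset.sum_congr rfl (fun k hk => by rw [dd k hk, h1 k hk] : ∀ k ∈ Ds, M.dim k * h k ^ n =
        δ * (h x - 1) ^ n), ← Finset.mul_sum, Finset.sum_coe_sort Cs fun k => h k ^ n,
      Finset.sum_const, hD]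
    simp only [nsmul_eq_mul]
    push_cast
    ring
  have e1 := split 1
  have e2 := split 2
  have e3 := split 3
  simp only [pow_one] at e1
  rw [K.m1 hh] at e1
  rw [K.m2 hh, dx] at e2
  rw [K.m3 hh, dx] at e3
  obtain ⟨d, rfl⟩ : ∃ d : ℝ, (d : ℂ) = δ := ⟨δ.re, Complex.conj_eq_iff_re.1 (by
    have := M.dim_real x
    rw [dx] at this
    simpa using this)⟩
  obtain ⟨η, hη⟩ : ∃ η : ℝ, h x = 1 + η := ⟨(h x).re - 1, by
    push_cast
    rw [Complex.conj_eq_iff_re.1 (K.real hh Dg hx)]; ring⟩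
  obtain ⟨g, hg⟩ : ∃ g : Cs → ℝ, ∀ c : Cs, h c = g c := ⟨fun c => (h c).re, fun c =>
    (Complex.conj_eq_iff_re.1 (K.real hh Dg (hC _ c.2))).symm⟩
  simp only [hg, hη, add_sub_cancel_left] at e1 e2 e3
  obtain ⟨a1, a2⟩ := skew d η g (by rw [Fintype.card_coe]; exact_mod_cast hδ)
    (by rw [Fintype.card_coe]; exact_mod_cast e1.symm)
    (by rw [Fintype.card_coe]; exact_mod_cast e2.symm)
    (by rw [Fintype.card_coe]; exact_mod_cast e3.symm)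
  have a3 : (d : ℂ) * η = -1 := by exact_mod_cast a1
  have d0 : (d : ℂ) ≠ 0 := fun e => by simp [e] at a3
  have a4 : (η : ℂ) = -(d : ℂ)⁻¹ := by field_simp; linear_combination a3
  have hz : K.H + (d : ℂ)⁻¹ • 𝟙 _ = K.Q.Φ (Pi.single x 1) + (d : ℂ)⁻¹ • (K.P.ε ≫ K.P.η) := by
    rw [← hh, ← K.Q.Φ_one, ← K.Φ_cc, ← map_smul, ← map_smul, ← map_add, ← map_add]
    refine K.Q.Φ_congr fun k hk => ?_
    simp only [hs, Finset.mem_insert, Finset.mem_union] at hk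
    simp only [Pi.add_apply, Pi.smul_apply, smul_eq_mul, Pi.one_apply]
    rcases hk with rfl | rfl | hk | hk
    · rw [h0, Pi.single_eq_of_ne hxo.symm, Pi.single_eq_same, dx]; field_simp; ring
    · rw [hη, a4, Pi.single_eq_of_ne hxo, Pi.single_eq_same]; ring
    · rw [hg ⟨k, hk⟩, a2, a4, Pi.single_eq_of_ne fun e : k = x => x1 (e ▸ hk),
        Pi.single_eq_of_ne fun e : k = M.o => o1 (e ▸ hk)]; ring
    · rw [h1 k hk, hη, a4, Pi.single_eq_of_ne fun e : k = x => x2 (e ▸ hk),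
        Pi.single_eq_of_ne fun e : k = M.o => o2 (e ▸ hk)]; ring
  refine K.alg _ (K.r_x hh (fun e => ?_) hz) hz
  rw [hη, a4] at e
  have d2 : (d : ℂ) = 2 := by field_simp at e; linear_combination e
  rw [d2] at hδ
  have : ((4 : ℕ) : ℂ) = (((2 * Cs.card + 1) * 3 : ℕ) : ℂ) := by push_cast; linear_combination hδ
  have := Nat.cast_injective (R := ℂ) this
  omega

end Pool.Agent.Lib.MP_edb142_al
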