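import Pool.Agent.Lib.MP_edb142_al.H.Q0

/-! Lifting a two valued group structure. -/

namespace Pool.Agent.Lib.MP_edb142_al

namespace QA

variable {G : Type} [AddCommGroup G]

theorem ev {φ : G → ℤ} (hφ : ∀ g, φ (-g) = φ g) {g h : G} (e : PM g h) : φ g = φ h := by
  rcases e with e | e
  · rw [e]
  · rw [e, hφ]

theorem ev2 {φ : G → ℤ} (hφ : ∀ g, φ (-g) = φ g) {x y x' y' : G} (e : PM x x') (e' : PM y y') :
    φ (x + y) + φ (x - y) = φ (x' + y') + φ (x' - y') := by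
  rcases e with e | e <;> rcases e' with e' | e' <;> subst e e'
  · rfl
  · rw [sub_neg_eq_add, ← sub_eq_add_neg, add_comm]
  · rw [← hφ (-x' + y), ← hφ (-x' - y), add_comm]
    congr 2 <;> abel
  · rw [← hφ (-x' + -y'), ← hφ (-x' - -y')]
    congr 2 <;> abel

open Classical in
/-- the indicator function of the pair `t`, `-t` -/
noncomputable def ind (t g : G) : ℤ := if PM g t then 1 else 0

theorem ind_neg (t g : G) : ind t (-g) = ind t g := by
  have : PM (-g) t ↔ PM g t := by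
    simp only [PM, neg_eq_iff_eq_neg, neg_neg, or_comm]
  unfold ind
  rw [propext this]

theorem ind_self (t : G) : ind t t = 1 := if_pos (Or.inl rfl)

theorem ind_nonneg (t g : G) : 0 ≤ ind t g := by
  unfold ind; split_ifs <;> norm_num

theorem of_ind {t g : G} (h : 0 < ind t g) : PM g t := by
  by_contra hn
  rw [ind, if_neg hn] at h
  exact lt_irrefl _ h

theorem pm_zero (h2 : ∀ g : G, g + g = 0 → g = 0) {g z : G} (hg : g ≠ 0)
    (h : PM (g - z) (g + z)) : z = 0 := by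
  rcases h with h | h
  · exact h2 z (by rw [← sub_eq_zero.2 h.symm]; abel)
  · exact absurd (h2 g (by rw [← sub_eq_zero.2 h]; abel)) hg

theorem fin (h2 : ∀ g : G, g + g = 0 → g = 0) {g y z : G} (hg : g ≠ 0)
    (h : ∀ φ : G → ℤ, (∀ g, φ (-g) = φ g) → φ (g + y) - φ (g - y) = φ (g + z) - φ (g - z)) :
    y = z := by
  by_cases hy : y = 0
  · have h1 := h _ (ind_neg (g + z))
    rw [hy, add_zero, sub_zero, sub_self, ind_self] at h1
    rw [hy, pm_zero h2 hg (of_ind (t := g + z) (g := g - z) (by omega))]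
  · have n1 : ind (g + y) (g - y) = 0 := if_neg fun e => hy (pm_zero h2 hg e)
    have n2 : ind (g - y) (g + y) = 0 := if_neg fun e => hy (neg_eq_zero.1
      (pm_zero h2 hg (z := -y) (by rwa [sub_neg_eq_add, ← sub_eq_add_neg])))
    have h3 := h _ (ind_neg (g + y))
    have h4 := h _ (ind_neg (g - y))
    rw [ind_self, n1] at h3
    rw [ind_self, n2] at h4
    have p3 := ind_nonneg (g + y) (g - z)
    have p4 := ind_nonneg (g - y) (g + z)
    rcases of_ind (t := g + y) (g := g + z) (by omega) with a | a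
    · exact (add_left_cancel a).symm
    rcases of_ind (t := g - y) (g := g - z) (by omega) with b | b
    · exact (sub_right_injective b).symm
    refine absurd (h2 g (h2 (g + g) ?_)) hg
    calc g + g + (g + g) = (g + z - -(g + y)) + (g - z - -(g - y)) := by abel
      _ = 0 := by rw [sub_eq_zero.2 a, sub_eq_zero.2 b, add_zero]

end QA

open QA in
theorem two_valued {Ω G : Type} [Group Ω] [Finite Ω] [AddCommGroup G] (hΩ : Odd (Nat.card Ω))
    (h2 : ∀ g : G, g + g = 0 → g = 0) (π : Ω → G) (h1 : π 1 = 0)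
    (fib : ∀ a b, PM (π a) (π b) → a = b ∨ a = b⁻¹) (inv : ∀ a, PM (π a⁻¹) (π a))
    (val : ∀ a b, (PM (π (a * b)) (π a + π b) ∧ PM (π (a⁻¹ * b)) (π a - π b)) ∨
      (PM (π (a * b)) (π a - π b) ∧ PM (π (a⁻¹ * b)) (π a + π b))) :
    ∃ ψ : Ω → G, (∀ a b, ψ (a * b) = ψ a + ψ b) ∧ ∀ a, PM (ψ a) (π a) := by
  have dal : ∀ φ : G → ℤ, (∀ g, φ (-g) = φ g) → ∀ a b x y, PM (π a) x → PM (π b) y →
      φ (π (a * b)) + φ (π (a⁻¹ * b)) = φ (x + y) + φ (x - y) := fun φ hφ a b x y hx hy => by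
    rw [← ev2 hφ hx hy]
    rcases val a b with ⟨p, q⟩ | ⟨p, q⟩
    · rw [ev hφ p, ev hφ q]
    · rw [ev hφ p, ev hφ q, add_comm]
  have com : ∀ a b : Ω, a * b = b * a := fun a b => by
    have e1 := dal _ (ind_neg (π (a * b))) a b _ _ (Or.inl rfl) (Or.inl rfl)
    have e2 := dal _ (ind_neg (π (a * b))) b a _ _ (Or.inl rfl) (Or.inl rfl)
    have e3 := ev (ind_neg (π (a * b))) (inv (a⁻¹ * b))
    rw [mul_inv_rev, inv_inv] at e3
    rw [add_comm (π b), ← neg_sub (π a), ind_neg, ← e1, ind_self, e3] at e2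
    rcases fib _ _ (of_ind (t := π (a * b)) (g := π (b * a)) (by omega)) with h | h
    · exact h.symm
    · have h3 : b = a⁻¹ := (Nat.Coprime.pow_left_bijective (n := 2) hΩ.coprime_two_right).1 (by
        show b ^ 2 = a⁻¹ ^ 2
        calc b ^ 2 = b * (b * a) * a⁻¹ := by rw [sq]; group
          _ = b * (a * b)⁻¹ * a⁻¹ := by rw [h]
          _ = a⁻¹ ^ 2 := by group)
      rw [h3, mul_inv_cancel, inv_mul_cancel]
  by_cases h0 : ∀ a, π a = 0
  · exact ⟨fun _ => 0, fun _ _ => (add_zero _).symm, fun a => Or.inl (h0 a).symm⟩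
  obtain ⟨a, ha⟩ := not_forall.1 h0
  have ex : ∀ b, ∃ u, PM u (π b) ∧ PM (π (a * b)) (π a + u) ∧ PM (π (a⁻¹ * b)) (π a - u) :=
    fun b => by
      rcases val a b with ⟨p, q⟩ | ⟨p, q⟩
      · exact ⟨π b, Or.inl rfl, p, q⟩
      · exact ⟨-π b, Or.inr rfl, by rwa [← sub_eq_add_neg], by rwa [sub_neg_eq_add]⟩
  choose ψ hψ hp hq using ex
  have hψ' : ∀ b, PM (π b) (ψ b) := fun b => (hψ b).imp Eq.symm fun e => by rw [e, neg_neg]
  refine ⟨ψ, fun b c => fin h2 ha fun φ hφ => ?_, hψ⟩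
  let _ : CommGroup Ω := { ‹Group Ω› with mul_comm := com }
  have e1 := dal φ hφ _ _ _ _ (hp b) (hψ' c)
  have e2 := dal φ hφ _ _ _ _ (hq b) (hψ' c)
  have e3 := dal φ hφ _ _ _ _ (hp c) (hψ' b)
  have e4 := dal φ hφ _ _ _ _ (hq c) (hψ' b)
  have i1 := ev hφ (inv ((a * b)⁻¹ * c))
  have i2 := ev hφ (inv ((a * c)⁻¹ * b))
  rw [show ((a * b)⁻¹ * c)⁻¹ = (a⁻¹ * c)⁻¹ * b by
    simp only [mul_inv_rev, inv_inv, mul_comm, mul_left_comm, mul_assoc]] at i1
  rw [show ((a * c)⁻¹ * b)⁻¹ = (a⁻¹ * b)⁻¹ * c by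
    simp only [mul_inv_rev, inv_inv, mul_comm, mul_left_comm, mul_assoc]] at i2
  rw [mul_assoc, ev hφ (hp (b * c)), add_assoc] at e1
  rw [mul_assoc, ev hφ (hq (b * c)), sub_sub] at e2
  rw [mul_assoc, com c b, ev hφ (hp (b * c)), add_assoc, add_comm (ψ c),
    show π a + ψ c - ψ b = π a - ψ b + ψ c by abel] at e3
  rw [mul_assoc, com c b, ev hφ (hq (b * c)), sub_sub, add_comm (ψ c),
    show π a - ψ c + ψ b = π a + ψ b - ψ c by abel] at e4
  omega

end Pool.Agent.Lib.MP_edb142_al
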