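import Pool.Agent.Lib.MP_edb142_al.H.Q0
import Pool.Agent.Lib.MP_edb142_al.H.QD1

open CategoryTheory MonoidalCategory Limits Module

set_option linter.unusedSectionVars false

namespace Pool.Agent.Lib.MP_edb142_al

universe v u

variable {G Γ P : Type} [AddCommGroup G] [AddCommGroup Γ] [AddCommGroup P] [Fintype G] [Fintype Γ]
  [Fintype P] [DecidableEq G] [DecidableEq Γ] [DecidableEq P]
  {C : Type u} [Category.{v} C] [Preadditive C] [Linear ℂ C] [MonoidalCategory C]
  [MonoidalPreadditive C] [MonoidalLinear ℂ C] [HasFiniteBiproducts C] [BraidedCategory C]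
  [RigidCategory C] {A : Finset G} {B : Finset Γ}

theorem Modular.selfdual_row {I : Type} [Fintype I] [DecidableEq I] (M : Modular C I) (k l : I)
    (hr : ∀ j, (starRingEnd ℂ) (M.S k j) = M.S k j) (h : k ≠ l) : M.N k l M.o = 0 := by
  have h1 : (fun r => (Module.finrank ℂ (M.X r ⟶ (M.X k)ᘁ) : ℂ)) =
      fun r => if r = k then 1 else 0 := by
    refine M.S_inj fun j => ?_
    have h2 := M.s_conj (RingHom.id ℂ) j (du (M.X k))
    simp only [RingHom.id_apply] at h2
    have h3 := hr j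
    rw [M.S_s, map_mul, M.dim_real, ← h2, M.s_dec, Finset.sum_mul] at h3
    simp only [ite_mul, one_mul, zero_mul, Finset.sum_ite_eq', Finset.mem_univ, if_true, M.S_s]
    rw [← h3]
    exact Finset.sum_congr rfl fun r _ => by ring
  have h2 := congrFun h1 l
  simp only [if_neg h.symm, Nat.cast_eq_zero] at h2
  unfold Modular.N
  rw [← ((du (M.X k)).eqvL _ _).finrank_eq, ← h2, M.ss.finrank_symm]
  exact (Linear.homCongr ℂ (whiskerLeftIso _ M.unit_iso.some.symm ≪≫ ρ_ _) (Iso.refl _)).finrank_eq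

namespace Quad
variable {M : Modular C (QL A B × P)} {δ : ℂ} {s : G → ℂ} {t : Γ → ℂ} {p : P → ℂ}
  (H : Quad M δ s t p)
include H

theorem cardB : B.card = A.card + 2 := by
  have h1 := H.hA.card
  have h2 := H.hB.card
  have h3 := H.hΓ
  omega

theorem qd : Qd A B δ s t :=
  ⟨H.hs, H.ht, H.hA, H.hB, H.cardB, by rw [H.hδ, H.hA.card]; push_cast; rfl⟩

theorem S0 (k : QL A B) (j : QL A B × P) : M.S (k, 0) j = qS δ s t k j.1 := by
  rw [H.S, H.hp.zero_left, mul_one]

theorem sum0 (f : QL A B × P → ℂ) (h0 : ∀ k, k.2 ≠ 0 → f k = 0) (j : QL A B × P) :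
    ∑ k, f k * M.S k j = ∑ k, f (k, 0) * qS δ s t k j.1 := by
  rw [Fintype.sum_prod_type]
  refine Finset.sum_congr rfl fun k _ => ?_
  rw [Finset.sum_eq_single 0 (fun q _ hq => by rw [h0 (k, q) hq, zero_mul]) (by simp), H.S0]

theorem N0 {o : QL A B} (ho : M.o = (o, 0)) (k l : QL A B) (f : QL A B → ℂ)
    (h : ∀ j, qS δ s t k j * qS δ s t l j = qS δ s t o j * ∑ m, f m * qS δ s t m j)
    (m : QL A B × P) : (M.N (k, 0) (l, 0) m : ℂ) = if m.2 = 0 then f m.1 else 0 :=
  M.N_of _ _ (fun m => if m.2 = 0 then f m.1 else 0) (fun j => by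
    rw [H.sum0 _ fun k hk => if_neg hk]
    simp only [ho, H.S0, h, if_true]) m

theorem o_eq : M.o = (.inl 0, 0) := by
  have hq := H.qd.hδ
  obtain ⟨k, q, ho⟩ : ∃ k q, M.o = (k, q) := ⟨_, _, rfl⟩
  have d : ∀ r, M.dim (.inl 0, r) = qS δ s t k (.inl 0) * pol p q r := fun r => by
    rw [← M.S_o, ho, H.S]
  have d0 := d 0
  rw [H.hp.zero_right, mul_one] at d0
  obtain rfl : q = 0 := by
    have h1 : q + q = 0 := H.hp.nondeg _ fun r => by
      have := M.dim_real (.inl 0, r)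
      rw [d, ← d0, map_mul, M.dim_real, H.hp.conj] at this
      rw [H.hp.add]
      nth_rewrite 1 [← mul_left_cancel₀ (M.dim_ne _) this]
      exact inv_mul_cancel₀ (H.hp.pol_ne _ _)
    obtain ⟨m, hm⟩ := H.hP
    have h2 : Fintype.card P • q = 0 := card_nsmul_eq_zero
    rwa [hm, add_nsmul, mul_nsmul, two_nsmul, h1, nsmul_zero, zero_add, one_nsmul] at h2
  have h1 : qS δ s t k k = 1 := by rw [← H.S0 k (k, 0), ← ho, M.S_o, M.dim_o]
  have h2 : qT s t k = 1 := by rw [← M.T_o, ho, H.T, H.hp.zero, mul_one]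
  rcases k with i | a | b
  · fin_cases i
    · exact ho
    · obtain ⟨b, hb⟩ : B.Nonempty := Finset.card_pos.1 (by rw [H.cardB]; omega)
      have := H.N0 ho _ _ _ H.qd.v00 (.inr (.inr ⟨b, hb⟩), 0)
      have h4 : ((M.N (.inl 0, 0) (.inl 0, 0) (.inr (.inr ⟨b, hb⟩), 0) + 1 : ℕ) : ℂ) = 0 := by
        push_cast; rw [this]; simp
      exact absurd (Nat.cast_eq_zero.1 h4) (Nat.succ_ne_zero _)
  · simp only [qS, qT, H.hs.self] at h1 h2
    rw [h2] at h1
    obtain rfl : δ = -3 / 2 := by linear_combination h1 / 2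
    have : ((4 * A.card + 11 : ℕ) : ℂ) = 0 := by push_cast; linear_combination 4 * hq
    exact absurd (Nat.cast_eq_zero.1 this) (by omega)
  · simp only [qS, qT, H.ht.self] at h1 h2
    rw [h2] at h1
    obtain rfl : δ = -1 / 2 := by linear_combination -h1 / 2
    have : ((4 * A.card + 1 : ℕ) : ℂ) = 0 := by push_cast; linear_combination -4 * hq
    exact absurd (Nat.cast_eq_zero.1 this) (by omega)

theorem dim_eq (k : QL A B × P) : M.dim k = qS δ s t (.inl 0) k.1 := by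
  rw [← M.S_o, H.o_eq, H.S0]

theorem pos : M.Pos := by
  intro n h
  let α : QL A B → ℕ := Sum.elim (fun _ => 1) (Sum.elim (fun _ => 2) fun _ => 0)
  let β : QL A B → ℕ := Sum.elim (fun i => if i = 0 then 0 else 1) fun _ => 1
  have e : ∀ k, M.dim k = α k.1 + β k.1 * δ ∧ 0 < α k.1 + β k.1 := fun k => by
    rw [H.dim_eq]
    rcases k.1 with i | a | b
    · fin_cases i <;> simp [qS, α, β, add_comm]
    · simp [qS, α, β, add_comm]
    · simp [qS, α, β]
  obtain ⟨h1, h2⟩ := H.qd.irr (a := ∑ k, n k * α k.1) (b := ∑ k, n k * β k.1) (by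
    rw [← h]
    push_cast
    rw [Finset.sum_mul, ← Finset.sum_add_distrib]
    exact Finset.sum_congr rfl fun k _ => by rw [(e k).1]; ring)
  intro k
  have h3 := Finset.sum_eq_zero_iff.1 h1 k (Finset.mem_univ k)
  have h4 := Finset.sum_eq_zero_iff.1 h2 k (Finset.mem_univ k)
  exact (mul_eq_zero.1 (by rw [mul_add, h3, h4, add_zero] : n k * (α k.1 + β k.1) = 0)).resolve_right
    (e k).2.ne'

theorem ne2 : δ + 2 ≠ 0 := fun h =>
  absurd (H.qd.irr (a := 2) (b := 1) (by push_cast; linear_combination h)).1 (by omega)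

theorem dimsq : ∑ k, M.dim k ^ 2 = Fintype.card G * Fintype.card P * (δ + 2) ^ 2 := by
  simp only [H.dim_eq, Fintype.sum_prod_type, Finset.sum_const, Finset.card_univ, nsmul_eq_mul,
    ← Finset.mul_sum, H.qd.dimsq, H.hA.card]
  push_cast
  ring

theorem Nxx (k : QL A B × P) : M.N (.inl 1, 0) (.inl 1, 0) k = if k.2 = 0 then 1 else 0 := by
  exact_mod_cast H.N0 H.o_eq _ _ (fun _ => 1) (fun j => by simpa using H.qd.vxx j) k

theorem selfdual (k l : QL A B × P) (hk : k.2 = 0) (h : k ≠ l) : M.N k l M.o = 0 := by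
  refine M.selfdual_row k l (fun j => ?_) h
  have := M.dim_real (.inl 1, 0)
  rw [H.dim_eq] at this
  rw [H.S, hk, H.hp.zero_left, mul_one, H.qd.real (by simpa [qS] using this)]

theorem van (f : QL A B × P → ℂ) (h0 : ∀ k, k.2 ≠ 0 → f k = 0) (h1 : f (.inl 0, 0) = 1)
    (h2 : ∀ b : B, ∑ k, f k * M.S k (.inr (.inr b), 0) = 0) (b : B) :
    f (.inr (.inr b), 0) = f (.inl 1, 0) - 1 := by
  have hd : δ ≠ 0 := fun h =>
    absurd (H.qd.irr (a := 0) (b := 1) (by simpa using h)).2 one_ne_zero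
  have := H.hB.van H.ht (fun b => f (.inr (.inr b), 0) + (1 - f (.inl 1, 0))) (fun a => by
    have h3 := h2 a
    rw [H.sum0 f h0] at h3
    simp only [Fintype.sum_sum_type, Fin.sum_univ_two, qS, h1, mul_zero, Finset.sum_const_zero,
      if_true, one_ne_zero, if_false, mul_left_comm _ (-δ), ← Finset.mul_sum] at h3
    simp only [add_mul, Finset.sum_add_distrib, ← Finset.mul_sum, H.hB.sum_ff H.ht (H.hB.ne a)]
    refine mul_left_cancel₀ hd ?_
    unfold ff
    linear_combination -h3) b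
  linear_combination this

theorem shift (q : P) (k l : QL A B × P) :
    M.N (.inl 0, q) k l = if l = (k.1, q + k.2) then 1 else 0 := by
  exact_mod_cast M.N_of _ _ (fun l => if l = (k.1, q + k.2) then 1 else 0) (fun j => by
    simp only [ite_mul, one_mul, zero_mul, Finset.sum_ite_eq', Finset.mem_univ, if_true, H.o_eq,
      H.S, H.hp.add, H.hp.zero_left]
    ring) l

theorem Ndx' (b : B) (k : QL A B × P) : (M.N (.inr (.inr b), 0) (.inl 1, 0) k : ℂ) =
    if k.2 = 0 then 1 - (if k.1 = .inl 0 then 1 else 0) - (if k.1 = .inr (.inr b) then 1 else 0)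
    else 0 :=
  H.N0 H.o_eq _ _ (fun m => 1 - (if m = .inl 0 then 1 else 0) -
    (if m = .inr (.inr b) then 1 else 0)) (fun j => by
      simp only [H.qd.vdx, sub_mul, one_mul, ite_mul, zero_mul, Finset.sum_sub_distrib,
        Finset.sum_ite_eq', Finset.mem_univ, if_true]) k

theorem Ndx (b : B) (k : QL A B × P) : M.N (.inr (.inr b), 0) (.inl 1, 0) k =
    if k.2 = 0 ∧ k.1 ≠ .inl 0 ∧ k.1 ≠ .inr (.inr b) then 1 else 0 := by
  rw [← Nat.cast_inj (R := ℂ), H.Ndx']
  by_cases h1 : k.2 = 0 <;> by_cases h2 : k.1 = .inl 0 <;> by_cases h3 : k.1 = .inr (.inr b) <;>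
    simp_all

theorem cl_ex (g : G) (hg : g ≠ 0) : ∃ a : A, cl A B g = .inr (.inl a) ∧ PM (a : G) g := by
  by_cases h : g ∈ A
  · exact ⟨⟨g, h⟩, dif_pos h, Or.inl rfl⟩
  · have h' := not_not.1 (mt (H.hA.2 g hg).2 h)
    exact ⟨⟨-g, h'⟩, by rw [cl, dif_neg h, dif_pos h'], Or.inr rfl⟩

theorem cl_eq (g g' : G) (hg : g ≠ 0) (hg' : g' ≠ 0) : cl A B g = cl A B g' ↔ PM g g' := by
  obtain ⟨a, a1, a2⟩ := H.cl_ex g hg
  obtain ⟨b, b1, b2⟩ := H.cl_ex g' hg'
  have := H.hA.add_ne a b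
  rw [a1, b1, Sum.inr.injEq, Sum.inl.injEq, Subtype.ext_iff]
  unfold PM at *
  rcases a2 with a2 | a2 <;> rcases b2 with b2 | b2 <;> rw [a2, b2] at this ⊢
  · exact (or_iff_left fun e => this (by simp [e])).symm
  · exact (or_iff_right fun e => this (by simp [e])).symm
  · exact neg_eq_iff_eq_neg.trans (or_iff_right fun e => this (by simp [e])).symm
  · exact neg_inj.trans (or_iff_left fun e => this (by simp [e])).symm

theorem Ncx (b : B) (g : G) (hg : g ≠ 0) (k : QL A B × P) : M.N (cl A B g, 0) (.inl 1, 0) k =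
    (if k = (.inr (.inr b), 0) then 1 else 0) + M.N (.inr (.inr b), 0) (.inl 1, 0) k +
      (if k = (cl A B g, 0) then 1 else 0) := by
  obtain ⟨a, a1, -⟩ := H.cl_ex g hg
  rw [← Nat.cast_inj (R := ℂ), a1, H.N0 H.o_eq _ _ (fun m => 1 - (if m = .inl 0 then 1 else 0) +
    (if m = .inr (.inl a) then 1 else 0)) (fun j => by
      simp only [H.qd.vcx, sub_mul, add_mul, one_mul, ite_mul, zero_mul, Finset.sum_sub_distrib,
        Finset.sum_add_distrib, Finset.sum_ite_eq', Finset.mem_univ, if_true]) k]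
  push_cast
  rw [H.Ndx']
  by_cases h1 : k.2 = 0
  · simp only [h1, Prod.ext_iff, and_true, if_true]
    ring
  · simp [h1, Prod.ext_iff]

theorem S_cl (g : G) (hg : g ≠ 0) (j : QL A B × P) : M.S (cl A B g, 0) j = qR δ s g j.1 := by
  obtain ⟨a, a1, a2⟩ := H.cl_ex g hg
  rw [a1, H.S0, H.qd.qR_eq a a2]

theorem sum_mult (g : G) (j : QL A B × P) :
    ∑ m, (mult M.o (.inl 1, 0) (fun g => (cl A B g, 0)) g m : ℂ) * M.S m j = qR δ s g j.1 := by
  by_cases hg : g = 0
  · have : ∀ m : QL A B × P, (if m = (.inl 0, 0) ∨ m = (.inl 1, 0) then (1 : ℂ) else 0) =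
        (if m = (.inl 0, 0) then 1 else 0) + if m = (.inl 1, 0) then 1 else 0 := fun m => by
      by_cases h1 : m = (.inl 0, 0) <;> by_cases h2 : m = (.inl 1, 0) <;> simp_all
    simp [mult, hg, H.o_eq, this, add_mul, Finset.sum_add_distrib, H.S0, H.qd.qR_zero,
      -ite_mul, boole_mul]
  · simp [mult, hg, H.S_cl g hg]

theorem Ncc (b : B) (g g' : G) (hg : g ≠ 0) (hg' : g' ≠ 0) (k : QL A B × P) :
    M.N (cl A B g, 0) (cl A B g', 0) k = M.N (.inr (.inr b), 0) (cl A B g', 0) k +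
      mult M.o (.inl 1, 0) (fun g => (cl A B g, 0)) (g + g') k +
      mult M.o (.inl 1, 0) (fun g => (cl A B g, 0)) (g - g') k := by
  exact_mod_cast M.N_of _ _ (fun k => (M.N (.inr (.inr b), 0) (cl A B g', 0) k : ℂ) +
      mult M.o (.inl 1, 0) (fun g => (cl A B g, 0)) (g + g') k +
      mult M.o (.inl 1, 0) (fun g => (cl A B g, 0)) (g - g') k) (fun j => by
    simp only [add_mul, Finset.sum_add_distrib, H.sum_mult, mul_add, ← M.verlinde]
    rw [H.S_cl g hg, H.S_cl g' hg', H.o_eq, H.S0, H.S0, H.qd.vcc b]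
    ring) k

end Quad

end Pool.Agent.Lib.MP_edb142_al
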