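import Mathlib

open CategoryTheory MonoidalCategory

namespace Pool.Agent.Lib.MP_edb142_al

universe v u

/-- A monoidal dagger structure: a conjugate linear contravariant operation on morphisms that is the
identity on objects, is compatible with the tensor product and inverts the associator.  The adjoint
of a unitary fusion category is one; neither involutivity nor positivity is asked for here. -/
structure Dagger (C : Type u) [Category.{v} C] [Preadditive C] [Linear ℂ C]
    [MonoidalCategory C] where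
  dag : ∀ {X Y : C}, (X ⟶ Y) → (Y ⟶ X)
  dag_add : ∀ {X Y : C} (f g : X ⟶ Y), dag (f + g) = dag f + dag g
  dag_smul : ∀ {X Y : C} (c : ℂ) (f : X ⟶ Y), dag (c • f) = (starRingEnd ℂ) c • dag f
  dag_id : ∀ X : C, dag (𝟙 X) = 𝟙 X
  dag_comp : ∀ {X Y Z : C} (f : X ⟶ Y) (g : Y ⟶ Z), dag (f ≫ g) = dag g ≫ dag f
  dag_tensor : ∀ {X Y X' Y' : C} (f : X ⟶ Y) (g : X' ⟶ Y'), dag (f ⊗ₘ g) = dag f ⊗ₘ dag g
  dag_assoc : ∀ X Y Z : C, dag (α_ X Y Z).hom = (α_ X Y Z).inv

variable {G Γ : Type} [AddCommGroup G] [AddCommGroup Γ]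

/-- The polarisation of a function on an abelian group. -/
noncomputable def pol (θ : G → ℂ) (g h : G) : ℂ := θ (g + h) / (θ g * θ h)

/-- `θ` is a nondegenerate quadratic form with values in the nonzero complex numbers. -/
structure IsMetric (θ : G → ℂ) : Prop where
  ne : ∀ g, θ g ≠ 0
  even : ∀ g, θ (-g) = θ g
  add : ∀ g h k, pol θ (g + h) k = pol θ g k * pol θ h k
  nondeg : ∀ g, (∀ h, pol θ g h = 1) → g = 0

/-- `A` contains exactly one element of each pair `g`, `-g` of nonzero elements. -/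
def IsHalf (A : Finset G) : Prop := 0 ∉ A ∧ ∀ g, g ≠ 0 → (g ∈ A ↔ -g ∉ A)

/-- Labels: two distinguished ones (the unit is `inl 0`), the pairs `±g` in `G` and the pairs `±γ`
in `Γ`. -/
abbrev QL (A : Finset G) (B : Finset Γ) : Type := Fin 2 ⊕ A ⊕ B

variable {A : Finset G} {B : Finset Γ}

/-- The Evans-Gannon `S`-matrix attached to two quadratic forms, normalised by
`S(unit, unit) = 1`. -/
noncomputable def qS (δ : ℂ) (s : G → ℂ) (t : Γ → ℂ) : QL A B → QL A B → ℂ
  | .inl i, .inl j => if i = j then 1 else δ + 1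
  | .inl _, .inr (.inl _) => δ + 2
  | .inr (.inl _), .inl _ => δ + 2
  | .inl i, .inr (.inr _) => if i = 0 then δ else -δ
  | .inr (.inr _), .inl j => if j = 0 then δ else -δ
  | .inr (.inl g), .inr (.inl h) => (δ + 2) * (pol s g h + (pol s g h)⁻¹)
  | .inr (.inl _), .inr (.inr _) => 0
  | .inr (.inr _), .inr (.inl _) => 0
  | .inr (.inr g), .inr (.inr h) => -δ * (pol t g h + (pol t g h)⁻¹)

/-- The Evans-Gannon twists attached to two quadratic forms. -/
noncomputable def qT (s : G → ℂ) (t : Γ → ℂ) : QL A B → ℂ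
  | .inl _ => 1
  | .inr (.inl g) => s g
  | .inr (.inr g) => t g

end Pool.Agent.Lib.MP_edb142_al
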