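import Pool.Agent.Lib.MP_edb142_al.H.QG

open CategoryTheory MonoidalCategory Limits BraidedCategory Module
open Functor.LaxMonoidal Functor.OplaxMonoidal

set_option linter.unusedSectionVars false

namespace Pool.Agent.Lib.MP_edb142_al

universe v u v' u'

namespace K3

section Tot
variable {D : Type u'} [Category.{v'} D] [Preadditive D] [MonoidalCategory D]
  [MonoidalPreadditive D] {T T' : Type} [Fintype T] [Fintype T'] {X X' U : D} {W : T → D}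
  {W' : T' → D} {i : ∀ t, W t ⟶ X} {p : ∀ t, X ⟶ W t} {i' : ∀ t, W' t ⟶ X'} {p' : ∀ t, X' ⟶ W' t}

theorem tot_ext (h : ∑ t, p t ≫ i t = 𝟙 X) {f g : X ⟶ U} (e : ∀ t, i t ≫ f = i t ≫ g) :
    f = g := by
  rw [← Category.id_comp f, ← Category.id_comp g, ← h]
  simp only [Preadditive.sum_comp, Category.assoc, e]

theorem tot_tens (h : ∑ t, p t ≫ i t = 𝟙 X) (h' : ∑ t, p' t ≫ i' t = 𝟙 X') :
    ∑ t : T × T', (p t.1 ⊗ₘ p' t.2) ≫ (i t.1 ⊗ₘ i' t.2) = 𝟙 (X ⊗ X') := by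
  rw [← id_tensorHom_id, ← h, ← h', sum_tensor, Fintype.sum_prod_type]
  simp only [tensor_sum, tensorHom_comp_tensorHom]

/-- a symmetric structure on a full monoidal subcategory -/
@[implicit_reducible] def symS (S : ObjectProperty D) [S.IsMonoidal]
    (γ : ∀ X Y : S.FullSubcategory, X.obj ⊗ Y.obj ⟶ Y.obj ⊗ X.obj)
    (nl : ∀ X Y Z (f : X.obj ⟶ Y.obj), f ▷ Z.obj ≫ γ Y Z = γ X Z ≫ Z.obj ◁ f)
    (nr : ∀ X Y Z (f : Y.obj ⟶ Z.obj), X.obj ◁ f ≫ γ X Z = γ X Y ≫ f ▷ X.obj)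
    (sy : ∀ X Y, γ X Y ≫ γ Y X = 𝟙 _)
    (hx : ∀ X Y Z, γ X (Y ⊗ Z) = (α_ _ _ _).inv ≫ γ X Y ▷ Z.obj ≫ (α_ _ _ _).hom ≫
      Y.obj ◁ γ X Z ≫ (α_ _ _ _).inv) : SymmetricCategory S.FullSubcategory where
  braiding X Y := S.isoMk ⟨γ X Y, γ Y X, sy X Y, sy Y X⟩
  braiding_naturality_right X Y Z f := ObjectProperty.hom_ext _ (nr X Y Z f.hom)
  braiding_naturality_left {X Y} f Z := ObjectProperty.hom_ext _ (nl X Y Z f.hom)
  hexagon_forward X Y Z := ObjectProperty.hom_ext _ (by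
    change (α_ X.obj Y.obj Z.obj).hom ≫ γ X (Y ⊗ Z) ≫ (α_ Y.obj Z.obj X.obj).hom =
      γ X Y ▷ Z.obj ≫ (α_ Y.obj X.obj Z.obj).hom ≫ Y.obj ◁ γ X Z
    rw [hx]
    simp)
  hexagon_reverse X Y Z := ObjectProperty.hom_ext _ (by
    change (α_ X.obj Y.obj Z.obj).inv ≫ γ (X ⊗ Y) Z ≫ (α_ Z.obj X.obj Y.obj).inv =
      X.obj ◁ γ Y Z ≫ (α_ X.obj Z.obj Y.obj).inv ≫ γ X Z ▷ Y.obj
    have e : γ Z (X ⊗ Y) ≫ (α_ X.obj Y.obj Z.obj).hom ≫ X.obj ◁ γ Y Z ≫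
        (α_ X.obj Z.obj Y.obj).inv ≫ γ X Z ▷ Y.obj = (α_ Z.obj X.obj Y.obj).inv := by
      rw [hx]
      simp only [Category.assoc, Iso.inv_hom_id_assoc]
      rw [← MonoidalCategory.whiskerLeft_comp_assoc, sy, MonoidalCategory.whiskerLeft_id,
        Category.id_comp, Iso.hom_inv_id_assoc, ← comp_whiskerRight, sy, id_whiskerRight,
        Category.comp_id]
    rw [← e, reassoc_of% sy (X ⊗ Y) Z, Iso.inv_hom_id_assoc])
  symmetry X Y := ObjectProperty.hom_ext _ (sy X Y)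

end Tot

variable {C : Type u} [Category.{v} C] [Preadditive C] [Linear ℂ C] [MonoidalCategory C]
  [MonoidalPreadditive C] [MonoidalLinear ℂ C] [HasFiniteBiproducts C] [BraidedCategory C]
  [RigidCategory C] {I : Type} [Fintype I] [DecidableEq I]
  {D : Type u'} [Category.{v'} D] [Preadditive D] [Linear ℂ D] [MonoidalCategory D]
  [MonoidalPreadditive D] [MonoidalLinear ℂ D]
  {F : C ⥤ D} [F.Monoidal] [F.Additive] [F.Linear ℂ] (M : Modular C I)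

theorem Ifc.ext2 {A : C} (h : Ifc F A) {P Q T : D} {f g : P ⊗ Q ⟶ T}
    (e : ∀ (Y Z : C) (y : F.obj Y ⟶ P) (z : F.obj Z ⟶ Q), (y ⊗ₘ z) ≫ f = (y ⊗ₘ z) ≫ g) :
    f = g := by
  obtain ⟨Y, i, p, hp⟩ := h.gen P
  obtain ⟨Z, j, q, hq⟩ := h.gen Q
  have := congrArg ((i ⊗ₘ j) ≫ ·) (e Y Z p q)
  simpa only [tensorHom_comp_tensorHom_assoc, hp, hq, id_tensorHom_id, Category.id_comp] using this

/-- the braiding of local modules -/
theorem Ifc.ex_br {A : C} (h : Ifc F A) {P Q : D} (hP : ∀ k, rk M F k P ≠ 0 → M.T k = 1)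
    (hQ : ∀ k, rk M F k Q ≠ 0 → M.T k = 1) (hT : ∀ k, rk M F k (Q ⊗ P) ≠ 0 → M.T k = 1) :
    ∃ γ : P ⊗ Q ⟶ Q ⊗ P, ∀ (Y Z : C) (y : F.obj Y ⟶ P) (z : F.obj Z ⟶ Q), Br F y z γ := by
  obtain ⟨Y0, i, p, hp⟩ := h.gen P
  obtain ⟨Z0, j, q, hq⟩ := h.gen Q
  have b0 : ∀ (Y : C) (y : F.obj Y ⟶ P),
      Br F y q ((i ⊗ₘ j) ≫ c0 F Y0 Z0 ≫ (q ⊗ₘ p)) → ∀ (Z : C) (z : F.obj Z ⟶ Q),
      Br F y z ((i ⊗ₘ j) ≫ c0 F Y0 Z0 ≫ (q ⊗ₘ p)) := fun Y y b Z z => by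
    simpa only [Category.assoc, hq, Category.comp_id] using b.red h (z ≫ j)
  have c : ∀ (Y Z : C) (y : F.obj Y ⟶ P) (z : F.obj Z ⟶ Q),
      c0 F Z Y ≫ c0 F Y Z ≫ (z ⊗ₘ y) = z ⊗ₘ y := fun Y Z y z => by
    simpa only [Category.comp_id] using c0_c0 M h (y := z) (z := y) hQ hP hT (𝟙 _)
  have iso : ∀ Y Z : C, IsIso (c0 F Y Z) := fun Y Z => by unfold c0; infer_instance
  have nl : ∀ (Y Z : C) (y : F.obj Y ⟶ P) (z : F.obj Z ⟶ Q),
      c0 F Y Z ≫ (z ⊗ₘ y) = (y ≫ i) ▷ F.obj Z ≫ c0 F Y0 Z ≫ (z ⊗ₘ p) := fun Y Z y z => by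
    rw [← cancel_epi (c0 F Z Y), c, ← reassoc_of% h.nat Z Y Y0 (y ≫ i), c,
      whiskerLeft_comp_tensorHom, Category.assoc, hp, Category.comp_id]
  refine ⟨(i ⊗ₘ j) ≫ c0 F Y0 Z0 ≫ (q ⊗ₘ p), fun Y Z y z => ?_⟩
  unfold Br
  rw [nl, tensorHom_comp_tensorHom_assoc, MonoidalCategory.tensorHom_def (y ≫ i), Category.assoc,
    reassoc_of% h.nat Y0 Z Z0 (z ≫ j), whiskerRight_comp_tensorHom, Category.assoc, hq,
    Category.comp_id]

/-- the graded algebra, read in the ambient category -/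
theorem Ifc.alg {A : C} (h : Ifc F A) {Λ : Type} [AddCommGroup Λ] [Fintype Λ]
    (hodd : Odd (Fintype.card Λ)) (Q : Λ → D) (hQ : Fam Q)
    (hT : ∀ a k, rk M F k (Q a) ≠ 0 → M.T k = 1) :
    ∃ (u : 𝟙_ D ≅ Q 0) (m : ∀ a b c, a + b = c → (Q a ⊗ Q b ≅ Q c)),
      (∀ a, u.hom ▷ Q a ≫ (m 0 a a (zero_add a)).hom = (λ_ (Q a)).hom) ∧
      (∀ a b c d e f (h1 : a + b = d) (h2 : d + c = f) (h3 : b + c = e) (h4 : a + e = f),
        (m a b d h1).hom ▷ Q c ≫ (m d c f h2).hom =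
          (α_ (Q a) (Q b) (Q c)).hom ≫ Q a ◁ (m b c e h3).hom ≫ (m a e f h4).hom) ∧
      ∀ a b c (h1 : a + b = c) (h2 : b + a = c) (Y Z : C) (y : F.obj Y ⟶ Q a)
        (z : F.obj Z ⟶ Q b),
        c0 F Y Z ≫ (z ⊗ₘ y) ≫ (m b a c h2).hom = (y ⊗ₘ z) ≫ (m a b c h1).hom := by
  let S : ObjectProperty D := fun X => ∃ a, Nonempty (X ≅ Q a)
  have : S.IsMonoidal :=
    { prop_unit := ⟨0, hQ.unit⟩
      prop_tensor := fun X Y ⟨a, ⟨φ⟩⟩ ⟨b, ⟨ψ⟩⟩ => ⟨a + b, ⟨(φ ⊗ᵢ ψ) ≪≫ (hQ.mul a b).some⟩⟩ }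
  have lc : ∀ X : S.FullSubcategory, ∀ k, rk M F k X.obj ≠ 0 → M.T k = 1 :=
    fun ⟨X, a, ⟨φ⟩⟩ k hk => hT a k (by rwa [← rk_iso M k φ])
  choose γ hγ using fun X Y : S.FullSubcategory => h.ex_br M (lc X) (lc Y) (lc (Y ⊗ X))
  unfold Br at hγ
  let _ := symS S γ
    (fun X Y Z f => h.ext2 fun U V y z => by
      rw [tensorHom_comp_whiskerRight_assoc, ← hγ, ← reassoc_of% hγ, tensorHom_comp_whiskerLeft])
    (fun X Y Z f => h.ext2 fun U V y z => by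
      rw [tensorHom_comp_whiskerLeft_assoc, ← hγ, ← reassoc_of% hγ, tensorHom_comp_whiskerRight])
    (fun X Y => h.ext2 fun U V y z => by
      rw [← reassoc_of% hγ, ← hγ]
      simpa only [Category.comp_id] using c0_c0 M h (lc X) (lc Y) (lc (X ⊗ Y)) (𝟙 _))
    (fun X Y Z => by
      obtain ⟨U, i, p, hp⟩ := h.gen X.obj
      obtain ⟨V, j, q, hq⟩ := h.gen Y.obj
      obtain ⟨W, k, r, hr⟩ := h.gen Z.obj
      have e := (hγ X (Y ⊗ Z) U _ p (δ F V W ≫ (q ⊗ₘ r))).symm.trans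
        (Br.tensor (hγ X Y U V p q) (hγ X Z U W p r))
      have e2 := congrArg ((i ⊗ₘ ((j ⊗ₘ k) ≫ μ F V W)) ≫ ·) e
      simpa only [tensorHom_comp_tensorHom_assoc, Category.assoc, Functor.Monoidal.μ_δ_assoc,
        tensorHom_comp_tensorHom, hp, hq, hr, id_tensorHom_id, Category.id_comp] using e2)
  let Q' : Λ → S.FullSubcategory := fun a => ⟨Q a, a, ⟨Iso.refl _⟩⟩
  obtain ⟨G⟩ := grAlg_exists hodd Q'
    (fun a => ⟨fun e => (hQ.sim a).ne (congrArg (·.hom) e), fun f : Q' a ⟶ Q' a =>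
      ((hQ.sim a).ex f.hom).imp fun c e => ObjectProperty.hom_ext _ e⟩)
    ⟨S.isoMk hQ.unit.some⟩ fun a b => ⟨S.isoMk (hQ.mul a b).some⟩
  refine ⟨S.ι.mapIso G.u, fun a b c e => S.ι.mapIso (G.μ a b c e),
    fun a => congrArg (·.hom) (G.one a),
    fun a b c d e f h1 h2 h3 h4 => congrArg (·.hom) (G.assoc a b c d e f h1 h2 h3 h4),
    fun a b c h1 h2 Y Z y z => ?_⟩
  have e : γ (Q' a) (Q' b) ≫ (G.μ b a c h2).hom.hom = (G.μ a b c h1).hom.hom :=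
    congrArg (·.hom) (G.comm a b c h1 h2)
  exact ((reassoc_of% hγ (Q' a) (Q' b) Y Z y z) _).trans (congrArg (_ ≫ ·) e)

theorem Ifc.extend [HasFiniteBiproducts D] {A : C} (h : Ifc F A) {Λ : Type} [AddCommGroup Λ]
    [Fintype Λ] (hodd : Odd (Fintype.card Λ)) (Q : Λ → D) (hQ : Fam Q)
    (hT : ∀ a k, rk M F k (Q a) ≠ 0 → M.T k = 1)
    (hd : ∑ a, ∑ k, (rk M F k (Q a) : ℂ) * M.dim k ≠ 0) :
    ∃ L, Nonempty (Etale M L) ∧
      M.trL L (𝟙 L) = ∑ a, ∑ k, (rk M F k (Q a) : ℂ) * M.dim k := by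
  classical
  obtain ⟨u, n, one, as, com⟩ := h.alg M hodd Q hQ hT
  have hfin := h.fin M
  let i : ∀ a, Q a ⟶ ⨁ Q := biproduct.ι Q
  let p : ∀ a, ⨁ Q ⟶ Q a := biproduct.π Q
  have tot : ∑ a, p a ≫ i a = 𝟙 (⨁ Q) := biproduct.total
  have ip : ∀ a, i a ≫ p a = 𝟙 _ := biproduct.ι_π_self Q
  have ip' : ∀ {a b : Λ}, a ≠ b → i a ≫ p b = 0 := fun e => biproduct.ι_π_ne Q e
  have ind : ∀ a b c c' (e : a + b = c) (e' : a + b = c'),
      (n a b c e).hom ≫ i c = (n a b c' e').hom ≫ i c' := fun a b c c' e e' => by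
    subst e e'; rfl
  obtain ⟨m, hm⟩ : ∃ m : (⨁ Q) ⊗ (⨁ Q) ⟶ ⨁ Q, ∀ a b c (e : a + b = c),
      (i a ⊗ₘ i b) ≫ m = (n a b c e).hom ≫ i c := by
    refine ⟨∑ a, ∑ b, (p a ⊗ₘ p b) ≫ (n a b _ rfl).hom ≫ i (a + b), fun a b c e => ?_⟩
    simp only [Preadditive.comp_sum, tensorHom_comp_tensorHom_assoc]
    rw [Finset.sum_eq_single a, Finset.sum_eq_single b, ip, ip, id_tensorHom_id, Category.id_comp,
      ind a b _ c rfl e]
    · intro b' _ hb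
      rw [ip' hb.symm, MonoidalPreadditive.tensor_zero, zero_comp]
    · simp
    · intro a' _ ha
      refine Finset.sum_eq_zero fun b' _ => ?_
      rw [ip' ha.symm, MonoidalPreadditive.zero_tensor, zero_comp]
    · simp
  have rB : ∀ k, rk M F k (⨁ Q) = ∑ a, rk M F k (Q a) := fun k =>
    finrank_sum _ Q i p ip tot
  have dm : ∑ k, (rk M F k (⨁ Q) : ℂ) * M.dim k = ∑ a, ∑ k, (rk M F k (Q a) : ℂ) * M.dim k := by
    rw [Finset.sum_comm]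
    simp only [rB, Nat.cast_sum, Finset.sum_mul]
  rw [← dm] at hd ⊢
  refine transfer M h m (u.hom ≫ i 0) (tot_ext (tot_tens (tot_tens tot tot) tot) fun t => ?_)
    (tot_ext (p := fun a => 𝟙_ D ◁ p a) (i := fun a => 𝟙_ D ◁ i a) ?_ fun a => ?_)
    (fun Y Z y z => ?_) ?_ (fun k hk => ?_) hd fun Y y hy => ?_
  · obtain ⟨⟨a, b⟩, c⟩ := t
    rw [tensorHom_comp_whiskerRight_assoc, hm a b _ rfl, ← whiskerRight_comp_tensorHom,
      Category.assoc, hm _ c _ rfl, associator_naturality_assoc, tensorHom_comp_whiskerLeft_assoc,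
      hm b c _ rfl, ← whiskerLeft_comp_tensorHom, Category.assoc, hm a _ _ (add_assoc a b c).symm,
      reassoc_of% as a b c _ _ _ rfl rfl rfl (add_assoc a b c).symm]
  · simp only [← MonoidalCategory.whiskerLeft_comp, ← whiskerLeft_sum, tot,
      MonoidalCategory.whiskerLeft_id]
  · rw [← tensorHom_def'_assoc, ← whiskerRight_comp_tensorHom, Category.assoc,
      hm 0 a a (zero_add a), reassoc_of% one a, leftUnitor_naturality]
  · unfold Com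
    rw [← Category.comp_id y, ← Category.comp_id z, ← tot]
    simp only [Preadditive.comp_sum, sum_tensor, tensor_sum, Preadditive.sum_comp]
    rw [Finset.sum_comm]
    refine Finset.sum_congr rfl fun a _ => Finset.sum_congr rfl fun b _ => ?_
    rw [← Category.assoc y, ← Category.assoc z, ← tensorHom_comp_tensorHom,
      ← tensorHom_comp_tensorHom (y ≫ p _), Category.assoc, Category.assoc, hm _ _ _ rfl,
      hm _ _ _ (add_comm _ _), reassoc_of% com _ _ _ (add_comm _ _) rfl]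
  · rw [rB, Finset.sum_eq_single 0, ← rank_unit, rank_iso' _ u, (hQ.sim 0).finrank_eq]
    · intro a _ ha
      rw [← rank_unit, rank_iso' _ u]
      exact finrank_zero_iff_forall_zero.2 (hQ.zero 0 a ha.symm)
    · simp
  · obtain ⟨a, -, ha⟩ := Finset.exists_ne_zero_of_sum_ne_zero (rB k ▸ hk)
    exact hT a k ha
  · obtain ⟨a, ha⟩ : ∃ a, y ≫ p a ≠ 0 := by
      by_contra! h0
      exact hy (biproduct.hom_ext _ _ fun a => (h0 a).trans zero_comp.symm)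
    obtain ⟨g, hg⟩ := (hQ.sim a).epi ha (h.reg _)
    have e1 : g ≫ y = i a := biproduct.hom_ext _ _ fun b => by
      by_cases hb : a = b
      · subst hb
        exact (Category.assoc _ _ _).trans (hg.trans (ip a).symm)
      · exact (hQ.zero a b hb _).trans (hQ.zero a b hb _).symm
    exact ⟨u.hom ≫ (n a (-a) 0 (add_neg_cancel a)).inv ≫ (g ⊗ₘ i (-a)), by
      rw [Category.assoc, Category.assoc, tensorHom_comp_whiskerRight_assoc, e1,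
        hm a (-a) 0 (add_neg_cancel a), Iso.inv_hom_id_assoc]⟩

end K3

end Pool.Agent.Lib.MP_edb142_al
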