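import Pool.Agent.Lib.MP_edb142_al.H.QA

open CategoryTheory MonoidalCategory Limits BraidedCategory Module

set_option linter.unusedSectionVars false

namespace Pool.Agent.Lib.MP_edb142_al

universe v u v' u'

namespace QF

variable {G : Type} [AddCommGroup G]

theorem two [Fintype G] (hG : Odd (Fintype.card G)) (g : G) (h : g + g = 0) : g = 0 := by
  obtain ⟨k, hk⟩ := hG
  have := card_nsmul_eq_zero (x := g)
  rwa [hk, add_nsmul, mul_nsmul, two_nsmul, h, nsmul_zero, one_nsmul, zero_add] at this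

theorem pm0 {g : G} (h : PM g 0) : g = 0 := by
  rcases h with h | h
  · exact h
  · rw [h, neg_zero]

theorem pm_neg (g : G) : PM (-g) g := Or.inr rfl

theorem pm_ne {g g' : G} (h : PM g g') (h0 : g ≠ 0) : g' ≠ 0 := fun e => h0 (pm0 (e ▸ h))

theorem pm_symm {g g' : G} (h : PM g g') : PM g' g := by
  rcases h with h | h
  · exact Or.inl h.symm
  · exact Or.inr (by rw [h, neg_neg])

theorem lift [Fintype G] (hG : Odd (Fintype.card G)) (m : G → G → G)
    (assoc : ∀ a b c, m (m a b) c = m a (m b c)) (one : ∀ a, m 0 a = a)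
    (val : ∀ a b, (PM (m a b) (a + b) ∧ PM (m (-a) b) (a - b)) ∨
      (PM (m a b) (a - b) ∧ PM (m (-a) b) (a + b))) :
    ∃ φ : G → G, φ 0 = 0 ∧ Function.Injective φ ∧ (∀ a b, m (φ a) (φ b) = φ (a + b)) ∧
      ∀ a, PM (φ a) a := by
  classical
  letI : Mul G := ⟨m⟩
  letI : One G := ⟨0⟩
  letI : Inv G := ⟨fun a => if m a a = 0 then a else -a⟩
  have li : ∀ a : G, m (if m a a = 0 then a else -a) a = 0 := fun a => by
    split_ifs with h
    · exact h
    · rcases val a a with ⟨-, e⟩ | ⟨e, -⟩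
      · exact pm0 (sub_self a ▸ e)
      · exact (h (pm0 (sub_self a ▸ e))).elim
  letI : Group G := Group.ofLeftAxioms assoc one li
  have iv : ∀ a : G, a⁻¹ = -a := fun a => by
    change (if m a a = 0 then a else -a) = -a
    split_ifs with h
    · obtain ⟨k, hk⟩ := hG
      have e : a ^ 2 = 1 := (pow_two a).trans h
      have e1 := pow_card_eq_one (x := a)
      rw [hk, pow_succ, pow_mul, e, one_pow, one_mul] at e1
      have e2 : a = 0 := e1
      rw [e2, neg_zero]
    · rfl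
  obtain ⟨ψ, h1, h2⟩ := two_valued (Ω := G) (G := G) (by rwa [Nat.card_eq_fintype_card])
    (two hG) id rfl (fun a b e => by rw [iv]; exact e) (fun a => by rw [iv]; exact pm_neg a)
    (fun a b => by rw [iv]; exact val a b)
  have h0 : ψ 0 = 0 := pm0 (h2 0)
  have inj : Function.Injective ψ := fun a b e => by
    have e1 : ψ (a⁻¹ * b) = 0 := by
      have e2 := h1 a (a⁻¹ * b)
      rw [mul_inv_cancel_left, e] at e2
      exact left_eq_add.1 e2
    have e3 : a⁻¹ * b = 1 := pm0 (pm_symm (e1 ▸ h2 (a⁻¹ * b)))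
    exact inv_mul_eq_one.1 e3
  let E := Equiv.ofBijective ψ (Finite.injective_iff_bijective.1 inj)
  have hE : ∀ a, ψ (E.symm a) = a := E.apply_symm_apply
  refine ⟨E.symm, inj (by rw [hE, h0]), E.symm.injective, fun a b => inj ?_, fun a => ?_⟩
  · rw [hE]
    exact (h1 _ _).trans (by rw [hE, hE])
  · have := h2 (E.symm a)
    rw [hE] at this
    exact pm_symm this

theorem num {I : Type} [DecidableEq I] {a b : I} (hab : a ≠ b) {f f' : I → ℕ}
    (h : ∀ k, f k + f' k = (if k = a then 1 else 0) + if k = b then 1 else 0)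
    (n : ¬ ∀ k, f k = 0) (n' : ¬ ∀ k, f' k = 0) (ha : f a ≠ 0) :
    (∀ k, f k = if k = a then 1 else 0) ∧ ∀ k, f' k = if k = b then 1 else 0 := by
  have e1 := h a
  have e2 := h b
  rw [if_pos rfl, if_neg hab] at e1
  rw [if_pos rfl, if_neg hab.symm] at e2
  have e3 : f' b ≠ 0 := fun e => n' fun k => by
    have := h k
    split_ifs at this with k1 k2 k2
    · rw [k2, e]
    · rw [k1]; omega
    · rw [k2, e]
    · omega
  have key : ∀ k, (f k = if k = a then 1 else 0) ∧ f' k = if k = b then 1 else 0 := fun k => by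
    by_cases k1 : k = a
    · rw [k1, if_pos rfl, if_neg hab]
      omega
    · by_cases k2 : k = b
      · rw [k2, if_pos rfl, if_neg hab.symm]
        omega
      · have := h k
        rw [if_neg k1, if_neg k2] at this ⊢
        omega
  exact ⟨fun k => (key k).1, fun k => (key k).2⟩

variable {I : Type} [DecidableEq I] [DecidableEq G] {o x : I} {c : G → I}

theorem mult_ne {g : G} (hg : g ≠ 0) (k : I) : mult o x c g k = if k = c g then 1 else 0 :=
  if_neg hg

theorem mult_zero (k : I) : mult o x c 0 k = if k = o ∨ k = x then 1 else 0 := if_pos rfl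

theorem mult_pm (hc : ∀ g g', g ≠ 0 → g' ≠ 0 → (c g = c g' ↔ PM g g')) {g g' : G} (e : PM g g')
    (k : I) : mult o x c g k = mult o x c g' k := by
  by_cases h : g = 0
  · subst h
    rw [pm0 (pm_symm e)]
  · rw [mult_ne h, mult_ne (pm_ne e h), (hc _ _ h (pm_ne e h)).2 e]

theorem pm_mult (hc : ∀ g g', g ≠ 0 → g' ≠ 0 → (c g = c g' ↔ PM g g'))
    (ho : ∀ g, g ≠ 0 → c g ≠ o) {g g' : G} (e : ∀ k, mult o x c g k = mult o x c g' k) :
    PM g g' := by
  have key : ∀ a : G, a ≠ 0 → mult o x c 0 o ≠ mult o x c a o := fun a ha => by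
    rw [mult_zero, mult_ne ha, if_pos (Or.inl rfl), if_neg (ho a ha).symm]
    exact one_ne_zero
  by_cases h : g = 0 <;> by_cases h' : g' = 0
  · exact Or.inl (h.trans h'.symm)
  · exact (key g' h' (h ▸ e o)).elim
  · exact (key g h (h' ▸ e o).symm).elim
  · have := e (c g)
    rw [mult_ne h, mult_ne h', if_pos rfl] at this
    refine (hc _ _ h h').1 ?_
    by_contra hh
    rw [if_neg hh] at this
    exact one_ne_zero this

end QF

namespace K3

variable {C : Type u} [Category.{v} C] [Preadditive C] [Linear ℂ C] [MonoidalCategory C]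
  [MonoidalPreadditive C] [MonoidalLinear ℂ C] [HasFiniteBiproducts C] [BraidedCategory C]
  [RigidCategory C] {I : Type} [Fintype I] [DecidableEq I]
  {D : Type u'} [Category.{v'} D] [Preadditive D] [Linear ℂ D] [MonoidalCategory D]
  [MonoidalPreadditive D] [MonoidalLinear ℂ D]
  {F : C ⥤ D} [F.Monoidal] [F.Additive] [F.Linear ℂ] (M : Modular C I)

/-- the two halves of the part of `F a` that is not `F mu` -/
structure Hv (F : C ⥤ D) (mu a : I) (P Q : D) : Prop where
  r : ∀ k, rk M F k P = if k = a then 1 else 0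
  r' : ∀ k, rk M F k Q = if k = a then 1 else 0
  s : Sim P
  s' : Sim Q
  ne : IsEmpty (P ≅ Q)
  cls : ∀ T : D, (∀ k, rk M F k T = if k = a then 1 else 0) → Nonempty (P ≅ T) ∨ Nonempty (Q ≅ T)
  cnt : ∀ (b : I) (T : D), (∀ k, rk M F k T = if k = b then 1 else 0) → ∀ k,
    M.N a b k = M.N mu b k + (rk M F k (P ⊗ T) + rk M F k (Q ⊗ T))

theorem Hv.symm {mu a : I} {P Q : D} (H : Hv M F mu a P Q) : Hv M F mu a Q P :=
  ⟨H.r', H.r, H.s', H.s, ⟨fun φ => H.ne.false φ.symm⟩, fun T e => (H.cls T e).symm,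
    fun b T e k => by rw [H.cnt b T e k, add_comm (rk M F k (P ⊗ T))]⟩

namespace Ifc
variable {A : C} (h : Ifc F A)
include h

theorem halves (x a mu : I)
    (hA : ∀ k, finrank ℂ (M.X k ⟶ A) = if k = M.o ∨ k = x then 1 else 0) (hxo : x ≠ M.o)
    (hma : mu ≠ a) (hmm : M.N mu x mu = 0) (hm1 : M.N mu x a = 1)
    (h1 : ∀ k, M.N a x k = (if k = mu then 1 else 0) + M.N mu x k + (if k = a then 1 else 0)) :
    ∃ P Q : D, Hv M F mu a P Q := by
  have hfin := h.fin M
  have r0 : ∀ k i, rk M F k (F.obj (M.X i)) = (if k = i then 1 else 0) + M.N i x k := by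
    intro k i
    rw [h.rk_obj, rank_tens M, Finset.sum_eq_add M.o x hxo.symm, hA, hA, if_pos (Or.inl rfl),
      if_pos (Or.inr rfl), one_mul, one_mul,
      rank_iso _ (whiskerLeftIso _ M.unit_iso.some.symm ≪≫ ρ_ _), rank_X]
    · rfl
    · intro c _ hc
      rw [hA, if_neg (by tauto), zero_mul]
    · simp
    · simp
  have sm : Sim (F.obj (M.X mu)) :=
    Sim.of_finrank ((r0 mu mu).trans (by rw [if_pos rfl, hmm]))
  obtain ⟨f, hf⟩ := h.ex_of_rank (P := F.obj (M.X a)) (Q := F.obj (M.X mu))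
    ((r0 a mu).trans_ne (by omega)) M
  obtain ⟨g, hg⟩ := sm.epi hf (h.reg f)
  obtain ⟨W, d, -⟩ := h.dec g f hg
  have rW : ∀ k, rk M F k W = if k = a then 2 else 0 := fun k => by
    have := h.rk_dec M d k
    rw [r0, r0, h1] at this
    split_ifs at this ⊢ <;> omega
  obtain ⟨P, Q, d', nP, nQ⟩ := h.idem (W := W) (by
    have e1 : rk M F a W = rk M F mu W + _ := d.rank_from W
    rw [rW, rW, if_pos rfl, if_neg hma] at e1
    omega) M
  have r12 : ∀ k, rk M F k P + rk M F k Q = if k = a then 2 else 0 := fun k =>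
    (h.rk_dec M d' k).symm.trans (rW k)
  have ra : ∀ T : D, 𝟙 T ≠ 0 → (∀ k, k ≠ a → rk M F k T = 0) → rk M F a T ≠ 0 :=
    fun T n e e' => n (h.zero_of_rk M fun k => by
      by_cases hk : k = a
      · rw [hk, e']
      · exact e k hk)
  have a1 := ra P nP fun k hk => by have := r12 k; rw [if_neg hk] at this; omega
  have a2 := ra Q nQ fun k hk => by have := r12 k; rw [if_neg hk] at this; omega
  have rPQ : ∀ k, (rk M F k P = if k = a then 1 else 0) ∧ rk M F k Q = if k = a then 1 else 0 :=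
    fun k => by
      have := r12 k
      split_ifs at this ⊢ with hk
      · subst hk; omega
      · omega
  have rP := fun k => (rPQ k).1
  have rQ := fun k => (rPQ k).2
  have one : ∀ T : D, (∀ k, rk M F k T = if k = a then 1 else 0) →
      finrank ℂ (P ⟶ T) + finrank ℂ (Q ⟶ T) = 1 := fun T e => by
    have e1 : rk M F a T = rk M F mu T + _ := d.rank_from T
    rw [e, e, if_pos rfl, if_neg hma, d'.rank_from T] at e1
    omega
  have p1 := one P rP
  have p2 := one Q rQ
  have p3 := rank_pos nP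
  have p4 := rank_pos nQ
  have sP : Sim P := Sim.of_finrank (by omega)
  have sQ : Sim Q := Sim.of_finrank (by omega)
  refine ⟨P, Q, rP, rQ, sP, sQ, ⟨fun φ => ?_⟩, fun T e => ?_, fun b T e k => ?_⟩
  · have := rank_iso P φ
    omega
  · have := one T e
    by_cases h0 : finrank ℂ (P ⟶ T) = 0
    · exact Or.inr (h.iso_of M sQ (by omega) fun k => (e k).trans (rQ k).symm)
    · exact Or.inl (h.iso_of M sP h0 fun k => (e k).trans (rP k).symm)
  · have e1 := h.rk_dec M (d.tensor T) k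
    rwa [h.rk_dec M (d'.tensor T) k, h.rk_tens M e, h.rk_tens M e] at e1

theorem sim_iso {S T : D} (hS : Sim S) (hT : Sim T) {f : S ⟶ T} (hf : f ≠ 0) :
    Nonempty (S ≅ T) := by
  obtain ⟨g, hg⟩ := hS.mono hf (h.reg f)
  obtain ⟨g', hg'⟩ := hT.epi hf (h.reg f)
  have : g' = g := by rw [← Category.comp_id g', ← hg, ← Category.assoc, hg', Category.id_comp]
  exact ⟨⟨f, g, hg, this ▸ hg'⟩⟩

theorem pair0 {x b : I} (ru : ∀ k, rk M F k (𝟙_ D) = if k = M.o ∨ k = x then 1 else 0)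
    {U U' : D} (n : 𝟙 U' ≠ 0) (e0 : rk M F M.o U ≠ 0)
    (e : ∀ k, rk M F k U + rk M F k U' =
      (if k = M.o ∨ k = x then 1 else 0) + if k = b then 1 else 0) :
    (∀ k, rk M F k U = if k = M.o ∨ k = x then 1 else 0) ∧
      ∀ k, rk M F k U' = if k = b then 1 else 0 := by
  have s1 : Sim (𝟙_ D) := Sim.of_finrank (by rw [rank_unit (F := F) M, ru, if_pos (Or.inl rfl)])
  obtain ⟨S, ⟨d1⟩⟩ := h.dec_of s1 ((rank_unit M U).trans_ne e0) M
  have e1 : ∀ k, rk M F k S + rk M F k U' = if k = b then 1 else 0 := fun k => by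
    have b1 := e k
    rw [h.rk_dec M d1 k, ru] at b1
    omega
  have e2 : rk M F b U' ≠ 0 := fun e' => n (h.zero_of_rk M fun k => by
    have := e1 k
    split_ifs at this with hk
    · rw [hk, e']
    · omega)
  have e3 : ∀ k, rk M F k S = 0 := fun k => by
    have := e1 k
    split_ifs at this with hk
    · subst hk; omega
    · omega
  exact ⟨fun k => by rw [h.rk_dec M d1 k, ru, e3, add_zero], fun k => by rw [← e1 k, e3, zero_add]⟩

/-- the group of invertible modules -/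
theorem family {G : Type} [AddCommGroup G] [Fintype G] [DecidableEq G]
    (hG : Odd (Fintype.card G)) (x mu : I) (c : G → I)
    (hA : ∀ k, finrank ℂ (M.X k ⟶ A) = if k = M.o ∨ k = x then 1 else 0) (hxo : x ≠ M.o)
    (hc : ∀ g g', g ≠ 0 → g' ≠ 0 → (c g = c g' ↔ PM g g'))
    (hne : ∀ g, g ≠ 0 → c g ≠ M.o ∧ c g ≠ x ∧ c g ≠ mu)
    (hmm : M.N mu x mu = 0) (hm1 : ∀ g, g ≠ 0 → M.N mu x (c g) = 1)
    (h1 : ∀ g, g ≠ 0 → ∀ k, M.N (c g) x k =
      (if k = mu then 1 else 0) + M.N mu x k + (if k = c g then 1 else 0))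
    (h2 : ∀ g g', g ≠ 0 → g' ≠ 0 → ∀ k, M.N (c g) (c g') k =
      M.N mu (c g') k + mult M.o x c (g + g') k + mult M.o x c (g - g') k) :
    ∃ Q : G → D, Fam Q ∧ ∀ g k, rk M F k (Q g) = mult M.o x c g k := by
  haveI : Nonempty D := ⟨𝟙_ D⟩
  have t2 := QF.two hG
  have ru : ∀ k, rk M F k (𝟙_ D) = if k = M.o ∨ k = x then 1 else 0 := fun k =>
    (h.rk_unit M k).trans (hA k)
  have s1 : Sim (𝟙_ D) := Sim.of_finrank (by rw [rank_unit (F := F) M, ru, if_pos (Or.inl rfl)])
  have ex : ∀ a : I, (∃ g, g ≠ 0 ∧ c g = a) → ∃ P Q : D, Hv M F mu a P Q := by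
    rintro _ ⟨g, hg, rfl⟩
    exact h.halves M x (c g) mu hA hxo (hne g hg).2.2.symm hmm (hm1 g hg) (h1 g hg)
  choose! P Q hPQ using ex
  have ex2 : ∀ a : I, (∃ g, g ≠ 0 ∧ c g = a) → ∃ g, g ≠ 0 ∧ c g = a := fun _ e => e
  choose! r hr using ex2
  obtain ⟨Ob, O0, O1⟩ : ∃ Ob : G → D, Ob 0 = 𝟙_ D ∧
      ∀ g, g ≠ 0 → Hv M F mu (c g) (Ob g) (Ob (-g)) := by
    refine ⟨fun g => if g = 0 then 𝟙_ D else if g = r (c g) then P (c g) else Q (c g),
      if_pos rfl, fun g hg => ?_⟩
    have hg' : -g ≠ 0 := neg_ne_zero.2 hg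
    have cn : c (-g) = c g := (hc _ _ hg' hg).2 (QF.pm_neg g)
    have H := hPQ (c g) ⟨g, hg, rfl⟩
    obtain ⟨r1, r2⟩ := hr (c g) ⟨g, hg, rfl⟩
    have ng : -g ≠ g := fun e => hg (t2 g (by rw [← neg_add_cancel g, e]))
    simp only [if_neg hg, if_neg hg', cn]
    rcases (hc _ _ r1 hg).1 r2 with e | e
    · rw [e, if_pos rfl, if_neg ng]
      exact H
    · rw [e, if_pos rfl, if_neg ng.symm]
      exact H.symm M
  have rO : ∀ g k, rk M F k (Ob g) = mult M.o x c g k := fun g k => by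
    by_cases hg : g = 0
    · rw [hg, O0, ru, QF.mult_zero]
    · rw [(O1 g hg).r, QF.mult_ne hg]
  have sO : ∀ g, Sim (Ob g) := fun g => by
    by_cases hg : g = 0
    · rw [hg, O0]; exact s1
    · exact (O1 g hg).s
  have pmO : ∀ {g g'}, (∀ k, rk M F k (Ob g) = mult M.o x c g' k) → PM g g' := fun e =>
    QF.pm_mult hc (fun g hg => (hne g hg).1) fun k => (rO _ k).symm.trans (e k)
  have uq : ∀ {g g'}, (Ob g ≅ Ob g') → g = g' := fun {g g'} φ => by
    rcases pmO fun k => (rk_iso M k φ).trans (rO g' k) with e | e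
    · exact e
    · by_cases hg : g' = 0
      · rw [e, hg, neg_zero]
      · subst e
        exact ((O1 g' hg).ne.false φ.symm).elim
  have cls : ∀ (T : D) g, (∀ k, rk M F k T = mult M.o x c g k) → ∃ e, Nonempty (T ≅ Ob e) :=
    fun T g e => by
      by_cases hg : g = 0
      · subst hg
        obtain ⟨φ⟩ := h.iso_of M s1 (P := T)
          (by rw [rank_unit (F := F) M, e, QF.mult_zero, if_pos (Or.inl rfl)]; exact one_ne_zero)
          fun k => by rw [e, ru, QF.mult_zero]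
        exact ⟨0, ⟨φ.symm ≪≫ eqToIso O0.symm⟩⟩
      · rcases (O1 g hg).cls T fun k => (e k).trans (QF.mult_ne hg k) with ⟨⟨φ⟩⟩ | ⟨⟨φ⟩⟩
        · exact ⟨_, ⟨φ.symm⟩⟩
        · exact ⟨_, ⟨φ.symm⟩⟩
  have alt : ∀ (U U' : D) (a b : G), 𝟙 U ≠ 0 → 𝟙 U' ≠ 0 → ¬ PM a b →
      (∀ k, rk M F k U + rk M F k U' = mult M.o x c a k + mult M.o x c b k) →
      ((∀ k, rk M F k U = mult M.o x c a k) ∧ ∀ k, rk M F k U' = mult M.o x c b k) ∨
      ((∀ k, rk M F k U = mult M.o x c b k) ∧ ∀ k, rk M F k U' = mult M.o x c a k) := by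
    intro U U' a b n n' hab e
    wlog hb : b ≠ 0 generalizing a b
    · have ha : a ≠ 0 := fun ha => hab (Or.inl (ha.trans (not_not.1 hb).symm))
      exact (this b a (fun e => hab (QF.pm_symm e)) (fun k => by rw [e, add_comm]) ha).symm
    by_cases ha : a = 0
    · subst ha
      simp only [QF.mult_zero, QF.mult_ne hb] at e ⊢
      by_cases h0 : rk M F M.o U = 0
      · refine Or.inr (h.pair0 M ru n ?_ fun k => by rw [add_comm, e]).symm
        have := e M.o
        rw [if_pos (Or.inl rfl)] at this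
        omega
      · exact Or.inl (h.pair0 M ru n' h0 e)
    · simp only [QF.mult_ne ha, QF.mult_ne hb] at e ⊢
      have cab : c a ≠ c b := fun e => hab ((hc _ _ ha hb).1 e)
      have z : ¬ ∀ k, rk M F k U = 0 := fun e => n (h.zero_of_rk M e)
      have z' : ¬ ∀ k, rk M F k U' = 0 := fun e => n' (h.zero_of_rk M e)
      by_cases h0 : rk M F (c a) U = 0
      · refine Or.inr (QF.num cab (fun k => by rw [add_comm, e]) z' z ?_).symm
        have := e (c a)
        rw [if_pos rfl] at this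
        omega
      · exact Or.inl (QF.num cab e z z' h0)
  have val : ∀ a b : G,
      ((∀ k, rk M F k (Ob a ⊗ Ob b) = mult M.o x c (a + b) k) ∧
        ∀ k, rk M F k (Ob (-a) ⊗ Ob b) = mult M.o x c (a - b) k) ∨
      ((∀ k, rk M F k (Ob a ⊗ Ob b) = mult M.o x c (a - b) k) ∧
        ∀ k, rk M F k (Ob (-a) ⊗ Ob b) = mult M.o x c (a + b) k) := fun a b => by
    by_cases ha : a = 0
    · subst ha
      rw [neg_zero, O0, zero_add, zero_sub]
      exact Or.inl ⟨fun k => (rk_iso M k (λ_ _)).trans (rO b k), fun k =>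
        (rk_iso M k (λ_ _)).trans ((rO b k).trans (QF.mult_pm hc (QF.pm_neg b) k).symm)⟩
    by_cases hb : b = 0
    · subst hb
      rw [O0, add_zero, sub_zero]
      exact Or.inl ⟨fun k => (rk_iso M k (ρ_ _)).trans (rO a k), fun k =>
        (rk_iso M k (ρ_ _)).trans ((rO _ k).trans (QF.mult_pm hc (QF.pm_neg a) k))⟩
    refine alt _ _ _ _ (h.tens_ne s1 (sO _).ne (sO _).ne) (h.tens_ne s1 (sO _).ne (sO _).ne)
      ?_ fun k => ?_
    · rintro (e | e)
      · exact hb (t2 b (by rw [← sub_eq_zero.2 e]; abel))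
      · exact ha (t2 a (by rw [← add_eq_zero_iff_eq_neg.2 e]; abel))
    · have e1 := (O1 a ha).cnt _ _ (O1 b hb).r k
      rw [h2 a b ha hb] at e1
      omega
  have ex3 : ∀ a b : G, ∃ e, Nonempty (Ob a ⊗ Ob b ≅ Ob e) := fun a b =>
    (val a b).elim (fun e => cls _ _ e.1) fun e => cls _ _ e.1
  choose m hm using ex3
  have pm : ∀ {a b g}, (∀ k, rk M F k (Ob a ⊗ Ob b) = mult M.o x c g k) → PM (m a b) g :=
    fun {a b g} e => pmO fun k => (rk_iso M k (hm a b).some).symm.trans (e k)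
  obtain ⟨φ, f0, fi, fm, fp⟩ := QF.lift hG m
    (fun a b e => uq ((hm _ _).some.symm ≪≫ whiskerRightIso (hm a b).some.symm _ ≪≫ α_ _ _ _ ≪≫
      whiskerLeftIso _ (hm b e).some ≪≫ (hm _ _).some))
    (fun a => uq ((hm 0 a).some.symm ≪≫ whiskerRightIso (eqToIso O0) _ ≪≫ λ_ _))
    fun a b => (val a b).imp (fun e => ⟨pm e.1, pm e.2⟩) fun e => ⟨pm e.1, pm e.2⟩
  refine ⟨fun g => Ob (φ g), ⟨fun a => sO _, fun a b hab f => ?_, ⟨eqToIso ?_⟩, fun a b => ?_⟩,
    fun g k => (rO _ k).trans (QF.mult_pm hc (fp g) k)⟩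
  · by_contra hf
    exact hab (fi (uq (h.sim_iso (sO _) (sO _) hf).some))
  · rw [f0, O0]
  · rw [← fm]
    exact hm _ _

end Ifc

end K3

end Pool.Agent.Lib.MP_edb142_al
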