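import Pool.Agent.Lib.MP_edb142_al.H.Q0

open CategoryTheory MonoidalCategory Limits BraidedCategory Module

set_option linter.unusedSectionVars false

namespace Pool.Agent.Lib.MP_edb142_al

universe v' u'

namespace QG

variable {S : Type u'} [Category.{v'} S] [MonoidalCategory S] [SymmetricCategory S]

/-- a commutative algebra graded by a monoid -/
structure GA {M : Type} [AddCommMonoid M] (Q : M → S) where
  u : 𝟙_ S ≅ Q 0
  μ : ∀ a b c, a + b = c → (Q a ⊗ Q b ≅ Q c)
  one : ∀ a, u.hom ▷ Q a ≫ (μ 0 a a (zero_add a)).hom = (λ_ (Q a)).hom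
  assoc : ∀ a b c d e f (h1 : a + b = d) (h2 : d + c = f) (h3 : b + c = e) (h4 : a + e = f),
    (μ a b d h1).hom ▷ Q c ≫ (μ d c f h2).hom =
      (α_ (Q a) (Q b) (Q c)).hom ≫ Q a ◁ (μ b c e h3).hom ≫ (μ a e f h4).hom
  comm : ∀ a b c (h : a + b = c) (h' : b + a = c),
    (β_ (Q a) (Q b)).hom ≫ (μ b a c h').hom = (μ a b c h).hom

@[reassoc] theorem br_mu (A B C D : S) : (β_ (A ⊗ B) (C ⊗ D)).hom ≫ tensorμ C D A B =
    tensorμ A B C D ≫ ((β_ A C).hom ⊗ₘ (β_ B D).hom) := by
  simp [tensorμ, SymmetricCategory.braiding_swap_eq_inv_braiding C B,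
    SymmetricCategory.braiding_swap_eq_inv_braiding A D, MonoidalCategory.tensorHom_def]

variable {M N : Type} [AddCommMonoid M] [AddCommMonoid N] {T : M → S} {U : N → S}

/-- the product -/
def GA.prod (A : GA T) (B : GA U) : GA fun p : M × N => T p.1 ⊗ U p.2 where
  u := (λ_ _).symm ≪≫ (A.u ⊗ᵢ B.u)
  μ a b c h := ⟨tensorμ _ _ _ _, tensorδ _ _ _ _, tensorμ_tensorδ _ _ _ _, tensorδ_tensorμ _ _ _ _⟩ ≪≫
    (A.μ a.1 b.1 c.1 (congrArg Prod.fst h) ⊗ᵢ B.μ a.2 b.2 c.2 (congrArg Prod.snd h))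
  one a := by
    simp only [Iso.trans_hom, Iso.symm_hom, tensorIso_hom, comp_whiskerRight, Category.assoc]
    rw [tensorμ_natural_left_assoc, tensorHom_comp_tensorHom]
    exact (congrArg₂ (fun x y => _ ≫ _ ≫ (x ⊗ₘ y)) (A.one _) (B.one _)).trans
      (tensor_left_unitality _ _).symm
  assoc a b c d e f h1 h2 h3 h4 := by
    simp only [Iso.trans_hom, tensorIso_hom, comp_whiskerRight, Category.assoc,
      MonoidalCategory.whiskerLeft_comp]
    rw [tensorμ_natural_left_assoc, tensorμ_natural_right_assoc, tensorHom_comp_tensorHom,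
      tensorHom_comp_tensorHom, A.assoc _ _ _ _ e.1 _ _ _ (congrArg Prod.fst h3) (congrArg Prod.fst h4),
      B.assoc _ _ _ _ e.2 _ _ _ (congrArg Prod.snd h3) (congrArg Prod.snd h4),
      ← tensorHom_comp_tensorHom, tensor_associativity_assoc]
  comm a b c h h' := by
    simp only [Iso.trans_hom, tensorIso_hom]
    rw [br_mu_assoc, tensorHom_comp_tensorHom, A.comm, B.comm]

/-- descent along a surjection -/
def GA.desc (A : GA T) (π : M →+ N) (hπ : Function.Surjective π) (J : ∀ m, T m ≅ U (π m))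
    (ν : ∀ a b c, a + b = c → (U a ⊗ U b ≅ U c))
    (K : ∀ m n p (h : m + n = p) (h' : π m + π n = π p),
      ((J m).hom ⊗ₘ (J n).hom) ≫ (ν _ _ _ h').hom = (A.μ m n p h).hom ≫ (J p).hom) : GA U where
  u := A.u ≪≫ J 0 ≪≫ eqToIso (congrArg U π.map_zero)
  μ := ν
  one a := by
    obtain ⟨m, rfl⟩ := hπ a
    have e : ∀ (x : N) (hx : π 0 = x) (h : x + π m = π m) (h' : π 0 + π m = π m),
        eqToHom (congrArg U hx) ▷ U (π m) ≫ (ν x _ _ h).hom = (ν _ _ _ h').hom := by
      intro x hx h h'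
      subst hx
      simp
    have h' : π 0 + π m = π m := by rw [π.map_zero, zero_add]
    rw [← cancel_epi (𝟙_ S ◁ (J m).hom), leftUnitor_naturality, ← A.one, Category.assoc,
      ← K 0 m m (zero_add m) h', ← e 0 π.map_zero (zero_add _) h']
    simp only [Iso.trans_hom, eqToIso.hom, comp_whiskerRight, Category.assoc]
    rw [whisker_exchange_assoc, tensorHom_def', Category.assoc]
  assoc a b c d e f h1 h2 h3 h4 := by
    obtain ⟨x, rfl⟩ := hπ a
    obtain ⟨y, rfl⟩ := hπ b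
    obtain ⟨z, rfl⟩ := hπ c
    obtain rfl : π (x + y) = d := (π.map_add _ _).trans h1
    obtain rfl : π (y + z) = e := (π.map_add _ _).trans h3
    obtain rfl : π (x + y + z) = f := (π.map_add _ _).trans h2
    rw [← cancel_epi ((J x ⊗ᵢ J y) ⊗ᵢ J z).hom]
    simp only [tensorIso_hom]
    rw [tensorHom_comp_whiskerRight_assoc, K x y _ rfl, associator_naturality_assoc,
      tensorHom_comp_whiskerLeft_assoc, K y z _ rfl, ← whiskerRight_comp_tensorHom,
      ← whiskerLeft_comp_tensorHom, Category.assoc, Category.assoc, K _ z _ rfl,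
      K x _ _ (add_assoc x y z).symm, reassoc_of% A.assoc x y z _ _ _ rfl rfl rfl]
  comm a b c h h' := by
    obtain ⟨x, rfl⟩ := hπ a
    obtain ⟨y, rfl⟩ := hπ b
    obtain rfl : π (x + y) = c := (π.map_add _ _).trans h
    rw [← cancel_epi (J x ⊗ᵢ J y).hom, tensorIso_hom, braiding_naturality_assoc, K x y _ rfl,
      K y x _ (add_comm y x), reassoc_of% A.comm x y _ rfl]

/-- transport along isomorphisms -/
def GA.tr (A : GA T) {T' : M → S} (J : ∀ m, T m ≅ T' m) : GA T' :=
  A.desc (AddMonoidHom.id M) Function.surjective_id J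
    (fun a b c h => (J a ⊗ᵢ J b).symm ≪≫ A.μ a b c h ≪≫ J c) fun m n p h h' => by
      simp

/-! ### powers of one object -/

/-- tensor powers -/
def pw (P : S) : ℕ → S
  | 0 => 𝟙_ S
  | i + 1 => pw P i ⊗ P

/-- concatenation -/
def tau (P : S) : ∀ i j k : ℕ, i + j = k → (pw P i ⊗ pw P j ≅ pw P k)
  | _, 0, _, h => ρ_ _ ≪≫ eqToIso (congrArg (pw P) h)
  | _, _ + 1, 0, h => absurd h (Nat.succ_ne_zero _)
  | i, j + 1, k + 1, h => (α_ _ _ _).symm ≪≫ whiskerRightIso (tau P i j k (Nat.succ.inj h)) P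

theorem tau_zero (P : S) (i : ℕ) (h : i + 0 = i) : (tau P i 0 i h).hom = (ρ_ _).hom := by
  simp [tau]

theorem tau_succ (P : S) (i j k : ℕ) (h : i + (j + 1) = k + 1) (h' : i + j = k) :
    (tau P i (j + 1) (k + 1) h).hom =
      (α_ (pw P i) (pw P j) P).inv ≫ (tau P i j k h').hom ▷ P := rfl

theorem tau_one (P : S) (a : ℕ) (h : 0 + a = a) : (tau P 0 a a h).hom = (λ_ _).hom := by
  induction a with
  | zero => exact (tau_zero P 0 h).trans unitors_equal.symm
  | succ a ih =>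
    rw [tau_succ P 0 a a h (zero_add a), ih]
    exact (leftUnitor_tensor_hom _ _).symm

theorem tau_assoc (P : S) (a b c d e f : ℕ) (h1 : a + b = d) (h2 : d + c = f) (h3 : b + c = e)
    (h4 : a + e = f) : (tau P a b d h1).hom ▷ pw P c ≫ (tau P d c f h2).hom =
      (α_ _ _ _).hom ≫ pw P a ◁ (tau P b c e h3).hom ≫ (tau P a e f h4).hom := by
  induction c generalizing e f with
  | zero =>
    obtain rfl : b = e := h3
    obtain rfl : d = f := h2
    rw [tau_zero, tau_zero]
    change _ ▷ 𝟙_ S ≫ _ = (α_ _ _ (𝟙_ S)).hom ≫ _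
    monoidal
  | succ c ih =>
    obtain rfl : b + c + 1 = e := h3
    obtain rfl : d + c + 1 = f := h2
    have h5 : a + (b + c) = d + c := Nat.succ.inj h4
    rw [tau_succ P d c _ _ rfl, tau_succ P b c _ _ rfl, tau_succ P a _ _ _ h5]
    have := ih _ _ rfl rfl h5
    change _ ▷ (pw P c ⊗ P) ≫ _ = (α_ _ _ (pw P c ⊗ P)).hom ≫ _
    calc _ = 𝟙 _ ⊗≫ ((tau P a b d h1).hom ▷ pw P c ≫ (tau P d c _ rfl).hom) ▷ P := by monoidal
      _ = _ := by rw [this]; monoidal

/-- two powers commute -/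
def Com (P : S) (a b : ℕ) : Prop := ∀ c (h : a + b = c) (h' : b + a = c),
  (β_ (pw P a) (pw P b)).hom ≫ (tau P b a c h').hom = (tau P a b c h).hom

theorem Com.symm {P : S} {a b : ℕ} (H : Com P a b) : Com P b a := fun c h h' => by
  rw [← H c h' h, SymmetricCategory.symmetry_assoc]

theorem com_zero (P : S) (a : ℕ) : Com P a 0 := fun c h h' => by
  obtain rfl : a = c := h
  rw [tau_zero, tau_one]
  exact braiding_leftUnitor _

theorem Com.add {P : S} {a b b' : ℕ} (H : Com P a b) (H' : Com P a b') : Com P a (b + b') :=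
  fun c h h' => by
  have h1 : b + (a + b') = c := by omega
  have h2 : a + b + b' = c := by omega
  rw [← cancel_epi (pw P a ◁ (tau P b b' _ rfl).hom), braiding_naturality_right_assoc,
    tau_assoc P b b' a _ (a + b') c rfl h' (add_comm _ _) h1, braiding_tensor_right_hom]
  simp only [Category.assoc, Iso.inv_hom_id_assoc]
  rw [← MonoidalCategory.whiskerLeft_comp_assoc, H' _ rfl,
    ← tau_assoc P b a b' (a + b) _ c (add_comm _ _) h2 rfl h1, ← comp_whiskerRight_assoc, H _ rfl,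
    tau_assoc P a b b' _ _ c rfl h2 rfl h, Iso.inv_hom_id_assoc]

theorem br_iso {X Y : S} (i : X ≅ Y) (h : (β_ Y Y).hom = 𝟙 _) : (β_ X X).hom = 𝟙 _ := by
  rw [← cancel_mono (i ⊗ᵢ i).hom, tensorIso_hom, ← braiding_naturality, h, Category.comp_id,
    Category.id_comp]

theorem com_all {P : S} (hP : (β_ P P).hom = 𝟙 _) (a b : ℕ) : Com P a b := by
  have h11 : Com P 1 1 := fun c h h' => by
    rw [br_iso (X := pw P 1) (λ_ P) hP, Category.id_comp]
  have key : ∀ a, Com P a 1 → ∀ b, Com P a b := fun a h b => by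
    induction b with
    | zero => exact com_zero P a
    | succ b ih => exact ih.add h
  exact key a (key 1 h11 a).symm b

/-- the algebra of powers -/
def pwA {P : S} (hP : (β_ P P).hom = 𝟙 _) : GA (pw P) where
  u := Iso.refl _
  μ := tau P
  one a := by
    rw [tau_one]
    exact (congrArg (· ≫ _) (id_whiskerRight _ _)).trans (Category.id_comp _)
  assoc := tau_assoc P
  comm := com_all hP

/-! ### killing one degree -/

section Kill
variable (A : GA T) {k : M} (φ : T k ≅ 𝟙_ S)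

/-- one reduction -/
def eps (m m' : M) (h : m' + k = m) : T m ≅ T m' :=
  (A.μ m' k m h).symm ≪≫ whiskerLeftIso (T m') φ ≪≫ ρ_ _

@[reassoc] theorem eps_left (n m m' p p' : M) (h : m' + k = m) (h' : p' + k = p) (h1 : n + m = p)
    (h2 : n + m' = p') : T n ◁ (eps A φ m m' h).hom ≫ (A.μ n m' p' h2).hom =
      (A.μ n m p h1).hom ≫ (eps A φ p p' h').hom := by
  rw [← cancel_epi (T n ◁ (A.μ m' k m h).hom), ← cancel_epi (α_ _ _ _).hom,
    ← reassoc_of% A.assoc n m' k p' m p h2 h' h h1]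
  simp only [eps, Iso.trans_hom, Iso.symm_hom, whiskerLeftIso_hom, Iso.hom_inv_id_assoc,
    ← MonoidalCategory.whiskerLeft_comp_assoc]
  rw [← whisker_exchange_assoc]
  monoidal

/-- several reductions -/
def red : ∀ (i : ℕ) (m m' : M), m' + i • k = m → (T m ≅ T m')
  | 0, _, _, h => eqToIso (congrArg T (by rw [← h, zero_nsmul, add_zero]))
  | i + 1, m, m', h => eps A φ m (m' + i • k) (by rw [← h, succ_nsmul, add_assoc]) ≪≫
      red i (m' + i • k) m' rfl

theorem red_zero (m : M) (h : m + 0 • k = m) : (red A φ 0 m m h).hom = 𝟙 _ := rfl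

theorem red_succ (i : ℕ) (m x m' : M) (h : m' + (i + 1) • k = m) (h1 : x + k = m)
    (h2 : m' + i • k = x) :
    (red A φ (i + 1) m m' h).hom = (eps A φ m x h1).hom ≫ (red A φ i x m' h2).hom := by
  subst h2
  rfl

@[reassoc] theorem red_red (i j l : ℕ) (m m' m'' : M) (hl : j + i = l) (h : m' + i • k = m)
    (h' : m'' + j • k = m') (h'' : m'' + l • k = m) :
    (red A φ i m m' h).hom ≫ (red A φ j m' m'' h').hom = (red A φ l m m'' h'').hom := by
  subst hl
  induction i generalizing m with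
  | zero =>
    obtain rfl : m' = m := by rw [← h, zero_nsmul, add_zero]
    rw [red_zero, Category.id_comp]
    rfl
  | succ i ih =>
    have h1 : m' + i • k + k = m := by rw [← h, succ_nsmul, add_assoc]
    have h2 : m'' + (j + i) • k = m' + i • k := by rw [← h', add_nsmul, add_assoc]
    rw [red_succ A φ i m _ m' h h1 rfl, Category.assoc, ih _ rfl h2]
    exact (red_succ A φ (j + i) m _ m'' h'' h1 h2).symm

@[reassoc] theorem red_left (i : ℕ) (n m m' p p' : M) (h : m' + i • k = m) (h' : p' + i • k = p)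
    (h1 : n + m = p) (h2 : n + m' = p') : T n ◁ (red A φ i m m' h).hom ≫ (A.μ n m' p' h2).hom =
      (A.μ n m p h1).hom ≫ (red A φ i p p' h').hom := by
  induction i generalizing m p with
  | zero =>
    obtain rfl : m' = m := by rw [← h, zero_nsmul, add_zero]
    obtain rfl : p' = p := h2.symm.trans h1
    rw [red_zero, red_zero]
    simp
  | succ i ih =>
    have e1 : m' + i • k + k = m := by rw [← h, succ_nsmul, add_assoc]
    have e2 : p' + i • k + k = p := by rw [← h', succ_nsmul, add_assoc]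
    have e3 : n + (m' + i • k) = p' + i • k := by rw [← h2, add_assoc]
    rw [red_succ A φ i m _ m' h e1 rfl, red_succ A φ i p _ p' h' e2 rfl,
      MonoidalCategory.whiskerLeft_comp, Category.assoc, ih _ _ rfl rfl e3,
      eps_left_assoc A φ n m _ p _ e1 e2 h1 e3]

@[reassoc] theorem red_right (i : ℕ) (n m m' p p' : M) (h : m' + i • k = m) (h' : p' + i • k = p)
    (h1 : m + n = p) (h2 : m' + n = p') : (red A φ i m m' h).hom ▷ T n ≫ (A.μ m' n p' h2).hom =
      (A.μ m n p h1).hom ≫ (red A φ i p p' h').hom := by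
  rw [← A.comm m' n p' h2 ((add_comm _ _).trans h2), ← A.comm m n p h1 ((add_comm _ _).trans h1),
    braiding_naturality_left_assoc, red_left A φ i n m m' p p' h h', Category.assoc]

/-- the quotient algebra -/
def kill (π : M →+ N) (r : N → M) (q : M → ℕ) (hr : ∀ a, π (r a) = a)
    (hq : ∀ m, r (π m) + q m • k = m) (fr : ∀ m (i j : ℕ), m + i • k = m + j • k → i = j) :
    GA fun a => T (r a) :=
  A.desc π (fun a => ⟨r a, hr a⟩) (fun m => red A φ (q m) m _ (hq m))
    (fun a b c h => A.μ (r a) (r b) _ rfl ≪≫ red A φ (q (r a + r b)) _ (r c) (by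
      have := hq (r a + r b)
      rwa [π.map_add, hr, hr, h] at this))
    fun m n p h h' => by
      have e0 := hq (r (π m) + r (π n))
      rw [π.map_add, hr, hr, h'] at e0
      have e1 : r (π m) + r (π n) + q n • k = r (π m) + n := by rw [add_assoc, hq]
      have e2 : r (π m) + n + q m • k = p := by rw [add_right_comm, hq, h]
      have e3 : r (π p) + (q (r (π m) + r (π n)) + q n) • k = r (π m) + n := by
        rw [add_nsmul, ← add_assoc, e0, e1]
      have e4 : q (r (π m) + r (π n)) + q n + q m = q p := fr (r (π p)) _ _ (by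
        rw [add_nsmul, ← add_assoc, e3, e2, hq])
      rw [MonoidalCategory.tensorHom_def, Iso.trans_hom, Category.assoc,
        red_left_assoc A φ _ _ _ _ _ _ _ e1 rfl, red_red A φ _ _ _ _ _ _ rfl _ _ e3,
        red_right_assoc A φ _ _ _ _ _ _ _ e2 h, red_red A φ _ _ _ _ _ _ e4]

end Kill

/-! ### adjoining one generator -/

variable {Λ : Type} [AddCommGroup Λ] {Q : Λ → S}

theorem pw_iso (unit : Nonempty (𝟙_ S ≅ Q 0)) (mul : ∀ a b, Nonempty (Q a ⊗ Q b ≅ Q (a + b)))
    (g : Λ) (i : ℕ) : Nonempty (pw (Q g) i ≅ Q (i • g)) := by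
  induction i with
  | zero => rw [zero_nsmul]; exact unit
  | succ i ih =>
    rw [succ_nsmul]
    exact ⟨whiskerRightIso ih.some (Q g) ≪≫ (mul _ _).some⟩

theorem step [Finite Λ] (unit : Nonempty (𝟙_ S ≅ Q 0))
    (mul : ∀ a b, Nonempty (Q a ⊗ Q b ≅ Q (a + b))) (H H' : AddSubgroup Λ) (g : Λ)
    (hg : (β_ (Q g) (Q g)).hom = 𝟙 _) (h1 : H ≤ H') (h2 : g ∈ H')
    (h3 : ∀ x ∈ H', ∃ i : ℕ, x - i • g ∈ H) (A : GA fun h : H => Q h) :
    Nonempty (GA fun h : H' => Q h) := by
  obtain ⟨n, hn⟩ : ∃ n, n = addOrderOf (g : Λ ⧸ H) := ⟨_, rfl⟩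
  have n0 : 0 < n := hn ▸ addOrderOf_pos _
  have key : ∀ i j : ℕ, i • g - j • g ∈ H ↔ i % n = j % n := fun i j => by
    rw [← QuotientAddGroup.eq_iff_sub_mem, QuotientAddGroup.mk_nsmul, QuotientAddGroup.mk_nsmul,
      nsmul_eq_nsmul_iff_modEq, ← hn]
    rfl
  have h4 : ∀ x : H', ∃ i < n, (x : Λ) - i • g ∈ H := fun x => by
    obtain ⟨i, hi⟩ := h3 x x.2
    refine ⟨i % n, Nat.mod_lt _ n0, ?_⟩
    have := H.add_mem hi ((key i (i % n)).2 (Nat.mod_mod _ _).symm)
    rwa [sub_add_sub_cancel] at this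
  choose f f1 f2 using h4
  have hk : -(n • g) ∈ H := by
    have := (key 0 n).2 (by simp)
    rwa [zero_nsmul, zero_sub] at this
  let π : H × ℕ →+ H' :=
    { toFun := fun m => ⟨m.1 + m.2 • g, H'.add_mem (h1 m.1.2) (H'.nsmul_mem h2 _)⟩
      map_zero' := Subtype.ext (by simp)
      map_add' := fun m m' => Subtype.ext (by simp [add_nsmul, add_add_add_comm]) }
  have iso : ∀ m : H × ℕ, Nonempty (Q m.1 ⊗ pw (Q g) m.2 ≅ Q (π m)) := fun m =>
    ⟨whiskerLeftIso _ (pw_iso unit mul g m.2).some ≪≫ (mul _ _).some⟩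
  have hr : ∀ a : H', π (⟨a - f a • g, f2 a⟩, f a) = a := fun a => Subtype.ext (sub_add_cancel _ _)
  have h0 : (π (⟨_, hk⟩, n) : Λ) = 0 := neg_add_cancel _
  refine ⟨(kill (A.prod (pwA hg)) (k := (⟨_, hk⟩, n))
    ((iso _).some ≪≫ eqToIso (congrArg Q h0) ≪≫ unit.some.symm) π
    (fun a => (⟨a - f a • g, f2 a⟩, f a)) (fun m => m.2 / n) hr (fun m => ?_)
    fun m i j h => ?_).tr fun a => (iso _).some ≪≫ eqToIso (by rw [hr])⟩
  · have e : f (π m) = m.2 % n := by
      have h5 : (m.1 : Λ) + m.2 • g - f (π m) • g ∈ H := f2 (π m)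
      rw [add_sub_assoc, H.add_mem_cancel_left m.1.2, key, Nat.mod_eq_of_lt (f1 _)] at h5
      exact h5.symm
    have e2 : m.2 % n + m.2 / n * n = m.2 := Nat.mod_add_div' _ _
    refine Prod.ext (Subtype.ext ?_) ?_
    · change (m.1 : Λ) + m.2 • g - f (π m) • g + (m.2 / n) • -(n • g) = m.1
      rw [e, smul_neg, ← mul_nsmul', add_sub_assoc, add_assoc, ← sub_eq_add_neg, sub_sub,
        ← add_nsmul, e2, sub_self, add_zero]
    · change f (π m) + m.2 / n * n = m.2
      rw [e, e2]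
  · have h5 : m.2 + i * n = m.2 + j * n := congrArg Prod.snd h
    exact Nat.eq_of_mul_eq_mul_right n0 (Nat.add_left_cancel h5)

theorem base (unit : Nonempty (𝟙_ S ≅ Q 0)) : Nonempty (GA fun h : (⊥ : AddSubgroup Λ) => Q h) := by
  let A : GA fun _ : (⊥ : AddSubgroup Λ) => 𝟙_ S :=
    { u := Iso.refl _
      μ := fun _ _ _ _ => λ_ _
      one := fun _ => by simp
      assoc := fun _ _ _ _ _ _ _ _ _ _ => by monoidal
      comm := fun _ _ _ _ _ => by rw [braiding_leftUnitor, unitors_equal] }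
  exact ⟨A.tr fun a => unit.some ≪≫ eqToIso (congrArg Q (AddSubgroup.mem_bot.1 a.2).symm)⟩

theorem all [Fintype Λ] (unit : Nonempty (𝟙_ S ≅ Q 0))
    (mul : ∀ a b, Nonempty (Q a ⊗ Q b ≅ Q (a + b))) (hg : ∀ g, (β_ (Q g) (Q g)).hom = 𝟙 _) :
    Nonempty (GA Q) := by
  classical
  have key : ∀ s : Finset Λ, ∃ H : AddSubgroup Λ, (∀ x ∈ s, x ∈ H) ∧
      Nonempty (GA fun h : H => Q h) := fun s => by
    induction s using Finset.induction_on with
    | empty => exact ⟨⊥, by simp, base unit⟩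
    | insert g s _ ih =>
      obtain ⟨H, h1, ⟨A⟩⟩ := ih
      refine ⟨H ⊔ AddSubgroup.zmultiples g, fun x hx => ?_, step unit mul H _ g (hg g) le_sup_left
        (AddSubgroup.mem_sup_right (AddSubgroup.mem_zmultiples g)) (fun x hx => ?_) A⟩
      · rcases Finset.mem_insert.1 hx with rfl | hx
        · exact AddSubgroup.mem_sup_right (AddSubgroup.mem_zmultiples _)
        · exact AddSubgroup.mem_sup_left (h1 x hx)
      · obtain ⟨y, hy, z, hz, rfl⟩ := AddSubgroup.mem_sup.1 hx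
        obtain ⟨i, rfl⟩ := (AddSubmonoid.mem_multiples_iff _ _).1
          (mem_multiples_iff_mem_zmultiples.2 hz)
        exact ⟨i, by rwa [add_sub_cancel_right]⟩
  obtain ⟨H, h1, ⟨A⟩⟩ := key Finset.univ
  exact ⟨A.desc H.subtype (fun a => ⟨⟨a, h1 a (Finset.mem_univ a)⟩, rfl⟩) (fun _ => Iso.refl _)
    (fun a b c h => A.μ ⟨a, h1 a (Finset.mem_univ a)⟩ ⟨b, h1 b (Finset.mem_univ b)⟩
      ⟨c, h1 c (Finset.mem_univ c)⟩ (Subtype.ext h)) fun m n p h h' => by simp⟩

end QG

/-- graded commutative algebras in a symmetric category -/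
theorem grAlg_exists {S : Type u'} [Category.{v'} S] [Preadditive S] [Linear ℂ S]
    [MonoidalCategory S] [MonoidalPreadditive S] [MonoidalLinear ℂ S] [SymmetricCategory S]
    {Λ : Type} [AddCommGroup Λ] [Fintype Λ] (hodd : Odd (Fintype.card Λ)) (Q : Λ → S)
    (sim : ∀ a, Sim (Q a)) (unit : Nonempty (𝟙_ S ≅ Q 0))
    (mul : ∀ a b, Nonempty (Q a ⊗ Q b ≅ Q (a + b))) : Nonempty (GrAlg Q) := by
  have hg : ∀ g, (β_ (Q g) (Q g)).hom = 𝟙 _ := fun g => by
    obtain ⟨t, ht⟩ := hodd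
    obtain ⟨b, rfl⟩ : ∃ b, b + b = g := ⟨(t + 1) • g, by
      rw [← add_nsmul, show t + 1 + (t + 1) = Fintype.card Λ + 1 by omega, succ_nsmul,
        card_nsmul_eq_zero, zero_add]⟩
    obtain ⟨l, hl⟩ := ((sim _).of_iso (mul b b).some).ex (β_ (Q b) (Q b)).hom
    refine QG.br_iso (mul b b).some.symm ?_
    have e := SymmetricCategory.tensorμ_braid_swap (Q b) (Q b)
    have e2 : (β_ (Q b) (Q b)).hom ⊗ₘ (β_ (Q b) (Q b)).hom = 𝟙 _ := by
      rw [MonoidalCategory.tensorHom_def]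
      nth_rewrite 1 [hl]
      rw [MonoidalLinear.smul_whiskerRight, id_whiskerRight, Linear.smul_comp, Category.id_comp,
        ← MonoidalLinear.whiskerLeft_smul, ← Category.id_comp (β_ (Q b) (Q b)).hom,
        ← Linear.smul_comp, ← hl, SymmetricCategory.symmetry, MonoidalCategory.whiskerLeft_id]
    rw [e2, Category.id_comp] at e
    have := congrArg (tensorδ _ _ _ _ ≫ ·) e
    simpa only [tensorδ_tensorμ_assoc, tensorδ_tensorμ] using this
  obtain ⟨A⟩ := QG.all unit mul hg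
  exact ⟨⟨A.u, A.μ, A.one, A.assoc, A.comm⟩⟩

end Pool.Agent.Lib.MP_edb142_al
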