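import Pool.Agent.Lib.MP_edb142_al.H.QMain
import Pool.Agent.Lib.MP_edb142_al.Fin

open CategoryTheory MonoidalCategory Limits

set_option linter.unusedSectionVars false

namespace Pool.Agent.Lib.MP_edb142_al

universe v u

section
variable {L : Type} [AddCommGroup L] [Fintype L] {θ : L → ℂ} (h : IsMetric θ)
include h

theorem IsMetric.add_eq (a b : L) : θ (a + b) = pol θ a b * (θ a * θ b) := by
  rw [pol, div_mul_cancel₀ _ (mul_ne_zero (h.ne a) (h.ne b))]

theorem IsMetric.of_sq {a : L} (h2 : θ a ^ 2 = 1) (n : ℕ) : θ (n • a) = θ a ^ n := by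
  induction n with
  | zero => simp [h.zero]
  | succ n ih => rw [succ_nsmul, h.add_eq, h.nsmul, h.self, h2, one_pow, one_mul, ih, pow_succ]

theorem IsMetric.one_of_sq (ho : Odd (Fintype.card L)) {a : L} (h2 : θ a ^ 2 = 1) : θ a = 1 := by
  have h1 := h.of_sq h2 (Fintype.card L)
  obtain ⟨k, hk⟩ := ho
  rw [card_nsmul_eq_zero, h.zero, hk, pow_succ, pow_mul, h2, one_pow, one_mul] at h1
  exact h1.symm

theorem IsMetric.sum_sub (H : AddSubgroup L) [DecidablePred (· ∈ H)] (y : L) :
    (∀ x ∈ H, pol θ x y = 1) ∨ ∑ x : H, pol θ x y = 0 := by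
  by_cases e : ∀ x ∈ H, pol θ x y = 1
  · exact Or.inl e
  · push Not at e
    obtain ⟨x0, hx, h0⟩ := e
    have := Equiv.sum_comp (Equiv.addLeft (⟨x0, hx⟩ : H)) fun x : H => pol θ x y
    simp only [Equiv.coe_addLeft, AddSubgroup.coe_add, h.add, ← Finset.mul_sum] at this
    exact Or.inr ((mul_eq_zero.1 (by linear_combination this :
      (pol θ x0 y - 1) * ∑ x : H, pol θ x y = 0)).resolve_left (sub_ne_zero.2 h0))

/-- a nonnegative eigenvector of the Fourier transform on isotropic vectors gives a Lagrangian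
subgroup -/
theorem IsMetric.lagrangian (w : L → ℕ) (w0 : w 0 ≠ 0) (hs : ∀ a, w a ≠ 0 → θ a = 1) (c : ℂ)
    (hw : ∀ b, ∑ a, pol θ a b * w a = c * w b) :
    ∃ Λ : AddSubgroup L, (∀ l ∈ Λ, θ l = 1) ∧ Nat.card Λ ^ 2 = Fintype.card L := by
  classical
  obtain ⟨H, hH⟩ := (Set.toFinite {H : AddSubgroup L | ∀ l ∈ H, θ l = 1}).exists_maximal
    ⟨⊥, fun l hl => by rw [AddSubgroup.mem_bot.1 hl, h.zero]⟩
  have iso : ∀ x ∈ H, ∀ y ∈ H, pol θ x y = 1 := fun x hx y hy => by
    rw [pol, hH.prop _ (H.add_mem hx hy), hH.prop _ hx, hH.prop _ hy]; simp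
  have mx : ∀ y, (∀ x ∈ H, pol θ x y = 1) → θ y = 1 → y ∈ H := fun y h1 h2 => by
    refine hH.le_of_ge (y := H ⊔ AddSubgroup.zmultiples y) (fun l hl => ?_) le_sup_left
      (AddSubgroup.mem_sup_right (AddSubgroup.mem_zmultiples y))
    obtain ⟨x, hx, z, hz, rfl⟩ := AddSubgroup.mem_sup.1 hl
    obtain ⟨n, rfl⟩ := (mem_multiples_iff_mem_zmultiples.2 hz : z ∈ AddSubmonoid.multiples y)
    change θ (x + n • y) = 1
    rw [h.add_eq, pol_comm, h.nsmul, pol_comm, h1 x hx, hH.prop x hx, h.of_sq (by rw [h2]; simp),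
      h2]
    simp
  have perp : ∀ y, (∀ x ∈ H, pol θ x y = 1) → y ∈ H := fun y h1 => by
    by_contra hy
    have z : ∀ x : H, w (x + y) = 0 := fun x => by
      by_contra hne
      exact hy (mx y h1 (by
        have := hs _ hne
        rwa [h.add_eq, h1 x x.2, hH.prop x x.2, one_mul, one_mul] at this))
    have e1 : ∑ x : H, ∑ a, pol θ a (x + y) * w a = 0 :=
      Finset.sum_eq_zero fun x _ => by rw [hw, z]; simp
    rw [Finset.sum_comm] at e1
    have e2 : ∀ a, ∑ x : H, pol θ a (x + y) * w a =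
        ((if a ∈ H then Fintype.card H * w a else 0 : ℕ) : ℂ) := fun a => by
      simp only [pol_comm θ a, h.add, mul_assoc, ← Finset.sum_mul]
      split_ifs with ha
      · rw [Finset.sum_congr rfl fun (x : H) _ => iso x x.2 a ha, pol_comm, h1 a ha]; simp
      · rcases h.sum_sub H a with e | e
        · by_cases h0 : w a = 0
          · simp [h0]
          · exact absurd (mx a e (hs a h0)) ha
        · simp [e]
    simp only [e2, ← Nat.cast_sum, Nat.cast_eq_zero, Finset.sum_eq_zero_iff] at e1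
    have := e1 0 (Finset.mem_univ _)
    rw [if_pos H.zero_mem] at this
    exact mul_ne_zero Fintype.card_ne_zero w0 this
  refine ⟨H, hH.prop, ?_⟩
  have e1 : ∑ y, ∑ x : H, pol θ x y = ∑ y, if y ∈ H then (Fintype.card H : ℂ) else 0 :=
    Finset.sum_congr rfl fun y _ => by
      split_ifs with hy
      · rw [Finset.sum_congr rfl fun (x : H) _ => iso x x.2 y hy]; simp
      · exact (h.sum_sub H y).resolve_left fun e => hy (perp y e)
  rw [Finset.sum_comm, Finset.sum_eq_single (0 : H) (fun x _ hx => by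
    simp only [pol_comm θ x]
    exact h.sum_pol fun e => hx (Subtype.ext e)) (by simp), ← Finset.sum_filter] at e1
  simp only [ZeroMemClass.coe_zero, h.zero_left, Finset.sum_const, Finset.card_univ, nsmul_eq_mul,
    mul_one, ← Fintype.card_subtype] at e1
  rw [Nat.card_eq_fintype_card, sq]
  exact_mod_cast e1.symm

end

variable {G Γ P : Type} [AddCommGroup G] [AddCommGroup Γ] [AddCommGroup P] [Fintype G] [Fintype Γ]
  [Fintype P] [DecidableEq G] [DecidableEq Γ] [DecidableEq P]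

theorem pol_prod (s : G → ℂ) (p : P → ℂ) (a b : G × P) :
    pol (fun l : G × P => s l.1 * p l.2) a b = pol s a.1 b.1 * pol p a.2 b.2 := by
  simp only [pol, Prod.fst_add, Prod.snd_add]
  rw [div_mul_div_comm, mul_mul_mul_comm]

theorem IsMetric.prod {s : G → ℂ} {p : P → ℂ} (hs : IsMetric s) (hp : IsMetric p) :
    IsMetric fun l : G × P => s l.1 * p l.2 where
  ne l := mul_ne_zero (hs.ne _) (hp.ne _)
  even l := by simp only [Prod.fst_neg, Prod.snd_neg, hs.even, hp.even]
  add a b c := by simp only [pol_prod, Prod.fst_add, Prod.snd_add, hs.add, hp.add]; ring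
  nondeg a h := Prod.ext (hs.nondeg _ fun g => by simpa [pol_prod, hp.zero_right] using h (g, 0))
    (hp.nondeg _ fun q => by simpa [pol_prod, hs.zero_right] using h (0, q))

variable {C : Type u} [Category.{v} C] [Preadditive C] [Linear ℂ C] [MonoidalCategory C]
  [MonoidalPreadditive C] [MonoidalLinear ℂ C] [HasFiniteBiproducts C] [BraidedCategory C]
  [RigidCategory C] {A : Finset G} {B : Finset Γ}
  {M : Modular C (QL A B × P)} {δ : ℂ} {s : G → ℂ} {t : Γ → ℂ} {p : P → ℂ}

theorem Quad.lagrangian (H : Quad M δ s t p) (hC : IsCentre C) : ∃ Λ : AddSubgroup (G × P),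
    (∀ l ∈ Λ, s l.1 * p l.2 = 1) ∧ Nat.card Λ ^ 2 = Fintype.card G * Fintype.card P := by
  obtain ⟨E, _, _, _, _, _, _, _, _, J, _, ⟨Φ⟩, ⟨K⟩⟩ := hC
  obtain ⟨w, c, h1, -, h3, h4⟩ := K.cf.lagr M Φ
  have hm := H.hs.prod H.hp
  have ho : Odd (Fintype.card (G × P)) := by
    rw [Fintype.card_prod, H.hA.card]
    exact (odd_two_mul_add_one _).mul H.hP
  have t0 : ∀ i q, w (.inl i, q) ≠ 0 → s 0 * p q = 1 := fun i q e =>
    hm.one_of_sq ho (a := (0, q)) (by simpa [H.T, qT, H.hs.zero] using (h3 _ e).1)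
  have tc : ∀ g q, g ≠ 0 → M.T (cl A B g, q) = s g * p q := fun g q hg => by
    obtain ⟨a, a1, a2 | a2⟩ := H.cl_ex g hg
    · rw [H.T, a1, ← a2]; rfl
    · rw [H.T, a1, ← H.hs.even g, ← a2]; rfl
  have t1 : ∀ g q, g ≠ 0 → w (cl A B g, q) ≠ 0 → s g * p q = 1 := fun g q hg e =>
    hm.one_of_sq ho (a := (g, q)) (by simpa only [tc g q hg] using (h3 _ e).1)
  have u0 : ∀ i q, M.T (.inl i, q) * w (.inl i, q) = w (.inl i, q) := fun i q => by
    by_cases e : w (.inl i, q) = 0
    · simp [e]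
    · have := t0 i q e
      rw [H.hs.zero, one_mul] at this
      simp [H.T, qT, this]
  have u1 : ∀ g q, g ≠ 0 → M.T (cl A B g, q) * w (cl A B g, q) = w (cl A B g, q) :=
    fun g q hg => by
      by_cases e : w (cl A B g, q) = 0
      · simp [e]
      · rw [tc g q hg, t1 g q hg e, one_mul]
  have ca : ∀ a : A, cl A B (a : G) = .inr (.inl a) := fun a => dif_pos a.2
  have cn : ∀ a : A, cl A B (-(a : G)) = .inr (.inl a) := fun a => by
    rw [← ca]
    exact (H.cl_eq _ _ (neg_ne_zero.2 (H.hA.ne a)) (H.hA.ne a)).2 (Or.inr rfl)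
  let W : G × P → ℕ := fun l =>
    if l.1 = 0 then w (.inl 0, l.2) + w (.inl 1, l.2) else w (cl A B l.1, l.2)
  have key : ∀ b : G × P, ∑ k : QL A B × P, qR δ s b.1 k.1 * pol p b.2 k.2 * (M.T k * w k) =
      (δ + 2) * ∑ a, pol (fun l : G × P => s l.1 * p l.2) a b * W a := fun b => by
    rw [Fintype.sum_prod_type_right, Fintype.sum_prod_type_right, Finset.mul_sum]
    refine Finset.sum_congr rfl fun q _ => ?_
    rw [H.hA.sum, Fintype.sum_sum_type, Fintype.sum_sum_type, Fin.sum_univ_two, u0, u0, mul_add,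
      Finset.mul_sum]
    simp only [qR, zero_mul, Finset.sum_const_zero, add_zero, pol_prod, H.hs.zero_left, W,
      if_true, pol_comm p q]
    congr 1
    · push_cast; ring
    · refine Finset.sum_congr rfl fun a _ => ?_
      rw [if_neg (H.hA.ne a), if_neg (neg_ne_zero.2 (H.hA.ne a)), cn, ← ca, u1 _ _ (H.hA.ne a),
        H.hs.neg_left, ff, pol_comm s b.1]
      ring
  obtain ⟨Λ, a1, a2⟩ := hm.lagrangian W (by simp [W, ← H.o_eq, h1]) (fun l e => by
    by_cases hl : l.1 = 0
    · rw [hl]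
      simp only [W, if_pos hl] at e
      by_cases e0 : w (.inl 0, l.2) = 0
      · exact t0 1 _ (by omega)
      · exact t0 0 _ e0
    · exact t1 _ _ hl (by simpa only [W, if_neg hl] using e)) (c / (δ + 2)) fun b => by
      rw [div_mul_eq_mul_div, eq_div_iff H.ne2, mul_comm, ← key]
      by_cases hb : b.1 = 0
      · simp only [W, if_pos hb]
        push_cast
        rw [mul_add, ← u0 0, ← u0 1, ← h4, ← h4, ← Finset.sum_add_distrib, hb]
        refine Finset.sum_congr rfl fun k _ => ?_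
        rw [H.qd.qR_zero, H.S, H.S]; ring
      · simp only [W, if_neg hb]
        rw [← u1 _ _ hb, ← h4]
        refine Finset.sum_congr rfl fun k _ => ?_
        rw [← H.S_cl _ hb k, H.S0, H.S]
  exact ⟨Λ, a1, by rw [a2, Fintype.card_prod]⟩

end Pool.Agent.Lib.MP_edb142_al
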