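import Pool.Agent.Lib.MP_edb142_al.H.QP0
import Pool.Agent.Lib.MP_edb142_al.H.QD
import Pool.Agent.Lib.MP_edb142_al.H.QE
import Pool.Agent.Lib.MP_edb142_al.H.QF
import Pool.Agent.Lib.MP_edb142_al.H.K2

open CategoryTheory MonoidalCategory Limits BraidedCategory Module

set_option linter.unusedSectionVars false

namespace Pool.Agent.Lib.MP_edb142_al

universe v u v' u'

variable {G Γ P : Type} [AddCommGroup G] [AddCommGroup Γ] [AddCommGroup P] [Fintype G] [Fintype Γ]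
  [Fintype P] [DecidableEq G] [DecidableEq Γ] [DecidableEq P]
  {C : Type u} [Category.{v} C] [Preadditive C] [Linear ℂ C] [MonoidalCategory C]
  [MonoidalPreadditive C] [MonoidalLinear ℂ C] [HasFiniteBiproducts C] [BraidedCategory C]
  [RigidCategory C] {A : Finset G} {B : Finset Γ}

namespace Quad
variable {M : Modular C (QL A B × P)} {δ : ℂ} {s : G → ℂ} {t : Γ → ℂ} {p : P → ℂ}
  (H : Quad M δ s t p)
include H

open K3 in
theorem centre_of_etale (Λ : AddSubgroup (G × P)) (hΛ : ∀ l ∈ Λ, s l.1 * p l.2 = 1)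
    (hc : Nat.card Λ ^ 2 = Fintype.card G * Fintype.card P) {L : C} (E : Etale M L)
    (hL : ∀ k, finrank ℂ (M.X k ⟶ L) = if k = M.o ∨ k = (.inl 1, 0) then 1 else 0) :
    IsCentre C := by
  have h := E.ifc
  obtain ⟨b⟩ : Nonempty B := Finset.nonempty_coe_sort.2 (Finset.card_pos.1 (by
    rw [H.cardB]; omega))
  have hG : Odd (Fintype.card G) := ⟨_, H.hA.card⟩
  obtain ⟨Q, hQ, rQ⟩ := h.family M hG (.inl 1, 0) (.inr (.inr b), 0) (fun g => (cl A B g, 0)) hL
    (by rw [H.o_eq]; simp) (fun g g' hg hg' => by simp [H.cl_eq g g' hg hg'])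
    (fun g hg => by
      obtain ⟨a, ha, -⟩ := H.cl_ex g hg
      simp [H.o_eq, ha])
    (by simp [H.Ndx])
    (fun g hg => by
      obtain ⟨a, ha, -⟩ := H.cl_ex g hg
      simp [H.Ndx, ha]) (H.Ncx b) (H.Ncc b)
  let U : P → AM E := fun q => E.F.obj (M.X (.inl 0, q))
  have mU : ∀ q r, Nonempty (U q ⊗ U r ≅ U (q + r)) := fun q r =>
    ⟨Functor.Monoidal.μIso E.F _ _ ≪≫ E.F.mapIso (M.ss.iso_of_finrank fun k =>
      (H.shift q (.inl 0, r) k).trans (rank_X M k _).symm).some⟩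
  have rk' : ∀ g q k, rk M E.F k (U q ⊗ Q g) =
      if g = 0 then (if k = (.inl 0, q) ∨ k = (.inl 1, q) then 1 else 0)
      else if k = (cl A B g, q) then 1 else 0 := fun g q k => by
    rw [QP.rk_tens M h, Finset.sum_eq_single (k.1, k.2 - q)]
    · simp [H.shift, rQ, mult, H.o_eq, Prod.ext_iff, sub_eq_zero]
    · intro l _ hl
      rw [H.shift, if_neg, mul_zero]
      rintro rfl
      simp at hl
    · simp
  have : Fintype Λ := Fintype.ofFinite _
  rw [Nat.card_eq_fintype_card] at hc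
  have dm : ∀ g q, ∑ k, (rk M E.F k (U q ⊗ Q g) : ℂ) * M.dim k = δ + 2 := fun g q => by
    simp only [rk']
    split_ifs with hg
    · rw [Finset.sum_eq_add (.inl 0, q) (.inl 1, q) (by simp) (fun k _ hk => by simp [hk])
        (by simp) (by simp)]
      simp [H.dim_eq, qS]
      ring
    · obtain ⟨a, ha, -⟩ := H.cl_ex g hg
      simp [H.dim_eq, qS, ha]
  have ds : ∑ a : Λ, ∑ k, (rk M E.F k (U a.1.2 ⊗ Q a.1.1) : ℂ) * M.dim k =
      Fintype.card Λ * (δ + 2) := by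
    simp only [dm, Finset.sum_const, Finset.card_univ, nsmul_eq_mul]
  obtain ⟨L', ⟨E'⟩, hL'⟩ := h.extend M (Λ := Λ)
    ((Nat.odd_pow_iff two_ne_zero).1 (hc ▸ hG.mul H.hP)) (fun l => U l.1.2 ⊗ Q l.1.1)
    (QP.fam E.sim_unit
      ⟨(λ_ _).symm ≪≫ ((Functor.Monoidal.εIso E.F ≪≫ E.F.mapIso (M.unit_iso.some ≪≫
        eqToIso (congrArg M.X H.o_eq))) ⊗ᵢ hQ.unit.some)⟩
      (fun a a' => ⟨α_ _ _ _ ≪≫ whiskerLeftIso _ ((α_ _ _ _).symm ≪≫
        whiskerRightIso (QP.swap h _ _).some.symm _ ≪≫ α_ _ _ _) ≪≫ (α_ _ _ _).symm ≪≫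
        ((mU _ _).some ⊗ᵢ (hQ.mul _ _).some)⟩)
      fun a ha => h.zero_of_rank (by
        rw [rank_unit (F := E.F) M, rk', H.o_eq]
        by_cases hg : a.1.1 = 0
        · have : (0 : P) ≠ a.1.2 := fun e => ha (Subtype.ext (Prod.ext hg e.symm))
          simp [hg, this]
        · obtain ⟨c, hc, -⟩ := H.cl_ex _ hg
          simp [hg, hc]) M)
    (fun a k hk => by
      rw [rk'] at hk
      rw [H.T, ← hΛ a a.2]
      by_cases hg : a.1.1 = 0
      · rw [if_pos hg] at hk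
        rw [hg, QP.zero H.hs]
        rcases (ite_ne_right_iff.1 hk).1 with rfl | rfl <;> rfl
      · rw [if_neg hg] at hk
        obtain ⟨c, hc, e⟩ := H.cl_ex _ hg
        rw [(ite_ne_right_iff.1 hk).1, hc]
        change s c * _ = _
        rcases e with e | e <;> simp [e, H.hs.even])
    (ds ▸ mul_ne_zero (Nat.cast_ne_zero.2 Fintype.card_ne_zero) H.ne2)
  refine Etale.isCentre M E' H.pos ?_
  rw [hL', ds, H.dimsq, ← Nat.cast_mul, ← hc, mul_pow, Nat.cast_pow]

end Quad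

end Pool.Agent.Lib.MP_edb142_al
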