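import Pool.Agent.Lib.MP_edb142_al.H.Q3
import Pool.Agent.Lib.MP_edb142_al.H.QP
import Pool.Agent.Lib.MP_edb142_al.H.B4

open CategoryTheory MonoidalCategory Limits

namespace Pool.Agent.Lib.MP_edb142_al

universe v u

variable {G Γ P : Type} [AddCommGroup G] [AddCommGroup Γ] [AddCommGroup P] [Fintype G] [Fintype Γ]
  [Fintype P] [DecidableEq G] [DecidableEq Γ] [DecidableEq P]
  {C : Type u} [Category.{v} C] [Preadditive C] [Linear ℂ C] [MonoidalCategory C]
  [MonoidalPreadditive C] [MonoidalLinear ℂ C] [HasFiniteBiproducts C] [BraidedCategory C]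
  [RigidCategory C] {A : Finset G} {B : Finset Γ}
  {M : Modular C (QL A B × P)} {δ : ℂ} {s : G → ℂ} {t : Γ → ℂ} {p : P → ℂ}

theorem Quad.etale (H : Quad M δ s t p) (Dg : Dagger C) : ∃ L : C, Nonempty (Etale M L) ∧
    ∀ k, Module.finrank ℂ (M.X k ⟶ L) = if k = M.o ∨ k = (.inl 1, 0) then 1 else 0 := by
  let ec : A ↪ QL A B × P := ⟨fun a => (.inr (.inl a), 0), fun a b h => by simpa using h⟩
  let ed : B ↪ QL A B × P := ⟨fun a => (.inr (.inr a), 0), fun a b h => by simpa using h⟩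
  have hxo : ((.inl 1, 0) : QL A B × P) ≠ M.o := by rw [H.o_eq]; simp
  have hT : M.T (.inl 1, 0) = 1 := by rw [H.T, H.hp.zero]; simp [qT]
  have hs : ∀ k : QL A B × P, k ∈ insert M.o (insert (.inl 1, 0)
      (Finset.univ.map ec ∪ Finset.univ.map ed)) ↔ k.2 = 0 := by
    rintro ⟨i | a | b, q⟩
    · rw [H.o_eq]; fin_cases i <;> simp [ec, ed]
    · rw [H.o_eq]; simp [ec, ed, eq_comm]
    · rw [H.o_eq]; simp [ec, ed, eq_comm]
  have hδ := H.hδ
  obtain ⟨T⟩ := M.triAlg_of Dg (.inl 1, 0) (Finset.univ.map ec) (Finset.univ.map ed) δ hxo hT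
    (by rw [H.o_eq]; simp [ec]) (by rw [H.o_eq]; simp [ed]) (by simp [ec]) (by simp [ed])
    (by simp [Finset.disjoint_left, ec, ed]) _ rfl (fun k => by simp only [hs, H.Nxx])
    (fun k hk l _ h => H.selfdual k l ((hs k).1 hk) h)
    (by rw [hδ, H.hA.card]; simp) (by simp [H.cardB]) (by rw [H.dim_eq]; simp [qS])
    (fun k hk => by
      obtain ⟨a, -, rfl⟩ := Finset.mem_map.1 hk
      rw [H.dim_eq]; rfl)
    (fun k hk => by
      obtain ⟨a, -, rfl⟩ := Finset.mem_map.1 hk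
      rw [H.dim_eq]; rfl)
    (fun k hk => by
      obtain ⟨a, -, rfl⟩ := Finset.mem_map.1 hk
      rw [M.N_swap]
      exact (H.Ndx a _).trans (if_neg fun h => h.2.2 rfl))
    (fun f h0 h1 h2 k hk => by
      obtain ⟨a, -, rfl⟩ := Finset.mem_map.1 hk
      exact H.van f (fun k hk => h0 k fun e => hk ((hs k).1 e)) (H.o_eq ▸ h1)
        (fun b => h2 _ (Finset.mem_map_of_mem ed (Finset.mem_univ b))) a)
  refine T.etale M _ hxo hT (inv_ne_zero fun h => ?_) fun h => H.ne2 ?_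
  · rw [h, H.hA.card] at hδ
    have : ((2 * A.card + 1 : ℕ) : ℂ) = 0 := by linear_combination -hδ
    exact Nat.succ_ne_zero _ (Nat.cast_eq_zero.1 this)
  · rw [H.dim_eq] at h
    simp only [qS] at h
    rw [if_neg (by decide)] at h
    linear_combination h

theorem Quad.centre (H : Quad M δ s t p) (Dg : Dagger C) (Λ : AddSubgroup (G × P))
    (hΛ : ∀ l ∈ Λ, s l.1 * p l.2 = 1) (hc : Nat.card Λ ^ 2 = Fintype.card G * Fintype.card P) :
    IsCentre C := by
  obtain ⟨L, ⟨E⟩, hL⟩ := H.etale Dg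
  exact H.centre_of_etale Λ hΛ hc E hL

end Pool.Agent.Lib.MP_edb142_al
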