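import Pool.Agent.Lib.MP_edb142_al.H.Q0

open CategoryTheory MonoidalCategory Limits BraidedCategory Module

set_option linter.unusedSectionVars false

namespace Pool.Agent.Lib.MP_edb142_al

universe v u v' u'

section
variable {D : Type u'} [Category.{v'} D] [Preadditive D] [Linear ℂ D] [MonoidalCategory D]
  [MonoidalPreadditive D] [MonoidalLinear ℂ D]

/-- a multiplicative family is determined by the maps out of the unit -/
theorem QP.fam {Λ : Type} [AddCommGroup Λ] {Q : Λ → D} (s1 : Sim (𝟙_ D))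
    (unit : Nonempty (𝟙_ D ≅ Q 0)) (mul : ∀ a b, Nonempty (Q a ⊗ Q b ≅ Q (a + b)))
    (z : ∀ a, a ≠ 0 → ∀ f : 𝟙_ D ⟶ Q a, f = 0) : Fam Q := by
  have m : ∀ a b c, a + b = c → Nonempty (Q a ⊗ Q b ≅ Q c) := fun a b c h => h ▸ mul a b
  have χ : ∀ a b, a + b = 0 → Nonempty (Q a ⊗ Q b ≅ 𝟙_ D) := fun a b h =>
    ⟨(m a b 0 h).some ≪≫ unit.some.symm⟩
  have sp : ∀ a {X Y : D} (f : X ⊗ Q a ⟶ Y ⊗ Q a), ∃ g : X ⟶ Y, f = g ▷ Q a := fun a _ _ f =>
    ⟨_, K3.th_spec (χ a (-a) (add_neg_cancel a)).some (χ (-a) a (neg_add_cancel a)).some f⟩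
  refine ⟨fun a => ⟨fun h0 => s1.ne ?_, fun f => ?_⟩, fun a b hab f => ?_, unit, mul⟩
  · obtain ⟨φ⟩ := χ a (-a) (add_neg_cancel a)
    rw [← φ.inv_hom_id, ← Category.id_comp φ.hom, ← id_whiskerRight, h0]
    simp
  · obtain ⟨g, hg⟩ := sp a ((λ_ _).hom ≫ f ≫ (λ_ _).inv)
    obtain ⟨c, rfl⟩ := s1.ex g
    refine ⟨c, ?_⟩
    have := congrArg ((λ_ _).inv ≫ · ≫ (λ_ _).hom) hg
    simpa using this
  · obtain ⟨ψ⟩ := m (b - a) a b (sub_add_cancel b a)
    obtain ⟨g, hg⟩ := sp a ((λ_ _).hom ≫ f ≫ ψ.inv)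
    rw [z _ (sub_ne_zero.2 hab.symm) g] at hg
    have := congrArg ((λ_ _).inv ≫ · ≫ ψ.hom) hg
    simpa using this

end

variable {C : Type u} [Category.{v} C] [Preadditive C] [Linear ℂ C] [MonoidalCategory C]
  [MonoidalPreadditive C] [MonoidalLinear ℂ C] [HasFiniteBiproducts C] [BraidedCategory C]
  [RigidCategory C] {I : Type} [Fintype I] [DecidableEq I]
  {D : Type u'} [Category.{v'} D] [Preadditive D] [Linear ℂ D] [MonoidalCategory D]
  [MonoidalPreadditive D] [MonoidalLinear ℂ D]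
  {F : C ⥤ D} [F.Monoidal] [F.Additive] [F.Linear ℂ] (M : Modular C I)

namespace QP
open K3
variable {A : C} (h : Ifc F A)
include h

/-- free modules commute with every module -/
theorem swap (Y : C) (P : D) : Nonempty (F.obj Y ⊗ P ≅ P ⊗ F.obj Y) := by
  obtain ⟨Z, i, p, hp⟩ := h.gen P
  obtain ⟨c, hc⟩ : ∃ c : F.obj Y ⊗ F.obj Z ≅ F.obj Z ⊗ F.obj Y, c.hom = c0 F Y Z :=
    ⟨Functor.Monoidal.μIso F Y Z ≪≫ F.mapIso (β_ Y Z) ≪≫ (Functor.Monoidal.μIso F Z Y).symm, rfl⟩
  have n := h.nat Y Z Z (p ≫ i)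
  rw [← hc, MonoidalCategory.whiskerLeft_comp, comp_whiskerRight, Category.assoc] at n
  refine ⟨⟨F.obj Y ◁ i ≫ c.hom ≫ p ▷ _, i ▷ _ ≫ c.inv ≫ F.obj Y ◁ p, ?_, ?_⟩⟩
  · simp only [Category.assoc]
    rw [← reassoc_of% n]
    simp [← MonoidalCategory.whiskerLeft_comp, hp]
  · simp only [Category.assoc]
    rw [reassoc_of% n]
    simp [← comp_whiskerRight, hp]

theorem rk_tens (P : D) (i k : I) :
    rk M F k (F.obj (M.X i) ⊗ P) = ∑ l, rk M F l P * M.N i l k := by
  obtain ⟨L, e, he⟩ := h.rep M P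
  rw [rk, ← (he.proj (M.X i)).rank, rank_tens M]
  exact Finset.sum_congr rfl fun l _ => by rw [he.rank]; rfl

end QP

theorem QP.zero {G : Type} [AddCommGroup G] {θ : G → ℂ} (h : IsMetric θ) : θ 0 = 1 := by
  have h1 := h.add 0 0 0
  have h0 := h.ne 0
  simp only [pol, add_zero] at h1
  field_simp at h1
  exact h1

variable {G Γ P : Type} [AddCommGroup G] [AddCommGroup Γ] [AddCommGroup P] [Fintype G] [Fintype Γ]
  [Fintype P] [DecidableEq G] [DecidableEq Γ] [DecidableEq P] {A : Finset G} {B : Finset Γ}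

theorem quad_reindex {I : Type} [Fintype I] [DecidableEq I] (M : Modular C I) (e : I ≃ QL A B × P)
    {δ : ℂ} {s : G → ℂ} {t : Γ → ℂ} {p : P → ℂ} (hs : IsMetric s) (ht : IsMetric t)
    (hp : IsMetric p) (hA : IsHalf A) (hB : IsHalf B) (hP : Odd (Fintype.card P))
    (hΓ : Fintype.card Γ = Fintype.card G + 4) (hδ : δ ^ 2 = Fintype.card G * (δ + 1))
    (h₁ : ∀ i j, M.S i j = qS δ s t (e i).1 (e j).1 * pol p (e i).2 (e j).2)
    (h₂ : ∀ i, M.T i = qT s t (e i).1 * p (e i).2) :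
    ∃ M' : Modular C (QL A B × P), Quad M' δ s t p := by
  refine ⟨{ X := fun k => M.X (e.symm k)
            o := e M.o
            unit_iso := by
              rw [e.symm_apply_apply]
              exact M.unit_iso
            end_one := fun k => M.end_one _
            hom_zero := fun k l h => M.hom_zero _ _ fun h' => h (e.symm.injective h')
            decomp := fun Y => by
              obtain ⟨n, t, ⟨φ⟩⟩ := M.decomp Y
              exact ⟨n, fun a => e (t a), ⟨φ ≪≫ biproduct.mapIso fun a =>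
                eqToIso (congrArg M.X (e.symm_apply_apply (t a)).symm)⟩⟩
            θ := M.θ
            θ_tensor := M.θ_tensor
            θ_dual := M.θ_dual
            S := M.S.submatrix e.symm e.symm
            T := fun k => M.T (e.symm k)
            S_eq := fun k l => M.S_eq _ _
            T_eq := fun k => M.T_eq _
            S_det := by
              rw [Matrix.det_submatrix_equiv_self]
              exact M.S_det }, hs, ht, hp, hA, hB, hP, hΓ, hδ, fun k l => ?_, fun k => ?_⟩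
  · change M.S (e.symm k) (e.symm l) = _
    rw [h₁, e.apply_symm_apply, e.apply_symm_apply]
  · change M.T (e.symm k) = _
    rw [h₂, e.apply_symm_apply]

end Pool.Agent.Lib.MP_edb142_al
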